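import Pool.Agent.HAF2.FinDefs

/-!
# Module IDX: the isomorphism of the model space with `ℝ^q`

The plane `r` goes to the coordinates `2 (e r)` (real part) and `2 (e r) + 1` (imaginary part), the
lines go bijectively to the remaining coordinates (there are `q - 2 * card R` of them).
-/

namespace Pool.Agent.HAF2

open Filter Topology MeasureTheory
open Pool.Agent.HaefligerClasses (QuotientManifold IsForm HaefligerStructure curvature
  torusElement torusMatrix)

private theorem torus_single_apply (q : ℕ) (j : Fin (q / 2)) (w : Fin q → ℝ) (k : Fin q) :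
    torusElement q (Pi.single j 1) w k =
      if k.1 = 2 * j.1 + 1 then w ⟨2 * j.1, by omega⟩
      else if k.1 = 2 * j.1 then - w ⟨2 * j.1 + 1, by omega⟩ else 0 := by
  have h0 : torusElement q (Pi.single j 1) w k =
      ∑ c, torusMatrix q (Pi.single j 1) k c * w c := by
    show (Matrix.toLin' (torusMatrix q (Pi.single j 1))) w k = _
    rw [Matrix.toLin'_apply]
    rfl
  rw [h0]
  by_cases h1 : k.1 = 2 * j.1 + 1
  · rw [if_pos h1]
    rw [Finset.sum_eq_single (⟨2 * j.1, by omega⟩ : Fin q)]
    · have h2 : torusMatrix q (Pi.single j 1) k ⟨2 * j.1, by omega⟩ = 1 := by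
        unfold torusMatrix
        rw [Matrix.of_apply, dif_pos ⟨by omega, h1⟩]
        have h3 : (⟨2 * j.1 / 2, by omega⟩ : Fin (q / 2)) = j := by
          apply Fin.ext
          show 2 * j.1 / 2 = j.1
          omega
        rw [h3, Pi.single_eq_same]
      rw [h2, one_mul]
    · intro c _ hc
      have hc' : c.1 ≠ 2 * j.1 := fun h => hc (Fin.ext h)
      have h2 : torusMatrix q (Pi.single j 1) k c = 0 := by
        unfold torusMatrix
        rw [Matrix.of_apply, dif_neg (by omega)]
        rw [dif_neg (by omega)]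
      rw [h2, zero_mul]
    · intro h
      exact absurd (Finset.mem_univ _) h
  · rw [if_neg h1]
    by_cases h2 : k.1 = 2 * j.1
    · rw [if_pos h2]
      rw [Finset.sum_eq_single (⟨2 * j.1 + 1, by omega⟩ : Fin q)]
      · have h3 : torusMatrix q (Pi.single j 1) k ⟨2 * j.1 + 1, by omega⟩ = -1 := by
          unfold torusMatrix
          rw [Matrix.of_apply, dif_neg (by omega), dif_pos ⟨by show (2 * j.1 + 1) % 2 = 1; omega,
            by show 2 * j.1 + 1 = k.1 + 1; omega⟩]
          have h4 : (⟨k.1 / 2, by omega⟩ : Fin (q / 2)) = j := by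
            apply Fin.ext
            show k.1 / 2 = j.1
            omega
          rw [h4, Pi.single_eq_same]
        rw [h3, neg_one_mul]
      · intro c _ hc
        have hc' : c.1 ≠ 2 * j.1 + 1 := fun h => hc (Fin.ext h)
        have h3 : torusMatrix q (Pi.single j 1) k c = 0 := by
          unfold torusMatrix
          rw [Matrix.of_apply, dif_neg (by omega)]
          rw [dif_neg (by omega)]
        rw [h3, zero_mul]
      · intro h
        exact absurd (Finset.mem_univ _) h
    · rw [if_neg h2]
      refine Finset.sum_eq_zero fun c _ => ?_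
      have h3 : torusMatrix q (Pi.single j 1) k c = 0 := by
        unfold torusMatrix
        rw [Matrix.of_apply]
        split_ifs with h4 h5
        · have h6 : (⟨c.1 / 2, by omega⟩ : Fin (q / 2)) ≠ j := by
            intro h
            have h7 : c.1 / 2 = j.1 := congrArg Fin.val h
            omega
          rw [Pi.single_eq_of_ne h6]
        · have h6 : (⟨k.1 / 2, by omega⟩ : Fin (q / 2)) ≠ j := by
            intro h
            have h7 : k.1 / 2 = j.1 := congrArg Fin.val h
            omega
          rw [Pi.single_eq_of_ne h6, neg_zero]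
        · rfl
      rw [h3, zero_mul]

/-- coordinates of the model space -/
private noncomputable def coordE (R K : Type) [Fintype R] [Fintype K] :
    TV R K ≃ₗ[ℝ] ((R × Fin 2) ⊕ K → ℝ) where
  toFun v := Sum.elim (fun p => if p.2 = 0 then (v.1 p.1).re else (v.1 p.1).im) v.2
  invFun w := (fun r => ⟨w (Sum.inl (r, 0)), w (Sum.inl (r, 1))⟩, fun k => w (Sum.inr k))
  map_add' v w := by
    funext s
    rcases s with ⟨r, i⟩ | k
    · simp only [Sum.elim_inl, Pi.add_apply, Prod.fst_add, Complex.add_re, Complex.add_im]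
      split_ifs <;> rfl
    · rfl
  map_smul' c v := by
    funext s
    rcases s with ⟨r, i⟩ | k
    · simp only [Sum.elim_inl, Pi.smul_apply, Prod.smul_fst, Complex.smul_re, Complex.smul_im,
        RingHom.id_apply]
      split_ifs <;> rfl
    · rfl
  left_inv v := by
    refine Prod.ext (funext fun r => ?_) (funext fun k => rfl)
    apply Complex.ext
    · show (if (0 : Fin 2) = 0 then (v.1 r).re else (v.1 r).im) = (v.1 r).re
      rw [if_pos rfl]
    · show (if (1 : Fin 2) = 0 then (v.1 r).re else (v.1 r).im) = (v.1 r).im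
      rw [if_neg (by decide)]
  right_inv w := by
    funext s
    rcases s with ⟨r, i⟩ | k
    · show (if i = 0 then w (Sum.inl (r, 0)) else w (Sum.inl (r, 1))) = w (Sum.inl (r, i))
      fin_cases i
      · rfl
      · rfl
    · rfl

theorem exists_iso (q : ℕ) {R K : Type} [Fintype R] [Fintype K] [DecidableEq R]
    (e : R ↪ Fin (q / 2)) (hK : Fintype.card K + 2 * Fintype.card R = q) :
    ∃ Φ : TV R K ≃L[ℝ] (Fin q → ℝ), IsIsom Φ ∧
      ∀ r, conjP Φ (genT r) = torusElement q (Pi.single (e r) 1) := by
  classical
  -- the planes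
  have hq2 : ∀ j : Fin (q / 2), 2 * j.1 + 1 < q := fun j => by omega
  let f : R × Fin 2 → Fin q := fun p => ⟨2 * (e p.1).1 + p.2.1, by
    have h1 := hq2 (e p.1)
    have h2 := p.2.2
    omega⟩
  have hf : Function.Injective f := by
    rintro ⟨r, i⟩ ⟨r', i'⟩ h
    have h1 : 2 * (e r).1 + i.1 = 2 * (e r').1 + i'.1 := congrArg Fin.val h
    have h2 := i.2
    have h3 := i'.2
    have h4 : (e r).1 = (e r').1 := by omega
    have h5 : i.1 = i'.1 := by omega
    rw [e.injective (Fin.ext h4), Fin.ext h5]
  let S : Set (Fin q) := Set.range f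
  have hcardS : Fintype.card S = 2 * Fintype.card R := by
    rw [Set.card_range_of_injective hf, Fintype.card_prod, Fintype.card_fin, mul_comm]
  have hcardC : Fintype.card K = Fintype.card (Sᶜ : Set (Fin q)) := by
    have h1 : Fintype.card (Sᶜ : Set (Fin q)) = Fintype.card (Fin q) - Fintype.card S :=
      Fintype.card_compl_set S
    rw [Fintype.card_fin, hcardS] at h1
    omega
  let g : K ≃ (Sᶜ : Set (Fin q)) := Fintype.equivOfCardEq hcardC
  let σ : (R × Fin 2) ⊕ K ≃ Fin q :=
    (Equiv.sumCongr (Equiv.ofInjective f hf) g).trans (Equiv.Set.sumCompl S)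
  have hσl : ∀ p, σ (Sum.inl p) = f p := fun p => by
    simp [σ, Equiv.ofInjective]
  have hσr : ∀ k, σ (Sum.inr k) ∉ S := fun k => by
    have h1 : σ (Sum.inr k) = (g k).1 := by simp [σ]
    rw [h1]
    exact (g k).2
  let Φ : TV R K ≃L[ℝ] (Fin q → ℝ) :=
    ((coordE R K).trans (LinearEquiv.funCongrLeft ℝ ℝ σ.symm)).toContinuousLinearEquiv
  have hΦ : ∀ v s, Φ v (σ s) = coordE R K v s := fun v s => by
    show coordE R K v (σ.symm (σ s)) = _
    rw [Equiv.symm_apply_apply]
  refine ⟨Φ, ?_, ?_⟩
  · intro v
    rw [← Equiv.sum_comp σ (fun k => Φ v k ^ 2)]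
    simp_rw [hΦ]
    rw [Fintype.sum_sum_type, Fintype.sum_prod_type]
    congr 1
    refine Finset.sum_congr rfl fun r _ => ?_
    rw [Fin.sum_univ_two, Complex.normSq_apply]
    show (v.1 r).re ^ 2 + (v.1 r).im ^ 2 = _
    ring
  · intro r
    refine ContinuousLinearMap.ext fun w => ?_
    obtain ⟨v, rfl⟩ := Φ.surjective w
    funext k
    obtain ⟨s, rfl⟩ := σ.surjective k
    have h1 : conjP Φ (genT r) (Φ v) = Φ (genT r v) := by
      show Φ (genT r (Φ.symm (Φ v))) = _
      rw [Φ.symm_apply_apply]
    rw [h1, hΦ, torus_single_apply]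
    have hre : Φ v ⟨2 * (e r).1, by have := hq2 (e r); omega⟩ = (v.1 r).re := by
      have h2 : (⟨2 * (e r).1, by have := hq2 (e r); omega⟩ : Fin q) = σ (Sum.inl (r, 0)) := by
        rw [hσl]
        apply Fin.ext
        rfl
      rw [h2, hΦ]
      rfl
    have him : Φ v ⟨2 * (e r).1 + 1, hq2 (e r)⟩ = (v.1 r).im := by
      have h2 : (⟨2 * (e r).1 + 1, hq2 (e r)⟩ : Fin q) = σ (Sum.inl (r, 1)) := by
        rw [hσl]
        apply Fin.ext
        rfl
      rw [h2, hΦ]
      rfl
    rw [hre, him]
    rcases s with ⟨r', i⟩ | k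
    · have hval : (σ (Sum.inl (r', i))).1 = 2 * (e r').1 + i.1 := by rw [hσl]
      rw [hval]
      by_cases hr : r' = r
      · subst hr
        fin_cases i
        · show ((if r' = r' then Complex.I else 0) * v.1 r').re = _
          rw [if_pos rfl, if_neg (by show ¬ (2 * (e r').1 + 0 = 2 * (e r').1 + 1); omega),
            if_pos (by rfl)]
          simp
        · show ((if r' = r' then Complex.I else 0) * v.1 r').im = _
          rw [if_pos rfl, if_pos (by rfl)]
          simp
      · have hne : (e r').1 ≠ (e r).1 := fun h => hr (e.injective (Fin.ext h))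
        have hi := i.2
        rw [if_neg (by omega), if_neg (by omega)]
        show (if i = 0 then ((if r' = r then Complex.I else 0) * v.1 r').re
          else ((if r' = r then Complex.I else 0) * v.1 r').im) = 0
        rw [if_neg hr, zero_mul]
        simp
    · have h2 := hσr k
      have h3 : (σ (Sum.inr k)).1 ≠ 2 * (e r).1 + 1 := by
        intro h
        apply h2
        refine ⟨(r, 1), ?_⟩
        apply Fin.ext
        rw [h]
        rfl
      have h4 : (σ (Sum.inr k)).1 ≠ 2 * (e r).1 := by
        intro h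
        apply h2
        refine ⟨(r, 0), ?_⟩
        apply Fin.ext
        rw [h]
        rfl
      rw [if_neg h3, if_neg h4]
      rfl

end Pool.Agent.HAF2
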