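import Pool.Agent.HAF2.Model

/-!
# Module SEL: comparing a symmetric function with a monomial

Group the functions `r : Fin n → R` by their multiplicities `μ j = #{s | r s = j}`. By hypothesis
`∑ μ x ^ μ (∑ r of type μ, M r) = C x ^ α` for all real `x`, so (compare `MvPolynomial`s,
`MvPolynomial.funext`, coefficients) the inner sum is `C` for `μ = α` and `0` otherwise. As `g` is
symmetric it is constant on the functions of a given type.
-/

namespace Pool.Agent.HAF2

/-- The multiplicities of a function. -/
private def selCnt {R : Type} [DecidableEq R] {n : ℕ} (r : Fin n → R) (j : R) : ℕ :=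
  (Finset.univ.filter fun s => r s = j).card

private theorem sel_perm {R : Type} [Fintype R] [DecidableEq R] {n : ℕ} (r r' : Fin n → R)
    (h : selCnt r = selCnt r') : ∃ σ : Equiv.Perm (Fin n), ∀ s, r' (σ s) = r s := by
  have e : ∀ c : R, Nonempty ({a // r a = c} ≃ {b // r' b = c}) := by
    intro c
    refine ⟨Fintype.equivOfCardEq ?_⟩
    rw [Fintype.card_subtype, Fintype.card_subtype]
    exact congrFun h c
  refine ⟨Equiv.ofFiberEquiv fun c => (e c).some, fun s => ?_⟩
  exact Equiv.ofFiberEquiv_map _ s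

private theorem sel_prod {R S : Type} [Fintype R] [DecidableEq R] [CommMonoid S] {n : ℕ}
    (r : Fin n → R) (x : R → S) : ∏ s, x (r s) = ∏ j, x j ^ selCnt r j := by
  rw [← Finset.prod_fiberwise Finset.univ r]
  refine Finset.prod_congr rfl fun j _ => ?_
  rw [selCnt, ← Finset.prod_const]
  refine Finset.prod_congr rfl fun s hs => ?_
  rw [(Finset.mem_filter.1 hs).2]

private theorem sel_mono {R : Type} [Fintype R] [DecidableEq R] (μ : R → ℕ) (c : ℝ) :
    MvPolynomial.C c * ∏ j, (MvPolynomial.X j : MvPolynomial R ℝ) ^ μ j =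
      MvPolynomial.monomial (Finsupp.equivFunOnFinite.symm μ) c := by
  rw [MvPolynomial.monomial_eq, Finsupp.prod_fintype _ _ fun i => pow_zero _]
  rfl

private theorem sel_coeff {R : Type} [Fintype R] [DecidableEq R] {n : ℕ} (α : R → ℕ)
    (M : (Fin n → R) → ℝ) (C : ℝ)
    (hM : ∀ x : R → ℝ, ∑ r : Fin n → R, (∏ s, x (r s)) * M r = C * ∏ j, x j ^ α j)
    (μ : R → ℕ) :
    ∑ r ∈ Finset.univ.filter (fun r : Fin n → R => selCnt r = μ), M r = if α = μ then C else 0 := by
  classical
  have h : (∑ r : Fin n → R, MvPolynomial.monomial (Finsupp.equivFunOnFinite.symm (selCnt r)) (M r) :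
      MvPolynomial R ℝ) = MvPolynomial.monomial (Finsupp.equivFunOnFinite.symm α) C := by
    refine MvPolynomial.funext fun x => ?_
    rw [map_sum, ← sel_mono]
    simp only [← sel_mono, map_mul, map_prod, map_pow, MvPolynomial.eval_C, MvPolynomial.eval_X]
    rw [← hM x]
    refine Finset.sum_congr rfl fun r _ => ?_
    rw [sel_prod, mul_comm]
  have h2 := congrArg (MvPolynomial.coeff (Finsupp.equivFunOnFinite.symm μ)) h
  rw [MvPolynomial.coeff_sum, MvPolynomial.coeff_monomial] at h2
  simp only [MvPolynomial.coeff_monomial, EmbeddingLike.apply_eq_iff_eq] at h2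
  rw [← h2, Finset.sum_filter]

theorem sum_symm_mul {R : Type} [Fintype R] [DecidableEq R] {n : ℕ} (α : R → ℕ)
    (g M : (Fin n → R) → ℝ) (C : ℝ)
    (hg : ∀ (σ : Equiv.Perm (Fin n)) (r : Fin n → R), g (fun s => r (σ s)) = g r)
    (hM : ∀ x : R → ℝ, ∑ r : Fin n → R, (∏ s, x (r s)) * M r = C * ∏ j, x j ^ α j)
    (r₀ : Fin n → R) (h0 : ∀ j, (Finset.univ.filter fun s => r₀ s = j).card = α j) :
    ∑ r, g r * M r = C * g r₀ := by
  classical
  have hconst : ∀ r r' : Fin n → R, selCnt r = selCnt r' → g r = g r' := by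
    intro r r' h
    obtain ⟨σ, hσ⟩ := sel_perm r r' h
    rw [← hg σ r']
    exact congrArg g (funext fun s => (hσ s).symm)
  have hα : selCnt r₀ = α := funext h0
  rw [← Finset.sum_filter_add_sum_filter_not Finset.univ (fun r : Fin n → R => selCnt r = α)]
  have h1 : ∑ r ∈ Finset.univ.filter (fun r : Fin n → R => selCnt r = α), g r * M r =
      C * g r₀ := by
    have : ∀ r ∈ Finset.univ.filter (fun r : Fin n → R => selCnt r = α), g r * M r = g r₀ * M r := by
      intro r hr
      rw [hconst r r₀ ((Finset.mem_filter.1 hr).2.trans hα.symm)]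
    rw [Finset.sum_congr rfl this, ← Finset.mul_sum, sel_coeff α M C hM α, if_pos rfl, mul_comm]
  have h2 : ∑ r ∈ Finset.univ.filter (fun r : Fin n → R => ¬ selCnt r = α), g r * M r = 0 := by
    rw [← Finset.sum_fiberwise_of_maps_to (g := fun r : Fin n → R => selCnt r)
      (t := (Finset.univ.filter (fun r : Fin n → R => ¬ selCnt r = α)).image selCnt)
      (fun r hr => Finset.mem_image_of_mem _ hr)]
    refine Finset.sum_eq_zero fun μ hμ => ?_
    obtain ⟨r₁, hr₁, rfl⟩ := Finset.mem_image.1 hμ
    have hne : ¬ selCnt r₁ = α := (Finset.mem_filter.1 hr₁).2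
    have e1 : ((Finset.univ.filter (fun r : Fin n → R => ¬ selCnt r = α)).filter
        fun r => selCnt r = selCnt r₁) =
        Finset.univ.filter (fun r : Fin n → R => selCnt r = selCnt r₁) := by
      ext r
      simp only [Finset.mem_filter, Finset.mem_univ, true_and, and_iff_right_iff_imp]
      intro h
      rw [h]
      exact hne
    rw [e1]
    have : ∀ r ∈ Finset.univ.filter (fun r : Fin n → R => selCnt r = selCnt r₁),
        g r * M r = g r₁ * M r := by
      intro r hr
      rw [hconst r r₁ (Finset.mem_filter.1 hr).2]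
    rw [Finset.sum_congr rfl this, ← Finset.mul_sum, sel_coeff α M C hM (selCnt r₁),
      if_neg (fun h => hne h.symm), mul_zero]
  rw [h1, h2, add_zero]

end Pool.Agent.HAF2
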