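import Pool.Agent.HAF2.FinDefs
import Pool.Agent.HAF2.Sel

/-!
# Module NEX: the Chern-Weil form of a block is not exact

If `extDeriv β = chernWeil F (curvature)` then the integral of `extDeriv β` over the cycle vanishes
(`Cycle.closed`, `IsForm → IsForm1`). On the other hand by multilinearity
`chernWeil F (∑ r K_r • G_r) u = ∑ r : Fin (e+1) → R, F (G_{r 0}, ..., G_{r e}) * ∑ σ, sign σ *
∏ s, K_{r s} (u (σ (2 s))) (u (σ (2 s + 1)))`, and `sum_symm_mul` (with `M r` the integral of the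
inner sum over the cycle; the hypothesis `hM` is the field `integral` with `y = 0`, after expanding
the product of sums in `pairSum`) gives the value `C * F (G_{r₀ 0}, ..., G_{r₀ e}) ≠ 0`.
-/

namespace Pool.Agent.HAF2

open Filter Topology MeasureTheory
open scoped ContDiff
open Pool.Agent.HaefligerClasses (QuotientManifold IsForm HaefligerStructure curvature
  torusElement)

/-- the antisymmetrised product of entries of several matrices -/
private noncomputable def mixSum {N : ℕ} (n : ℕ) (h : N = 2 * n)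
    (A : Fin n → Fin N → Fin N → ℝ) : ℝ :=
  ∑ σ : Equiv.Perm (Fin N), ((Equiv.Perm.sign σ : ℤ) : ℝ) *
    ∏ s : Fin n, A s (σ ⟨2 * s.1, by omega⟩) (σ ⟨2 * s.1 + 1, by omega⟩)

private theorem pairSum_eq_sum_mixSum {R : Type} [Fintype R] [DecidableEq R] {N : ℕ} (n : ℕ)
    (h : N = 2 * n) (x : R → ℝ) (κ : R → Fin N → Fin N → ℝ) :
    pairSum n h (fun i j => ∑ r, x r * κ r i j) =
      ∑ r : Fin n → R, (∏ s, x (r s)) * mixSum n h (fun s => κ (r s)) := by
  unfold pairSum mixSum
  simp_rw [Finset.mul_sum]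
  rw [Finset.sum_comm]
  refine Finset.sum_congr rfl fun σ _ => ?_
  rw [Finset.prod_univ_sum, Fintype.piFinset_univ, Finset.mul_sum]
  refine Finset.sum_congr rfl fun r _ => ?_
  rw [Finset.prod_mul_distrib]
  ring

private theorem chernWeil_expand {R : Type} [Fintype R] [DecidableEq R] {q e N : ℕ} {E : Type}
    (hm : 2 * e + 1 + 1 = N) (hN : N = 2 * (e + 1)) (F : RotInvariantForm q (e + 1))
    (G : R → (Fin q → ℝ) →L[ℝ] (Fin q → ℝ)) (κ : R → E → E → ℝ) (v : Fin N → E) :
    chernWeil F (fun u w => ∑ r, κ r u w • G r) (fun i => v (Fin.cast hm i)) =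
      ∑ r : Fin (e + 1) → R, F.toFun (fun s => G (r s)) *
        mixSum (e + 1) hN (fun s i j => κ (r s) (v i) (v j)) := by
  subst hm
  unfold chernWeil mixSum
  simp_rw [Finset.mul_sum]
  rw [Finset.sum_comm]
  refine Finset.sum_congr rfl fun σ _ => ?_
  rw [MultilinearMap.map_sum, zsmul_eq_mul, Finset.mul_sum]
  refine Finset.sum_congr rfl fun r _ => ?_
  rw [MultilinearMap.map_smul_univ, smul_eq_mul]
  simp only [Fin.cast_refl, id]
  ring

/-- the curvature forms are continuous along the cubes of the cycle -/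
private theorem continuousOn_curv {R K : Type} [Fintype R] [Fintype K] {n b : ℕ} {α : R → ℕ}
    (D : Block R K n α b) (k : D.cyc.κ) (r : R) (i j : Fin D.N) :
    ContinuousOn (fun ξ => D.curv r (D.cyc.c k ξ)
      (fderiv ℝ (D.cyc.c k) ξ (Pi.single i 1)) (fderiv ℝ (D.cyc.c k) ξ (Pi.single j 1)))
      (Set.Icc 0 1) := by
  intro ξ hξ
  apply ContinuousAt.continuousWithinAt
  obtain ⟨i₀, hi₀⟩ := D.cover _ (D.cyc.mem_c k ξ hξ)
  have hc : Continuous (D.cyc.c k) := (D.cyc.smooth_c k).continuous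
  have hfd : Continuous (fderiv ℝ (D.cyc.c k)) :=
    (D.cyc.smooth_c k).continuous_fderiv (by simp)
  have hθ : ContinuousAt (fderiv ℝ (D.θ i₀ r)) (D.cyc.c k ξ) :=
    ((D.smooth_θ i₀ r).contDiffAt ((D.isOpen_dom i₀).mem_nhds hi₀)).fderiv_right
      (m := 0) (by simp) |>.continuousAt
  have hθ' : ContinuousAt (fun ξ => fderiv ℝ (D.θ i₀ r) (D.cyc.c k ξ)) ξ :=
    ContinuousAt.comp (g := fderiv ℝ (D.θ i₀ r)) hθ hc.continuousAt
  have hei : ContinuousAt (fun ξ => fderiv ℝ (D.cyc.c k) ξ (Pi.single i 1)) ξ :=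
    (hfd.clm_apply continuous_const).continuousAt
  have hej : ContinuousAt (fun ξ => fderiv ℝ (D.cyc.c k) ξ (Pi.single j 1)) ξ :=
    (hfd.clm_apply continuous_const).continuousAt
  have hcont : ContinuousAt (fun ξ => dform (D.θ i₀ r) (D.cyc.c k ξ)
      (fderiv ℝ (D.cyc.c k) ξ (Pi.single i 1)) (fderiv ℝ (D.cyc.c k) ξ (Pi.single j 1))) ξ :=
    ((hθ'.clm_apply hei).clm_apply hej).sub ((hθ'.clm_apply hej).clm_apply hei)
  refine hcont.congr ?_
  have hev : ∀ᶠ ξ' in 𝓝 ξ, D.cyc.c k ξ' ∈ D.dom i₀ :=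
    hc.continuousAt.eventually_mem ((D.isOpen_dom i₀).mem_nhds hi₀)
  filter_upwards [hev] with ξ' h'
  exact (D.curv_eq i₀ r _ h' _ _).symm

private theorem integrable_mixSum {R K : Type} [Fintype R] [Fintype K] {n b : ℕ} {α : R → ℕ}
    (D : Block R K n α b) (k : D.cyc.κ) (r : Fin n → R) :
    IntegrableOn (fun ξ => mixSum n D.hN (fun s i j => D.curv (r s) (D.cyc.c k ξ)
      (fderiv ℝ (D.cyc.c k) ξ (Pi.single i 1)) (fderiv ℝ (D.cyc.c k) ξ (Pi.single j 1))))
      (Set.Icc 0 1) := by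
  apply ContinuousOn.integrableOn_compact isCompact_Icc
  unfold mixSum
  refine continuousOn_finsetSum _ fun σ _ => continuousOn_const.mul ?_
  exact continuousOn_finsetProd _ fun s _ => continuousOn_curv D k (r s) _ _

theorem not_vanishes_of_block {R K : Type} [Fintype R] [Fintype K] [DecidableEq R] {e q : ℕ}
    {α : R → ℕ} (D : Block R K (e + 1) α 0) (Φ : TV R K ≃L[ℝ] (Fin q → ℝ)) (hΦ : IsIsom Φ)
    (F : RotInvariantForm q (e + 1)) (r₀ : Fin (e + 1) → R)
    (h0 : ∀ j, (Finset.univ.filter fun s => r₀ s = j).card = α j)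
    (hF : F.toFun (fun s => conjP Φ (genT (r₀ s))) ≠ 0) : ¬ VanishesOnHaefliger F := by
  intro hvan
  obtain ⟨β, hβ, hex⟩ := hvan D.E inferInstance inferInstance inferInstance D.Λ inferInstance D.M
    (mapH (D.o.symm.trans Φ) D.H) (metricConn D Φ hΦ)
  have hm : 2 * e + 1 + 1 = D.N := by have := D.hN; omega
  have hclosed := D.cyc.closed (2 * e + 1) hm β ⟨hβ.1.of_le (by simp), hβ.2⟩
  -- the integrals
  set Mr : (Fin (e + 1) → R) → ℝ := fun r => ∑ k, ∫ ξ in Set.Icc (0 : Fin D.N → ℝ) 1,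
    mixSum (e + 1) D.hN (fun s i j => D.curv (r s) (D.cyc.c k ξ)
      (fderiv ℝ (D.cyc.c k) ξ (Pi.single i 1)) (fderiv ℝ (D.cyc.c k) ξ (Pi.single j 1)))
    with hMr
  obtain ⟨C, hC, hint⟩ := D.integral
  have hM : ∀ x : R → ℝ, ∑ r : Fin (e + 1) → R, (∏ s, x (r s)) * Mr r =
      C * ∏ j, x j ^ α j := by
    intro x
    have h1 := hint x 0
    rw [pow_zero, mul_one] at h1
    rw [← h1]
    unfold Cycle.power
    simp only [zero_mul, add_zero, hMr, Finset.mul_sum]
    rw [Finset.sum_comm]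
    refine Finset.sum_congr rfl fun k _ => ?_
    simp_rw [pairSum_eq_sum_mixSum]
    rw [integral_finsetSum _ fun r _ => (integrable_mixSum D k r).const_mul _]
    refine Finset.sum_congr rfl fun r _ => ?_
    rw [integral_const_mul]
  have hsymm : ∀ (σ : Equiv.Perm (Fin (e + 1))) (r : Fin (e + 1) → R),
      (fun r : Fin (e + 1) → R => F.toFun (fun s => conjP Φ (genT (r s)))) (fun s => r (σ s)) =
      (fun r : Fin (e + 1) → R => F.toFun (fun s => conjP Φ (genT (r s)))) r :=
    fun σ r => F.symm σ fun s => conjP Φ (genT (r s))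
  have hsum := sum_symm_mul α (fun r : Fin (e + 1) → R =>
    F.toFun (fun s => conjP Φ (genT (r s)))) Mr C hsymm hM r₀ h0
  have hzero : ∑ r : Fin (e + 1) → R, F.toFun (fun s => conjP Φ (genT (r s))) * Mr r = 0 := by
    rw [← hclosed]
    simp only [hMr, Finset.mul_sum]
    rw [Finset.sum_comm]
    refine Finset.sum_congr rfl fun k _ => ?_
    rw [Finset.sum_congr rfl fun r _ => (integral_const_mul
      (F.toFun (fun s => conjP Φ (genT (r s)))) _).symm,
      ← integral_finsetSum _ fun r _ => (integrable_mixSum D k r).const_mul _]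
    refine setIntegral_congr_fun measurableSet_Icc fun ξ hξ => ?_
    obtain ⟨i, hi⟩ := D.H.cover _ (D.cyc.mem_c k ξ hξ)
    have h2 := hex i _ hi
      (fun i => fderiv ℝ (D.cyc.c k) ξ (Pi.single (Fin.cast hm i) 1))
    have h3 : curvature ((metricConn D Φ hΦ).form i) (D.cyc.c k ξ) =
        fun u w => ∑ r, D.curv r (D.cyc.c k ξ) u w • conjP Φ (genT r) := by
      funext u w
      exact curvature_metricConn D Φ hΦ i _ hi u w
    rw [h3] at h2
    rw [h2]
    exact (chernWeil_expand hm D.hN F (fun r => conjP Φ (genT r))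
      (fun r u w => D.curv r (D.cyc.c k ξ) u w)
      (fun i => fderiv ℝ (D.cyc.c k) ξ (Pi.single i 1))).symm
  rw [hzero] at hsum
  exact mul_ne_zero hC hF hsum.symm

end Pool.Agent.HAF2
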