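import Pool.Agent.HAF2.Defs

/-!
# Module PTY: parity of the exponents and reduction to the torus

* The rotation which reverses the sign of the last coordinate of two planes (or of one plane and of
  the last coordinate, if `q` is odd) changes the sign of the corresponding torus elements.
* Expand `torusElement q x = ∑ j, x j • torusElement q (Pi.single j 1)`.
-/

namespace Pool.Agent.HAF2

open Pool.Agent.HaefligerClasses (QuotientManifold IsForm HaefligerStructure curvature
  torusElement torusMatrix)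

theorem torusElement_eq_sum (q : ℕ) (x : Fin (q / 2) → ℝ) :
    torusElement q x = ∑ j, x j • torusElement q (Pi.single j 1) := by
  ext v i
  simp only [torusElement, _root_.sum_apply, _root_.smul_apply,
    LinearMap.coe_toContinuousLinearMap', Matrix.toLin'_apply, Matrix.mulVec, dotProduct,
    Finset.sum_apply, Pi.smul_apply, smul_eq_mul, Finset.mul_sum]
  rw [Finset.sum_comm]
  refine Finset.sum_congr rfl fun c _ => ?_
  simp only [torusMatrix, Matrix.of_apply]
  split_ifs with h1 h2
  · rw [Finset.sum_eq_single ⟨c.1 / 2, by omega⟩]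
    · simp
    · intro b _ hb
      simp [Ne.symm hb]
    · simp
  · rw [Finset.sum_eq_single ⟨i.1 / 2, by omega⟩]
    · simp
    · intro b _ hb
      simp [Ne.symm hb]
    · simp
  · simp

/-- the rotation in the plane `2j, 2j+1` -/
private noncomputable def ptyE (q : ℕ) (j : Fin (q / 2)) : (Fin q → ℝ) →L[ℝ] (Fin q → ℝ) :=
  torusElement q (Pi.single j 1)

private theorem ptyE_apply (q : ℕ) (j : Fin (q / 2)) (v : Fin q → ℝ) (i : Fin q) :
    ptyE q j v i = if i.1 = 2 * j.1 + 1 then v ⟨2 * j.1, by omega⟩ else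
      if i.1 = 2 * j.1 then - v ⟨2 * j.1 + 1, by omega⟩ else 0 := by
  simp only [ptyE, torusElement, LinearMap.coe_toContinuousLinearMap', Matrix.toLin'_apply,
    Matrix.mulVec, dotProduct]
  split_ifs with h1 h2
  · rw [Finset.sum_eq_single ⟨2 * j.1, by omega⟩]
    · simp only [torusMatrix, Matrix.of_apply]
      rw [dif_pos ⟨by omega, by simpa using h1⟩]
      rw [Pi.single_apply, if_pos (by ext; simp), one_mul]
    · intro c _ hc
      simp only [torusMatrix, Matrix.of_apply]
      rw [dif_neg (by
        rintro ⟨_, h3⟩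
        exact hc (by ext; simp; omega))]
      split_ifs with h4
      · rw [Pi.single_apply, if_neg (by intro h5; rw [Fin.ext_iff] at h5; simp at h5; omega)]
        simp
      · simp
    · simp
  · rw [Finset.sum_eq_single ⟨2 * j.1 + 1, by omega⟩]
    · simp only [torusMatrix, Matrix.of_apply]
      rw [dif_neg (by omega), dif_pos ⟨by omega, by simp; omega⟩]
      rw [Pi.single_apply, if_pos (by ext; simp; omega)]
      simp
    · intro c _ hc
      simp only [torusMatrix, Matrix.of_apply]
      rw [dif_neg (by omega)]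
      rw [dif_neg (by
        rintro ⟨_, h3⟩
        exact hc (by ext; simp; omega))]
      simp
    · simp
  · refine Finset.sum_eq_zero fun c _ => ?_
    simp only [torusMatrix, Matrix.of_apply]
    split_ifs with h3 h4
    · rw [Pi.single_apply, if_neg (by intro h5; rw [Fin.ext_iff] at h5; simp at h5; omega)]
      simp
    · rw [Pi.single_apply, if_neg (by intro h5; rw [Fin.ext_iff] at h5; simp at h5; omega)]
      simp
    · simp

theorem exists_coefficient {q d : ℕ} (F : RotInvariantForm q d) (x : Fin (q / 2) → ℝ)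
    (h : F.toFun (fun _ => torusElement q x) ≠ 0) :
    ∃ r : Fin d → Fin (q / 2), F.toFun (fun s => torusElement q (Pi.single (r s) 1)) ≠ 0 := by
  have h1 : F.toFun (fun _ => torusElement q x) =
      ∑ r : Fin d → Fin (q / 2), F.toFun (fun s => x (r s) • ptyE q (r s)) := by
    rw [torusElement_eq_sum]
    exact F.toFun.map_sum (fun _ j => x j • ptyE q j)
  rw [h1] at h
  obtain ⟨r, _, hr⟩ := Finset.exists_ne_zero_of_sum_ne_zero h
  rw [MultilinearMap.map_smul_univ, smul_eq_mul] at hr
  exact ⟨r, right_ne_zero_of_mul hr⟩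

/-- change of the signs of the coordinates `a` and `c` -/
private noncomputable def ptyG (q a c : ℕ) : (Fin q → ℝ) ≃L[ℝ] (Fin q → ℝ) :=
  ContinuousLinearEquiv.piCongrRight (fun i : Fin q =>
    if i.1 = a ∨ i.1 = c then ContinuousLinearEquiv.neg ℝ else ContinuousLinearEquiv.refl ℝ ℝ)

private theorem ptyG_apply (q a c : ℕ) (v : Fin q → ℝ) (i : Fin q) :
    ptyG q a c v i = if i.1 = a ∨ i.1 = c then - v i else v i := by
  simp only [ptyG, ContinuousLinearEquiv.piCongrRight_apply]
  split_ifs <;> simp

private theorem ptyG_symm_apply (q a c : ℕ) (v : Fin q → ℝ) (i : Fin q) :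
    (ptyG q a c).symm v i = if i.1 = a ∨ i.1 = c then - v i else v i := by
  have h : (ptyG q a c).symm v = ptyG q a c v := by
    rw [ContinuousLinearEquiv.symm_apply_eq]
    ext i
    rw [ptyG_apply, ptyG_apply]
    split_ifs <;> simp
  rw [h, ptyG_apply]

private theorem ptyG_rot (q a c : ℕ) (ha : a < q) (hc : c < q) (hac : a ≠ c) :
    IsRotation (ptyG q a c : (Fin q → ℝ) →L[ℝ] (Fin q → ℝ)) := by
  refine ⟨fun v => Finset.sum_congr rfl fun i _ => ?_, ?_⟩
  · rw [ContinuousLinearEquiv.coe_coe, ptyG_apply]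
    split_ifs <;> ring
  · have h1 : ((ptyG q a c : (Fin q → ℝ) →L[ℝ] (Fin q → ℝ)) : (Fin q → ℝ) →ₗ[ℝ] (Fin q → ℝ)) =
        Matrix.toLin' (Matrix.diagonal fun i : Fin q =>
          if i.1 = a ∨ i.1 = c then (-1 : ℝ) else 1) := by
      refine LinearMap.ext fun v => funext fun i => ?_
      rw [Matrix.toLin'_apply, Matrix.mulVec_diagonal]
      change ptyG q a c v i = _
      rw [ptyG_apply]
      split_ifs <;> simp
    have h2 : (ptyG q a c : (Fin q → ℝ) →L[ℝ] (Fin q → ℝ)).det = 1 := by
      rw [ContinuousLinearMap.det, h1, LinearMap.det_toLin', Matrix.det_diagonal,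
        Finset.prod_ite, Finset.prod_const, Finset.prod_const_one, mul_one]
      have h3 : (Finset.univ.filter fun i : Fin q => i.1 = a ∨ i.1 = c) =
          {⟨a, ha⟩, ⟨c, hc⟩} := by
        ext i
        simp [Fin.ext_iff]
      rw [h3, Finset.card_pair (by simpa [Fin.ext_iff] using hac)]
      norm_num
    rw [h2]
    exact one_pos

private theorem ptyG_conj (q a c : ℕ) (k : Fin (q / 2)) :
    (ptyG q a c : (Fin q → ℝ) →L[ℝ] (Fin q → ℝ)) ∘L ptyE q k ∘L
      ((ptyG q a c).symm : (Fin q → ℝ) →L[ℝ] (Fin q → ℝ)) =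
    ((if 2 * k.1 = a ∨ 2 * k.1 = c then (-1 : ℝ) else 1) *
      (if 2 * k.1 + 1 = a ∨ 2 * k.1 + 1 = c then (-1 : ℝ) else 1)) • ptyE q k := by
  refine ContinuousLinearMap.ext fun v => funext fun i => ?_
  simp only [ContinuousLinearMap.comp_apply, ContinuousLinearEquiv.coe_coe, ptyG_apply,
    ptyE_apply, ptyG_symm_apply, _root_.smul_apply, Pi.smul_apply, smul_eq_mul]
  by_cases h1 : i.1 = 2 * k.1
  · have h2 : ¬ i.1 = 2 * k.1 + 1 := by omega
    rw [if_neg h2, if_pos h1, if_neg h2, if_pos h1, h1]
    split_ifs <;> ring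
  · by_cases h2 : i.1 = 2 * k.1 + 1
    · rw [if_pos h2, if_pos h2, h2]
      split_ifs <;> ring
    · simp [h1, h2]

private theorem pty_even {q d : ℕ} (F : RotInvariantForm q d) (r : Fin d → Fin (q / 2))
    (h : F.toFun (fun s => ptyE q (r s)) ≠ 0) (a c : ℕ) (ha : a < q) (hc : c < q) (hac : a ≠ c)
    (ε : Fin (q / 2) → Prop) [DecidablePred ε]
    (hε : ∀ k : Fin (q / 2), ((if 2 * k.1 = a ∨ 2 * k.1 = c then (-1 : ℝ) else 1) *
      (if 2 * k.1 + 1 = a ∨ 2 * k.1 + 1 = c then (-1 : ℝ) else 1)) = if ε k then -1 else 1) :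
    Even (Finset.univ.filter fun s => ε (r s)).card := by
  have h1 := F.conj (ptyG q a c) (ptyG_rot q a c ha hc hac) (fun s => ptyE q (r s))
  simp only [ptyG_conj, hε] at h1
  rw [MultilinearMap.map_smul_univ, smul_eq_mul] at h1
  have h2 : (∏ s, if ε (r s) then (-1 : ℝ) else 1) = 1 :=
    mul_right_cancel₀ h (h1.trans (one_mul _).symm)
  rw [Finset.prod_ite, Finset.prod_const, Finset.prod_const_one, mul_one] at h2
  by_contra hodd
  rw [Nat.not_even_iff_odd] at hodd
  rw [hodd.neg_one_pow] at h2
  norm_num at h2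

theorem parity_exponents {q d : ℕ} (F : RotInvariantForm q d) (r : Fin d → Fin (q / 2))
    (h : F.toFun (fun s => torusElement q (Pi.single (r s) 1)) ≠ 0) :
    (∀ j, Even (Finset.univ.filter fun s => r s = j).card) ∨
      (q = 2 * (q / 2) ∧ ∀ j, Odd (Finset.univ.filter fun s => r s = j).card) := by
  -- two planes
  have h2 : ∀ j j' : Fin (q / 2), j ≠ j' →
      Even ((Finset.univ.filter fun s => r s = j).card +
        (Finset.univ.filter fun s => r s = j').card) := by
    intro j j' hjj
    have hv : j.1 ≠ j'.1 := fun h3 => hjj (Fin.ext h3)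
    have h3 := pty_even F r h (2 * j.1) (2 * j'.1) (by omega) (by omega) (by omega)
      (fun k => k = j ∨ k = j') (fun k => by
        have e1 : ¬ (2 * k.1 + 1 = 2 * j.1 ∨ 2 * k.1 + 1 = 2 * j'.1) := by omega
        rw [if_neg e1, mul_one]
        have e2 : (2 * k.1 = 2 * j.1 ∨ 2 * k.1 = 2 * j'.1) ↔ (k = j ∨ k = j') := by
          rw [Fin.ext_iff, Fin.ext_iff]
          omega
        simp only [e2])
    rw [← Finset.card_union_of_disjoint]
    · rw [← Finset.filter_or]
      exact h3
    · rw [Finset.disjoint_filter]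
      intro s _ hs hs'
      exact hjj (hs.symm.trans hs')
  by_cases hq : q = 2 * (q / 2)
  · by_cases hall : ∀ j, Even (Finset.univ.filter fun s => r s = j).card
    · exact Or.inl hall
    · push Not at hall
      obtain ⟨j, hj⟩ := hall
      refine Or.inr ⟨hq, fun j' => ?_⟩
      by_cases hjj : j = j'
      · rw [← hjj, ← Nat.not_even_iff_odd]
        exact hj
      · have h3 := h2 j j' hjj
        rw [← Nat.not_even_iff_odd]
        intro h4
        exact hj ((Nat.even_add.1 h3).2 h4)
  · refine Or.inl fun j => ?_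
    have h3 := pty_even F r h (2 * j.1) (2 * (q / 2)) (by omega) (by omega) (by omega)
      (fun k => k = j) (fun k => by
        have hk := k.2
        have e1 : ¬ (2 * k.1 + 1 = 2 * j.1 ∨ 2 * k.1 + 1 = 2 * (q / 2)) := by omega
        rw [if_neg e1, mul_one]
        have e2 : (2 * k.1 = 2 * j.1 ∨ 2 * k.1 = 2 * (q / 2)) ↔ k = j := by
          rw [Fin.ext_iff]
          omega
        simp only [e2])
    exact h3

end Pool.Agent.HAF2
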