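import Pool.Agent.HAF2.Defs

/-!
# Module SKW: normal form of skew-symmetric matrices

Every skew-symmetric matrix is conjugate under `SO(q)` to an element of the Lie algebra of the
standard torus. One possible proof: the symmetric matrix `X ∘ X` has an eigenvector `v` with
eigenvalue `-λ ^ 2`; if `λ ≠ 0` then `v, X v` span an invariant plane, whose orthogonal complement
is invariant; induction gives an orthonormal basis in which `X` is block diagonal. If the change
of basis has negative determinant, exchange the two vectors of a plane (which changes the sign of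
the corresponding `x j`), or change the sign of a vector of the kernel.
-/

namespace Pool.Agent.HAF2

open Pool.Agent.HaefligerClasses (QuotientManifold IsForm HaefligerStructure curvature
  torusElement torusMatrix)

open Module

/-- skew polarised -/
private theorem skw_polar {E : Type} [NormedAddCommGroup E] [InnerProductSpace ℝ E]
    (X : E →ₗ[ℝ] E) (hX : ∀ v, inner ℝ (X v) v = 0) (u v : E) :
    inner ℝ (X u) v = - inner ℝ u (X v) := by
  have h := hX (u + v)
  rw [map_add, inner_add_left, inner_add_right, inner_add_right, hX u, hX v] at h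
  have h2 : inner ℝ (X v) u = inner ℝ u (X v) := real_inner_comm _ _
  linarith

private theorem skw_symm {E : Type} [NormedAddCommGroup E] [InnerProductSpace ℝ E]
    (X : E →ₗ[ℝ] E) (hX : ∀ v, inner ℝ (X v) v = 0) : (X ∘ₗ X).IsSymmetric := by
  intro u v
  rw [LinearMap.comp_apply, LinearMap.comp_apply, skw_polar X hX, skw_polar X hX, neg_neg]

/-- an eigenvector -/
private theorem skw_eigen {E : Type} [NormedAddCommGroup E] [InnerProductSpace ℝ E]
    [FiniteDimensional ℝ E] (X : E →ₗ[ℝ] E) (hX : ∀ v, inner ℝ (X v) v = 0) (h0 : X ≠ 0) :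
    ∃ (v w : E) (l : ℝ), inner ℝ v v = (1 : ℝ) ∧ inner ℝ w w = (1 : ℝ) ∧ inner ℝ v w = (0 : ℝ) ∧
      X v = l • w ∧ X w = -l • v := by
  have hs := skw_symm X hX
  have hn : finrank ℝ E = finrank ℝ E := rfl
  set b := hs.eigenvectorBasis hn with hb
  have hex : ∃ i, X (b i) ≠ 0 := by
    by_contra h
    push Not at h
    apply h0
    apply b.toBasis.ext
    intro i
    simpa using h i
  obtain ⟨i, hi⟩ := hex
  set v := b i with hv
  have hvv : inner ℝ v v = (1 : ℝ) := by
    rw [real_inner_self_eq_norm_sq, b.norm_eq_one i]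
    norm_num
  have hev : X (X v) = (hs.eigenvalues hn i) • v := by
    have h := hs.apply_eigenvectorBasis hn i
    rw [LinearMap.comp_apply] at h
    simpa only [RCLike.ofReal_real_eq_id, id] using h
  set μ := hs.eigenvalues hn i with hμ
  have hl : μ = -‖X v‖ ^ 2 := by
    have h1 : inner ℝ (X (X v)) v = μ := by
      rw [hev, real_inner_smul_left, hvv, mul_one]
    rw [← h1, skw_polar X hX, real_inner_self_eq_norm_sq]
  set l := ‖X v‖ with hl'
  have hl0 : l ≠ 0 := by
    rw [hl']
    exact norm_ne_zero_iff.2 hi
  refine ⟨v, l⁻¹ • X v, l, hvv, ?_, ?_, ?_, ?_⟩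
  · rw [real_inner_smul_left, real_inner_smul_right, real_inner_self_eq_norm_sq, ← hl']
    field_simp
  · rw [real_inner_smul_right, real_inner_comm, hX v, mul_zero]
  · rw [smul_smul, mul_inv_cancel₀ hl0, one_smul]
  · rw [map_smul, hev, hl, smul_smul]
    congr 1
    field_simp

/-- The orthonormal basis. -/
private theorem skw_basis : ∀ (q : ℕ) (E : Type) [NormedAddCommGroup E] [InnerProductSpace ℝ E]
    [FiniteDimensional ℝ E], finrank ℝ E = q → ∀ (X : E →ₗ[ℝ] E),
    (∀ v, inner ℝ (X v) v = (0 : ℝ)) → ∃ (B : ℕ → E) (x : ℕ → ℝ),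
      (∀ i j, i < q → j < q → inner ℝ (B i) (B j) = if i = j then (1 : ℝ) else 0) ∧
      (∀ j, 2 * j + 1 < q → X (B (2 * j)) = x j • B (2 * j + 1) ∧
        X (B (2 * j + 1)) = -x j • B (2 * j)) ∧
      (∀ j, 2 * j + 1 = q → X (B (2 * j)) = 0) := by
  intro q
  induction q using Nat.strong_induction_on with
  | _ q ih =>
    intro E _ _ _ hq X hX
    by_cases h0 : X = 0
    · subst h0
      set b := (stdOrthonormalBasis ℝ E) with hb
      refine ⟨fun i => if h : i < finrank ℝ E then b ⟨i, h⟩ else 0, fun _ => 0, ?_, ?_, ?_⟩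
      · intro i j hi hj
        have hi' : i < finrank ℝ E := by omega
        have hj' : j < finrank ℝ E := by omega
        have := (orthonormal_iff_ite.1 b.orthonormal) ⟨i, hi'⟩ ⟨j, hj'⟩
        simp only [dif_pos hi', dif_pos hj']
        rw [this]
        simp only [Fin.mk.injEq]
      · intro j hj
        simp
      · intro j hj
        simp
    · obtain ⟨v, w, l, hvv, hww, hvw, hXv, hXw⟩ := skw_eigen X hX h0
      have hwv : inner ℝ w v = (0 : ℝ) := by rw [real_inner_comm]; exact hvw
      have hon : Orthonormal ℝ ![v, w] := by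
        rw [orthonormal_iff_ite]
        intro i j
        fin_cases i <;> fin_cases j
        · exact hvv
        · exact hvw
        · exact hwv
        · exact hww
      set K : Submodule ℝ E := Submodule.span ℝ (Set.range ![v, w]) with hK
      have hKr : finrank ℝ K = 2 := by
        rw [hK, finrank_span_eq_card hon.linearIndependent, Fintype.card_fin]
      have hvK : v ∈ K := Submodule.subset_span ⟨0, rfl⟩
      have hwK : w ∈ K := Submodule.subset_span ⟨1, rfl⟩
      have hKo : finrank ℝ K + finrank ℝ Kᗮ = q := by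
        rw [K.finrank_add_finrank_orthogonal, hq]
      have hmem : ∀ u : E, u ∈ Kᗮ ↔ inner ℝ v u = (0 : ℝ) ∧ inner ℝ w u = (0 : ℝ) := by
        intro u
        constructor
        · intro hu
          exact ⟨(Submodule.mem_orthogonal K u).1 hu v hvK,
            (Submodule.mem_orthogonal K u).1 hu w hwK⟩
        · rintro ⟨h1, h2⟩
          rw [Submodule.mem_orthogonal]
          intro z hz
          rw [hK] at hz
          induction hz using Submodule.span_induction with
          | mem z hz =>
            obtain ⟨i, rfl⟩ := hz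
            fin_cases i
            · exact h1
            · exact h2
          | zero => exact inner_zero_left _
          | add a b _ _ ha hb => rw [inner_add_left, ha, hb, add_zero]
          | smul c a _ ha => rw [real_inner_smul_left, ha, mul_zero]
      have hinv : ∀ u ∈ Kᗮ, X u ∈ Kᗮ := by
        intro u hu
        rw [hmem] at hu ⊢
        constructor
        · rw [real_inner_comm, skw_polar X hX, hXv, real_inner_smul_right, real_inner_comm, hu.2,
            mul_zero, neg_zero]
        · rw [real_inner_comm, skw_polar X hX, hXw, real_inner_smul_right, real_inner_comm, hu.1,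
            mul_zero, neg_zero]
      obtain ⟨B, x, h1, h2, h3⟩ := ih (q - 2) (by omega) (Kᗮ : Submodule ℝ E) (by omega)
        (X.restrict hinv) (by
          intro u
          exact hX u)
      refine ⟨fun i => if i = 0 then v else if i = 1 then w else (B (i - 2) : E),
        fun j => if j = 0 then l else x (j - 1), ?_, ?_, ?_⟩
      · have hBv : ∀ i, inner ℝ v (B i : E) = (0 : ℝ) := fun i => ((hmem _).1 (B i).2).1
        have hBw : ∀ i, inner ℝ w (B i : E) = (0 : ℝ) := fun i => ((hmem _).1 (B i).2).2
        have hBv' : ∀ i, inner ℝ (B i : E) v = (0 : ℝ) := fun i => by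
          rw [real_inner_comm]; exact hBv i
        have hBw' : ∀ i, inner ℝ (B i : E) w = (0 : ℝ) := fun i => by
          rw [real_inner_comm]; exact hBw i
        intro i j hi hj
        rcases i with _ | _ | i
        · rcases j with _ | _ | j
          · simpa using hvv
          · simpa using hvw
          · simpa using hBv j
        · rcases j with _ | _ | j
          · simpa using hwv
          · simpa using hww
          · simpa using hBw j
        · rcases j with _ | _ | j
          · simpa using hBv' i
          · simpa using hBw' i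
          · have := h1 i j (by omega) (by omega)
            have e1 : ((i + 1 + 1 = j + 1 + 1) ↔ (i = j)) := by omega
            simp only [Nat.add_eq_zero_iff, one_ne_zero, and_false, if_false, Nat.add_eq_right,
              e1]
            rw [← this]
            rfl
      · intro j hj
        rcases j with _ | j
        · refine ⟨?_, ?_⟩
          · simpa using hXv
          · simpa using hXw
        · have h4 := h2 j (by omega)
          have e1 : 2 * (j + 1) = 2 * j + 2 := by ring
          have e2 : (2 * j + 2 + 1) - 2 = 2 * j + 1 := by omega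
          have e3 : ¬ (2 * j + 2 + 1 = 1) := by omega
          have e4 : ¬ (2 * j + 2 + 1 = 0) := by omega
          have e5 : ¬ (2 * j + 2 = 1) := by omega
          have e6 : ¬ (2 * j + 2 = 0) := by omega
          have e7 : ¬ (j + 1 = 0) := by omega
          simp only [e1, e2, if_neg e3, if_neg e4, if_neg e5, if_neg e6, if_neg e7,
            Nat.add_sub_cancel]
          exact ⟨congrArg Subtype.val h4.1, congrArg Subtype.val h4.2⟩
      · intro j hj
        rcases j with _ | j
        · omega
        · have h4 := h3 j (by omega)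
          have e1 : 2 * (j + 1) = 2 * j + 2 := by ring
          have e5 : ¬ (2 * j + 2 = 1) := by omega
          have e6 : ¬ (2 * j + 2 = 0) := by omega
          simp only [e1, if_neg e5, if_neg e6, Nat.add_sub_cancel]
          exact congrArg Subtype.val h4

/-- the columns of the torus matrix -/
private theorem skw_column {q : ℕ} (x : Fin (q / 2) → ℝ) (i r : Fin q) :
    torusElement q x (Pi.single i 1) r = torusMatrix q x r i := by
  unfold torusElement
  rw [LinearMap.coe_toContinuousLinearMap', Matrix.toLin'_apply, Matrix.mulVec_single]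
  simp

private theorem skw_apply {q : ℕ} (x : Fin (q / 2) → ℝ) (v : Fin q → ℝ) (r : Fin q) :
    torusElement q x v r = ∑ c, torusMatrix q x r c * v c := by
  unfold torusElement
  rw [LinearMap.coe_toContinuousLinearMap', Matrix.toLin'_apply]
  rfl

/-- An isometry which brings `X` to the normal form. -/
private theorem skw_iso {q : ℕ} (X : (Fin q → ℝ) →L[ℝ] (Fin q → ℝ)) (hX : IsSkew X) :
    ∃ (g : (Fin q → ℝ) ≃ₗ[ℝ] (Fin q → ℝ)) (x : Fin (q / 2) → ℝ),
      (∀ v, ∑ k, g v k ^ 2 = ∑ k, v k ^ 2) ∧
      ∀ v, g (X (g.symm v)) = torusElement q x v := by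
  set L : EuclideanSpace ℝ (Fin q) ≃ₗ[ℝ] (Fin q → ℝ) := WithLp.linearEquiv 2 ℝ (Fin q → ℝ) with hL
  set X' : EuclideanSpace ℝ (Fin q) →ₗ[ℝ] EuclideanSpace ℝ (Fin q) :=
    L.symm.toLinearMap ∘ₗ (X : (Fin q → ℝ) →ₗ[ℝ] (Fin q → ℝ)) ∘ₗ L.toLinearMap with hX'
  have hX's : ∀ v, inner ℝ (X' v) v = (0 : ℝ) := by
    intro v
    have h := hX (L v)
    rw [← h, PiLp.inner_apply]
    apply Finset.sum_congr rfl
    intro k _
    rw [real_inner_comm]
    rfl
  obtain ⟨B, x, h1, h2, h3⟩ := skw_basis q (EuclideanSpace ℝ (Fin q)) finrank_euclideanSpace_fin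
    X' hX's
  have hon : Orthonormal ℝ (fun i : Fin q => B i) := by
    rw [orthonormal_iff_ite]
    intro i j
    rw [h1 i j i.2 j.2]
    simp only [Fin.ext_iff]
  have hsp : ⊤ ≤ Submodule.span ℝ (Set.range (fun i : Fin q => B i)) := by
    rw [hon.linearIndependent.span_eq_top_of_card_eq_finrank' (by simp)]
  set b := OrthonormalBasis.mk hon hsp with hb
  have hbi : ∀ i : Fin q, b i = B i := fun i => by
    rw [hb, OrthonormalBasis.coe_mk]
  set g : (Fin q → ℝ) ≃ₗ[ℝ] (Fin q → ℝ) := L.symm.trans (b.repr.toLinearEquiv.trans L) with hg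
  have hgv : ∀ (v : Fin q → ℝ) (i : Fin q), g v i = inner ℝ (B i) (L.symm v) := by
    intro v i
    rw [← hbi i]
    exact b.repr_apply_apply (L.symm v) i
  have hgs : ∀ i : Fin q, g.symm (Pi.single i 1) = L (B i) := by
    intro i
    rw [LinearEquiv.symm_apply_eq]
    ext k
    rw [hgv, LinearEquiv.symm_apply_apply, h1 k i k.2 i.2, Pi.single_apply]
    simp only [Fin.ext_iff]
  refine ⟨g, fun j => x j.1, ?_, ?_⟩
  · intro v
    have e1 : ∑ k, g v k ^ 2 = ‖b.repr (L.symm v)‖ ^ 2 := by
      rw [EuclideanSpace.real_norm_sq_eq]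
      rfl
    have e2 : ∑ k, v k ^ 2 = ‖L.symm v‖ ^ 2 := by
      rw [EuclideanSpace.real_norm_sq_eq]
      rfl
    rw [e1, e2, LinearIsometryEquiv.norm_map]
  · have hlin : (g.toLinearMap ∘ₗ (X : (Fin q → ℝ) →ₗ[ℝ] (Fin q → ℝ)) ∘ₗ g.symm.toLinearMap) =
        (torusElement q (fun j => x j.1) : (Fin q → ℝ) →ₗ[ℝ] (Fin q → ℝ)) := by
      apply LinearMap.pi_ext'
      intro i
      apply LinearMap.ext_ring
      simp only [LinearMap.comp_apply, LinearMap.coe_single, LinearEquiv.coe_coe,
        ContinuousLinearMap.coe_coe]
      ext r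
      rw [hgs i, skw_column, hgv]
      have hXB : L.symm (X (L (B i))) = X' (B i) := rfl
      rw [hXB]
      unfold torusMatrix
      rw [Matrix.of_apply]
      obtain ⟨j, hj⟩ : ∃ j, i.1 = 2 * j ∨ i.1 = 2 * j + 1 := ⟨i.1 / 2, by omega⟩
      have hr := r.2
      have hi := i.2
      rcases hj with hj | hj
      · by_cases hq : 2 * j + 1 < q
        · rw [show B i.1 = B (2 * j) by rw [hj], (h2 j hq).1, real_inner_smul_right, h1 _ _ hr hq]
          by_cases hri : r.1 = 2 * j + 1
          · rw [if_pos hri, dif_pos ⟨by omega, by omega⟩, mul_one]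
            have e : j = i.1 / 2 := by omega
            exact congrArg x e
          · rw [if_neg hri, dif_neg (by omega), dif_neg (by omega), mul_zero]
        · rw [show B i.1 = B (2 * j) by rw [hj], h3 j (by omega), inner_zero_right, dif_neg (by omega), dif_neg (by omega)]
      · rw [show B i.1 = B (2 * j + 1) by rw [hj], (h2 j (by omega)).2, real_inner_smul_right, h1 _ _ hr (by omega)]
        by_cases hri : r.1 = 2 * j
        · rw [if_pos hri, dif_neg (by omega), dif_pos ⟨by omega, by omega⟩, mul_one]
          have e : j = r.1 / 2 := by omega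
          exact congrArg (fun t => -x t) e
        · rw [if_neg hri, dif_neg (by omega), dif_neg (by omega), mul_zero]
    intro v
    exact congrArg (fun f => f v) (congrArg DFunLike.coe hlin)

/-- the reflection in the first coordinate -/
private noncomputable def skwD (q : ℕ) : (Fin q → ℝ) ≃ₗ[ℝ] (Fin q → ℝ) :=
  LinearEquiv.piCongrRight fun i : Fin q =>
    if i.1 = 0 then LinearEquiv.neg ℝ else LinearEquiv.refl ℝ ℝ

private theorem skwD_apply (q : ℕ) (v : Fin q → ℝ) (i : Fin q) :
    skwD q v i = (if i.1 = 0 then -1 else 1) * v i := by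
  unfold skwD
  rw [LinearEquiv.piCongrRight_apply]
  split_ifs <;> simp

private theorem skwD_symm_apply (q : ℕ) (v : Fin q → ℝ) (i : Fin q) :
    (skwD q).symm v i = (if i.1 = 0 then -1 else 1) * v i := by
  have h : (skwD q).symm v = skwD q v := by
    rw [LinearEquiv.symm_apply_eq]
    ext k
    rw [skwD_apply, skwD_apply, ← mul_assoc]
    split_ifs <;> simp
  rw [h, skwD_apply]

private theorem skwD_det (q : ℕ) (hq : 0 < q) : LinearMap.det (skwD q).toLinearMap = -1 := by
  have h : (skwD q).toLinearMap =
      Matrix.toLin' (Matrix.diagonal (fun i : Fin q => if i.1 = 0 then (-1 : ℝ) else 1)) := by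
    apply LinearMap.ext
    intro v
    ext i
    rw [Matrix.toLin'_apply, Matrix.mulVec_diagonal]
    exact skwD_apply q v i
  rw [h, LinearMap.det_toLin', Matrix.det_diagonal]
  rw [Finset.prod_eq_single (⟨0, hq⟩ : Fin q)]
  · simp
  · intro i _ hi
    rw [if_neg]
    intro h0
    exact hi (Fin.ext h0)
  · intro h
    exact absurd (Finset.mem_univ _) h

theorem skew_normal_form {q : ℕ} (X : (Fin q → ℝ) →L[ℝ] (Fin q → ℝ)) (hX : IsSkew X) :
    ∃ (g : (Fin q → ℝ) ≃L[ℝ] (Fin q → ℝ)) (x : Fin (q / 2) → ℝ),
      IsRotation (g : (Fin q → ℝ) →L[ℝ] (Fin q → ℝ)) ∧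
      (g : (Fin q → ℝ) →L[ℝ] (Fin q → ℝ)) ∘L X ∘L (g.symm : (Fin q → ℝ) →L[ℝ] (Fin q → ℝ)) =
        torusElement q x := by
  obtain ⟨g, x, hg, hgx⟩ := skw_iso X hX
  have hdet0 : LinearMap.det g.toLinearMap ≠ 0 := (LinearEquiv.isUnit_det' g).ne_zero
  by_cases hdet : 0 < LinearMap.det g.toLinearMap
  · refine ⟨g.toContinuousLinearEquiv, x, ⟨hg, hdet⟩, ?_⟩
    apply ContinuousLinearMap.ext
    intro v
    exact hgx v
  · have hneg : LinearMap.det g.toLinearMap < 0 := lt_of_le_of_ne (not_lt.1 hdet) hdet0
    have hq : 0 < q := by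
      rcases Nat.eq_zero_or_pos q with h | h
      · subst h
        exfalso
        apply hdet
        rw [LinearMap.det_eq_one_of_subsingleton]
        exact one_pos
      · exact h
    refine ⟨(g.trans (skwD q)).toContinuousLinearEquiv,
      fun j => (if j.1 = 0 then -1 else 1) * x j, ⟨?_, ?_⟩, ?_⟩
    · intro v
      rw [← hg v]
      apply Finset.sum_congr rfl
      intro k _
      have : (g.trans (skwD q)).toContinuousLinearEquiv v k = skwD q (g v) k := rfl
      change (skwD q (g v) k) ^ 2 = _
      rw [skwD_apply, mul_pow]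
      split_ifs <;> norm_num
    · change 0 < LinearMap.det ((skwD q).toLinearMap ∘ₗ g.toLinearMap)
      rw [LinearMap.det_comp, skwD_det q hq]
      linarith
    · apply ContinuousLinearMap.ext
      intro v
      change skwD q (g (X (g.symm ((skwD q).symm v)))) = _
      rw [hgx]
      ext r
      rw [skwD_apply, skw_apply, skw_apply, Finset.mul_sum]
      apply Finset.sum_congr rfl
      intro c _
      rw [skwD_symm_apply]
      unfold torusMatrix
      rw [Matrix.of_apply, Matrix.of_apply]
      by_cases h1 : r.1 % 2 = 1 ∧ r.1 = c.1 + 1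
      · rw [dif_pos h1, dif_pos h1]
        have e1 : ¬ (r.1 = 0) := by omega
        rw [if_neg e1]
        by_cases h3 : c.1 = 0
        · have h4 : c.1 / 2 = 0 := by omega
          simp only [if_pos h3, if_pos h4]
          ring
        · have h4 : ¬ (c.1 / 2 = 0) := by omega
          simp only [if_neg h3, if_neg h4]
          ring
      · rw [dif_neg h1, dif_neg h1]
        by_cases h2 : c.1 % 2 = 1 ∧ c.1 = r.1 + 1
        · rw [dif_pos h2, dif_pos h2]
          have e1 : ¬ (c.1 = 0) := by omega
          rw [if_neg e1]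
          by_cases h3 : r.1 = 0
          · have h4 : r.1 / 2 = 0 := by omega
            simp only [if_pos h3, if_pos h4]
            ring
          · have h4 : ¬ (r.1 / 2 = 0) := by omega
            simp only [if_neg h3, if_neg h4]
            ring
        · rw [dif_neg h2, dif_neg h2]
          ring

end Pool.Agent.HAF2
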