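import Pool.Agent.HAF2.Rlz
import Pool.Agent.HAF2.Nex
import Pool.Agent.HAF2.Idx
import Pool.Agent.HAF2.Pty
import Pool.Agent.HAF2.Skw

/-!
# Module ASM: assembly of the main theorem from the blocks
-/

namespace Pool.Agent.HAF2

open Pool.Agent.HaefligerClasses (QuotientManifold IsForm HaefligerStructure curvature
  torusElement)

/-- two finite families with the same multiset of values differ by a bijection -/
theorem exists_equiv_of_map_eq {R J : Type} [Fintype R] [Fintype J] (α : R → ℕ) (β : J → ℕ)
    (h : (Finset.univ : Finset R).val.map α = (Finset.univ : Finset J).val.map β) :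
    ∃ e : R ≃ J, ∀ r, β (e r) = α r := by
  classical
  have hcard : ∀ v : ℕ, Fintype.card {r // α r = v} = Fintype.card {j // β j = v} := by
    intro v
    have h1 := congrArg (Multiset.count v) h
    rw [Multiset.count_map, Multiset.count_map] at h1
    rw [Fintype.card_subtype, Fintype.card_subtype, Finset.card_def, Finset.card_def,
      Finset.filter_val, Finset.filter_val]
    simpa [eq_comm] using h1
  let e : R ≃ J := (Equiv.sigmaFiberEquiv α).symm.trans
    ((Equiv.sigmaCongrRight fun v => Fintype.equivOfCardEq (hcard v)).trans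
      (Equiv.sigmaFiberEquiv β))
  exact ⟨e, fun r => (Fintype.equivOfCardEq (hcard (α r)) ⟨r, rfl⟩).2⟩

section

variable {q d : ℕ} (r : Fin d → Fin (q / 2))

/-- the multiplicity of a variable -/
def cnt (j : Fin (q / 2)) : ℕ := (Finset.univ.filter fun s => r s = j).card

/-- the multiset of the exponents -/
def expo : Multiset ℕ := ((Finset.univ.filter fun j => cnt r j ≠ 0).val.map (cnt r))

theorem sum_cnt : ∑ j, cnt r j = d := by
  unfold cnt
  rw [← Finset.card_eq_sum_card_fiberwise (f := r) (s := Finset.univ) (t := Finset.univ)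
    (fun _ _ => Finset.mem_coe.2 (Finset.mem_univ _)), Finset.card_univ, Fintype.card_fin]

theorem sum_expo : (expo r).sum = d := by
  unfold expo
  rw [← Finset.sum_eq_multiset_sum, Finset.sum_filter_ne_zero, sum_cnt]

theorem card_filter_expo : ((expo r).filter fun a => 3 ≤ a).card =
    (Finset.univ.filter fun j => 3 ≤ cnt r j).card := by
  unfold expo
  rw [Multiset.filter_map, Multiset.card_map, ← Finset.filter_val, ← Finset.card_def,
    Finset.filter_filter]
  congr 1
  ext j
  simp only [Finset.mem_filter, Finset.mem_univ, true_and, Function.comp]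
  omega

theorem not_vanishes_of_rlz {q e : ℕ} (F : RotInvariantForm q (e + 1))
    (r : Fin (e + 1) → Fin (q / 2))
    (hF : F.toFun (fun s => torusElement q (Pi.single (r s) 1)) ≠ 0)
    (h : Rlz (expo r) (q - 2 * (expo r).card)) : ¬ VanishesOnHaefliger F := by
  classical
  obtain ⟨R, K, _, _, α, hα, hK, hD⟩ := h
  rw [sum_expo] at hD
  obtain ⟨D⟩ := hD
  -- the bijection
  have hα' : (Finset.univ : Finset R).val.map α =
      (Finset.univ : Finset {j // cnt r j ≠ 0}).val.map (fun j => cnt r j.1) := by
    rw [hα]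
    unfold expo
    have h1 : (Finset.univ.filter fun j => cnt r j ≠ 0) =
        (Finset.univ : Finset {j // cnt r j ≠ 0}).map ⟨Subtype.val, Subtype.val_injective⟩ := by
      ext j
      simp
    rw [h1, Finset.map_val, Multiset.map_map]
    rfl
  obtain ⟨f, hf⟩ := exists_equiv_of_map_eq α (fun j : {j // cnt r j ≠ 0} => cnt r j.1) hα'
  let ι : R ↪ Fin (q / 2) := f.toEmbedding.trans ⟨Subtype.val, Subtype.val_injective⟩
  have hι : ∀ x, cnt r (ι x) = α x := hf
  have hcardR : Fintype.card R = (expo r).card := by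
    rw [← hα, Multiset.card_map]
    rfl
  have hle : Fintype.card R ≤ q / 2 := by
    have := Fintype.card_le_of_embedding ι
    rwa [Fintype.card_fin] at this
  obtain ⟨Φ, hΦ, hgen⟩ := exists_iso (K := K) q ι (by rw [hK, hcardR] at *; omega)
  have hne : ∀ s, cnt r (r s) ≠ 0 := by
    intro s
    unfold cnt
    rw [Finset.card_ne_zero]
    exact ⟨s, by simp⟩
  let r₀ : Fin (e + 1) → R := fun s => f.symm ⟨r s, hne s⟩
  have hr₀ : ∀ s, ι (r₀ s) = r s := by
    intro s
    change (f (f.symm ⟨r s, hne s⟩)).1 = r s
    rw [Equiv.apply_symm_apply]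
  refine not_vanishes_of_block D Φ hΦ F r₀ ?_ ?_
  · intro j
    rw [← hι j]
    unfold cnt
    congr 1
    ext s
    simp only [Finset.mem_filter, Finset.mem_univ, true_and]
    rw [← hr₀ s]
    exact ι.injective.eq_iff.symm
  · have : (fun s => conjP Φ (genT (r₀ s))) = fun s => torusElement q (Pi.single (r s) 1) := by
      funext s
      rw [hgen, hr₀]
    rw [this]
    exact hF

end

/-- second part of the main statement -/
theorem criterion_of_blocks (hs : SuspensionThm)
    (hv : Nonempty (Block (Option Empty) Empty 2 (fun _ => 2) 0))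
    (hh : ∃ D : Block (Option Empty) Empty 2 (fun _ => 1) 1, D.Splits)
    (q e : ℕ) (F : RotInvariantForm q (e + 1)) (r : Fin (e + 1) → Fin (q / 2))
    (hF : F.toFun (fun s => torusElement q (Pi.single (r s) 1)) ≠ 0)
    (hq : (e + 1) + (Finset.univ.filter fun j =>
      3 ≤ (Finset.univ.filter fun s => r s = j).card).card ≤ q) : ¬ VanishesOnHaefliger F := by
  refine not_vanishes_of_rlz F r hF ?_
  have hq' : (expo r).sum + ((expo r).filter fun a => 3 ≤ a).card ≤ q := by
    rw [sum_expo, card_filter_expo]
    exact hq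
  rcases parity_exponents F r hF with hev | ⟨hq2, hodd⟩
  · refine rlz_of_even hs hv _ ?_ q hq'
    intro a ha
    unfold expo at ha
    obtain ⟨j, hj, rfl⟩ := Multiset.mem_map.1 ha
    exact ⟨hev j, (Finset.mem_filter.1 (show j ∈ Finset.univ.filter fun j => cnt r j ≠ 0 from hj)).2⟩
  · have hall : (Finset.univ.filter fun j => cnt r j ≠ 0) = Finset.univ := by
      ext j
      simp only [Finset.mem_filter, Finset.mem_univ, true_and, iff_true]
      intro h0
      have := hodd j
      change Odd (cnt r j) at this
      rw [h0] at this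
      exact absurd this (by decide)
    have hcard : (expo r).card = q / 2 := by
      unfold expo
      rw [hall, Multiset.card_map]
      exact (Finset.card_univ).trans (Fintype.card_fin _)
    have h0 : q - 2 * (expo r).card = 0 := by omega
    rw [h0]
    refine rlz_of_odd hs hh _ ?_ (by rw [hcard]; omega)
    intro a ha
    unfold expo at ha
    obtain ⟨j, hj, rfl⟩ := Multiset.mem_map.1 ha
    exact hodd j

/-- a system of exponents of total degree `d` with `5 d ≤ 4 q` satisfies the criterion -/
theorem criterion_of_degree {q d : ℕ} (r : Fin d → Fin (q / 2))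
    (hpar : (∀ j, Even (Finset.univ.filter fun s => r s = j).card) ∨
      (q = 2 * (q / 2) ∧ ∀ j, Odd (Finset.univ.filter fun s => r s = j).card))
    (hd : 5 * d ≤ 4 * q ∨ ((q = 5 ∨ q = 7) ∧ d ≤ q)) :
    d + (Finset.univ.filter fun j =>
      3 ≤ (Finset.univ.filter fun s => r s = j).card).card ≤ q := by
  change d + (Finset.univ.filter fun j => 3 ≤ cnt r j).card ≤ q
  have hsum := sum_cnt r
  have hfil : (Finset.univ.filter fun j => 3 ≤ cnt r j).card =
      ∑ j, if 3 ≤ cnt r j then 1 else 0 := by
    rw [Finset.card_filter]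
  rcases hpar with hev | ⟨hq2, hodd⟩
  · have hev' : ∀ j, Even (cnt r j) := hev
    have h4 : 4 * (Finset.univ.filter fun j => 3 ≤ cnt r j).card ≤ d := by
      rw [hfil, Finset.mul_sum]
      refine le_trans (Finset.sum_le_sum fun j _ => ?_) hsum.le
      obtain ⟨c, hc⟩ := hev' j
      split_ifs with h3 <;> omega
    have heven : Even d := hsum ▸ Finset.even_sum _ fun j _ => hev' j
    obtain ⟨c, hc⟩ := heven
    rcases hd with hd | ⟨hq | hq, hd⟩
    · omega
    · omega
    · omega
  · have hodd' : ∀ j, Odd (cnt r j) := hodd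
    have h2 : q / 2 + 2 * (Finset.univ.filter fun j => 3 ≤ cnt r j).card ≤ d := by
      have hm : ∑ _j : Fin (q / 2), 1 = q / 2 := by simp
      have h3 : ∑ j : Fin (q / 2), (1 + 2 * if 3 ≤ cnt r j then 1 else 0) ≤ d := by
        refine le_trans (Finset.sum_le_sum fun j _ => ?_) hsum.le
        obtain ⟨c, hc⟩ := hodd' j
        split_ifs with h3 <;> omega
      rw [Finset.sum_add_distrib, hm, ← Finset.mul_sum] at h3
      rw [hfil]
      exact h3
    rcases hd with hd | ⟨hq | hq, hd⟩ <;> omega

theorem main_of_blocks (hs : SuspensionThm)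
    (hv : Nonempty (Block (Option Empty) Empty 2 (fun _ => 2) 0))
    (hh : ∃ D : Block (Option Empty) Empty 2 (fun _ => 1) 1, D.Splits) : MainStatement := by
  have key : ∀ (q e : ℕ) (F : RotInvariantForm q (e + 1)) (X : (Fin q → ℝ) →L[ℝ] (Fin q → ℝ)),
      IsSkew X → F.toFun (fun _ => X) ≠ 0 →
      (5 * (e + 1) ≤ 4 * q ∨ ((q = 5 ∨ q = 7) ∧ e + 1 ≤ q)) → ¬ VanishesOnHaefliger F := by
    intro q e F X hX hFX hd
    obtain ⟨g, x, hg, hgx⟩ := skew_normal_form X hX
    have h1 : F.toFun (fun _ => torusElement q x) ≠ 0 := by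
      rw [← hgx, F.conj g hg (fun _ => X)]
      exact hFX
    obtain ⟨r, hr⟩ := exists_coefficient F x h1
    exact criterion_of_blocks hs hv hh q e F r hr
      (criterion_of_degree r (parity_exponents F r hr) hd)
  refine ⟨?_, ?_, ?_⟩
  · intro q e F X hX hFX hd
    exact key q e F X hX hFX (Or.inl hd)
  · exact criterion_of_blocks hs hv hh
  · intro q e F X hq hX hFX hd
    exact key q e F X hX hFX (Or.inr ⟨hq, hd⟩)

end Pool.Agent.HAF2
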