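import Pool.Agent.HAF2.PowProd

/-!
# Module BPR: products of blocks

Base: indices `ι₁ × ι₂`, `ρ := Sum.elim`, `θ` composed with the projections, `ℓ := prodL`,
cycle `prodCyc`, the integral from `prodCyc_power` (apply it to
`W₁ = ∑ x (inl r) K_r + y K_ℓ₁`, `W₂ = ∑ x (inr r) K_r + y K_ℓ₂`; continuity along the cubes
because `curv` is locally the derivative of the smooth `θ`). Haefliger structure: `prodH`; frames:
`(v, w) ↦ (frame₁ (v ∘ inl, w ∘ inl), frame₂ (v ∘ inr, w ∘ inr))`; `φ := φ₁ * φ₂`; splitting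
`s₁.prodMap s₂`.
-/

namespace Pool.Agent.HAF2

open Filter Topology MeasureTheory
open scoped ContDiff
open Pool.Agent.HaefligerClasses (QuotientManifold IsForm HaefligerStructure curvature
  torusElement)

/-- the two halves of the model space -/
noncomputable def splitTV (R₁ K₁ R₂ K₂ : Type) [Fintype R₁] [Fintype K₁] [Fintype R₂]
    [Fintype K₂] : TV (R₁ ⊕ R₂) (K₁ ⊕ K₂) ≃L[ℝ] TV R₁ K₁ × TV R₂ K₂ :=
  LinearEquiv.toContinuousLinearEquiv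
    { toFun := fun v => ((fun r => v.1 (Sum.inl r), fun k => v.2 (Sum.inl k)),
        (fun r => v.1 (Sum.inr r), fun k => v.2 (Sum.inr k)))
      invFun := fun p => (Sum.elim p.1.1 p.2.1, Sum.elim p.1.2 p.2.2)
      map_add' := fun _ _ => rfl
      map_smul' := fun _ _ => rfl
      left_inv := by
        intro v
        refine Prod.ext (funext fun r => ?_) (funext fun k => ?_)
        · cases r <;> rfl
        · cases k <;> rfl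
      right_inv := fun _ => rfl }

section

theorem Cycle.power_congr {E : Type} [NormedAddCommGroup E] [NormedSpace ℝ E] {Λ : Type}
    [AddGroup Λ] {M : QuotientManifold E Λ} {N : ℕ} (C : Cycle M N) (n : ℕ) (h : N = 2 * n)
    (W W' : E → E → E → ℝ) (hW : ∀ x ∈ M.U, ∀ u w, W x u w = W' x u w) :
    C.power n h W = C.power n h W' := by
  unfold Cycle.power
  refine Finset.sum_congr rfl fun k _ => ?_
  refine setIntegral_congr_fun measurableSet_Icc fun ξ hξ => ?_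
  have hx := C.mem_c k ξ hξ
  simp only [hW _ hx]

theorem Base.continuousOn_curv {R : Type} [Fintype R] {n b : ℕ} {α : R → ℕ}
    (D : Base R n α b) (k : D.cyc.κ) (r : R) (i j : Fin D.N) :
    ContinuousOn (fun ξ => D.curv r (D.cyc.c k ξ)
      (fderiv ℝ (D.cyc.c k) ξ (Pi.single i 1)) (fderiv ℝ (D.cyc.c k) ξ (Pi.single j 1)))
      (Set.Icc 0 1) := by
  intro ξ hξ
  apply ContinuousAt.continuousWithinAt
  obtain ⟨i₀, hi₀⟩ := D.cover _ (D.cyc.mem_c k ξ hξ)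
  have hc : Continuous (D.cyc.c k) := (D.cyc.smooth_c k).continuous
  have hfd : Continuous (fderiv ℝ (D.cyc.c k)) :=
    (D.cyc.smooth_c k).continuous_fderiv (by simp)
  have hθ : ContinuousAt (fderiv ℝ (D.θ i₀ r)) (D.cyc.c k ξ) :=
    ((D.smooth_θ i₀ r).contDiffAt ((D.isOpen_dom i₀).mem_nhds hi₀)).fderiv_right
      (m := 0) (by simp) |>.continuousAt
  have hθ' : ContinuousAt (fun ξ => fderiv ℝ (D.θ i₀ r) (D.cyc.c k ξ)) ξ :=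
    ContinuousAt.comp (g := fderiv ℝ (D.θ i₀ r)) hθ hc.continuousAt
  have hei : ContinuousAt (fun ξ => fderiv ℝ (D.cyc.c k) ξ (Pi.single i 1)) ξ :=
    (hfd.clm_apply continuous_const).continuousAt
  have hej : ContinuousAt (fun ξ => fderiv ℝ (D.cyc.c k) ξ (Pi.single j 1)) ξ :=
    (hfd.clm_apply continuous_const).continuousAt
  have hcont : ContinuousAt (fun ξ => dform (D.θ i₀ r) (D.cyc.c k ξ)
      (fderiv ℝ (D.cyc.c k) ξ (Pi.single i 1)) (fderiv ℝ (D.cyc.c k) ξ (Pi.single j 1))) ξ :=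
    ((hθ'.clm_apply hei).clm_apply hej).sub ((hθ'.clm_apply hej).clm_apply hei)
  refine hcont.congr ?_
  have hev : ∀ᶠ ξ' in 𝓝 ξ, D.cyc.c k ξ' ∈ D.dom i₀ :=
    hc.continuousAt.eventually_mem ((D.isOpen_dom i₀).mem_nhds hi₀)
  filter_upwards [hev] with ξ' h'
  exact (D.curv_eq i₀ r _ h' _ _).symm

theorem Base.continuousOn_dform {R : Type} [Fintype R] {n b : ℕ} {α : R → ℕ}
    (D : Base R n α b) (k : D.cyc.κ) (i j : Fin D.N) :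
    ContinuousOn (fun ξ => dform D.ℓ.a (D.cyc.c k ξ)
      (fderiv ℝ (D.cyc.c k) ξ (Pi.single i 1)) (fderiv ℝ (D.cyc.c k) ξ (Pi.single j 1)))
      (Set.Icc 0 1) := by
  intro ξ hξ
  apply ContinuousAt.continuousWithinAt
  have hc : Continuous (D.cyc.c k) := (D.cyc.smooth_c k).continuous
  have hfd : Continuous (fderiv ℝ (D.cyc.c k)) :=
    (D.cyc.smooth_c k).continuous_fderiv (by simp)
  have hθ : ContinuousAt (fderiv ℝ D.ℓ.a) (D.cyc.c k ξ) :=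
    (D.ℓ.smooth_a.contDiffAt (D.M.isOpen_U.mem_nhds (D.cyc.mem_c k ξ hξ))).fderiv_right
      (m := 0) (by simp) |>.continuousAt
  have hθ' : ContinuousAt (fun ξ => fderiv ℝ D.ℓ.a (D.cyc.c k ξ)) ξ :=
    ContinuousAt.comp (g := fderiv ℝ D.ℓ.a) hθ hc.continuousAt
  have hei : ContinuousAt (fun ξ => fderiv ℝ (D.cyc.c k) ξ (Pi.single i 1)) ξ :=
    (hfd.clm_apply continuous_const).continuousAt
  have hej : ContinuousAt (fun ξ => fderiv ℝ (D.cyc.c k) ξ (Pi.single j 1)) ξ :=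
    (hfd.clm_apply continuous_const).continuousAt
  exact ((hθ'.clm_apply hei).clm_apply hej).sub ((hθ'.clm_apply hej).clm_apply hei)

/-- the form whose power is integrated, extended by zero outside `U` -/
noncomputable def Base.W {R : Type} [Fintype R] {n b : ℕ} {α : R → ℕ}
    (D : Base R n α b) (x : R → ℝ) (y : ℝ) (p u w : D.E) : ℝ :=
  by
    classical
    exact if p ∈ D.M.U then ∑ r, x r * D.curv r p u w + y * dform D.ℓ.a p u w else 0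

theorem Base.W_of_mem {R : Type} [Fintype R] {n b : ℕ} {α : R → ℕ}
    (D : Base R n α b) (x : R → ℝ) (y : ℝ) {p : D.E} (hp : p ∈ D.M.U) (u w : D.E) :
    D.W x y p u w = ∑ r, x r * D.curv r p u w + y * dform D.ℓ.a p u w := by
  unfold Base.W
  rw [if_pos hp]

theorem Base.W_zero {R : Type} [Fintype R] {n b : ℕ} {α : R → ℕ}
    (D : Base R n α b) (x : R → ℝ) (y : ℝ) (p w : D.E) :
    D.W x y p 0 w = 0 ∧ D.W x y p w 0 = 0 := by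
  by_cases hp : p ∈ D.M.U
  · obtain ⟨i, hi⟩ := D.cover p hp
    rw [D.W_of_mem x y hp, D.W_of_mem x y hp]
    simp [D.curv_eq i _ p hi, dform]
  · unfold Base.W
    rw [if_neg hp, if_neg hp]
    exact ⟨rfl, rfl⟩

theorem Base.power_W {R : Type} [Fintype R] {n b : ℕ} {α : R → ℕ}
    (D : Base R n α b) (x : R → ℝ) (y : ℝ) :
    D.cyc.power n D.hN (D.W x y) = D.cyc.power n D.hN
      (fun p u w => ∑ r, x r * D.curv r p u w + y * dform D.ℓ.a p u w) :=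
  Cycle.power_congr _ _ _ _ _ fun _ hp u w => D.W_of_mem x y hp u w

theorem Base.continuousOn_W {R : Type} [Fintype R] {n b : ℕ} {α : R → ℕ}
    (D : Base R n α b) (x : R → ℝ) (y : ℝ) (k : D.cyc.κ) (i j : Fin D.N) :
    ContinuousOn (fun ξ => D.W x y (D.cyc.c k ξ)
      (fderiv ℝ (D.cyc.c k) ξ (Pi.single i 1)) (fderiv ℝ (D.cyc.c k) ξ (Pi.single j 1)))
      (Set.Icc 0 1) := by
  have h : ContinuousOn (fun ξ => ∑ r, x r * D.curv r (D.cyc.c k ξ)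
      (fderiv ℝ (D.cyc.c k) ξ (Pi.single i 1)) (fderiv ℝ (D.cyc.c k) ξ (Pi.single j 1)) +
      y * dform D.ℓ.a (D.cyc.c k ξ)
      (fderiv ℝ (D.cyc.c k) ξ (Pi.single i 1)) (fderiv ℝ (D.cyc.c k) ξ (Pi.single j 1)))
      (Set.Icc 0 1) :=
    (continuousOn_finsetSum _ fun r _ =>
      continuousOn_const.mul (D.continuousOn_curv k r i j)).add
      (continuousOn_const.mul (D.continuousOn_dform k i j))
  refine h.congr fun ξ hξ => ?_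
  exact D.W_of_mem x y (D.cyc.mem_c k ξ hξ) _ _

variable {R₁ R₂ : Type} [Fintype R₁] [Fintype R₂] {n₁ n₂ : ℕ} {α₁ : R₁ → ℕ} {α₂ : R₂ → ℕ}
  {b₁ b₂ : ℕ}

/-- the connection forms of the product base -/
noncomputable def prodTheta (D₁ : Base R₁ n₁ α₁ b₁) (D₂ : Base R₂ n₂ α₂ b₂)
    (i : D₁.ι × D₂.ι) (r : R₁ ⊕ R₂) (x : D₁.E × D₂.E) : D₁.E × D₂.E →L[ℝ] ℝ :=
  Sum.elim (fun r => D₁.θ i.1 r x.1 ∘L ContinuousLinearMap.fst ℝ D₁.E D₂.E)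
    (fun r => D₂.θ i.2 r x.2 ∘L ContinuousLinearMap.snd ℝ D₁.E D₂.E) r

/-- the cocycles of the product base -/
def prodRho (D₁ : Base R₁ n₁ α₁ b₁) (D₂ : Base R₂ n₂ α₂ b₂)
    (i : D₁.ι × D₂.ι) (a : D₁.Λ × D₂.Λ) (j : D₁.ι × D₂.ι) (x : D₁.E × D₂.E) (r : R₁ ⊕ R₂) : ℂ :=
  Sum.elim (D₁.ρ i.1 a.1 j.1 x.1) (D₂.ρ i.2 a.2 j.2 x.2) r

/-- the curvature forms of the product base -/
def prodCurv (D₁ : Base R₁ n₁ α₁ b₁) (D₂ : Base R₂ n₂ α₂ b₂)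
    (r : R₁ ⊕ R₂) (x u w : D₁.E × D₂.E) : ℝ :=
  Sum.elim (fun r => D₁.curv r x.1 u.1 w.1) (fun r => D₂.curv r x.2 u.2 w.2) r

/-- the product of two bases -/
noncomputable def prodBase (D₁ : Base R₁ n₁ α₁ b₁) (D₂ : Base R₂ n₂ α₂ b₂) :
    Base (R₁ ⊕ R₂) (n₁ + n₂) (Sum.elim α₁ α₂) (b₁ + b₂) where
  E := D₁.E × D₂.E
  Λ := D₁.Λ × D₂.Λ
  M := prodM D₁.M D₂.M
  ι := D₁.ι × D₂.ι
  dom := fun i => D₁.dom i.1 ×ˢ D₂.dom i.2
  isOpen_dom := fun i => (D₁.isOpen_dom i.1).prod (D₂.isOpen_dom i.2)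
  dom_subset := fun i => Set.prod_mono (D₁.dom_subset i.1) (D₂.dom_subset i.2)
  cover := by
    intro x hx
    obtain ⟨i₁, hi₁⟩ := D₁.cover x.1 hx.1
    obtain ⟨i₂, hi₂⟩ := D₂.cover x.2 hx.2
    exact ⟨(i₁, i₂), hi₁, hi₂⟩
  ρ := prodRho D₁ D₂
  norm_ρ := by
    intro i a j x hj hi r
    cases r with
    | inl r => exact D₁.norm_ρ i.1 a.1 j.1 x.1 hj.1 hi.1 r
    | inr r => exact D₂.norm_ρ i.2 a.2 j.2 x.2 hj.2 hi.2 r
  diff_ρ := by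
    intro i a j x hj hi r
    cases r with
    | inl r => exact (D₁.diff_ρ i.1 a.1 j.1 x.1 hj.1 hi.1 r).comp x differentiableAt_fst
    | inr r => exact (D₂.diff_ρ i.2 a.2 j.2 x.2 hj.2 hi.2 r).comp x differentiableAt_snd
  θ := prodTheta D₁ D₂
  smooth_θ := by
    intro i r
    cases r with
    | inl r =>
      exact ((D₁.smooth_θ i.1 r).comp contDiff_fst.contDiffOn (fun _ hx => hx.1)).clm_comp
        contDiffOn_const
    | inr r =>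
      exact ((D₂.smooth_θ i.2 r).comp contDiff_snd.contDiffOn (fun _ hx => hx.2)).clm_comp
        contDiffOn_const
  compat := by
    intro i a j x hj hi r u
    rw [fderiv_prodM_act D₁.M D₂.M a x ⟨D₁.dom_subset _ hj.1, D₂.dom_subset _ hj.2⟩]
    cases r with
    | inl r =>
      have h := D₁.compat i.1 a.1 j.1 x.1 hj.1 hi.1 r u.1
      have h₁ : HasFDerivAt (fun y : D₁.E × D₂.E => D₁.ρ i.1 a.1 j.1 y.1 r)
          ((fderiv ℝ (fun y => D₁.ρ i.1 a.1 j.1 y r) x.1) ∘L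
            ContinuousLinearMap.fst ℝ D₁.E D₂.E) x :=
        HasFDerivAt.comp x (D₁.diff_ρ i.1 a.1 j.1 x.1 hj.1 hi.1 r).hasFDerivAt hasFDerivAt_fst
      have h₂ : fderiv ℝ (fun y : D₁.E × D₂.E => prodRho D₁ D₂ i a j y (Sum.inl r)) x = _ :=
        h₁.fderiv
      rw [h₂]
      exact h
    | inr r =>
      have h := D₂.compat i.2 a.2 j.2 x.2 hj.2 hi.2 r u.2
      have h₁ : HasFDerivAt (fun y : D₁.E × D₂.E => D₂.ρ i.2 a.2 j.2 y.2 r)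
          ((fderiv ℝ (fun y => D₂.ρ i.2 a.2 j.2 y r) x.2) ∘L
            ContinuousLinearMap.snd ℝ D₁.E D₂.E) x :=
        HasFDerivAt.comp x (D₂.diff_ρ i.2 a.2 j.2 x.2 hj.2 hi.2 r).hasFDerivAt hasFDerivAt_snd
      have h₂ : fderiv ℝ (fun y : D₁.E × D₂.E => prodRho D₁ D₂ i a j y (Sum.inr r)) x = _ :=
        h₁.fderiv
      rw [h₂]
      exact h
  curv := prodCurv D₁ D₂
  curv_eq := by
    intro i r x hx u w
    cases r with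
    | inl r =>
      have hd : DifferentiableAt ℝ (D₁.θ i.1 r) x.1 :=
        ((D₁.smooth_θ i.1 r).contDiffAt ((D₁.isOpen_dom i.1).mem_nhds hx.1)).differentiableAt
          (by simp)
      have h₁ : HasFDerivAt (fun y : D₁.E × D₂.E => D₁.θ i.1 r y.1)
          ((fderiv ℝ (D₁.θ i.1 r) x.1) ∘L ContinuousLinearMap.fst ℝ D₁.E D₂.E) x :=
        HasFDerivAt.comp x hd.hasFDerivAt hasFDerivAt_fst
      have h₃ := h₁.clm_comp (hasFDerivAt_const (ContinuousLinearMap.fst ℝ D₁.E D₂.E) x)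
      have h₄ : ∀ u w : D₁.E × D₂.E, fderiv ℝ (prodTheta D₁ D₂ i (Sum.inl r)) x u w =
          fderiv ℝ (D₁.θ i.1 r) x.1 u.1 w.1 := by
        intro u w
        have h₅ : fderiv ℝ (prodTheta D₁ D₂ i (Sum.inl r)) x = _ := h₃.fderiv
        rw [h₅]
        simp
      rw [dform, h₄, h₄]
      exact D₁.curv_eq i.1 r x.1 hx.1 u.1 w.1
    | inr r =>
      have hd : DifferentiableAt ℝ (D₂.θ i.2 r) x.2 :=
        ((D₂.smooth_θ i.2 r).contDiffAt ((D₂.isOpen_dom i.2).mem_nhds hx.2)).differentiableAt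
          (by simp)
      have h₁ : HasFDerivAt (fun y : D₁.E × D₂.E => D₂.θ i.2 r y.2)
          ((fderiv ℝ (D₂.θ i.2 r) x.2) ∘L ContinuousLinearMap.snd ℝ D₁.E D₂.E) x :=
        HasFDerivAt.comp x hd.hasFDerivAt hasFDerivAt_snd
      have h₃ := h₁.clm_comp (hasFDerivAt_const (ContinuousLinearMap.snd ℝ D₁.E D₂.E) x)
      have h₄ : ∀ u w : D₁.E × D₂.E, fderiv ℝ (prodTheta D₁ D₂ i (Sum.inr r)) x u w =
          fderiv ℝ (D₂.θ i.2 r) x.2 u.2 w.2 := by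
        intro u w
        have h₅ : fderiv ℝ (prodTheta D₁ D₂ i (Sum.inr r)) x = _ := h₃.fderiv
        rw [h₅]
        simp
      rw [dform, h₄, h₄]
      exact D₂.curv_eq i.2 r x.2 hx.2 u.2 w.2
  ℓ := prodL D₁.ℓ D₂.ℓ
  N := D₁.N + D₂.N
  hN := by rw [D₁.hN, D₂.hN]; ring
  cyc := prodCyc D₁.cyc D₂.cyc
  integral := by
    obtain ⟨C₁, hC₁, h₁⟩ := D₁.integral
    obtain ⟨C₂, hC₂, h₂⟩ := D₂.integral
    refine ⟨(Nat.choose (n₁ + n₂) n₁ : ℝ) * C₁ * C₂, ?_, fun x y => ?_⟩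
    · refine mul_ne_zero (mul_ne_zero ?_ hC₁) hC₂
      exact_mod_cast (Nat.choose_pos (Nat.le_add_right n₁ n₂)).ne'
    · have hp := prodCyc_power D₁.hN D₂.hN (by rw [D₁.hN, D₂.hN]; ring) D₁.cyc D₂.cyc
        (D₁.W (fun r => x (Sum.inl r)) y) (D₂.W (fun r => x (Sum.inr r)) y)
        (D₁.W_zero _ y) (D₂.W_zero _ y) (D₁.continuousOn_W _ y) (D₂.continuousOn_W _ y)
      rw [D₁.power_W, D₂.power_W, h₁, h₂] at hp
      have he : (prodCyc D₁.cyc D₂.cyc).power (n₁ + n₂) (by rw [D₁.hN, D₂.hN]; ring)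
          (fun p u w => ∑ r, x r * prodCurv D₁ D₂ r p u w +
            y * dform (prodL D₁.ℓ D₂.ℓ).a p u w) =
          (prodCyc D₁.cyc D₂.cyc).power (n₁ + n₂) (by rw [D₁.hN, D₂.hN]; ring)
          (fun p u w => D₁.W (fun r => x (Sum.inl r)) y p.1 u.1 w.1 +
            D₂.W (fun r => x (Sum.inr r)) y p.2 u.2 w.2) := by
        refine Cycle.power_congr _ _ _ _ _ fun p hp u w => ?_
        rw [D₁.W_of_mem _ y hp.1, D₂.W_of_mem _ y hp.2, dform_prodL D₁.ℓ D₂.ℓ p hp,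
          Fintype.sum_sum_type]
        simp only [prodCurv, Sum.elim_inl, Sum.elim_inr]
        ring
      rw [he, hp, Fintype.prod_sum_type]
      simp only [Sum.elim_inl, Sum.elim_inr, pow_add]
      ring

end

section

variable {R₁ K₁ R₂ K₂ : Type} [Fintype R₁] [Fintype K₁] [Fintype R₂] [Fintype K₂]
    {n₁ n₂ : ℕ} {α₁ : R₁ → ℕ} {α₂ : R₂ → ℕ} {b₁ b₂ : ℕ}

/-- the frames of the product -/
noncomputable def prodFrame {E₁ E₂ V₁ V₂ : Type} [NormedAddCommGroup E₁] [NormedSpace ℝ E₁]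
    [NormedAddCommGroup E₂] [NormedSpace ℝ E₂] [NormedAddCommGroup V₁] [NormedSpace ℝ V₁]
    [NormedAddCommGroup V₂] [NormedSpace ℝ V₂] (f₁ : E₁ → (TV R₁ K₁ →L[ℝ] V₁))
    (f₂ : E₂ → (TV R₂ K₂ →L[ℝ] V₂)) (x : E₁ × E₂) :
    TV (R₁ ⊕ R₂) (K₁ ⊕ K₂) →L[ℝ] V₁ × V₂ :=
  ((f₁ x.1 ∘L ContinuousLinearMap.fst ℝ _ _).prod (f₂ x.2 ∘L ContinuousLinearMap.snd ℝ _ _)) ∘L
    (splitTV R₁ K₁ R₂ K₂ : TV (R₁ ⊕ R₂) (K₁ ⊕ K₂) →L[ℝ] TV R₁ K₁ × TV R₂ K₂)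

theorem contDiffOn_prodMap_clm {E₁ E₂ F₁ F₂ V₁ V₂ : Type} [NormedAddCommGroup E₁]
    [NormedSpace ℝ E₁] [NormedAddCommGroup E₂] [NormedSpace ℝ E₂] [NormedAddCommGroup F₁]
    [NormedSpace ℝ F₁] [NormedAddCommGroup F₂] [NormedSpace ℝ F₂] [NormedAddCommGroup V₁]
    [NormedSpace ℝ V₁] [NormedAddCommGroup V₂] [NormedSpace ℝ V₂] {f₁ : E₁ → (F₁ →L[ℝ] V₁)}
    {f₂ : E₂ → (F₂ →L[ℝ] V₂)} {S₁ : Set E₁} {S₂ : Set E₂} (h₁ : ContDiffOn ℝ ∞ f₁ S₁)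
    (h₂ : ContDiffOn ℝ ∞ f₂ S₂) :
    ContDiffOn ℝ ∞ (fun x : E₁ × E₂ => (f₁ x.1).prodMap (f₂ x.2)) (S₁ ×ˢ S₂) := by
  have e₁ : ContDiffOn ℝ ∞ (fun x : E₁ × E₂ => f₁ x.1) (S₁ ×ˢ S₂) :=
    h₁.comp contDiff_fst.contDiffOn (fun _ hx => hx.1)
  have e₂ : ContDiffOn ℝ ∞ (fun x : E₁ × E₂ => f₂ x.2) (S₁ ×ˢ S₂) :=
    h₂.comp contDiff_snd.contDiffOn (fun _ hx => hx.2)
  have h := (contDiffOn_const (c := ContinuousLinearMap.inl ℝ V₁ V₂) |>.clm_comp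
    (e₁.clm_comp (contDiffOn_const (c := ContinuousLinearMap.fst ℝ F₁ F₂)))).add
    (contDiffOn_const (c := ContinuousLinearMap.inr ℝ V₁ V₂) |>.clm_comp
    (e₂.clm_comp (contDiffOn_const (c := ContinuousLinearMap.snd ℝ F₁ F₂))))
  refine h.congr fun x _ => ?_
  ext v <;> simp

theorem prodFrame_eq {E₁ E₂ V₁ V₂ : Type} [NormedAddCommGroup E₁] [NormedSpace ℝ E₁]
    [NormedAddCommGroup E₂] [NormedSpace ℝ E₂] [NormedAddCommGroup V₁] [NormedSpace ℝ V₁]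
    [NormedAddCommGroup V₂] [NormedSpace ℝ V₂] (f₁ : E₁ → (TV R₁ K₁ →L[ℝ] V₁))
    (f₂ : E₂ → (TV R₂ K₂ →L[ℝ] V₂)) (x : E₁ × E₂) :
    prodFrame f₁ f₂ x = ((f₁ x.1).prodMap (f₂ x.2)) ∘L
      (splitTV R₁ K₁ R₂ K₂ : TV (R₁ ⊕ R₂) (K₁ ⊕ K₂) →L[ℝ] TV R₁ K₁ × TV R₂ K₂) := rfl

theorem det_conj_split (A : TV R₁ K₁ × TV R₂ K₂ →L[ℝ] TV R₁ K₁ × TV R₂ K₂) :
    (((splitTV R₁ K₁ R₂ K₂).symm : TV R₁ K₁ × TV R₂ K₂ →L[ℝ] TV (R₁ ⊕ R₂) (K₁ ⊕ K₂)) ∘L A ∘L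
      (splitTV R₁ K₁ R₂ K₂ : TV (R₁ ⊕ R₂) (K₁ ⊕ K₂) →L[ℝ] TV R₁ K₁ × TV R₂ K₂)).det = A.det :=
  LinearMap.det_conj (A : TV R₁ K₁ × TV R₂ K₂ →ₗ[ℝ] TV R₁ K₁ × TV R₂ K₂)
    (splitTV R₁ K₁ R₂ K₂).symm.toLinearEquiv

theorem split_rotT (ρ₁ : R₁ → ℂ) (ρ₂ : R₂ → ℂ) :
    (splitTV R₁ K₁ R₂ K₂ : TV (R₁ ⊕ R₂) (K₁ ⊕ K₂) →L[ℝ] TV R₁ K₁ × TV R₂ K₂) ∘L
      rotT (fun r => Sum.elim ρ₁ ρ₂ r) = ((rotT ρ₁).prodMap (rotT ρ₂)) ∘L
      (splitTV R₁ K₁ R₂ K₂ : TV (R₁ ⊕ R₂) (K₁ ⊕ K₂) →L[ℝ] TV R₁ K₁ × TV R₂ K₂) := by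
  apply ContinuousLinearMap.ext
  intro v
  rfl

/-- the product of two blocks -/
noncomputable def prodBlock (D₁ : Block R₁ K₁ n₁ α₁ b₁) (D₂ : Block R₂ K₂ n₂ α₂ b₂) :
    Block (R₁ ⊕ R₂) (K₁ ⊕ K₂) (n₁ + n₂) (Sum.elim α₁ α₂) (b₁ + b₂) where
  toBase := prodBase D₁.toBase D₂.toBase
  V := D₁.V × D₂.V
  H := prodH D₁.H D₂.H
  b0 := fun i => (D₁.b0 i.1, D₂.b0 i.2)
  dom_b0 := fun i => Set.prod_mono (D₁.dom_b0 i.1) (D₂.dom_b0 i.2)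
  o := (splitTV R₁ K₁ R₂ K₂).trans (D₁.o.prodCongr D₂.o)
  frame := fun i => prodFrame (D₁.frame i.1) (D₂.frame i.2)
  smooth_frame := fun i =>
    (contDiffOn_prodMap_clm (D₁.smooth_frame i.1) (D₂.smooth_frame i.2)).clm_comp
      contDiffOn_const
  orient_frame := by
    intro i x hx
    have h : ((((splitTV R₁ K₁ R₂ K₂).trans (D₁.o.prodCongr D₂.o)).symm :
        D₁.V × D₂.V →L[ℝ] TV (R₁ ⊕ R₂) (K₁ ⊕ K₂)) ∘L
        prodFrame (D₁.frame i.1) (D₂.frame i.2) x) =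
        (((splitTV R₁ K₁ R₂ K₂).symm : TV R₁ K₁ × TV R₂ K₂ →L[ℝ] TV (R₁ ⊕ R₂) (K₁ ⊕ K₂)) ∘L
        (((D₁.o.symm : D₁.V →L[ℝ] TV R₁ K₁) ∘L D₁.frame i.1 x.1).prodMap
          ((D₂.o.symm : D₂.V →L[ℝ] TV R₂ K₂) ∘L D₂.frame i.2 x.2)) ∘L
        (splitTV R₁ K₁ R₂ K₂ : TV (R₁ ⊕ R₂) (K₁ ⊕ K₂) →L[ℝ] TV R₁ K₁ × TV R₂ K₂)) := by
      apply ContinuousLinearMap.ext
      intro v
      rfl
    change 0 < ((((splitTV R₁ K₁ R₂ K₂).trans (D₁.o.prodCongr D₂.o)).symm :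
        D₁.V × D₂.V →L[ℝ] TV (R₁ ⊕ R₂) (K₁ ⊕ K₂)) ∘L
        prodFrame (D₁.frame i.1) (D₂.frame i.2) x).det
    rw [h, det_conj_split, prd_det]
    exact mul_pos (D₁.orient_frame i.1 x.1 hx.1) (D₂.orient_frame i.2 x.2 hx.2)
  frame_rot := by
    intro i a j x hj hi
    have hn := normal_prodH D₁.H D₂.H i a j x hj hi
    have h₁ := D₁.frame_rot i.1 a.1 j.1 x.1 hj.1 hi.1
    have h₂ := D₂.frame_rot i.2 a.2 j.2 x.2 hj.2 hi.2
    change (prodH D₁.H D₂.H).normal i a j x ∘L prodFrame (D₁.frame j.1) (D₂.frame j.2) x =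
      prodFrame (D₁.frame i.1) (D₂.frame i.2) (D₁.M.act a.1 x.1, D₂.M.act a.2 x.2) ∘L
        rotT (fun r => Sum.elim (D₁.ρ (D₁.b0 i.1) a.1 (D₁.b0 j.1) x.1)
          (D₂.ρ (D₂.b0 i.2) a.2 (D₂.b0 j.2) x.2) r)
    rw [hn, prodFrame_eq, prodFrame_eq]
    rw [ContinuousLinearMap.comp_assoc, split_rotT]
    apply ContinuousLinearMap.ext
    intro v
    refine Prod.ext ?_ ?_
    · exact DFunLike.congr_fun h₁ (splitTV R₁ K₁ R₂ K₂ v).1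
    · exact DFunLike.congr_fun h₂ (splitTV R₁ K₁ R₂ K₂ v).2
  φ := fun i x => D₁.φ i.1 x.1 * D₂.φ i.2 x.2
  smooth_φ := fun i =>
    ((D₁.smooth_φ i.1).comp contDiff_fst.contDiffOn (fun _ hx => hx.1)).mul
      ((D₂.smooth_φ i.2).comp contDiff_snd.contDiffOn (fun _ hx => hx.2))
  norm_φ := by
    intro i x hx
    rw [norm_mul, D₁.norm_φ i.1 x.1 hx.1, D₂.norm_φ i.2 x.2 hx.2, one_mul]
  leafwise := by
    intro i a j x hj hi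
    obtain ⟨Θ₁, s₁, h₁⟩ := D₁.leafwise i.1 a.1 j.1 x.1 hj.1 hi.1
    obtain ⟨Θ₂, s₂, h₂⟩ := D₂.leafwise i.2 a.2 j.2 x.2 hj.2 hi.2
    refine ⟨fun v => Θ₁ v.1 * Θ₂ v.2, ?_, ?_⟩
    · exact (ContDiffAt.comp (D₁.H.f j.1 x.1, D₂.H.f j.2 x.2) s₁ contDiffAt_fst).mul
        (ContDiffAt.comp (D₁.H.f j.1 x.1, D₂.H.f j.2 x.2) s₂ contDiffAt_snd)
    · filter_upwards [(continuous_fst.tendsto x).eventually h₁,
        (continuous_snd.tendsto x).eventually h₂] with y g₁ g₂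
      change (D₁.φ i.1 (D₁.M.act a.1 y.1) * D₂.φ i.2 (D₂.M.act a.2 y.2)) *
        (D₁.ℓ.J a.1 y.1 * D₂.ℓ.J a.2 y.2) =
        (Θ₁ (D₁.H.f j.1 y.1) * Θ₂ (D₂.H.f j.2 y.2)) * (D₁.φ j.1 y.1 * D₂.φ j.2 y.2)
      calc _ = (D₁.φ i.1 (D₁.M.act a.1 y.1) * D₁.ℓ.J a.1 y.1) *
            (D₂.φ i.2 (D₂.M.act a.2 y.2) * D₂.ℓ.J a.2 y.2) := by ring
        _ = _ := by rw [g₁, g₂]; ring

end

theorem prod_block {R₁ K₁ R₂ K₂ : Type} [Fintype R₁] [Fintype K₁] [Fintype R₂] [Fintype K₂]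
    {n₁ n₂ : ℕ} {α₁ : R₁ → ℕ} {α₂ : R₂ → ℕ} {b₁ b₂ : ℕ} (D₁ : Block R₁ K₁ n₁ α₁ b₁)
    (D₂ : Block R₂ K₂ n₂ α₂ b₂) :
    ∃ D : Block (R₁ ⊕ R₂) (K₁ ⊕ K₂) (n₁ + n₂) (Sum.elim α₁ α₂) (b₁ + b₂),
      D₁.Splits → D₂.Splits → D.Splits := by
  refine ⟨prodBlock D₁ D₂, ?_⟩
  rintro ⟨s₁, hs₁, hr₁, he₁⟩ ⟨s₂, hs₂, hr₂, he₂⟩
  refine ⟨fun i x => (s₁ i.1 x.1).prodMap (s₂ i.2 x.2), fun i => ?_, fun i x hx => ?_,
    fun i a j x hj hi => ?_⟩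
  · exact contDiffOn_prodMap_clm (hs₁ i.1) (hs₂ i.2)
  · have hf₁ : HasFDerivAt (fun y : D₁.E × D₂.E => (D₁.H.f i.1 y.1, D₂.H.f i.2 y.2))
        ((fderiv ℝ (D₁.H.f i.1) x.1).prodMap (fderiv ℝ (D₂.H.f i.2) x.2)) x :=
      HasFDerivAt.prodMap x
        (((D₁.H.smooth_f i.1).contDiffAt
          ((D₁.H.isOpen_dom i.1).mem_nhds hx.1)).differentiableAt (by simp)).hasFDerivAt
        (((D₂.H.smooth_f i.2).contDiffAt
          ((D₂.H.isOpen_dom i.2).mem_nhds hx.2)).differentiableAt (by simp)).hasFDerivAt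
    have hf₂ : fderiv ℝ ((prodBlock D₁ D₂).H.f i) x = _ := hf₁.fderiv
    rw [hf₂]
    apply ContinuousLinearMap.ext
    intro v
    refine Prod.ext ?_ ?_
    · exact DFunLike.congr_fun (hr₁ i.1 x.1 hx.1) v.1
    · exact DFunLike.congr_fun (hr₂ i.2 x.2 hx.2) v.2
  · have hn : (prodBlock D₁ D₂).H.normal i a j x = _ := normal_prodH D₁.H D₂.H i a j x hj hi
    have ha : fderiv ℝ ((prodBlock D₁ D₂).M.act a) x = _ :=
      fderiv_prodM_act D₁.M D₂.M a x ⟨D₁.H.dom_subset _ hj.1, D₂.H.dom_subset _ hj.2⟩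
    rw [hn, ha]
    apply ContinuousLinearMap.ext
    intro v
    refine Prod.ext ?_ ?_
    · exact DFunLike.congr_fun (he₁ i.1 a.1 j.1 x.1 hj.1 hi.1) v.1
    · exact DFunLike.congr_fun (he₂ i.2 a.2 j.2 x.2 hj.2 hi.2) v.2

end Pool.Agent.HAF2
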