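import Pool.Agent.HAF2.Model

/-!
# Module BRL: relabelling the roots and the lines of a block

Only `ρ`, `θ`, `curv`, `o` and `frame` have to be composed with the bijections.
-/

namespace Pool.Agent.HAF2

open Filter Topology MeasureTheory
open scoped ContDiff
open Pool.Agent.HaefligerClasses (QuotientManifold IsForm HaefligerStructure curvature
  torusElement)

/-- the relabelling of the model space -/
private noncomputable def brlT {R K R' K' : Type} [Fintype R] [Fintype K] [Fintype R'] [Fintype K']
    (eR : R' ≃ R) (eK : K' ≃ K) : TV R' K' ≃L[ℝ] TV R K :=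
  (ContinuousLinearEquiv.piCongrLeft ℝ (fun _ : R => ℂ) eR).prodCongr
    (ContinuousLinearEquiv.piCongrLeft ℝ (fun _ : K => ℝ) eK)

private theorem brlT_fst {R K R' K' : Type} [Fintype R] [Fintype K] [Fintype R'] [Fintype K']
    (eR : R' ≃ R) (eK : K' ≃ K) (v : TV R' K') (r : R') : (brlT eR eK v).1 (eR r) = v.1 r :=
  Equiv.piCongrLeft_apply_apply (fun _ : R => ℂ) eR v.1 r

private theorem brlT_fst' {R K R' K' : Type} [Fintype R] [Fintype K] [Fintype R'] [Fintype K']
    (eR : R' ≃ R) (eK : K' ≃ K) (v : TV R' K') : (brlT eR eK v).1 = fun r => v.1 (eR.symm r) := by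
  funext r
  obtain ⟨r', rfl⟩ := eR.surjective r
  rw [brlT_fst, Equiv.symm_apply_apply]

private theorem brlT_snd' {R K R' K' : Type} [Fintype R] [Fintype K] [Fintype R'] [Fintype K']
    (eR : R' ≃ R) (eK : K' ≃ K) (v : TV R' K') : (brlT eR eK v).2 = fun r => v.2 (eK.symm r) := by
  funext r
  obtain ⟨r', rfl⟩ := eK.surjective r
  rw [Equiv.symm_apply_apply]
  exact Equiv.piCongrLeft_apply_apply (fun _ : K => ℝ) eK v.2 r'

private theorem brl_rot {R K R' K' : Type} [Fintype R] [Fintype K] [Fintype R'] [Fintype K']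
    (eR : R' ≃ R) (eK : K' ≃ K) (ρ : R → ℂ) :
    rotT ρ ∘L (brlT eR eK : TV R' K' →L[ℝ] TV R K) =
      (brlT eR eK : TV R' K' →L[ℝ] TV R K) ∘L rotT (fun r => ρ (eR r)) := by
  refine ContinuousLinearMap.ext fun v => ?_
  simp only [ContinuousLinearMap.comp_apply, ContinuousLinearEquiv.coe_coe, rotT_apply]
  refine Prod.ext ?_ ?_
  · simp only [brlT_fst', Equiv.apply_symm_apply]
  · simp only [brlT_snd']

theorem relabel_block {R K R' K' : Type} [Fintype R] [Fintype K] [Fintype R'] [Fintype K']
    {n n' : ℕ} {α : R → ℕ} {α' : R' → ℕ} {b b' : ℕ} (eR : R' ≃ R) (eK : K' ≃ K)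
    (hn : n = n') (hα : ∀ r, α' r = α (eR r)) (hb : b = b') (D : Block R K n α b) :
    ∃ D' : Block R' K' n' α' b', D.Splits → D'.Splits := by
  subst hn hb
  have hdet : ∀ A : TV R K →L[ℝ] TV R K,
      (((brlT eR eK).symm : TV R K →L[ℝ] TV R' K') ∘L A ∘L
        (brlT eR eK : TV R' K' →L[ℝ] TV R K)).det = A.det := by
    intro A
    have := LinearMap.det_conj (A : TV R K →ₗ[ℝ] TV R K) (brlT eR eK).symm.toLinearEquiv
    exact this
  let D' : Block R' K' n α' b :=
    { E := D.E
      Λ := D.Λ
      M := D.M
      ι := D.ι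
      dom := D.dom
      isOpen_dom := D.isOpen_dom
      dom_subset := D.dom_subset
      cover := D.cover
      ρ := fun i a j x r => D.ρ i a j x (eR r)
      norm_ρ := fun i a j x h h' r => D.norm_ρ i a j x h h' (eR r)
      diff_ρ := fun i a j x h h' r => D.diff_ρ i a j x h h' (eR r)
      θ := fun i r => D.θ i (eR r)
      smooth_θ := fun i r => D.smooth_θ i (eR r)
      compat := fun i a j x h h' r u => D.compat i a j x h h' (eR r) u
      curv := fun r => D.curv (eR r)
      curv_eq := fun i r x hx u w => D.curv_eq i (eR r) x hx u w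
      ℓ := D.ℓ
      N := D.N
      hN := D.hN
      cyc := D.cyc
      integral := by
        obtain ⟨C, hC, h⟩ := D.integral
        refine ⟨C, hC, fun x y => ?_⟩
        have h1 := h (fun r => x (eR.symm r)) y
        have e1 : ∀ p u w, ∑ r, x (eR.symm r) * D.curv r p u w = ∑ r', x r' * D.curv (eR r') p u w := by
          intro p u w
          rw [← Equiv.sum_comp eR]
          simp
        have e2 : ∏ r, x (eR.symm r) ^ α r = ∏ r', x r' ^ α' r' := by
          rw [← Equiv.prod_comp eR]
          simp [hα]
        rw [e2] at h1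
        simp only [e1] at h1
        exact h1
      V := D.V
      H := D.H
      b0 := D.b0
      dom_b0 := D.dom_b0
      o := (brlT eR eK).trans D.o
      frame := fun i x => D.frame i x ∘L (brlT eR eK : TV R' K' →L[ℝ] TV R K)
      smooth_frame := fun i => (D.smooth_frame i).clm_comp contDiffOn_const
      orient_frame := fun i x hx => by
        have h1 := D.orient_frame i x hx
        have e : (((brlT eR eK).trans D.o).symm : D.V →L[ℝ] TV R' K') ∘L
            (D.frame i x ∘L (brlT eR eK : TV R' K' →L[ℝ] TV R K)) =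
            ((brlT eR eK).symm : TV R K →L[ℝ] TV R' K') ∘L
              ((D.o.symm : D.V →L[ℝ] TV R K) ∘L D.frame i x) ∘L
              (brlT eR eK : TV R' K' →L[ℝ] TV R K) := by
          refine ContinuousLinearMap.ext fun v => ?_
          rfl
        rw [e, hdet]
        exact h1
      frame_rot := fun i a j x h h' => by
        have h1 := brl_rot eR eK (D.ρ (D.b0 i) a (D.b0 j) x)
        have h2 := D.frame_rot i a j x h h'
        refine ContinuousLinearMap.ext fun v => ?_
        have h3 := DFunLike.congr_fun h1 v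
        have h4 := DFunLike.congr_fun h2 ((brlT eR eK : TV R' K' →L[ℝ] TV R K) v)
        simp only [ContinuousLinearMap.comp_apply] at h3 h4 ⊢
        rw [h4, h3]
      φ := D.φ
      smooth_φ := D.smooth_φ
      norm_φ := D.norm_φ
      leafwise := D.leafwise }
  exact ⟨D', fun h => h⟩

end Pool.Agent.HAF2
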