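import Pool.Agent.HAF2.SphDefs

/-!
# Module SPM: the sphere bundle as a quotient manifold

`sphM M L` is the manifold `U'/Λ`. All fields follow from the corresponding fields of `M` and from
the cocycle property of `L.J` (note `J 0 x = 1` because `J (0 + 0) x = J 0 (0 x) * J 0 x` and
`‖J 0 x‖ = 1`; multiplication by `J l x ≠ 0` preserves `y ≠ 0`; freeness and properness only use
the first coordinate).
-/

namespace Pool.Agent.HAF2

open Filter Topology MeasureTheory
open scoped ContDiff ComplexConjugate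
open Pool.Agent.HaefligerClasses (QuotientManifold IsForm HaefligerStructure curvature
  torusElement)

section

variable {E : Type} [NormedAddCommGroup E] [NormedSpace ℝ E] {Λ : Type} [AddGroup Λ]

theorem J_zero (M : QuotientManifold E Λ) (L : ULine M) (x : E) (hx : x ∈ M.U) :
    L.J 0 x = 1 := by
  have h := L.J_add 0 0 x hx
  rw [add_zero, M.act_zero x hx] at h
  have hn : L.J 0 x ≠ 0 := by
    intro h0
    have h1 := L.norm_J 0 x hx
    rw [h0, norm_zero] at h1
    exact zero_ne_one h1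
  exact (mul_left_cancel₀ hn (by rw [mul_one]; exact h)).symm

theorem J_ne_zero (M : QuotientManifold E Λ) (L : ULine M) (l : Λ) (x : E) (hx : x ∈ M.U) :
    L.J l x ≠ 0 := by
  intro h0
  have h1 := L.norm_J l x hx
  rw [h0, norm_zero] at h1
  exact zero_ne_one h1

theorem isOpen_sphU (M : QuotientManifold E Λ) : IsOpen (sphU M) := by
  have h1 : IsOpen {p : E × ℂ × ℝ | p.1 ∈ M.U} := M.isOpen_U.preimage continuous_fst
  have h2 : IsOpen {p : E × ℂ × ℝ | p.2.1 ≠ 0} :=
    isOpen_ne_fun (continuous_fst.comp continuous_snd) continuous_const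
  have h3 : IsOpen {p : E × ℂ × ℝ | 1 / 2 < |p.2.2|} :=
    isOpen_lt continuous_const (continuous_snd.comp continuous_snd).abs
  exact h1.inter (h2.union h3)

theorem sphAct_mem (M : QuotientManifold E Λ) (L : ULine M) (l : Λ) (p : E × ℂ × ℝ)
    (hp : p ∈ sphU M) : sphAct M L l p ∈ sphU M := by
  refine ⟨M.mapsTo l p.1 hp.1, ?_⟩
  rcases hp.2 with h | h
  · exact Or.inl (mul_ne_zero (J_ne_zero M L l p.1 hp.1) h)
  · exact Or.inr h

/-- the sphere bundle -/
noncomputable def sphM (M : QuotientManifold E Λ) (L : ULine M) :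
    QuotientManifold (E × ℂ × ℝ) Λ where
  U := sphU M
  isOpen_U := isOpen_sphU M
  act := sphAct M L
  smooth_act := by
    intro l
    have h1 : ContDiffOn ℝ ∞ (fun p : E × ℂ × ℝ => M.act l p.1) (sphU M) :=
      (M.smooth_act l).comp contDiff_fst.contDiffOn (fun p hp => hp.1)
    have h2 : ContDiffOn ℝ ∞ (fun p : E × ℂ × ℝ => L.J l p.1) (sphU M) :=
      (L.smooth_J l).comp contDiff_fst.contDiffOn (fun p hp => hp.1)
    have h3 : ContDiffOn ℝ ∞ (fun p : E × ℂ × ℝ => p.2.1) (sphU M) :=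
      (contDiff_fst.comp contDiff_snd).contDiffOn
    have h4 : ContDiffOn ℝ ∞ (fun p : E × ℂ × ℝ => p.2.2) (sphU M) :=
      (contDiff_snd.comp contDiff_snd).contDiffOn
    exact h1.prodMk ((h2.mul h3).prodMk h4)
  mapsTo := fun l p hp => sphAct_mem M L l p hp
  act_zero := by
    intro p hp
    simp only [sphAct, M.act_zero p.1 hp.1, J_zero M L p.1 hp.1, one_mul]
  act_add := by
    intro l l' p hp
    simp only [sphAct, M.act_add l l' p.1 hp.1, L.J_add l l' p.1 hp.1, mul_assoc]
  free := by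
    intro l p hp h
    exact M.free l p.1 hp.1 (congrArg Prod.fst h)
  proper := by
    intro p hp q hq
    obtain ⟨V, hV, W, hW, hfin⟩ := M.proper p.1 hp.1 q.1 hq.1
    refine ⟨Prod.fst ⁻¹' V, continuous_fst.continuousAt.preimage_mem_nhds hV, Prod.fst ⁻¹' W,
      continuous_fst.continuousAt.preimage_mem_nhds hW, hfin.subset ?_⟩
    rintro l ⟨z, ⟨hz1, hz2⟩, hz3⟩
    exact ⟨z.1, ⟨hz1, hz2.1⟩, hz3⟩

theorem fderiv_sphAct (M : QuotientManifold E Λ) (L : ULine M) (l : Λ) (p : E × ℂ × ℝ)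
    (hp : p ∈ sphU M) (u : E × ℂ × ℝ) :
    fderiv ℝ (sphAct M L l) p u = (fderiv ℝ (M.act l) p.1 u.1,
      fderiv ℝ (L.J l) p.1 u.1 * p.2.1 + L.J l p.1 * u.2.1, u.2.2) := by
  have hd1 : HasFDerivAt (M.act l) (fderiv ℝ (M.act l) p.1) p.1 :=
    (((M.smooth_act l).contDiffAt (M.isOpen_U.mem_nhds hp.1)).differentiableAt
      (by simp)).hasFDerivAt
  have hd2 : HasFDerivAt (L.J l) (fderiv ℝ (L.J l) p.1) p.1 :=
    (((L.smooth_J l).contDiffAt (M.isOpen_U.mem_nhds hp.1)).differentiableAt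
      (by simp)).hasFDerivAt
  have hf : HasFDerivAt (fun p : E × ℂ × ℝ => p.1) (ContinuousLinearMap.fst ℝ E (ℂ × ℝ)) p :=
    hasFDerivAt_fst
  have hs : HasFDerivAt (fun p : E × ℂ × ℝ => p.2) (ContinuousLinearMap.snd ℝ E (ℂ × ℝ)) p :=
    hasFDerivAt_snd
  have h1 := hd1.comp p hf
  have h2 := hd2.comp p hf
  have h3 := hs.fst
  have h4 := hs.snd
  have h5 := h1.prodMk ((h2.mul h3).prodMk h4)
  have h6 : fderiv ℝ (sphAct M L l) p = _ := h5.fderiv
  rw [h6]
  simp only [ContinuousLinearMap.prod_apply, ContinuousLinearMap.comp_apply,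
    add_apply, smul_apply, ContinuousLinearMap.coe_fst',
    ContinuousLinearMap.coe_snd', smul_eq_mul, Function.comp_apply, Prod.mk.injEq, true_and,
    and_true]
  ring

end

end Pool.Agent.HAF2
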