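import Pool.Agent.HAF2.HypL
import Pool.Agent.HAF2.SphM

/-!
# The local maps of the hyperbolic blocks: definitions

Points `p = (X, y, t)` of `sphM hypM hypL`. The parameter `two` distinguishes the block VH
(`two = false`: hyperbolic plane for `t < 0`, flat plane for `t > 0`) and the block HH
(`two = true`: hyperbolic plane for `t < 0` and its mirror image for `t > 0`).
-/

namespace Pool.Agent.HAF2

open Filter Topology MeasureTheory
open scoped ContDiff ComplexConjugate
open Pool.Agent.HaefligerClasses (QuotientManifold IsForm HaefligerStructure curvature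
  torusElement)

/-- the total space -/
abbrev EH : Type := (ℝ × ℂ) × ℂ × ℝ

/-- the flat function `exp (-1 / (2 t ^ 2))` -/
noncomputable def dl (t : ℝ) : ℝ := expNegInvGlue (2 * t ^ 2)

/-- the flat function `exp (-1 / t ^ 2)`, on both sides or only for `t < 0` -/
noncomputable def epsf (two : Bool) (t : ℝ) : ℝ :=
  if two = true ∨ t < 0 then dl t ^ 2 else 0

/-- the function `m` -/
noncomputable def mmf (p : EH) : ℝ := 2 * Complex.normSq p.2.1 + dl p.2.2 ^ 2

/-- the denominator of `hq` -/
noncomputable def qden (p : EH) : ℝ :=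
  Complex.normSq p.2.1 + dl p.2.2 ^ 2 + dl p.2.2 * Real.sqrt (mmf p)

/-- position in the unit disc relative to `X` -/
noncomputable def hq (p : EH) : ℂ := p.2.1 ^ 2 / (qden p : ℂ)

/-- translation of the unit disc -/
noncomputable def Mz (z q : ℂ) : ℂ := (q + z) / (1 + conj z * q)

/-- its derivative -/
noncomputable def dMz (z q : ℂ) : ℂ := ((1 - Complex.normSq z : ℝ) : ℂ) / (1 + conj z * q) ^ 2

/-- action on the unit disc -/
noncomputable def mob (g : SU11) (P : ℂ) : ℂ := (g.a * P + g.b) / (conj g.b * P + conj g.a)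

/-- the hyperbolic local map: a point of the closed unit disc, in the open disc for `t ≠ 0` -/
noncomputable def hP (p : EH) : ℂ := Mz (hz p.1) (hq p)

/-- the vector in the flat plane -/
noncomputable def hv (p : EH) : ℂ := hA p.1 p.2.1

/-- the scale of the flat local map -/
noncomputable def lamf (p : EH) : ℝ := 1 / Real.sqrt (dl p.2.2 * Real.sqrt (mmf p))

/-- the flat local map (with reversed orientation of the plane) -/
noncomputable def hV (p : EH) : ℂ := (lamf p : ℂ) * conj (hv p)

/-- time component of the vector `Y` of the cone -/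
noncomputable def YT (two : Bool) (p : EH) : ℝ :=
  Complex.normSq (hv p) + epsf two p.2.2 * (p.1.1 / hN p.1)

/-- space component of the vector `Y` of the cone -/
noncomputable def YZ (two : Bool) (p : EH) : ℂ :=
  hv p ^ 2 + (epsf two p.2.2 / hN p.1 : ℝ) * p.1.2

/-- `log T - 1 / (2 t ^ 2)` -/
noncomputable def GG (two : Bool) (p : EH) : ℝ := Real.log (YT two p) - Real.log (mmf p) / 2

/-- the radicand of the collar coordinate -/
noncomputable def DD (two : Bool) (p : EH) : ℝ := 1 + 2 * p.2.2 ^ 2 * GG two p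

/-- the collar coordinate -/
noncomputable def rr (two : Bool) (p : EH) : ℝ := p.2.2 / Real.sqrt (DD two p)

/-- the local map near the equator -/
noncomputable def fM (two : Bool) (p : EH) : ℂ :=
  (Real.exp (rr two p) : ℂ) * (YZ two p / (‖YZ two p‖ : ℂ))

/-- the three local maps -/
inductive Ch
  | H
  | M
  | V
  deriving DecidableEq

/-- domains of the local maps -/
def cdom (two : Bool) : Ch → Set EH
  | Ch.H => {p | p ∈ sphU hypM ∧ p.2.2 < 0}
  | Ch.M => {p | p ∈ sphU hypM ∧ p.2.1 ≠ 0 ∧ YZ two p ≠ 0 ∧ 0 < DD two p}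
  | Ch.V => {p | p ∈ sphU hypM ∧ 0 < p.2.2}

/-- the local maps -/
noncomputable def cf (two : Bool) : Ch → EH → ℂ
  | Ch.H, p => hP p
  | Ch.M, p => fM two p
  | Ch.V, p => if two = true then conj (hP p) else hV p

/-- index set of the cover -/
inductive CIdx
  | HR
  | HN
  | MR
  | VR
  | VS
  deriving DecidableEq

/-- the local map of an index -/
def CIdx.ch : CIdx → Ch
  | CIdx.HR => Ch.H
  | CIdx.HN => Ch.H
  | CIdx.MR => Ch.M
  | CIdx.VR => Ch.V
  | CIdx.VS => Ch.V

/-- the patch of an index -/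
def CIdx.pt : CIdx → Patch
  | CIdx.HR => Patch.R
  | CIdx.HN => Patch.N
  | CIdx.MR => Patch.R
  | CIdx.VR => Patch.R
  | CIdx.VS => Patch.S

/-- the open sets of the cover -/
def idom (two : Bool) (i : CIdx) : Set EH := cdom two i.ch ∩ patchDom hypM i.pt

/-! ## The frames -/

/-- `‖q‖` -/
noncomputable def kap (p : EH) : ℝ := ‖hq p‖

/-- cutoff function: `1` for `t ≤ -1/4`, `0` for `t ≥ -1/8` -/
noncomputable def chi (t : ℝ) : ℝ := Real.smoothTransition (-8 * t - 1)

/-- normalising factors on the hyperbolic side -/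
noncomputable def mu1N (p : EH) : ℝ :=
  |p.2.2| ^ 3 * Real.sqrt (mmf p) / (2 * kap p * dl p.2.2)

/-- normalising factors on the hyperbolic side -/
noncomputable def mu2N (p : EH) : ℝ := 1 / (2 * kap p)

/-- normalising factors on the flat side -/
noncomputable def mu1V (p : EH) : ℝ :=
  |p.2.2| ^ 3 * mmf p / (lamf p * (Complex.normSq p.2.1 + dl p.2.2 ^ 2) * ‖p.2.1‖)

/-- normalising factors on the flat side -/
noncomputable def mu2V (p : EH) : ℝ := 1 / (lamf p * ‖p.2.1‖)

/-- normalising factor of the direction of `t` -/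
noncomputable def mu1 (two : Bool) (p : EH) : ℝ :=
  chi p.2.2 * mu1N p + chi (-p.2.2) * (if two = true then mu1N p else mu1V p) +
    (1 - chi p.2.2 - chi (-p.2.2))

/-- normalising factor of the direction of rotation -/
noncomputable def mu2 (two : Bool) (p : EH) : ℝ :=
  chi p.2.2 * mu2N p + chi (-p.2.2) * (if two = true then mu2N p else mu2V p) +
    (1 - chi p.2.2 - chi (-p.2.2))

/-- the lift of the frame of `Patch.R`: the real direction is the direction of `t`, the imaginary
direction is the rotation of `y` -/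
noncomputable def bR (two : Bool) (p : EH) : ℂ →L[ℝ] EH :=
  ContinuousLinearMap.prod 0
    (ContinuousLinearMap.prod
      ((mu2 two p) • (Complex.imCLM.smulRight (Complex.I * p.2.1)))
      ((mu1 two p) • Complex.reCLM))

theorem bR_apply (two : Bool) (p : EH) (c : ℂ) :
    bR two p c = (0, (mu2 two p * c.im : ℝ) • (Complex.I * p.2.1), mu1 two p * c.re) := by
  simp [bR, mul_smul]

/-- `hA X` as a linear map -/
noncomputable def hAL (X : ℝ × ℂ) : ℂ →L[ℝ] ℂ :=
  (((X.1 + hN X : ℝ) / Real.sqrt (2 * hN X * (X.1 + hN X)) : ℝ) • ContinuousLinearMap.id ℝ ℂ) +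
  mulC (X.2 / (Real.sqrt (2 * hN X * (X.1 + hN X)) : ℂ)) ∘L (Complex.conjCLE : ℂ →L[ℝ] ℂ)

/-- the frames -/
noncomputable def efr (two : Bool) : CIdx → EH → (ℂ →L[ℝ] ℂ)
  | CIdx.HR, p => fderiv ℝ hP p ∘L bR two p
  | CIdx.HN, p => mulC (dMz (hz p.1) (hq p))
  | CIdx.MR, p => fderiv ℝ (fM two) p ∘L bR two p
  | CIdx.VR, p => fderiv ℝ (cf two Ch.V) p ∘L bR two p
  | CIdx.VS, p => if two = true then mulC (conj (dMz (hz p.1) (hq p))) else
      (Complex.conjCLE : ℂ →L[ℝ] ℂ) ∘L hAL p.1 ∘L (Complex.conjCLE : ℂ →L[ℝ] ℂ)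

end Pool.Agent.HAF2
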