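import Pool.Agent.HAF2.ChSm

/-!
# Module CH7: derivatives of the local maps

`hP (X, y, t) = Mz (hz X) (hq)`, `hq = κ ŷ²` with `κ = kap`, `ŷ = yhat p`; for fixed `y` the function
`κ` satisfies `κ + 1 / κ = 2 (n + d²) / n` (`n = normSq y`, `d = dl t`), hence
`∂_t κ = - 2 κ d / (t³ √m)`; under rotation of `y` only `ŷ` changes.
-/

namespace Pool.Agent.HAF2

open Filter Topology MeasureTheory
open scoped ContDiff ComplexConjugate

/-! ### Curves -/

/-- the directional derivative along a curve -/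
private theorem fderiv_eq_of_curve {F G : Type} [NormedAddCommGroup F] [NormedSpace ℝ F]
    [NormedAddCommGroup G] [NormedSpace ℝ G] {f : F → G} {p : F}
    (hf : DifferentiableAt ℝ f p) {c : ℝ → F} {v : F} {s₀ : ℝ} (hc : HasDerivAt c v s₀)
    (hc0 : c s₀ = p) {w : G} (h : HasDerivAt (fun s => f (c s)) w s₀) : fderiv ℝ f p v = w := by
  subst hc0
  exact (hf.hasFDerivAt.comp_hasDerivAt s₀ hc).unique h

private theorem curve_time (X : ℝ × ℂ) (y : ℂ) (t : ℝ) :
    HasDerivAt (fun s : ℝ => ((X, y, s) : EH)) (0, 0, 1) t :=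
  (hasDerivAt_const t X).prodMk ((hasDerivAt_const t y).prodMk (hasDerivAt_id t))

private theorem hasDerivAt_exp0 :
    HasDerivAt (fun s : ℝ => Complex.exp (Complex.I * (s : ℂ))) Complex.I 0 := by
  have h1 : HasDerivAt (fun s : ℝ => Complex.I * (s : ℂ)) (Complex.I * ((1 : ℝ) : ℂ)) 0 :=
    ((hasDerivAt_id (0 : ℝ)).ofReal_comp).const_mul Complex.I
  have h2 := h1.cexp
  simpa using h2

private theorem curve_rot (X : ℝ × ℂ) (y : ℂ) (t : ℝ) :
    HasDerivAt (fun s : ℝ => ((X, Complex.exp (Complex.I * (s : ℂ)) * y, t) : EH))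
      (0, Complex.I * y, 0) 0 :=
  (hasDerivAt_const 0 X).prodMk ((hasDerivAt_exp0.mul_const y).prodMk (hasDerivAt_const 0 t))

private theorem norm_exp_I (s : ℝ) : ‖Complex.exp (Complex.I * (s : ℂ))‖ = 1 := by
  rw [mul_comm]
  exact Complex.norm_exp_ofReal_mul_I s

private theorem normSq_exp_I (s : ℝ) (y : ℂ) :
    Complex.normSq (Complex.exp (Complex.I * (s : ℂ)) * y) = Complex.normSq y := by
  rw [Complex.normSq_mul, Complex.normSq_eq_norm_sq (Complex.exp _), norm_exp_I, one_pow, one_mul]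

private theorem mem_hU_of_mem (p : EH) (hp : p ∈ sphU hypM) : p.1 ∈ hU := hp.1

private theorem isOpen_sphU' : IsOpen (sphU hypM) := isOpen_sphU hypM

private theorem diffAt {f : EH → ℂ} {s : Set EH} (hf : ContDiffOn ℝ ∞ f s) (hs : IsOpen s)
    {p : EH} (hp : p ∈ s) : DifferentiableAt ℝ f p :=
  (hf.contDiffAt (hs.mem_nhds hp)).differentiableAt (by simp)

private theorem isOpen_tne : IsOpen {p : EH | p ∈ sphU hypM ∧ p.2.2 ≠ 0} := by
  have h : IsOpen {p : EH | p.2.2 ≠ 0} := isOpen_ne_fun (by fun_prop) (by fun_prop)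
  exact isOpen_sphU'.inter h

/-! ### The function `kap` -/

theorem kap_pos (p : EH) (hp : p ∈ sphU hypM) (hy : p.2.1 ≠ 0) : 0 < kap p := by
  have h := qden_pos p hp
  unfold kap hq
  rw [norm_div, norm_pow, Complex.norm_real, Real.norm_of_nonneg h.le]
  have := norm_pos_iff.2 hy
  positivity

theorem hq_eq (p : EH) (hp : p ∈ sphU hypM) (hy : p.2.1 ≠ 0) :
    hq p = (kap p : ℂ) * yhat p ^ 2 := by
  have h := qden_pos p hp
  have hn : (‖p.2.1‖ : ℂ) ≠ 0 := by exact_mod_cast (norm_pos_iff.2 hy).ne'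
  have hqc : (qden p : ℂ) ≠ 0 := by exact_mod_cast h.ne'
  unfold kap yhat hq
  rw [norm_div, norm_pow, Complex.norm_real, Real.norm_of_nonneg h.le]
  push_cast
  field_simp

private theorem hasDerivAt_dl (t : ℝ) (ht : t ≠ 0) : HasDerivAt dl (dl t / t ^ 3) t := by
  have h := (contDiff_dl.differentiable (by simp) t).hasDerivAt
  rwa [deriv_dl t ht] at h

/-- derivative of `mmf` in the direction of `t` -/
private theorem hasDerivAt_mmf (X : ℝ × ℂ) (y : ℂ) (t : ℝ) (ht : t ≠ 0) :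
    HasDerivAt (fun s : ℝ => mmf ((X, y, s) : EH)) (2 * dl t ^ 2 / t ^ 3) t := by
  have h1 := ((hasDerivAt_dl t ht).fun_pow 2).const_add (2 * Complex.normSq y)
  refine h1.congr_deriv ?_
  simp only [Nat.cast_ofNat]
  ring

private theorem hasDerivAt_qden (X : ℝ × ℂ) (y : ℂ) (t : ℝ) (hp : ((X, y, t) : EH) ∈ sphU hypM)
    (ht : t ≠ 0) :
    HasDerivAt (fun s : ℝ => qden ((X, y, s) : EH))
      (2 * dl t / (t ^ 3 * Real.sqrt (mmf ((X, y, t) : EH))) * qden ((X, y, t) : EH)) t := by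
  have hm := mmf_pos _ hp
  have hs : 0 < Real.sqrt (mmf ((X, y, t) : EH)) := Real.sqrt_pos.2 hm
  have h1 := ((hasDerivAt_dl t ht).fun_pow 2).const_add (Complex.normSq y)
  have h2 := (hasDerivAt_dl t ht).fun_mul ((hasDerivAt_mmf X y t ht).sqrt hm.ne')
  have h3 := h1.add h2
  refine h3.congr_deriv ?_
  have hss : Real.sqrt (mmf ((X, y, t) : EH)) ^ 2 = 2 * Complex.normSq y + dl t ^ 2 :=
    Real.sq_sqrt hm.le
  simp only [qden]
  set r := Real.sqrt (mmf ((X, y, t) : EH)) with hr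
  field_simp
  simp only [Nat.cast_ofNat]
  linear_combination (dl t) * hss

private theorem hasDerivAt_hq_time (X : ℝ × ℂ) (y : ℂ) (t : ℝ)
    (hp : ((X, y, t) : EH) ∈ sphU hypM) (ht : t ≠ 0) :
    HasDerivAt (fun s : ℝ => hq ((X, y, s) : EH))
      (-(((2 * dl t / (t ^ 3 * Real.sqrt (mmf ((X, y, t) : EH))) : ℝ) : ℂ)) *
        hq ((X, y, t) : EH)) t := by
  have hq0 := qden_pos _ hp
  have hq0c : (qden ((X, y, t) : EH) : ℂ) ≠ 0 := by exact_mod_cast hq0.ne'
  have h1 := (hasDerivAt_qden X y t hp ht).ofReal_comp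
  have h2 := (hasDerivAt_const t (y ^ 2)).fun_div h1 hq0c
  refine h2.congr_deriv ?_
  unfold hq
  set q := qden ((X, y, t) : EH)
  set r := Real.sqrt (mmf ((X, y, t) : EH))
  push_cast
  field_simp
  ring

theorem fderiv_hP_time (p : EH) (hp : p ∈ sphU hypM) (hy : p.2.1 ≠ 0) (ht : p.2.2 ≠ 0) :
    fderiv ℝ hP p (0, 0, 1) = dMz (hz p.1) (hq p) *
      (((-(2 * kap p * dl p.2.2 / (p.2.2 ^ 3 * Real.sqrt (mmf p)))) : ℝ) : ℂ) * yhat p ^ 2 := by
  have hd : DifferentiableAt ℝ hP p := diffAt contDiffOn_hP isOpen_sphU' hp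
  obtain ⟨X, y, t⟩ := p
  have h1 := hasDerivAt_hq_time X y t hp ht
  have h2 := (hasDerivAt_Mz (hz X) (hq ((X, y, t) : EH)) (normSq_hz_lt X hp.1)
    (normSq_hq_le _ hp)).scomp t h1
  rw [fderiv_eq_of_curve hd (curve_time X y t) rfl h2, hq_eq _ hp hy]
  simp only [smul_eq_mul]
  push_cast
  ring

private theorem hq_rot (X : ℝ × ℂ) (y : ℂ) (t s : ℝ) :
    hq ((X, Complex.exp (Complex.I * (s : ℂ)) * y, t) : EH) =
      Complex.exp (Complex.I * (s : ℂ)) ^ 2 * hq ((X, y, t) : EH) := by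
  simp only [hq, qden, mmf, normSq_exp_I]
  rw [mul_pow, mul_div_assoc]

private theorem hasDerivAt_hq_rot (X : ℝ × ℂ) (y : ℂ) (t : ℝ) :
    HasDerivAt (fun s : ℝ => hq ((X, Complex.exp (Complex.I * (s : ℂ)) * y, t) : EH))
      (2 * Complex.I * hq ((X, y, t) : EH)) 0 := by
  have h1 := (hasDerivAt_exp0.fun_pow 2).mul_const (hq ((X, y, t) : EH))
  have h2 : (fun s : ℝ => hq ((X, Complex.exp (Complex.I * (s : ℂ)) * y, t) : EH)) =
      fun s : ℝ => Complex.exp (Complex.I * (s : ℂ)) ^ 2 * hq ((X, y, t) : EH) :=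
    funext fun s => hq_rot X y t s
  rw [h2]
  refine h1.congr_deriv ?_
  simp

private theorem exp_I_zero_mul (y : ℂ) : Complex.exp (Complex.I * ((0 : ℝ) : ℂ)) * y = y := by
  rw [Complex.ofReal_zero, mul_zero, Complex.exp_zero, one_mul]

theorem fderiv_hP_rot (p : EH) (hp : p ∈ sphU hypM) (hy : p.2.1 ≠ 0) :
    fderiv ℝ hP p (0, Complex.I * p.2.1, 0) = dMz (hz p.1) (hq p) *
      (2 * Complex.I * (kap p : ℂ)) * yhat p ^ 2 := by
  have hd : DifferentiableAt ℝ hP p := diffAt contDiffOn_hP isOpen_sphU' hp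
  obtain ⟨X, y, t⟩ := p
  have h1 := hasDerivAt_hq_rot X y t
  have h0 : hq ((X, Complex.exp (Complex.I * ((0 : ℝ) : ℂ)) * y, t) : EH) =
      hq ((X, y, t) : EH) := by rw [exp_I_zero_mul]
  have h2 := (h0 ▸ hasDerivAt_Mz (hz X) (hq ((X, y, t) : EH)) (normSq_hz_lt X hp.1)
    (normSq_hq_le _ hp) : HasDerivAt (Mz (hz X)) (dMz (hz X) (hq ((X, y, t) : EH)))
      (hq ((X, Complex.exp (Complex.I * ((0 : ℝ) : ℂ)) * y, t) : EH))).scomp 0 h1
  rw [fderiv_eq_of_curve hd (curve_rot X y t) (by rw [exp_I_zero_mul]) h2]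
  rw [smul_eq_mul]
  linear_combination (2 * Complex.I * dMz (hz X) (hq ((X, y, t) : EH))) *
    hq_eq ((X, y, t) : EH) hp hy

/-! ### The flat side -/

private theorem hA_add (X : ℝ × ℂ) (y z : ℂ) : hA X (y + z) = hA X y + hA X z := by
  unfold hA
  rw [map_add, ← add_div]
  ring

private theorem hA_smul (X : ℝ × ℂ) (r : ℝ) (y : ℂ) : hA X ((r : ℂ) * y) = (r : ℂ) * hA X y := by
  unfold hA
  rw [map_mul, Complex.conj_ofReal]
  ring

/-- `hA X` as a linear map -/
private noncomputable def hAlin (X : ℝ × ℂ) : ℂ →L[ℝ] ℂ :=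
  LinearMap.toContinuousLinearMap
    { toFun := hA X
      map_add' := hA_add X
      map_smul' := by
        intro r y
        rw [RingHom.id_apply, Complex.real_smul, Complex.real_smul, hA_smul] }

private theorem hAlin_apply (X : ℝ × ℂ) (y : ℂ) : hAlin X y = hA X y := rfl

private theorem hasDerivAt_lamf (X : ℝ × ℂ) (y : ℂ) (t : ℝ)
    (hp : ((X, y, t) : EH) ∈ sphU hypM) (ht : t ≠ 0) :
    HasDerivAt (fun s : ℝ => lamf ((X, y, s) : EH))
      (-(lamf ((X, y, t) : EH) * (Complex.normSq y + dl t ^ 2) /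
        (t ^ 3 * mmf ((X, y, t) : EH)))) t := by
  have hm := mmf_pos _ hp
  have hs : 0 < Real.sqrt (mmf ((X, y, t) : EH)) := Real.sqrt_pos.2 hm
  have hdl := dl_pos t ht
  have h2 := (hasDerivAt_dl t ht).fun_mul ((hasDerivAt_mmf X y t ht).sqrt hm.ne')
  have h0 : 0 < dl t * Real.sqrt (mmf ((X, y, t) : EH)) := by positivity
  have h3 := h2.sqrt h0.ne'
  have h4 := (hasDerivAt_const t (1 : ℝ)).fun_div h3 (Real.sqrt_pos.2 h0).ne'
  refine h4.congr_deriv ?_
  have hss : Real.sqrt (mmf ((X, y, t) : EH)) ^ 2 = 2 * Complex.normSq y + dl t ^ 2 :=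
    Real.sq_sqrt hm.le
  have hm2 : mmf ((X, y, t) : EH) = Real.sqrt (mmf ((X, y, t) : EH)) ^ 2 :=
    (Real.sq_sqrt hm.le).symm
  have hr2 : Real.sqrt (dl t * Real.sqrt (mmf ((X, y, t) : EH))) ^ 2 =
    dl t * Real.sqrt (mmf ((X, y, t) : EH)) := Real.sq_sqrt h0.le
  have hr0 := Real.sqrt_pos.2 h0
  change _ = -(1 / Real.sqrt (dl t * Real.sqrt (mmf ((X, y, t) : EH))) *
    (Complex.normSq y + dl t ^ 2) / (t ^ 3 * mmf ((X, y, t) : EH)))
  rw [hm2]
  rw [Real.sqrt_sq hs.le]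
  set r := Real.sqrt (mmf ((X, y, t) : EH)) with hr
  set R := Real.sqrt (dl t * r) with hR
  rw [zero_mul, zero_sub, one_mul, hr2]
  field_simp
  linear_combination (-1 : ℝ) * hss

theorem fderiv_hV_time (p : EH) (hp : p ∈ sphU hypM) (ht : 0 < p.2.2) :
    fderiv ℝ hV p (0, 0, 1) = (((-(lamf p * (Complex.normSq p.2.1 + dl p.2.2 ^ 2) /
      (p.2.2 ^ 3 * mmf p))) : ℝ) : ℂ) * conj (hv p) := by
  have hd : DifferentiableAt ℝ hV p := diffAt contDiffOn_hV isOpen_tne ⟨hp, ht.ne'⟩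
  obtain ⟨X, y, t⟩ := p
  have h1 := (hasDerivAt_lamf X y t hp ht.ne').ofReal_comp.mul_const (conj (hA X y))
  exact fderiv_eq_of_curve hd (curve_time X y t) rfl h1

private theorem lamf_rot (X : ℝ × ℂ) (y : ℂ) (t s : ℝ) :
    lamf ((X, Complex.exp (Complex.I * (s : ℂ)) * y, t) : EH) = lamf ((X, y, t) : EH) := by
  simp only [lamf, mmf, normSq_exp_I]

private theorem hasDerivAt_hA_rot (X : ℝ × ℂ) (y : ℂ) :
    HasDerivAt (fun s : ℝ => hA X (Complex.exp (Complex.I * (s : ℂ)) * y))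
      (hA X (Complex.I * y)) 0 :=
  (hAlin X).hasFDerivAt.comp_hasDerivAt 0 (hasDerivAt_exp0.mul_const y)

theorem fderiv_hV_rot (p : EH) (hp : p ∈ sphU hypM) (ht : 0 < p.2.2) :
    fderiv ℝ hV p (0, Complex.I * p.2.1, 0) =
      (lamf p : ℂ) * conj (hA p.1 (Complex.I * p.2.1)) := by
  have hd : DifferentiableAt ℝ hV p := diffAt contDiffOn_hV isOpen_tne ⟨hp, ht.ne'⟩
  obtain ⟨X, y, t⟩ := p
  have h1 := (Complex.conjCLE.hasFDerivAt.comp_hasDerivAt 0
    (hasDerivAt_hA_rot X y)).const_mul (lamf ((X, y, t) : EH) : ℂ)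
  have h2 : (fun s : ℝ => hV ((X, Complex.exp (Complex.I * (s : ℂ)) * y, t) : EH)) =
      fun s : ℝ => (lamf ((X, y, t) : EH) : ℂ) *
        conj (hA X (Complex.exp (Complex.I * (s : ℂ)) * y)) := by
    funext s
    simp only [hV, hv, lamf_rot]
  have h3 : HasDerivAt (fun s : ℝ => hV ((X, Complex.exp (Complex.I * (s : ℂ)) * y, t) : EH))
      ((lamf ((X, y, t) : EH) : ℂ) * conj (hA X (Complex.I * y))) 0 := by
    rw [h2]
    exact h1
  exact fderiv_eq_of_curve hd (curve_rot X y t) (by rw [exp_I_zero_mul]) h3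

/-! ### The collar map at the equator -/

private theorem y_ne_of_zero (p : EH) (hp : p ∈ sphU hypM) (ht : p.2.2 = 0) : p.2.1 ≠ 0 := by
  rcases hp.2 with h | h
  · exact h
  · rw [ht, abs_zero] at h
    norm_num at h

private theorem rr_zero (two : Bool) (p : EH) (ht : p.2.2 = 0) : rr two p = 0 := by
  rw [rr, ht, zero_div]

private theorem YZ_zero (two : Bool) (p : EH) (ht : p.2.2 = 0) : YZ two p = hv p ^ 2 := by
  rw [YZ, ht, epsf_zero]
  simp

private theorem hasDerivAt_rr_zero (two : Bool) (X : ℝ × ℂ) (y : ℂ)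
    (hp : ((X, y, (0 : ℝ)) : EH) ∈ sphU hypM) (hy : y ≠ 0) :
    HasDerivAt (fun s : ℝ => rr two ((X, y, s) : EH)) 1 0 := by
  have ho : IsOpen {p : EH | p ∈ sphU hypM ∧ p.2.1 ≠ 0} := by
    have h : IsOpen {p : EH | p.2.1 ≠ 0} := isOpen_ne_fun (by fun_prop) (by fun_prop)
    exact isOpen_sphU'.inter h
  have hd : DifferentiableAt ℝ (DD two) ((X, y, (0 : ℝ)) : EH) :=
    ((contDiffOn_DD two).contDiffAt (ho.mem_nhds ⟨hp, hy⟩)).differentiableAt (by simp)
  have h1 : HasDerivAt (fun s : ℝ => DD two ((X, y, s) : EH))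
      (fderiv ℝ (DD two) ((X, y, (0 : ℝ)) : EH) (0, 0, 1)) 0 :=
    HasFDerivAt.comp_hasDerivAt (l := DD two) (f := fun s : ℝ => ((X, y, s) : EH)) (0 : ℝ)
      hd.hasFDerivAt (curve_time X y 0)
  have hD : DD two ((X, y, (0 : ℝ)) : EH) = 1 := by
    simp [DD]
  have h2 := h1.sqrt (by rw [hD]; exact one_ne_zero)
  have h3 := (hasDerivAt_id (0 : ℝ)).fun_div h2 (by rw [hD, Real.sqrt_one]; exact one_ne_zero)
  refine h3.congr_deriv ?_
  rw [hD, Real.sqrt_one]
  simp

/-- the collar map at the equator -/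
theorem fderiv_fM_time (two : Bool) (p : EH) (hp : p ∈ sphU hypM) (ht : p.2.2 = 0) :
    fderiv ℝ (fM two) p (0, 0, 1) = fM two p := by
  have hy := y_ne_of_zero p hp ht
  have hM := mem_cdom_M_of_zero two p hp ht
  have hd : DifferentiableAt ℝ (fM two) p := diffAt (contDiffOn_fM two) (isOpen_cdom two Ch.M) hM
  obtain ⟨X, y, t⟩ := p
  change t = 0 at ht
  subst ht
  have h1 := (hasDerivAt_rr_zero two X y hp hy).exp.ofReal_comp
  -- the function `YZ`
  have h2 : HasDerivAt (fun s : ℝ => YZ two ((X, y, s) : EH)) 0 0 := by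
    have he : HasDerivAt (epsf two) 0 0 := by
      have := ((contDiff_epsf two).differentiable (by simp) 0).hasDerivAt
      rwa [deriv_epsf_zero] at this
    have h := ((he.div_const (hN X)).ofReal_comp.mul_const X.2).const_add (hA X y ^ 2)
    refine h.congr_deriv ?_
    simp
  have hYZ0 : YZ two ((X, y, (0 : ℝ)) : EH) ≠ 0 := hM.2.2.1
  have h3 : HasDerivAt (fun s : ℝ => YZ two ((X, y, s) : EH) /
      (‖YZ two ((X, y, s) : EH)‖ : ℂ)) 0 0 := by
    have hdn : DifferentiableAt ℝ (fun w : ℂ => w / (‖w‖ : ℂ)) (YZ two ((X, y, (0 : ℝ)) : EH)) := by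
      have ha : DifferentiableAt ℝ (fun w : ℂ => ‖w‖) (YZ two ((X, y, (0 : ℝ)) : EH)) :=
        differentiableAt_id.norm ℝ hYZ0
      have hb : DifferentiableAt ℝ (fun w : ℂ => (‖w‖ : ℂ)) (YZ two ((X, y, (0 : ℝ)) : EH)) :=
        Complex.ofRealCLM.differentiableAt.comp _ ha
      simp only [div_eq_mul_inv]
      refine differentiableAt_id.fun_mul (hb.fun_inv ?_)
      exact_mod_cast norm_ne_zero_iff.2 hYZ0
    have h := hdn.hasFDerivAt.comp_hasDerivAt (0 : ℝ) h2
    rw [map_zero] at h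
    exact h
  have h4 := h1.fun_mul h3
  refine fderiv_eq_of_curve hd (curve_time X y 0) rfl (h4.congr_deriv ?_)
  rw [mul_zero, add_zero, mul_one]
  rfl

/-- the determinant of `hA X` is one -/
private theorem hA_area (X : ℝ × ℂ) (hX : X ∈ hU) (y : ℂ) :
    (conj (hA X y) * hA X (Complex.I * y)).im = Complex.normSq y := by
  have h1 := hN_sq X hX
  have hN0 := hN_pos X hX
  have h2 := add_hN_pos X hX
  have hc2 : Real.sqrt (2 * hN X * (X.1 + hN X)) ^ 2 = 2 * hN X * (X.1 + hN X) :=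
    Real.sq_sqrt (by positivity)
  have hc : 0 < Real.sqrt (2 * hN X * (X.1 + hN X)) := Real.sqrt_pos.2 (by positivity)
  set c := Real.sqrt (2 * hN X * (X.1 + hN X)) with hcdef
  have hcc : (c : ℂ) ≠ 0 := by exact_mod_cast hc.ne'
  have h3 : conj (hA X y) * hA X (Complex.I * y) =
      ((c ^ 2 : ℝ) : ℂ)⁻¹ * ((((X.1 + hN X : ℝ) : ℂ) * conj y + conj X.2 * y) *
        (((X.1 + hN X : ℝ) : ℂ) * (Complex.I * y) - X.2 * (Complex.I * conj y))) := by
    simp only [hA, ← hcdef, map_div₀, map_add, map_mul, Complex.conj_ofReal, Complex.conj_conj,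
      Complex.conj_I]
    push_cast
    field_simp
    ring
  rw [h3, ← Complex.ofReal_inv, Complex.im_ofReal_mul]
  rw [inv_mul_eq_iff_eq_mul₀ (by positivity), hc2]
  simp only [Complex.normSq_apply] at h1 ⊢
  simp only [Complex.mul_im, Complex.mul_re, Complex.add_re, Complex.add_im, Complex.sub_re,
    Complex.sub_im, Complex.ofReal_re, Complex.ofReal_im, Complex.conj_re, Complex.conj_im,
    Complex.I_re, Complex.I_im]
  linear_combination (-(y.re * y.re + y.im * y.im)) * h1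

theorem fderiv_fM_rot (two : Bool) (p : EH) (hp : p ∈ sphU hypM) (ht : p.2.2 = 0) :
    fderiv ℝ (fM two) p (0, Complex.I * p.2.1, 0) =
      ((2 * Complex.normSq p.2.1 / Complex.normSq (hv p) : ℝ) : ℂ) * (Complex.I * fM two p) := by
  have hy := y_ne_of_zero p hp ht
  have hM := mem_cdom_M_of_zero two p hp ht
  have hd : DifferentiableAt ℝ (fM two) p := diffAt (contDiffOn_fM two) (isOpen_cdom two Ch.M) hM
  have hv0 := hv_ne_zero p hp hy
  obtain ⟨X, y, t⟩ := p
  change t = 0 at ht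
  subst ht
  have hX : X ∈ hU := hp.1
  have hf : ∀ z : ℂ, fM two ((X, z, (0 : ℝ)) : EH) = (hA X z / (‖hA X z‖ : ℂ)) ^ 2 := by
    intro z
    rw [fM, rr_zero two _ rfl, YZ_zero two _ rfl, Real.exp_zero, norm_pow, div_pow]
    push_cast
    rw [one_mul]
    rfl
  set f : ℝ → ℂ := fun s => hA X (Complex.exp (Complex.I * (s : ℂ)) * y) with hfdef
  have h1 : HasDerivAt f (hA X (Complex.I * y)) 0 := hasDerivAt_hA_rot X y
  have hf0 : f 0 = hA X y := by rw [hfdef]; simp only [exp_I_zero_mul]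
  have hA0 : hA X y ≠ 0 := hv0
  have h2 := hyl_fderiv_dir f 0 h1.differentiableAt (by rw [hf0]; exact hA0) 1
  have h3 : fderiv ℝ f 0 1 = hA X (Complex.I * y) := by
    rw [h1.hasFDerivAt.fderiv]
    simp
  rw [h3, hf0, hA_area X hX y] at h2
  have hdq : DifferentiableAt ℝ (fun s => f s / (‖f s‖ : ℂ)) 0 := by
    have ha : DifferentiableAt ℝ (fun s => ‖f s‖) 0 :=
      h1.differentiableAt.norm ℝ (by rw [hf0]; exact hA0)
    have hb : DifferentiableAt ℝ (fun s => (‖f s‖ : ℂ)) 0 :=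
      Complex.ofRealCLM.differentiableAt.comp _ ha
    simp only [div_eq_mul_inv]
    refine h1.differentiableAt.fun_mul (hb.fun_inv ?_)
    rw [hf0]
    exact_mod_cast norm_ne_zero_iff.2 hA0
  have h4 : HasDerivAt (fun s => f s / (‖f s‖ : ℂ)) (Complex.I * (hA X y / (‖hA X y‖ : ℂ)) *
      ((Complex.normSq y / Complex.normSq (hA X y) : ℝ) : ℂ)) 0 := by
    rw [← h2]
    exact hdq.hasFDerivAt.hasDerivAt
  have h5 := h4.fun_pow 2
  have h6 : (fun s : ℝ => fM two ((X, Complex.exp (Complex.I * (s : ℂ)) * y, (0 : ℝ)) : EH)) =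
      fun s => (f s / (‖f s‖ : ℂ)) ^ 2 := funext fun s => hf _
  have h7 : HasDerivAt
      (fun s : ℝ => fM two ((X, Complex.exp (Complex.I * (s : ℂ)) * y, (0 : ℝ)) : EH))
      (((2 * Complex.normSq y / Complex.normSq (hA X y) : ℝ) : ℂ) *
        (Complex.I * fM two ((X, y, (0 : ℝ)) : EH))) 0 := by
    rw [h6]
    refine h5.congr_deriv ?_
    rw [hf, hf0]
    push_cast
    ring
  exact fderiv_eq_of_curve hd (curve_rot X y 0) (by rw [exp_I_zero_mul]) h7

/-! ### The poles -/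

/-- the section of `hz` -/
private noncomputable def sec (r : ℝ) (z : ℂ) : ℝ × ℂ :=
  (r * (1 + Complex.normSq z) / (1 - Complex.normSq z),
    ((r * 2 / (1 - Complex.normSq z) : ℝ) : ℂ) * z)

private theorem hN_sec (r : ℝ) (hr : 0 < r) (z : ℂ) (hz1 : Complex.normSq z < 1) :
    hN (sec r z) = r := by
  have h1 : 0 < 1 - Complex.normSq z := by linarith
  have h2 : (sec r z).1 ^ 2 - Complex.normSq (sec r z).2 = r ^ 2 := by
    simp only [sec, Complex.normSq_mul, Complex.normSq_ofReal]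
    field_simp
    ring
  rw [hN, h2, Real.sqrt_sq hr.le]

private theorem hz_sec (r : ℝ) (hr : 0 < r) (z : ℂ) (hz1 : Complex.normSq z < 1) :
    hz (sec r z) = z := by
  have h1 : 0 < 1 - Complex.normSq z := by linarith
  rw [hz, hN_sec r hr z hz1]
  have h2 : (sec r z).1 + r = r * 2 / (1 - Complex.normSq z) := by
    simp only [sec]
    field_simp
    ring
  rw [h2]
  have h3 : ((r * 2 / (1 - Complex.normSq z) : ℝ) : ℂ) ≠ 0 := by
    have : r * 2 / (1 - Complex.normSq z) ≠ 0 := by positivity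
    exact_mod_cast this
  exact mul_div_cancel_left₀ _ h3

private theorem sec_hz (X : ℝ × ℂ) (hX : X ∈ hU) : sec (hN X) (hz X) = X := by
  have h1 := hN_sq X hX
  have hN0 := hN_pos X hX
  have h2 := add_hN_pos X hX
  have h3 : Complex.normSq (hz X) = (X.1 - hN X) / (X.1 + hN X) := by
    rw [hz, Complex.normSq_div, Complex.normSq_ofReal]
    rw [div_eq_div_iff (by positivity) (by positivity)]
    linear_combination (X.1 + hN X) * h1
  have h4 : 1 - Complex.normSq (hz X) = 2 * hN X / (X.1 + hN X) := by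
    rw [h3]
    field_simp
    ring
  refine Prod.ext ?_ ?_
  · simp only [sec]
    rw [h4, h3]
    field_simp
    ring
  · simp only [sec]
    rw [h4, hz]
    have h5 : hN X * 2 / (2 * hN X / (X.1 + hN X)) = X.1 + hN X := by
      field_simp
    rw [h5]
    have h6 : ((X.1 + hN X : ℝ) : ℂ) ≠ 0 := by exact_mod_cast h2.ne'
    field_simp

/-- at the pole of the hyperbolic side the map is a submersion in the direction of `X` -/
theorem surjective_fderiv_hP_pole (p : EH) (hp : p ∈ sphU hypM) (hy : p.2.1 = 0) :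
    Function.Surjective (fderiv ℝ hP p) := by
  have hd : DifferentiableAt ℝ hP p := diffAt contDiffOn_hP isOpen_sphU' hp
  obtain ⟨X, y, t⟩ := p
  change y = 0 at hy
  subst hy
  have hX : X ∈ hU := hp.1
  have hz1 := normSq_hz_lt X hX
  have hN0 := hN_pos X hX
  have hn : DifferentiableAt ℝ (fun z : ℂ => Complex.normSq z) (hz X) :=
    (hym_contDiff_normSq.differentiable (by simp)) _
  have hne : (1 : ℝ) - Complex.normSq (hz X) ≠ 0 := by
    have : 0 < 1 - Complex.normSq (hz X) := by linarith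
    exact this.ne'
  have hs : DifferentiableAt ℝ (fun z : ℂ => ((sec (hN X) z, (0 : ℂ), t) : EH)) (hz X) := by
    have ha : DifferentiableAt ℝ (fun z : ℂ => (1 - Complex.normSq z)⁻¹) (hz X) :=
      ((differentiableAt_const _).fun_sub hn).fun_inv hne
    have hb : DifferentiableAt ℝ (sec (hN X)) (hz X) := by
      refine DifferentiableAt.prodMk ?_ ?_
      · simp only [div_eq_mul_inv]
        exact (((differentiableAt_const _).fun_add hn).const_mul _).fun_mul ha
      · simp only [div_eq_mul_inv]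
        exact (Complex.ofRealCLM.differentiableAt.comp _ (ha.const_mul _)).fun_mul
          differentiableAt_id
    exact hb.prodMk (differentiableAt_const _)
  have hp0 : ((sec (hN X) (hz X), (0 : ℂ), t) : EH) = (X, 0, t) := by rw [sec_hz X hX]
  have hcomp : HasFDerivAt (fun z : ℂ => hP ((sec (hN X) z, (0 : ℂ), t) : EH))
      (fderiv ℝ hP ((X, (0 : ℂ), t) : EH) ∘L
        fderiv ℝ (fun z : ℂ => ((sec (hN X) z, (0 : ℂ), t) : EH)) (hz X)) (hz X) := by
    refine HasFDerivAt.comp (hz X) (g := hP) ?_ hs.hasFDerivAt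
    rw [hp0]
    exact hd.hasFDerivAt
  have hid : HasFDerivAt (fun z : ℂ => hP ((sec (hN X) z, (0 : ℂ), t) : EH))
      (ContinuousLinearMap.id ℝ ℂ) (hz X) := by
    refine (hasFDerivAt_id (hz X)).congr_of_eventuallyEq ?_
    have hev : ∀ᶠ z in 𝓝 (hz X), Complex.normSq z < 1 :=
      (hym_contDiff_normSq.continuous.continuousAt.eventually_lt continuousAt_const hz1)
    filter_upwards [hev] with z hz'
    simp [hP, hq, Mz, hz_sec (hN X) hN0 z hz']
  have huniq := hcomp.unique hid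
  intro w
  refine ⟨fderiv ℝ (fun z : ℂ => ((sec (hN X) z, (0 : ℂ), t) : EH)) (hz X) w, ?_⟩
  exact congrArg (fun A : ℂ →L[ℝ] ℂ => A w) huniq

/-- on the flat side the derivative in the direction of `y` is invertible at the pole -/
theorem surjective_fderiv_hV_pole (p : EH) (hp : p ∈ sphU hypM) (hy : p.2.1 = 0)
    (ht : 0 < p.2.2) : Function.Surjective (fderiv ℝ hV p) := by
  have hd : DifferentiableAt ℝ hV p := diffAt contDiffOn_hV isOpen_tne ⟨hp, ht.ne'⟩
  have hdl : DifferentiableAt ℝ lamf p :=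
    (contDiffOn_lamf.contDiffAt (isOpen_tne.mem_nhds ⟨hp, ht.ne'⟩)).differentiableAt (by simp)
  have hm := mmf_pos p hp
  have hlam : lamf p ≠ 0 := by
    have h1 := dl_pos p.2.2 ht.ne'
    have h2 := Real.sqrt_pos.2 hm
    unfold lamf
    positivity
  obtain ⟨X, y, t⟩ := p
  change y = 0 at hy
  subst hy
  have hX : X ∈ hU := hp.1
  have hinj : Function.Injective (hAlin X) := hA_injective X hX
  have hsurj : Function.Surjective (hAlin X) :=
    (LinearMap.injective_iff_surjective (f := ((hAlin X : ℂ →L[ℝ] ℂ) : ℂ →ₗ[ℝ] ℂ))).1 hinj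
  intro w
  have hlc : (lamf ((X, (0 : ℂ), t) : EH) : ℂ) ≠ 0 := by exact_mod_cast hlam
  obtain ⟨v, hv'⟩ := hsurj (conj (w / (lamf ((X, (0 : ℂ), t) : EH) : ℂ)))
  refine ⟨(0, v, 0), ?_⟩
  have hc : HasDerivAt (fun s : ℝ => ((X, s • v, t) : EH)) (0, v, 0) 0 := by
    have h1 : HasDerivAt (fun s : ℝ => s • v) v 0 := by
      simpa using (hasDerivAt_id (0 : ℝ)).smul_const v
    exact (hasDerivAt_const 0 X).prodMk (h1.prodMk (hasDerivAt_const 0 t))
  have hcp : ((X, (0 : ℝ) • v, t) : EH) = (X, 0, t) := by rw [zero_smul]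
  have h2 : HasDerivAt (fun s : ℝ => lamf ((X, s • v, t) : EH))
      (fderiv ℝ lamf ((X, (0 : ℂ), t) : EH) (0, v, 0)) 0 := by
    refine HasFDerivAt.comp_hasDerivAt (l := lamf) (0 : ℝ) ?_ hc
    rw [hcp]
    exact hdl.hasFDerivAt
  have h3 : HasDerivAt (fun s : ℝ => conj (hA X (s • v))) (conj (hA X v)) 0 := by
    have h1 : HasDerivAt (fun s : ℝ => s • v) v 0 := by
      simpa using (hasDerivAt_id (0 : ℝ)).smul_const v
    exact Complex.conjCLE.hasFDerivAt.comp_hasDerivAt 0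
      ((hAlin X).hasFDerivAt.comp_hasDerivAt 0 h1)
  have h4 := h2.ofReal_comp.fun_mul h3
  have hA0 : hA X ((0 : ℝ) • v) = 0 := by
    rw [zero_smul, hA, map_zero, mul_zero, mul_zero, add_zero, zero_div]
  refine fderiv_eq_of_curve hd hc hcp (h4.congr_deriv ?_)
  rw [hA0, map_zero, mul_zero, zero_add, zero_smul]
  rw [hAlin_apply] at hv'
  rw [hv', Complex.conj_conj]
  field_simp

end Pool.Agent.HAF2
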