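import Pool.Agent.HAF2.ChDefs

/-!
# Module CH2: algebra of Moebius transformations

`mob_Mz`: with `B = (α, β)`, `α = (T + N) / c`, `β = Z / c`, `c = √(2 N (T + N))`, one has
`Mz (hz X) = mob B`, and `(a, b) B = B' diag (j, conj j)` with `j = hj g X` (see `hA_hact`), so
`mob g (mob B q) = mob B' (j^2 q)`. Or by direct computation from `normSq_hjn` and
`(a Z + b (T + N)) * hjn g X = Z' (T + N)`.
-/

namespace Pool.Agent.HAF2

open Filter Topology MeasureTheory
open scoped ContDiff ComplexConjugate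

theorem chm_hz_mul (X : ℝ × ℂ) (hX : X ∈ hU) : hz X * ((X.1 + hN X : ℝ) : ℂ) = X.2 := by
  have h2 := add_hN_pos X hX
  have h2' : ((X.1 + hN X : ℝ) : ℂ) ≠ 0 := by exact_mod_cast h2.ne'
  rw [hz, div_mul_cancel₀ _ h2']

theorem normSq_hz_lt (X : ℝ × ℂ) (hX : X ∈ hU) : Complex.normSq (hz X) < 1 := by
  have h0 := hN_pos X hX
  have h1 := hN_sq X hX
  have h2 := add_hN_pos X hX
  rw [hz, Complex.normSq_div, Complex.normSq_ofReal, div_lt_one (by positivity)]
  nlinarith

theorem contDiffOn_hz : ContDiffOn ℝ ∞ hz hU := by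
  have h1 : ContDiffOn ℝ ∞ (fun X : ℝ × ℂ => ((X.1 + hN X : ℝ) : ℂ)) hU :=
    Complex.ofRealCLM.contDiff.comp_contDiffOn (contDiffOn_fst.add contDiffOn_hN)
  have h2 := h1.inv (fun X hX => by
    have h2 := add_hN_pos X hX
    exact_mod_cast h2.ne')
  exact (contDiffOn_snd.mul h2).congr (fun X _ => by rw [hz, div_eq_mul_inv]; rfl)

theorem mob_den_ne (g : SU11) (P : ℂ) (hP : Complex.normSq P ≤ 1) :
    conj g.b * P + conj g.a ≠ 0 := by
  intro h
  have h1 : conj g.a = -(conj g.b * P) := by linear_combination h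
  have h2 := congrArg Complex.normSq h1
  rw [Complex.normSq_neg, Complex.normSq_mul, Complex.normSq_conj, Complex.normSq_conj] at h2
  have h3 := g.norm_eq
  have h4 := mul_le_mul_of_nonneg_left hP (Complex.normSq_nonneg g.b)
  linarith

theorem Mz_den_ne (z q : ℂ) (hz : Complex.normSq z < 1) (hq : Complex.normSq q ≤ 1) :
    1 + conj z * q ≠ 0 := by
  intro h
  have h1 : conj z * q = -1 := by linear_combination h
  have h2 := congrArg Complex.normSq h1
  rw [Complex.normSq_neg, Complex.normSq_mul, Complex.normSq_conj, Complex.normSq_one] at h2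
  have h4 := mul_le_mul_of_nonneg_left hq (Complex.normSq_nonneg z)
  linarith

theorem dMz_ne_zero (z q : ℂ) (hz : Complex.normSq z < 1) (hq : Complex.normSq q ≤ 1) :
    dMz z q ≠ 0 := by
  have h1 := Mz_den_ne z q hz hq
  have h2 : ((1 - Complex.normSq z : ℝ) : ℂ) ≠ 0 := by
    have : (1 - Complex.normSq z : ℝ) ≠ 0 := by linarith
    exact_mod_cast this
  exact div_ne_zero h2 (pow_ne_zero 2 h1)

theorem one_sub_normSq_Mz (z q : ℂ) (hz : Complex.normSq z < 1) (hq : Complex.normSq q ≤ 1) :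
    1 - Complex.normSq (Mz z q) =
      (1 - Complex.normSq z) * (1 - Complex.normSq q) / Complex.normSq (1 + conj z * q) := by
  have h1 : Complex.normSq (1 + conj z * q) ≠ 0 := by
    rw [Ne, Complex.normSq_eq_zero]
    exact Mz_den_ne z q hz hq
  rw [Mz, Complex.normSq_div, eq_div_iff h1, sub_mul, div_mul_cancel₀ _ h1]
  simp only [Complex.normSq_apply, Complex.add_re, Complex.add_im, Complex.mul_re,
    Complex.mul_im, Complex.conj_re, Complex.conj_im, Complex.one_re, Complex.one_im]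
  ring

theorem chm_conj_hjn (g : SU11) (X : ℝ × ℂ) (hX : X ∈ hU) :
    conj (hjn g X) = ((X.1 + hN X : ℝ) : ℂ) * (conj g.b * hz X + conj g.a) := by
  have h := chm_hz_mul X hX
  rw [hjn, map_add, map_mul, map_mul, Complex.conj_ofReal, Complex.conj_conj]
  linear_combination (-conj g.b) * h

theorem chm_hjn (g : SU11) (X : ℝ × ℂ) (hX : X ∈ hU) :
    hjn g X = ((X.1 + hN X : ℝ) : ℂ) * (g.b * conj (hz X) + g.a) := by
  have h := congrArg (starRingEnd ℂ) (chm_conj_hjn g X hX)
  simpa only [Complex.conj_conj, map_mul, map_add, Complex.conj_ofReal] using h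

theorem chm_e (g : SU11) (X : ℝ × ℂ) (hX : X ∈ hU) :
    hz (hact g X) * (conj g.b * hz X + conj g.a) = g.a * hz X + g.b := by
  have h2 := add_hN_pos X hX
  have h3 := add_hN_pos (hact g X) (hact_mem g X hX)
  rw [hN_hact] at h3
  have h2' : ((X.1 + hN X : ℝ) : ℂ) ≠ 0 := by exact_mod_cast h2.ne'
  have h3' : (((hact g X).1 + hN X : ℝ) : ℂ) ≠ 0 := by exact_mod_cast h3.ne'
  have hz1 := chm_hz_mul X hX
  have hz2 := chm_hz_mul (hact g X) (hact_mem g X hX)
  rw [hN_hact] at hz2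
  have hkey := hyl_hjn_key g X hX
  have hc := chm_conj_hjn g X hX
  have hne := hjn_ne_zero g X hX
  have hmc : hjn g X * conj (hjn g X) =
      (((hact g X).1 + hN X : ℝ) : ℂ) * ((X.1 + hN X : ℝ) : ℂ) := by
    rw [Complex.mul_conj, normSq_hjn g X hX]
    push_cast
    ring
  apply mul_left_cancel₀ h2'
  apply mul_left_cancel₀ hne
  have e1 : hjn g X * (((X.1 + hN X : ℝ) : ℂ) * (hz (hact g X) *
      (conj g.b * hz X + conj g.a))) = hz (hact g X) * (hjn g X * conj (hjn g X)) := by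
    rw [hc]; ring
  have e2 : hjn g X * (((X.1 + hN X : ℝ) : ℂ) * (g.a * hz X + g.b)) =
      (g.a * X.2 + g.b * ((X.1 + hN X : ℝ) : ℂ)) * hjn g X := by
    rw [← hz1]; ring
  rw [e1, e2, hkey, hmc]
  linear_combination ((X.1 + hN X : ℝ) : ℂ) * hz2

theorem hz_hact (g : SU11) (X : ℝ × ℂ) (hX : X ∈ hU) : hz (hact g X) = mob g (hz X) := by
  rw [mob, eq_div_iff (mob_den_ne g _ (normSq_hz_lt X hX).le)]
  exact chm_e g X hX

/-- the square of the cocycle -/
theorem chm_hj_sq (g : SU11) (X : ℝ × ℂ) (hX : X ∈ hU) :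
    hj g X ^ 2 * (conj g.b * hz X + conj g.a) = g.b * conj (hz X) + g.a := by
  have h2 := add_hN_pos X hX
  have h2' : ((X.1 + hN X : ℝ) : ℂ) ≠ 0 := by exact_mod_cast h2.ne'
  have hc := chm_conj_hjn g X hX
  have hd := chm_hjn g X hX
  have hne := hjn_ne_zero g X hX
  have hn : (‖hjn g X‖ : ℂ) ≠ 0 := by exact_mod_cast norm_ne_zero_iff.mpr hne
  have hsq : (‖hjn g X‖ : ℂ) ^ 2 = hjn g X * conj (hjn g X) := by
    rw [Complex.mul_conj, Complex.normSq_eq_norm_sq]
    push_cast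
    ring
  have hcn : conj (hjn g X) ≠ 0 := by
    intro h
    exact hne ((map_eq_zero _).1 h)
  have h4 : hj g X ^ 2 * conj (hjn g X) = hjn g X := by
    rw [hj, div_pow, hsq]
    field_simp
  apply mul_left_cancel₀ h2'
  rw [← hd]
  calc ((X.1 + hN X : ℝ) : ℂ) * (hj g X ^ 2 * (conj g.b * hz X + conj g.a))
      = hj g X ^ 2 * (((X.1 + hN X : ℝ) : ℂ) * (conj g.b * hz X + conj g.a)) := by ring
    _ = hj g X ^ 2 * conj (hjn g X) := by rw [← hc]
    _ = hjn g X := h4

theorem chm_norm_hj_sq (g : SU11) (X : ℝ × ℂ) (hX : X ∈ hU) (q : ℂ)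
    (hq : Complex.normSq q ≤ 1) : Complex.normSq (hj g X ^ 2 * q) ≤ 1 := by
  have h := norm_hj g X hX
  rw [Complex.normSq_mul, Complex.normSq_eq_norm_sq (hj g X ^ 2), norm_pow, h]
  simpa using hq

/-- the common denominator -/
theorem chm_den (g : SU11) (z q : ℂ) (hz : Complex.normSq z < 1) (hq : Complex.normSq q ≤ 1) :
    (conj g.b * Mz z q + conj g.a) * (1 + conj z * q) =
      (conj g.b * z + conj g.a) + conj (g.a * z + g.b) * q := by
  have h1 := Mz_den_ne z q hz hq
  have hM : Mz z q * (1 + conj z * q) = q + z := by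
    rw [Mz, div_mul_cancel₀ _ h1]
  rw [map_add, map_mul]
  linear_combination conj g.b * hM

theorem chm_normSq_Mz (z q : ℂ) (hz : Complex.normSq z < 1) (hq : Complex.normSq q ≤ 1) :
    Complex.normSq (Mz z q) ≤ 1 := by
  have h := one_sub_normSq_Mz z q hz hq
  have h2 : 0 ≤ (1 - Complex.normSq z) * (1 - Complex.normSq q) /
      Complex.normSq (1 + conj z * q) :=
    div_nonneg (mul_nonneg (by linarith) (by linarith)) (Complex.normSq_nonneg _)
  linarith

/-- the denominator on the other side -/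
theorem chm_den2 (g : SU11) (X : ℝ × ℂ) (hX : X ∈ hU) (q : ℂ) :
    (1 + conj (hz (hact g X)) * (hj g X ^ 2 * q)) * (conj g.b * hz X + conj g.a) =
      (conj g.b * hz X + conj g.a) + conj (g.a * hz X + g.b) * q := by
  have h1 := chm_hj_sq g X hX
  have h2 := congrArg (starRingEnd ℂ) (chm_e g X hX)
  simp only [map_mul, map_add, Complex.conj_conj] at h2 ⊢
  linear_combination (conj (hz (hact g X)) * q) * h1 + q * h2

theorem mob_Mz (g : SU11) (X : ℝ × ℂ) (hX : X ∈ hU) (q : ℂ) (hq : Complex.normSq q ≤ 1) :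
    mob g (Mz (hz X) q) = Mz (hz (hact g X)) (hj g X ^ 2 * q) := by
  have hz0 := normSq_hz_lt X hX
  have hz1 := normSq_hz_lt (hact g X) (hact_mem g X hX)
  have n1 := mob_den_ne g (Mz (hz X) q) (chm_normSq_Mz _ _ hz0 hq)
  have n2 := Mz_den_ne (hz (hact g X)) (hj g X ^ 2 * q) hz1 (chm_norm_hj_sq g X hX q hq)
  have n3 := mob_den_ne g (hz X) hz0.le
  have n4 := Mz_den_ne (hz X) q hz0 hq
  have d1 := chm_den g (hz X) q hz0 hq
  have d2 := chm_den2 g X hX q
  have e := chm_e g X hX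
  have j := chm_hj_sq g X hX
  have hM : Mz (hz X) q * (1 + conj (hz X) * q) = q + hz X := by
    rw [Mz, div_mul_cancel₀ _ n4]
  rw [mob]
  conv_rhs => rw [Mz]
  rw [div_eq_div_iff n1 n2]
  apply mul_right_cancel₀ n4
  apply mul_right_cancel₀ n3
  have l1 : (g.a * Mz (hz X) q + g.b) * (1 + conj (hz X) * q) =
      (g.b * conj (hz X) + g.a) * q + (g.a * hz X + g.b) := by
    linear_combination g.a * hM
  have l2 : (hj g X ^ 2 * q + hz (hact g X)) * (conj g.b * hz X + conj g.a) =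
      (g.b * conj (hz X) + g.a) * q + (g.a * hz X + g.b) := by
    linear_combination q * j + e
  calc _ = ((g.a * Mz (hz X) q + g.b) * (1 + conj (hz X) * q)) *
        ((1 + conj (hz (hact g X)) * (hj g X ^ 2 * q)) * (conj g.b * hz X + conj g.a)) := by ring
    _ = ((hj g X ^ 2 * q + hz (hact g X)) * (conj g.b * hz X + conj g.a)) *
        ((conj g.b * Mz (hz X) q + conj g.a) * (1 + conj (hz X) * q)) := by
      rw [l1, l2, d1, d2]
    _ = _ := by ring

theorem dMz_hact (g : SU11) (X : ℝ × ℂ) (hX : X ∈ hU) (q : ℂ) (hq : Complex.normSq q ≤ 1) :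
    dMz (hz (hact g X)) (hj g X ^ 2 * q) * hj g X ^ 2 =
      1 / (conj g.b * Mz (hz X) q + conj g.a) ^ 2 * dMz (hz X) q := by
  have hz0 := normSq_hz_lt X hX
  have hz1 := normSq_hz_lt (hact g X) (hact_mem g X hX)
  have n1 := mob_den_ne g (Mz (hz X) q) (chm_normSq_Mz _ _ hz0 hq)
  have n2 := Mz_den_ne (hz (hact g X)) (hj g X ^ 2 * q) hz1 (chm_norm_hj_sq g X hX q hq)
  have n3 := mob_den_ne g (hz X) hz0.le
  have n4 := Mz_den_ne (hz X) q hz0 hq
  have d1 := chm_den g (hz X) q hz0 hq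
  have d2 := chm_den2 g X hX q
  have e := chm_e g X hX
  have e' := congrArg (starRingEnd ℂ) e
  have j := chm_hj_sq g X hX
  have hnq : g.a * conj g.a - g.b * conj g.b = 1 := by
    rw [Complex.mul_conj, Complex.mul_conj]
    have := g.norm_eq
    exact_mod_cast this
  simp only [map_mul, map_add, Complex.conj_conj] at e'
  -- `(1 - ‖z'‖²) j² = (1 - ‖z‖²) / d²`
  have k : ((1 - Complex.normSq (hz (hact g X)) : ℝ) : ℂ) * hj g X ^ 2 *
      (conj g.b * hz X + conj g.a) ^ 2 = ((1 - Complex.normSq (hz X) : ℝ) : ℂ) := by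
    push_cast
    rw [← Complex.mul_conj, ← Complex.mul_conj]
    linear_combination ((1 - hz (hact g X) * conj (hz (hact g X))) *
      (conj g.b * hz X + conj g.a)) * j -
      (conj (hz (hact g X)) * (g.b * conj (hz X) + g.a)) * e -
      (g.a * hz X + g.b) * e' + (1 - hz X * conj (hz X)) * hnq
  rw [dMz, dMz]
  rw [div_mul_eq_mul_div, div_mul_div_comm, one_mul, div_eq_div_iff (pow_ne_zero 2 n2)
    (mul_ne_zero (pow_ne_zero 2 n1) (pow_ne_zero 2 n4)), ← mul_pow, d1, ← d2, ← k]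
  ring

theorem hasDerivAt_mob (g : SU11) (P : ℂ) (hP : Complex.normSq P ≤ 1) :
    HasDerivAt (mob g) (1 / (conj g.b * P + conj g.a) ^ 2) P := by
  have h0 := mob_den_ne g P hP
  have hnq : g.a * conj g.a - g.b * conj g.b = 1 := by
    rw [Complex.mul_conj, Complex.mul_conj]
    have := g.norm_eq
    exact_mod_cast this
  have h1 : HasDerivAt (fun P : ℂ => g.a * P + g.b) g.a P := by
    simpa using ((hasDerivAt_id P).const_mul g.a).add_const g.b
  have h2 : HasDerivAt (fun P : ℂ => conj g.b * P + conj g.a) (conj g.b) P := by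
    simpa using ((hasDerivAt_id P).const_mul (conj g.b)).add_const (conj g.a)
  have h3 := h1.div h2 h0
  refine HasDerivAt.congr_deriv h3 ?_
  congr 1
  linear_combination hnq

theorem hasDerivAt_Mz (z q : ℂ) (hz : Complex.normSq z < 1) (hq : Complex.normSq q ≤ 1) :
    HasDerivAt (Mz z) (dMz z q) q := by
  have h0 := Mz_den_ne z q hz hq
  have h1 : HasDerivAt (fun q : ℂ => q + z) 1 q := (hasDerivAt_id q).add_const z
  have h2 : HasDerivAt (fun q : ℂ => 1 + conj z * q) (conj z) q := by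
    simpa using ((hasDerivAt_id q).const_mul (conj z)).const_add 1
  have h3 := h1.div h2 h0
  refine HasDerivAt.congr_deriv h3 ?_
  unfold dMz
  congr 1
  push_cast
  rw [← Complex.mul_conj]
  ring

/-- multiplication by a complex number has determinant `normSq` -/
theorem chm_det (L : ℂ →L[ℝ] ℂ) :
    L.det = (L 1).re * (L Complex.I).im - (L 1).im * (L Complex.I).re := by
  have h : L.det = LinearMap.det (L : ℂ →ₗ[ℝ] ℂ) := rfl
  rw [h, ← LinearMap.det_toMatrix Complex.basisOneI, Matrix.det_fin_two]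
  simp only [LinearMap.toMatrix_apply, Complex.coe_basisOneI, Complex.coe_basisOneI_repr,
    Matrix.cons_val_zero, Matrix.cons_val_one, ContinuousLinearMap.coe_coe]
  ring

theorem det_mulC (c : ℂ) : (mulC c).det = Complex.normSq c := by
  rw [chm_det, Complex.normSq_apply]
  simp only [mulC_apply, mul_one, Complex.mul_re, Complex.mul_im, Complex.I_re, Complex.I_im]
  ring

/-- a linear map with `w₀ ↦ w₁`, `I w₀ ↦ κ I w₁`, `κ > 0` has positive determinant -/
theorem det_pos_of_polar (A : ℂ →L[ℝ] ℂ) (w₀ w₁ : ℂ) (h₀ : w₀ ≠ 0) (h₁ : w₁ ≠ 0) (κ c : ℝ)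
    (hκ : 0 < κ) (hA : A w₀ = w₁) (hA' : A (Complex.I * w₀) = (κ : ℂ) * (Complex.I * w₁) + c * w₁) :
    0 < A.det := by
  have h1 : ((A ∘L mulC w₀).det : ℝ) = A.det * (mulC w₀).det := by
    have e : ((A ∘L mulC w₀ : ℂ →L[ℝ] ℂ) : ℂ →ₗ[ℝ] ℂ) =
        (A : ℂ →ₗ[ℝ] ℂ) ∘ₗ (mulC w₀ : ℂ →ₗ[ℝ] ℂ) := rfl
    exact (congrArg LinearMap.det e).trans (LinearMap.det_comp _ _)
  have h2 := chm_det (A ∘L mulC w₀)
  have e1 : (A ∘L mulC w₀) 1 = w₁ := by
    rw [ContinuousLinearMap.comp_apply, mulC_apply, mul_one, hA]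
  have e2 : (A ∘L mulC w₀) Complex.I = (κ : ℂ) * (Complex.I * w₁) + c * w₁ := by
    rw [ContinuousLinearMap.comp_apply, mulC_apply, mul_comm, hA']
  rw [e1, e2, h1, det_mulC] at h2
  have h3 : A.det * Complex.normSq w₀ = κ * Complex.normSq w₁ := by
    rw [h2, Complex.normSq_apply]
    simp only [Complex.add_re, Complex.add_im, Complex.mul_re, Complex.mul_im, Complex.I_re,
      Complex.I_im, Complex.ofReal_re, Complex.ofReal_im]
    ring
  have h4 := Complex.normSq_pos.2 h₀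
  have h5 := mul_pos hκ (Complex.normSq_pos.2 h₁)
  rw [← h3] at h5
  exact (mul_pos_iff_of_pos_right h4).1 h5

end Pool.Agent.HAF2
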