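import Pool.Agent.HAF2.ChFlat
import Pool.Agent.HAF2.ChMob

/-!
# Module CH3: equivariance of the local maps, relations between them

Write `m = mmf p`, `d = dl t`, `n = normSq y`, `N = hN X`. Useful: `normSq (hv p) * X.1 -
re (conj X.2 * hv p ^ 2) = N * n` (the Lorentz product of the light-like vector `(‖v‖^2, v^2)`
with `X`), `(n + d^2)^2 - n^2 = d^2 m`, so `‖hq‖ = n / (n + d^2 + d √m)` and
`1 / ‖hq‖ + ‖hq‖ = 2 (n + d^2) / n`.
`YT_eq_hP`: the vector `Y = (YT, YZ)` is `(‖v‖^2, v^2) + d^2 X / N`; its Lorentz norm is `d √m`; it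
is the image under the boost of `X` of `(n + d^2, y^2)`, and `hP` is `YZ / (YT + d √m)`.
-/

namespace Pool.Agent.HAF2

open Filter Topology MeasureTheory
open scoped ContDiff ComplexConjugate

theorem ceq_sphU_fst {p : EH} (hp : p ∈ sphU hypM) : p.1 ∈ hU := hp.1

theorem ceq_sphU_t_ne {p : EH} (hp : p ∈ sphU hypM) (hy : p.2.1 = 0) : p.2.2 ≠ 0 := by
  rcases hp.2 with h | h
  · exact absurd hy h
  · intro h0
    rw [h0, abs_zero] at h
    linarith

theorem ceq_sphU_y_ne {p : EH} (hp : p ∈ sphU hypM) (ht : p.2.2 = 0) : p.2.1 ≠ 0 :=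
  fun h => ceq_sphU_t_ne hp h ht

theorem mmf_pos (p : EH) (hp : p ∈ sphU hypM) : 0 < mmf p := by
  have h1 := Complex.normSq_nonneg p.2.1
  have h2 := sq_nonneg (dl p.2.2)
  unfold mmf
  by_cases hy : p.2.1 = 0
  · have := dl_pos p.2.2 (ceq_sphU_t_ne hp hy)
    positivity
  · have := Complex.normSq_pos.mpr hy
    positivity

theorem qden_pos (p : EH) (hp : p ∈ sphU hypM) : 0 < qden p := by
  have h1 := Complex.normSq_nonneg p.2.1
  have h2 := dl_nonneg p.2.2
  unfold qden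
  by_cases hy : p.2.1 = 0
  · have := dl_pos p.2.2 (ceq_sphU_t_ne hp hy)
    positivity
  · have := Complex.normSq_pos.mpr hy
    positivity

theorem ceq_normSq_hj (g : SU11) (X : ℝ × ℂ) (hX : X ∈ hU) : Complex.normSq (hj g X) = 1 := by
  rw [Complex.normSq_eq_norm_sq, norm_hj g X hX, one_pow]

theorem ceq_sphAct_hyp (l : Lam) (p : EH) :
    sphAct hypM hypL l p = (hact (gel l) p.1, hj (gel l) p.1 * p.2.1, p.2.2) := rfl

theorem mmf_act (l : Lam) (p : EH) (hp : p ∈ sphU hypM) :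
    mmf (sphAct hypM hypL l p) = mmf p := by
  rw [ceq_sphAct_hyp]
  simp only [mmf, map_mul, ceq_normSq_hj _ _ hp.1, one_mul]

theorem ceq_qden_act (l : Lam) (p : EH) (hp : p ∈ sphU hypM) :
    qden (sphAct hypM hypL l p) = qden p := by
  have h := mmf_act l p hp
  rw [ceq_sphAct_hyp] at h ⊢
  simp only [qden, h, map_mul, ceq_normSq_hj _ _ hp.1, one_mul]

theorem hq_act (l : Lam) (p : EH) (hp : p ∈ sphU hypM) :
    hq (sphAct hypM hypL l p) = hj (gel l) p.1 ^ 2 * hq p := by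
  unfold hq
  rw [ceq_qden_act l p hp, ceq_sphAct_hyp]
  simp only
  ring

theorem ceq_normSq_hq (p : EH) : Complex.normSq (hq p) =
    (Complex.normSq p.2.1 / qden p) ^ 2 := by
  rw [hq, Complex.normSq_div, Complex.normSq_ofReal, map_pow, div_pow, pow_two (qden p)]

theorem ceq_le_qden (p : EH) : Complex.normSq p.2.1 ≤ qden p := by
  have h2 := dl_nonneg p.2.2
  have h3 := Real.sqrt_nonneg (mmf p)
  unfold qden
  nlinarith [mul_nonneg h2 h3]

theorem normSq_hq_le (p : EH) (hp : p ∈ sphU hypM) : Complex.normSq (hq p) ≤ 1 := by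
  have h0 := qden_pos p hp
  rw [ceq_normSq_hq]
  exact pow_le_one₀ (div_nonneg (Complex.normSq_nonneg _) h0.le)
    ((div_le_one h0).mpr (ceq_le_qden p))

theorem normSq_hq_lt (p : EH) (hp : p ∈ sphU hypM) (ht : p.2.2 ≠ 0) :
    Complex.normSq (hq p) < 1 := by
  have h0 := qden_pos p hp
  rw [ceq_normSq_hq]
  have h2 := dl_pos p.2.2 ht
  have h3 := Real.sqrt_nonneg (mmf p)
  refine pow_lt_one₀ (div_nonneg (Complex.normSq_nonneg _) h0.le)
    ((div_lt_one h0).mpr ?_) two_ne_zero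
  unfold qden
  nlinarith [mul_nonneg h2.le h3]

theorem normSq_hq_eq (p : EH) (hp : p ∈ sphU hypM) (ht : p.2.2 = 0) :
    Complex.normSq (hq p) = 1 := by
  have hy := Complex.normSq_pos.mpr (ceq_sphU_y_ne hp ht)
  have : qden p = Complex.normSq p.2.1 := by
    unfold qden
    rw [ht, dl_zero]
    ring
  rw [ceq_normSq_hq, this, div_self hy.ne', one_pow]

theorem hP_act (l : Lam) (p : EH) (hp : p ∈ sphU hypM) :
    hP (sphAct hypM hypL l p) = mob (gel l) (hP p) := by
  unfold hP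
  rw [hq_act l p hp, mob_Mz (gel l) p.1 hp.1 (hq p) (normSq_hq_le p hp), ceq_sphAct_hyp]

theorem normSq_hP_le (p : EH) (hp : p ∈ sphU hypM) : Complex.normSq (hP p) ≤ 1 := by
  have h1 := one_sub_normSq_Mz (hz p.1) (hq p) (normSq_hz_lt p.1 hp.1) (normSq_hq_le p hp)
  have h2 := normSq_hz_lt p.1 hp.1
  have h3 := normSq_hq_le p hp
  have h4 : 0 ≤ (1 - Complex.normSq (hz p.1)) * (1 - Complex.normSq (hq p)) /
      Complex.normSq (1 + conj (hz p.1) * hq p) :=
    div_nonneg (mul_nonneg (by linarith) (by linarith)) (Complex.normSq_nonneg _)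
  unfold hP
  linarith

theorem normSq_hP_lt (p : EH) (hp : p ∈ sphU hypM) (ht : p.2.2 ≠ 0) :
    Complex.normSq (hP p) < 1 := by
  have h1 := one_sub_normSq_Mz (hz p.1) (hq p) (normSq_hz_lt p.1 hp.1) (normSq_hq_le p hp)
  have h2 := normSq_hz_lt p.1 hp.1
  have h3 := normSq_hq_lt p hp ht
  have h5 := Mz_den_ne (hz p.1) (hq p) h2 h3.le
  have h4 : 0 < (1 - Complex.normSq (hz p.1)) * (1 - Complex.normSq (hq p)) /
      Complex.normSq (1 + conj (hz p.1) * hq p) :=
    div_pos (mul_pos (by linarith) (by linarith)) (Complex.normSq_pos.mpr h5)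
  unfold hP
  linarith

theorem hv_act (l : Lam) (p : EH) (hp : p ∈ sphU hypM) :
    hv (sphAct hypM hypL l p) = hvact (gel l) (hv p) := by
  rw [ceq_sphAct_hyp]
  exact hA_hact (gel l) p.1 hp.1 p.2.1

theorem lamf_act (l : Lam) (p : EH) (hp : p ∈ sphU hypM) :
    lamf (sphAct hypM hypL l p) = lamf p := by
  have h := mmf_act l p hp
  unfold lamf
  rw [h, ceq_sphAct_hyp]

theorem ceq_hvact_smul (g : SU11) (c : ℝ) (v : ℂ) : hvact g ((c : ℂ) * v) = (c : ℂ) * hvact g v := by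
  simp only [hvact, map_mul, Complex.conj_ofReal]
  ring

theorem hV_act (l : Lam) (p : EH) (hp : p ∈ sphU hypM) :
    hV (sphAct hypM hypL l p) = conj (hvact (gel l) (conj (hV p))) := by
  unfold hV
  rw [lamf_act l p hp, hv_act l p hp, map_mul, Complex.conj_conj, Complex.conj_ofReal,
    ceq_hvact_smul, map_mul, Complex.conj_ofReal]

theorem YT_YZ_act (two : Bool) (l : Lam) (p : EH) (hp : p ∈ sphU hypM) :
    (YT two (sphAct hypM hypL l p), YZ two (sphAct hypM hypL l p)) =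
      hact (gel l) (YT two p, YZ two p) := by
  have h1 := hv_act l p hp
  have h2 : hN (sphAct hypM hypL l p).1 = hN p.1 := hN_hact (gel l) p.1
  have h3 : (sphAct hypM hypL l p).2.2 = p.2.2 := rfl
  have h4 : (sphAct hypM hypL l p).1 = hact (gel l) p.1 := rfl
  generalize gel l = g at *
  unfold YT YZ
  rw [h1, h2, h3, h4]
  generalize hv p = v at *
  generalize epsf two p.2.2 = e at *
  generalize hN p.1 = N at *
  refine Prod.ext ?_ ?_
  · simp only [hact, hvact]
    simp only [Complex.normSq_apply, Complex.mul_re, Complex.mul_im, Complex.add_re,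
      Complex.add_im, Complex.conj_re, Complex.conj_im, Complex.ofReal_re, Complex.ofReal_im,
      pow_two]
    ring
  · simp only [hact, hvact]
    have hvv : ((Complex.normSq v : ℝ) : ℂ) = v * conj v := (Complex.mul_conj v).symm
    simp only [map_add, map_mul, map_pow, Complex.conj_ofReal]
    push_cast
    rw [hvv]
    ring

theorem ceq_hA_zero (X : ℝ × ℂ) : hA X 0 = 0 := by
  simp [hA]

theorem hv_ne_zero (p : EH) (hp : p ∈ sphU hypM) (hy : p.2.1 ≠ 0) : hv p ≠ 0 := by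
  intro h
  apply hy
  apply hA_injective p.1 hp.1
  rw [ceq_hA_zero]
  exact h

theorem ceq_fst_pos_of_mem {X : ℝ × ℂ} (hX : X ∈ hU) : 0 < X.1 :=
  lt_of_le_of_lt (norm_nonneg X.2) hX

theorem YT_pos (two : Bool) (p : EH) (hp : p ∈ sphU hypM) (hy : p.2.1 ≠ 0) : 0 < YT two p := by
  have h1 := Complex.normSq_pos.mpr (hv_ne_zero p hp hy)
  have h2 := epsf_nonneg two p.2.2
  have h3 := ceq_fst_pos_of_mem hp.1
  have h4 := hN_pos p.1 hp.1
  unfold YT
  positivity

/-- the square of `hA X y` -/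
theorem ceq_normSq_hA (X : ℝ × ℂ) (hX : X ∈ hU) (y : ℂ) :
    Complex.normSq (hA X y) = (X.1 * Complex.normSq y + (conj X.2 * y ^ 2).re) / hN X := by
  have hN0 := hN_pos X hX
  have h2 := add_hN_pos X hX
  have h1 := hN_sq X hX
  rw [hA, Complex.normSq_div, Complex.normSq_ofReal, Real.mul_self_sqrt (by positivity)]
  simp only [Complex.normSq_apply] at h1 ⊢
  simp only [Complex.mul_re, Complex.mul_im, Complex.add_re,
      Complex.add_im, Complex.conj_re, Complex.conj_im, Complex.ofReal_re, Complex.ofReal_im,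
      pow_two] at h1 ⊢
  field_simp
  linear_combination (y.re ^ 2 + y.im ^ 2) * h1

theorem ceq_hA_sq (X : ℝ × ℂ) (hX : X ∈ hU) (y : ℂ) :
    hA X y ^ 2 = (((X.1 + hN X : ℝ) : ℂ) ^ 2 * y ^ 2 +
      2 * ((X.1 + hN X : ℝ) : ℂ) * X.2 * (Complex.normSq y : ℂ) + X.2 ^ 2 * conj y ^ 2) /
      ((2 * hN X * (X.1 + hN X) : ℝ) : ℂ) := by
  have hN0 := hN_pos X hX
  have h2 := add_hN_pos X hX
  have hs : ((Real.sqrt (2 * hN X * (X.1 + hN X)) : ℝ) : ℂ) ^ 2 =
      ((2 * hN X * (X.1 + hN X) : ℝ) : ℂ) := by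
    rw [← Complex.ofReal_pow, Real.sq_sqrt (by positivity)]
  rw [hA, div_pow, hs, ← Complex.mul_conj y]
  congr 1
  ring

theorem ceq_epsf_of (two : Bool) (t : ℝ) (h : two = true ∨ t < 0) : epsf two t = dl t ^ 2 := by
  rw [epsf, if_pos h]

theorem ceq_one_sub_normSq_hz (X : ℝ × ℂ) (hX : X ∈ hU) :
    1 - Complex.normSq (hz X) = 2 * hN X / (X.1 + hN X) := by
  have hN0 := hN_pos X hX
  have h2 := add_hN_pos X hX
  have h1 := hN_sq X hX
  rw [hz, Complex.normSq_div, Complex.normSq_ofReal]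
  field_simp
  linear_combination -h1

theorem ceq_one_add_normSq_hz (X : ℝ × ℂ) (hX : X ∈ hU) :
    1 + Complex.normSq (hz X) = 2 * X.1 / (X.1 + hN X) := by
  have hN0 := hN_pos X hX
  have h2 := add_hN_pos X hX
  have h1 := hN_sq X hX
  rw [hz, Complex.normSq_div, Complex.normSq_ofReal]
  field_simp
  linear_combination h1

theorem ceq_mul_qden (p : EH) (hp : p ∈ sphU hypM) :
    qden p * (Complex.normSq p.2.1 + dl p.2.2 ^ 2 - dl p.2.2 * Real.sqrt (mmf p)) =
      Complex.normSq p.2.1 ^ 2 := by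
  have h := Real.sq_sqrt (mmf_pos p hp).le
  have h2 : mmf p = 2 * Complex.normSq p.2.1 + dl p.2.2 ^ 2 := rfl
  unfold qden
  linear_combination (-dl p.2.2 ^ 2) * h - dl p.2.2 ^ 2 * h2

theorem ceq_one_sub_normSq_hq (p : EH) (hp : p ∈ sphU hypM) :
    1 - Complex.normSq (hq p) = 2 * (dl p.2.2 * Real.sqrt (mmf p)) / qden p := by
  have h0 := qden_pos p hp
  have h1 := ceq_mul_qden p hp
  have h2 : qden p = Complex.normSq p.2.1 + dl p.2.2 ^ 2 + dl p.2.2 * Real.sqrt (mmf p) := rfl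
  rw [ceq_normSq_hq]
  field_simp
  linear_combination h1 + qden p * h2

theorem ceq_one_add_normSq_hq (p : EH) (hp : p ∈ sphU hypM) :
    1 + Complex.normSq (hq p) = 2 * (Complex.normSq p.2.1 + dl p.2.2 ^ 2) / qden p := by
  have h0 := qden_pos p hp
  have h1 := ceq_mul_qden p hp
  have h2 : qden p = Complex.normSq p.2.1 + dl p.2.2 ^ 2 + dl p.2.2 * Real.sqrt (mmf p) := rfl
  rw [ceq_normSq_hq]
  field_simp
  linear_combination -h1 + qden p * h2

/-- the vector `Y` in terms of `hP` -/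
theorem YT_eq_hP (two : Bool) (p : EH) (hp : p ∈ sphU hypM) (ht : p.2.2 ≠ 0)
    (h : two = true ∨ p.2.2 < 0) :
    YT two p = dl p.2.2 * Real.sqrt (mmf p) *
      ((1 + Complex.normSq (hP p)) / (1 - Complex.normSq (hP p))) ∧
    YZ two p = ((2 * (dl p.2.2 * Real.sqrt (mmf p)) / (1 - Complex.normSq (hP p)) : ℝ) : ℂ) *
      hP p := by
  have hX := hp.1
  have hN0 := hN_pos p.1 hX
  have hTN := add_hN_pos p.1 hX
  have hQ := qden_pos p hp
  have hd := dl_pos p.2.2 ht
  have hs : 0 < Real.sqrt (mmf p) := Real.sqrt_pos.mpr (mmf_pos p hp)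
  have hz1 := normSq_hz_lt p.1 hX
  have hq1 := normSq_hq_lt p hp ht
  have hden := Mz_den_ne (hz p.1) (hq p) hz1 hq1.le
  have hdpos := Complex.normSq_pos.mpr hden
  have e1 := one_sub_normSq_Mz (hz p.1) (hq p) hz1 hq1.le
  have a1 := ceq_one_sub_normSq_hz p.1 hX
  have a2 := ceq_one_add_normSq_hz p.1 hX
  have b1 := ceq_one_sub_normSq_hq p hp
  have b2 := ceq_one_add_normSq_hq p hp
  have e2 : 1 - Complex.normSq (hP p) = (2 * hN p.1 / (p.1.1 + hN p.1)) *
      (2 * (dl p.2.2 * Real.sqrt (mmf p)) / qden p) /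
      Complex.normSq (1 + conj (hz p.1) * hq p) := by
    rw [← a1, ← b1]
    exact e1
  have hzc : ((p.1.1 + hN p.1 : ℝ) : ℂ) * hz p.1 = p.1.2 := by
    rw [hz]
    have : ((p.1.1 + hN p.1 : ℝ) : ℂ) ≠ 0 := by exact_mod_cast hTN.ne'
    field_simp
  have hqc : ((qden p : ℝ) : ℂ) * hq p = p.2.1 ^ 2 := by
    rw [hq]
    have : ((qden p : ℝ) : ℂ) ≠ 0 := by exact_mod_cast hQ.ne'
    field_simp
  have e3 : 1 + Complex.normSq (hP p) =
      ((1 + Complex.normSq (hz p.1)) * (1 + Complex.normSq (hq p)) +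
        4 * (conj (hz p.1) * hq p).re) / Complex.normSq (1 + conj (hz p.1) * hq p) := by
    rw [hP, Mz, Complex.normSq_div]
    rw [eq_div_iff hdpos.ne', add_mul, div_mul_cancel₀ _ hdpos.ne']
    simp only [Complex.normSq_apply, Complex.mul_re, Complex.mul_im, Complex.add_re,
      Complex.add_im, Complex.conj_re, Complex.conj_im, Complex.one_re, Complex.one_im]
    ring
  have hre : (conj p.1.2 * p.2.1 ^ 2).re =
      (p.1.1 + hN p.1) * qden p * (conj (hz p.1) * hq p).re := by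
    rw [← hzc, ← hqc, map_mul, Complex.conj_ofReal]
    have : (((p.1.1 + hN p.1 : ℝ) : ℂ) * conj (hz p.1) * (((qden p : ℝ) : ℂ) * hq p)) =
        (((p.1.1 + hN p.1) * qden p : ℝ) : ℂ) * (conj (hz p.1) * hq p) := by
      push_cast
      ring
    rw [this, Complex.re_ofReal_mul]
  constructor
  · rw [YT, hv, ceq_normSq_hA p.1 hX, ceq_epsf_of two _ h, hre, e3, e2, a2, b2]
    field_simp
    ring
  · have hdc : (1 + conj (hz p.1) * hq p) ≠ 0 := hden
    have hNc : ((hN p.1 : ℝ) : ℂ) ≠ 0 := by exact_mod_cast hN0.ne'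
    have hTNc : ((p.1.1 + hN p.1 : ℝ) : ℂ) ≠ 0 := by exact_mod_cast hTN.ne'
    have hQc : ((qden p : ℝ) : ℂ) ≠ 0 := by exact_mod_cast hQ.ne'
    have hcoef : 2 * (dl p.2.2 * Real.sqrt (mmf p)) / (1 - Complex.normSq (hP p)) =
        Complex.normSq (1 + conj (hz p.1) * hq p) * ((p.1.1 + hN p.1) * qden p / (2 * hN p.1)) := by
      rw [e2]
      field_simp
    rw [hcoef]
    have hb2c : 1 + hq p * conj (hq p) =
        2 * ((Complex.normSq p.2.1 + dl p.2.2 ^ 2 : ℝ) : ℂ) / ((qden p : ℝ) : ℂ) := by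
      rw [Complex.mul_conj]
      exact_mod_cast b2
    have hmul : ((Complex.normSq (1 + conj (hz p.1) * hq p) : ℝ) : ℂ) * hP p =
        (hq p + hz p.1) * (1 + hz p.1 * conj (hq p)) := by
      rw [hP, Mz, ← Complex.mul_conj, map_add, map_mul, Complex.conj_conj, map_one]
      field_simp
    have hgoal : (((Complex.normSq (1 + conj (hz p.1) * hq p) *
        ((p.1.1 + hN p.1) * qden p / (2 * hN p.1)) : ℝ) : ℝ) : ℂ) * hP p =
        ((hq p + hz p.1) * (1 + hz p.1 * conj (hq p))) *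
          (((p.1.1 + hN p.1 : ℝ) : ℂ) * ((qden p : ℝ) : ℂ) / (2 * ((hN p.1 : ℝ) : ℂ))) := by
      rw [← hmul]
      push_cast
      ring
    rw [hgoal]
    have hexp : (hq p + hz p.1) * (1 + hz p.1 * conj (hq p)) =
        hq p + hz p.1 * (1 + hq p * conj (hq p)) + hz p.1 ^ 2 * conj (hq p) := by ring
    have hqc' : ((qden p : ℝ) : ℂ) * conj (hq p) = conj p.2.1 ^ 2 := by
      have := congrArg conj hqc
      rwa [map_mul, Complex.conj_ofReal, map_pow] at this
    rw [hexp, hb2c, YZ, hv, ceq_hA_sq p.1 hX, ceq_epsf_of two _ h]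
    rw [← hzc, ← hqc, ← hqc']
    push_cast at hTNc hQc ⊢
    field_simp
    ring

/-- the vector `Y` in terms of `hV` -/
theorem YT_eq_hV (p : EH) (hp : p ∈ sphU hypM) (ht : 0 < p.2.2) :
    YT false p = dl p.2.2 * Real.sqrt (mmf p) * Complex.normSq (hV p) ∧
    YZ false p = ((dl p.2.2 * Real.sqrt (mmf p) : ℝ) : ℂ) * conj (hV p) ^ 2 := by
  have hd := dl_pos p.2.2 ht.ne'
  have hs : 0 < Real.sqrt (mmf p) := Real.sqrt_pos.mpr (mmf_pos p hp)
  have he : epsf false p.2.2 = 0 := by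
    rw [epsf, if_neg]
    push Not
    exact ⟨by simp, ht.le⟩
  have hl : dl p.2.2 * Real.sqrt (mmf p) * lamf p ^ 2 = 1 := by
    have h0 : 0 < dl p.2.2 * Real.sqrt (mmf p) := by positivity
    rw [lamf, div_pow, Real.sq_sqrt h0.le, one_pow]
    field_simp
  constructor
  · rw [YT, he, hV, map_mul, Complex.normSq_ofReal, Complex.normSq_conj]
    linear_combination (-Complex.normSq (hv p)) * hl
  · rw [YZ, he, hV, map_mul, Complex.conj_ofReal, Complex.conj_conj]
    have hl' : (dl p.2.2 : ℂ) * (Real.sqrt (mmf p) : ℂ) * (lamf p : ℂ) ^ 2 = 1 := by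
      exact_mod_cast hl
    push_cast
    linear_combination (-hv p ^ 2) * hl'

/-- the collar coordinate in terms of `YT` -/
theorem log_YT (two : Bool) (p : EH) (hp : p ∈ cdom two Ch.M) (ht : p.2.2 ≠ 0) :
    Real.log (YT two p / (dl p.2.2 * Real.sqrt (mmf p))) = 1 / (2 * rr two p ^ 2) := by
  obtain ⟨hs, hy, hz, hD⟩ := hp
  have hd := dl_pos p.2.2 ht
  have hm := mmf_pos p hs
  have hq : 0 < Real.sqrt (mmf p) := Real.sqrt_pos.mpr hm
  have hY := YT_pos two p hs hy
  rw [Real.log_div hY.ne' (by positivity), Real.log_mul hd.ne' hq.ne', Real.log_sqrt hm.le,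
    dl_of_ne _ ht, Real.log_exp, rr, div_pow, Real.sq_sqrt hD.le]
  have hDD : DD two p = 1 + 2 * p.2.2 ^ 2 * (Real.log (YT two p) - Real.log (mmf p) / 2) := rfl
  have hDne := hD.ne'
  have : 1 / (2 * (p.2.2 ^ 2 / DD two p)) = DD two p / (2 * p.2.2 ^ 2) := by
    field_simp
  rw [this, hDD]
  field_simp
  ring

theorem ceq_lorentz_Y (two : Bool) (p : EH) (hp : p ∈ sphU hypM) (ht : p.2.2 ≠ 0)
    (h : two = true ∨ p.2.2 < 0) :
    Complex.normSq (YZ two p) = YT two p ^ 2 - (dl p.2.2 * Real.sqrt (mmf p)) ^ 2 := by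
  obtain ⟨h1, h2⟩ := YT_eq_hP two p hp ht h
  have h3 := normSq_hP_lt p hp ht
  have h4 : 1 - Complex.normSq (hP p) ≠ 0 := by linarith
  rw [h1, h2, map_mul, Complex.normSq_ofReal]
  field_simp
  ring

/-- the shape of the vector `Y` is determined by the collar coordinate -/
theorem eta_rel (two : Bool) (p : EH) (hp : p ∈ cdom two Ch.M) :
    Complex.normSq (YZ two p) = YT two p ^ 2 * (1 - epsf two (rr two p)) := by
  have hp' := hp
  obtain ⟨hs, hy, hz, hD⟩ := hp'
  have hflat : epsf two p.2.2 = 0 → epsf two (rr two p) = 0 →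
      Complex.normSq (YZ two p) = YT two p ^ 2 * (1 - epsf two (rr two p)) := by
    intro h1 h2
    rw [h2, YZ, YT, h1]
    simp
  have hsq : 0 < Real.sqrt (DD two p) := Real.sqrt_pos.mpr hD
  by_cases ht : p.2.2 = 0
  · apply hflat
    · rw [ht, epsf_zero]
    · rw [rr, ht, zero_div, epsf_zero]
  by_cases h : two = true ∨ p.2.2 < 0
  · have hr : two = true ∨ rr two p < 0 := by
      rcases h with h | h
      · exact Or.inl h
      · exact Or.inr (div_neg_of_neg_of_pos h hsq)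
    have hr0 : rr two p ≠ 0 := div_ne_zero ht hsq.ne'
    have hY := YT_pos two p hs hy
    have hd := dl_pos p.2.2 ht
    have hq : 0 < Real.sqrt (mmf p) := Real.sqrt_pos.mpr (mmf_pos p hs)
    have hlog := log_YT two p hp ht
    rw [ceq_lorentz_Y two p hs ht h, ceq_epsf_of two _ hr, dl_of_ne _ hr0, ← hlog, Real.exp_neg,
      Real.exp_log (by positivity)]
    field_simp
  · push Not at h
    have ht' : 0 < p.2.2 := lt_of_le_of_ne h.2 (Ne.symm ht)
    have hr : 0 < rr two p := div_pos ht' hsq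
    apply hflat
    · rw [epsf, if_neg]
      push Not
      exact ⟨h.1, h.2⟩
    · rw [epsf, if_neg]
      push Not
      exact ⟨h.1, hr.le⟩

end Pool.Agent.HAF2
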