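import Pool.Agent.HAF2.ChDefs

/-!
# Module CH1: the flat functions and the cutoff function

The smoothness of the one-sided function `epsf false` can be proved like the smoothness of
`expNegInvGlue` in Mathlib (functions `p (1 / t) * exp (-1 / t^2)` for `t < 0`, `0` for `t ≥ 0`,
with polynomials `p`).
-/

namespace Pool.Agent.HAF2

open Filter Topology MeasureTheory
open scoped ContDiff ComplexConjugate

theorem dl_zero : dl 0 = 0 := by
  unfold dl
  exact expNegInvGlue.zero_of_nonpos (by norm_num)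

theorem dl_of_ne (t : ℝ) (ht : t ≠ 0) : dl t = Real.exp (-(1 / (2 * t ^ 2))) := by
  have h : 0 < 2 * t ^ 2 := by positivity
  unfold dl expNegInvGlue
  rw [if_neg (not_le.mpr h), one_div]

theorem dl_nonneg (t : ℝ) : 0 ≤ dl t := expNegInvGlue.nonneg _

theorem dl_pos (t : ℝ) (ht : t ≠ 0) : 0 < dl t := by
  rw [dl_of_ne t ht]
  exact Real.exp_pos _

theorem dl_lt_one (t : ℝ) : dl t < 1 := by
  by_cases ht : t = 0
  · rw [ht, dl_zero]
    exact one_pos
  · rw [dl_of_ne t ht, Real.exp_lt_one_iff]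
    have h : 0 < 1 / (2 * t ^ 2) := by positivity
    linarith

theorem contDiff_dl : ContDiff ℝ ∞ dl := by
  unfold dl
  exact expNegInvGlue.contDiff.comp (contDiff_const.mul (contDiff_id.pow 2))

/-- one-sided functions built from a function which vanishes on the negative half line -/
theorem hasDerivAt_half (p g : ℝ → ℝ) (hp : ContDiff ℝ ∞ p) (hg : ContDiff ℝ ∞ g)
    (h0 : ∀ x ≤ 0, g x = 0) (t : ℝ) :
    HasDerivAt (fun s => if s < 0 then p s * g (s ^ 2) else 0)
      ((if t < 0 then deriv p t * g (t ^ 2) else 0) +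
        (if t < 0 then (2 * t * p t) * deriv g (t ^ 2) else 0)) t := by
  have hf : ∀ s, HasDerivAt (fun s => p s * g (s ^ 2))
      (deriv p s * g (s ^ 2) + (2 * s * p s) * deriv g (s ^ 2)) s := by
    intro s
    have h1 : HasDerivAt p (deriv p s) s :=
      (hp.differentiable (by simp)).differentiableAt.hasDerivAt
    have h2 : HasDerivAt g (deriv g (s ^ 2)) (s ^ 2) :=
      (hg.differentiable (by simp)).differentiableAt.hasDerivAt
    have h3 : HasDerivAt (fun s : ℝ => s ^ 2) (2 * s) s := by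
      simpa using hasDerivAt_pow 2 s
    have h4 : HasDerivAt (fun s : ℝ => g (s ^ 2)) (deriv g (s ^ 2) * (2 * s)) s :=
      HasDerivAt.comp (h₂ := g) (h := fun s : ℝ => s ^ 2) s h2 h3
    have h5 : HasDerivAt (fun s => p s * g (s ^ 2))
        (deriv p s * g (s ^ 2) + p s * (deriv g (s ^ 2) * (2 * s))) s := h1.mul h4
    have h6 : deriv p s * g (s ^ 2) + p s * (deriv g (s ^ 2) * (2 * s)) =
        deriv p s * g (s ^ 2) + (2 * s * p s) * deriv g (s ^ 2) := by ring
    rw [h6] at h5
    exact h5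
  rcases lt_trichotomy t 0 with ht | ht | ht
  · rw [if_pos ht, if_pos ht]
    refine (hf t).congr_of_eventuallyEq ?_
    filter_upwards [Iio_mem_nhds ht] with s hs
    exact if_pos hs
  · subst ht
    rw [if_neg (lt_irrefl _), if_neg (lt_irrefl _), add_zero]
    have h5 := hf 0
    have h6 : g 0 = 0 := h0 0 le_rfl
    have h7 : deriv p 0 * g (0 ^ 2) + (2 * 0 * p 0) * deriv g (0 ^ 2) = 0 := by
      simp [h6]
    rw [h7] at h5
    rw [hasDerivAt_iff_isLittleO] at h5 ⊢
    refine Asymptotics.IsBigO.trans_isLittleO ?_ h5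
    refine Asymptotics.IsBigO.of_bound 1 (Eventually.of_forall fun s => ?_)
    have h8 : (0 : ℝ) ^ 2 = 0 := by norm_num
    simp only [lt_irrefl, if_false, h8, h6, mul_zero, sub_zero, smul_zero, one_mul]
    split_ifs with h9
    · exact le_rfl
    · rw [norm_zero]
      exact norm_nonneg _
  · rw [if_neg (not_lt.mpr ht.le), if_neg (not_lt.mpr ht.le), add_zero]
    refine (hasDerivAt_const t (0 : ℝ)).congr_of_eventuallyEq ?_
    filter_upwards [Ioi_mem_nhds ht] with s hs
    exact if_neg (not_lt.mpr (le_of_lt hs))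

theorem deriv_zero_of_zero (g : ℝ → ℝ) (hg : ContDiff ℝ ∞ g) (h0 : ∀ x ≤ 0, g x = 0) :
    ∀ x ≤ 0, deriv g x = 0 := by
  intro x hx
  have h1 : HasDerivAt g (deriv g x) x :=
    (hg.differentiable (by simp)).differentiableAt.hasDerivAt
  have h2 : HasDerivWithinAt g (deriv g x) (Set.Iic x) x := h1.hasDerivWithinAt
  have h3 : HasDerivWithinAt g 0 (Set.Iic x) x := by
    refine (hasDerivWithinAt_const x (Set.Iic x) (0 : ℝ)).congr ?_ (h0 x hx)
    intro y hy
    exact h0 y (le_trans hy hx)
  exact (uniqueDiffWithinAt_Iic x).eq_deriv _ h2 h3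

theorem contDiff_half_nat (n : ℕ) : ∀ p g : ℝ → ℝ, ContDiff ℝ ∞ p → ContDiff ℝ ∞ g →
    (∀ x ≤ 0, g x = 0) →
    ContDiff ℝ n (fun s => if s < 0 then p s * g (s ^ 2) else 0) := by
  induction n with
  | zero =>
    intro p g hp hg h0
    have h1 : Continuous (fun s => if s < 0 then p s * g (s ^ 2) else 0) :=
      continuous_iff_continuousAt.mpr fun t => (hasDerivAt_half p g hp hg h0 t).continuousAt
    exact_mod_cast contDiff_zero.mpr h1
  | succ n ih =>
    intro p g hp hg h0
    have h1 : deriv (fun s => if s < 0 then p s * g (s ^ 2) else 0) =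
        fun t => (if t < 0 then deriv p t * g (t ^ 2) else 0) +
        (if t < 0 then (2 * t * p t) * deriv g (t ^ 2) else 0) :=
      funext fun t => (hasDerivAt_half p g hp hg h0 t).deriv
    have h2 : ((n + 1 : ℕ) : WithTop ℕ∞) = (n : WithTop ℕ∞) + 1 := by push_cast; rfl
    rw [h2, contDiff_succ_iff_deriv]
    refine ⟨fun t => (hasDerivAt_half p g hp hg h0 t).differentiableAt, ?_, ?_⟩
    · intro h3
      simp at h3
    · rw [h1]
      have hp' : ContDiff ℝ ∞ (deriv p) := (contDiff_infty_iff_deriv.mp hp).2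
      have hg' : ContDiff ℝ ∞ (deriv g) := (contDiff_infty_iff_deriv.mp hg).2
      refine (ih (deriv p) g hp' hg h0).add ?_
      exact ih (fun t => 2 * t * p t) (deriv g) ((contDiff_const.mul contDiff_id).mul hp) hg'
        (deriv_zero_of_zero g hg h0)

theorem contDiff_half (p g : ℝ → ℝ) (hp : ContDiff ℝ ∞ p) (hg : ContDiff ℝ ∞ g)
    (h0 : ∀ x ≤ 0, g x = 0) :
    ContDiff ℝ ∞ (fun s => if s < 0 then p s * g (s ^ 2) else 0) :=
  contDiff_infty.mpr fun n => contDiff_half_nat n p g hp hg h0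

theorem contDiff_epsf (two : Bool) : ContDiff ℝ ∞ (epsf two) := by
  cases two with
  | true =>
    have h : epsf true = fun t => dl t ^ 2 := by
      funext t
      simp [epsf]
    rw [h]
    exact contDiff_dl.pow 2
  | false =>
    have h : epsf false = fun s => if s < 0 then (fun _ : ℝ => (1 : ℝ)) s *
        (fun x : ℝ => expNegInvGlue (2 * x) ^ 2) (s ^ 2) else 0 := by
      funext t
      simp [epsf, dl]
    rw [h]
    refine contDiff_half (fun _ => 1) (fun x => expNegInvGlue (2 * x) ^ 2) contDiff_const ?_ ?_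
    · exact (expNegInvGlue.contDiff.comp (contDiff_const.mul contDiff_id)).pow 2
    · intro x hx
      have : expNegInvGlue (2 * x) = 0 := expNegInvGlue.zero_of_nonpos (by linarith)
      simp [this]

theorem epsf_nonneg (two : Bool) (t : ℝ) : 0 ≤ epsf two t := by
  unfold epsf
  split_ifs
  · positivity
  · exact le_rfl

theorem epsf_lt_one (two : Bool) (t : ℝ) : epsf two t < 1 := by
  unfold epsf
  split_ifs
  · have h1 := dl_nonneg t
    have h2 := dl_lt_one t
    nlinarith
  · exact one_pos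

theorem epsf_zero (two : Bool) : epsf two 0 = 0 := by
  unfold epsf
  rw [dl_zero]
  split_ifs <;> norm_num

theorem deriv_dl (t : ℝ) (ht : t ≠ 0) : deriv dl t = dl t / t ^ 3 := by
  have h1 : HasDerivAt (fun s : ℝ => Real.exp (-(1 / (2 * s ^ 2))))
      (Real.exp (-(1 / (2 * t ^ 2))) * (1 / t ^ 3)) t := by
    have h2 : HasDerivAt (fun s : ℝ => s ^ 2) (2 * t) t := by
      simpa using hasDerivAt_pow 2 t
    have h3 : HasDerivAt (fun s : ℝ => 2 * s ^ 2) (2 * (2 * t)) t := h2.const_mul 2
    have h4 : HasDerivAt (fun s : ℝ => (2 * s ^ 2)⁻¹) (-(2 * (2 * t)) / (2 * t ^ 2) ^ 2) t :=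
      h3.inv (by positivity)
    have h5 : HasDerivAt (fun s : ℝ => -(1 / (2 * s ^ 2))) (1 / t ^ 3) t := by
      have h6 : HasDerivAt (fun s : ℝ => -(2 * s ^ 2)⁻¹) (-(-(2 * (2 * t)) / (2 * t ^ 2) ^ 2)) t :=
        h4.neg
      have h7 : (fun s : ℝ => -(1 / (2 * s ^ 2))) = fun s : ℝ => -(2 * s ^ 2)⁻¹ := by
        funext s
        rw [one_div]
      have h8 : (1 / t ^ 3 : ℝ) = -(-(2 * (2 * t)) / (2 * t ^ 2) ^ 2) := by
        field_simp
      rw [h7, h8]
      exact h6
    exact h5.exp
  have h2 : dl =ᶠ[𝓝 t] fun s : ℝ => Real.exp (-(1 / (2 * s ^ 2))) := by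
    filter_upwards [isOpen_ne.mem_nhds ht] with s hs
    exact dl_of_ne s hs
  rw [h2.deriv_eq, h1.deriv, dl_of_ne t ht]
  ring

theorem deriv_dl_zero : deriv dl 0 = 0 := by
  have h : IsLocalMin dl 0 := by
    refine Eventually.of_forall fun t => ?_
    rw [dl_zero]
    exact dl_nonneg t
  exact h.deriv_eq_zero

theorem deriv_epsf_zero (two : Bool) : deriv (epsf two) 0 = 0 := by
  have h : IsLocalMin (epsf two) 0 := by
    refine Eventually.of_forall fun t => ?_
    rw [epsf_zero]
    exact epsf_nonneg two t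
  exact h.deriv_eq_zero

theorem contDiff_chi : ContDiff ℝ ∞ chi := by
  unfold chi
  exact Real.smoothTransition.contDiff.comp
    ((contDiff_const.mul contDiff_id).sub contDiff_const)

theorem chi_of_le (t : ℝ) (ht : t ≤ -(1 / 4)) : chi t = 1 := by
  unfold chi
  exact Real.smoothTransition.one_of_one_le (by linarith)

theorem chi_of_ge (t : ℝ) (ht : -(1 / 8) ≤ t) : chi t = 0 := by
  unfold chi
  exact Real.smoothTransition.zero_of_nonpos (by linarith)

theorem chi_nonneg (t : ℝ) : 0 ≤ chi t := Real.smoothTransition.nonneg _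

theorem chi_le_one (t : ℝ) : chi t ≤ 1 := Real.smoothTransition.le_one _

end Pool.Agent.HAF2
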