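import Pool.Agent.HAF2.ChPol
import Pool.Agent.HAF2.ChDer

/-!
# Module CH8: the frames of the hyperbolic blocks, positivity and smoothness

`kN two = 1` for `two = false` and `2` for `two = true` is the rotation number on the side `t > 0`.
-/

namespace Pool.Agent.HAF2

open Filter Topology MeasureTheory
open scoped ContDiff ComplexConjugate

/-- the rotation number on the side `t > 0` -/
def kN (two : Bool) : ℕ := if two = true then 2 else 1

/-! ## Auxiliary facts -/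

theorem chf_mem_U (p : EH) (hp : p ∈ sphU hypM) : p.1 ∈ hU := hp.1

theorem chf_normSq_pos (p : EH) (hy : p.2.1 ≠ 0) : 0 < Complex.normSq p.2.1 :=
  Complex.normSq_pos.2 hy

theorem chf_norm_pos (p : EH) (hy : p.2.1 ≠ 0) : 0 < ‖p.2.1‖ := norm_pos_iff.2 hy

theorem chf_sqrt_pos (p : EH) (hp : p ∈ sphU hypM) : 0 < Real.sqrt (mmf p) :=
  Real.sqrt_pos.2 (mmf_pos p hp)

theorem chf_lamf_pos (p : EH) (hp : p ∈ sphU hypM) (ht : p.2.2 ≠ 0) : 0 < lamf p :=
  one_div_pos.2 (Real.sqrt_pos.2 (mul_pos (dl_pos _ ht) (chf_sqrt_pos p hp)))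

theorem chf_mu1N_pos (p : EH) (hp : p ∈ sphU hypM) (hy : p.2.1 ≠ 0) (ht : p.2.2 ≠ 0) :
    0 < mu1N p := by
  have h1 := kap_pos p hp hy
  have h2 := dl_pos _ ht
  have h3 := chf_sqrt_pos p hp
  have h4 : 0 < |p.2.2| := abs_pos.2 ht
  unfold mu1N
  positivity

theorem chf_mu2N_pos (p : EH) (hp : p ∈ sphU hypM) (hy : p.2.1 ≠ 0) : 0 < mu2N p := by
  have h1 := kap_pos p hp hy
  unfold mu2N
  positivity

theorem chf_nd_pos (p : EH) (hy : p.2.1 ≠ 0) : 0 < Complex.normSq p.2.1 + dl p.2.2 ^ 2 := by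
  have h1 := chf_normSq_pos p hy
  positivity

theorem chf_mu1V_pos (p : EH) (hp : p ∈ sphU hypM) (hy : p.2.1 ≠ 0) (ht : p.2.2 ≠ 0) :
    0 < mu1V p := by
  have h1 := chf_nd_pos p hy
  have h2 := chf_lamf_pos p hp ht
  have h3 := mmf_pos p hp
  have h4 : 0 < |p.2.2| := abs_pos.2 ht
  have h5 := chf_norm_pos p hy
  unfold mu1V
  positivity

theorem chf_mu2V_pos (p : EH) (hp : p ∈ sphU hypM) (hy : p.2.1 ≠ 0) (ht : p.2.2 ≠ 0) :
    0 < mu2V p := by
  have h2 := chf_lamf_pos p hp ht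
  have h5 := chf_norm_pos p hy
  unfold mu2V
  positivity

/-- positivity of a convex combination with the two cutoff functions -/
theorem chf_comb_pos (t a b : ℝ) (ha : t ≠ 0 → 0 < a) (hb : t ≠ 0 → 0 < b) :
    0 < chi t * a + chi (-t) * b + (1 - chi t - chi (-t)) := by
  have h1 := chi_nonneg t
  have h2 := chi_le_one t
  have h3 := chi_nonneg (-t)
  have h4 := chi_le_one (-t)
  rcases lt_or_ge t (-(1 / 8)) with h | h
  · have h5 : chi (-t) = 0 := chi_of_ge _ (by linarith)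
    have h6 : 0 < a := ha (by linarith)
    rw [h5]
    rcases eq_or_lt_of_le h1 with h7 | h7
    · rw [← h7]; norm_num
    · have := mul_pos h7 h6
      linarith
  · have h5 : chi t = 0 := chi_of_ge _ h
    rw [h5]
    rcases eq_or_lt_of_le h3 with h7 | h7
    · rw [← h7]; norm_num
    · have h8 : t ≠ 0 := by
        rintro rfl
        have := chi_of_ge (-0) (by norm_num)
        linarith
      have := mul_pos h7 (hb h8)
      linarith

theorem mu1_pos (two : Bool) (p : EH) (hp : p ∈ sphU hypM) (hy : p.2.1 ≠ 0) : 0 < mu1 two p := by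
  unfold mu1
  refine chf_comb_pos _ _ _ (fun h => chf_mu1N_pos p hp hy h) (fun h => ?_)
  split_ifs
  · exact chf_mu1N_pos p hp hy h
  · exact chf_mu1V_pos p hp hy h

theorem mu2_pos (two : Bool) (p : EH) (hp : p ∈ sphU hypM) (hy : p.2.1 ≠ 0) : 0 < mu2 two p := by
  unfold mu2
  refine chf_comb_pos _ _ _ (fun _ => chf_mu2N_pos p hp hy) (fun h => ?_)
  split_ifs
  · exact chf_mu2N_pos p hp hy
  · exact chf_mu2V_pos p hp hy h

/-! ## Smoothness -/

theorem chf_sphU_nhds (p : EH) (hp : p ∈ sphU hypM) : sphU hypM ∈ 𝓝 p :=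
  (isOpen_sphU hypM).mem_nhds hp

theorem chf_cd_y (p : EH) : ContDiffAt ℝ ∞ (fun q : EH => q.2.1) p :=
  (contDiff_fst.comp contDiff_snd).contDiffAt

theorem chf_cd_t (p : EH) : ContDiffAt ℝ ∞ (fun q : EH => q.2.2) p :=
  (contDiff_snd.comp contDiff_snd).contDiffAt

theorem chf_cd_mmf (p : EH) : ContDiffAt ℝ ∞ mmf p := contDiffOn_mmf.contDiffAt

theorem chf_cd_sqrt (p : EH) (hp : p ∈ sphU hypM) :
    ContDiffAt ℝ ∞ (fun q => Real.sqrt (mmf q)) p :=
  (chf_cd_mmf p).sqrt (mmf_pos p hp).ne'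

theorem chf_cd_dl (p : EH) : ContDiffAt ℝ ∞ (fun q : EH => dl q.2.2) p :=
  contDiff_dl.contDiffAt.comp p (chf_cd_t p)

theorem chf_cd_kap (p : EH) (hp : p ∈ sphU hypM) (hy : p.2.1 ≠ 0) : ContDiffAt ℝ ∞ kap p := by
  have h1 : ContDiffAt ℝ ∞ hq p := contDiffOn_hq.contDiffAt (chf_sphU_nhds p hp)
  have h2 : hq p ≠ 0 := by
    have := kap_pos p hp hy
    exact norm_pos_iff.1 this
  exact h1.norm ℝ h2

theorem chf_cd_abs (p : EH) (ht : p.2.2 ≠ 0) :
    ContDiffAt ℝ ∞ (fun q : EH => |q.2.2|) p :=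
  ((contDiffAt_norm ℝ ht).comp p (chf_cd_t p) :)

theorem chf_cd_normSq (p : EH) : ContDiffAt ℝ ∞ (fun q : EH => Complex.normSq q.2.1) p :=
  hym_contDiff_normSq.contDiffAt.comp p (chf_cd_y p)

theorem chf_cd_lamf (p : EH) (hp : p ∈ sphU hypM) (ht : p.2.2 ≠ 0) : ContDiffAt ℝ ∞ lamf p := by
  refine contDiffOn_lamf.contDiffAt ?_
  have h1 : {q : EH | q.2.2 ≠ 0} ∈ 𝓝 p :=
    (isOpen_ne_fun (continuous_snd.comp continuous_snd) continuous_const).mem_nhds ht
  exact Filter.inter_mem (chf_sphU_nhds p hp) h1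

theorem chf_cd_mu1N (p : EH) (hp : p ∈ sphU hypM) (hy : p.2.1 ≠ 0) (ht : p.2.2 ≠ 0) :
    ContDiffAt ℝ ∞ mu1N p := by
  unfold mu1N
  refine (((chf_cd_abs p ht).pow 3).mul (chf_cd_sqrt p hp)).div
    ((contDiffAt_const.mul (chf_cd_kap p hp hy)).mul (chf_cd_dl p)) ?_
  have h1 := kap_pos p hp hy
  have h2 := dl_pos _ ht
  positivity

theorem chf_cd_mu2N (p : EH) (hp : p ∈ sphU hypM) (hy : p.2.1 ≠ 0) :
    ContDiffAt ℝ ∞ mu2N p := by
  unfold mu2N
  refine contDiffAt_const.div (contDiffAt_const.mul (chf_cd_kap p hp hy)) ?_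
  have h1 := kap_pos p hp hy
  positivity

theorem chf_cd_mu1V (p : EH) (hp : p ∈ sphU hypM) (hy : p.2.1 ≠ 0) (ht : p.2.2 ≠ 0) :
    ContDiffAt ℝ ∞ mu1V p := by
  unfold mu1V
  refine (((chf_cd_abs p ht).pow 3).mul (chf_cd_mmf p)).div
    (((chf_cd_lamf p hp ht).mul ((chf_cd_normSq p).add ((chf_cd_dl p).pow 2))).mul
      ((chf_cd_y p).norm ℝ hy)) ?_
  have h1 := chf_nd_pos p hy
  have h2 := chf_lamf_pos p hp ht
  have h5 := chf_norm_pos p hy
  positivity

theorem chf_cd_mu2V (p : EH) (hp : p ∈ sphU hypM) (hy : p.2.1 ≠ 0) (ht : p.2.2 ≠ 0) :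
    ContDiffAt ℝ ∞ mu2V p := by
  unfold mu2V
  refine contDiffAt_const.div ((chf_cd_lamf p hp ht).mul ((chf_cd_y p).norm ℝ hy)) ?_
  have h2 := chf_lamf_pos p hp ht
  have h5 := chf_norm_pos p hy
  positivity

theorem chf_cd_chi (p : EH) : ContDiffAt ℝ ∞ (fun q : EH => chi q.2.2) p :=
  contDiff_chi.contDiffAt.comp p (chf_cd_t p)

theorem chf_cd_chi_neg (p : EH) : ContDiffAt ℝ ∞ (fun q : EH => chi (-q.2.2)) p :=
  contDiff_chi.contDiffAt.comp p (chf_cd_t p).neg

/-- a combination with the cutoff functions is `1` near `t = 0` -/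
theorem chf_comb_smooth (f g : EH → ℝ) (p : EH) (hf : p.2.2 ≠ 0 → ContDiffAt ℝ ∞ f p)
    (hg : p.2.2 ≠ 0 → ContDiffAt ℝ ∞ g p) :
    ContDiffAt ℝ ∞ (fun q : EH => chi q.2.2 * f q + chi (-q.2.2) * g q +
      (1 - chi q.2.2 - chi (-q.2.2))) p := by
  rcases eq_or_ne p.2.2 0 with h | h
  · have h1 : (fun q : EH => chi q.2.2 * f q + chi (-q.2.2) * g q +
      (1 - chi q.2.2 - chi (-q.2.2))) =ᶠ[𝓝 p] fun _ => (1 : ℝ) := by
      have h2 : {q : EH | q.2.2 ∈ Set.Ioo (-(1 / 8) : ℝ) (1 / 8)} ∈ 𝓝 p := by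
        have h3 : Set.Ioo (-(1 / 8) : ℝ) (1 / 8) ∈ 𝓝 p.2.2 := by
          rw [h]
          exact Ioo_mem_nhds (by norm_num) (by norm_num)
        exact (continuous_snd.comp continuous_snd).continuousAt.preimage_mem_nhds h3
      filter_upwards [h2] with q hq
      have hq1 : -(1 / 8) < q.2.2 := hq.1
      have hq2 : q.2.2 < 1 / 8 := hq.2
      rw [chi_of_ge q.2.2 hq1.le, chi_of_ge (-q.2.2) (by linarith)]
      ring
    exact contDiffAt_const.congr_of_eventuallyEq h1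
  · exact (((chf_cd_chi p).mul (hf h)).add ((chf_cd_chi_neg p).mul (hg h))).add
      ((contDiffAt_const.sub (chf_cd_chi p)).sub (chf_cd_chi_neg p))

theorem chf_cd_mu1 (two : Bool) (p : EH) (hp : p ∈ sphU hypM) (hy : p.2.1 ≠ 0) :
    ContDiffAt ℝ ∞ (mu1 two) p := by
  cases two
  · exact chf_comb_smooth mu1N mu1V p (fun h => chf_cd_mu1N p hp hy h)
      (fun h => chf_cd_mu1V p hp hy h)
  · exact chf_comb_smooth mu1N mu1N p (fun h => chf_cd_mu1N p hp hy h)
      (fun h => chf_cd_mu1N p hp hy h)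

theorem chf_cd_mu2 (two : Bool) (p : EH) (hp : p ∈ sphU hypM) (hy : p.2.1 ≠ 0) :
    ContDiffAt ℝ ∞ (mu2 two) p := by
  cases two
  · exact chf_comb_smooth mu2N mu2V p (fun _ => chf_cd_mu2N p hp hy)
      (fun h => chf_cd_mu2V p hp hy h)
  · exact chf_comb_smooth mu2N mu2N p (fun _ => chf_cd_mu2N p hp hy)
      (fun _ => chf_cd_mu2N p hp hy)

/-- the rotation direction as a linear function of `y` -/
noncomputable def chfRot : ℂ →L[ℝ] (ℂ →L[ℝ] EH) :=
  (ContinuousLinearMap.compL ℝ ℂ ℂ EH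
    (ContinuousLinearMap.inr ℝ (ℝ × ℂ) (ℂ × ℝ) ∘L ContinuousLinearMap.inl ℝ ℂ ℝ)) ∘L
    (ContinuousLinearMap.smulRightL ℝ ℂ ℂ Complex.imCLM) ∘L mulC Complex.I

theorem chfRot_apply (y c : ℂ) : chfRot y c = (0, (c.im : ℝ) • (Complex.I * y), 0) := by
  simp [chfRot]

theorem chf_bR_eq (two : Bool) (p : EH) : bR two p = mu2 two p • chfRot p.2.1 +
    mu1 two p • ((ContinuousLinearMap.inr ℝ (ℝ × ℂ) (ℂ × ℝ) ∘L
      ContinuousLinearMap.inr ℝ ℂ ℝ) ∘L Complex.reCLM) := by
  ext c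
  · simp [bR_apply, chfRot_apply]
  · simp [bR_apply, chfRot_apply]
  · simp [bR_apply, chfRot_apply, mul_assoc]
  · simp [bR_apply, chfRot_apply]

theorem contDiffAt_bR (two : Bool) (p : EH) (hp : p ∈ sphU hypM) (hy : p.2.1 ≠ 0) :
    ContDiffAt ℝ ∞ (bR two) p := by
  have h : bR two = fun q : EH => mu2 two q • chfRot q.2.1 +
    mu1 two q • ((ContinuousLinearMap.inr ℝ (ℝ × ℂ) (ℂ × ℝ) ∘L
      ContinuousLinearMap.inr ℝ ℂ ℝ) ∘L Complex.reCLM) := funext (chf_bR_eq two)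
  rw [h]
  exact ((chf_cd_mu2 two p hp hy).smul (chfRot.contDiff.contDiffAt.comp p (chf_cd_y p))).add
    ((chf_cd_mu1 two p hp hy).smul contDiffAt_const)

/-! ## Invariance -/

theorem chf_norm_J (l : Lam) (p : EH) (hp : p ∈ sphU hypM) : ‖hypL.J l p.1‖ = 1 :=
  hypL.norm_J l p.1 hp.1

theorem chf_kap_act (l : Lam) (p : EH) (hp : p ∈ sphU hypM) :
    kap (sphAct hypM hypL l p) = kap p := by
  have h : ‖hj (gel l) p.1‖ = 1 := norm_hj (gel l) p.1 hp.1
  rw [kap, hq_act l p hp, norm_mul, norm_pow, h, one_pow, one_mul, kap]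

theorem chf_norm_act (l : Lam) (p : EH) (hp : p ∈ sphU hypM) :
    ‖(sphAct hypM hypL l p).2.1‖ = ‖p.2.1‖ := by
  show ‖hypL.J l p.1 * p.2.1‖ = _
  rw [norm_mul, chf_norm_J l p hp, one_mul]

theorem chf_normSq_act (l : Lam) (p : EH) (hp : p ∈ sphU hypM) :
    Complex.normSq (sphAct hypM hypL l p).2.1 = Complex.normSq p.2.1 := by
  rw [Complex.normSq_eq_norm_sq, Complex.normSq_eq_norm_sq, chf_norm_act l p hp]

theorem chf_t_act (l : Lam) (p : EH) : (sphAct hypM hypL l p).2.2 = p.2.2 := rfl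

theorem chf_mu1_act (two : Bool) (l : Lam) (p : EH) (hp : p ∈ sphU hypM) :
    mu1 two (sphAct hypM hypL l p) = mu1 two p := by
  simp only [mu1, mu1N, mu1V, chf_t_act, chf_kap_act l p hp, mmf_act l p hp, lamf_act l p hp,
    chf_norm_act l p hp, chf_normSq_act l p hp]

theorem chf_mu2_act (two : Bool) (l : Lam) (p : EH) (hp : p ∈ sphU hypM) :
    mu2 two (sphAct hypM hypL l p) = mu2 two p := by
  simp only [mu2, mu2N, mu2V, chf_t_act, chf_kap_act l p hp, lamf_act l p hp,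
    chf_norm_act l p hp]

/-- the lift is invariant -/
theorem bR_act (two : Bool) (l : Lam) (p : EH) (hp : p ∈ sphU hypM) :
    fderiv ℝ (sphAct hypM hypL l) p ∘L bR two p = bR two (sphAct hypM hypL l p) := by
  refine ContinuousLinearMap.ext fun c => ?_
  rw [ContinuousLinearMap.comp_apply, bR_apply, bR_apply, fderiv_sphAct hypM hypL l p hp,
    chf_mu1_act two l p hp, chf_mu2_act two l p hp]
  simp only [map_zero, zero_mul, zero_add]
  refine Prod.ext rfl (Prod.ext ?_ rfl)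
  show hypL.J l p.1 * ((mu2 two p * c.im : ℝ) • (Complex.I * p.2.1)) =
    (mu2 two p * c.im : ℝ) • (Complex.I * (hypL.J l p.1 * p.2.1))
  rw [mul_smul_comm]
  congr 1
  ring

/-! ## Linear maps of the plane -/

/-- the determinant of a real linear map of the plane -/
theorem chf_det (A : ℂ →L[ℝ] ℂ) : A.det = (conj (A 1) * A Complex.I).im := by
  have h : A.det = LinearMap.det (A : ℂ →ₗ[ℝ] ℂ) := rfl
  rw [h, ← LinearMap.det_toMatrix Complex.basisOneI, Matrix.det_fin_two]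
  simp only [LinearMap.toMatrix_apply, Complex.coe_basisOneI, Complex.coe_basisOneI_repr]
  simp [Complex.mul_im]
  ring

theorem chf_det_pos (A : ℂ →L[ℝ] ℂ) (w : ℂ) (hw : w ≠ 0) (a b : ℝ) (hab : 0 < a * b)
    (h1 : A 1 = (a : ℂ) * w) (h2 : A Complex.I = (b : ℂ) * (Complex.I * w)) : 0 < A.det := by
  rw [chf_det, h1, h2]
  have h3 : (conj ((a : ℂ) * w) * ((b : ℂ) * (Complex.I * w))).im = a * b * Complex.normSq w := by
    simp only [Complex.mul_im, Complex.mul_re, Complex.conj_re, Complex.conj_im,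
      Complex.ofReal_re, Complex.ofReal_im, Complex.I_re, Complex.I_im, Complex.normSq_apply,
      map_mul, Complex.conj_ofReal]
    ring
  rw [h3]
  exact mul_pos hab (Complex.normSq_pos.2 hw)

/-- a real linear map of the plane is determined by the images of `1` and `I` -/
theorem chf_ext (A B : ℂ →L[ℝ] ℂ) (h1 : A 1 = B 1) (h2 : A Complex.I = B Complex.I) : A = B := by
  refine ContinuousLinearMap.ext fun c => ?_
  have hc : c = c.re • (1 : ℂ) + c.im • Complex.I := by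
    rw [Complex.real_smul, Complex.real_smul, mul_one]
    exact (Complex.re_add_im c).symm
  rw [hc, map_add, map_add, map_smul, map_smul, map_smul, map_smul, h1, h2]

theorem chf_bR_one (two : Bool) (p : EH) :
    bR two p 1 = mu1 two p • ((0 : ℝ × ℂ), (0 : ℂ), (1 : ℝ)) := by
  rw [bR_apply]
  refine Prod.ext ?_ (Prod.ext ?_ ?_) <;> simp

theorem chf_bR_I (two : Bool) (p : EH) :
    bR two p Complex.I = mu2 two p • ((0 : ℝ × ℂ), Complex.I * p.2.1, (0 : ℝ)) := by
  rw [bR_apply]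
  refine Prod.ext ?_ (Prod.ext ?_ ?_) <;> simp

theorem chf_yhat_ne (p : EH) (hy : p.2.1 ≠ 0) : yhat p ≠ 0 := by
  have h := chf_norm_pos p hy
  have : (‖p.2.1‖ : ℂ) ≠ 0 := by exact_mod_cast h.ne'
  exact div_ne_zero hy this

theorem chf_dMz_ne (p : EH) (hp : p ∈ sphU hypM) : dMz (hz p.1) (hq p) ≠ 0 :=
  dMz_ne_zero _ _ (normSq_hz_lt p.1 hp.1) (normSq_hq_le p hp)

/-- the images of `1` and `I` on the hyperbolic side -/
theorem chf_hP_one (two : Bool) (p : EH) (hp : p ∈ sphU hypM) (hy : p.2.1 ≠ 0)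
    (ht : p.2.2 ≠ 0) : (fderiv ℝ hP p ∘L bR two p) 1 =
      ((mu1 two p * (-(2 * kap p * dl p.2.2 / (p.2.2 ^ 3 * Real.sqrt (mmf p)))) : ℝ) : ℂ) *
        (dMz (hz p.1) (hq p) * yhat p ^ 2) := by
  rw [ContinuousLinearMap.comp_apply, chf_bR_one, map_smul, fderiv_hP_time p hp hy ht,
    Complex.real_smul, Complex.ofReal_mul]
  ring

theorem chf_hP_I (two : Bool) (p : EH) (hp : p ∈ sphU hypM) (hy : p.2.1 ≠ 0) :
    (fderiv ℝ hP p ∘L bR two p) Complex.I =
      ((mu2 two p * (2 * kap p) : ℝ) : ℂ) * (Complex.I * (dMz (hz p.1) (hq p) * yhat p ^ 2)) := by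
  rw [ContinuousLinearMap.comp_apply, chf_bR_I, map_smul, fderiv_hP_rot p hp hy,
    Complex.real_smul, Complex.ofReal_mul, Complex.ofReal_mul]
  push_cast
  ring

theorem det_hP_bR_pos (two : Bool) (p : EH) (hp : p ∈ sphU hypM) (hy : p.2.1 ≠ 0)
    (ht : p.2.2 < 0) : 0 < (fderiv ℝ hP p ∘L bR two p).det := by
  have h1 := kap_pos p hp hy
  have h2 := dl_pos _ ht.ne
  have h3 := chf_sqrt_pos p hp
  have h4 := mu1_pos two p hp hy
  have h5 := mu2_pos two p hp hy
  have h6 : 0 < -(2 * kap p * dl p.2.2 / (p.2.2 ^ 3 * Real.sqrt (mmf p))) := by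
    rw [← div_neg, ← neg_mul]
    have h7 : 0 < -p.2.2 ^ 3 := by
      have := pow_pos (neg_pos.2 ht) 3
      rwa [Odd.neg_pow (by decide)] at this
    positivity
  exact chf_det_pos _ _ (mul_ne_zero (chf_dMz_ne p hp) (pow_ne_zero 2 (chf_yhat_ne p hy))) _ _
    (by positivity) (chf_hP_one two p hp hy ht.ne) (chf_hP_I two p hp hy)

theorem chf_contDiffAt_hP (p : EH) (hp : p ∈ sphU hypM) : ContDiffAt ℝ ∞ hP p :=
  contDiffOn_hP.contDiffAt (chf_sphU_nhds p hp)

/-- the derivative of the mirror image of the hyperbolic map -/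
theorem chf_fderiv_V_true (p : EH) (hp : p ∈ sphU hypM) :
    fderiv ℝ (cf true Ch.V) p = (Complex.conjCLE : ℂ →L[ℝ] ℂ) ∘L fderiv ℝ hP p := by
  have h : cf true Ch.V = fun q => (Complex.conjCLE : ℂ →L[ℝ] ℂ) (hP q) := by
    funext q
    simp [cf]
  have h1 : DifferentiableAt ℝ hP p := (chf_contDiffAt_hP p hp).differentiableAt (by simp)
  rw [h]
  exact ((Complex.conjCLE : ℂ →L[ℝ] ℂ).hasFDerivAt.comp p h1.hasFDerivAt).fderiv

theorem chf_V_false : cf false Ch.V = hV := by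
  funext q
  simp [cf]

theorem chf_hV_one (p : EH) (hp : p ∈ sphU hypM) (ht : 0 < p.2.2) :
    (fderiv ℝ hV p ∘L bR false p) 1 =
      ((mu1 false p * (-(lamf p * (Complex.normSq p.2.1 + dl p.2.2 ^ 2) /
      (p.2.2 ^ 3 * mmf p))) : ℝ) : ℂ) * conj (hv p) := by
  rw [ContinuousLinearMap.comp_apply, chf_bR_one, map_smul, fderiv_hV_time p hp ht,
    Complex.real_smul, Complex.ofReal_mul]
  ring

theorem chf_hV_I (p : EH) (hp : p ∈ sphU hypM) (ht : 0 < p.2.2) :
    (fderiv ℝ hV p ∘L bR false p) Complex.I =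
      ((mu2 false p * lamf p : ℝ) : ℂ) * conj (hA p.1 (Complex.I * p.2.1)) := by
  rw [ContinuousLinearMap.comp_apply, chf_bR_I, map_smul, fderiv_hV_rot p hp ht,
    Complex.real_smul, Complex.ofReal_mul]
  ring

/-- the orientation of the frame `hA` -/
theorem chf_hA_orient (X : ℝ × ℂ) (hX : X ∈ hU) (y : ℂ) (hy : y ≠ 0) :
    0 < (conj (hA X y) * hA X (Complex.I * y)).im := by
  have h1 := hN_pos X hX
  have h2 := add_hN_pos X hX
  have h3 := hN_sq X hX
  set s := Real.sqrt (2 * hN X * (X.1 + hN X)) with hs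
  have hs0 : 0 < s := Real.sqrt_pos.2 (by positivity)
  have h4 : (conj (hA X y) * hA X (Complex.I * y)).im =
      ((X.1 + hN X) ^ 2 - Complex.normSq X.2) * Complex.normSq y / s ^ 2 := by
    have h5 : conj (hA X y) * hA X (Complex.I * y) =
        (((s ^ 2)⁻¹ : ℝ) : ℂ) * (conj (((X.1 + hN X : ℝ) : ℂ) * y + X.2 * conj y) *
          (((X.1 + hN X : ℝ) : ℂ) * (Complex.I * y) + X.2 * conj (Complex.I * y))) := by
      rw [hA, hA, ← hs, map_div₀, Complex.conj_ofReal]
      push_cast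
      ring
    rw [h5, Complex.im_ofReal_mul]
    simp only [Complex.mul_im, Complex.mul_re, Complex.add_re, Complex.add_im, Complex.conj_re,
      Complex.conj_im, Complex.ofReal_re, Complex.ofReal_im, Complex.I_re, Complex.I_im,
      Complex.normSq_apply, map_mul, map_add, Complex.conj_ofReal, Complex.conj_conj]
    rw [div_eq_inv_mul]
    ring
  rw [h4]
  have h6 : 0 < (X.1 + hN X) ^ 2 - Complex.normSq X.2 := by nlinarith
  have h7 := Complex.normSq_pos.2 hy
  positivity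

theorem det_V_bR_pos (two : Bool) (p : EH) (hp : p ∈ sphU hypM) (hy : p.2.1 ≠ 0)
    (ht : 0 < p.2.2) : 0 < (fderiv ℝ (cf two Ch.V) p ∘L bR two p).det := by
  have h1 := kap_pos p hp hy
  have h2 := dl_pos _ ht.ne'
  have h3 := chf_sqrt_pos p hp
  have h4 := mu1_pos two p hp hy
  have h5 := mu2_pos two p hp hy
  cases two
  · rw [chf_V_false, chf_det, chf_hV_one p hp ht, chf_hV_I p hp ht]
    have h6 := chf_hA_orient p.1 hp.1 p.2.1 hy
    have h7 := chf_lamf_pos p hp ht.ne'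
    have h8 := chf_nd_pos p hy
    have h9 := mmf_pos p hp
    have h10 : (conj (((mu1 false p * (-(lamf p * (Complex.normSq p.2.1 + dl p.2.2 ^ 2) /
      (p.2.2 ^ 3 * mmf p))) : ℝ) : ℂ) * conj (hv p)) *
        (((mu2 false p * lamf p : ℝ) : ℂ) * conj (hA p.1 (Complex.I * p.2.1)))).im =
        (mu1 false p * (lamf p * (Complex.normSq p.2.1 + dl p.2.2 ^ 2) /
      (p.2.2 ^ 3 * mmf p))) * (mu2 false p * lamf p) *
        (conj (hv p) * hA p.1 (Complex.I * p.2.1)).im := by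
      simp only [Complex.mul_im, Complex.mul_re, Complex.conj_re, Complex.conj_im,
        Complex.ofReal_re, Complex.ofReal_im, map_mul, Complex.conj_ofReal, Complex.conj_conj]
      ring
    rw [h10]
    have h11 : 0 < (conj (hv p) * hA p.1 (Complex.I * p.2.1)).im := h6
    positivity
  · rw [chf_fderiv_V_true p hp, ContinuousLinearMap.comp_assoc]
    have hw : conj (dMz (hz p.1) (hq p) * yhat p ^ 2) ≠ 0 := by
      rw [Ne, map_eq_zero]
      exact mul_ne_zero (chf_dMz_ne p hp) (pow_ne_zero 2 (chf_yhat_ne p hy))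
    refine chf_det_pos _ _ hw
      (mu1 true p * (-(2 * kap p * dl p.2.2 / (p.2.2 ^ 3 * Real.sqrt (mmf p)))))
      (-(mu2 true p * (2 * kap p))) ?_ ?_ ?_
    · have : 0 < (mu1 true p * (2 * kap p * dl p.2.2 / (p.2.2 ^ 3 * Real.sqrt (mmf p)))) *
        (mu2 true p * (2 * kap p)) := by positivity
      nlinarith
    · rw [ContinuousLinearMap.comp_apply, chf_hP_one true p hp hy ht.ne']
      show conj _ = _
      rw [map_mul, Complex.conj_ofReal]
    · rw [ContinuousLinearMap.comp_apply, chf_hP_I true p hp hy]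
      show conj _ = _
      rw [map_mul, map_mul, Complex.conj_ofReal, Complex.conj_I]
      push_cast
      ring

theorem chf_fM_ne (two : Bool) (p : EH) (hp : p ∈ cdom two Ch.M) : fM two p ≠ 0 := by
  have h1 : YZ two p ≠ 0 := hp.2.2.1
  have h2 : (‖YZ two p‖ : ℂ) ≠ 0 := by exact_mod_cast norm_ne_zero_iff.2 h1
  have h3 : (Real.exp (rr two p) : ℂ) ≠ 0 := by exact_mod_cast (Real.exp_pos _).ne'
  exact mul_ne_zero h3 (div_ne_zero h1 h2)

/-- for `t ≠ 0` use `trans_HM`, `trans_VM` and the chain rule, for `t = 0` the explicit derivative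
and `det_pos_of_polar` -/
theorem det_fM_bR_pos (two : Bool) (p : EH) (hp : p ∈ cdom two Ch.M) :
    0 < (fderiv ℝ (fM two) p ∘L bR two p).det := by
  have hpU : p ∈ sphU hypM := hp.1
  have hy : p.2.1 ≠ 0 := hp.2.1
  have key : ∀ f : EH → ℂ, DifferentiableAt ℝ f p →
      0 < (fderiv ℝ f p ∘L bR two p).det →
      (∃ γ : ℂ → ℂ, ContDiffAt ℝ ∞ γ (f p) ∧ 0 < (fderiv ℝ γ (f p)).det ∧
        ∀ᶠ y in 𝓝 p, γ (f y) = fM two y) → 0 < (fderiv ℝ (fM two) p ∘L bR two p).det := by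
    rintro f hf hdet ⟨γ, h1, h2, h3⟩
    have h4 : fderiv ℝ (fM two) p = fderiv ℝ γ (f p) ∘L fderiv ℝ f p := by
      have h5 : fM two =ᶠ[𝓝 p] γ ∘ f := by
        filter_upwards [h3] with y hy using hy.symm
      rw [h5.fderiv_eq]
      exact fderiv_comp p (h1.differentiableAt (by simp)) hf
    rw [h4, ContinuousLinearMap.comp_assoc]
    have h6 : (fderiv ℝ γ (f p) ∘L (fderiv ℝ f p ∘L bR two p)).det =
        (fderiv ℝ γ (f p)).det * (fderiv ℝ f p ∘L bR two p).det := by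
      exact LinearMap.det_comp (fderiv ℝ γ (f p) : ℂ →ₗ[ℝ] ℂ)
        ((fderiv ℝ f p ∘L bR two p : ℂ →L[ℝ] ℂ) : ℂ →ₗ[ℝ] ℂ)
    rw [h6]
    exact mul_pos h2 hdet
  rcases lt_trichotomy p.2.2 0 with ht | ht | ht
  · exact key hP ((chf_contDiffAt_hP p hpU).differentiableAt (by simp))
      (det_hP_bR_pos two p hpU hy ht) (trans_HM two p hp ht)
  · refine chf_det_pos _ _ (chf_fM_ne two p hp) (mu1 two p)
      (mu2 two p * (2 * Complex.normSq p.2.1 / Complex.normSq (hv p))) ?_ ?_ ?_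
    · have h1 := mu1_pos two p hpU hy
      have h2 := mu2_pos two p hpU hy
      have h3 := chf_normSq_pos p hy
      have h4 := Complex.normSq_pos.2 (hv_ne_zero p hpU hy)
      positivity
    · rw [ContinuousLinearMap.comp_apply, chf_bR_one, map_smul, fderiv_fM_time two p hpU ht,
        Complex.real_smul]
    · rw [ContinuousLinearMap.comp_apply, chf_bR_I, map_smul, fderiv_fM_rot two p hpU ht,
        Complex.real_smul, Complex.ofReal_mul]
      ring
  · have h1 : p ∈ cdom two Ch.V := ⟨hpU, ht⟩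
    exact key (cf two Ch.V)
      (((contDiffOn_cf two Ch.V).contDiffAt
        ((isOpen_cdom two Ch.V).mem_nhds h1)).differentiableAt (by simp))
      (det_V_bR_pos two p hpU hy ht) (trans_VM two p hp ht)

theorem chf_mu_N (two : Bool) (p : EH) (ht : p.2.2 < -(1 / 4)) :
    mu1 two p = mu1N p ∧ mu2 two p = mu2N p := by
  have h1 : chi p.2.2 = 1 := chi_of_le _ ht.le
  have h2 : chi (-p.2.2) = 0 := chi_of_ge _ (by linarith)
  constructor
  · rw [mu1, h1, h2]; ring
  · rw [mu2, h1, h2]; ring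

theorem chf_mu_S (two : Bool) (p : EH) (ht : 1 / 4 < p.2.2) :
    mu1 two p = (if two = true then mu1N p else mu1V p) ∧
    mu2 two p = (if two = true then mu2N p else mu2V p) := by
  have h1 : chi p.2.2 = 0 := chi_of_ge _ (by linarith)
  have h2 : chi (-p.2.2) = 1 := chi_of_le _ (by linarith)
  constructor
  · rw [mu1, h1, h2]; ring
  · rw [mu2, h1, h2]; ring

/-- on the patch `N` the frame of the patch `R` is `dMz * ŷ²` -/
theorem fderiv_hP_bR (two : Bool) (p : EH) (hp : p ∈ patchDom hypM Patch.N) (hy : p.2.1 ≠ 0) :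
    fderiv ℝ hP p ∘L bR two p = mulC (dMz (hz p.1) (hq p) * yhat p ^ 2) := by
  have hpU : p ∈ sphU hypM := hp.1
  have ht : p.2.2 < -(1 / 4) := hp.2
  have ht0 : p.2.2 < 0 := by linarith
  have h1 := kap_pos p hpU hy
  have h2 := dl_pos _ ht0.ne
  have h3 := chf_sqrt_pos p hpU
  obtain ⟨e1, e2⟩ := chf_mu_N two p ht
  refine chf_ext _ _ ?_ ?_
  · have h4 : mu1N p * (-(2 * kap p * dl p.2.2 / (p.2.2 ^ 3 * Real.sqrt (mmf p)))) = 1 := by
      rw [mu1N, abs_of_neg ht0]
      have := ht0.ne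
      field_simp
      try ring
    rw [chf_hP_one two p hpU hy ht0.ne, e1, h4, mulC_apply, Complex.ofReal_one, one_mul, mul_one]
  · have h4 : mu2N p * (2 * kap p) = 1 := by
      rw [mu2N]
      field_simp
    rw [chf_hP_I two p hpU hy, e2, h4, mulC_apply, Complex.ofReal_one, one_mul, mul_comm]

theorem chf_hAL_apply (X : ℝ × ℂ) (w : ℂ) : hAL X w = hA X w := by
  simp only [hAL, hA, add_apply, smul_apply, ContinuousLinearMap.comp_apply,
    ContinuousLinearMap.id_apply, mulC_apply, Complex.real_smul]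
  show (((X.1 + hN X : ℝ) / Real.sqrt (2 * hN X * (X.1 + hN X)) : ℝ) : ℂ) * w +
    X.2 / (Real.sqrt (2 * hN X * (X.1 + hN X)) : ℂ) * conj w = _
  rw [Complex.ofReal_div]
  ring

theorem chf_hA_smul (X : ℝ × ℂ) (r : ℝ) (w : ℂ) : hA X ((r : ℂ) * w) = (r : ℂ) * hA X w := by
  rw [← Complex.real_smul, ← chf_hAL_apply, map_smul, chf_hAL_apply, Complex.real_smul]

theorem chf_hA_yhat (p : EH) : hA p.1 (yhat p) = ((1 / ‖p.2.1‖ : ℝ) : ℂ) * hA p.1 p.2.1 := by
  have h10 : yhat p = ((1 / ‖p.2.1‖ : ℝ) : ℂ) * p.2.1 := by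
    rw [yhat]
    push_cast
    ring
  rw [h10, chf_hA_smul]

/-- on the patch `S` the frame of the patch `R` is the frame `VS` times `-(conj ŷ)^k` -/
theorem fderiv_V_bR (two : Bool) (p : EH) (hp : p ∈ patchDom hypM Patch.S) (hy : p.2.1 ≠ 0) :
    fderiv ℝ (cf two Ch.V) p ∘L bR two p =
      efr two CIdx.VS p ∘L mulC (-(conj (yhat p)) ^ kN two) := by
  have hpU : p ∈ sphU hypM := hp.1
  have ht : 1 / 4 < p.2.2 := hp.2
  have ht0 : 0 < p.2.2 := by linarith
  have h1 := kap_pos p hpU hy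
  have h2 := dl_pos _ ht0.ne'
  have h3 := chf_sqrt_pos p hpU
  obtain ⟨e1, e2⟩ := chf_mu_S two p ht
  cases two
  · have h4 := chf_lamf_pos p hpU ht0.ne'
    have h5 := chf_nd_pos p hy
    have h6 := mmf_pos p hpU
    have h7 := chf_norm_pos p hy
    have h7c : (‖p.2.1‖ : ℂ) ≠ 0 := by exact_mod_cast h7.ne'
    have f1 : mu1 false p = mu1V p := by rw [e1]; rfl
    have f2 : mu2 false p = mu2V p := by rw [e2]; rfl
    have hefr : ∀ w : ℂ, efr false CIdx.VS p w = conj (hAL p.1 (conj w)) := fun w => rfl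
    rw [chf_V_false]
    refine chf_ext _ _ ?_ ?_
    · have h8 : mu1V p * (-(lamf p * (Complex.normSq p.2.1 + dl p.2.2 ^ 2) /
          (p.2.2 ^ 3 * mmf p))) = -(1 / ‖p.2.1‖) := by
        rw [mu1V, abs_of_pos ht0]
        field_simp
      rw [chf_hV_one p hpU ht0, f1, h8, ContinuousLinearMap.comp_apply, hefr, mulC_apply, mul_one]
      have h9 : conj (-(conj (yhat p)) ^ kN false) = -(yhat p) := by
        simp [kN]
      rw [h9, map_neg, chf_hAL_apply, chf_hA_yhat, map_neg]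
      rw [hv, map_mul, Complex.conj_ofReal]
      push_cast
      ring
    · have h8 : mu2V p * lamf p = 1 / ‖p.2.1‖ := by
        rw [mu2V]
        field_simp
      rw [chf_hV_I p hpU ht0, f2, h8, ContinuousLinearMap.comp_apply, hefr, mulC_apply]
      have h9 : conj (-(conj (yhat p)) ^ kN false * Complex.I) = Complex.I * yhat p := by
        simp [kN, mul_comm]
      rw [h9, chf_hAL_apply]
      have h10 : Complex.I * yhat p = ((1 / ‖p.2.1‖ : ℝ) : ℂ) * (Complex.I * p.2.1) := by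
        rw [yhat]
        push_cast
        ring
      rw [h10, chf_hA_smul, map_mul, Complex.conj_ofReal]
  · have f1 : mu1 true p = mu1N p := by rw [e1]; rfl
    have f2 : mu2 true p = mu2N p := by rw [e2]; rfl
    have hefr : efr true CIdx.VS p = mulC (conj (dMz (hz p.1) (hq p))) := rfl
    have hk : kN true = 2 := rfl
    rw [chf_fderiv_V_true p hpU, hefr, hk, ContinuousLinearMap.comp_assoc]
    refine chf_ext _ _ ?_ ?_
    · have h4 : mu1N p * (-(2 * kap p * dl p.2.2 / (p.2.2 ^ 3 * Real.sqrt (mmf p)))) = -1 := by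
        rw [mu1N, abs_of_pos ht0]
        field_simp
      rw [ContinuousLinearMap.comp_apply, chf_hP_one true p hpU hy ht0.ne', f1, h4,
        ContinuousLinearMap.comp_apply, mulC_apply, mulC_apply]
      show conj _ = _
      rw [map_mul, map_mul, map_pow, Complex.conj_ofReal]
      push_cast
      ring
    · have h4 : mu2N p * (2 * kap p) = 1 := by
        rw [mu2N]
        field_simp
      rw [ContinuousLinearMap.comp_apply, chf_hP_I true p hpU hy, f2, h4,
        ContinuousLinearMap.comp_apply, mulC_apply, mulC_apply]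
      show conj _ = _
      rw [map_mul, map_mul, map_mul, map_pow, Complex.conj_ofReal, Complex.conj_I]
      push_cast
      ring

/-! ## The frames -/

/-- multiplication by a smooth function -/
theorem chf_cd_mulC {f : EH → ℂ} {s : Set EH} (hf : ContDiffOn ℝ ∞ f s) :
    ContDiffOn ℝ ∞ (fun p => mulC (f p)) s :=
  (ContinuousLinearMap.mul ℝ ℂ).contDiff.comp_contDiffOn hf

theorem chf_cd_dMz : ContDiffOn ℝ ∞ (fun p : EH => dMz (hz p.1) (hq p)) (sphU hypM) := by
  have h1 : ContDiffOn ℝ ∞ (fun p : EH => hz p.1) (sphU hypM) :=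
    contDiffOn_hz.comp contDiff_fst.contDiffOn (fun p hp => hp.1)
  have h2 : ContDiffOn ℝ ∞ (fun p : EH => Complex.normSq (hz p.1)) (sphU hypM) :=
    hym_contDiff_normSq.comp_contDiffOn h1
  have h3 : ContDiffOn ℝ ∞ (fun p : EH => ((1 - Complex.normSq (hz p.1) : ℝ) : ℂ))
      (sphU hypM) := Complex.ofRealCLM.contDiff.comp_contDiffOn (contDiffOn_const.sub h2)
  have h4 : ContDiffOn ℝ ∞ (fun p : EH => conj (hz p.1)) (sphU hypM) :=
    Complex.conjCLE.contDiff.comp_contDiffOn h1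
  have h5 : ContDiffOn ℝ ∞ (fun p : EH => ((1 + conj (hz p.1) * hq p) ^ 2)⁻¹) (sphU hypM) := by
    refine ((contDiffOn_const.add (h4.mul contDiffOn_hq)).pow 2).inv (fun p hp => ?_)
    exact pow_ne_zero 2 (Mz_den_ne _ _ (normSq_hz_lt p.1 hp.1) (normSq_hq_le p hp))
  exact h3.mul h5

theorem chf_cd_hAL : ContDiffOn ℝ ∞ hAL hU := by
  have h1 : ContDiffOn ℝ ∞ (fun X : ℝ × ℂ => Real.sqrt (2 * hN X * (X.1 + hN X))) hU := by
    intro X hX
    have h2 := hN_pos X hX
    have h3 := add_hN_pos X hX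
    exact ((contDiffOn_const.mul contDiffOn_hN).mul (contDiffOn_fst.add contDiffOn_hN) X hX).sqrt
      (by positivity)
  have h1n : ∀ X ∈ hU, Real.sqrt (2 * hN X * (X.1 + hN X)) ≠ 0 := fun X hX => by
    have h2 := hN_pos X hX
    have h3 := add_hN_pos X hX
    exact (Real.sqrt_pos.2 (by positivity)).ne'
  have h4 : ContDiffOn ℝ ∞ (fun X : ℝ × ℂ =>
      (X.1 + hN X : ℝ) / Real.sqrt (2 * hN X * (X.1 + hN X))) hU :=
    (contDiffOn_fst.add contDiffOn_hN).div h1 h1n
  have h5 : ContDiffOn ℝ ∞ (fun X : ℝ × ℂ =>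
      ((Real.sqrt (2 * hN X * (X.1 + hN X)) : ℝ) : ℂ)⁻¹) hU :=
    (Complex.ofRealCLM.contDiff.comp_contDiffOn h1).inv
      (fun X hX => Complex.ofReal_ne_zero.2 (h1n X hX))
  have h6 : ContDiffOn ℝ ∞ (fun X : ℝ × ℂ =>
      X.2 / (Real.sqrt (2 * hN X * (X.1 + hN X)) : ℂ)) hU :=
    (contDiffOn_snd.mul h5).congr (fun X _ => div_eq_mul_inv _ _)
  have h7 : ContDiffOn ℝ ∞ (fun X : ℝ × ℂ =>
      mulC (X.2 / (Real.sqrt (2 * hN X * (X.1 + hN X)) : ℂ))) hU :=
    (ContinuousLinearMap.mul ℝ ℂ).contDiff.comp_contDiffOn h6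
  exact (h4.smul contDiffOn_const).add (h7.clm_comp contDiffOn_const)

theorem isOpen_patch_R : IsOpen (patchDom hypM Patch.R) :=
  (isOpen_sphU hypM).inter
    (isOpen_ne_fun (continuous_fst.comp continuous_snd) continuous_const)

/-- derivative of a local map composed with the lift -/
theorem chf_cd_fbR (two : Bool) (c : Ch) (f : EH → ℂ) (hf : ContDiffOn ℝ ∞ f (cdom two c)) :
    ContDiffOn ℝ ∞ (fun p => fderiv ℝ f p ∘L bR two p) (cdom two c ∩ patchDom hypM Patch.R) := by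
  intro p hp
  have h1 : ContDiffAt ℝ ∞ f p := hf.contDiffAt ((isOpen_cdom two c).mem_nhds hp.1)
  have h2 : ContDiffAt ℝ ∞ (fderiv ℝ f) p := h1.fderiv_right (by simp)
  exact (h2.clm_comp (contDiffAt_bR two p hp.2.1 hp.2.2)).contDiffWithinAt

theorem contDiffOn_efr (two : Bool) (i : CIdx) :
    ContDiffOn ℝ ∞ (efr two i) (idom two i) := by
  cases i
  · exact chf_cd_fbR two Ch.H hP (contDiffOn_hP.mono (cdom_subset two Ch.H))
  · exact (chf_cd_mulC chf_cd_dMz).mono (fun p hp => cdom_subset two Ch.H hp.1)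
  · exact chf_cd_fbR two Ch.M (fM two) (contDiffOn_fM two)
  · exact chf_cd_fbR two Ch.V (cf two Ch.V) (contDiffOn_cf two Ch.V)
  · have hsub : idom two CIdx.VS ⊆ sphU hypM := fun p hp => cdom_subset two Ch.V hp.1
    cases two
    · have h1 : ContDiffOn ℝ ∞ (fun p : EH => hAL p.1) (idom false CIdx.VS) :=
        chf_cd_hAL.comp contDiff_fst.contDiffOn (fun p hp => (hsub hp).1)
      exact contDiffOn_const.clm_comp (h1.clm_comp contDiffOn_const)
    · exact chf_cd_mulC (Complex.conjCLE.contDiff.comp_contDiffOn (chf_cd_dMz.mono hsub))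

theorem det_efr_pos (two : Bool) (i : CIdx) (p : EH) (hp : p ∈ idom two i) :
    0 < (efr two i p).det := by
  cases i
  · exact det_hP_bR_pos two p hp.2.1 hp.2.2 hp.1.2
  · have hpU : p ∈ sphU hypM := cdom_subset two Ch.H hp.1
    show 0 < (mulC (dMz (hz p.1) (hq p))).det
    rw [det_mulC]
    exact Complex.normSq_pos.2 (chf_dMz_ne p hpU)
  · exact det_fM_bR_pos two p hp.1
  · exact det_V_bR_pos two p hp.2.1 hp.2.2 hp.1.2
  · have hpU : p ∈ sphU hypM := cdom_subset two Ch.V hp.1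
    cases two
    · rw [chf_det]
      have hefr : ∀ w : ℂ, efr false CIdx.VS p w = conj (hAL p.1 (conj w)) := fun w => rfl
      have h1 := chf_hA_orient p.1 hpU.1 1 one_ne_zero
      rw [hefr, hefr, map_one, Complex.conj_I, map_neg, chf_hAL_apply, chf_hAL_apply, map_neg]
      have h2 : (conj (conj (hA p.1 1)) * -conj (hA p.1 Complex.I)).im =
          (conj (hA p.1 1) * hA p.1 (Complex.I * 1)).im := by
        rw [mul_one, Complex.conj_conj]
        simp only [Complex.mul_im, Complex.neg_re, Complex.neg_im, Complex.conj_re,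
          Complex.conj_im]
        ring
      rw [h2]
      exact h1
    · show 0 < (mulC (conj (dMz (hz p.1) (hq p)))).det
      rw [det_mulC, Complex.normSq_conj]
      exact Complex.normSq_pos.2 (chf_dMz_ne p hpU)

theorem chf_mulC_one (A : ℂ →L[ℝ] ℂ) : A ∘L mulC 1 = A :=
  ContinuousLinearMap.ext fun c => by simp

/-- the frames where `y ≠ 0` -/
theorem efr_eq (two : Bool) (i : CIdx) (p : EH) (hp : p ∈ idom two i) (hy : p.2.1 ≠ 0) :
    efr two i p ∘L mulC (tauS (kN two) i.pt p) = fderiv ℝ (cf two i.ch) p ∘L bR two p := by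
  cases i
  · exact chf_mulC_one _
  · show mulC (dMz (hz p.1) (hq p)) ∘L mulC (yhat p ^ 2) = fderiv ℝ hP p ∘L bR two p
    rw [fderiv_hP_bR two p hp.2 hy]
    exact ContinuousLinearMap.ext fun c => by simp [mul_assoc]
  · exact chf_mulC_one _
  · exact chf_mulC_one _
  · exact (fderiv_V_bR two p hp.2 hy).symm

end Pool.Agent.HAF2
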