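import Pool.Agent.HAF2.Model

/-!
# Module NRM: the cocycle of the normal bundle

`normal_comp` is the chain rule applied to `map_γ`; the smoothness of the normal cocycle follows
from `locConst_γ` and `smooth_γ`.
-/

namespace Pool.Agent.HAF2

open Filter Topology MeasureTheory
open scoped ContDiff
open Pool.Agent.HaefligerClasses (QuotientManifold IsForm HaefligerStructure curvature
  torusElement)

section

variable {E : Type} [NormedAddCommGroup E] [NormedSpace ℝ E] {Λ : Type} [AddGroup Λ]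
variable {M : QuotientManifold E Λ} {V : Type} [NormedAddCommGroup V] [NormedSpace ℝ V]

theorem normal_comp (H : HaefligerStructure M V) (i : H.ι) (a : Λ) (j : H.ι) (x : E)
    (hj : x ∈ H.dom j) (hi : M.act a x ∈ H.dom i) :
    H.normal i a j x ∘L fderiv ℝ (H.f j) x =
      fderiv ℝ (H.f i) (M.act a x) ∘L fderiv ℝ (M.act a) x := by
  have hx : x ∈ M.U := H.dom_subset j hj
  have h1 : DifferentiableAt ℝ (H.f j) x :=
    ((H.smooth_f j).contDiffAt ((H.isOpen_dom j).mem_nhds hj)).differentiableAt (by simp)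
  have h2 : DifferentiableAt ℝ (H.f i) (M.act a x) :=
    ((H.smooth_f i).contDiffAt ((H.isOpen_dom i).mem_nhds hi)).differentiableAt (by simp)
  have h3 : DifferentiableAt ℝ (M.act a) x :=
    ((M.smooth_act a).contDiffAt (M.isOpen_U.mem_nhds hx)).differentiableAt (by simp)
  have h4 : DifferentiableAt ℝ (H.γ i a j x) (H.f j x) :=
    (H.smooth_γ i a j x hj hi).differentiableAt (by simp)
  have h5 : (fun y => H.γ i a j x (H.f j y)) =ᶠ[𝓝 x] fun y => H.f i (M.act a y) :=
    H.map_γ i a j x hj hi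
  have h6 := h5.fderiv_eq (𝕜 := ℝ)
  have h7 := fderiv_comp x h4 h1
  have h8 := fderiv_comp x h2 h3
  exact h7.symm.trans (h6.trans h8)

theorem contDiffAt_normal (H : HaefligerStructure M V) (i : H.ι) (a : Λ) (j : H.ι) (x : E)
    (hj : x ∈ H.dom j) (hi : M.act a x ∈ H.dom i) :
    ContDiffAt ℝ ∞ (fun y => H.normal i a j y) x := by
  have h1 : ContDiffAt ℝ ∞ (H.f j) x := (H.smooth_f j).contDiffAt ((H.isOpen_dom j).mem_nhds hj)
  have h2 : ContDiffAt ℝ ∞ (fderiv ℝ (H.γ i a j x)) (H.f j x) :=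
    (H.smooth_γ i a j x hj hi).fderiv_right (by simp)
  have h3 : ContDiffAt ℝ ∞ (fun y => fderiv ℝ (H.γ i a j x) (H.f j y)) x := h2.comp x h1
  refine h3.congr_of_eventuallyEq ?_
  filter_upwards [H.locConst_γ i a j x hj hi] with y hy
  exact hy.fderiv_eq

/-- the normal cocycle is the derivative of any transition germ, if `f j` is open at `x` -/
theorem normal_eq (H : HaefligerStructure M V) (i : H.ι) (a : Λ) (j : H.ι) (x : E)
    (hj : x ∈ H.dom j) (hi : M.act a x ∈ H.dom i) (ho : 𝓝 (H.f j x) ≤ map (H.f j) (𝓝 x))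
    (γ : V → V) (h : ∀ᶠ y in 𝓝 x, γ (H.f j y) = H.f i (M.act a y)) :
    H.normal i a j x = fderiv ℝ γ (H.f j x) := by
  have h1 : ∀ᶠ v in map (H.f j) (𝓝 x), H.γ i a j x v = γ v := by
    rw [eventually_map]
    filter_upwards [h, H.map_γ i a j x hj hi] with y hy hy'
    rw [hy, hy']
  have h2 : H.γ i a j x =ᶠ[𝓝 (H.f j x)] γ := ho h1
  exact h2.fderiv_eq

end

end Pool.Agent.HAF2
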