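import Pool.Agent.HAF2.SphM

/-!
# Module SCN: the connection of the new root line bundle on the sphere bundle

Use that `yhat (sphAct M L l p) = L.J l p.1 * yhat p` (`‖J‖ = 1`), and that the derivative of
`yhat` at a point with `y ≠ 0` is `I * yhat p * ((conj y * u.2.1).im / normSq y)`.
-/

namespace Pool.Agent.HAF2

open Filter Topology MeasureTheory
open scoped ContDiff ComplexConjugate
open Pool.Agent.HaefligerClasses (QuotientManifold IsForm HaefligerStructure curvature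
  torusElement)

section phase

variable {P : Type} [NormedAddCommGroup P] [NormedSpace ℝ P]

/-- the logarithmic derivative of `φ` at `p` is `I * c` -/
def HasPhase (φ : P → ℂ) (c : P →L[ℝ] ℝ) (p : P) : Prop :=
  HasFDerivAt φ ((Complex.I * φ p) • (Complex.ofRealCLM ∘L c)) p

theorem HasPhase.fderiv_apply {φ : P → ℂ} {c : P →L[ℝ] ℝ} {p : P} (h : HasPhase φ c p) (u : P) :
    fderiv ℝ φ p u = Complex.I * φ p * ((c u : ℝ) : ℂ) := by
  have h1 := h.fderiv
  rw [h1]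
  simp

theorem HasPhase.one (p : P) : HasPhase (fun _ : P => (1 : ℂ)) 0 p := by
  have h : HasFDerivAt (fun _ : P => (1 : ℂ)) (0 : P →L[ℝ] ℂ) p := hasFDerivAt_const _ _
  refine h.congr_fderiv ?_
  ext u
  simp

theorem HasPhase.mul {φ ψ : P → ℂ} {c d : P →L[ℝ] ℝ} {p : P} (h : HasPhase φ c p)
    (k : HasPhase ψ d p) : HasPhase (fun q => φ q * ψ q) (c + d) p := by
  have h1 := HasFDerivAt.fun_mul h k
  refine h1.congr_fderiv ?_
  ext u
  simp
  ring

theorem HasPhase.pow {φ : P → ℂ} {c : P →L[ℝ] ℝ} {p : P} (h : HasPhase φ c p) (n : ℕ) :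
    HasPhase (fun q => φ q ^ n) ((n : ℝ) • c) p := by
  induction n with
  | zero =>
    have h0 := HasPhase.one (P := P) p
    simpa using h0
  | succ n ih =>
    have h1 := ih.mul h
    have h2 : (fun q => φ q ^ (n + 1)) = fun q => φ q ^ n * φ q := by
      funext q
      exact pow_succ _ _
    have h3 : ((n + 1 : ℕ) : ℝ) • c = (n : ℝ) • c + c := by
      push_cast
      rw [add_smul, one_smul]
    rw [h2, h3]
    exact h1

theorem HasPhase.conj {φ : P → ℂ} {c : P →L[ℝ] ℝ} {p : P} (h : HasPhase φ c p) :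
    HasPhase (fun q => conj (φ q)) (-c) p := by
  unfold HasPhase at h ⊢
  have h1 : HasFDerivAt (fun q => conj (φ q))
      ((Complex.conjCLE : ℂ →L[ℝ] ℂ) ∘L ((Complex.I * φ p) • (Complex.ofRealCLM ∘L c))) p :=
    (Complex.conjCLE : ℂ →L[ℝ] ℂ).hasFDerivAt.comp p h
  refine h1.congr_fderiv ?_
  ext u
  simp

theorem HasPhase.neg {φ : P → ℂ} {c : P →L[ℝ] ℝ} {p : P} (h : HasPhase φ c p) :
    HasPhase (fun q => -(φ q)) c p := by
  have h1 := HasFDerivAt.fun_neg h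
  refine h1.congr_fderiv ?_
  ext u
  simp

end phase

section

variable {E : Type} [NormedAddCommGroup E] [NormedSpace ℝ E] {Λ : Type} [AddGroup Λ]
variable (M : QuotientManifold E Λ) (L : ULine M)

theorem isOpen_patchDom (c : Patch) : IsOpen (patchDom M c) := by
  cases c with
  | R =>
    have h : patchDom M Patch.R = sphU M ∩ {p | p.2.1 ≠ 0} := rfl
    rw [h]
    refine (isOpen_sphU M).inter ?_
    exact isOpen_ne_fun (by fun_prop) (by fun_prop)
  | N =>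
    have h : patchDom M Patch.N = sphU M ∩ {p | p.2.2 < -(1 / 4)} := rfl
    rw [h]
    exact (isOpen_sphU M).inter (isOpen_lt (by fun_prop) (by fun_prop))
  | S =>
    have h : patchDom M Patch.S = sphU M ∩ {p | 1 / 4 < p.2.2} := rfl
    rw [h]
    exact (isOpen_sphU M).inter (isOpen_lt (by fun_prop) (by fun_prop))

theorem patchDom_subset (c : Patch) : patchDom M c ⊆ sphU M := by
  cases c <;> exact fun p hp => hp.1

theorem patchDom_cover (p : E × ℂ × ℝ) (hp : p ∈ sphU M) : ∃ c, p ∈ patchDom M c := by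
  rcases hp.2 with h | h
  · exact ⟨Patch.R, hp, h⟩
  · rcases lt_abs.mp h with h1 | h1
    · exact ⟨Patch.S, hp, by linarith⟩
    · exact ⟨Patch.N, hp, by linarith⟩

theorem patchDom_act (c : Patch) (l : Λ) (p : E × ℂ × ℝ) (hp : p ∈ sphU M) :
    sphAct M L l p ∈ patchDom M c ↔ p ∈ patchDom M c := by
  have h1 : sphAct M L l p ∈ sphU M := sphAct_mem M L l p hp
  have h2 := J_ne_zero M L l p.1 hp.1
  cases c with
  | R =>
    constructor
    · intro h
      refine ⟨hp, ?_⟩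
      have h3 : L.J l p.1 * p.2.1 ≠ 0 := h.2
      exact right_ne_zero_of_mul h3
    · intro h
      exact ⟨h1, mul_ne_zero h2 h.2⟩
  | N => exact ⟨fun h => ⟨hp, h.2⟩, fun h => ⟨h1, h.2⟩⟩
  | S => exact ⟨fun h => ⟨hp, h.2⟩, fun h => ⟨h1, h.2⟩⟩

theorem norm_yhat (p : E × ℂ × ℝ) (hy : p.2.1 ≠ 0) : ‖yhat p‖ = 1 := by
  unfold yhat
  rw [norm_div]
  simp [hy]

theorem yhat_act (l : Λ) (p : E × ℂ × ℝ) (hp : p ∈ sphU M) :
    yhat (sphAct M L l p) = L.J l p.1 * yhat p := by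
  unfold yhat sphAct
  simp only
  rw [norm_mul, L.norm_J l p.1 hp.1, one_mul, mul_div_assoc]

theorem contDiffAt_yhat (p : E × ℂ × ℝ) (hy : p.2.1 ≠ 0) : ContDiffAt ℝ ∞ yhat p := by
  have h1 : ContDiffAt ℝ ∞ (fun q : E × ℂ × ℝ => q.2.1) p := by fun_prop
  have h2 : ContDiffAt ℝ ∞ (fun q : E × ℂ × ℝ => ‖q.2.1‖) p := h1.norm ℝ hy
  have h3 : ContDiffAt ℝ ∞ (fun q : E × ℂ × ℝ => ‖q.2.1‖⁻¹) p :=
    h2.inv (by simpa using hy)
  have h4 := h3.smul h1
  refine h4.congr_of_eventuallyEq (Filter.Eventually.of_forall fun q => ?_)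
  simp [yhat, div_eq_inv_mul]

/-- the derivative of `y / ‖y‖` -/
theorem hasPhase_yhat (p : E × ℂ × ℝ) (hy : p.2.1 ≠ 0) :
    HasPhase yhat ((1 / Complex.normSq p.2.1) • (Complex.imCLM ∘L mulC (conj p.2.1) ∘L
    (ContinuousLinearMap.fst ℝ ℂ ℝ ∘L ContinuousLinearMap.snd ℝ E (ℂ × ℝ)))) p := by
  have hn : ‖p.2.1‖ ≠ 0 := norm_ne_zero_iff.mpr hy
  have h1 : HasFDerivAt (fun q : E × ℂ × ℝ => q.2.1)
      (ContinuousLinearMap.fst ℝ ℂ ℝ ∘L ContinuousLinearMap.snd ℝ E (ℂ × ℝ)) p :=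
    (ContinuousLinearMap.fst ℝ ℂ ℝ ∘L ContinuousLinearMap.snd ℝ E (ℂ × ℝ)).hasFDerivAt
  have h2 : HasFDerivAt (fun y : ℂ => ‖y‖ ^ 2) (2 • (innerSL ℝ p.2.1)) p.2.1 :=
    (hasStrictFDerivAt_norm_sq p.2.1).hasFDerivAt
  have h3 : HasFDerivAt (fun y : ℂ => Real.sqrt (‖y‖ ^ 2))
      ((1 / (2 * Real.sqrt (‖p.2.1‖ ^ 2))) • (2 • (innerSL ℝ p.2.1))) p.2.1 :=
    h2.sqrt (by positivity)
  have h4 : HasFDerivAt (fun y : ℂ => ‖y‖)
      ((1 / (2 * Real.sqrt (‖p.2.1‖ ^ 2))) • (2 • (innerSL ℝ p.2.1))) p.2.1 := by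
    convert h3 using 1
    funext y
    rw [Real.sqrt_sq (norm_nonneg y)]
  have h5 := h4.comp p h1
  have h6 := (hasDerivAt_inv hn).comp_hasFDerivAt p h5
  have h7 := HasFDerivAt.smul h6 h1
  have h8 : (yhat : E × ℂ × ℝ → ℂ) = fun q => (‖q.2.1‖⁻¹ : ℝ) • q.2.1 := by
    funext q
    simp [yhat, div_eq_inv_mul]
  have h9 := h7.congr_of_eventuallyEq (f₁ := (yhat : E × ℂ × ℝ → ℂ))
    (Filter.Eventually.of_forall fun q => congrFun h8 q)
  refine h9.congr_fderiv ?_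
  refine ContinuousLinearMap.ext fun u => ?_
  have hsq : Real.sqrt (‖p.2.1‖ ^ 2) = ‖p.2.1‖ := Real.sqrt_sq (norm_nonneg _)
  have hns : Complex.normSq p.2.1 = ‖p.2.1‖ ^ 2 := Complex.normSq_eq_norm_sq _
  have hnc : ((‖p.2.1‖ : ℝ) : ℂ) ≠ 0 := by simpa using hy
  have hin : inner ℝ p.2.1 u.2.1 = (conj p.2.1 * u.2.1).re := by
    rw [Complex.inner, mul_comm]
  have e1 : p.2.1 * (conj p.2.1 * u.2.1) = ((‖p.2.1‖ : ℝ) : ℂ) ^ 2 * u.2.1 := by
    rw [← mul_assoc, Complex.mul_conj, hns]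
    push_cast
    ring
  have e2 : (conj p.2.1 * u.2.1) = (((conj p.2.1 * u.2.1).re : ℝ) : ℂ) +
      (((conj p.2.1 * u.2.1).im : ℝ) : ℂ) * Complex.I := (Complex.re_add_im _).symm
  have hnn : (‖p.2.1‖ : ℝ) ≠ 0 := hn
  have e3 : (yhat p) = ((‖p.2.1‖ : ℝ) : ℂ)⁻¹ * p.2.1 := by
    simp [yhat, div_eq_inv_mul]
  simp only [smul_apply, add_apply,
    ContinuousLinearMap.smulRight_apply, ContinuousLinearMap.comp_apply,
    ContinuousLinearMap.coe_fst', ContinuousLinearMap.coe_snd', innerSL_apply_apply, hsq, hin,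
    Complex.real_smul, smul_eq_mul, Complex.ofRealCLM_apply, Complex.imCLM_apply, mulC_apply, hns,
    e3, nsmul_eq_mul]
  have e4 : (((fun y : ℝ => y⁻¹) ∘ (fun y : ℂ => ‖y‖) ∘ fun q : E × ℂ × ℝ => q.2.1) p) =
      ‖p.2.1‖⁻¹ := rfl
  rw [e4]
  have e5 : -(‖p.2.1‖ ^ 2)⁻¹ * (1 / (2 * ‖p.2.1‖) * (((2 : ℕ) : ℝ) *
      (conj p.2.1 * u.2.1).re)) = -(‖p.2.1‖⁻¹ * (1 / ‖p.2.1‖ ^ 2 * (conj p.2.1 * u.2.1).re)) := by
    push_cast
    field_simp
  rw [e5]
  set R := (conj p.2.1 * u.2.1).re with hR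
  set J := (conj p.2.1 * u.2.1).im with hJ
  set a := ‖p.2.1‖ with ha
  rw [e2] at e1
  push_cast
  field_simp
  linear_combination -e1

theorem fderiv_yhat (p : E × ℂ × ℝ) (hy : p.2.1 ≠ 0) (u : E × ℂ × ℝ) :
    fderiv ℝ yhat p u = Complex.I * yhat p *
      (((1 / Complex.normSq p.2.1) * (conj p.2.1 * u.2.1).im : ℝ) : ℂ) := by
  rw [(hasPhase_yhat p hy).fderiv_apply]
  simp

/-- the angular form is invariant -/
theorem vth_act (l : Λ) (p : E × ℂ × ℝ) (hp : p ∈ sphU M) (hy : p.2.1 ≠ 0) (u : E × ℂ × ℝ) :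
    vth L (sphAct M L l p) (fderiv ℝ (sphAct M L l) p u) = vth L p u := by
  rw [vth_apply, vth_apply, fderiv_sphAct M L l p hp u]
  have hJ := L.norm_J l p.1 hp.1
  have hc := L.a_compat l p.1 hp.1 u.1
  have hJ2 : conj (L.J l p.1) * L.J l p.1 = 1 := by
    rw [Complex.conj_mul', hJ]; simp
  simp only [sphAct]
  rw [hc]
  have h1 : Complex.normSq (L.J l p.1 * p.2.1) = Complex.normSq p.2.1 := by
    rw [Complex.normSq_mul, Complex.normSq_eq_norm_sq (L.J l p.1), hJ]; ring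
  have h2 : conj (L.J l p.1 * p.2.1) * (Complex.I * L.J l p.1 *
      ((L.a p.1 u.1 - L.a (M.act l p.1) (fderiv ℝ (M.act l) p.1 u.1) : ℝ) : ℂ) * p.2.1 +
      L.J l p.1 * u.2.1) = Complex.normSq p.2.1 * ((L.a p.1 u.1 - L.a (M.act l p.1)
        (fderiv ℝ (M.act l) p.1 u.1) : ℝ) : ℂ) * Complex.I + conj p.2.1 * u.2.1 := by
    rw [map_mul, Complex.normSq_eq_conj_mul_self]
    linear_combination (conj p.2.1 * (Complex.I * 
      ((L.a p.1 u.1 - L.a (M.act l p.1) (fderiv ℝ (M.act l) p.1 u.1) : ℝ) : ℂ) * p.2.1 +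
      u.2.1)) * hJ2
  rw [h1, h2]
  have h3 : (Complex.normSq p.2.1 * ((L.a p.1 u.1 - L.a (M.act l p.1)
        (fderiv ℝ (M.act l) p.1 u.1) : ℝ) : ℂ) * Complex.I + conj p.2.1 * u.2.1).im =
      Complex.normSq p.2.1 * (L.a p.1 u.1 - L.a (M.act l p.1)
        (fderiv ℝ (M.act l) p.1 u.1)) + (conj p.2.1 * u.2.1).im := by
    rw [Complex.add_im, ← Complex.ofReal_mul]
    congr 1
    simp
  rw [h3]
  have h4 : Complex.normSq p.2.1 ≠ 0 := by simpa using hy
  field_simp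
  ring

theorem contDiffAt_vth (p : E × ℂ × ℝ) (hp : p ∈ sphU M) (hy : p.2.1 ≠ 0) :
    ContDiffAt ℝ ∞ (vth L) p := by
  have h1 : ContDiffAt ℝ ∞ (fun q : E × ℂ × ℝ => q.2.1) p := by fun_prop
  have h2 : ContDiffAt ℝ ∞ (fun q : E × ℂ × ℝ => 1 / Complex.normSq q.2.1) p := by
    have h3 : ContDiffAt ℝ ∞ (fun q : E × ℂ × ℝ => Complex.normSq q.2.1) p := by
      have h4 : (fun q : E × ℂ × ℝ => Complex.normSq q.2.1) = fun q => ‖q.2.1‖ ^ 2 := by
        funext q
        exact Complex.normSq_eq_norm_sq _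
      rw [h4]
      exact (h1.norm ℝ hy).pow 2
    exact contDiffAt_const.div h3 (by simpa using hy)
  have h5 : ContDiffAt ℝ ∞ (fun q : E × ℂ × ℝ => mulC (conj q.2.1)) p := by
    have h6 : (fun q : E × ℂ × ℝ => mulC (conj q.2.1)) =
        fun q => (ContinuousLinearMap.mul ℝ ℂ) ((Complex.conjCLE : ℂ →L[ℝ] ℂ) q.2.1) := rfl
    rw [h6]
    exact (ContinuousLinearMap.mul ℝ ℂ).contDiff.contDiffAt.comp p
      ((Complex.conjCLE : ℂ →L[ℝ] ℂ).contDiff.contDiffAt.comp p h1)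
  have h7 : ContDiffAt ℝ ∞ (fun q : E × ℂ × ℝ => L.a q.1) p := by
    have h8 : ContDiffAt ℝ ∞ L.a p.1 := L.smooth_a.contDiffAt (M.isOpen_U.mem_nhds hp.1)
    exact h8.comp p contDiffAt_fst
  unfold vth
  refine ContDiffAt.add (h2.smul ?_) (h7.clm_comp contDiffAt_const)
  exact contDiffAt_const.clm_comp (h5.clm_comp contDiffAt_const)

/-- the derivative of the angular form is the curvature of `ℓ` -/
theorem dform_vth (p : E × ℂ × ℝ) (hp : p ∈ sphU M) (hy : p.2.1 ≠ 0) (u w : E × ℂ × ℝ) :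
    dform (vth L) p u w = dform L.a p.1 u.1 w.1 := by
  have hd : DifferentiableAt ℝ (vth L) p :=
    (contDiffAt_vth M L p hp hy).differentiableAt (by simp)
  have ha : DifferentiableAt ℝ L.a p.1 :=
    (L.smooth_a.contDiffAt (M.isOpen_U.mem_nhds hp.1)).differentiableAt (by simp)
  have key : ∀ u w : E × ℂ × ℝ, fderiv ℝ (vth L) p u w =
      (w.2.1 * (-(p.2.1 ^ 2)⁻¹ * u.2.1)).im + fderiv ℝ L.a p.1 u.1 w.1 := by
    intro u w
    have h1 : HasFDerivAt (fun q => vth L q w)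
        ((ContinuousLinearMap.apply ℝ ℝ w) ∘L fderiv ℝ (vth L) p) p :=
      (ContinuousLinearMap.apply ℝ ℝ w).hasFDerivAt.comp p hd.hasFDerivAt
    have h2 : HasFDerivAt (fun q : E × ℂ × ℝ => (w.2.1 * q.2.1⁻¹).im + L.a q.1 w.1)
        (Complex.imCLM ∘L (mulC w.2.1) ∘L (mulC (-(p.2.1 ^ 2)⁻¹)) ∘L
          (ContinuousLinearMap.fst ℝ ℂ ℝ ∘L ContinuousLinearMap.snd ℝ E (ℂ × ℝ)) +
          (ContinuousLinearMap.apply ℝ ℝ w.1) ∘L fderiv ℝ L.a p.1 ∘L
            ContinuousLinearMap.fst ℝ E (ℂ × ℝ)) p := by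
      refine HasFDerivAt.add ?_ ?_
      · have h3 : HasFDerivAt (fun y : ℂ => y⁻¹) (mulC (-(p.2.1 ^ 2)⁻¹)) p.2.1 := by
          have h4 := ((hasDerivAt_inv hy).hasFDerivAt).restrictScalars ℝ
          refine h4.congr_fderiv ?_
          refine ContinuousLinearMap.ext fun x => ?_
          simp [mul_comm]
        have h4 := h3.comp p (ContinuousLinearMap.fst ℝ ℂ ℝ ∘L
          ContinuousLinearMap.snd ℝ E (ℂ × ℝ)).hasFDerivAt
        exact Complex.imCLM.hasFDerivAt.comp p ((mulC w.2.1).hasFDerivAt.comp p h4)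
      · refine (ContinuousLinearMap.apply ℝ ℝ w.1).hasFDerivAt.comp p ?_
        exact ha.hasFDerivAt.comp p (ContinuousLinearMap.fst ℝ E (ℂ × ℝ)).hasFDerivAt
    have h5 : (fun q => vth L q w) =ᶠ[𝓝 p]
        fun q : E × ℂ × ℝ => (w.2.1 * q.2.1⁻¹).im + L.a q.1 w.1 := by
      refine Filter.Eventually.of_forall fun q => ?_
      simp only
      rw [vth_apply, Complex.inv_def]
      congr 1
      have h6 : w.2.1 * (conj q.2.1 * (((Complex.normSq q.2.1)⁻¹ : ℝ) : ℂ)) =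
          (((Complex.normSq q.2.1)⁻¹ : ℝ) : ℂ) * (conj q.2.1 * w.2.1) := by ring
      rw [h6, Complex.im_ofReal_mul, one_div]
    have h7 := (h2.congr_of_eventuallyEq h5).unique h1
    have h8 := congrArg (fun T => T u) h7
    simpa using h8.symm
  unfold dform
  rw [key u w, key w u]
  have h9 : w.2.1 * (-(p.2.1 ^ 2)⁻¹ * u.2.1) = u.2.1 * (-(p.2.1 ^ 2)⁻¹ * w.2.1) := by ring
  rw [h9]
  ring

theorem contDiff_psi (k : ℕ) : ContDiff ℝ ∞ (psi k) := by
  unfold psi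
  have h1 : ContDiff ℝ ∞ (fun t : ℝ => Real.smoothTransition (2 * t + 1 / 2)) :=
    Real.smoothTransition.contDiff.comp (by fun_prop)
  exact contDiff_const.sub (contDiff_const.mul h1)

theorem psi_of_le (k : ℕ) (t : ℝ) (ht : t ≤ -(1 / 4)) : psi k t = 2 := by
  unfold psi
  rw [Real.smoothTransition.zero_of_nonpos (by linarith)]
  ring

theorem psi_of_ge (k : ℕ) (t : ℝ) (ht : 1 / 4 ≤ t) : psi k t = -(k : ℝ) := by
  unfold psi
  rw [Real.smoothTransition.one_of_one_le (by linarith)]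
  ring

theorem deriv_psi_of_le (k : ℕ) (t : ℝ) (ht : t ≤ -(1 / 4)) : deriv (psi k) t = 0 := by
  have h1 : DifferentiableAt ℝ (psi k) t := (contDiff_psi k).differentiable (by simp) t
  have h2 : HasDerivWithinAt (psi k) (deriv (psi k) t) (Set.Iic t) t :=
    h1.hasDerivAt.hasDerivWithinAt
  have h3 : HasDerivWithinAt (psi k) 0 (Set.Iic t) t := by
    refine (hasDerivWithinAt_const t (Set.Iic t) (2 : ℝ)).congr ?_ (psi_of_le k t ht)
    intro s hs
    exact psi_of_le k s (le_trans hs ht)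
  exact (uniqueDiffWithinAt_Iic t).eq_deriv _ h2 h3

theorem deriv_psi_of_ge (k : ℕ) (t : ℝ) (ht : 1 / 4 ≤ t) : deriv (psi k) t = 0 := by
  have h1 : DifferentiableAt ℝ (psi k) t := (contDiff_psi k).differentiable (by simp) t
  have h2 : HasDerivWithinAt (psi k) (deriv (psi k) t) (Set.Ici t) t :=
    h1.hasDerivAt.hasDerivWithinAt
  have h3 : HasDerivWithinAt (psi k) 0 (Set.Ici t) t := by
    refine (hasDerivWithinAt_const t (Set.Ici t) (-(k : ℝ))).congr ?_ (psi_of_ge k t ht)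
    intro s hs
    exact psi_of_ge k s (le_trans ht hs)
  exact (uniqueDiffWithinAt_Ici t).eq_deriv _ h2 h3

theorem norm_tauS (k : ℕ) (c : Patch) (p : E × ℂ × ℝ) (hy : p.2.1 ≠ 0) : ‖tauS k c p‖ = 1 := by
  have h := norm_yhat p hy
  cases c <;> simp [tauS, h]

/-- the cocycle is the quotient of the phases of the frames -/
theorem rhoS_eq (k : ℕ) (i : Patch) (l : Λ) (j : Patch) (p : E × ℂ × ℝ)
    (hj : p ∈ patchDom M j) (hi : sphAct M L l p ∈ patchDom M i) (hy : p.2.1 ≠ 0) :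
    rhoS L k i l j p * tauS k j p = tauS k i (sphAct M L l p) := by
  have hp : p ∈ sphU M := patchDom_subset M j hj
  have h1 := norm_yhat p hy
  have h2 : conj (yhat p) * yhat p = 1 := by
    rw [Complex.conj_mul', h1]; simp
  have h3 := yhat_act M L l p hp
  cases i <;> cases j <;> simp only [rhoS, tauS, h3, mul_one, one_mul, map_mul]
  · rw [← mul_pow, h2, one_pow]
  · rw [neg_mul_neg, ← mul_pow, mul_comm, h2, one_pow]
  · ring
  · exfalso
    have h4 : p.2.2 < -(1 / 4) := hi.2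
    have h5 : 1 / 4 < p.2.2 := hj.2
    linarith
  · exfalso
    have h4 : 1 / 4 < p.2.2 := hi.2
    have h5 : p.2.2 < -(1 / 4) := hj.2
    linarith
  · rw [mul_neg, ← mul_pow]

theorem norm_rhoS (k : ℕ) (i : Patch) (l : Λ) (j : Patch) (p : E × ℂ × ℝ)
    (hj : p ∈ patchDom M j) (hi : sphAct M L l p ∈ patchDom M i) : ‖rhoS L k i l j p‖ = 1 := by
  have hp : p ∈ sphU M := patchDom_subset M j hj
  have hJ := L.norm_J l p.1 hp.1
  have hR : ∀ h : p.2.1 ≠ 0, ‖yhat p‖ = 1 := fun h => norm_yhat p h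
  have hA : sphAct M L l p ∈ patchDom M Patch.R → p.2.1 ≠ 0 := fun h =>
    ((patchDom_act M L Patch.R l p hp).mp h).2
  cases i <;> cases j <;> simp only [rhoS, norm_one, norm_pow, norm_neg, norm_mul,
    RCLike.norm_conj, hJ, one_pow, one_mul]
  · rw [hR (hA hi), one_pow]
  · rw [hR (hA hi), one_pow]
  · rw [hR hj.2, one_pow]
  · rw [hR hj.2, one_pow]

/-- the phase of the cocycle -/
theorem hasPhase_rhoS (k : ℕ) (i : Patch) (l : Λ) (j : Patch) (p : E × ℂ × ℝ)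
    (hj : p ∈ patchDom M j) (hi : sphAct M L l p ∈ patchDom M i) :
    HasPhase (fun y => rhoS L k i l j y)
      (thS L k j p - thS L k i (sphAct M L l p) ∘L fderiv ℝ (sphAct M L l) p) p := by
  have hp : p ∈ sphU M := patchDom_subset M j hj
  have hA : sphAct M L l p ∈ patchDom M Patch.R → p.2.1 ≠ 0 := fun h =>
    ((patchDom_act M L Patch.R l p hp).mp h).2
  set cJ : (E × ℂ × ℝ) →L[ℝ] ℝ := (L.a p.1 - L.a (M.act l p.1) ∘L fderiv ℝ (M.act l) p.1) ∘L
    ContinuousLinearMap.fst ℝ E (ℂ × ℝ) with hcJ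
  have hJ : HasPhase (fun q : E × ℂ × ℝ => L.J l q.1) cJ p := by
    have h1 : DifferentiableAt ℝ (L.J l) p.1 :=
      ((L.smooth_J l).contDiffAt (M.isOpen_U.mem_nhds hp.1)).differentiableAt (by simp)
    have h2 : HasFDerivAt (fun q : E × ℂ × ℝ => L.J l q.1)
        (fderiv ℝ (L.J l) p.1 ∘L ContinuousLinearMap.fst ℝ E (ℂ × ℝ)) p :=
      h1.hasFDerivAt.comp p (ContinuousLinearMap.fst ℝ E (ℂ × ℝ)).hasFDerivAt
    refine h2.congr_fderiv ?_
    refine ContinuousLinearMap.ext fun u => ?_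
    have h3 := L.a_compat l p.1 hp.1 u.1
    simp only [ContinuousLinearMap.comp_apply, ContinuousLinearMap.coe_fst', hcJ] at h3 ⊢
    rw [h3]
    simp
  set cy : (E × ℂ × ℝ) →L[ℝ] ℝ := (1 / Complex.normSq p.2.1) • (Complex.imCLM ∘L
    mulC (conj p.2.1) ∘L (ContinuousLinearMap.fst ℝ ℂ ℝ ∘L
      ContinuousLinearMap.snd ℝ E (ℂ × ℝ))) with hcy
  have hy : p.2.1 ≠ 0 → HasPhase yhat cy p := fun h => hasPhase_yhat p h
  have hact : ∀ u, (L.a (M.act l p.1) ∘L fderiv ℝ (M.act l) p.1) (u : E × ℂ × ℝ).1 =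
      L.a (sphAct M L l p).1 (fderiv ℝ (sphAct M L l) p u).1 := by
    intro u
    rw [fderiv_sphAct M L l p hp u]
    rfl
  have hcJ' : ∀ u, cJ u = L.a p.1 u.1 -
      L.a (sphAct M L l p).1 (fderiv ℝ (sphAct M L l) p u).1 := by
    intro u
    rw [← hact u]
    rfl
  have hvth : ∀ u, vth L p u = cy u + L.a p.1 u.1 := fun u => rfl
  have hcongr : ∀ (φ : E × ℂ × ℝ → ℂ) (c d : (E × ℂ × ℝ) →L[ℝ] ℝ), HasPhase φ c p →
      (∀ u, c u = d u) → HasPhase φ d p := by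
    intro φ c d h hcd
    rw [← ContinuousLinearMap.ext hcd]
    exact h
  cases i <;> cases j
  · -- R R
    refine hcongr _ 0 _ (HasPhase.one p) fun u => ?_
    have h1 := vth_act M L l p hp (hA hi) u
    have h2 : (sphAct M L l p).2.2 = p.2.2 := rfl
    simp only [thS, sub_apply, ContinuousLinearMap.comp_apply,
      smul_apply, h1, h2, zero_apply, sub_self]
  · -- R N
    have hy0 := hA hi
    refine hcongr _ _ _ ((hy hy0).conj.pow 2) fun u => ?_
    have h1 := vth_act M L l p hp (hA hi) u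
    have h2 : (sphAct M L l p).2.2 = p.2.2 := rfl
    have h3 : psi k p.2.2 = 2 := psi_of_le k _ hj.2.le
    simp only [thS, sub_apply, ContinuousLinearMap.comp_apply,
      smul_apply, h1, h2, h3, neg_apply, hvth,
      smul_eq_mul, ContinuousLinearMap.coe_fst']
    push_cast
    ring
  · -- R S
    have hy0 := hA hi
    refine hcongr _ _ _ ((hy hy0).pow k).neg fun u => ?_
    have h1 := vth_act M L l p hp (hA hi) u
    have h2 : (sphAct M L l p).2.2 = p.2.2 := rfl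
    have h3 : psi k p.2.2 = -(k : ℝ) := psi_of_ge k _ hj.2.le
    simp only [thS, sub_apply, ContinuousLinearMap.comp_apply,
      smul_apply, h1, h2, h3, hvth,
      smul_eq_mul, ContinuousLinearMap.coe_fst']
    ring
  · -- N R
    have hy0 := hj.2
    refine hcongr _ _ _ ((hJ.mul (hy hy0)).pow 2) fun u => ?_
    have h2 : (sphAct M L l p).2.2 = p.2.2 := rfl
    have h3 : psi k p.2.2 = 2 := psi_of_le k _ (by have := hi.2; rw [h2] at this; exact this.le)
    simp only [thS, sub_apply, ContinuousLinearMap.comp_apply,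
      smul_apply, add_apply, h3, hvth, hcJ',
      smul_eq_mul, ContinuousLinearMap.coe_fst']
    push_cast
    ring
  · -- N N
    refine hcongr _ _ _ (hJ.pow 2) fun u => ?_
    simp only [thS, sub_apply, ContinuousLinearMap.comp_apply,
      smul_apply, hcJ',
      smul_eq_mul, ContinuousLinearMap.coe_fst']
    push_cast
    ring
  · -- N S
    exfalso
    have h4 : p.2.2 < -(1 / 4) := hi.2
    have h5 : 1 / 4 < p.2.2 := hj.2
    linarith
  · -- S R
    have hy0 := hj.2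
    refine hcongr _ _ _ ((hJ.mul (hy hy0)).conj.pow k).neg fun u => ?_
    have h2 : (sphAct M L l p).2.2 = p.2.2 := rfl
    have h3 : psi k p.2.2 = -(k : ℝ) :=
      psi_of_ge k _ (by have := hi.2; rw [h2] at this; exact this.le)
    simp only [thS, sub_apply, ContinuousLinearMap.comp_apply,
      smul_apply, add_apply, h3, hvth, hcJ',
      smul_eq_mul, ContinuousLinearMap.coe_fst', neg_apply]
    ring
  · -- S N
    exfalso
    have h4 : 1 / 4 < p.2.2 := hi.2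
    have h5 : p.2.2 < -(1 / 4) := hj.2
    linarith
  · -- S S
    refine hcongr _ _ _ (hJ.conj.pow k) fun u => ?_
    simp only [thS, sub_apply, ContinuousLinearMap.comp_apply,
      smul_apply, hcJ', neg_apply,
      smul_eq_mul, ContinuousLinearMap.coe_fst']
    ring

theorem differentiableAt_rhoS (k : ℕ) (i : Patch) (l : Λ) (j : Patch) (p : E × ℂ × ℝ)
    (hj : p ∈ patchDom M j) (hi : sphAct M L l p ∈ patchDom M i) :
    DifferentiableAt ℝ (fun y => rhoS L k i l j y) p :=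
  HasFDerivAt.differentiableAt (hasPhase_rhoS M L k i l j p hj hi)

theorem contDiffOn_thS (k : ℕ) (c : Patch) : ContDiffOn ℝ ∞ (thS L k c) (patchDom M c) := by
  intro p hp
  have hp' : p ∈ sphU M := patchDom_subset M c hp
  have h7 : ContDiffAt ℝ ∞ (fun q : E × ℂ × ℝ => L.a q.1) p := by
    have h8 : ContDiffAt ℝ ∞ L.a p.1 := L.smooth_a.contDiffAt (M.isOpen_U.mem_nhds hp'.1)
    exact h8.comp p contDiffAt_fst
  refine ContDiffAt.contDiffWithinAt ?_
  cases c with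
  | R =>
    have h1 : ContDiffAt ℝ ∞ (fun q : E × ℂ × ℝ => psi k q.2.2) p :=
      (contDiff_psi k).contDiffAt.comp p (by fun_prop)
    exact h1.smul (contDiffAt_vth M L p hp' hp.2)
  | N =>
    have h1 : ContDiffAt ℝ ∞ (fun q : E × ℂ × ℝ => (2 : ℝ) • (L.a q.1 ∘L
        ContinuousLinearMap.fst ℝ E (ℂ × ℝ))) p :=
      (h7.clm_comp contDiffAt_const).const_smul _
    exact h1
  | S =>
    have h1 : ContDiffAt ℝ ∞ (fun q : E × ℂ × ℝ => (-(k : ℝ)) • (L.a q.1 ∘L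
        ContinuousLinearMap.fst ℝ E (ℂ × ℝ))) p :=
      (h7.clm_comp contDiffAt_const).const_smul _
    exact h1

/-- the gauge rule -/
theorem rhoS_compat (k : ℕ) (i : Patch) (l : Λ) (j : Patch) (p : E × ℂ × ℝ)
    (hj : p ∈ patchDom M j) (hi : sphAct M L l p ∈ patchDom M i) (u : E × ℂ × ℝ) :
    fderiv ℝ (fun y => rhoS L k i l j y) p u = Complex.I * rhoS L k i l j p *
      ((thS L k j p u - thS L k i (sphAct M L l p) (fderiv ℝ (sphAct M L l) p u) : ℝ) : ℂ) := by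
  rw [(hasPhase_rhoS M L k i l j p hj hi).fderiv_apply]
  rfl

theorem dform_smul_base (r : ℝ) (p : E × ℂ × ℝ) (hp : p ∈ sphU M) (u w : E × ℂ × ℝ) :
    dform (fun q : E × ℂ × ℝ => r • (L.a q.1 ∘L ContinuousLinearMap.fst ℝ E (ℂ × ℝ))) p u w =
      r * dform L.a p.1 u.1 w.1 := by
  have ha : DifferentiableAt ℝ L.a p.1 :=
    (L.smooth_a.contDiffAt (M.isOpen_U.mem_nhds hp.1)).differentiableAt (by simp)
  have h1 : HasFDerivAt (fun q : E × ℂ × ℝ => L.a q.1)
      (fderiv ℝ L.a p.1 ∘L ContinuousLinearMap.fst ℝ E (ℂ × ℝ)) p :=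
    ha.hasFDerivAt.comp p (ContinuousLinearMap.fst ℝ E (ℂ × ℝ)).hasFDerivAt
  have h2 : HasFDerivAt (fun q : E × ℂ × ℝ => r • (L.a q.1 ∘L
      ContinuousLinearMap.fst ℝ E (ℂ × ℝ)))
      (r • (((ContinuousLinearMap.compL ℝ (E × ℂ × ℝ) E ℝ).flip
        (ContinuousLinearMap.fst ℝ E (ℂ × ℝ))) ∘L
        (fderiv ℝ L.a p.1 ∘L ContinuousLinearMap.fst ℝ E (ℂ × ℝ)))) p := by
    have h3 := ((ContinuousLinearMap.compL ℝ (E × ℂ × ℝ) E ℝ).flip
        (ContinuousLinearMap.fst ℝ E (ℂ × ℝ))).hasFDerivAt.comp p h1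
    exact h3.const_smul r
  unfold dform
  rw [h2.fderiv]
  simp
  ring

/-- the curvature -/
theorem crvS_eq (k : ℕ) (c : Patch) (p : E × ℂ × ℝ) (hp : p ∈ patchDom M c)
    (u w : E × ℂ × ℝ) : crvS L k p u w = dform (thS L k c) p u w := by
  have hp' : p ∈ sphU M := patchDom_subset M c hp
  unfold crvS
  cases c with
  | R =>
    have hd : DifferentiableAt ℝ (vth L) p :=
      (contDiffAt_vth M L p hp' hp.2).differentiableAt (by simp)
    have h1 : HasFDerivAt (fun q : E × ℂ × ℝ => psi k q.2.2)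
        (deriv (psi k) p.2.2 • (ContinuousLinearMap.snd ℝ ℂ ℝ ∘L
          ContinuousLinearMap.snd ℝ E (ℂ × ℝ))) p := by
      have h2 : HasDerivAt (psi k) (deriv (psi k) p.2.2) p.2.2 :=
        ((contDiff_psi k).differentiable (by simp) p.2.2).hasDerivAt
      have h3 : HasFDerivAt (fun q : E × ℂ × ℝ => q.2.2) (ContinuousLinearMap.snd ℝ ℂ ℝ ∘L
          ContinuousLinearMap.snd ℝ E (ℂ × ℝ)) p := (ContinuousLinearMap.snd ℝ ℂ ℝ ∘L
          ContinuousLinearMap.snd ℝ E (ℂ × ℝ)).hasFDerivAt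
      exact HasDerivAt.comp_hasFDerivAt (h₂ := psi k) p h2 h3
    have h2 := h1.smul hd.hasFDerivAt
    have h3 : fderiv ℝ (thS L k Patch.R) p = _ := h2.fderiv
    rw [← dform_vth M L p hp' hp.2 u w]
    unfold dform
    rw [h3]
    simp
    ring
  | N =>
    have h1 : p.2.2 ≤ -(1 / 4) := hp.2.le
    have h2 := dform_smul_base M L 2 p hp' u w
    rw [deriv_psi_of_le k _ h1, psi_of_le k _ h1, zero_mul, zero_add]
    exact h2.symm
  | S =>
    have h1 : 1 / 4 ≤ p.2.2 := hp.2.le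
    have h2 := dform_smul_base M L (-(k : ℝ)) p hp' u w
    rw [deriv_psi_of_ge k _ h1, psi_of_ge k _ h1, zero_mul, zero_add]
    exact h2.symm

/-- two functions which are continuous at a point and agree nearby where `y ≠ 0` agree at the
point -/
theorem eq_of_eventually_ne {W : Type} [TopologicalSpace W] [T2Space W]
    (F G : E × ℂ × ℝ → W) (p : E × ℂ × ℝ) (hF : ContinuousAt F p) (hG : ContinuousAt G p)
    (h : ∀ᶠ y in 𝓝 p, y.2.1 ≠ 0 → F y = G y) : F p = G p := by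
  set c : ℝ → E × ℂ × ℝ := fun s => (p.1, p.2.1 + s, p.2.2) with hc
  have hc0 : c 0 = p := by simp [hc]
  have hcont : ContinuousAt c 0 := by
    have : Continuous c := by
      rw [hc]
      fun_prop
    exact this.continuousAt
  have h1 : Filter.Tendsto c (𝓝[≠] 0) (𝓝 p) := by
    have h2 : Filter.Tendsto c (𝓝 0) (𝓝 (c 0)) := hcont
    rw [hc0] at h2
    exact h2.mono_left nhdsWithin_le_nhds
  have h2 : ∀ᶠ s in 𝓝[≠] (0 : ℝ), (c s).2.1 ≠ 0 := by
    have h3 : ∀ᶠ s in 𝓝[≠] (0 : ℝ), s ≠ -p.2.1.re := by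
      by_cases h0 : -p.2.1.re = 0
      · rw [h0]
        exact self_mem_nhdsWithin
      · exact (eventually_ne_nhds (Ne.symm h0)).filter_mono nhdsWithin_le_nhds
    refine h3.mono fun s hs h4 => hs ?_
    have h5 := congrArg Complex.re h4
    simp [hc] at h5
    linarith
  have h3 : ∀ᶠ s in 𝓝[≠] (0 : ℝ), F (c s) = G (c s) := by
    filter_upwards [h1.eventually h, h2] with s hs1 hs2 using hs1 hs2
  have h4 : Filter.Tendsto (fun s => F (c s)) (𝓝[≠] (0 : ℝ)) (𝓝 (F p)) := hF.tendsto.comp h1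
  have h5 : Filter.Tendsto (fun s => G (c s)) (𝓝[≠] (0 : ℝ)) (𝓝 (G p)) := hG.tendsto.comp h1
  exact tendsto_nhds_unique (h4.congr' h3) h5

end

end Pool.Agent.HAF2
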