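import Pool.Agent.HAF2.ChOpen
import Pool.Agent.HAF2.SphConn
import Pool.Agent.HAF2.Nrm

/-!
# Module CHA: the frames and the normal cocycle

For `y ≠ 0`: `normal_comp`, `bR_act`, `efr_eq` and `rhoS_eq`
(`rhoS * tauS j p = tauS i (l p)`). For `y = 0` by continuity (`eq_of_eventually_ne`,
`contDiffAt_normal`, `contDiffOn_efr`, `differentiableAt_rhoS`).
-/

namespace Pool.Agent.HAF2

open Filter Topology MeasureTheory
open scoped ContDiff ComplexConjugate

theorem cha_act_hi (l : Lam) (p : EH) (hp : p ∈ sphU hypM) (hy : p.2.1 ≠ 0) :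
    (sphAct hypM hypL l p).2.1 ≠ 0 := by
  intro h
  have h1 : hypL.J l p.1 * p.2.1 = 0 := h
  rcases mul_eq_zero.mp h1 with h2 | h2
  · have h3 := hypL.norm_J l p.1 hp.1
    rw [h2, norm_zero] at h3
    exact zero_ne_one h3
  · exact hy h2

theorem cha_mulC_comp (a b : ℂ) : mulC a ∘L mulC b = mulC (a * b) := by
  ext w
  simp [mulC_apply, mul_assoc]

theorem cha_cancel (A B : ℂ →L[ℝ] ℂ) (c : ℂ) (hc : c ≠ 0)
    (h : A ∘L mulC c = B ∘L mulC c) : A = B := by
  have h1 : mulC c ∘L mulC c⁻¹ = ContinuousLinearMap.id ℝ ℂ := by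
    rw [cha_mulC_comp, mul_inv_cancel₀ hc]
    ext
    simp [mulC_apply]
  calc A = A ∘L (mulC c ∘L mulC c⁻¹) := by rw [h1, ContinuousLinearMap.comp_id]
    _ = (A ∘L mulC c) ∘L mulC c⁻¹ := by rw [ContinuousLinearMap.comp_assoc]
    _ = (B ∘L mulC c) ∘L mulC c⁻¹ := by rw [h]
    _ = B ∘L (mulC c ∘L mulC c⁻¹) := by rw [ContinuousLinearMap.comp_assoc]
    _ = B := by rw [h1, ContinuousLinearMap.comp_id]

/-- the case `y ≠ 0` -/
theorem cha_rot_ne (two : Bool) (i : CIdx) (l : Lam) (j : CIdx) (p : EH) (hj : p ∈ idom two j)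
    (hi : sphAct hypM hypL l p ∈ idom two i) (hy : p.2.1 ≠ 0) :
    (hypH two).normal i l j p ∘L efr two j p =
      efr two i (sphAct hypM hypL l p) ∘L mulC (rhoS hypL (kN two) i.pt l j.pt p) := by
  have hp : p ∈ sphU hypM := cdom_subset two j.ch hj.1
  have hy2 := cha_act_hi l p hp hy
  have hτ : tauS (kN two) j.pt p ≠ 0 := by
    intro h
    have h1 := norm_tauS (kN two) j.pt p hy
    rw [h, norm_zero] at h1
    exact zero_ne_one h1
  apply cha_cancel _ _ _ hτ
  have hn : (hypH two).normal i l j p ∘L fderiv ℝ (cf two j.ch) p =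
      fderiv ℝ (cf two i.ch) (sphAct hypM hypL l p) ∘L fderiv ℝ (sphAct hypM hypL l) p :=
    normal_comp (hypH two) i l j p hj hi
  calc ((hypH two).normal i l j p ∘L efr two j p) ∘L mulC (tauS (kN two) j.pt p)
      = (hypH two).normal i l j p ∘L (efr two j p ∘L mulC (tauS (kN two) j.pt p)) := by
        rw [ContinuousLinearMap.comp_assoc]
    _ = (hypH two).normal i l j p ∘L (fderiv ℝ (cf two j.ch) p ∘L bR two p) := by
        rw [efr_eq two j p hj hy]
    _ = ((hypH two).normal i l j p ∘L fderiv ℝ (cf two j.ch) p) ∘L bR two p := by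
        rw [ContinuousLinearMap.comp_assoc]
    _ = (fderiv ℝ (cf two i.ch) (sphAct hypM hypL l p) ∘L fderiv ℝ (sphAct hypM hypL l) p)
          ∘L bR two p := by rw [hn]
    _ = fderiv ℝ (cf two i.ch) (sphAct hypM hypL l p) ∘L
          (fderiv ℝ (sphAct hypM hypL l) p ∘L bR two p) := by
        rw [ContinuousLinearMap.comp_assoc]
    _ = fderiv ℝ (cf two i.ch) (sphAct hypM hypL l p) ∘L bR two (sphAct hypM hypL l p) := by
        rw [bR_act two l p hp]
    _ = efr two i (sphAct hypM hypL l p) ∘L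
          mulC (tauS (kN two) i.pt (sphAct hypM hypL l p)) := by
        rw [efr_eq two i (sphAct hypM hypL l p) hi hy2]
    _ = efr two i (sphAct hypM hypL l p) ∘L
          mulC (rhoS hypL (kN two) i.pt l j.pt p * tauS (kN two) j.pt p) := by
        rw [rhoS_eq hypM hypL (kN two) i.pt l j.pt p hj.2 hi.2 hy]
    _ = (efr two i (sphAct hypM hypL l p) ∘L mulC (rhoS hypL (kN two) i.pt l j.pt p)) ∘L
          mulC (tauS (kN two) j.pt p) := by
        rw [ContinuousLinearMap.comp_assoc, cha_mulC_comp]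

theorem efr_rot (two : Bool) (i : CIdx) (l : Lam) (j : CIdx) (p : EH) (hj : p ∈ idom two j)
    (hi : sphAct hypM hypL l p ∈ idom two i) :
    (hypH two).normal i l j p ∘L efr two j p =
      efr two i (sphAct hypM hypL l p) ∘L mulC (rhoS hypL (kN two) i.pt l j.pt p) := by
  have hp : p ∈ sphU hypM := cdom_subset two j.ch hj.1
  have hact : ContinuousAt (sphAct hypM hypL l) p :=
    (((sphM hypM hypL).smooth_act l).contDiffAt
      ((sphM hypM hypL).isOpen_U.mem_nhds hp)).continuousAt
  have hmulC : Continuous mulC := (ContinuousLinearMap.mul ℝ ℂ).continuous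
  have c1 : ContinuousAt (fun y => (hypH two).normal i l j y) p :=
    (contDiffAt_normal (hypH two) i l j p hj hi).continuousAt
  have c2 : ContinuousAt (efr two j) p :=
    ((contDiffOn_efr two j).contDiffAt ((isOpen_idom two j).mem_nhds hj)).continuousAt
  have c3 : ContinuousAt (efr two i) (sphAct hypM hypL l p) :=
    ((contDiffOn_efr two i).contDiffAt ((isOpen_idom two i).mem_nhds hi)).continuousAt
  have c4 : ContinuousAt (fun y => rhoS hypL (kN two) i.pt l j.pt y) p :=
    (differentiableAt_rhoS hypM hypL (kN two) i.pt l j.pt p hj.2 hi.2).continuousAt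
  have c5 : ContinuousAt (fun y => efr two i (sphAct hypM hypL l y)) p :=
    ContinuousAt.comp (f := sphAct hypM hypL l) (g := efr two i) c3 hact
  refine eq_of_eventually_ne
    (fun y => (hypH two).normal i l j y ∘L efr two j y)
    (fun y => efr two i (sphAct hypM hypL l y) ∘L mulC (rhoS hypL (kN two) i.pt l j.pt y)) p
    (c1.clm_comp c2) (c5.clm_comp (hmulC.continuousAt.comp c4)) ?_
  filter_upwards [(isOpen_idom two j).mem_nhds hj,
    hact.preimage_mem_nhds ((isOpen_idom two i).mem_nhds hi)] with y h1 h2 h3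
  exact cha_rot_ne two i l j y h1 h2 h3

end Pool.Agent.HAF2
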