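import Pool.Agent.HAF2.Model

/-!
# Module OPN: Haefliger structures from open local maps

If the local maps `f i` are open, the transition germs are determined by the local maps; the
cocycle identity and the local constancy are automatic.
-/

namespace Pool.Agent.HAF2

open Filter Topology MeasureTheory
open scoped ContDiff
open Pool.Agent.HaefligerClasses (QuotientManifold IsForm HaefligerStructure curvature
  torusElement)

/-- open local maps related by local diffeomorphisms -/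
structure OpenCharts {E : Type} [NormedAddCommGroup E] [NormedSpace ℝ E] {Λ : Type} [AddGroup Λ]
    (M : QuotientManifold E Λ) (V : Type) [NormedAddCommGroup V] [NormedSpace ℝ V] where
  ι : Type
  dom : ι → Set E
  isOpen_dom : ∀ i, IsOpen (dom i)
  dom_subset : ∀ i, dom i ⊆ M.U
  cover : ∀ x ∈ M.U, ∃ i, x ∈ dom i
  f : ι → E → V
  smooth_f : ∀ i, ContDiffOn ℝ ∞ (f i) (dom i)
  open_f : ∀ i, ∀ x ∈ dom i, 𝓝 (f i x) ≤ map (f i) (𝓝 x)
  trans : ∀ i a j x, x ∈ dom j → M.act a x ∈ dom i → ∃ γ : V → V,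
    ContDiffAt ℝ ∞ γ (f j x) ∧ 0 < (fderiv ℝ γ (f j x)).det ∧
      ∀ᶠ y in 𝓝 x, γ (f j y) = f i (M.act a y)

section

variable {E : Type} [NormedAddCommGroup E] [NormedSpace ℝ E] {Λ : Type} [AddGroup Λ]
variable {M : QuotientManifold E Λ} {V : Type} [NormedAddCommGroup V] [NormedSpace ℝ V]

open Classical in
/-- the transition germs -/
noncomputable def OpenCharts.gam (C : OpenCharts M V) (i : C.ι) (a : Λ) (j : C.ι) (x : E) :
    V → V :=
  if h : x ∈ C.dom j ∧ M.act a x ∈ C.dom i then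
    (C.trans i a j x h.1 h.2).choose else id

theorem OpenCharts.gam_spec (C : OpenCharts M V) {i : C.ι} {a : Λ} {j : C.ι} {x : E}
    (h1 : x ∈ C.dom j) (h2 : M.act a x ∈ C.dom i) :
    ContDiffAt ℝ ∞ (C.gam i a j x) (C.f j x) ∧
      0 < (fderiv ℝ (C.gam i a j x) (C.f j x)).det ∧
      ∀ᶠ y in 𝓝 x, C.gam i a j x (C.f j y) = C.f i (M.act a y) := by
  have h : x ∈ C.dom j ∧ M.act a x ∈ C.dom i := ⟨h1, h2⟩
  have e : C.gam i a j x = (C.trans i a j x h1 h2).choose := by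
    unfold OpenCharts.gam
    rw [dif_pos h]
  rw [e]
  exact (C.trans i a j x h1 h2).choose_spec

theorem OpenCharts.continuousAt_act (a : Λ) {x : E} (hx : x ∈ M.U) :
    ContinuousAt (M.act a) x :=
  (M.smooth_act a).continuousOn.continuousAt (M.isOpen_U.mem_nhds hx)

theorem OpenCharts.gam_locConst (C : OpenCharts M V) {i : C.ι} {a : Λ} {j : C.ι} {x : E}
    (h1 : x ∈ C.dom j) (h2 : M.act a x ∈ C.dom i) :
    ∀ᶠ y in 𝓝 x, C.gam i a j y =ᶠ[𝓝 (C.f j y)] C.gam i a j x := by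
  have hx := (C.gam_spec h1 h2).2.2.eventually_nhds
  have hj : ∀ᶠ y in 𝓝 x, y ∈ C.dom j := (C.isOpen_dom j).mem_nhds h1
  have hi : ∀ᶠ y in 𝓝 x, M.act a y ∈ C.dom i :=
    (OpenCharts.continuousAt_act a (C.dom_subset j h1)).eventually_mem
      ((C.isOpen_dom i).mem_nhds h2)
  filter_upwards [hx, hj, hi] with y hy1 hy2 hy3
  have hy4 := (C.gam_spec hy2 hy3).2.2
  have : ∀ᶠ z in 𝓝 y, C.gam i a j y (C.f j z) = C.gam i a j x (C.f j z) := by
    filter_upwards [hy1, hy4] with z hz1 hz2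
    rw [hz1, hz2]
  exact C.open_f j y hy2 this

theorem OpenCharts.gam_comp (C : OpenCharts M V) {i : C.ι} {a : Λ} {j : C.ι} {b : Λ} {k : C.ι}
    {x : E} (h1 : x ∈ C.dom k) (h2 : M.act b x ∈ C.dom j)
    (h3 : M.act a (M.act b x) ∈ C.dom i) :
    (fun v => C.gam i a j (M.act b x) (C.gam j b k x v)) =ᶠ[𝓝 (C.f k x)]
      C.gam i (a + b) k x := by
  have hU := C.dom_subset k h1
  have e1 := (C.gam_spec h1 h2).2.2
  have e2 := (C.gam_spec h2 h3).2.2
  have h4 : M.act (a + b) x ∈ C.dom i := by rw [M.act_add a b x hU]; exact h3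
  have e3 := (C.gam_spec h1 h4).2.2
  have e2' : ∀ᶠ y in 𝓝 x, C.gam i a j (M.act b x) (C.f j (M.act b y)) =
      C.f i (M.act a (M.act b y)) :=
    (OpenCharts.continuousAt_act b hU).eventually e2
  have hUy : ∀ᶠ y in 𝓝 x, y ∈ M.U := M.isOpen_U.mem_nhds hU
  have : ∀ᶠ y in 𝓝 x, C.gam i a j (M.act b x) (C.gam j b k x (C.f k y)) =
      C.gam i (a + b) k x (C.f k y) := by
    filter_upwards [e1, e2', e3, hUy] with y hy1 hy2 hy3 hy4
    rw [hy1, hy2, hy3, M.act_add a b y hy4]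
  exact C.open_f k x h1 this

open Classical in
/-- the Haefliger structure -/
noncomputable def OpenCharts.toH (C : OpenCharts M V) : HaefligerStructure M V where
  ι := C.ι
  dom := C.dom
  isOpen_dom := C.isOpen_dom
  dom_subset := C.dom_subset
  cover := C.cover
  f := C.f
  smooth_f := C.smooth_f
  γ := fun i a j x => if h : x ∈ C.dom j ∧ M.act a x ∈ C.dom i then
    (C.trans i a j x h.1 h.2).choose else id
  smooth_γ := fun i a j x h1 h2 => (C.gam_spec h1 h2).1
  orient_γ := fun i a j x h1 h2 => (C.gam_spec h1 h2).2.1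
  map_γ := fun i a j x h1 h2 => (C.gam_spec h1 h2).2.2
  locConst_γ := fun i a j x h1 h2 => C.gam_locConst h1 h2
  comp_γ := fun i a j b k x h1 h2 h3 => C.gam_comp h1 h2 h3

/-- a map with surjective derivative is open -/
theorem le_map_of_surjective {V : Type} [NormedAddCommGroup V] [NormedSpace ℝ V]
    [FiniteDimensional ℝ E] [FiniteDimensional ℝ V] (f : E → V) (x : E)
    (hf : ContDiffAt ℝ ∞ f x) (hs : Function.Surjective (fderiv ℝ f x)) :
    𝓝 (f x) ≤ map f (𝓝 x) := by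
  haveI : CompleteSpace E := FiniteDimensional.complete ℝ E
  haveI : CompleteSpace V := FiniteDimensional.complete ℝ V
  have h := hf.hasStrictFDerivAt (by simp)
  exact (h.map_nhds_eq_of_surj (LinearMap.range_eq_top.2 hs)).ge

/-- being related by a germ of an oriented local diffeomorphism is symmetric -/
theorem germ_symm {V : Type} [NormedAddCommGroup V] [NormedSpace ℝ V] [FiniteDimensional ℝ V]
    {f g : E → V} {x : E} (hf : ContinuousAt f x) (γ : V → V) (hγ : ContDiffAt ℝ ∞ γ (f x))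
    (hdet : 0 < (fderiv ℝ γ (f x)).det) (h : ∀ᶠ y in 𝓝 x, γ (f y) = g y) :
    ∃ γ' : V → V, ContDiffAt ℝ ∞ γ' (g x) ∧ 0 < (fderiv ℝ γ' (g x)).det ∧
      ∀ᶠ y in 𝓝 x, γ' (g y) = f y := by
  haveI : CompleteSpace V := FiniteDimensional.complete ℝ V
  set A : V →L[ℝ] V := fderiv ℝ γ (f x) with hA
  have hdet0 : A.det ≠ 0 := hdet.ne'
  set L : V ≃L[ℝ] V := A.toContinuousLinearEquivOfDetNeZero hdet0 with hL
  have hLA : (L : V →L[ℝ] V) = A := by
    ext v
    simp [hL]
  have hd : HasFDerivAt γ (L : V →L[ℝ] V) (f x) := by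
    rw [hLA]
    exact (hγ.differentiableAt (by simp)).hasFDerivAt
  have hn : (∞ : WithTop ℕ∞) ≠ 0 := by simp
  have hs : HasStrictFDerivAt γ (L : V →L[ℝ] V) (f x) := hγ.hasStrictFDerivAt' hd hn
  have hgx : γ (f x) = g x := h.self_of_nhds
  refine ⟨hγ.localInverse hd hn, ?_, ?_, ?_⟩
  · rw [← hgx]; exact hγ.to_localInverse hd hn
  · have h1 : HasStrictFDerivAt (hγ.localInverse hd hn) (L.symm : V →L[ℝ] V) (γ (f x)) :=
      hs.to_localInverse
    rw [← hgx, h1.hasFDerivAt.fderiv]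
    have h2 : (L.symm : V →L[ℝ] V).det * (L : V →L[ℝ] V).det = 1 := by
      have h3 : ((L.symm : V →L[ℝ] V) ∘L (L : V →L[ℝ] V)) = ContinuousLinearMap.id ℝ V := by
        ext v; simp
      have h4 : LinearMap.det (((L.symm : V →L[ℝ] V) : V →ₗ[ℝ] V) ∘ₗ
          ((L : V →L[ℝ] V) : V →ₗ[ℝ] V)) = 1 := by
        have : (((L.symm : V →L[ℝ] V) : V →ₗ[ℝ] V) ∘ₗ ((L : V →L[ℝ] V) : V →ₗ[ℝ] V)) =
          LinearMap.id := by
          ext v; simp
        rw [this, LinearMap.det_id]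
      rw [LinearMap.det_comp] at h4
      exact h4
    rw [hLA] at h2
    by_contra hc
    have hc' : (L.symm : V →L[ℝ] V).det ≤ 0 := not_lt.1 hc
    have := mul_nonpos_of_nonpos_of_nonneg hc' hdet.le
    linarith
  · have h1 : ∀ᶠ v in 𝓝 (f x), hγ.localInverse hd hn (γ v) = v :=
      hs.eventually_left_inverse
    have h2 := hf.eventually h1
    filter_upwards [h, h2] with y hy1 hy2
    rw [← hy1]; exact hy2

/-- being related by a germ of an oriented local diffeomorphism is transitive -/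
theorem germ_trans {V : Type} [NormedAddCommGroup V] [NormedSpace ℝ V] [FiniteDimensional ℝ V]
    {f g h : E → V} {x : E} (γ : V → V) (hγ : ContDiffAt ℝ ∞ γ (f x))
    (hdet : 0 < (fderiv ℝ γ (f x)).det) (h1 : ∀ᶠ y in 𝓝 x, γ (f y) = g y)
    (γ' : V → V) (hγ' : ContDiffAt ℝ ∞ γ' (g x))
    (hdet' : 0 < (fderiv ℝ γ' (g x)).det) (h2 : ∀ᶠ y in 𝓝 x, γ' (g y) = h y) :
    ∃ γ'' : V → V, ContDiffAt ℝ ∞ γ'' (f x) ∧ 0 < (fderiv ℝ γ'' (f x)).det ∧
      ∀ᶠ y in 𝓝 x, γ'' (f y) = h y := by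
  have hgx : γ (f x) = g x := h1.self_of_nhds
  rw [← hgx] at hγ' hdet'
  refine ⟨γ' ∘ γ, hγ'.comp _ hγ, ?_, ?_⟩
  · rw [fderiv_comp _ (hγ'.differentiableAt (by simp)) (hγ.differentiableAt (by simp))]
    have : ((fderiv ℝ γ' (γ (f x))) ∘L (fderiv ℝ γ (f x))).det =
        (fderiv ℝ γ' (γ (f x))).det * (fderiv ℝ γ (f x)).det :=
      LinearMap.det_comp _ _
    rw [this]
    exact mul_pos hdet' hdet
  · filter_upwards [h1, h2] with y hy1 hy2
    rw [Function.comp_apply, hy1, hy2]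

/-- open maps composed with germs of local diffeomorphisms are open -/
theorem le_map_of_germ {V : Type} [NormedAddCommGroup V] [NormedSpace ℝ V]
    [FiniteDimensional ℝ V] {f g : E → V} {x : E} (hf : 𝓝 (f x) ≤ map f (𝓝 x))
    (γ : V → V) (hγ : ContDiffAt ℝ ∞ γ (f x)) (hdet : 0 < (fderiv ℝ γ (f x)).det)
    (h : ∀ᶠ y in 𝓝 x, γ (f y) = g y) : 𝓝 (g x) ≤ map g (𝓝 x) := by
  have hgx : γ (f x) = g x := h.self_of_nhds
  have hsurj : Function.Surjective (fderiv ℝ γ (f x)) := by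
    intro v
    refine ⟨((fderiv ℝ γ (f x)).toContinuousLinearEquivOfDetNeZero hdet.ne').symm v, ?_⟩
    exact ((fderiv ℝ γ (f x)).toContinuousLinearEquivOfDetNeZero hdet.ne').apply_symm_apply v
  have h1 := le_map_of_surjective γ (f x) hγ hsurj
  rw [hgx] at h1
  refine h1.trans ((Filter.map_mono hf).trans ?_)
  rw [Filter.map_map]
  exact (Filter.map_congr h).le

end

end Pool.Agent.HAF2
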