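import Pool.Agent.HAF2.ChSm
import Pool.Agent.HAF2.Opn

/-!
# Module CH6: the action in the collar coordinate

For `w ≠ 0` put `r = log ‖w‖`, `u = w / ‖w‖`, `η = √(1 - epsf two r)`,
`G = log (‖a‖² + ‖b‖² + 2 η re (a conj b u))`, `Y = a² η u + b² η conj u + 2 a b`,
`γ w = exp (r / √(1 + 2 r² G)) * Y / ‖Y‖`. By `YT_YZ_act`, `eta_rel` one has
`γ (fM two y) = fM two (l y)` near a point with `t = 0` (where `r = 0`). Near `‖w‖ = 1` the map `γ`
is smooth (`‖a‖² + ‖b‖² + 2 re (a conj b u) > 0`), and at a point with `‖w₀‖ = 1` its derivative maps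
`w₀` to `γ w₀` (as `deriv (epsf two) 0 = 0`) and `I w₀` to `κ I γ w₀`,
`κ = 1 / (‖a‖² + ‖b‖² + 2 re (a conj b w₀)) > 0`; use `det_pos_of_polar`.
-/

namespace Pool.Agent.HAF2

open Filter Topology MeasureTheory
open scoped ContDiff ComplexConjugate

/-- the factor `η` as a function of the local coordinate -/
noncomputable def ceta (two : Bool) (w : ℂ) : ℝ := Real.sqrt (1 - epsf two (Real.log ‖w‖))

/-- the normalised vector of the cone as a function of the local coordinate -/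
noncomputable def cX (two : Bool) (w : ℂ) : ℝ × ℂ := (1, (ceta two w : ℂ) * (w / (‖w‖ : ℂ)))

/-- the logarithm of the modulus of `cgam` -/
noncomputable def crad (two : Bool) (g : SU11) (w : ℂ) : ℝ :=
  Real.log ‖w‖ * (Real.sqrt (1 + 2 * Real.log ‖w‖ ^ 2 * Real.log (hact g (cX two w)).1))⁻¹

/-- the action in the collar coordinate -/
noncomputable def cgam (two : Bool) (g : SU11) (w : ℂ) : ℂ :=
  (Real.exp (crad two g w) : ℂ) * ((hact g (cX two w)).2 / (‖(hact g (cX two w)).2‖ : ℂ))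

theorem mm_hact_fst_pos (g : SU11) (X : ℝ × ℂ) (h1 : 0 < X.1) (h2 : ‖X.2‖ ≤ X.1) :
    0 < (hact g X).1 := by
  have hn := g.norm_eq
  rw [hym_norm_sq, hym_norm_sq] at hn
  have h3 : -(‖g.a‖ * ‖g.b‖ * ‖X.2‖) ≤ (g.a * conj g.b * X.2).re := by
    have h2 := Complex.abs_re_le_norm (g.a * conj g.b * X.2)
    rw [norm_mul, norm_mul, Complex.norm_conj] at h2
    exact (abs_le.1 h2).1
  have h4 : ‖g.a‖ * ‖g.b‖ * ‖X.2‖ ≤ ‖g.a‖ * ‖g.b‖ * X.1 :=
    mul_le_mul_of_nonneg_left h2 (by positivity)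
  have h5 : 0 < (‖g.a‖ - ‖g.b‖) ^ 2 := by
    have h6 : ‖g.a‖ - ‖g.b‖ ≠ 0 := by
      intro h
      have h7 : ‖g.a‖ = ‖g.b‖ := by linarith
      rw [h7] at hn
      linarith
    positivity
  have h8 := mul_pos h5 h1
  change 0 < (Complex.normSq g.a + Complex.normSq g.b) * X.1 + 2 * (g.a * conj g.b * X.2).re
  rw [hym_norm_sq, hym_norm_sq]
  nlinarith

theorem ceta_sq (two : Bool) (w : ℂ) : ceta two w ^ 2 = 1 - epsf two (Real.log ‖w‖) :=
  Real.sq_sqrt (by linarith [epsf_lt_one two (Real.log ‖w‖)])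

theorem ceta_pos (two : Bool) (w : ℂ) : 0 < ceta two w :=
  Real.sqrt_pos.2 (by linarith [epsf_lt_one two (Real.log ‖w‖)])

theorem ceta_le_one (two : Bool) (w : ℂ) : ceta two w ≤ 1 := by
  rw [ceta]
  refine Real.sqrt_le_one.mpr ?_
  linarith [epsf_nonneg two (Real.log ‖w‖)]

theorem norm_cX (two : Bool) (w : ℂ) (hw : w ≠ 0) : ‖(cX two w).2‖ = ceta two w := by
  have h : ‖w‖ ≠ 0 := norm_ne_zero_iff.mpr hw
  rw [cX, norm_mul, norm_div, Complex.norm_real, Complex.norm_real, norm_norm, div_self h,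
    mul_one, Real.norm_of_nonneg (ceta_pos two w).le]

theorem cX_fst_pos (two : Bool) (g : SU11) (w : ℂ) (hw : w ≠ 0) :
    0 < (hact g (cX two w)).1 := by
  apply mm_hact_fst_pos
  · exact one_pos
  · rw [norm_cX two w hw]
    exact ceta_le_one two w

theorem mm_hact_smul (g : SU11) (t : ℝ) (X : ℝ × ℂ) : hact g (t • X) = t • hact g X := by
  exact (hactL g).map_smul t X

/-- the equation for `cgam` -/
theorem cgam_fM (two : Bool) (l : Lam) (y : EH) (hy : y ∈ cdom two Ch.M) :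
    cgam two (gel l) (fM two y) = fM two (sphAct hypM hypL l y) := by
  obtain ⟨hyU, hy0, hZ, hD⟩ := hy
  have hT := YT_pos two y hyU hy0
  have heta := eta_rel two y ⟨hyU, hy0, hZ, hD⟩
  have hnZ : ‖YZ two y‖ ≠ 0 := norm_ne_zero_iff.mpr hZ
  have hnZc : (‖YZ two y‖ : ℂ) ≠ 0 := by exact_mod_cast hnZ
  have hnorm : ‖fM two y‖ = Real.exp (rr two y) := by
    rw [fM, norm_mul, norm_div, Complex.norm_real, Complex.norm_real, norm_norm, div_self hnZ,
      mul_one, Real.norm_of_nonneg (Real.exp_pos _).le]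
  have hlog : Real.log ‖fM two y‖ = rr two y := by rw [hnorm, Real.log_exp]
  have hfM0 : fM two y ≠ 0 := by
    rw [← norm_pos_iff, hnorm]
    exact Real.exp_pos _
  have hdir : fM two y / (‖fM two y‖ : ℂ) = YZ two y / (‖YZ two y‖ : ℂ) := by
    rw [hnorm, fM]
    have : (Real.exp (rr two y) : ℂ) ≠ 0 := by exact_mod_cast (Real.exp_pos _).ne'
    rw [mul_div_assoc', mul_div_assoc, mul_comm, mul_div_assoc, ]
    field_simp
  have hc : YT two y * ceta two (fM two y) = ‖YZ two y‖ := by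
    have h1 : (YT two y * ceta two (fM two y)) ^ 2 = ‖YZ two y‖ ^ 2 := by
      rw [mul_pow, ceta_sq, hlog, ← heta, Complex.normSq_eq_norm_sq]
    have h2 : 0 ≤ YT two y * ceta two (fM two y) := (mul_pos hT (ceta_pos two _)).le
    exact (sq_eq_sq₀ h2 (norm_nonneg _)).1 h1
  have hX : (YT two y, YZ two y) = YT two y • cX two (fM two y) := by
    refine Prod.ext ?_ ?_
    · simp [cX]
    · change YZ two y = YT two y • ((ceta two (fM two y) : ℂ) * (fM two y / (‖fM two y‖ : ℂ)))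
      rw [hdir, Complex.real_smul, ← mul_assoc, ← Complex.ofReal_mul, hc]
      field_simp
  have hact' := YT_YZ_act two l y hyU
  rw [hX, mm_hact_smul] at hact'
  set P := (hact (gel l) (cX two (fM two y))).1 with hP
  set Q := (hact (gel l) (cX two (fM two y))).2 with hQ
  have hPpos : 0 < P := cX_fst_pos two (gel l) _ hfM0
  have hT' : YT two (sphAct hypM hypL l y) = YT two y * P := congrArg Prod.fst hact'
  have hZ' : YZ two (sphAct hypM hypL l y) = (YT two y : ℂ) * Q := by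
    have h := congrArg Prod.snd hact'
    rw [Prod.smul_snd, Complex.real_smul] at h
    exact h
  have hTc : (YT two y : ℂ) ≠ 0 := by exact_mod_cast hT.ne'
  have hdir' : YZ two (sphAct hypM hypL l y) / (‖YZ two (sphAct hypM hypL l y)‖ : ℂ) =
      Q / (‖Q‖ : ℂ) := by
    rw [hZ', norm_mul, Complex.norm_real, Real.norm_of_nonneg hT.le, Complex.ofReal_mul,
      mul_div_mul_left _ _ hTc]
  have hGG : GG two (sphAct hypM hypL l y) = GG two y + Real.log P := by
    rw [GG, GG, mmf_act l y hyU, hT', Real.log_mul hT.ne' hPpos.ne']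
    ring
  have hDpos : 0 < Real.sqrt (DD two y) := Real.sqrt_pos.2 hD
  have hrr2 : rr two y ^ 2 = y.2.2 ^ 2 / DD two y := by
    rw [rr, div_pow, Real.sq_sqrt hD.le]
  have hDD : DD two (sphAct hypM hypL l y) =
      DD two y * (1 + 2 * rr two y ^ 2 * Real.log P) := by
    have e1 : DD two (sphAct hypM hypL l y) = DD two y + 2 * y.2.2 ^ 2 * Real.log P := by
      rw [DD, hGG]
      change 1 + 2 * y.2.2 ^ 2 * (GG two y + Real.log P) =
        1 + 2 * y.2.2 ^ 2 * GG two y + 2 * y.2.2 ^ 2 * Real.log P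
      ring
    rw [e1, hrr2]
    field_simp
  have hrad : rr two (sphAct hypM hypL l y) = crad two (gel l) (fM two y) := by
    rw [crad, hlog, ← hP]
    change y.2.2 / Real.sqrt (DD two (sphAct hypM hypL l y)) = _
    rw [hDD, Real.sqrt_mul hD.le]
    change _ = y.2.2 / Real.sqrt (DD two y) * _
    rw [div_mul_eq_div_div, div_eq_mul_inv (y.2.2 / Real.sqrt (DD two y))]
  rw [cgam, ← hQ, ← hrad, ← hdir']
  rfl

section

variable (two : Bool) (g : SU11) (w₀ : ℂ) (h₀ : ‖w₀‖ = 1)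

include h₀

theorem mm_ne_zero_of_norm_one : w₀ ≠ 0 := by
  rw [← norm_pos_iff, h₀]
  exact one_pos

theorem mm_contDiffAt_lognorm : ContDiffAt ℝ ∞ (fun w : ℂ => Real.log ‖w‖) w₀ := by
  have h := mm_ne_zero_of_norm_one w₀ h₀
  exact (contDiffAt_norm ℝ h).log (norm_ne_zero_iff.mpr h)

theorem contDiffAt_ceta : ContDiffAt ℝ ∞ (ceta two) w₀ := by
  have h : ContDiffAt ℝ ∞ (fun w : ℂ => 1 - epsf two (Real.log ‖w‖)) w₀ :=
    contDiffAt_const.sub ((contDiff_epsf two).contDiffAt.comp w₀ (mm_contDiffAt_lognorm w₀ h₀))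
  exact h.sqrt (by linarith [epsf_lt_one two (Real.log ‖w₀‖)] : (0 : ℝ) < _).ne'

theorem mm_contDiffAt_dir : ContDiffAt ℝ ∞ (fun w : ℂ => w / (‖w‖ : ℂ)) w₀ := by
  have h := mm_ne_zero_of_norm_one w₀ h₀
  have h1 : ContDiffAt ℝ ∞ (fun w : ℂ => (‖w‖ : ℂ)) w₀ :=
    Complex.ofRealCLM.contDiff.contDiffAt.comp w₀ (contDiffAt_norm ℝ h)
  have h2 := h1.inv (by exact_mod_cast norm_ne_zero_iff.mpr h)
  have h3 := contDiffAt_id.mul h2
  exact h3.congr_of_eventuallyEq (Filter.Eventually.of_forall fun w => div_eq_mul_inv _ _)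

theorem contDiffAt_cX : ContDiffAt ℝ ∞ (cX two) w₀ := by
  have h1 : ContDiffAt ℝ ∞ (fun w : ℂ => (ceta two w : ℂ)) w₀ :=
    Complex.ofRealCLM.contDiff.contDiffAt.comp w₀ (contDiffAt_ceta two w₀ h₀)
  exact contDiffAt_const.prodMk (h1.mul (mm_contDiffAt_dir w₀ h₀))

theorem contDiffAt_hactcX : ContDiffAt ℝ ∞ (fun w => hact g (cX two w)) w₀ :=
  (hactL g).contDiff.contDiffAt.comp w₀ (contDiffAt_cX two w₀ h₀)

theorem mm_log_norm_one : Real.log ‖w₀‖ = 0 := by rw [h₀, Real.log_one]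

theorem ceta_one : ceta two w₀ = 1 := by
  rw [ceta, mm_log_norm_one w₀ h₀, epsf_zero, sub_zero, Real.sqrt_one]

theorem cX_one : cX two w₀ = (1, w₀) := by
  rw [cX, ceta_one two w₀ h₀, h₀]
  simp

theorem mm_normSq_one : Complex.normSq w₀ = 1 := by
  rw [Complex.normSq_eq_norm_sq, h₀, one_pow]

theorem mm_hact_snd_ne : (hact g (cX two w₀)).2 ≠ 0 := by
  have h1 := cX_fst_pos two g w₀ (mm_ne_zero_of_norm_one w₀ h₀)
  have h2 := lorentz_hact g (cX two w₀)
  have h3 : (cX two w₀).1 ^ 2 - Complex.normSq (cX two w₀).2 = 0 := by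
    rw [cX_one two w₀ h₀]
    change (1 : ℝ) ^ 2 - Complex.normSq w₀ = 0
    rw [mm_normSq_one w₀ h₀]
    norm_num
  rw [h3] at h2
  intro h
  rw [h, map_zero] at h2
  nlinarith

theorem contDiffAt_cden : ContDiffAt ℝ ∞ (fun w : ℂ => (Real.sqrt (1 + 2 * Real.log ‖w‖ ^ 2 *
    Real.log (hact g (cX two w)).1))⁻¹) w₀ := by
  have h1 := mm_contDiffAt_lognorm w₀ h₀
  have h2 : ContDiffAt ℝ ∞ (fun w => (hact g (cX two w)).1) w₀ :=
    contDiffAt_fst.comp w₀ (contDiffAt_hactcX two g w₀ h₀)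
  have h3 := h2.log (cX_fst_pos two g w₀ (mm_ne_zero_of_norm_one w₀ h₀)).ne'
  have h4 : ContDiffAt ℝ ∞ (fun w : ℂ => 1 + 2 * Real.log ‖w‖ ^ 2 *
      Real.log (hact g (cX two w)).1) w₀ :=
    contDiffAt_const.add ((contDiffAt_const.mul (h1.pow 2)).mul h3)
  have h5 : (1 + 2 * Real.log ‖w₀‖ ^ 2 * Real.log (hact g (cX two w₀)).1) = 1 := by
    rw [mm_log_norm_one w₀ h₀]
    ring
  have h6 := h4.sqrt (by rw [h5]; exact one_ne_zero)
  exact h6.inv (by rw [h5, Real.sqrt_one]; exact one_ne_zero)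

theorem contDiffAt_crad : ContDiffAt ℝ ∞ (crad two g) w₀ :=
  (mm_contDiffAt_lognorm w₀ h₀).mul (contDiffAt_cden two g w₀ h₀)

theorem contDiffAt_cY : ContDiffAt ℝ ∞ (fun w => (hact g (cX two w)).2) w₀ :=
  contDiffAt_snd.comp w₀ (contDiffAt_hactcX two g w₀ h₀)

theorem contDiffAt_cdirY : ContDiffAt ℝ ∞
    (fun w => (hact g (cX two w)).2 / (‖(hact g (cX two w)).2‖ : ℂ)) w₀ := by
  have h := mm_hact_snd_ne two g w₀ h₀
  have h0 := contDiffAt_cY two g w₀ h₀
  have h1 : ContDiffAt ℝ ∞ (fun w => (‖(hact g (cX two w)).2‖ : ℂ)) w₀ :=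
    Complex.ofRealCLM.contDiff.contDiffAt.comp w₀ (h0.norm ℝ h)
  have h2 := h1.inv (by exact_mod_cast norm_ne_zero_iff.mpr h)
  have h3 := h0.mul h2
  exact h3.congr_of_eventuallyEq (Filter.Eventually.of_forall fun w => div_eq_mul_inv _ _)

theorem contDiffAt_cgam : ContDiffAt ℝ ∞ (cgam two g) w₀ := by
  have h1 : ContDiffAt ℝ ∞ (fun w => (Real.exp (crad two g w) : ℂ)) w₀ :=
    Complex.ofRealCLM.contDiff.contDiffAt.comp w₀ (contDiffAt_crad two g w₀ h₀).exp
  exact h1.mul (contDiffAt_cdirY two g w₀ h₀)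

/-- radial derivative of the logarithm of the norm -/
theorem mm_fderiv_lognorm : fderiv ℝ (fun w : ℂ => Real.log ‖w‖) w₀ w₀ = 1 := by
  have hd : DifferentiableAt ℝ (fun w : ℂ => Real.log ‖w‖) w₀ :=
    (mm_contDiffAt_lognorm w₀ h₀).differentiableAt (by simp)
  have hc : HasDerivAt (fun s : ℝ => (Real.exp s : ℂ) * w₀) w₀ 0 := by
    have h1 : HasDerivAt (fun s : ℝ => (Real.exp s : ℂ)) ((Real.exp 0 : ℝ) : ℂ) 0 :=
      (Real.hasDerivAt_exp 0).ofReal_comp
    have h2 := h1.mul_const w₀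
    simpa using h2
  have hval : ∀ s : ℝ, Real.log ‖(Real.exp s : ℂ) * w₀‖ = s := by
    intro s
    rw [norm_mul, h₀, mul_one, Complex.norm_real, Real.norm_of_nonneg (Real.exp_pos s).le,
      Real.log_exp]
  have h0 : (Real.exp 0 : ℂ) * w₀ = w₀ := by simp
  have hd' : HasFDerivAt (fun w : ℂ => Real.log ‖w‖) (fderiv ℝ (fun w : ℂ => Real.log ‖w‖) w₀)
      ((fun s : ℝ => (Real.exp s : ℂ) * w₀) 0) := by
    change HasFDerivAt _ _ ((Real.exp 0 : ℂ) * w₀)
    rw [h0]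
    exact hd.hasFDerivAt
  have h3 := hd'.comp_hasDerivAt (0 : ℝ) hc
  have h4 : HasDerivAt (fun s : ℝ => s) (1 : ℝ) 0 := hasDerivAt_id 0
  have h5 : ((fun w : ℂ => Real.log ‖w‖) ∘ fun s : ℝ => (Real.exp s : ℂ) * w₀) =
      fun s : ℝ => s := funext hval
  rw [h5] at h3
  exact h3.unique h4

theorem fderiv_crad : fderiv ℝ (crad two g) w₀ w₀ = 1 := by
  have h1 : DifferentiableAt ℝ (fun w : ℂ => Real.log ‖w‖) w₀ :=
    (mm_contDiffAt_lognorm w₀ h₀).differentiableAt (by simp)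
  have h2 := (contDiffAt_cden two g w₀ h₀).differentiableAt (by simp)
  have h3 := h1.hasFDerivAt.mul h2.hasFDerivAt
  have h4 : fderiv ℝ (crad two g) w₀ = _ := h3.fderiv
  rw [h4]
  simp only [add_apply, smul_apply, smul_eq_mul]
  rw [mm_fderiv_lognorm w₀ h₀, mm_log_norm_one w₀ h₀]
  norm_num

theorem hasFDerivAt_ceta : HasFDerivAt (ceta two) (0 : ℂ →L[ℝ] ℝ) w₀ := by
  have h1 : DifferentiableAt ℝ (fun w : ℂ => Real.log ‖w‖) w₀ :=
    (mm_contDiffAt_lognorm w₀ h₀).differentiableAt (by simp)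
  have h2 : HasDerivAt (epsf two) 0 (Real.log ‖w₀‖) := by
    have h := ((contDiff_epsf two).differentiable (by simp) 0).hasDerivAt
    rw [deriv_epsf_zero two] at h
    rw [mm_log_norm_one w₀ h₀]
    exact h
  have h3 := h2.comp_hasFDerivAt w₀ h1.hasFDerivAt
  have h4 : HasFDerivAt (fun w : ℂ => 1 - epsf two (Real.log ‖w‖)) (0 : ℂ →L[ℝ] ℝ) w₀ := by
    have h5 := (hasFDerivAt_const (1 : ℝ) w₀).sub h3
    rw [zero_smul, sub_zero] at h5
    exact h5
  have h6 : (1 - epsf two (Real.log ‖w₀‖)) ≠ 0 := by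
    linarith [epsf_lt_one two (Real.log ‖w₀‖)] |> fun h : (0 : ℝ) < _ => h.ne'
  have h7 := h4.sqrt h6
  rw [smul_zero] at h7
  exact h7

theorem fderiv_cX (v : ℂ) : HasFDerivAt (cX two)
    (ContinuousLinearMap.prod (0 : ℂ →L[ℝ] ℝ) (fderiv ℝ (fun w : ℂ => w / (‖w‖ : ℂ)) w₀)) w₀ ∧
    fderiv ℝ (fun w : ℂ => w / (‖w‖ : ℂ)) w₀ v =
      Complex.I * w₀ * (((conj w₀ * v).im : ℝ) : ℂ) := by
  have hne := mm_ne_zero_of_norm_one w₀ h₀
  constructor
  · have h1 : HasFDerivAt (fun w : ℂ => (ceta two w : ℂ)) (0 : ℂ →L[ℝ] ℂ) w₀ := by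
      have h := Complex.ofRealCLM.hasFDerivAt.comp w₀ (hasFDerivAt_ceta two w₀ h₀)
      rw [ContinuousLinearMap.comp_zero] at h
      exact h
    have h2 : HasFDerivAt (fun w : ℂ => w / (‖w‖ : ℂ)) _ w₀ :=
      ((mm_contDiffAt_dir w₀ h₀).differentiableAt (by simp)).hasFDerivAt
    have h3 := h1.mul h2
    have h4 := (hasFDerivAt_const (1 : ℝ) w₀).prodMk h3
    refine h4.congr_fderiv ?_
    rw [ceta_one two w₀ h₀]
    ext
    · simp
    · simp
  · have h := hyl_fderiv_dir (fun w : ℂ => w) w₀ differentiableAt_id hne v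
    have h2 : fderiv ℝ (fun w : ℂ => w) w₀ v = v := by
      rw [fderiv_fun_id]
      rfl
    rw [h2, h₀, mm_normSq_one w₀ h₀] at h
    rw [h]
    simp

theorem fderiv_cY (v : ℂ) : fderiv ℝ (fun w => (hact g (cX two w)).2) w₀ v =
    g.a ^ 2 * (Complex.I * w₀ * (((conj w₀ * v).im : ℝ) : ℂ)) +
      g.b ^ 2 * conj (Complex.I * w₀ * (((conj w₀ * v).im : ℝ) : ℂ)) := by
  obtain ⟨h1, h2⟩ := fderiv_cX two w₀ h₀ v
  have h3 := (hactL g).hasFDerivAt.comp w₀ h1
  have h4 := h3.snd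
  have h5 : fderiv ℝ (fun w => (hact g (cX two w)).2) w₀ = _ := h4.fderiv
  rw [h5]
  change (hact g ((0 : ℝ), fderiv ℝ (fun w : ℂ => w / (‖w‖ : ℂ)) w₀ v)).2 = _
  rw [h2, hact]
  simp

/-- the derivative of `cgam` -/
theorem fderiv_cgam (v : ℂ) : fderiv ℝ (cgam two g) w₀ v =
    cgam two g w₀ * ((fderiv ℝ (crad two g) w₀ v : ℝ) : ℂ) +
      Complex.I * cgam two g w₀ *
        (((conj (hact g (cX two w₀)).2 *
          fderiv ℝ (fun w => (hact g (cX two w)).2) w₀ v).im /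
            Complex.normSq (hact g (cX two w₀)).2 : ℝ) : ℂ) := by
  have hr0 : crad two g w₀ = 0 := by
    rw [crad, mm_log_norm_one w₀ h₀, zero_mul]
  have h1 := ((contDiffAt_crad two g w₀ h₀).differentiableAt (by simp)).hasFDerivAt
  have h2 := Complex.ofRealCLM.hasFDerivAt.comp w₀ h1.exp
  have h3 := ((contDiffAt_cdirY two g w₀ h₀).differentiableAt (by simp)).hasFDerivAt
  have h4 := h2.mul h3
  have h5 : fderiv ℝ (cgam two g) w₀ = _ := h4.fderiv
  have h6 := hyl_fderiv_dir (fun w => (hact g (cX two w)).2) w₀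
    ((contDiffAt_cY two g w₀ h₀).differentiableAt (by simp)) (mm_hact_snd_ne two g w₀ h₀) v
  have h7 : cgam two g w₀ = (hact g (cX two w₀)).2 / (‖(hact g (cX two w₀)).2‖ : ℂ) := by
    rw [cgam, hr0]
    simp
  rw [h5, h7]
  simp only [add_apply, smul_apply, smul_eq_mul,
    ContinuousLinearMap.comp_apply, Complex.ofRealCLM_apply, Function.comp_apply]
  rw [h6, hr0]
  simp only [Real.exp_zero, Complex.ofReal_one, one_mul]
  ring

theorem det_cgam : 0 < (fderiv ℝ (cgam two g) w₀).det := by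
  have hne := mm_ne_zero_of_norm_one w₀ h₀
  have hY := mm_hact_snd_ne two g w₀ h₀
  have hγ : cgam two g w₀ ≠ 0 := by
    rw [cgam]
    refine mul_ne_zero (by exact_mod_cast (Real.exp_pos _).ne') (div_ne_zero hY ?_)
    exact_mod_cast norm_ne_zero_iff.mpr hY
  have hw : conj w₀ * w₀ = 1 := by
    rw [mul_comm, Complex.mul_conj, mm_normSq_one w₀ h₀, Complex.ofReal_one]
  have hfst : (hact g (cX two w₀)).1 = Complex.normSq g.a + Complex.normSq g.b +
      2 * (g.a * conj g.b * w₀).re := by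
    rw [cX_one two w₀ h₀, hact]
    change (Complex.normSq g.a + Complex.normSq g.b) * 1 + 2 * (g.a * conj g.b * w₀).re = _
    ring
  have hsnd : (hact g (cX two w₀)).2 = g.a ^ 2 * w₀ + g.b ^ 2 * conj w₀ + 2 * g.a * g.b := by
    rw [cX_one two w₀ h₀, hact]
    simp
  have hpos := cX_fst_pos two g w₀ hne
  refine det_pos_of_polar _ w₀ (cgam two g w₀) hne hγ
    ((hact g (cX two w₀)).1 / Complex.normSq (hact g (cX two w₀)).2)
    (fderiv ℝ (crad two g) w₀ (Complex.I * w₀))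
    (div_pos hpos (Complex.normSq_pos.2 hY)) ?_ ?_
  · rw [fderiv_cgam two g w₀ h₀, fderiv_crad two g w₀ h₀, fderiv_cY two g w₀ h₀, hw]
    simp
  · rw [fderiv_cgam two g w₀ h₀, fderiv_cY two g w₀ h₀]
    have e1 : conj w₀ * (Complex.I * w₀) = Complex.I := by
      rw [← mul_assoc, mul_comm (conj w₀) Complex.I, mul_assoc, hw, mul_one]
    rw [e1]
    have e2 : (conj (hact g (cX two w₀)).2 * (g.a ^ 2 * (Complex.I * w₀ * ((Complex.I.im : ℝ) : ℂ)) +
        g.b ^ 2 * conj (Complex.I * w₀ * ((Complex.I.im : ℝ) : ℂ)))).im =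
        (hact g (cX two w₀)).1 := by
      have hn := g.norm_eq
      have hw2 := mm_normSq_one w₀ h₀
      rw [hfst, hsnd]
      simp only [Complex.normSq_apply] at hn hw2 ⊢
      simp only [Complex.I_im, Complex.I_re, Complex.ofReal_one, mul_one, Complex.mul_re,
        Complex.mul_im, Complex.add_re, Complex.add_im, Complex.conj_re, Complex.conj_im,
        map_add, map_mul, Complex.conj_I, Complex.neg_re, Complex.neg_im, pow_two,
        Complex.re_ofNat, Complex.im_ofNat, map_ofNat]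
      linear_combination (g.a.re * g.a.re + g.a.im * g.a.im + (g.b.re * g.b.re + g.b.im * g.b.im) +
        2 * ((g.a.re * g.b.re + g.a.im * g.b.im) * w₀.re -
          (g.a.im * g.b.re - g.a.re * g.b.im) * w₀.im)) * hn +
        (g.a.re * g.a.re + g.a.im * g.a.im + (g.b.re * g.b.re + g.b.im * g.b.im)) *
          (g.a.re * g.a.re + g.a.im * g.a.im - (g.b.re * g.b.re + g.b.im * g.b.im)) * hw2
    rw [e2]
    ring

end

theorem trans_MM (two : Bool) (l : Lam) (p : EH) (hp : p ∈ cdom two Ch.M) (ht : p.2.2 = 0) :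
    ∃ γ : ℂ → ℂ, ContDiffAt ℝ ∞ γ (fM two p) ∧ 0 < (fderiv ℝ γ (fM two p)).det ∧
      ∀ᶠ y in 𝓝 p, γ (fM two y) = fM two (sphAct hypM hypL l y) := by
  have h₀ : ‖fM two p‖ = 1 := by
    have hnZ : ‖YZ two p‖ ≠ 0 := norm_ne_zero_iff.mpr hp.2.2.1
    rw [fM, norm_mul, norm_div, Complex.norm_real, Complex.norm_real, norm_norm, div_self hnZ,
      mul_one, Real.norm_of_nonneg (Real.exp_pos _).le, rr, ht, zero_div, Real.exp_zero]
  refine ⟨cgam two (gel l), contDiffAt_cgam two (gel l) _ h₀, det_cgam two (gel l) _ h₀, ?_⟩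
  filter_upwards [(isOpen_cdom two Ch.M).mem_nhds hp] with y hy
  exact cgam_fM two l y hy

end Pool.Agent.HAF2
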