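import Pool.Agent.HAF2.ChPol
import Pool.Agent.HAF2.ChMM
import Pool.Agent.HAF2.ChFr1

/-!
# Module CH9: the Haefliger structure of the hyperbolic blocks

* Openness. `H`: for `y ≠ 0` the composition of the derivative with `bR` is invertible
  (`det_hP_bR_pos`), for `y = 0` use `surjective_fderiv_hP_pole`; `V`: the same; `M`:
  `det_fM_bR_pos`. Then `le_map_of_surjective`.
* Transitions `(c', l, c)`: note that `t` is invariant. `H → H`: `mob (gel l)`; `V → V`:
  `conj ∘ mob ∘ conj` or `conj ∘ hvact ∘ conj`. `M → M`: for `t = 0` `trans_MM`; for `t < 0` go through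
  `H` (`germ_symm`, `germ_trans`, `trans_HM`), for `t > 0` through `V`. `H → M`: `H → H` by `l`, then
  `trans_HM` at `l p`; `M → H` similarly; `V ↔ M` similarly; `H ↔ V` impossible.
-/

namespace Pool.Agent.HAF2

open Filter Topology MeasureTheory
open scoped ContDiff ComplexConjugate

/-- a map with positive determinant is surjective -/
theorem ch9_surj (A : ℂ →L[ℝ] ℂ) (h : 0 < A.det) : Function.Surjective A := by
  have h1 : LinearMap.det (A : ℂ →ₗ[ℝ] ℂ) ≠ 0 := ne_of_gt h
  intro y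
  obtain ⟨x, hx⟩ := (LinearMap.equivOfDetNeZero (A : ℂ →ₗ[ℝ] ℂ) h1).surjective y
  exact ⟨x, hx⟩

theorem ch9_surj_comp (A : EH →L[ℝ] ℂ) (B : ℂ →L[ℝ] EH) (h : 0 < (A ∘L B).det) :
    Function.Surjective A := by
  intro y
  obtain ⟨x, hx⟩ := ch9_surj _ h y
  exact ⟨B x, hx⟩

theorem ch9_nhds {p : EH} (hp : p ∈ sphU hypM) : sphU hypM ∈ 𝓝 p :=
  (isOpen_sphU hypM).mem_nhds hp

theorem open_cf (two : Bool) (c : Ch) (p : EH) (hp : p ∈ cdom two c) :
    𝓝 (cf two c p) ≤ map (cf two c) (𝓝 p) := by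
  have hsm : ContDiffAt ℝ ∞ (cf two c) p :=
    (contDiffOn_cf two c).contDiffAt ((isOpen_cdom two c).mem_nhds hp)
  apply le_map_of_surjective _ _ hsm
  cases c with
  | H =>
    obtain ⟨h1, h2⟩ := hp
    by_cases hy : p.2.1 = 0
    · exact surjective_fderiv_hP_pole p h1 hy
    · exact ch9_surj_comp _ _ (det_hP_bR_pos two p h1 hy h2)
  | M =>
    exact ch9_surj_comp _ _ (det_fM_bR_pos two p hp)
  | V =>
    obtain ⟨h1, h2⟩ := hp
    by_cases hy : p.2.1 = 0
    · cases two with
      | false =>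
        have h3 : cf false Ch.V = hV := by
          funext q
          simp [cf]
        rw [h3]
        exact surjective_fderiv_hV_pole p h1 hy h2
      | true =>
        have h3 : cf true Ch.V = fun q => Complex.conjCLE (hP q) := by
          funext q
          simp [cf]
        have h4 : DifferentiableAt ℝ hP p :=
          (contDiffOn_hP.contDiffAt (ch9_nhds h1)).differentiableAt (by simp)
        have h5 : fderiv ℝ (fun q => Complex.conjCLE (hP q)) p =
            (Complex.conjCLE : ℂ →L[ℝ] ℂ) ∘L fderiv ℝ hP p :=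
          ((Complex.conjCLE : ℂ →L[ℝ] ℂ).hasFDerivAt.comp p h4.hasFDerivAt).fderiv
        rw [h3, h5]
        intro z
        obtain ⟨x, hx⟩ := surjective_fderiv_hP_pole p h1 hy (Complex.conjCLE z)
        refine ⟨x, ?_⟩
        show Complex.conjCLE (fderiv ℝ hP p x) = z
        rw [hx]
        simp
    · exact ch9_surj_comp _ _ (det_V_bR_pos two p h1 hy h2)

/-- the maps `f`, `g` are related by a germ of an oriented local diffeomorphism -/
def ch9_Germ (f g : EH → ℂ) (p : EH) : Prop :=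
  ∃ γ : ℂ → ℂ, ContDiffAt ℝ ∞ γ (f p) ∧ 0 < (fderiv ℝ γ (f p)).det ∧
    ∀ᶠ y in 𝓝 p, γ (f y) = g y

theorem ch9_Germ.symm {f g : EH → ℂ} {p : EH} (hf : ContinuousAt f p) (h : ch9_Germ f g p) :
    ch9_Germ g f p := by
  obtain ⟨γ, h1, h2, h3⟩ := h
  exact germ_symm hf γ h1 h2 h3

theorem ch9_Germ.trans {f g h : EH → ℂ} {p : EH} (h1 : ch9_Germ f g p) (h2 : ch9_Germ g h p) :
    ch9_Germ f h p := by
  obtain ⟨γ, a1, a2, a3⟩ := h1
  obtain ⟨γ', b1, b2, b3⟩ := h2
  exact germ_trans γ a1 a2 a3 γ' b1 b2 b3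

theorem ch9_act_cont (l : Lam) (p : EH) (hp : p ∈ sphU hypM) :
    ContinuousAt (sphAct hypM hypL l) p :=
  ((sphM hypM hypL).smooth_act l).continuousOn.continuousAt (ch9_nhds hp)

theorem ch9_Germ.pull {f g : EH → ℂ} {p : EH} (l : Lam) (hp : p ∈ sphU hypM)
    (h : ch9_Germ f g (sphAct hypM hypL l p)) :
    ch9_Germ (fun y => f (sphAct hypM hypL l y)) (fun y => g (sphAct hypM hypL l y)) p := by
  obtain ⟨γ, h1, h2, h3⟩ := h
  exact ⟨γ, h1, h2, (ch9_act_cont l p hp).eventually h3⟩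

theorem ch9_det_mul (A B : ℂ →L[ℝ] ℂ) : (A ∘L B).det = A.det * B.det :=
  LinearMap.det_comp (A : ℂ →ₗ[ℝ] ℂ) (B : ℂ →ₗ[ℝ] ℂ)

theorem ch9_det_conj_sq : (Complex.conjCLE : ℂ →L[ℝ] ℂ).det *
    (Complex.conjCLE : ℂ →L[ℝ] ℂ).det = 1 := by
  rw [← ch9_det_mul]
  have h : (Complex.conjCLE : ℂ →L[ℝ] ℂ) ∘L (Complex.conjCLE : ℂ →L[ℝ] ℂ) =
      ContinuousLinearMap.id ℝ ℂ := by
    ext z
    simp
  rw [h]
  exact LinearMap.det_id

/-- conjugation of germs -/
theorem ch9_Germ.conj {f g : EH → ℂ} {p : EH} (h : ch9_Germ f g p) :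
    ch9_Germ (fun y => conj (f y)) (fun y => conj (g y)) p := by
  obtain ⟨γ, h1, h2, h3⟩ := h
  have hcc : conj (conj (f p)) = f p := Complex.conj_conj _
  have h1' : ContDiffAt ℝ ∞ γ (Complex.conjCLE (conj (f p))) := by
    show ContDiffAt ℝ ∞ γ (conj (conj (f p)))
    rw [hcc]
    exact h1
  have hd : DifferentiableAt ℝ γ (f p) := h1.differentiableAt (by simp)
  have hd' : DifferentiableAt ℝ γ (Complex.conjCLE (conj (f p))) :=
    h1'.differentiableAt (by simp)
  refine ⟨fun z => Complex.conjCLE (γ (Complex.conjCLE z)), ?_, ?_, ?_⟩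
  · exact Complex.conjCLE.contDiff.contDiffAt.comp _
      (h1'.comp _ Complex.conjCLE.contDiff.contDiffAt)
  · have h4 : fderiv ℝ (fun z => Complex.conjCLE (γ (Complex.conjCLE z))) (conj (f p)) =
        (Complex.conjCLE : ℂ →L[ℝ] ℂ) ∘L (fderiv ℝ γ (Complex.conjCLE (conj (f p)))) ∘L
          (Complex.conjCLE : ℂ →L[ℝ] ℂ) := by
      apply HasFDerivAt.fderiv
      exact (Complex.conjCLE : ℂ →L[ℝ] ℂ).hasFDerivAt.comp _
        (hd'.hasFDerivAt.comp _ (Complex.conjCLE : ℂ →L[ℝ] ℂ).hasFDerivAt)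
    rw [h4, ch9_det_mul, ch9_det_mul]
    have h5 : Complex.conjCLE (conj (f p)) = f p := hcc
    rw [h5]
    have h6 := ch9_det_conj_sq
    have h7 : (Complex.conjCLE : ℂ →L[ℝ] ℂ).det *
        ((fderiv ℝ γ (f p)).det * (Complex.conjCLE : ℂ →L[ℝ] ℂ).det) =
        (fderiv ℝ γ (f p)).det := by
      linear_combination (fderiv ℝ γ (f p)).det * h6
    rw [h7]
    exact h2
  · filter_upwards [h3] with y hy
    show conj (γ (conj (conj (f y)))) = conj (g y)
    rw [Complex.conj_conj, hy]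

/-- the germ of a Moebius map -/
theorem ch9_HH (l : Lam) (p : EH) (hp : p ∈ sphU hypM) :
    ch9_Germ hP (fun y => hP (sphAct hypM hypL l y)) p := by
  have hle := normSq_hP_le p hp
  have hne := mob_den_ne (gel l) (hP p) hle
  refine ⟨mob (gel l), ?_, ?_, ?_⟩
  · have h1 : ContDiffAt ℝ ∞ (fun P : ℂ => (gel l).a * P + (gel l).b) (hP p) :=
      (contDiff_const.mul contDiff_id).add contDiff_const |>.contDiffAt
    have h2 : ContDiffAt ℝ ∞ (fun P : ℂ => conj (gel l).b * P + conj (gel l).a) (hP p) :=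
      (contDiff_const.mul contDiff_id).add contDiff_const |>.contDiffAt
    have h3 : mob (gel l) = fun P : ℂ => ((gel l).a * P + (gel l).b) *
        (conj (gel l).b * P + conj (gel l).a)⁻¹ := by
      funext P
      rw [mob, div_eq_mul_inv]
    rw [h3]
    exact h1.mul (h2.inv hne)
  · have h1 := (hasDerivAt_mob (gel l) (hP p) hle).hasFDerivAt.restrictScalars ℝ
    have h2 : fderiv ℝ (mob (gel l)) (hP p) =
        mulC (1 / (conj (gel l).b * hP p + conj (gel l).a) ^ 2) := by
      rw [h1.fderiv]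
      ext z
      simp [mul_comm]
    rw [h2, det_mulC]
    exact Complex.normSq_pos.2 (one_div_ne_zero (pow_ne_zero 2 hne))
  · filter_upwards [ch9_nhds hp] with y hy
    exact (hP_act l y hy).symm

/-- the linear action on the plane has determinant one -/
theorem ch9_det_hvact (g : SU11) :
    (mulC g.a + mulC g.b ∘L (Complex.conjCLE : ℂ →L[ℝ] ℂ)).det = 1 := by
  have h : LinearMap.det ((mulC g.a + mulC g.b ∘L (Complex.conjCLE : ℂ →L[ℝ] ℂ) :
      ℂ →L[ℝ] ℂ) : ℂ →ₗ[ℝ] ℂ) = 1 := by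
    rw [← LinearMap.det_toMatrix Complex.basisOneI, Matrix.det_fin_two]
    simp only [LinearMap.toMatrix_apply, Complex.coe_basisOneI, Matrix.cons_val_zero,
      Matrix.cons_val_one, Complex.coe_basisOneI_repr]
    have hn := g.norm_eq
    rw [Complex.normSq_apply, Complex.normSq_apply] at hn
    simp
    linear_combination hn
  exact h

theorem ch9_VVf (l : Lam) (p : EH) (hp : p ∈ sphU hypM) :
    ch9_Germ hV (fun y => hV (sphAct hypM hypL l y)) p := by
  have h1 : ch9_Germ (fun y => conj (hV y))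
      (fun y => hvact (gel l) (conj (hV y))) p := by
    set A := mulC (gel l).a + mulC (gel l).b ∘L (Complex.conjCLE : ℂ →L[ℝ] ℂ) with hA
    refine ⟨A, A.contDiff.contDiffAt, ?_, ?_⟩
    · rw [A.fderiv, hA, ch9_det_hvact]
      exact one_pos
    · exact Eventually.of_forall fun y => by
        simp [hA, hvact]
  have h2 := h1.conj
  have h3 : (fun y => conj (conj (hV y))) = hV := by
    funext y
    exact Complex.conj_conj _
  rw [h3] at h2
  obtain ⟨γ, a1, a2, a3⟩ := h2
  refine ⟨γ, a1, a2, ?_⟩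
  filter_upwards [a3, ch9_nhds hp] with y hy hy2
  rw [hy, hV_act l y hy2]

theorem ch9_VV (two : Bool) (l : Lam) (p : EH) (hp : p ∈ sphU hypM) :
    ch9_Germ (cf two Ch.V) (fun y => cf two Ch.V (sphAct hypM hypL l y)) p := by
  cases two with
  | false =>
    have h3 : cf false Ch.V = hV := by
      funext q
      simp [cf]
    rw [h3]
    exact ch9_VVf l p hp
  | true =>
    have h3 : cf true Ch.V = fun q => conj (hP q) := by
      funext q
      simp [cf]
    rw [h3]
    exact (ch9_HH l p hp).conj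

theorem ch9_cont (two : Bool) (c : Ch) (p : EH) (hp : p ∈ cdom two c) :
    ContinuousAt (cf two c) p :=
  (contDiffOn_cf two c).continuousOn.continuousAt ((isOpen_cdom two c).mem_nhds hp)

theorem ch9_HM (two : Bool) (p : EH) (hp : p ∈ cdom two Ch.M) (ht : p.2.2 < 0) :
    ch9_Germ (cf two Ch.H) (cf two Ch.M) p := trans_HM two p hp ht

theorem ch9_VM (two : Bool) (p : EH) (hp : p ∈ cdom two Ch.M) (ht : 0 < p.2.2) :
    ch9_Germ (cf two Ch.V) (cf two Ch.M) p := trans_VM two p hp ht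

theorem trans_cf (two : Bool) (c' : Ch) (l : Lam) (c : Ch) (p : EH) (hp : p ∈ cdom two c)
    (hlp : sphAct hypM hypL l p ∈ cdom two c') :
    ∃ γ : ℂ → ℂ, ContDiffAt ℝ ∞ γ (cf two c p) ∧ 0 < (fderiv ℝ γ (cf two c p)).det ∧
      ∀ᶠ y in 𝓝 p, γ (cf two c y) = cf two c' (sphAct hypM hypL l y) := by
  have hps : p ∈ sphU hypM := cdom_subset two c hp
  have hlps : sphAct hypM hypL l p ∈ sphU hypM := cdom_subset two c' hlp
  have hHH : ch9_Germ (cf two Ch.H) (fun y => cf two Ch.H (sphAct hypM hypL l y)) p :=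
    ch9_HH l p hps
  have hVV := ch9_VV two l p hps
  show ch9_Germ (cf two c) (fun y => cf two c' (sphAct hypM hypL l y)) p
  cases c with
  | H =>
    have ht : p.2.2 < 0 := hp.2
    cases c' with
    | H => exact hHH
    | M => exact hHH.trans ((ch9_HM two _ hlp ht).pull l hps)
    | V =>
      have ht' : 0 < p.2.2 := hlp.2
      exact absurd ht' (not_lt.2 ht.le)
  | V =>
    have ht : 0 < p.2.2 := hp.2
    cases c' with
    | H =>
      have ht' : p.2.2 < 0 := hlp.2
      exact absurd ht' (not_lt.2 ht.le)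
    | M => exact hVV.trans ((ch9_VM two _ hlp ht).pull l hps)
    | V => exact hVV
  | M =>
    have hMH : p.2.2 < 0 → ch9_Germ (cf two Ch.M) (cf two Ch.H) p := fun ht =>
      (ch9_HM two p hp ht).symm (ch9_cont two Ch.H p ⟨hps, ht⟩)
    have hMV : 0 < p.2.2 → ch9_Germ (cf two Ch.M) (cf two Ch.V) p := fun ht =>
      (ch9_VM two p hp ht).symm (ch9_cont two Ch.V p ⟨hps, ht⟩)
    cases c' with
    | H =>
      have ht : p.2.2 < 0 := hlp.2
      exact (hMH ht).trans hHH
    | M =>
      rcases lt_trichotomy p.2.2 0 with ht | ht | ht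
      · exact ((hMH ht).trans hHH).trans ((ch9_HM two _ hlp ht).pull l hps)
      · exact trans_MM two l p hp ht
      · exact ((hMV ht).trans hVV).trans ((ch9_VM two _ hlp ht).pull l hps)
    | V =>
      have ht : 0 < p.2.2 := hlp.2
      exact (hMV ht).trans hVV

/-- the local maps -/
noncomputable def hypCharts (two : Bool) : OpenCharts (sphM hypM hypL) ℂ where
  ι := CIdx
  dom := idom two
  isOpen_dom := isOpen_idom two
  dom_subset := fun i _ hp => cdom_subset two i.ch hp.1
  cover := fun p hp => idom_cover two p hp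
  f := fun i => cf two i.ch
  smooth_f := fun i => (contDiffOn_cf two i.ch).mono Set.inter_subset_left
  open_f := fun i p hp => open_cf two i.ch p hp.1
  trans := fun i l j p hj hi => trans_cf two i.ch l j.ch p hj.1 hi.1

/-- the Haefliger structure -/
noncomputable def hypH (two : Bool) : HaefligerClasses.HaefligerStructure (sphM hypM hypL) ℂ :=
  (hypCharts two).toH

end Pool.Agent.HAF2
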