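import Pool.Agent.HAF2.ChSm
import Pool.Agent.HAF2.Opn

/-!
# Module CH5: the transitions between the hyperbolic, the flat and the collar coordinates

`polar_germ`: `γ u = exp (g ‖u‖) * (u / ‖u‖) ^ k`; at `u₀`: the derivative maps `u₀` to
`g' ‖u₀‖ γ(u₀)` and `I u₀` to `k I γ(u₀)` (`det_pos_of_polar`).
`trans_HM`: `k = 1`, `g ρ = -1 / √(2 log ((1 + ρ²) / (1 - ρ²)))` (increasing).
`trans_VM`, `two = true`: `k = -1`, `g ρ = 1 / √(2 log ((1 + ρ²) / (1 - ρ²)))` (decreasing).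
`trans_VM`, `two = false`: `k = -2`, `g ρ = 1 / √(2 log (ρ²))` (decreasing, `ρ > 1`).
Use `YT_eq_hP`, `YT_eq_hV`, `log_YT`; note `t` and `rr` have the same sign.
-/

namespace Pool.Agent.HAF2

open Filter Topology MeasureTheory
open scoped ContDiff ComplexConjugate

theorem pol_zpow {f : ℂ → ℂ} {u₀ : ℂ} (hf : ContDiffAt ℝ ∞ f u₀) (h₀ : f u₀ ≠ 0) (k : ℤ) :
    ContDiffAt ℝ ∞ (fun u => f u ^ k) u₀ := by
  cases k with
  | ofNat n =>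
    have h : (fun u => f u ^ (Int.ofNat n)) = fun u => f u ^ n := by
      funext u
      exact zpow_natCast _ _
    rw [h]
    exact hf.pow n
  | negSucc n =>
    have h : (fun u => f u ^ (Int.negSucc n)) = fun u => (f u ^ (n + 1))⁻¹ := by
      funext u
      exact zpow_negSucc _ _
    rw [h]
    exact (hf.pow (n + 1)).inv (pow_ne_zero _ h₀)

theorem polar_germ (k : ℤ) (g : ℝ → ℝ) (u₀ : ℂ) (h₀ : u₀ ≠ 0) (hg : ContDiffAt ℝ ∞ g ‖u₀‖)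
    (hk : 0 < (k : ℝ) * deriv g ‖u₀‖) :
    ContDiffAt ℝ ∞ (fun u : ℂ => (Real.exp (g ‖u‖) : ℂ) * (u / (‖u‖ : ℂ)) ^ k) u₀ ∧
    0 < (fderiv ℝ (fun u : ℂ => (Real.exp (g ‖u‖) : ℂ) * (u / (‖u‖ : ℂ)) ^ k) u₀).det := by
  have hn₀ : 0 < ‖u₀‖ := norm_pos_iff.2 h₀
  have hnc : (‖u₀‖ : ℂ) ≠ 0 := by exact_mod_cast hn₀.ne'
  have hnorm : ContDiffAt ℝ ∞ (fun u : ℂ => ‖u‖) u₀ := contDiffAt_norm ℝ h₀
  have hnormC : ContDiffAt ℝ ∞ (fun u : ℂ => (‖u‖ : ℂ)) u₀ :=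
    Complex.ofRealCLM.contDiff.contDiffAt.comp u₀ hnorm
  have h1 : ContDiffAt ℝ ∞ (fun u : ℂ => (Real.exp (g ‖u‖) : ℂ)) u₀ :=
    Complex.ofRealCLM.contDiff.contDiffAt.comp u₀
      (Real.contDiff_exp.contDiffAt.comp u₀ (ContDiffAt.comp u₀ hg hnorm))
  have h2 : ContDiffAt ℝ ∞ (fun u : ℂ => u / (‖u‖ : ℂ)) u₀ := by
    have h3 : (fun u : ℂ => u / (‖u‖ : ℂ)) = fun u => u * (‖u‖ : ℂ)⁻¹ := by
      funext u
      exact div_eq_mul_inv _ _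
    rw [h3]
    exact contDiffAt_id.mul (hnormC.inv hnc)
  have hq : u₀ / (‖u₀‖ : ℂ) ≠ 0 := div_ne_zero h₀ hnc
  have hsm : ContDiffAt ℝ ∞ (fun u : ℂ => (Real.exp (g ‖u‖) : ℂ) * (u / (‖u‖ : ℂ)) ^ k) u₀ :=
    h1.mul (pol_zpow h2 hq k)
  refine ⟨hsm, ?_⟩
  set γ : ℂ → ℂ := fun u : ℂ => (Real.exp (g ‖u‖) : ℂ) * (u / (‖u‖ : ℂ)) ^ k with hγ
  have hd : HasFDerivAt γ (fderiv ℝ γ u₀) u₀ := (hsm.differentiableAt (by simp)).hasFDerivAt
  have hγ0 : γ u₀ ≠ 0 :=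
    mul_ne_zero (by exact_mod_cast (Real.exp_pos _).ne') (zpow_ne_zero _ hq)
  have hg' : HasDerivAt g (deriv g ‖u₀‖) ‖u₀‖ := (hg.differentiableAt (by simp)).hasDerivAt
  -- the radial direction
  have hrad : fderiv ℝ γ u₀ u₀ = ((deriv g ‖u₀‖ * ‖u₀‖ : ℝ) : ℂ) * γ u₀ := by
    have hc : HasDerivAt (fun s : ℝ => (s : ℂ) * u₀) ((1 : ℝ) • u₀) 1 := by
      have h := (hasDerivAt_id (1 : ℝ)).smul_const u₀
      simpa [Complex.real_smul] using h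
    have hd1 : HasFDerivAt γ (fderiv ℝ γ u₀) ((fun s : ℝ => (s : ℂ) * u₀) 1) := by
      have : (fun s : ℝ => (s : ℂ) * u₀) 1 = u₀ := by simp
      rw [this]
      exact hd
    have h3 := hd1.comp_hasDerivAt (1 : ℝ) hc
    have h4 : HasDerivAt (fun s : ℝ => (Real.exp (g (s * ‖u₀‖)) : ℂ) * (u₀ / (‖u₀‖ : ℂ)) ^ k)
        (((Real.exp (g ‖u₀‖) * (deriv g ‖u₀‖ * ‖u₀‖) : ℝ) : ℂ) * (u₀ / (‖u₀‖ : ℂ)) ^ k) 1 := by
      have h5 : HasDerivAt (fun s : ℝ => s * ‖u₀‖) ‖u₀‖ 1 := by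
        simpa using (hasDerivAt_id (1 : ℝ)).mul_const ‖u₀‖
      have h6 : HasDerivAt (fun s : ℝ => g (s * ‖u₀‖)) (deriv g ‖u₀‖ * ‖u₀‖) 1 := by
        have h7 : HasDerivAt g (deriv g ‖u₀‖) ((fun s : ℝ => s * ‖u₀‖) 1) := by
          have : (fun s : ℝ => s * ‖u₀‖) 1 = ‖u₀‖ := one_mul _
          rw [this]
          exact hg'
        exact h7.comp 1 h5
      have h8 := h6.exp
      rw [one_mul] at h8
      exact h8.ofReal_comp.mul_const _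
    have h5 : (γ ∘ fun s : ℝ => (s : ℂ) * u₀) =ᶠ[𝓝 1]
        fun s : ℝ => (Real.exp (g (s * ‖u₀‖)) : ℂ) * (u₀ / (‖u₀‖ : ℂ)) ^ k := by
      filter_upwards [lt_mem_nhds (show (0 : ℝ) < 1 from one_pos)] with s hs
      have hs' : (s : ℂ) ≠ 0 := by exact_mod_cast hs.ne'
      have h6 : ‖(s : ℂ) * u₀‖ = s * ‖u₀‖ := by
        rw [norm_mul, Complex.norm_real, Real.norm_eq_abs, abs_of_pos hs]
      show (Real.exp (g ‖(s : ℂ) * u₀‖) : ℂ) * ((s : ℂ) * u₀ / (‖(s : ℂ) * u₀‖ : ℂ)) ^ k = _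
      rw [h6, Complex.ofReal_mul, mul_div_mul_left _ _ hs']
    have h6 := h3.unique (h4.congr_of_eventuallyEq h5)
    rw [one_smul] at h6
    rw [h6]
    show _ = _ * ((Real.exp (g ‖u₀‖) : ℂ) * (u₀ / (‖u₀‖ : ℂ)) ^ k)
    push_cast
    ring
  -- the angular direction
  have hang : fderiv ℝ γ u₀ (Complex.I * u₀) = (k : ℂ) * (Complex.I * γ u₀) := by
    have hc : HasDerivAt (fun s : ℝ => Complex.exp (s * Complex.I) * u₀) (Complex.I * u₀) 0 := by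
      have h := ((Complex.ofRealCLM.hasDerivAt (x := (0 : ℝ))).mul_const Complex.I).cexp.mul_const u₀
      simpa using h
    have hd1 : HasFDerivAt γ (fderiv ℝ γ u₀)
        ((fun s : ℝ => Complex.exp (s * Complex.I) * u₀) 0) := by
      have : (fun s : ℝ => Complex.exp (s * Complex.I) * u₀) 0 = u₀ := by simp
      rw [this]
      exact hd
    have h3 := hd1.comp_hasDerivAt (0 : ℝ) hc
    have h4 : HasDerivAt (fun s : ℝ => Complex.exp (s * ((k : ℂ) * Complex.I)) * γ u₀)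
        (((k : ℂ) * Complex.I) * γ u₀) 0 := by
      have h := ((Complex.ofRealCLM.hasDerivAt (x := (0 : ℝ))).mul_const
        ((k : ℂ) * Complex.I)).cexp.mul_const (γ u₀)
      simpa using h
    have h5 : (γ ∘ fun s : ℝ => Complex.exp (s * Complex.I) * u₀) =
        fun s : ℝ => Complex.exp (s * ((k : ℂ) * Complex.I)) * γ u₀ := by
      funext s
      have h6 : ‖Complex.exp (s * Complex.I) * u₀‖ = ‖u₀‖ := by
        rw [norm_mul, Complex.norm_exp_ofReal_mul_I, one_mul]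
      show (Real.exp (g ‖Complex.exp (s * Complex.I) * u₀‖) : ℂ) *
        (Complex.exp (s * Complex.I) * u₀ / (‖Complex.exp (s * Complex.I) * u₀‖ : ℂ)) ^ k =
        _ * ((Real.exp (g ‖u₀‖) : ℂ) * (u₀ / (‖u₀‖ : ℂ)) ^ k)
      rw [h6, mul_div_assoc, mul_zpow, ← Complex.exp_int_mul]
      ring_nf
    rw [h5] at h3
    have h6 := h3.unique h4
    rw [h6]
    ring
  -- conclusion
  have hg0 : deriv g ‖u₀‖ ≠ 0 := by
    intro h
    rw [h, mul_zero] at hk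
    exact lt_irrefl _ hk
  have hκ : 0 < (k : ℝ) / (deriv g ‖u₀‖ * ‖u₀‖) := by
    have h5 : (k : ℝ) / (deriv g ‖u₀‖ * ‖u₀‖) =
        ((k : ℝ) * deriv g ‖u₀‖) / ((deriv g ‖u₀‖) ^ 2 * ‖u₀‖) := by
      field_simp
    rw [h5]
    positivity
  refine det_pos_of_polar (fderiv ℝ γ u₀) u₀ (((deriv g ‖u₀‖ * ‖u₀‖ : ℝ) : ℂ) * γ u₀) h₀
    (mul_ne_zero (by exact_mod_cast mul_ne_zero hg0 hn₀.ne') hγ0)
    ((k : ℝ) / (deriv g ‖u₀‖ * ‖u₀‖)) 0 hκ hrad ?_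
  rw [hang]
  have hgC : ((deriv g ‖u₀‖ : ℝ) : ℂ) ≠ 0 := by exact_mod_cast hg0
  push_cast
  field_simp
  ring

/-- the radial function `σ / √(2 L)` -/
theorem pol_radial (k : ℤ) (σ : ℝ) (hσ : σ * k < 0) (L : ℝ → ℝ) (ρ : ℝ)
    (hL : ContDiffAt ℝ ∞ L ρ) (hpos : 0 < L ρ) (hder : 0 < deriv L ρ) :
    ContDiffAt ℝ ∞ (fun ρ => σ / Real.sqrt (2 * L ρ)) ρ ∧
      0 < (k : ℝ) * deriv (fun ρ => σ / Real.sqrt (2 * L ρ)) ρ := by
  have h2 : 0 < 2 * L ρ := by linarith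
  have hs : 0 < Real.sqrt (2 * L ρ) := Real.sqrt_pos.2 h2
  refine ⟨contDiffAt_const.div ((contDiffAt_const.mul hL).sqrt h2.ne') hs.ne', ?_⟩
  have hd : HasDerivAt L (deriv L ρ) ρ := (hL.differentiableAt (by simp)).hasDerivAt
  have h3 := ((hd.const_mul 2).sqrt h2.ne')
  have h4 := (hasDerivAt_const ρ σ).div h3 hs.ne'
  have h5 : deriv (fun ρ => σ / Real.sqrt (2 * L ρ)) ρ = _ := h4.deriv
  rw [h5]
  have h6 : (k : ℝ) * ((0 * Real.sqrt (2 * L ρ) -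
      σ * (2 * deriv L ρ / (2 * Real.sqrt (2 * L ρ)))) / Real.sqrt (2 * L ρ) ^ 2) =
      (-(σ * k)) * (deriv L ρ / Real.sqrt (2 * L ρ)) / Real.sqrt (2 * L ρ) ^ 2 := by
    field_simp
    ring
  rw [h6]
  have h7 : 0 < -(σ * k) := by linarith
  positivity

/-- the function `log ((1 + ρ²) / (1 - ρ²))` -/
theorem pol_L1 (ρ : ℝ) (h0 : 0 < ρ) (h1 : ρ < 1) :
    ContDiffAt ℝ ∞ (fun ρ : ℝ => Real.log ((1 + ρ ^ 2) / (1 - ρ ^ 2))) ρ ∧
      0 < Real.log ((1 + ρ ^ 2) / (1 - ρ ^ 2)) ∧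
      0 < deriv (fun ρ : ℝ => Real.log ((1 + ρ ^ 2) / (1 - ρ ^ 2))) ρ := by
  have h2 : 0 < 1 - ρ ^ 2 := by nlinarith
  have h3 : 0 < 1 + ρ ^ 2 := by positivity
  have h4 : 0 < (1 + ρ ^ 2) / (1 - ρ ^ 2) := div_pos h3 h2
  refine ⟨?_, ?_, ?_⟩
  · have e1 : ContDiffAt ℝ ∞ (fun ρ : ℝ => 1 + ρ ^ 2) ρ :=
      contDiffAt_const.add (contDiffAt_id.pow 2)
    have e2 : ContDiffAt ℝ ∞ (fun ρ : ℝ => 1 - ρ ^ 2) ρ :=
      contDiffAt_const.sub (contDiffAt_id.pow 2)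
    exact (e1.div e2 h2.ne').log h4.ne'
  · apply Real.log_pos
    rw [lt_div_iff₀ h2]
    nlinarith [sq_pos_of_pos h0]
  · have h5 : HasDerivAt (fun ρ : ℝ => 1 + ρ ^ 2) (2 * ρ) ρ := by
      simpa using (hasDerivAt_pow 2 ρ).const_add 1
    have h6 : HasDerivAt (fun ρ : ℝ => 1 - ρ ^ 2) (-(2 * ρ)) ρ := by
      simpa using (hasDerivAt_pow 2 ρ).const_sub 1
    have h7 := (h5.div h6 h2.ne').log h4.ne'
    have h8 : deriv (fun ρ : ℝ => Real.log ((1 + ρ ^ 2) / (1 - ρ ^ 2))) ρ = _ := h7.deriv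
    rw [h8]
    have h9 : (2 * ρ * (1 - ρ ^ 2) - (1 + ρ ^ 2) * -(2 * ρ)) = 4 * ρ := by ring
    apply div_pos _ h4
    rw [h9]
    positivity

/-- the function `log (ρ²)` -/
theorem pol_L2 (ρ : ℝ) (h1 : 1 < ρ) :
    ContDiffAt ℝ ∞ (fun ρ : ℝ => Real.log (ρ ^ 2)) ρ ∧
      0 < Real.log (ρ ^ 2) ∧ 0 < deriv (fun ρ : ℝ => Real.log (ρ ^ 2)) ρ := by
  have h2 : 1 < ρ ^ 2 := by nlinarith
  have h4 : 0 < ρ ^ 2 := by linarith
  refine ⟨(contDiffAt_id.pow 2).log h4.ne', Real.log_pos h2, ?_⟩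
  have h5 : HasDerivAt (fun ρ : ℝ => ρ ^ 2) (2 * ρ) ρ := by
    simpa using hasDerivAt_pow 2 ρ
  rw [(h5.log h4.ne').deriv]
  have : 0 < ρ := by linarith
  positivity

/-- solving `l = 1 / (2 r²)` for `r` -/
theorem pol_solve (σ r l : ℝ) (hσ : σ = 1 ∨ σ = -1) (hr : 0 < σ * r) (h : l = 1 / (2 * r ^ 2)) :
    σ / Real.sqrt (2 * l) = r := by
  have hr0 : r ≠ 0 := by
    rintro rfl
    rw [mul_zero] at hr
    exact lt_irrefl _ hr
  have h1 : 2 * l = (1 / (σ * r)) ^ 2 := by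
    have hσ2 : σ ^ 2 = 1 := by
      rcases hσ with rfl | rfl <;> norm_num
    rw [h, div_pow, mul_pow, hσ2]
    field_simp
  have hp : 0 ≤ 1 / (σ * r) := by positivity
  rw [h1, Real.sqrt_sq hp]
  rcases hσ with rfl | rfl
  · rw [one_mul]
    simp
  · have h2 : (-1 : ℝ) * r ≠ 0 := by simpa using hr0
    field_simp

theorem pol_rr_sign (two : Bool) (p : EH) (hp : p ∈ cdom two Ch.M) :
    (p.2.2 < 0 → rr two p < 0) ∧ (0 < p.2.2 → 0 < rr two p) := by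
  have h : 0 < Real.sqrt (DD two p) := Real.sqrt_pos.2 hp.2.2.2
  exact ⟨fun ht => div_neg_of_neg_of_pos ht h, fun ht => div_pos ht h⟩

/-- scaling by a positive number does not change the direction -/
theorem pol_dir (c : ℝ) (hc : 0 < c) (w : ℂ) :
    ((c : ℂ) * w) / (‖(c : ℂ) * w‖ : ℂ) = w / (‖w‖ : ℂ) := by
  have h : ‖(c : ℂ) * w‖ = c * ‖w‖ := by
    rw [norm_mul, Complex.norm_real, Real.norm_eq_abs, abs_of_pos hc]
  have hc' : (c : ℂ) ≠ 0 := by exact_mod_cast hc.ne'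
  rw [h, Complex.ofReal_mul, mul_div_mul_left _ _ hc']

theorem pol_dl_pos {t : ℝ} (ht : t ≠ 0) : 0 < dl t := by
  unfold dl
  exact expNegInvGlue.pos_of_pos (by positivity)

/-- the local map of the collar in terms of `hP` -/
theorem pol_fM_hP (two : Bool) (σ : ℝ) (hσ : σ = 1 ∨ σ = -1) (p : EH) (hp : p ∈ cdom two Ch.M)
    (ht : 0 < σ * p.2.2) (h : two = true ∨ p.2.2 < 0) :
    0 < ‖hP p‖ ∧ ‖hP p‖ < 1 ∧ fM two p =
      (Real.exp (σ / Real.sqrt (2 * Real.log ((1 + ‖hP p‖ ^ 2) / (1 - ‖hP p‖ ^ 2)))) : ℂ) *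
        (hP p / (‖hP p‖ : ℂ)) := by
  have ht0 : p.2.2 ≠ 0 := by
    intro h0
    rw [h0, mul_zero] at ht
    exact lt_irrefl _ ht
  obtain ⟨h1, h2⟩ := YT_eq_hP two p hp.1 ht0 h
  have h3 := normSq_hP_lt p hp.1 ht0
  have hm := mmf_pos p hp.1
  have hd := pol_dl_pos ht0
  have hc : 0 < dl p.2.2 * Real.sqrt (mmf p) := mul_pos hd (Real.sqrt_pos.2 hm)
  have hlt : ‖hP p‖ < 1 := by
    rw [Complex.normSq_eq_norm_sq] at h3
    nlinarith [norm_nonneg (hP p)]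
  have hP0 : hP p ≠ 0 := by
    intro h0
    apply hp.2.2.1
    rw [h2, h0, mul_zero]
  refine ⟨norm_pos_iff.2 hP0, hlt, ?_⟩
  have h4 := log_YT two p hp ht0
  rw [h1, mul_div_cancel_left₀ _ hc.ne', Complex.normSq_eq_norm_sq] at h4
  have hr : 0 < σ * rr two p := by
    obtain ⟨s1, s2⟩ := pol_rr_sign two p hp
    rcases hσ with rfl | rfl
    · rw [one_mul] at ht ⊢
      exact s2 ht
    · have : rr two p < 0 := s1 (by linarith)
      linarith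
  rw [pol_solve σ (rr two p) _ hσ hr h4]
  unfold fM
  rw [h2, pol_dir]
  apply div_pos (by linarith)
  linarith

theorem trans_HM (two : Bool) (p : EH) (hp : p ∈ cdom two Ch.M) (ht : p.2.2 < 0) :
    ∃ γ : ℂ → ℂ, ContDiffAt ℝ ∞ γ (hP p) ∧ 0 < (fderiv ℝ γ (hP p)).det ∧
      ∀ᶠ y in 𝓝 p, γ (hP y) = fM two y := by
  obtain ⟨h1, h2, -⟩ := pol_fM_hP two (-1) (Or.inr rfl) p hp (by linarith) (Or.inr ht)
  obtain ⟨g1, g2, g3⟩ := pol_L1 ‖hP p‖ h1 h2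
  obtain ⟨g4, g5⟩ := pol_radial 1 (-1) (by norm_num) _ ‖hP p‖ g1 g2 g3
  obtain ⟨g6, g7⟩ := polar_germ 1 _ (hP p) (norm_pos_iff.1 h1) g4 g5
  refine ⟨_, g6, g7, ?_⟩
  have hopen : ∀ᶠ y : EH in 𝓝 p, y.2.2 < 0 :=
    (continuous_snd.comp continuous_snd).continuousAt.eventually_lt_const ht
  filter_upwards [(isOpen_cdom two Ch.M).mem_nhds hp, hopen] with y hy hy2
  obtain ⟨-, -, h3⟩ := pol_fM_hP two (-1) (Or.inr rfl) y hy (by linarith) (Or.inr hy2)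
  rw [h3, zpow_one]

theorem pol_conj_dir (w : ℂ) (hw : w ≠ 0) :
    (conj w / (‖conj w‖ : ℂ)) ^ (-1 : ℤ) = w / (‖w‖ : ℂ) := by
  have hn : (‖w‖ : ℂ) ≠ 0 := by exact_mod_cast (norm_pos_iff.2 hw).ne'
  have hc : conj w ≠ 0 := by simpa using hw
  rw [zpow_neg_one, Complex.norm_conj, inv_div, div_eq_div_iff hc hn, Complex.mul_conj,
    Complex.normSq_eq_norm_sq]
  push_cast
  ring

/-- the local map of the collar in terms of `hV` -/
theorem pol_fM_hV (p : EH) (hp : p ∈ cdom false Ch.M) (ht : 0 < p.2.2) :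
    1 < ‖hV p‖ ∧ fM false p =
      (Real.exp (1 / Real.sqrt (2 * Real.log (‖hV p‖ ^ 2))) : ℂ) *
        (hV p / (‖hV p‖ : ℂ)) ^ (-2 : ℤ) := by
  have ht0 : p.2.2 ≠ 0 := ht.ne'
  obtain ⟨h1, h2⟩ := YT_eq_hV p hp.1 ht
  have hm := mmf_pos p hp.1
  have hd := pol_dl_pos ht0
  have hc : 0 < dl p.2.2 * Real.sqrt (mmf p) := mul_pos hd (Real.sqrt_pos.2 hm)
  have hV0 : hV p ≠ 0 := by
    intro h0
    apply hp.2.2.1
    rw [h2, h0]
    simp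
  have hn := norm_pos_iff.2 hV0
  have h4 := log_YT false p hp ht0
  rw [h1, mul_div_cancel_left₀ _ hc.ne', Complex.normSq_eq_norm_sq] at h4
  have hr := (pol_rr_sign false p hp).2 ht
  have hpos : 0 < Real.log (‖hV p‖ ^ 2) := by
    rw [h4]
    positivity
  have hgt : 1 < ‖hV p‖ := by
    have h5 : 1 < ‖hV p‖ ^ 2 := by
      by_contra h6
      push Not at h6
      have h7 := Real.log_nonpos (by positivity) h6
      linarith
    by_contra h6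
    push Not at h6
    nlinarith
  refine ⟨hgt, ?_⟩
  rw [pol_solve 1 (rr false p) _ (Or.inl rfl) (by linarith) h4]
  unfold fM
  rw [h2, pol_dir _ hc]
  congr 1
  have hnC : (‖hV p‖ : ℂ) ≠ 0 := by exact_mod_cast hn.ne'
  have h8 : (-2 : ℤ) = (-1) * 2 := by norm_num
  have h9 := pol_conj_dir (conj (hV p)) (by simpa using hV0)
  rw [Complex.conj_conj, Complex.norm_conj] at h9
  rw [h8, zpow_mul, h9, norm_pow, Complex.norm_conj, Complex.ofReal_pow, ← div_pow]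
  exact (zpow_ofNat _ 2).symm

theorem trans_VM (two : Bool) (p : EH) (hp : p ∈ cdom two Ch.M) (ht : 0 < p.2.2) :
    ∃ γ : ℂ → ℂ, ContDiffAt ℝ ∞ γ (cf two Ch.V p) ∧ 0 < (fderiv ℝ γ (cf two Ch.V p)).det ∧
      ∀ᶠ y in 𝓝 p, γ (cf two Ch.V y) = fM two y := by
  have hopen : ∀ᶠ y : EH in 𝓝 p, 0 < y.2.2 :=
    (continuous_snd.comp continuous_snd).continuousAt.eventually_const_lt ht
  cases two with
  | true =>
    obtain ⟨h1, h2, -⟩ := pol_fM_hP true 1 (Or.inl rfl) p hp (by linarith) (Or.inl rfl)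
    have hcf : ∀ y : EH, cf true Ch.V y = conj (hP y) := fun y => rfl
    have hn : ∀ y : EH, ‖cf true Ch.V y‖ = ‖hP y‖ := by
      intro y
      rw [hcf, Complex.norm_conj]
    have h1' : 0 < ‖cf true Ch.V p‖ := by rw [hn]; exact h1
    have h2' : ‖cf true Ch.V p‖ < 1 := by rw [hn]; exact h2
    obtain ⟨g1, g2, g3⟩ := pol_L1 ‖cf true Ch.V p‖ h1' h2'
    obtain ⟨g4, g5⟩ := pol_radial (-1) 1 (by norm_num) _ ‖cf true Ch.V p‖ g1 g2 g3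
    obtain ⟨g6, g7⟩ := polar_germ (-1) _ (cf true Ch.V p) (norm_pos_iff.1 h1') g4 g5
    refine ⟨_, g6, g7, ?_⟩
    filter_upwards [(isOpen_cdom true Ch.M).mem_nhds hp, hopen] with y hy hy2
    obtain ⟨h3, -, h4⟩ := pol_fM_hP true 1 (Or.inl rfl) y hy (by linarith) (Or.inl rfl)
    rw [h4, hcf, pol_conj_dir _ (norm_pos_iff.1 h3), Complex.norm_conj]
  | false =>
    obtain ⟨h1, -⟩ := pol_fM_hV p hp ht
    have hcf : ∀ y : EH, cf false Ch.V y = hV y := fun y => rfl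
    obtain ⟨g1, g2, g3⟩ := pol_L2 ‖hV p‖ h1
    obtain ⟨g4, g5⟩ := pol_radial (-2) 1 (by norm_num) _ ‖hV p‖ g1 g2 g3
    obtain ⟨g6, g7⟩ := polar_germ (-2) _ (hV p) (norm_pos_iff.1 (by linarith)) g4 g5
    refine ⟨_, by rw [hcf]; exact g6, by rw [hcf]; exact g7, ?_⟩
    filter_upwards [(isOpen_cdom false Ch.M).mem_nhds hp, hopen] with y hy hy2
    obtain ⟨-, h4⟩ := pol_fM_hV y hy hy2
    rw [h4, hcf]

end Pool.Agent.HAF2
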