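import Pool.Agent.HAF2.ChEq

/-!
# Module CH4: smoothness and domains of the local maps
-/

namespace Pool.Agent.HAF2

open Filter Topology MeasureTheory
open scoped ContDiff ComplexConjugate

/-- `normSq` is smooth -/
theorem contDiff_nsq : ContDiff ℝ ∞ (fun z : ℂ => Complex.normSq z) := by
  have h : (fun z : ℂ => Complex.normSq z) =
      fun z => Complex.reCLM z * Complex.reCLM z + Complex.imCLM z * Complex.imCLM z :=
    funext Complex.normSq_apply
  rw [h]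
  exact (Complex.reCLM.contDiff.mul Complex.reCLM.contDiff).add
    (Complex.imCLM.contDiff.mul Complex.imCLM.contDiff)

/-- complex conjugation is smooth -/
theorem contDiff_cnj : ContDiff ℝ ∞ (fun z : ℂ => conj z) := Complex.conjCLE.contDiff

/-- the inclusion of the reals is smooth -/
theorem contDiff_ofR : ContDiff ℝ ∞ (fun x : ℝ => (x : ℂ)) := Complex.ofRealCLM.contDiff

theorem contDiff_pX : ContDiff ℝ ∞ (fun p : EH => p.1) := contDiff_fst

theorem contDiff_py : ContDiff ℝ ∞ (fun p : EH => p.2.1) := contDiff_fst.comp contDiff_snd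

theorem contDiff_pt : ContDiff ℝ ∞ (fun p : EH => p.2.2) := contDiff_snd.comp contDiff_snd

theorem contDiff_dlt : ContDiff ℝ ∞ (fun p : EH => dl p.2.2) := contDiff_dl.comp contDiff_pt

theorem contDiffOn_mmf : ContDiff ℝ ∞ mmf :=
  (contDiff_const.mul (contDiff_nsq.comp contDiff_py)).add (contDiff_dlt.pow 2)

theorem contDiffOn_sqrt_mmf : ContDiffOn ℝ ∞ (fun p => Real.sqrt (mmf p)) (sphU hypM) :=
  contDiffOn_mmf.contDiffOn.sqrt fun p hp => (mmf_pos p hp).ne'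

theorem contDiffOn_qden : ContDiffOn ℝ ∞ qden (sphU hypM) :=
  (((contDiff_nsq.comp contDiff_py).add (contDiff_dlt.pow 2)).contDiffOn).add
    (contDiff_dlt.contDiffOn.mul contDiffOn_sqrt_mmf)

theorem mapsTo_pX : Set.MapsTo (fun p : EH => p.1) (sphU hypM) hU := fun _ hp => hp.1

theorem contDiffOn_hNX : ContDiffOn ℝ ∞ (fun p : EH => hN p.1) (sphU hypM) :=
  contDiffOn_hN.comp contDiff_pX.contDiffOn mapsTo_pX

theorem contDiffOn_hq : ContDiffOn ℝ ∞ hq (sphU hypM) := by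
  have h : ContDiffOn ℝ ∞ (fun p : EH => p.2.1 ^ 2 * ((qden p : ℂ))⁻¹) (sphU hypM) :=
    (contDiff_py.pow 2).contDiffOn.mul
      ((contDiff_ofR.comp_contDiffOn contDiffOn_qden).inv fun p hp =>
        Complex.ofReal_ne_zero.mpr (qden_pos p hp).ne')
  exact h.congr fun p _ => by rw [hq, div_eq_mul_inv]

theorem contDiffOn_hP : ContDiffOn ℝ ∞ hP (sphU hypM) := by
  have hz' : ContDiffOn ℝ ∞ (fun p : EH => hz p.1) (sphU hypM) :=
    contDiffOn_hz.comp contDiff_pX.contDiffOn mapsTo_pX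
  have h : ContDiffOn ℝ ∞ (fun p : EH => (hq p + hz p.1) * (1 + conj (hz p.1) * hq p)⁻¹)
      (sphU hypM) := by
    refine (contDiffOn_hq.add hz').mul ((contDiffOn_const.add
      ((contDiff_cnj.comp_contDiffOn hz').mul contDiffOn_hq)).inv fun p hp => ?_)
    exact Mz_den_ne _ _ (normSq_hz_lt _ (mapsTo_pX hp)) (normSq_hq_le p hp)
  exact h.congr fun p _ => by rw [hP, Mz, div_eq_mul_inv]

theorem contDiffOn_hv : ContDiffOn ℝ ∞ hv (sphU hypM) := by
  have hT : ContDiffOn ℝ ∞ (fun p : EH => p.1.1 + hN p.1) (sphU hypM) :=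
    (contDiff_fst.comp contDiff_pX).contDiffOn.add contDiffOn_hNX
  have hZ : ContDiffOn ℝ ∞ (fun p : EH => p.1.2) (sphU hypM) :=
    (contDiff_snd.comp contDiff_pX).contDiffOn
  have hpos : ∀ p ∈ sphU hypM, 0 < 2 * hN p.1 * (p.1.1 + hN p.1) := fun p hp =>
    mul_pos (mul_pos two_pos (hN_pos _ (mapsTo_pX hp))) (add_hN_pos _ (mapsTo_pX hp))
  have h : ContDiffOn ℝ ∞ (fun p : EH => (((p.1.1 + hN p.1 : ℝ) : ℂ) * p.2.1 +
      p.1.2 * conj p.2.1) * ((Real.sqrt (2 * hN p.1 * (p.1.1 + hN p.1)) : ℂ))⁻¹) (sphU hypM) := by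
    refine (((contDiff_ofR.comp_contDiffOn hT).mul contDiff_py.contDiffOn).add
      (hZ.mul (contDiff_cnj.comp contDiff_py).contDiffOn)).mul
      ((contDiff_ofR.comp_contDiffOn (((contDiffOn_const.mul contDiffOn_hNX).mul hT).sqrt
        fun p hp => (hpos p hp).ne')).inv fun p hp => ?_)
    exact Complex.ofReal_ne_zero.mpr (Real.sqrt_ne_zero'.mpr (hpos p hp))
  exact h.congr fun p _ => by rw [hv, hA, div_eq_mul_inv]

theorem contDiffOn_lamf : ContDiffOn ℝ ∞ lamf {p | p ∈ sphU hypM ∧ p.2.2 ≠ 0} := by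
  have hpos : ∀ p ∈ {p : EH | p ∈ sphU hypM ∧ p.2.2 ≠ 0},
      0 < dl p.2.2 * Real.sqrt (mmf p) := fun p hp =>
    mul_pos (dl_pos _ hp.2) (Real.sqrt_pos.mpr (mmf_pos p hp.1))
  have h : ContDiffOn ℝ ∞ (fun p : EH => 1 * (Real.sqrt (dl p.2.2 * Real.sqrt (mmf p)))⁻¹)
      {p | p ∈ sphU hypM ∧ p.2.2 ≠ 0} := by
    refine contDiffOn_const.mul (((contDiff_dlt.contDiffOn.mul
      (contDiffOn_sqrt_mmf.mono fun p hp => hp.1)).sqrt fun p hp => (hpos p hp).ne').inv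
      fun p hp => ?_)
    exact Real.sqrt_ne_zero'.mpr (hpos p hp)
  exact h.congr fun p _ => by rw [lamf, div_eq_mul_inv]

theorem contDiffOn_hV : ContDiffOn ℝ ∞ hV {p | p ∈ sphU hypM ∧ p.2.2 ≠ 0} :=
  (contDiff_ofR.comp_contDiffOn contDiffOn_lamf).mul
    (contDiff_cnj.comp_contDiffOn (contDiffOn_hv.mono fun _ hp => hp.1))

theorem contDiff_epst (two : Bool) : ContDiff ℝ ∞ (fun p : EH => epsf two p.2.2) :=
  (contDiff_epsf two).comp contDiff_pt

theorem contDiffOn_YT (two : Bool) : ContDiffOn ℝ ∞ (YT two) (sphU hypM) := by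
  have h : ContDiffOn ℝ ∞ (fun p : EH => Complex.normSq (hv p) +
      epsf two p.2.2 * (p.1.1 * (hN p.1)⁻¹)) (sphU hypM) := by
    refine (contDiff_nsq.comp_contDiffOn contDiffOn_hv).add
      ((contDiff_epst two).contDiffOn.mul ((contDiff_fst.comp contDiff_pX).contDiffOn.mul
        (contDiffOn_hNX.inv fun p hp => (hN_pos _ (mapsTo_pX hp)).ne')))
  exact h.congr fun p _ => by rw [YT, div_eq_mul_inv]

theorem contDiffOn_YZ (two : Bool) : ContDiffOn ℝ ∞ (YZ two) (sphU hypM) := by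
  have h : ContDiffOn ℝ ∞ (fun p : EH => hv p ^ 2 +
      ((epsf two p.2.2 * (hN p.1)⁻¹ : ℝ) : ℂ) * p.1.2) (sphU hypM) := by
    refine (contDiffOn_hv.pow 2).add ((contDiff_ofR.comp_contDiffOn
      ((contDiff_epst two).contDiffOn.mul
        (contDiffOn_hNX.inv fun p hp => (hN_pos _ (mapsTo_pX hp)).ne'))).mul
        (contDiff_snd.comp contDiff_pX).contDiffOn)
  exact h.congr fun p _ => by rw [YZ, div_eq_mul_inv]

theorem contDiffOn_DD (two : Bool) :
    ContDiffOn ℝ ∞ (DD two) {p | p ∈ sphU hypM ∧ p.2.1 ≠ 0} := by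
  have h : ContDiffOn ℝ ∞ (fun p : EH => 1 + 2 * p.2.2 ^ 2 *
      (Real.log (YT two p) - Real.log (mmf p) * 2⁻¹)) {p | p ∈ sphU hypM ∧ p.2.1 ≠ 0} := by
    refine contDiffOn_const.add ((contDiff_const.mul (contDiff_pt.pow 2)).contDiffOn.mul
      ((((contDiffOn_YT two).mono fun p hp => hp.1).log fun p hp =>
        (YT_pos two p hp.1 hp.2).ne').sub
      ((contDiffOn_mmf.contDiffOn.log fun p hp => (mmf_pos p hp.1).ne').mul contDiffOn_const)))
  exact h.congr fun p _ => by rw [DD, GG, div_eq_mul_inv]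

theorem contDiffOn_rr (two : Bool) : ContDiffOn ℝ ∞ (rr two) (cdom two Ch.M) := by
  have h : ContDiffOn ℝ ∞ (fun p : EH => p.2.2 * (Real.sqrt (DD two p))⁻¹) (cdom two Ch.M) := by
    refine contDiff_pt.contDiffOn.mul ((((contDiffOn_DD two).mono
      fun p hp => ⟨hp.1, hp.2.1⟩).sqrt fun p hp => hp.2.2.2.ne').inv fun p hp => ?_)
    exact Real.sqrt_ne_zero'.mpr hp.2.2.2
  exact h.congr fun p _ => by rw [rr, div_eq_mul_inv]

theorem contDiffOn_fM (two : Bool) : ContDiffOn ℝ ∞ (fM two) (cdom two Ch.M) := by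
  have hYZ : ContDiffOn ℝ ∞ (YZ two) (cdom two Ch.M) := (contDiffOn_YZ two).mono fun p hp => hp.1
  have h : ContDiffOn ℝ ∞ (fun p : EH => (Real.exp (rr two p) : ℂ) *
      (YZ two p * ((‖YZ two p‖ : ℝ) : ℂ)⁻¹)) (cdom two Ch.M) := by
    refine (contDiff_ofR.comp_contDiffOn (contDiffOn_rr two).exp).mul (hYZ.mul
      ((contDiff_ofR.comp_contDiffOn (hYZ.norm ℝ fun p hp => hp.2.2.1)).inv fun p hp => ?_))
    exact Complex.ofReal_ne_zero.mpr (norm_ne_zero_iff.mpr hp.2.2.1)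
  exact h.congr fun p _ => by rw [fM, div_eq_mul_inv]

theorem isOpen_sphU_ne : IsOpen {p : EH | p ∈ sphU hypM ∧ p.2.1 ≠ 0} :=
  (isOpen_sphU hypM).inter (isOpen_ne_fun contDiff_py.continuous continuous_const)

theorem isOpen_cdom (two : Bool) (c : Ch) : IsOpen (cdom two c) := by
  cases c with
  | H => exact (isOpen_sphU hypM).inter (isOpen_lt contDiff_pt.continuous continuous_const)
  | V => exact (isOpen_sphU hypM).inter (isOpen_lt continuous_const contDiff_pt.continuous)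
  | M =>
    have h1 : IsOpen {p : EH | (p ∈ sphU hypM ∧ p.2.1 ≠ 0) ∧ YZ two p ≠ 0} :=
      ((contDiffOn_YZ two).mono fun p hp => hp.1).continuousOn.isOpen_inter_preimage
        isOpen_sphU_ne isOpen_ne
    have h2 : IsOpen {p : EH | (p ∈ sphU hypM ∧ p.2.1 ≠ 0) ∧ 0 < DD two p} :=
      (contDiffOn_DD two).continuousOn.isOpen_inter_preimage isOpen_sphU_ne isOpen_Ioi
    have h3 : cdom two Ch.M = {p : EH | (p ∈ sphU hypM ∧ p.2.1 ≠ 0) ∧ YZ two p ≠ 0} ∩
        {p : EH | (p ∈ sphU hypM ∧ p.2.1 ≠ 0) ∧ 0 < DD two p} := by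
      ext p
      constructor
      · rintro ⟨h1, h2, h3, h4⟩
        exact ⟨⟨⟨h1, h2⟩, h3⟩, ⟨h1, h2⟩, h4⟩
      · rintro ⟨⟨⟨h1, h2⟩, h3⟩, -, h4⟩
        exact ⟨h1, h2, h3, h4⟩
    rw [h3]
    exact h1.inter h2

theorem contDiffOn_cf (two : Bool) (c : Ch) : ContDiffOn ℝ ∞ (cf two c) (cdom two c) := by
  cases c with
  | H => exact contDiffOn_hP.mono fun p hp => hp.1
  | M => exact contDiffOn_fM two
  | V =>
    cases two with
    | true =>
      have hsub : cdom true Ch.V ⊆ sphU hypM := fun p hp => hp.1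
      refine (contDiff_cnj.comp_contDiffOn (contDiffOn_hP.mono hsub)).congr ?_
      intro p _
      simp [cf]
    | false =>
      have hsub : cdom false Ch.V ⊆ {p | p ∈ sphU hypM ∧ p.2.2 ≠ 0} := fun p hp =>
        ⟨hp.1, (show (0 : ℝ) < p.2.2 from hp.2).ne'⟩
      refine (contDiffOn_hV.mono hsub).congr ?_
      intro p _
      simp [cf]

theorem cdom_subset (two : Bool) (c : Ch) : cdom two c ⊆ sphU hypM := by
  intro p hp
  cases c with
  | H => exact hp.1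
  | M => exact hp.1
  | V => exact hp.1

theorem y_ne_of_abs_le (p : EH) (hp : p ∈ sphU hypM) (ht : |p.2.2| ≤ 1 / 2) : p.2.1 ≠ 0 := by
  rcases hp.2 with h | h
  · exact h
  · exact absurd h (not_lt.mpr ht)

theorem mem_cdom_M_of_zero (two : Bool) (p : EH) (hp : p ∈ sphU hypM) (ht : p.2.2 = 0) :
    p ∈ cdom two Ch.M := by
  have hy : p.2.1 ≠ 0 := y_ne_of_abs_le p hp (by rw [ht, abs_zero]; norm_num)
  refine ⟨hp, hy, ?_, ?_⟩
  · rw [YZ, ht, epsf_zero, zero_div, Complex.ofReal_zero, zero_mul, add_zero]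
    exact pow_ne_zero 2 (hv_ne_zero p hp hy)
  · rw [DD, ht]
    norm_num

theorem idom_cover (two : Bool) (p : EH) (hp : p ∈ sphU hypM) : ∃ i, p ∈ idom two i := by
  rcases lt_trichotomy p.2.2 0 with h | h | h
  · by_cases hy : p.2.1 = 0
    · refine ⟨CIdx.HN, ⟨hp, h⟩, hp, ?_⟩
      have h2 : 1 / 2 < |p.2.2| := hp.2.resolve_left (not_not.mpr hy)
      rw [abs_of_neg h] at h2
      show p.2.2 < -(1 / 4)
      linarith
    · exact ⟨CIdx.HR, ⟨hp, h⟩, hp, hy⟩
  · exact ⟨CIdx.MR, mem_cdom_M_of_zero two p hp h, hp,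
      y_ne_of_abs_le p hp (by rw [h, abs_zero]; norm_num)⟩
  · by_cases hy : p.2.1 = 0
    · refine ⟨CIdx.VS, ⟨hp, h⟩, hp, ?_⟩
      have h2 : 1 / 2 < |p.2.2| := hp.2.resolve_left (not_not.mpr hy)
      rw [abs_of_pos h] at h2
      show 1 / 4 < p.2.2
      linarith
    · exact ⟨CIdx.VR, ⟨hp, h⟩, hp, hy⟩

theorem isOpen_patchDom' (i : Patch) : IsOpen (patchDom hypM i : Set EH) := by
  cases i with
  | R => exact isOpen_sphU_ne
  | N => exact (isOpen_sphU hypM).inter (isOpen_lt contDiff_pt.continuous continuous_const)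
  | S => exact (isOpen_sphU hypM).inter (isOpen_lt continuous_const contDiff_pt.continuous)

theorem isOpen_idom (two : Bool) (i : CIdx) : IsOpen (idom two i) :=
  (isOpen_cdom two i.ch).inter (isOpen_patchDom' i.pt)

/-- the action preserves the domains `H` and `V` -/
theorem cdom_act (two : Bool) (l : Lam) (p : EH) (hp : p ∈ sphU hypM) :
    (sphAct hypM hypL l p ∈ cdom two Ch.H ↔ p ∈ cdom two Ch.H) ∧
    (sphAct hypM hypL l p ∈ cdom two Ch.V ↔ p ∈ cdom two Ch.V) :=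
  ⟨⟨fun h => ⟨hp, h.2⟩, fun h => ⟨sphAct_mem hypM hypL l p hp, h.2⟩⟩,
    ⟨fun h => ⟨hp, h.2⟩, fun h => ⟨sphAct_mem hypM hypL l p hp, h.2⟩⟩⟩

end Pool.Agent.HAF2
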