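import Pool.Agent.HaefligerClasses.Defs

/-!
# Metric connections on normal bundles of Haefliger structures and the classes of `BSO(q)`

The real cohomology of `BSO(q)` is the algebra `I(SO(q))` of invariant symmetric multilinear forms
on the Lie algebra of skew-symmetric matrices (Pontrjagin classes and, for even `q`, the Euler
class). For an oriented bundle with a metric connection the characteristic class of `F` is
represented by the Chern-Weil form `F(Ω, ..., Ω)`. The transversal model is `V` with the scalar
product `B`; in the results `V = ℝ^q` and `B = dot q`.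
-/

namespace Pool.Agent.HAF2.St

open Filter Topology
open scoped ContDiff
open Pool.Agent.HaefligerClasses (QuotientManifold IsForm HaefligerStructure curvature)

section

variable {V : Type} [NormedAddCommGroup V] [NormedSpace ℝ V]

/-- The linear map `A` is a rotation for the scalar product `B`. -/
def IsRotation (B : V → V → ℝ) (A : V →L[ℝ] V) : Prop :=
  (∀ v, B (A v) (A v) = B v v) ∧ 0 < A.det

/-- The linear map `A` is skew-symmetric for the scalar product `B`. -/
def IsSkew (B : V → V → ℝ) (A : V →L[ℝ] V) : Prop :=
  ∀ v, B (A v) v = 0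

variable {E : Type} [NormedAddCommGroup E] [NormedSpace ℝ E] {Λ : Type} [AddGroup Λ]
variable {M : QuotientManifold E Λ}

/-- A smooth metric on the oriented normal bundle of a Haefliger structure with transversal model
`V`, together with a smooth metric connection. The metric is given by oriented orthonormal frames
`frame i x` of the normal bundle over the sets of the cover: they are related by the rotations
`rot i a j x` (so the metric is well defined and invariant). The connection is given by its
skew-symmetric connection forms `form i` in these frames, related by the gauge rule. -/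
structure MetricConnection (B : V → V → ℝ) (H : HaefligerStructure M V) where
  /-- oriented orthonormal frames of the normal bundle -/
  frame : H.ι → E → V →L[ℝ] V
  smooth_frame : ∀ i, ContDiffOn ℝ ∞ (frame i) (H.dom i)
  orient_frame : ∀ i, ∀ x ∈ H.dom i, 0 < (frame i x).det
  /-- the cocycle of the normal bundle in the orthonormal frames -/
  rot : H.ι → Λ → H.ι → E → V →L[ℝ] V
  isRotation_rot : ∀ i a j x, x ∈ H.dom j → M.act a x ∈ H.dom i → IsRotation B (rot i a j x)
  frame_rot : ∀ i a j x, x ∈ H.dom j → M.act a x ∈ H.dom i →
    H.normal i a j x ∘L frame j x = frame i (M.act a x) ∘L rot i a j x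
  /-- the local connection forms -/
  form : H.ι → E → E →L[ℝ] (V →L[ℝ] V)
  smooth_form : ∀ i, ContDiffOn ℝ ∞ (form i) (H.dom i)
  isSkew_form : ∀ i, ∀ x ∈ H.dom i, ∀ u, IsSkew B (form i x u)
  compat : ∀ i a j x, x ∈ H.dom j → M.act a x ∈ H.dom i → ∀ u : E,
    (form i (M.act a x) (fderiv ℝ (M.act a) x u)) ∘L rot i a j x =
      rot i a j x ∘L form j x u - fderiv ℝ (fun y => rot i a j y) x u

/-- An invariant symmetric `d`-linear form on the endomorphisms of `V` (only its values on
skew-symmetric endomorphisms matter), invariant under conjugation by the rotations. -/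
structure RotForm (B : V → V → ℝ) (d : ℕ) where
  /-- the multilinear form -/
  toFun : MultilinearMap ℝ (fun _ : Fin d => V →L[ℝ] V) ℝ
  symm : ∀ (σ : Equiv.Perm (Fin d)) (X : Fin d → V →L[ℝ] V),
    toFun (fun s => X (σ s)) = toFun X
  conj : ∀ g : V ≃L[ℝ] V, IsRotation B (g : V →L[ℝ] V) → ∀ X : Fin d → V →L[ℝ] V,
    toFun (fun s => (g : V →L[ℝ] V) ∘L X s ∘L (g.symm : V →L[ℝ] V)) = toFun X

/-- The value of the form on endomorphisms. -/
def RotForm.val {B : V → V → ℝ} {d : ℕ} (F : RotForm B d) (X : Fin d → V →L[ℝ] V) : ℝ :=
  F.toFun X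

/-- The form does not vanish identically on the skew-symmetric endomorphisms, i.e. it represents
a nonzero characteristic class of oriented bundles. -/
def RotForm.Nonzero {B : V → V → ℝ} {d : ℕ} (F : RotForm B d) : Prop :=
  ∃ X : V →L[ℝ] V, IsSkew B X ∧ F.val (fun _ => X) ≠ 0

/-- The value of the Chern-Weil `2d`-form `F(R, ..., R)` of an endomorphism valued `2`-form `R` on
the vectors `u`. -/
noncomputable def chernWeil {B : V → V → ℝ} {d : ℕ} (F : RotForm B d)
    (R : E → E → V →L[ℝ] V) (u : Fin (2 * d) → E) : ℝ :=
  ∑ σ : Equiv.Perm (Fin (2 * d)), (Equiv.Perm.sign σ : ℤ) •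
    F.val (fun s : Fin d => R (u (σ ⟨2 * s.1, by omega⟩)) (u (σ ⟨2 * s.1 + 1, by omega⟩)))

/-- The Chern-Weil form `F(Ω)` of the metric connection is exact on the manifold `M`. -/
def ChernWeilExact {B : V → V → ℝ} {H : HaefligerStructure M V} (c : MetricConnection B H) {e : ℕ}
    (F : RotForm B (e + 1)) : Prop :=
  ∃ β : E → E [⋀^Fin (2 * e + 1)]→L[ℝ] ℝ, IsForm M β ∧
    ∀ i, ∀ x ∈ H.dom i, ∀ u : Fin (2 * e + 1 + 1) → E,
      extDeriv β x u = chernWeil F (curvature (c.form i) x) u

/-- The characteristic class of `F` is nonzero on some smooth Haefliger structure with transversal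
model `V` and oriented normal bundle: for some manifold, Haefliger structure and metric connection
the Chern-Weil form is not exact. -/
def RotForm.Survives {B : V → V → ℝ} {e : ℕ} (F : RotForm B (e + 1)) : Prop :=
  ∃ (E : Type) (_ : NormedAddCommGroup E) (_ : NormedSpace ℝ E) (_ : FiniteDimensional ℝ E)
    (Λ : Type) (_ : AddGroup Λ) (M : QuotientManifold E Λ)
    (H : HaefligerStructure M V) (c : MetricConnection B H), ¬ ChernWeilExact c F

end

/-- The standard scalar product of `ℝ^q`. -/
def dot (q : ℕ) (v w : Fin q → ℝ) : ℝ := ∑ k, v k * w k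

end Pool.Agent.HAF2.St
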