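import Pool.Agent.HAF2.Final
import Pool.Agent.HAF2.Stmt

/-!
# From the internal definitions to the definitions of the statements
-/

namespace Pool.Agent.HAF2

open Pool.Agent.HaefligerClasses (QuotientManifold IsForm HaefligerStructure curvature
  torusElement)

theorem isRotation_iff {q : ℕ} (A : (Fin q → ℝ) →L[ℝ] (Fin q → ℝ)) :
    St.IsRotation (St.dot q) A ↔ IsRotation A := by
  unfold St.IsRotation IsRotation St.dot
  simp only [sq]

theorem isSkew_iff {q : ℕ} (A : (Fin q → ℝ) →L[ℝ] (Fin q → ℝ)) :
    St.IsSkew (St.dot q) A ↔ IsSkew A := Iff.rfl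

/-- the form in terms of the internal definition -/
def ofForm {q d : ℕ} (F : St.RotForm (St.dot q) d) : RotInvariantForm q d where
  toFun := F.toFun
  symm := F.symm
  conj := fun g hg X => F.conj g ((isRotation_iff _).2 hg) X

/-- the connection in terms of the definition of the statements -/
def toConn {E : Type} [NormedAddCommGroup E] [NormedSpace ℝ E] {Λ : Type} [AddGroup Λ]
    {M : QuotientManifold E Λ} {q : ℕ} {H : HaefligerStructure M (Fin q → ℝ)}
    (c : MetricConnection H) : St.MetricConnection (St.dot q) H where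
  frame := c.frame
  smooth_frame := c.smooth_frame
  orient_frame := c.orient_frame
  rot := c.rot
  isRotation_rot := fun i a j x hx hy => (isRotation_iff _).2 (c.isRotation_rot i a j x hx hy)
  frame_rot := c.frame_rot
  form := c.form
  smooth_form := c.smooth_form
  isSkew_form := c.isSkew_form
  compat := c.compat

theorem survives_of_not_vanishes {q e : ℕ} (F : St.RotForm (St.dot q) (e + 1))
    (h : ¬ VanishesOnHaefliger (ofForm F)) : F.Survives := by
  by_contra hcon
  refine h ?_
  intro E i1 i2 i3 Λ i4 M H c
  by_contra hc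
  refine hcon ⟨E, i1, i2, i3, Λ, i4, M, H, toConn c, ?_⟩
  intro hex
  exact hc hex

theorem survives_range (q e : ℕ) (F : St.RotForm (St.dot q) (e + 1)) (hF : F.Nonzero)
    (hq : (e + 1) + (e + 1) / 4 ≤ q) : F.Survives := by
  obtain ⟨X, hX, hF⟩ := hF
  exact survives_of_not_vanishes F (range_all q e (ofForm F) X hX hF hq)

theorem survives_monomial (q e : ℕ) (F : St.RotForm (St.dot q) (e + 1))
    (r : Fin (e + 1) → Fin (q / 2))
    (hr : F.val (fun s => torusElement q (Pi.single (r s) 1)) ≠ 0)
    (hq : (e + 1) + (Finset.univ.filter fun j =>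
      3 ≤ (Finset.univ.filter fun s => r s = j).card).card ≤ q) : F.Survives :=
  survives_of_not_vanishes F (main.2.1 q e (ofForm F) r hr hq)

end Pool.Agent.HAF2
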