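import Pool.Agent.HAF2.Model

/-!
# Module FUB: Fubini's theorem for cubes

`Fin (a + b) → ℝ` is `(Fin a → ℝ) × (Fin b → ℝ)` by a measure preserving equivalence
(`MeasureTheory.volume_preserving_piCongrLeft`, `volume_preserving_sumPiEquivProdPi`,
`finSumFinEquiv`).
-/

namespace Pool.Agent.HAF2

open Filter Topology MeasureTheory
open scoped ContDiff

private noncomputable def fubE (a b : ℕ) :
    ((Fin a → ℝ) × (Fin b → ℝ)) ≃ᵐ (Fin (a + b) → ℝ) :=
  (MeasurableEquiv.sumPiEquivProdPi (fun _ : Fin a ⊕ Fin b => ℝ)).symm.trans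
    (MeasurableEquiv.piCongrLeft (fun _ : Fin (a + b) => ℝ) finSumFinEquiv)

private theorem fubE_apply (a b : ℕ) (p : (Fin a → ℝ) × (Fin b → ℝ)) :
    fubE a b p = Fin.append p.1 p.2 := by
  funext i
  refine Fin.addCases (fun j => ?_) (fun j => ?_) i
  · rw [Fin.append_left]
    have h := Equiv.piCongrLeft_sumInl (fun _ : Fin (a + b) => ℝ) finSumFinEquiv p.1 p.2 j
    rw [finSumFinEquiv_apply_left] at h
    exact h
  · rw [Fin.append_right]
    have h := Equiv.piCongrLeft_sumInr (fun _ : Fin (a + b) => ℝ) finSumFinEquiv p.1 p.2 j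
    rw [finSumFinEquiv_apply_right] at h
    exact h

private theorem fubE_mp (a b : ℕ) : MeasurePreserving (fubE a b) volume volume :=
  (volume_measurePreserving_piCongrLeft (fun _ : Fin (a + b) => ℝ) finSumFinEquiv).comp
    (volume_measurePreserving_sumPiEquivProdPi_symm (fun _ : Fin a ⊕ Fin b => ℝ))

private theorem fubE_preimage (a b : ℕ) :
    fubE a b ⁻¹' Set.Icc (0 : Fin (a + b) → ℝ) 1 =
      Set.Icc (0 : Fin a → ℝ) 1 ×ˢ Set.Icc (0 : Fin b → ℝ) 1 := by
  ext p
  simp only [Set.mem_preimage, Set.mem_prod, Set.mem_Icc, Pi.le_def, Pi.zero_apply, Pi.one_apply,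
    fubE_apply]
  constructor
  · rintro ⟨h0, h1⟩
    refine ⟨⟨fun i => ?_, fun i => ?_⟩, ⟨fun i => ?_, fun i => ?_⟩⟩
    · simpa using h0 (Fin.castAdd b i)
    · simpa using h1 (Fin.castAdd b i)
    · simpa using h0 (Fin.natAdd a i)
    · simpa using h1 (Fin.natAdd a i)
  · rintro ⟨⟨h0, h1⟩, ⟨h2, h3⟩⟩
    refine ⟨fun i => ?_, fun i => ?_⟩
    · refine Fin.addCases (fun j => ?_) (fun j => ?_) i
      · simpa using h0 j
      · simpa using h2 j
    · refine Fin.addCases (fun j => ?_) (fun j => ?_) i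
      · simpa using h1 j
      · simpa using h3 j

private theorem fub_integrable {F : Type} [NormedAddCommGroup F] [NormedSpace ℝ F]
    (a b : ℕ) (f : (Fin (a + b) → ℝ) → F)
    (hf : IntegrableOn f (Set.Icc (0 : Fin (a + b) → ℝ) 1)) :
    IntegrableOn (fun p : (Fin a → ℝ) × (Fin b → ℝ) => f (Fin.append p.1 p.2))
      (Set.Icc (0 : Fin a → ℝ) 1 ×ˢ Set.Icc (0 : Fin b → ℝ) 1) (volume.prod volume) := by
  have h := ((fubE_mp a b).integrableOn_comp_preimage
    (fubE a b).measurableEmbedding).2 hf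
  rw [fubE_preimage] at h
  refine h.congr_fun (fun p _ => ?_) (measurableSet_Icc.prod measurableSet_Icc)
  simp only [Function.comp, fubE_apply]

private theorem fub_integral {F : Type} [NormedAddCommGroup F] [NormedSpace ℝ F]
    (a b : ℕ) (f : (Fin (a + b) → ℝ) → F) :
    ∫ ξ in Set.Icc (0 : Fin (a + b) → ℝ) 1, f ξ =
      ∫ p in Set.Icc (0 : Fin a → ℝ) 1 ×ˢ Set.Icc (0 : Fin b → ℝ) 1,
        f (Fin.append p.1 p.2) ∂(volume.prod volume) := by
  rw [← (fubE_mp a b).setIntegral_preimage_emb (fubE a b).measurableEmbedding f, fubE_preimage]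
  refine setIntegral_congr_fun (measurableSet_Icc.prod measurableSet_Icc) (fun p _ => ?_)
  simp only [fubE_apply]

theorem integral_cube_add {F : Type} [NormedAddCommGroup F] [NormedSpace ℝ F] [CompleteSpace F]
    (a b : ℕ) (f : (Fin (a + b) → ℝ) → F)
    (hf : IntegrableOn f (Set.Icc (0 : Fin (a + b) → ℝ) 1)) :
    ∫ ξ in Set.Icc (0 : Fin (a + b) → ℝ) 1, f ξ =
      ∫ x in Set.Icc (0 : Fin a → ℝ) 1, ∫ y in Set.Icc (0 : Fin b → ℝ) 1, f (Fin.append x y) := by
  rw [fub_integral]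
  exact setIntegral_prod _ (fub_integrable a b f hf)

theorem integral_cube_add' {F : Type} [NormedAddCommGroup F] [NormedSpace ℝ F] [CompleteSpace F]
    (a b : ℕ) (f : (Fin (a + b) → ℝ) → F)
    (hf : IntegrableOn f (Set.Icc (0 : Fin (a + b) → ℝ) 1)) :
    ∫ ξ in Set.Icc (0 : Fin (a + b) → ℝ) 1, f ξ =
      ∫ y in Set.Icc (0 : Fin b → ℝ) 1, ∫ x in Set.Icc (0 : Fin a → ℝ) 1, f (Fin.append x y) := by
  rw [fub_integral, ← Measure.prod_restrict]
  refine integral_prod_symm _ ?_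
  rw [Measure.prod_restrict]
  exact fub_integrable a b f hf

/-- the integral over the square as an iterated integral -/
theorem integral_cube_two {F : Type} [NormedAddCommGroup F] [NormedSpace ℝ F] [CompleteSpace F]
    (f : (Fin 2 → ℝ) → F) (hf : ContinuousOn f (Set.Icc (0 : Fin 2 → ℝ) 1)) :
    ∫ ξ in Set.Icc (0 : Fin 2 → ℝ) 1, f ξ = ∫ s in (0 : ℝ)..1, ∫ t in (0 : ℝ)..1, f ![s, t] := by
  have h1 : ∀ g : (Fin 1 → ℝ) → F, ∫ x in Set.Icc (0 : Fin 1 → ℝ) 1, g x =
      ∫ s in (0 : ℝ)..1, g ![s] := by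
    intro g
    have hmp := volume_preserving_funUnique (Fin 1) ℝ
    rw [intervalIntegral.integral_of_le zero_le_one, ← integral_Icc_eq_integral_Ioc,
      ← hmp.setIntegral_preimage_emb (MeasurableEquiv.funUnique (Fin 1) ℝ).measurableEmbedding
        (fun s => g ![s])]
    have hset : (MeasurableEquiv.funUnique (Fin 1) ℝ) ⁻¹' Set.Icc (0 : ℝ) 1 =
        Set.Icc (0 : Fin 1 → ℝ) 1 := by
      ext x
      simp [Set.mem_Icc, Pi.le_def, MeasurableEquiv.funUnique]
    rw [hset]
    refine setIntegral_congr_fun measurableSet_Icc (fun x _ => ?_)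
    have : x = ![(MeasurableEquiv.funUnique (Fin 1) ℝ) x] := by
      funext i
      fin_cases i
      simp [MeasurableEquiv.funUnique]
    exact congrArg g this
  have hint : IntegrableOn f (Set.Icc (0 : Fin (1 + 1) → ℝ) 1) :=
    hf.integrableOn_compact isCompact_Icc
  have h := integral_cube_add 1 1 f hint
  rw [show (∫ ξ in Set.Icc (0 : Fin 2 → ℝ) 1, f ξ) =
    ∫ ξ in Set.Icc (0 : Fin (1 + 1) → ℝ) 1, f ξ from rfl, h, h1]
  refine intervalIntegral.integral_congr (fun s _ => ?_)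
  simp only [h1]
  refine intervalIntegral.integral_congr (fun t _ => ?_)
  have : (Fin.append ![s] ![t] : Fin (1 + 1) → ℝ) = ![s, t] := by
    funext i
    fin_cases i <;> rfl
  simp only [this]

end Pool.Agent.HAF2
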