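import Pool.Agent.HAF2.Prd
import Pool.Agent.HAF2.Fub

/-!
# Module CPR: the product of two cycles is a cycle

For an invariant `m`-form `β` on the product with `m + 1 = N₁ + N₂`, write
`extDeriv β (c₁, c₂) (∂_0, ..., ∂_m)` as an alternating sum over the index of the direction of
differentiation. The terms with index in the first block are, for fixed `ξ₂`, the exterior
derivative of the form `w ↦ β (x, c₂ ξ₂) (w, ∂ c₂)` on `U₁`, evaluated on the tangent vectors of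
`c₁`; this form is invariant (use the elements `(a, 0)` of the group) and of class `C^1`, so that
the integral over the first cycle vanishes (if `N₁ = 0` there are no such terms). In the same way
for the second block.
-/

namespace Pool.Agent.HAF2

open Filter Topology MeasureTheory
open scoped ContDiff
open Pool.Agent.HaefligerClasses (QuotientManifold IsForm HaefligerStructure curvature
  torusElement)

/-- evaluation of an alternating map with some entries fixed -/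
private noncomputable def cprAlt {ι ι₁ ι₂ : Type} [Fintype ι] [Fintype ι₁] [Fintype ι₂]
    {E F : Type} [NormedAddCommGroup E] [NormedSpace ℝ E] [NormedAddCommGroup F] [NormedSpace ℝ F]
    (s : ι ≃ ι₁ ⊕ ι₂) (L : F →L[ℝ] E) (u : ι₂ → E) (f : E [⋀^ι]→L[ℝ] ℝ) : F [⋀^ι₁]→ₗ[ℝ] ℝ where
  toFun := fun w => f (fun i => Sum.elim (fun a => L (w a)) u (s i))
  map_update_add' := by
    classical
    intro _ w a x y
    have key : ∀ z : F, (fun i => Sum.elim (fun b => L (Function.update w a z b)) u (s i)) =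
        Function.update (fun i => Sum.elim (fun b => L (w b)) u (s i)) (s.symm (Sum.inl a)) (L z) := by
      intro z
      funext i
      by_cases hi : i = s.symm (Sum.inl a)
      · subst hi
        simp
      · rw [Function.update_of_ne hi]
        rcases hs : s i with b | b
        · have hb : b ≠ a := by
            rintro rfl
            exact hi (by rw [← hs, Equiv.symm_apply_apply])
          simp [Function.update_of_ne hb]
        · simp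
    simp only [key, map_add]
    exact f.map_update_add _ _ _ _
  map_update_smul' := by
    classical
    intro _ w a c x
    have key : ∀ z : F, (fun i => Sum.elim (fun b => L (Function.update w a z b)) u (s i)) =
        Function.update (fun i => Sum.elim (fun b => L (w b)) u (s i)) (s.symm (Sum.inl a)) (L z) := by
      intro z
      funext i
      by_cases hi : i = s.symm (Sum.inl a)
      · subst hi
        simp
      · rw [Function.update_of_ne hi]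
        rcases hs : s i with b | b
        · have hb : b ≠ a := by
            rintro rfl
            exact hi (by rw [← hs, Equiv.symm_apply_apply])
          simp [Function.update_of_ne hb]
        · simp
    simp only [key, map_smul]
    exact f.map_update_smul _ _ _ _
  map_eq_zero_of_eq' := by
    intro w a b hab hne
    refine f.map_eq_zero_of_eq _ (i := s.symm (Sum.inl a)) (j := s.symm (Sum.inl b)) ?_ ?_
    · simp [hab]
    · intro h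
      exact hne (Sum.inl.inj (s.symm.injective h))

/-- the same as a continuous linear map -/
private noncomputable def cprIns {ι ι₁ ι₂ : Type} [Fintype ι] [Fintype ι₁] [Fintype ι₂]
    {E F : Type} [NormedAddCommGroup E] [NormedSpace ℝ E] [NormedAddCommGroup F] [NormedSpace ℝ F]
    (s : ι ≃ ι₁ ⊕ ι₂) (L : F →L[ℝ] E) (u : ι₂ → E) :
    (E [⋀^ι]→L[ℝ] ℝ) →L[ℝ] (F [⋀^ι₁]→L[ℝ] ℝ) :=
  AlternatingMap.mkContinuousLinear
    { toFun := fun f => cprAlt s L u f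
      map_add' := fun f g => by ext w; rfl
      map_smul' := fun c f => by ext w; rfl }
    (‖L‖ ^ Fintype.card ι₁ * ∏ b, ‖u b‖) (by
      intro f w
      have h1 : ‖f (fun i => Sum.elim (fun a => L (w a)) u (s i))‖ ≤
          ‖f‖ * ∏ i, ‖Sum.elim (fun a => L (w a)) u (s i)‖ := f.le_opNorm _
      have h2 : ∏ i, ‖Sum.elim (fun a => L (w a)) u (s i)‖ =
          (∏ a, ‖L (w a)‖) * ∏ b, ‖u b‖ := by
        rw [Equiv.prod_comp s (fun t => ‖Sum.elim (fun a => L (w a)) u t‖),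
          Fintype.prod_sum_type]
        rfl
      have h3 : ∏ a, ‖L (w a)‖ ≤ ‖L‖ ^ Fintype.card ι₁ * ∏ a, ‖w a‖ := by
        calc ∏ a, ‖L (w a)‖ ≤ ∏ a, (‖L‖ * ‖w a‖) :=
              Finset.prod_le_prod (fun _ _ => norm_nonneg _) (fun a _ => L.le_opNorm _)
          _ = _ := by
              rw [Finset.prod_mul_distrib, Finset.prod_const, Finset.card_univ]
      change ‖f (fun i => Sum.elim (fun a => L (w a)) u (s i))‖ ≤ _
      rw [h2] at h1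
      refine h1.trans ?_
      have h4 : 0 ≤ ∏ b, ‖u b‖ := Finset.prod_nonneg fun _ _ => norm_nonneg _
      calc ‖f‖ * ((∏ a, ‖L (w a)‖) * ∏ b, ‖u b‖)
          ≤ ‖f‖ * ((‖L‖ ^ Fintype.card ι₁ * ∏ a, ‖w a‖) * ∏ b, ‖u b‖) := by gcongr
        _ = _ := by ring)

private theorem cprIns_apply {ι ι₁ ι₂ : Type} [Fintype ι] [Fintype ι₁] [Fintype ι₂]
    {E F : Type} [NormedAddCommGroup E] [NormedSpace ℝ E] [NormedAddCommGroup F] [NormedSpace ℝ F]
    (s : ι ≃ ι₁ ⊕ ι₂) (L : F →L[ℝ] E) (u : ι₂ → E) (f : E [⋀^ι]→L[ℝ] ℝ) (w : ι₁ → F) :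
    cprIns s L u f w = f (fun i => Sum.elim (fun a => L (w a)) u (s i)) := rfl


/-- the splitting of the indices, first block shortened -/
private def cprS₁ {p N₂ m : ℕ} (h : m = p + N₂) : Fin m ≃ Fin p ⊕ Fin N₂ :=
  (finCongr h).trans finSumFinEquiv.symm

/-- the splitting of the indices, second block shortened -/
private def cprS₂ {N₁ q m : ℕ} (h : m = N₁ + q) : Fin m ≃ Fin q ⊕ Fin N₁ :=
  ((finCongr h).trans finSumFinEquiv.symm).trans (Equiv.sumComm _ _)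

private theorem cpr_split {E : Type} [NormedAddCommGroup E] [NormedSpace ℝ E]
    {N₁ N₂ m : ℕ} (hm : m + 1 = N₁ + N₂) (A : E →L[ℝ] (E [⋀^Fin m]→L[ℝ] ℝ))
    (W : Fin (N₁ + N₂) → E) :
    ContinuousAlternatingMap.alternatizeUncurryFin A (fun i => W (Fin.cast hm i)) =
      (∑ j : Fin N₁, (-1 : ℝ) ^ (j : ℕ) * A (W (Fin.castAdd N₂ j))
        (fun i => W (Fin.cast hm ((Fin.cast hm.symm (Fin.castAdd N₂ j)).succAbove i)))) +
      ∑ j : Fin N₂, (-1 : ℝ) ^ (N₁ + (j : ℕ)) * A (W (Fin.natAdd N₁ j))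
        (fun i => W (Fin.cast hm ((Fin.cast hm.symm (Fin.natAdd N₁ j)).succAbove i))) := by
  rw [ContinuousAlternatingMap.alternatizeUncurryFin_apply]
  have h1 : ∀ k : Fin (m + 1), ((-1 : ℤ) ^ (k : ℕ)) • (A (W (Fin.cast hm k)))
      ((k.removeNth (fun i => W (Fin.cast hm i)))) =
      (-1 : ℝ) ^ (k : ℕ) * A (W (Fin.cast hm k)) (fun i => W (Fin.cast hm (k.succAbove i))) := by
    intro k
    rw [zsmul_eq_mul]
    push_cast
    rfl
  rw [Finset.sum_congr rfl (fun k _ => h1 k)]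
  rw [← Equiv.sum_comp (finCongr hm.symm) (fun k : Fin (m + 1) => (-1 : ℝ) ^ (k : ℕ) *
    A (W (Fin.cast hm k)) (fun i => W (Fin.cast hm (k.succAbove i))))]
  rw [Fin.sum_univ_add]
  rfl

private theorem cpr_index₁ {E : Type} {p N₂ m : ℕ} (hm : m + 1 = (p + 1) + N₂) (h : m = p + N₂)
    (W : Fin ((p + 1) + N₂) → E) (j : Fin (p + 1)) (i : Fin m) :
    W (Fin.cast hm ((Fin.cast hm.symm (Fin.castAdd N₂ j)).succAbove i)) =
      Sum.elim (fun a => W (Fin.castAdd N₂ (j.succAbove a))) (fun b => W (Fin.natAdd (p + 1) b))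
        (cprS₁ h i) := by
  obtain ⟨t, rfl⟩ := (cprS₁ h).symm.surjective i
  rw [Equiv.apply_symm_apply]
  rcases t with a | b
  · simp only [Sum.elim_inl]
    congr 1
    apply Fin.ext
    simp only [cprS₁, Fin.succAbove, Fin.lt_def, Equiv.symm_trans_apply, Equiv.symm_symm,
      finSumFinEquiv_apply_left, finCongr_symm, finCongr_apply, Fin.val_cast, Fin.val_castSucc,
      Fin.val_castAdd]
    split_ifs <;> simp
  · simp only [Sum.elim_inr]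
    congr 1
    apply Fin.ext
    simp only [cprS₁, Fin.succAbove, Fin.lt_def, Equiv.symm_trans_apply, Equiv.symm_symm,
      finSumFinEquiv_apply_right, finCongr_symm, finCongr_apply, Fin.val_cast, Fin.val_castSucc,
      Fin.val_castAdd, Fin.val_natAdd]
    have hj := j.2
    split_ifs with hh
    · exfalso; omega
    · simp; omega

private theorem cpr_index₂ {E : Type} {N₁ q m : ℕ} (hm : m + 1 = N₁ + (q + 1)) (h : m = N₁ + q)
    (W : Fin (N₁ + (q + 1)) → E) (j : Fin (q + 1)) (i : Fin m) :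
    W (Fin.cast hm ((Fin.cast hm.symm (Fin.natAdd N₁ j)).succAbove i)) =
      Sum.elim (fun a => W (Fin.natAdd N₁ (j.succAbove a))) (fun b => W (Fin.castAdd (q + 1) b))
        (cprS₂ h i) := by
  obtain ⟨t, rfl⟩ := (cprS₂ h).symm.surjective i
  rw [Equiv.apply_symm_apply]
  rcases t with a | b
  · simp only [Sum.elim_inl]
    congr 1
    apply Fin.ext
    simp only [cprS₂, Fin.succAbove, Fin.lt_def, Equiv.symm_trans_apply, Equiv.symm_symm,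
      finSumFinEquiv_apply_right, finCongr_symm, finCongr_apply, Fin.val_cast, Fin.val_castSucc,
      Fin.val_natAdd, Equiv.sumComm_symm, Equiv.sumComm_apply, Sum.swap_inl]
    split_ifs with h1 h2 h2
    · simp
    · exfalso; omega
    · exfalso; omega
    · simp; omega
  · simp only [Sum.elim_inr]
    congr 1
    apply Fin.ext
    have hb := b.2
    simp only [cprS₂, Fin.succAbove, Fin.lt_def, Equiv.symm_trans_apply, Equiv.symm_symm,
      finSumFinEquiv_apply_left, finCongr_symm, finCongr_apply, Fin.val_cast, Fin.val_castSucc,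
      Fin.val_castAdd, Fin.val_natAdd, Equiv.sumComm_symm, Equiv.sumComm_apply, Sum.swap_inr]
    split_ifs with h1
    · simp
    · exfalso; omega


section

variable {E₁ : Type} [NormedAddCommGroup E₁] [NormedSpace ℝ E₁] [FiniteDimensional ℝ E₁]
  {Λ₁ : Type} [AddGroup Λ₁]
variable {E₂ : Type} [NormedAddCommGroup E₂] [NormedSpace ℝ E₂] [FiniteDimensional ℝ E₂]
  {Λ₂ : Type} [AddGroup Λ₂]

/-- the vectors of the product -/
private def cprV {N₁ N₂ : ℕ} (w : Fin N₁ → E₁) (u : Fin N₂ → E₂) : Fin (N₁ + N₂) → E₁ × E₂ :=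
  Fin.append (fun j => (w j, (0 : E₂))) (fun b => ((0 : E₁), u b))

private theorem cprV_left {N₁ N₂ : ℕ} (w : Fin N₁ → E₁) (u : Fin N₂ → E₂) (j : Fin N₁) :
    cprV w u (Fin.castAdd N₂ j) = (w j, 0) := by
  unfold cprV; rw [Fin.append_left]

private theorem cprV_right {N₁ N₂ : ℕ} (w : Fin N₁ → E₁) (u : Fin N₂ → E₂) (j : Fin N₂) :
    cprV w u (Fin.natAdd N₁ j) = (0, u j) := by
  unfold cprV; rw [Fin.append_right]

/-- the first half of the exterior derivative -/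
private noncomputable def cprB₁ {N₁ N₂ m : ℕ} (hm : m + 1 = N₁ + N₂)
    (A : E₁ × E₂ →L[ℝ] ((E₁ × E₂) [⋀^Fin m]→L[ℝ] ℝ)) (w : Fin N₁ → E₁) (u : Fin N₂ → E₂) : ℝ :=
  ∑ j : Fin N₁, (-1 : ℝ) ^ (j : ℕ) * A (cprV w u (Fin.castAdd N₂ j))
    (fun i => cprV w u (Fin.cast hm ((Fin.cast hm.symm (Fin.castAdd N₂ j)).succAbove i)))

/-- the second half of the exterior derivative -/
private noncomputable def cprB₂ {N₁ N₂ m : ℕ} (hm : m + 1 = N₁ + N₂)
    (A : E₁ × E₂ →L[ℝ] ((E₁ × E₂) [⋀^Fin m]→L[ℝ] ℝ)) (w : Fin N₁ → E₁) (u : Fin N₂ → E₂) : ℝ :=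
  ∑ j : Fin N₂, (-1 : ℝ) ^ (N₁ + (j : ℕ)) * A (cprV w u (Fin.natAdd N₁ j))
    (fun i => cprV w u (Fin.cast hm ((Fin.cast hm.symm (Fin.natAdd N₁ j)).succAbove i)))

private theorem cpr_differentiableAt {E : Type} [NormedAddCommGroup E] [NormedSpace ℝ E]
    {Λ : Type} [AddGroup Λ] {M : QuotientManifold E Λ} {m : ℕ} {β : E → E [⋀^Fin m]→L[ℝ] ℝ}
    (hβ : IsForm1 M β) {x : E} (hx : x ∈ M.U) : DifferentiableAt ℝ β x :=
  ((hβ.1.contDiffAt (M.isOpen_U.mem_nhds hx))).differentiableAt (by simp)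

private theorem cpr_fderiv_act_zero {E : Type} [NormedAddCommGroup E] [NormedSpace ℝ E]
    {Λ : Type} [AddGroup Λ] (M : QuotientManifold E Λ) {x : E} (hx : x ∈ M.U) :
    fderiv ℝ (M.act 0) x = ContinuousLinearMap.id ℝ E := by
  have h : M.act 0 =ᶠ[𝓝 x] id := by
    filter_upwards [M.isOpen_U.mem_nhds hx] with y hy
    exact M.act_zero y hy
  rw [h.fderiv_eq, fderiv_id]

private theorem cpr_form₁ {M₁ : QuotientManifold E₁ Λ₁} {M₂ : QuotientManifold E₂ Λ₂}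
    {p N₂ m : ℕ} (h : m = p + N₂) {β : E₁ × E₂ → (E₁ × E₂) [⋀^Fin m]→L[ℝ] ℝ}
    (hβ : IsForm1 (prodM M₁ M₂) β) {y : E₂} (hy : y ∈ M₂.U) (u : Fin N₂ → E₂) :
    IsForm1 M₁ (fun x => cprIns (cprS₁ h) (ContinuousLinearMap.inl ℝ E₁ E₂)
      (fun b => ((0 : E₁), u b)) (β (x, y))) := by
  constructor
  · have h1 : ContDiffOn ℝ 1 (fun x : E₁ => β (x, y)) M₁.U :=
      hβ.1.comp (contDiff_id.prodMk contDiff_const).contDiffOn (fun x hx => ⟨hx, hy⟩)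
    exact (ContinuousLinearMap.contDiff _).comp_contDiffOn h1
  · intro a x hx
    ext w
    have h2 := hβ.2 (a, 0) (x, y) ⟨hx, hy⟩
    have h3 : (prodM M₁ M₂).act (a, 0) (x, y) = (M₁.act a x, y) := by
      change (M₁.act a x, M₂.act 0 y) = _
      rw [M₂.act_zero y hy]
    rw [h3, fderiv_prodM_act M₁ M₂ (a, 0) (x, y) ⟨hx, hy⟩] at h2
    simp only [cpr_fderiv_act_zero M₂ hy] at h2
    rw [ContinuousAlternatingMap.compContinuousLinearMap_apply, cprIns_apply, cprIns_apply, ← h2,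
      ContinuousAlternatingMap.compContinuousLinearMap_apply]
    congr 1
    funext i
    simp only [Function.comp_apply]
    rcases cprS₁ h i with b | b
    · simp
    · simp

private theorem cpr_form₂ {M₁ : QuotientManifold E₁ Λ₁} {M₂ : QuotientManifold E₂ Λ₂}
    {N₁ q m : ℕ} (h : m = N₁ + q) {β : E₁ × E₂ → (E₁ × E₂) [⋀^Fin m]→L[ℝ] ℝ}
    (hβ : IsForm1 (prodM M₁ M₂) β) {x : E₁} (hx : x ∈ M₁.U) (w : Fin N₁ → E₁) :
    IsForm1 M₂ (fun y => cprIns (cprS₂ h) (ContinuousLinearMap.inr ℝ E₁ E₂)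
      (fun b => (w b, (0 : E₂))) (β (x, y))) := by
  constructor
  · have h1 : ContDiffOn ℝ 1 (fun y : E₂ => β (x, y)) M₂.U :=
      hβ.1.comp (contDiff_const.prodMk contDiff_id).contDiffOn (fun y hy => ⟨hx, hy⟩)
    exact (ContinuousLinearMap.contDiff _).comp_contDiffOn h1
  · intro a y hy
    ext u
    have h2 := hβ.2 (0, a) (x, y) ⟨hx, hy⟩
    have h3 : (prodM M₁ M₂).act (0, a) (x, y) = (x, M₂.act a y) := by
      change (M₁.act 0 x, M₂.act a y) = _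
      rw [M₁.act_zero x hx]
    rw [h3, fderiv_prodM_act M₁ M₂ (0, a) (x, y) ⟨hx, hy⟩] at h2
    simp only [cpr_fderiv_act_zero M₁ hx] at h2
    rw [ContinuousAlternatingMap.compContinuousLinearMap_apply, cprIns_apply, cprIns_apply, ← h2,
      ContinuousAlternatingMap.compContinuousLinearMap_apply]
    congr 1
    funext i
    simp only [Function.comp_apply]
    rcases cprS₂ h i with b | b
    · simp
    · simp

private theorem cpr_ext₁ {M₁ : QuotientManifold E₁ Λ₁} {M₂ : QuotientManifold E₂ Λ₂}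
    {p N₂ m : ℕ} (hm : m + 1 = (p + 1) + N₂) (h : m = p + N₂)
    {β : E₁ × E₂ → (E₁ × E₂) [⋀^Fin m]→L[ℝ] ℝ}
    (hβ : IsForm1 (prodM M₁ M₂) β) {x : E₁} (hx : x ∈ M₁.U) {y : E₂} (hy : y ∈ M₂.U)
    (w : Fin (p + 1) → E₁) (u : Fin N₂ → E₂) :
    extDeriv (fun x => cprIns (cprS₁ h) (ContinuousLinearMap.inl ℝ E₁ E₂)
      (fun b => ((0 : E₁), u b)) (β (x, y))) x w = cprB₁ hm (fderiv ℝ β (x, y)) w u := by
  have hd : HasFDerivAt β (fderiv ℝ β (x, y)) (x, y) :=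
    (cpr_differentiableAt hβ (x := (x, y)) ⟨hx, hy⟩).hasFDerivAt
  have h1 : HasFDerivAt (fun x : E₁ => β (x, y))
      ((fderiv ℝ β (x, y)) ∘L (ContinuousLinearMap.inl ℝ E₁ E₂)) x := by
    have h2 : HasFDerivAt (fun x : E₁ => (x, y)) (ContinuousLinearMap.inl ℝ E₁ E₂) x :=
      hasFDerivAt_prodMk_left x y
    exact HasFDerivAt.comp x hd h2
  have h3 := ((cprIns (cprS₁ h) (ContinuousLinearMap.inl ℝ E₁ E₂)
      (fun b => ((0 : E₁), u b))).hasFDerivAt (x := β (x, y))).comp x h1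
  unfold extDeriv
  have h4 : fderiv ℝ (fun x => cprIns (cprS₁ h) (ContinuousLinearMap.inl ℝ E₁ E₂)
      (fun b => ((0 : E₁), u b)) (β (x, y))) x = _ := h3.fderiv
  rw [h4, ContinuousAlternatingMap.alternatizeUncurryFin_apply]
  unfold cprB₁
  refine Finset.sum_congr rfl fun j _ => ?_
  rw [zsmul_eq_mul]
  push_cast
  congr 1
  change (fderiv ℝ β (x, y) (w j, 0)) (fun i => Sum.elim
    (fun a => (w (j.succAbove a), (0 : E₂))) (fun b => ((0 : E₁), u b)) (cprS₁ h i)) = _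
  rw [cprV_left]
  congr 1
  funext i
  rw [cpr_index₁ hm h (cprV w u) j i]
  rcases cprS₁ h i with b | b
  · simp only [Sum.elim_inl]
    rw [cprV_left]
  · simp only [Sum.elim_inr]
    rw [cprV_right]

private theorem cpr_ext₂ {M₁ : QuotientManifold E₁ Λ₁} {M₂ : QuotientManifold E₂ Λ₂}
    {N₁ q m : ℕ} (hm : m + 1 = N₁ + (q + 1)) (h : m = N₁ + q)
    {β : E₁ × E₂ → (E₁ × E₂) [⋀^Fin m]→L[ℝ] ℝ}
    (hβ : IsForm1 (prodM M₁ M₂) β) {x : E₁} (hx : x ∈ M₁.U) {y : E₂} (hy : y ∈ M₂.U)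
    (w : Fin N₁ → E₁) (u : Fin (q + 1) → E₂) :
    (-1 : ℝ) ^ N₁ * extDeriv (fun y => cprIns (cprS₂ h) (ContinuousLinearMap.inr ℝ E₁ E₂)
      (fun b => (w b, (0 : E₂))) (β (x, y))) y u = cprB₂ hm (fderiv ℝ β (x, y)) w u := by
  have hd : HasFDerivAt β (fderiv ℝ β (x, y)) (x, y) :=
    (cpr_differentiableAt hβ (x := (x, y)) ⟨hx, hy⟩).hasFDerivAt
  have h1 : HasFDerivAt (fun y : E₂ => β (x, y))
      ((fderiv ℝ β (x, y)) ∘L (ContinuousLinearMap.inr ℝ E₁ E₂)) y := by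
    have h2 : HasFDerivAt (fun y : E₂ => (x, y)) (ContinuousLinearMap.inr ℝ E₁ E₂) y :=
      hasFDerivAt_prodMk_right x y
    exact HasFDerivAt.comp y hd h2
  have h3 := ((cprIns (cprS₂ h) (ContinuousLinearMap.inr ℝ E₁ E₂)
      (fun b => (w b, (0 : E₂)))).hasFDerivAt (x := β (x, y))).comp y h1
  unfold extDeriv
  have h4 : fderiv ℝ (fun y => cprIns (cprS₂ h) (ContinuousLinearMap.inr ℝ E₁ E₂)
      (fun b => (w b, (0 : E₂))) (β (x, y))) y = _ := h3.fderiv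
  rw [h4, ContinuousAlternatingMap.alternatizeUncurryFin_apply, Finset.mul_sum]
  unfold cprB₂
  refine Finset.sum_congr rfl fun j _ => ?_
  rw [zsmul_eq_mul, pow_add, mul_assoc]
  push_cast
  congr 2
  change (fderiv ℝ β (x, y) (0, u j)) (fun i => Sum.elim
    (fun a => ((0 : E₁), u (j.succAbove a))) (fun b => (w b, (0 : E₂))) (cprS₂ h i)) = _
  rw [cprV_right]
  congr 1
  funext i
  rw [cpr_index₂ hm h (cprV w u) j i]
  rcases cprS₂ h i with b | b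
  · simp only [Sum.elim_inl]
    rw [cprV_right]
  · simp only [Sum.elim_inr]
    rw [cprV_left]

/-- the tangent vectors of a cube -/
private noncomputable def cprT {E : Type} [NormedAddCommGroup E] [NormedSpace ℝ E] {N : ℕ}
    (c : (Fin N → ℝ) → E) (ξ : Fin N → ℝ) : Fin N → E :=
  fun i => fderiv ℝ c ξ (Pi.single i 1)

private theorem cpr_closed₁ {M₁ : QuotientManifold E₁ Λ₁} {M₂ : QuotientManifold E₂ Λ₂}
    {N₁ N₂ m : ℕ} (C₁ : Cycle M₁ N₁) (hm : m + 1 = N₁ + N₂)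
    {β : E₁ × E₂ → (E₁ × E₂) [⋀^Fin m]→L[ℝ] ℝ}
    (hβ : IsForm1 (prodM M₁ M₂) β) {y : E₂} (hy : y ∈ M₂.U) (u : Fin N₂ → E₂) :
    ∑ k, ∫ ξ in Set.Icc (0 : Fin N₁ → ℝ) 1,
      cprB₁ hm (fderiv ℝ β (C₁.c k ξ, y)) (cprT (C₁.c k) ξ) u = 0 := by
  rcases N₁ with _ | p
  · refine Finset.sum_eq_zero fun k _ => ?_
    simp [cprB₁]
  · have h : m = p + N₂ := by omega
    have h1 := C₁.closed p rfl _ (cpr_form₁ h hβ hy u)
    rw [← h1]
    refine Finset.sum_congr rfl fun k _ => ?_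
    refine setIntegral_congr_fun measurableSet_Icc fun ξ hξ => ?_
    exact (cpr_ext₁ hm h hβ (C₁.mem_c k ξ hξ) hy (cprT (C₁.c k) ξ) u).symm

private theorem cpr_closed₂ {M₁ : QuotientManifold E₁ Λ₁} {M₂ : QuotientManifold E₂ Λ₂}
    {N₁ N₂ m : ℕ} (C₂ : Cycle M₂ N₂) (hm : m + 1 = N₁ + N₂)
    {β : E₁ × E₂ → (E₁ × E₂) [⋀^Fin m]→L[ℝ] ℝ}
    (hβ : IsForm1 (prodM M₁ M₂) β) {x : E₁} (hx : x ∈ M₁.U) (w : Fin N₁ → E₁) :
    ∑ k, ∫ ξ in Set.Icc (0 : Fin N₂ → ℝ) 1,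
      cprB₂ hm (fderiv ℝ β (x, C₂.c k ξ)) w (cprT (C₂.c k) ξ) = 0 := by
  rcases N₂ with _ | q
  · refine Finset.sum_eq_zero fun k _ => ?_
    simp [cprB₂]
  · have h : m = N₁ + q := by omega
    have h1 := C₂.closed q rfl _ (cpr_form₂ h hβ hx w)
    have h2 : (-1 : ℝ) ^ N₁ * ∑ k, ∫ ξ in Set.Icc (0 : Fin (q + 1) → ℝ) 1,
        extDeriv (fun y => cprIns (cprS₂ h) (ContinuousLinearMap.inr ℝ E₁ E₂)
          (fun b => (w b, (0 : E₂))) (β (x, y))) (C₂.c k ξ) (fun i => fderiv ℝ (C₂.c k) ξ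
            (Pi.single (Fin.cast rfl i) 1)) = 0 := by rw [h1, mul_zero]
    rw [← h2, Finset.mul_sum]
    refine Finset.sum_congr rfl fun k _ => ?_
    rw [← integral_const_mul]
    refine setIntegral_congr_fun measurableSet_Icc fun ξ hξ => ?_
    exact (cpr_ext₂ hm h hβ hx (C₂.mem_c k ξ hξ) w (cprT (C₂.c k) ξ)).symm

/-- the product of two cubes -/
def prodCube {N₁ N₂ : ℕ} (c₁ : (Fin N₁ → ℝ) → E₁) (c₂ : (Fin N₂ → ℝ) → E₂)
    (ξ : Fin (N₁ + N₂) → ℝ) : E₁ × E₂ :=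
  (c₁ (fun i => ξ (Fin.castAdd N₂ i)), c₂ (fun i => ξ (Fin.natAdd N₁ i)))

omit [FiniteDimensional ℝ E₁] [FiniteDimensional ℝ E₂] in
private theorem cpr_hasFDerivAt {N₁ N₂ : ℕ} (c₁ : (Fin N₁ → ℝ) → E₁) (c₂ : (Fin N₂ → ℝ) → E₂)
    (h₁ : ContDiff ℝ ∞ c₁) (h₂ : ContDiff ℝ ∞ c₂) (ξ : Fin (N₁ + N₂) → ℝ) :
    HasFDerivAt (prodCube c₁ c₂)
      (((fderiv ℝ c₁ (fun i => ξ (Fin.castAdd N₂ i))) ∘L
        (ContinuousLinearMap.pi fun i : Fin N₁ =>
          ContinuousLinearMap.proj (R := ℝ) (φ := fun _ : Fin (N₁ + N₂) => ℝ) (Fin.castAdd N₂ i))).prod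
      ((fderiv ℝ c₂ (fun i => ξ (Fin.natAdd N₁ i))) ∘L
        (ContinuousLinearMap.pi fun i : Fin N₂ =>
          ContinuousLinearMap.proj (R := ℝ) (φ := fun _ : Fin (N₁ + N₂) => ℝ) (Fin.natAdd N₁ i))))
      ξ := by
  have e1 : HasFDerivAt (fun ξ : Fin (N₁ + N₂) → ℝ => fun i : Fin N₁ => ξ (Fin.castAdd N₂ i))
      (ContinuousLinearMap.pi fun i : Fin N₁ =>
          ContinuousLinearMap.proj (R := ℝ) (φ := fun _ : Fin (N₁ + N₂) => ℝ) (Fin.castAdd N₂ i)) ξ :=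
    (ContinuousLinearMap.pi fun i : Fin N₁ =>
          ContinuousLinearMap.proj (R := ℝ) (φ := fun _ : Fin (N₁ + N₂) => ℝ)
            (Fin.castAdd N₂ i)).hasFDerivAt
  have e2 : HasFDerivAt (fun ξ : Fin (N₁ + N₂) → ℝ => fun i : Fin N₂ => ξ (Fin.natAdd N₁ i))
      (ContinuousLinearMap.pi fun i : Fin N₂ =>
          ContinuousLinearMap.proj (R := ℝ) (φ := fun _ : Fin (N₁ + N₂) => ℝ) (Fin.natAdd N₁ i)) ξ :=
    (ContinuousLinearMap.pi fun i : Fin N₂ =>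
          ContinuousLinearMap.proj (R := ℝ) (φ := fun _ : Fin (N₁ + N₂) => ℝ)
            (Fin.natAdd N₁ i)).hasFDerivAt
  have d1 := ((h₁.differentiable (by simp)) (fun i => ξ (Fin.castAdd N₂ i))).hasFDerivAt
  have d2 := ((h₂.differentiable (by simp)) (fun i => ξ (Fin.natAdd N₁ i))).hasFDerivAt
  exact (d1.comp ξ e1).prodMk (d2.comp ξ e2)

theorem fderiv_prodCube_castAdd {N₁ N₂ : ℕ} (c₁ : (Fin N₁ → ℝ) → E₁) (c₂ : (Fin N₂ → ℝ) → E₂)
    (h₁ : ContDiff ℝ ∞ c₁) (h₂ : ContDiff ℝ ∞ c₂) (ξ : Fin (N₁ + N₂) → ℝ) (i : Fin N₁) :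
    fderiv ℝ (prodCube c₁ c₂) ξ (Pi.single (Fin.castAdd N₂ i) 1) =
      (fderiv ℝ c₁ (fun i => ξ (Fin.castAdd N₂ i)) (Pi.single i 1), 0) := by
  rw [(cpr_hasFDerivAt c₁ c₂ h₁ h₂ ξ).fderiv]
  apply Prod.ext
  · simp only [ContinuousLinearMap.prod_apply, ContinuousLinearMap.comp_apply]
    congr 1
    funext j
    by_cases hj : j = i
    · subst hj; simp
    · simp [Pi.single_eq_of_ne hj, hj]
  · simp only [ContinuousLinearMap.prod_apply, ContinuousLinearMap.comp_apply]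
    have : (ContinuousLinearMap.pi fun j : Fin N₂ =>
          ContinuousLinearMap.proj (R := ℝ) (φ := fun _ : Fin (N₁ + N₂) => ℝ) (Fin.natAdd N₁ j))
          (Pi.single (Fin.castAdd N₂ i) 1) = 0 := by
      funext j
      have hne : Fin.natAdd N₁ j ≠ Fin.castAdd N₂ i := by
        intro h
        have h' := congrArg Fin.val h
        simp only [Fin.val_natAdd, Fin.val_castAdd] at h'
        have := i.2
        omega
      simp [Pi.single_eq_of_ne hne]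
    rw [this, map_zero]

theorem fderiv_prodCube_natAdd {N₁ N₂ : ℕ} (c₁ : (Fin N₁ → ℝ) → E₁) (c₂ : (Fin N₂ → ℝ) → E₂)
    (h₁ : ContDiff ℝ ∞ c₁) (h₂ : ContDiff ℝ ∞ c₂) (ξ : Fin (N₁ + N₂) → ℝ) (i : Fin N₂) :
    fderiv ℝ (prodCube c₁ c₂) ξ (Pi.single (Fin.natAdd N₁ i) 1) =
      (0, fderiv ℝ c₂ (fun i => ξ (Fin.natAdd N₁ i)) (Pi.single i 1)) := by
  rw [(cpr_hasFDerivAt c₁ c₂ h₁ h₂ ξ).fderiv]
  apply Prod.ext
  · simp only [ContinuousLinearMap.prod_apply, ContinuousLinearMap.comp_apply]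
    have : (ContinuousLinearMap.pi fun j : Fin N₁ =>
          ContinuousLinearMap.proj (R := ℝ) (φ := fun _ : Fin (N₁ + N₂) => ℝ) (Fin.castAdd N₂ j))
          (Pi.single (Fin.natAdd N₁ i) 1) = 0 := by
      funext j
      have hne : Fin.castAdd N₂ j ≠ Fin.natAdd N₁ i := by
        intro h
        have h' := congrArg Fin.val h
        simp only [Fin.val_natAdd, Fin.val_castAdd] at h'
        have := j.2
        omega
      simp [Pi.single_eq_of_ne hne]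
    rw [this, map_zero]
  · simp only [ContinuousLinearMap.prod_apply, ContinuousLinearMap.comp_apply]
    congr 1
    funext j
    by_cases hj : j = i
    · subst hj; simp
    · simp [Pi.single_eq_of_ne hj, hj]

omit [FiniteDimensional ℝ E₁] [FiniteDimensional ℝ E₂] in
private theorem cpr_contT {E : Type} [NormedAddCommGroup E] [NormedSpace ℝ E] {N : ℕ}
    {c : (Fin N → ℝ) → E} (h : ContDiff ℝ ∞ c) (i : Fin N) : Continuous (fun ξ => cprT c ξ i) := by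
  unfold cprT
  exact (h.continuous_fderiv (by simp)).clm_apply continuous_const

private theorem cpr_contV {N₁ N₂ : ℕ} {c₁ : (Fin N₁ → ℝ) → E₁} {c₂ : (Fin N₂ → ℝ) → E₂}
    (h₁ : ContDiff ℝ ∞ c₁) (h₂ : ContDiff ℝ ∞ c₂) (a : Fin (N₁ + N₂)) :
    Continuous (fun p : (Fin N₁ → ℝ) × (Fin N₂ → ℝ) => cprV (cprT c₁ p.1) (cprT c₂ p.2) a) := by
  refine Fin.addCases (fun j => ?_) (fun j => ?_) a
  · simp only [cprV_left]
    exact ((cpr_contT h₁ j).comp continuous_fst).prodMk continuous_const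
  · simp only [cprV_right]
    exact continuous_const.prodMk ((cpr_contT h₂ j).comp continuous_snd)

private theorem cpr_contA {M₁ : QuotientManifold E₁ Λ₁} {M₂ : QuotientManifold E₂ Λ₂}
    {N₁ N₂ m : ℕ} {c₁ : (Fin N₁ → ℝ) → E₁} {c₂ : (Fin N₂ → ℝ) → E₂}
    (h₁ : ContDiff ℝ ∞ c₁) (h₂ : ContDiff ℝ ∞ c₂)
    (m₁ : ∀ ξ ∈ Set.Icc (0 : Fin N₁ → ℝ) 1, c₁ ξ ∈ M₁.U)
    (m₂ : ∀ ξ ∈ Set.Icc (0 : Fin N₂ → ℝ) 1, c₂ ξ ∈ M₂.U)
    {β : E₁ × E₂ → (E₁ × E₂) [⋀^Fin m]→L[ℝ] ℝ} (hβ : IsForm1 (prodM M₁ M₂) β) :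
    ContinuousOn (fun p : (Fin N₁ → ℝ) × (Fin N₂ → ℝ) => fderiv ℝ β (c₁ p.1, c₂ p.2))
      (Set.Icc 0 1 ×ˢ Set.Icc 0 1) := by
  have h3 : ContinuousOn (fderiv ℝ β) (prodM M₁ M₂).U :=
    hβ.1.continuousOn_fderiv_of_isOpen (prodM M₁ M₂).isOpen_U le_rfl
  refine h3.comp ?_ (fun p hp => ⟨m₁ _ hp.1, m₂ _ hp.2⟩)
  exact ((h₁.continuous.comp continuous_fst).prodMk
    (h₂.continuous.comp continuous_snd)).continuousOn

private theorem cpr_contTerm {N₁ N₂ m : ℕ} {c₁ : (Fin N₁ → ℝ) → E₁} {c₂ : (Fin N₂ → ℝ) → E₂}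
    (h₁ : ContDiff ℝ ∞ c₁) (h₂ : ContDiff ℝ ∞ c₂)
    {A : (Fin N₁ → ℝ) × (Fin N₂ → ℝ) → (E₁ × E₂ →L[ℝ] ((E₁ × E₂) [⋀^Fin m]→L[ℝ] ℝ))}
    {s : Set ((Fin N₁ → ℝ) × (Fin N₂ → ℝ))} (hA : ContinuousOn A s)
    (a : Fin (N₁ + N₂)) (g : Fin m → Fin (N₁ + N₂)) :
    ContinuousOn (fun p => A p (cprV (cprT c₁ p.1) (cprT c₂ p.2) a)
      (fun i => cprV (cprT c₁ p.1) (cprT c₂ p.2) (g i))) s := by
  have e1 : ContinuousOn (fun p => A p (cprV (cprT c₁ p.1) (cprT c₂ p.2) a)) s :=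
    hA.clm_apply (cpr_contV h₁ h₂ a).continuousOn
  have e2 : ContinuousOn (fun p : (Fin N₁ → ℝ) × (Fin N₂ → ℝ) =>
      (fun i => cprV (cprT c₁ p.1) (cprT c₂ p.2) (g i))) s :=
    (continuous_pi fun i => cpr_contV h₁ h₂ (g i)).continuousOn
  exact ContinuousEval.continuous_eval.comp_continuousOn (e1.prodMk e2)

private theorem cpr_cont₁ {N₁ N₂ m : ℕ} (hm : m + 1 = N₁ + N₂)
    {c₁ : (Fin N₁ → ℝ) → E₁} {c₂ : (Fin N₂ → ℝ) → E₂}
    (h₁ : ContDiff ℝ ∞ c₁) (h₂ : ContDiff ℝ ∞ c₂)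
    {A : (Fin N₁ → ℝ) × (Fin N₂ → ℝ) → (E₁ × E₂ →L[ℝ] ((E₁ × E₂) [⋀^Fin m]→L[ℝ] ℝ))}
    {s : Set ((Fin N₁ → ℝ) × (Fin N₂ → ℝ))} (hA : ContinuousOn A s) :
    ContinuousOn (fun p => cprB₁ hm (A p) (cprT c₁ p.1) (cprT c₂ p.2)) s := by
  unfold cprB₁
  exact continuousOn_finsetSum _ fun j _ =>
    continuousOn_const.mul (cpr_contTerm h₁ h₂ hA _ _)

private theorem cpr_cont₂ {N₁ N₂ m : ℕ} (hm : m + 1 = N₁ + N₂)
    {c₁ : (Fin N₁ → ℝ) → E₁} {c₂ : (Fin N₂ → ℝ) → E₂}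
    (h₁ : ContDiff ℝ ∞ c₁) (h₂ : ContDiff ℝ ∞ c₂)
    {A : (Fin N₁ → ℝ) × (Fin N₂ → ℝ) → (E₁ × E₂ →L[ℝ] ((E₁ × E₂) [⋀^Fin m]→L[ℝ] ℝ))}
    {s : Set ((Fin N₁ → ℝ) × (Fin N₂ → ℝ))} (hA : ContinuousOn A s) :
    ContinuousOn (fun p => cprB₂ hm (A p) (cprT c₁ p.1) (cprT c₂ p.2)) s := by
  unfold cprB₂
  exact continuousOn_finsetSum _ fun j _ =>
    continuousOn_const.mul (cpr_contTerm h₁ h₂ hA _ _)

private theorem cpr_mem {N₁ N₂ : ℕ} {ξ : Fin (N₁ + N₂) → ℝ}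
    (hξ : ξ ∈ Set.Icc (0 : Fin (N₁ + N₂) → ℝ) 1) :
    (fun i => ξ (Fin.castAdd N₂ i)) ∈ Set.Icc (0 : Fin N₁ → ℝ) 1 ∧
    (fun i => ξ (Fin.natAdd N₁ i)) ∈ Set.Icc (0 : Fin N₂ → ℝ) 1 :=
  ⟨⟨fun i => hξ.1 (Fin.castAdd N₂ i), fun i => hξ.2 (Fin.castAdd N₂ i)⟩,
    ⟨fun i => hξ.1 (Fin.natAdd N₁ i), fun i => hξ.2 (Fin.natAdd N₁ i)⟩⟩

/-- continuity on the product cube -/
private theorem cpr_contCube {N₁ N₂ : ℕ} {G : (Fin N₁ → ℝ) × (Fin N₂ → ℝ) → ℝ}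
    (hG : ContinuousOn G (Set.Icc 0 1 ×ˢ Set.Icc 0 1)) :
    ContinuousOn (fun ξ : Fin (N₁ + N₂) → ℝ =>
      G (fun i => ξ (Fin.castAdd N₂ i), fun i => ξ (Fin.natAdd N₁ i)))
      (Set.Icc (0 : Fin (N₁ + N₂) → ℝ) 1) := by
  refine hG.comp ?_ (fun ξ hξ => ?_)
  · exact ((continuous_pi fun i => continuous_apply _).prodMk
      (continuous_pi fun i => continuous_apply _)).continuousOn
  · exact ⟨(cpr_mem hξ).1, (cpr_mem hξ).2⟩

/-- if all the slices over the first cube sum to zero then the integrals do -/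
private theorem cpr_sum₁ {N₁ N₂ : ℕ} {κ : Type} [Fintype κ]
    (G : κ → (Fin N₁ → ℝ) × (Fin N₂ → ℝ) → ℝ)
    (hG : ∀ k, ContinuousOn (G k) (Set.Icc 0 1 ×ˢ Set.Icc 0 1))
    (h0 : ∀ y ∈ Set.Icc (0 : Fin N₂ → ℝ) 1,
      ∑ k, ∫ x in Set.Icc (0 : Fin N₁ → ℝ) 1, G k (x, y) = 0) :
    ∑ k, ∫ ξ in Set.Icc (0 : Fin (N₁ + N₂) → ℝ) 1,
      G k (fun i => ξ (Fin.castAdd N₂ i), fun i => ξ (Fin.natAdd N₁ i)) = 0 := by
  have hint : ∀ k, IntegrableOn (fun ξ : Fin (N₁ + N₂) → ℝ =>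
      G k (fun i => ξ (Fin.castAdd N₂ i), fun i => ξ (Fin.natAdd N₁ i)))
      (Set.Icc (0 : Fin (N₁ + N₂) → ℝ) 1) := fun k =>
    (cpr_contCube (hG k)).integrableOn_compact isCompact_Icc
  rw [← integral_finsetSum _ (fun k _ => hint k)]
  rw [integral_cube_add' N₁ N₂ (fun ξ => ∑ k, G k (fun i => ξ (Fin.castAdd N₂ i),
    fun i => ξ (Fin.natAdd N₁ i))) (integrable_finsetSum _ (fun k _ => hint k))]
  have h1 : ∀ y ∈ Set.Icc (0 : Fin N₂ → ℝ) 1, ∫ x in Set.Icc (0 : Fin N₁ → ℝ) 1,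
      ∑ k, G k (fun i => Fin.append x y (Fin.castAdd N₂ i),
        fun i => Fin.append x y (Fin.natAdd N₁ i)) = 0 := by
    intro y hy
    simp only [Fin.append_left, Fin.append_right]
    rw [integral_finsetSum, h0 y hy]
    intro k _
    have : ContinuousOn (fun x => G k (x, y)) (Set.Icc (0 : Fin N₁ → ℝ) 1) :=
      (hG k).comp (continuous_id.prodMk continuous_const).continuousOn (fun x hx => ⟨hx, hy⟩)
    exact this.integrableOn_compact isCompact_Icc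
  rw [setIntegral_congr_fun measurableSet_Icc h1]
  simp

/-- if all the slices over the second cube sum to zero then the integrals do -/
private theorem cpr_sum₂ {N₁ N₂ : ℕ} {κ : Type} [Fintype κ]
    (G : κ → (Fin N₁ → ℝ) × (Fin N₂ → ℝ) → ℝ)
    (hG : ∀ k, ContinuousOn (G k) (Set.Icc 0 1 ×ˢ Set.Icc 0 1))
    (h0 : ∀ x ∈ Set.Icc (0 : Fin N₁ → ℝ) 1,
      ∑ k, ∫ y in Set.Icc (0 : Fin N₂ → ℝ) 1, G k (x, y) = 0) :
    ∑ k, ∫ ξ in Set.Icc (0 : Fin (N₁ + N₂) → ℝ) 1,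
      G k (fun i => ξ (Fin.castAdd N₂ i), fun i => ξ (Fin.natAdd N₁ i)) = 0 := by
  have hint : ∀ k, IntegrableOn (fun ξ : Fin (N₁ + N₂) → ℝ =>
      G k (fun i => ξ (Fin.castAdd N₂ i), fun i => ξ (Fin.natAdd N₁ i)))
      (Set.Icc (0 : Fin (N₁ + N₂) → ℝ) 1) := fun k =>
    (cpr_contCube (hG k)).integrableOn_compact isCompact_Icc
  rw [← integral_finsetSum _ (fun k _ => hint k)]
  rw [integral_cube_add N₁ N₂ (fun ξ => ∑ k, G k (fun i => ξ (Fin.castAdd N₂ i),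
    fun i => ξ (Fin.natAdd N₁ i))) (integrable_finsetSum _ (fun k _ => hint k))]
  have h1 : ∀ x ∈ Set.Icc (0 : Fin N₁ → ℝ) 1, ∫ y in Set.Icc (0 : Fin N₂ → ℝ) 1,
      ∑ k, G k (fun i => Fin.append x y (Fin.castAdd N₂ i),
        fun i => Fin.append x y (Fin.natAdd N₁ i)) = 0 := by
    intro x hx
    simp only [Fin.append_left, Fin.append_right]
    rw [integral_finsetSum, h0 x hx]
    intro k _
    have : ContinuousOn (fun y => G k (x, y)) (Set.Icc (0 : Fin N₂ → ℝ) 1) :=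
      (hG k).comp (continuous_const.prodMk continuous_id).continuousOn (fun y hy => ⟨hx, hy⟩)
    exact this.integrableOn_compact isCompact_Icc
  rw [setIntegral_congr_fun measurableSet_Icc h1]
  simp

private theorem cpr_smooth {N₁ N₂ : ℕ} (c₁ : (Fin N₁ → ℝ) → E₁) (c₂ : (Fin N₂ → ℝ) → E₂)
    (h₁ : ContDiff ℝ ∞ c₁) (h₂ : ContDiff ℝ ∞ c₂) : ContDiff ℝ ∞ (prodCube c₁ c₂) := by
  unfold prodCube
  exact (h₁.comp (contDiff_pi.2 fun i => contDiff_apply ℝ ℝ _)).prodMk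
    (h₂.comp (contDiff_pi.2 fun i => contDiff_apply ℝ ℝ _))

private theorem cpr_main {M₁ : QuotientManifold E₁ Λ₁} {M₂ : QuotientManifold E₂ Λ₂}
    {N₁ N₂ : ℕ} (C₁ : Cycle M₁ N₁) (C₂ : Cycle M₂ N₂) (m : ℕ) (hm : m + 1 = N₁ + N₂)
    (β : E₁ × E₂ → (E₁ × E₂) [⋀^Fin m]→L[ℝ] ℝ) (hβ : IsForm1 (prodM M₁ M₂) β) :
    ∑ k : C₁.κ × C₂.κ, ∫ ξ in Set.Icc (0 : Fin (N₁ + N₂) → ℝ) 1,
      extDeriv β (prodCube (C₁.c k.1) (C₂.c k.2) ξ)
        (fun i => fderiv ℝ (prodCube (C₁.c k.1) (C₂.c k.2)) ξ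
          (Pi.single (Fin.cast hm i) 1)) = 0 := by
  let G₁ : C₁.κ × C₂.κ → (Fin N₁ → ℝ) × (Fin N₂ → ℝ) → ℝ := fun k p =>
    cprB₁ hm (fderiv ℝ β (C₁.c k.1 p.1, C₂.c k.2 p.2)) (cprT (C₁.c k.1) p.1) (cprT (C₂.c k.2) p.2)
  let G₂ : C₁.κ × C₂.κ → (Fin N₁ → ℝ) × (Fin N₂ → ℝ) → ℝ := fun k p =>
    cprB₂ hm (fderiv ℝ β (C₁.c k.1 p.1, C₂.c k.2 p.2)) (cprT (C₁.c k.1) p.1) (cprT (C₂.c k.2) p.2)
  have hA : ∀ k : C₁.κ × C₂.κ, ContinuousOn (fun p : (Fin N₁ → ℝ) × (Fin N₂ → ℝ) =>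
      fderiv ℝ β (C₁.c k.1 p.1, C₂.c k.2 p.2)) (Set.Icc 0 1 ×ˢ Set.Icc 0 1) := fun k =>
    cpr_contA (C₁.smooth_c k.1) (C₂.smooth_c k.2) (C₁.mem_c k.1) (C₂.mem_c k.2) hβ
  have hG₁ : ∀ k, ContinuousOn (G₁ k) (Set.Icc 0 1 ×ˢ Set.Icc 0 1) := fun k =>
    cpr_cont₁ hm (C₁.smooth_c k.1) (C₂.smooth_c k.2) (hA k)
  have hG₂ : ∀ k, ContinuousOn (G₂ k) (Set.Icc 0 1 ×ˢ Set.Icc 0 1) := fun k =>
    cpr_cont₂ hm (C₁.smooth_c k.1) (C₂.smooth_c k.2) (hA k)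
  have hsplit : ∀ k : C₁.κ × C₂.κ, ∫ ξ in Set.Icc (0 : Fin (N₁ + N₂) → ℝ) 1,
      extDeriv β (prodCube (C₁.c k.1) (C₂.c k.2) ξ)
        (fun i => fderiv ℝ (prodCube (C₁.c k.1) (C₂.c k.2)) ξ
          (Pi.single (Fin.cast hm i) 1)) =
      (∫ ξ in Set.Icc (0 : Fin (N₁ + N₂) → ℝ) 1,
        G₁ k (fun i => ξ (Fin.castAdd N₂ i), fun i => ξ (Fin.natAdd N₁ i))) +
      ∫ ξ in Set.Icc (0 : Fin (N₁ + N₂) → ℝ) 1,
        G₂ k (fun i => ξ (Fin.castAdd N₂ i), fun i => ξ (Fin.natAdd N₁ i)) := by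
    intro k
    rw [← integral_add ((cpr_contCube (hG₁ k)).integrableOn_compact isCompact_Icc)
      ((cpr_contCube (hG₂ k)).integrableOn_compact isCompact_Icc)]
    refine setIntegral_congr_fun measurableSet_Icc fun ξ _ => ?_
    have hW : (fun i => fderiv ℝ (prodCube (C₁.c k.1) (C₂.c k.2)) ξ
          (Pi.single (Fin.cast hm i) 1)) = fun i : Fin (m + 1) =>
        cprV (cprT (C₁.c k.1) (fun i => ξ (Fin.castAdd N₂ i)))
          (cprT (C₂.c k.2) (fun i => ξ (Fin.natAdd N₁ i))) (Fin.cast hm i) := by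
      funext i
      generalize Fin.cast hm i = a
      refine Fin.addCases (fun j => ?_) (fun j => ?_) a
      · rw [fderiv_prodCube_castAdd _ _ (C₁.smooth_c k.1) (C₂.smooth_c k.2), cprV_left]
        rfl
      · rw [fderiv_prodCube_natAdd _ _ (C₁.smooth_c k.1) (C₂.smooth_c k.2), cprV_right]
        rfl
    rw [hW]
    unfold extDeriv
    exact cpr_split hm _ _
  rw [Finset.sum_congr rfl (fun k _ => hsplit k), Finset.sum_add_distrib]
  have s₁ : ∑ k, ∫ ξ in Set.Icc (0 : Fin (N₁ + N₂) → ℝ) 1,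
        G₁ k (fun i => ξ (Fin.castAdd N₂ i), fun i => ξ (Fin.natAdd N₁ i)) = 0 := by
    rw [Fintype.sum_prod_type_right]
    refine Finset.sum_eq_zero fun k₂ _ => ?_
    refine cpr_sum₁ (fun k₁ => G₁ (k₁, k₂)) (fun k₁ => hG₁ (k₁, k₂)) fun y hy => ?_
    exact cpr_closed₁ C₁ hm hβ (C₂.mem_c k₂ y hy) (cprT (C₂.c k₂) y)
  have s₂ : ∑ k, ∫ ξ in Set.Icc (0 : Fin (N₁ + N₂) → ℝ) 1,
        G₂ k (fun i => ξ (Fin.castAdd N₂ i), fun i => ξ (Fin.natAdd N₁ i)) = 0 := by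
    rw [Fintype.sum_prod_type]
    refine Finset.sum_eq_zero fun k₁ _ => ?_
    refine cpr_sum₂ (fun k₂ => G₂ (k₁, k₂)) (fun k₂ => hG₂ (k₁, k₂)) fun x hx => ?_
    exact cpr_closed₂ C₂ hm hβ (C₁.mem_c k₁ x hx) (cprT (C₁.c k₁) x)
  rw [s₁, s₂, add_zero]

/-- the product of two cycles -/
noncomputable def prodCyc {M₁ : QuotientManifold E₁ Λ₁} {M₂ : QuotientManifold E₂ Λ₂}
    {N₁ N₂ : ℕ} (C₁ : Cycle M₁ N₁) (C₂ : Cycle M₂ N₂) :
    Cycle (prodM M₁ M₂) (N₁ + N₂) where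
  κ := C₁.κ × C₂.κ
  c := fun k => prodCube (C₁.c k.1) (C₂.c k.2)
  smooth_c := fun k => cpr_smooth _ _ (C₁.smooth_c k.1) (C₂.smooth_c k.2)
  mem_c := fun k _ hξ => ⟨C₁.mem_c k.1 _ (cpr_mem hξ).1, C₂.mem_c k.2 _ (cpr_mem hξ).2⟩
  closed := fun m hm β hβ => cpr_main C₁ C₂ m hm β hβ

end

end Pool.Agent.HAF2
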