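import Pool.Agent.HaefligerClasses.Defs

/-!
# Metric connections on the normal bundle of a Haefliger structure and the classes of `BSO(q)`

The real cohomology of `BSO(q)` is the algebra `I(SO(q))` of invariant symmetric multilinear forms
on the Lie algebra of skew-symmetric matrices (Pontrjagin classes and, for even `q`, the Euler
class). For an oriented bundle with a metric connection the characteristic class of `F` is
represented by the Chern-Weil form `F(Ω, ..., Ω)`.
-/

namespace Pool.Agent.HAF2

open Filter Topology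
open scoped ContDiff
open Pool.Agent.HaefligerClasses (QuotientManifold IsForm HaefligerStructure curvature
  torusElement)

/-- The linear map `A` of `ℝ^q` is a rotation, i.e. an element of `SO(q)`. -/
def IsRotation {q : ℕ} (A : (Fin q → ℝ) →L[ℝ] (Fin q → ℝ)) : Prop :=
  (∀ v, ∑ k, A v k ^ 2 = ∑ k, v k ^ 2) ∧ 0 < A.det

/-- The linear map `A` of `ℝ^q` is skew-symmetric, i.e. an element of the Lie algebra `so(q)`. -/
def IsSkew {q : ℕ} (A : (Fin q → ℝ) →L[ℝ] (Fin q → ℝ)) : Prop :=
  ∀ v, ∑ k, A v k * v k = 0

section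

variable {E : Type} [NormedAddCommGroup E] [NormedSpace ℝ E] {Λ : Type} [AddGroup Λ]
variable {M : QuotientManifold E Λ} {q : ℕ}

/-- A smooth metric on the oriented normal bundle of a codimension `q` Haefliger structure,
together with a smooth metric connection. The metric is given by oriented orthonormal frames
`frame i x` of the normal bundle over the sets of the cover: they are related by the rotations
`rot i a j x` (so the metric is well defined and invariant). The connection is given by its
skew-symmetric connection forms `form i` in these frames, related by the gauge rule. -/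
structure MetricConnection (H : HaefligerStructure M (Fin q → ℝ)) where
  /-- oriented orthonormal frames of the normal bundle -/
  frame : H.ι → E → (Fin q → ℝ) →L[ℝ] (Fin q → ℝ)
  smooth_frame : ∀ i, ContDiffOn ℝ ∞ (frame i) (H.dom i)
  orient_frame : ∀ i, ∀ x ∈ H.dom i, 0 < (frame i x).det
  /-- the cocycle of the normal bundle in the orthonormal frames -/
  rot : H.ι → Λ → H.ι → E → (Fin q → ℝ) →L[ℝ] (Fin q → ℝ)
  isRotation_rot : ∀ i a j x, x ∈ H.dom j → M.act a x ∈ H.dom i → IsRotation (rot i a j x)
  frame_rot : ∀ i a j x, x ∈ H.dom j → M.act a x ∈ H.dom i →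
    H.normal i a j x ∘L frame j x = frame i (M.act a x) ∘L rot i a j x
  /-- the local connection forms -/
  form : H.ι → E → E →L[ℝ] ((Fin q → ℝ) →L[ℝ] (Fin q → ℝ))
  smooth_form : ∀ i, ContDiffOn ℝ ∞ (form i) (H.dom i)
  isSkew_form : ∀ i, ∀ x ∈ H.dom i, ∀ u, IsSkew (form i x u)
  compat : ∀ i a j x, x ∈ H.dom j → M.act a x ∈ H.dom i → ∀ u : E,
    (form i (M.act a x) (fderiv ℝ (M.act a) x u)) ∘L rot i a j x =
      rot i a j x ∘L form j x u - fderiv ℝ (fun y => rot i a j y) x u

end

/-- An element of `I^d(SO(q))`: a symmetric `d`-linear form on the endomorphisms of `ℝ^q` (only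
its values on skew-symmetric endomorphisms matter), invariant under conjugation by the rotations.
-/
structure RotInvariantForm (q d : ℕ) where
  /-- the multilinear form -/
  toFun : MultilinearMap ℝ (fun _ : Fin d => (Fin q → ℝ) →L[ℝ] (Fin q → ℝ)) ℝ
  symm : ∀ (σ : Equiv.Perm (Fin d)) (X : Fin d → (Fin q → ℝ) →L[ℝ] (Fin q → ℝ)),
    toFun (fun s => X (σ s)) = toFun X
  conj : ∀ g : (Fin q → ℝ) ≃L[ℝ] (Fin q → ℝ),
    IsRotation (g : (Fin q → ℝ) →L[ℝ] (Fin q → ℝ)) →
    ∀ X : Fin d → (Fin q → ℝ) →L[ℝ] (Fin q → ℝ),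
    toFun (fun s => (g : (Fin q → ℝ) →L[ℝ] (Fin q → ℝ)) ∘L X s ∘L
      (g.symm : (Fin q → ℝ) →L[ℝ] (Fin q → ℝ))) = toFun X

section

variable {E : Type} [NormedAddCommGroup E] [NormedSpace ℝ E] {Λ : Type} [AddGroup Λ]
variable {M : QuotientManifold E Λ} {q : ℕ}

/-- The value of the Chern-Weil `2d`-form `F(R, ..., R)` of an endomorphism valued `2`-form `R` on
the vectors `u`. -/
noncomputable def chernWeil {d : ℕ} (F : RotInvariantForm q d)
    (R : E → E → (Fin q → ℝ) →L[ℝ] (Fin q → ℝ)) (u : Fin (2 * d) → E) : ℝ :=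
  ∑ σ : Equiv.Perm (Fin (2 * d)), (Equiv.Perm.sign σ : ℤ) •
    F.toFun (fun s : Fin d => R (u (σ ⟨2 * s.1, by omega⟩)) (u (σ ⟨2 * s.1 + 1, by omega⟩)))

/-- The Chern-Weil form `F(Ω)` of the metric connection is exact on the manifold `M`. -/
def ChernWeilExact {H : HaefligerStructure M (Fin q → ℝ)} (c : MetricConnection H) {e : ℕ}
    (F : RotInvariantForm q (e + 1)) : Prop :=
  ∃ β : E → E [⋀^Fin (2 * e + 1)]→L[ℝ] ℝ, IsForm M β ∧
    ∀ i, ∀ x ∈ H.dom i, ∀ u : Fin (2 * e + 1 + 1) → E,
      extDeriv β x u = chernWeil F (curvature (c.form i) x) u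

end

/-- The characteristic class of `F` vanishes on (the normal bundles of) all smooth codimension `q`
Haefliger structures with oriented normal bundle. -/
def VanishesOnHaefliger {q e : ℕ} (F : RotInvariantForm q (e + 1)) : Prop :=
  ∀ (E : Type) (_ : NormedAddCommGroup E) (_ : NormedSpace ℝ E) (_ : FiniteDimensional ℝ E)
    (Λ : Type) (_ : AddGroup Λ) (M : QuotientManifold E Λ)
    (H : HaefligerStructure M (Fin q → ℝ)) (c : MetricConnection H), ChernWeilExact c F

/-- The statement to be proved. First part: if `F` does not vanish on the skew-symmetric matrices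
and `2 (e + 1) ≤ 8 q / 5`, then the class of `F`, which has degree `2 (e + 1)`, is nonzero on some
Haefliger structure. Second part: the same holds if `F` has a nonzero coefficient, on the standard
maximal torus, at the monomial in which the `j`-th variable occurs once for every `s` with
`r s = j`, provided that `e + 1` plus the number of variables with exponent at least three is at
most `q`. Third part: for `q = 5` and `q = 7` all degrees up to `2 q` are allowed. -/
def MainStatement : Prop :=
  (∀ (q e : ℕ) (F : RotInvariantForm q (e + 1)) (X : (Fin q → ℝ) →L[ℝ] (Fin q → ℝ)),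
    IsSkew X → F.toFun (fun _ => X) ≠ 0 → 5 * (e + 1) ≤ 4 * q → ¬ VanishesOnHaefliger F) ∧
  (∀ (q e : ℕ) (F : RotInvariantForm q (e + 1)) (r : Fin (e + 1) → Fin (q / 2)),
    F.toFun (fun s => torusElement q (Pi.single (r s) 1)) ≠ 0 →
    (e + 1) + (Finset.univ.filter fun j =>
      3 ≤ (Finset.univ.filter fun s => r s = j).card).card ≤ q → ¬ VanishesOnHaefliger F) ∧
  (∀ (q e : ℕ) (F : RotInvariantForm q (e + 1)) (X : (Fin q → ℝ) →L[ℝ] (Fin q → ℝ)),
    q = 5 ∨ q = 7 → IsSkew X → F.toFun (fun _ => X) ≠ 0 → e + 1 ≤ q → ¬ VanishesOnHaefliger F)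

end Pool.Agent.HAF2
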