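import Pool.Agent.HAF2.Model

/-!
# Module FDF: transport of a block to `ℝ^q`

The Haefliger structure is transported by the linear isomorphism `Φ ∘ o⁻¹ : V → ℝ^q` (compare
`Pool/Agent/HaefligerClasses/Transport.lean`). The frames are `Φ ∘ o⁻¹ ∘ frame ∘ Φ⁻¹`, the
rotations are `Φ ∘ rotT ρ ∘ Φ⁻¹` and the connection forms are `∑ r θ_r • Φ ∘ genT r ∘ Φ⁻¹`.
-/

namespace Pool.Agent.HAF2

open Filter Topology MeasureTheory
open scoped ContDiff
open Pool.Agent.HaefligerClasses (QuotientManifold IsForm HaefligerStructure curvature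
  torusElement)

/-- the infinitesimal rotation of the plane `r` -/
noncomputable def genT {R K : Type} [Fintype R] [Fintype K] [DecidableEq R] (r : R) :
    TV R K →L[ℝ] TV R K :=
  ContinuousLinearMap.prodMap
    (ContinuousLinearMap.pi fun r' =>
      mulC (if r' = r then Complex.I else 0) ∘L ContinuousLinearMap.proj r') 0

@[simp] theorem genT_apply {R K : Type} [Fintype R] [Fintype K] [DecidableEq R] (r : R)
    (v : TV R K) :
    genT r v = (fun r' => (if r' = r then Complex.I else 0) * v.1 r', 0) := rfl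

section

variable {E : Type} [NormedAddCommGroup E] [NormedSpace ℝ E] {Λ : Type} [AddGroup Λ]
variable {M : QuotientManifold E Λ} {V W : Type} [NormedAddCommGroup V] [NormedSpace ℝ V]
  [NormedAddCommGroup W] [NormedSpace ℝ W]

/-- the conjugation by `L` -/
private noncomputable def conjL (L : V ≃L[ℝ] W) :
    (V →L[ℝ] V) ≃L[ℝ] (W →L[ℝ] W) := L.arrowCongr L

private theorem conjL_apply (L : V ≃L[ℝ] W) (X : V →L[ℝ] V) :
    conjL L X = (L : V →L[ℝ] W) ∘L X ∘L (L.symm : W →L[ℝ] V) := rfl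

private theorem fderiv_conj (L : V ≃L[ℝ] W) (f : V → V) (v : V) :
    fderiv ℝ (fun w => L (f (L.symm w))) (L v) = conjL L (fderiv ℝ f v) := by
  have h1 : (fun w => L (f (L.symm w))) = L ∘ (f ∘ L.symm) := rfl
  rw [h1, L.comp_fderiv, L.symm.comp_right_fderiv, L.symm_apply_apply]
  rfl

private theorem det_conjL (L : V ≃L[ℝ] W) (X : V →L[ℝ] V) :
    (conjL L X).det = X.det := by
  have := LinearMap.det_conj (X : V →ₗ[ℝ] V) L.toLinearEquiv
  rw [ContinuousLinearMap.det, ContinuousLinearMap.det, ← this]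
  rfl

/-- transport of a Haefliger structure -/
noncomputable def mapH (L : V ≃L[ℝ] W) (H : HaefligerStructure M V) : HaefligerStructure M W where
  ι := H.ι
  dom := H.dom
  isOpen_dom := H.isOpen_dom
  dom_subset := H.dom_subset
  cover := H.cover
  f := fun i x => L (H.f i x)
  smooth_f := fun i => L.contDiff.comp_contDiffOn (H.smooth_f i)
  γ := fun i a j x w => L (H.γ i a j x (L.symm w))
  smooth_γ := by
    intro i a j x hx hax
    have h1 := H.smooth_γ i a j x hx hax
    have h2 : ContDiffAt ℝ ∞ (fun w => H.γ i a j x (L.symm w)) (L (H.f j x)) := by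
      refine ContDiffAt.comp (L (H.f j x)) ?_ L.symm.contDiff.contDiffAt
      rw [L.symm_apply_apply]
      exact h1
    exact L.contDiff.contDiffAt.comp _ h2
  orient_γ := by
    intro i a j x hx hax
    rw [fderiv_conj, det_conjL]
    exact H.orient_γ i a j x hx hax
  map_γ := by
    intro i a j x hx hax
    filter_upwards [H.map_γ i a j x hx hax] with y hy
    rw [L.symm_apply_apply, hy]
  locConst_γ := by
    intro i a j x hx hax
    filter_upwards [H.locConst_γ i a j x hx hax] with y hy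
    have ht : Tendsto L.symm (𝓝 (L (H.f j y))) (𝓝 (H.f j y)) := by
      have := L.symm.continuous.tendsto (L (H.f j y))
      rwa [L.symm_apply_apply] at this
    filter_upwards [ht.eventually hy] with w hw
    rw [hw]
  comp_γ := by
    intro i a j b k x hx hbx habx
    have ht : Tendsto L.symm (𝓝 (L (H.f k x))) (𝓝 (H.f k x)) := by
      have := L.symm.continuous.tendsto (L (H.f k x))
      rwa [L.symm_apply_apply] at this
    filter_upwards [ht.eventually (H.comp_γ i a j b k x hx hbx habx)] with w hw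
    rw [L.symm_apply_apply, hw]

theorem normal_mapH (L : V ≃L[ℝ] W) (H : HaefligerStructure M V) (i : H.ι) (a : Λ) (j : H.ι)
    (x : E) : (mapH L H).normal i a j x =
      (L : V →L[ℝ] W) ∘L H.normal i a j x ∘L (L.symm : W →L[ℝ] V) :=
  fderiv_conj L (H.γ i a j x) (H.f j x)

end

section

variable {R K : Type} [Fintype R] [Fintype K] [DecidableEq R] {n b q : ℕ} {α : R → ℕ}

/-- conjugation with `Φ` -/
noncomputable def conjP (Φ : TV R K ≃L[ℝ] (Fin q → ℝ)) (X : TV R K →L[ℝ] TV R K) :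
    (Fin q → ℝ) →L[ℝ] (Fin q → ℝ) :=
  (Φ : TV R K →L[ℝ] (Fin q → ℝ)) ∘L X ∘L (Φ.symm : (Fin q → ℝ) →L[ℝ] TV R K)

/-- `Φ` is an isometry -/
def IsIsom (Φ : TV R K ≃L[ℝ] (Fin q → ℝ)) : Prop :=
  ∀ v, ∑ k, Φ v k ^ 2 = ∑ r, Complex.normSq (v.1 r) + ∑ k, v.2 k ^ 2

omit [DecidableEq R] in
private theorem conjP_eq (Φ : TV R K ≃L[ℝ] (Fin q → ℝ)) (X : TV R K →L[ℝ] TV R K) :
    conjP Φ X = conjL Φ X := rfl

omit [Fintype R] [Fintype K] [DecidableEq R] in
private theorem conjP_apply (Φ : TV R K ≃L[ℝ] (Fin q → ℝ)) (X : TV R K →L[ℝ] TV R K)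
    (v : Fin q → ℝ) : conjP Φ X v = Φ (X (Φ.symm v)) := rfl

private theorem rotT_mul (ρ σ : R → ℂ) :
    (rotT ρ : TV R K →L[ℝ] TV R K) ∘L rotT σ = rotT (fun r => ρ r * σ r) := by
  refine ContinuousLinearMap.ext fun v => ?_
  simp [mul_assoc]

private theorem det_rotT_pos (ρ : R → ℂ) (hρ : ∀ r, ρ r ≠ 0) :
    0 < (rotT ρ : TV R K →L[ℝ] TV R K).det := by
  have hs : ∀ r, ∃ z : ℂ, ρ r = z * z := fun r => IsAlgClosed.exists_eq_mul_self (ρ r)
  choose σ hσ using hs
  have hσ0 : ∀ r, σ r ≠ 0 := by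
    intro r h
    apply hρ r
    rw [hσ r, h, mul_zero]
  have h1 : (rotT ρ : TV R K →L[ℝ] TV R K) = rotT σ ∘L rotT σ := by
    rw [rotT_mul]
    congr 1
    exact funext hσ
  have h2 : (rotT (fun r => (σ r)⁻¹) : TV R K →L[ℝ] TV R K) ∘L rotT σ =
      ContinuousLinearMap.id ℝ _ := by
    rw [rotT_mul]
    refine ContinuousLinearMap.ext fun v => ?_
    simp [hσ0]
  have hdet : ∀ A B : TV R K →L[ℝ] TV R K, (A ∘L B).det = A.det * B.det := by
    intro A B
    exact LinearMap.det_comp (A : TV R K →ₗ[ℝ] TV R K) (B : TV R K →ₗ[ℝ] TV R K)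
  have h3 : (rotT σ : TV R K →L[ℝ] TV R K).det ≠ 0 := by
    intro h
    have h4 := congrArg ContinuousLinearMap.det h2
    rw [hdet, h, mul_zero] at h4
    simp [ContinuousLinearMap.det] at h4
  rw [h1, hdet]
  exact mul_self_pos.2 h3

theorem isRotation_conjP (Φ : TV R K ≃L[ℝ] (Fin q → ℝ)) (hΦ : IsIsom Φ) (ρ : R → ℂ)
    (hρ : ∀ r, ‖ρ r‖ = 1) : IsRotation (conjP Φ (rotT ρ)) := by
  refine ⟨fun v => ?_, ?_⟩
  · obtain ⟨w, rfl⟩ := Φ.surjective v
    have h1 : conjP Φ (rotT ρ) (Φ w) = Φ (rotT ρ w) := by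
      rw [conjP_apply, Φ.symm_apply_apply]
    rw [h1, hΦ, hΦ]
    simp only [rotT_apply, Complex.normSq_eq_norm_sq, norm_mul, hρ, one_mul]
  · rw [conjP_eq, det_conjL]
    refine det_rotT_pos ρ fun r h => ?_
    have := hρ r
    rw [h, norm_zero] at this
    exact zero_ne_one this

theorem isSkew_conjP (Φ : TV R K ≃L[ℝ] (Fin q → ℝ)) (hΦ : IsIsom Φ) (r : R) (c : ℝ) :
    IsSkew (c • conjP Φ (genT r)) := by
  intro v
  obtain ⟨w, rfl⟩ := Φ.surjective v
  have h1 : ∀ k, (c • conjP Φ (genT r)) (Φ w) k * Φ w k =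
      c * ((Φ (genT r w + w) k ^ 2 - Φ (genT r w - w) k ^ 2) / 4) := by
    intro k
    rw [smul_apply, conjP_apply, Φ.symm_apply_apply, map_add, map_sub]
    simp only [Pi.smul_apply, Pi.add_apply, Pi.sub_apply, smul_eq_mul]
    ring
  rw [Finset.sum_congr rfl fun k _ => h1 k, ← Finset.mul_sum, ← Finset.sum_div,
    Finset.sum_sub_distrib, hΦ, hΦ]
  have h2 : ∀ r', Complex.normSq ((genT r w + w).1 r') =
      Complex.normSq ((genT r w - w).1 r') := by
    intro r'
    simp only [genT_apply, Prod.fst_add, Prod.fst_sub, Pi.add_apply, Pi.sub_apply]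
    by_cases hr : r' = r
    · rw [if_pos hr]
      simp only [Complex.normSq_apply, Complex.add_re, Complex.add_im, Complex.sub_re,
        Complex.sub_im, Complex.mul_re, Complex.mul_im, Complex.I_re, Complex.I_im]
      ring
    · rw [if_neg hr, zero_mul, zero_add, zero_sub, Complex.normSq_neg]
  have h3 : ∀ k, ((genT r w + w).2 k) ^ 2 = ((genT r w - w).2 k) ^ 2 := by
    intro k
    simp only [genT_apply, Prod.snd_add, Prod.snd_sub, zero_add, zero_sub, Pi.neg_apply, neg_sq]
  rw [Finset.sum_congr rfl fun r' _ => h2 r', Finset.sum_congr rfl fun k _ => h3 k, sub_self,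
    zero_div, mul_zero]

/-- multiplication of the planes by complex numbers, as a linear map -/
private noncomputable def linT : (R → ℂ) →L[ℝ] (TV R K →L[ℝ] TV R K) :=
  LinearMap.toContinuousLinearMap
    { toFun := fun c => ContinuousLinearMap.prodMap
        (ContinuousLinearMap.pi fun r => mulC (c r) ∘L ContinuousLinearMap.proj r)
        (0 : (K → ℝ) →L[ℝ] (K → ℝ))
      map_add' := by
        intro c d
        refine ContinuousLinearMap.ext fun v => ?_
        refine Prod.ext (funext fun r => ?_) (funext fun k => ?_)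
        · exact add_mul _ _ _
        · simp
      map_smul' := by
        intro t c
        refine ContinuousLinearMap.ext fun v => ?_
        refine Prod.ext (funext fun r => ?_) (funext fun k => ?_)
        · exact smul_mul_assoc t (c r) (v.1 r)
        · simp }

private theorem linT_apply (c : R → ℂ) (v : TV R K) :
    linT c v = (fun r => c r * v.1 r, 0) := rfl

private theorem rotT_eq (ρ : R → ℂ) : (rotT ρ : TV R K →L[ℝ] TV R K) =
    linT ρ + ContinuousLinearMap.prodMap 0 (ContinuousLinearMap.id ℝ (K → ℝ)) := by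
  refine ContinuousLinearMap.ext fun v => ?_
  rw [add_apply, linT_apply, rotT_apply]
  refine Prod.ext (funext fun r => ?_) (funext fun k => ?_)
  · simp
  · simp

private theorem sum_smul_genT (t : R → ℝ) :
    ∑ r, t r • (genT r : TV R K →L[ℝ] TV R K) = linT (fun r => Complex.I * (t r : ℂ)) := by
  refine ContinuousLinearMap.ext fun v => ?_
  rw [sum_apply, linT_apply]
  refine Prod.ext ?_ ?_
  · rw [Prod.fst_sum]
    funext r
    rw [Finset.sum_apply, Finset.sum_eq_single r]
    · simp only [smul_apply, genT_apply, Prod.smul_fst, Pi.smul_apply,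
        if_true, Complex.real_smul]
      ring
    · intro r' _ hr'
      simp only [smul_apply, genT_apply, Prod.smul_fst, Pi.smul_apply,
        if_neg (Ne.symm hr'), zero_mul, smul_zero]
    · intro h
      exact absurd (Finset.mem_univ r) h
  · rw [Prod.snd_sum]
    refine Finset.sum_eq_zero fun r _ => ?_
    simp only [smul_apply, genT_apply, Prod.smul_snd, smul_zero]

private theorem conjP_comp (Φ : TV R K ≃L[ℝ] (Fin q → ℝ)) (X Y : TV R K →L[ℝ] TV R K) :
    conjP Φ (X ∘L Y) = conjP Φ X ∘L conjP Φ Y := by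
  refine ContinuousLinearMap.ext fun v => ?_
  simp only [ContinuousLinearMap.comp_apply, conjP_apply, Φ.symm_apply_apply]

private theorem sum_smul_conjP (Φ : TV R K ≃L[ℝ] (Fin q → ℝ)) (t : R → ℝ) :
    ∑ r, t r • conjP Φ (genT r) = conjP Φ (linT (fun r => Complex.I * (t r : ℂ))) := by
  rw [← sum_smul_genT]
  simp only [conjP_eq, map_sum, map_smul]

private theorem form_apply (D : Block R K n α b) (Φ : TV R K ≃L[ℝ] (Fin q → ℝ)) (i : D.ι)
    (x u : D.E) : (∑ r, (D.θ i r x).smulRight (conjP Φ (genT r))) u =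
      ∑ r, D.θ i r x u • conjP Φ (genT r) := by
  rw [sum_apply]
  rfl

private theorem hasFDerivAt_rot {E : Type} [NormedAddCommGroup E] [NormedSpace ℝ E]
    (Φ : TV R K ≃L[ℝ] (Fin q → ℝ)) (ρ : E → R → ℂ) (x : E)
    (h : ∀ r, DifferentiableAt ℝ (fun y => ρ y r) x) (u : E) :
    fderiv ℝ (fun y => conjP Φ (rotT (ρ y))) x u =
      conjP Φ (linT (fun r => fderiv ℝ (fun y => ρ y r) x u)) := by
  have h1 : DifferentiableAt ℝ ρ x := differentiableAt_pi.2 h
  have h2 : HasFDerivAt (fun y => conjP Φ (rotT (ρ y)))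
      ((conjL Φ : (TV R K →L[ℝ] TV R K) →L[ℝ] ((Fin q → ℝ) →L[ℝ] (Fin q → ℝ))) ∘L
        (linT ∘L fderiv ℝ ρ x)) x := by
    have h3 : (fun y => conjP Φ (rotT (ρ y))) = fun y => (conjL Φ :
        (TV R K →L[ℝ] TV R K) →L[ℝ] ((Fin q → ℝ) →L[ℝ] (Fin q → ℝ))) (linT (ρ y) +
          ContinuousLinearMap.prodMap 0 (ContinuousLinearMap.id ℝ (K → ℝ))) := by
      funext y
      rw [conjP_eq, rotT_eq]
      rfl
    rw [h3]
    exact (conjL Φ : (TV R K →L[ℝ] TV R K) →L[ℝ]
      ((Fin q → ℝ) →L[ℝ] (Fin q → ℝ))).hasFDerivAt.comp x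
      ((linT.hasFDerivAt.comp x h1.hasFDerivAt).add_const _)
  rw [h2.fderiv, conjP_eq]
  change conjL Φ (linT (fderiv ℝ ρ x u)) = _
  congr 2
  funext r
  have h4 := (hasFDerivAt_pi'.1 h1.hasFDerivAt r).fderiv
  rw [h4]
  rfl

private theorem linT_comm (c d : R → ℂ) :
    (linT c : TV R K →L[ℝ] TV R K) ∘L linT d = linT d ∘L linT c := by
  refine ContinuousLinearMap.ext fun v => ?_
  simp only [ContinuousLinearMap.comp_apply, linT_apply]
  refine Prod.ext (funext fun r => ?_) rfl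
  exact mul_left_comm _ _ _

private theorem contDiffOn_smulRight {E Z : Type} [NormedAddCommGroup E] [NormedSpace ℝ E]
    [NormedAddCommGroup Z] [NormedSpace ℝ Z] (c : Z) (θ : E → E →L[ℝ] ℝ) (U : Set E)
    (h : ContDiffOn ℝ ∞ θ U) : ContDiffOn ℝ ∞ (fun x => (θ x).smulRight c) U :=
  ((ContinuousLinearMap.smulRightL ℝ E Z).flip c).contDiff.comp_contDiffOn h

private theorem hasFDerivAt_smulRight {E Z : Type} [NormedAddCommGroup E] [NormedSpace ℝ E]
    [NormedAddCommGroup Z] [NormedSpace ℝ Z] (c : Z) (θ : E → E →L[ℝ] ℝ) (x : E)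
    (h : DifferentiableAt ℝ θ x) : ∃ T : E →L[ℝ] E →L[ℝ] Z,
      HasFDerivAt (fun x => (θ x).smulRight c) T x ∧
      ∀ u w, T u w = fderiv ℝ θ x u w • c :=
  ⟨((ContinuousLinearMap.smulRightL ℝ E Z).flip c) ∘L fderiv ℝ θ x,
    ((ContinuousLinearMap.smulRightL ℝ E Z).flip c).hasFDerivAt.comp x h.hasFDerivAt,
    fun _ _ => rfl⟩

private theorem smooth_form' (D : Block R K n α b) (Φ : TV R K ≃L[ℝ] (Fin q → ℝ)) (i : D.ι) :
    ContDiffOn ℝ ∞ (fun x => ∑ r, (D.θ i r x).smulRight (conjP Φ (genT r))) (D.dom i) := by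
  refine ContDiffOn.sum fun r _ => ?_
  exact contDiffOn_smulRight _ _ _ (D.smooth_θ i r)

/-- the metric connection of a block -/
noncomputable def metricConn (D : Block R K n α b) (Φ : TV R K ≃L[ℝ] (Fin q → ℝ))
    (hΦ : IsIsom Φ) : MetricConnection (mapH (D.o.symm.trans Φ) D.H) where
  frame := fun i x => (Φ : TV R K →L[ℝ] (Fin q → ℝ)) ∘L (D.o.symm : D.V →L[ℝ] TV R K) ∘L
    D.frame i x ∘L (Φ.symm : (Fin q → ℝ) →L[ℝ] TV R K)
  smooth_frame := fun i => contDiffOn_const.clm_comp (contDiffOn_const.clm_comp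
    ((D.smooth_frame i).clm_comp contDiffOn_const))
  orient_frame := by
    intro i x hx
    exact lt_of_lt_of_eq (D.orient_frame i x hx) (det_conjL Φ _).symm
  rot := fun i a j x => conjP Φ (rotT (D.ρ (D.b0 i) a (D.b0 j) x))
  isRotation_rot := fun i a j x hx hax => isRotation_conjP Φ hΦ _
    (D.norm_ρ _ _ _ _ (D.dom_b0 _ hx) (D.dom_b0 _ hax))
  frame_rot := by
    intro i a j x hx hax
    have h := D.frame_rot i a j x hx hax
    refine (congrArg (fun X => X ∘L _) (normal_mapH (D.o.symm.trans Φ) D.H i a j x)).trans ?_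
    refine ContinuousLinearMap.ext fun v => ?_
    have h2 := congrArg (fun X : TV R K →L[ℝ] D.V => Φ (D.o.symm (X (Φ.symm v)))) h
    change Φ (D.o.symm (D.H.normal i a j x (D.frame j x (Φ.symm v)))) =
      Φ (D.o.symm (D.frame i (D.M.act a x) (rotT (D.ρ (D.b0 i) a (D.b0 j) x) (Φ.symm v)))) at h2
    change Φ (D.o.symm (D.H.normal i a j x (D.o (Φ.symm (Φ (D.o.symm (D.frame j x
      (Φ.symm v)))))))) = Φ (D.o.symm (D.frame i (D.M.act a x) (Φ.symm (Φ
        (rotT (D.ρ (D.b0 i) a (D.b0 j) x) (Φ.symm v))))))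
    rw [Φ.symm_apply_apply, Φ.symm_apply_apply, D.o.apply_symm_apply, h2]
  form := fun i x => ∑ r, (D.θ (D.b0 i) r x).smulRight (conjP Φ (genT r))
  smooth_form := fun i => (smooth_form' D Φ (D.b0 i)).mono (D.dom_b0 i)
  isSkew_form := by
    intro i x hx u v
    rw [form_apply]
    simp only [sum_apply, Finset.sum_apply, Finset.sum_mul]
    rw [Finset.sum_comm]
    exact Finset.sum_eq_zero fun r _ => isSkew_conjP Φ hΦ r _ v
  compat := by
    intro i a j x hx hax u
    rw [form_apply, form_apply, sum_smul_conjP, sum_smul_conjP,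
      hasFDerivAt_rot Φ _ x (D.diff_ρ _ _ _ _ (D.dom_b0 _ hx) (D.dom_b0 _ hax)),
      ← conjP_comp, ← conjP_comp]
    simp only [conjP_eq]
    rw [← map_sub]
    congr 1
    refine ContinuousLinearMap.ext fun v => ?_
    simp only [ContinuousLinearMap.comp_apply, sub_apply, linT_apply,
      rotT_apply]
    refine Prod.ext (funext fun r => ?_) ?_
    · simp only [Prod.fst_sub, Pi.sub_apply]
      rw [D.compat _ _ _ _ (D.dom_b0 _ hx) (D.dom_b0 _ hax)]
      push_cast
      ring
    · simp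

theorem curvature_metricConn (D : Block R K n α b) (Φ : TV R K ≃L[ℝ] (Fin q → ℝ))
    (hΦ : IsIsom Φ) (i : D.H.ι) (x : D.E) (hx : x ∈ D.H.dom i) (u w : D.E) :
    curvature ((metricConn D Φ hΦ).form i) x u w =
      ∑ r, D.curv r x u w • conjP Φ (genT r) := by
  have hx' := D.dom_b0 i hx
  have hd : ∀ r, DifferentiableAt ℝ (D.θ (D.b0 i) r) x := fun r =>
    ((D.smooth_θ (D.b0 i) r).contDiffAt ((D.isOpen_dom _).mem_nhds hx')).differentiableAt
      (by simp)
  choose T hT1 hT2 using fun r => hasFDerivAt_smulRight (conjP Φ (genT r))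
    (D.θ (D.b0 i) r) x (hd r)
  have h1 : HasFDerivAt ((metricConn D Φ hΦ).form i) (∑ r, T r) x :=
    HasFDerivAt.fun_sum fun r _ => hT1 r
  have h2 : ∀ u w : D.E, fderiv ℝ ((metricConn D Φ hΦ).form i) x u w =
      ∑ r, fderiv ℝ (D.θ (D.b0 i) r) x u w • conjP Φ (genT r) := by
    intro u w
    rw [h1.fderiv, sum_apply, sum_apply]
    exact Finset.sum_congr rfl fun r _ => hT2 r u w
  have h3 : ∀ u : D.E, (metricConn D Φ hΦ).form i x u =
      conjP Φ (linT (fun r => Complex.I * ((D.θ (D.b0 i) r x u : ℝ) : ℂ))) := by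
    intro u
    rw [← sum_smul_conjP, ← form_apply]
    rfl
  unfold curvature
  rw [h2, h2, h3, h3, ← conjP_comp, ← conjP_comp, linT_comm, sub_self, add_zero,
    ← Finset.sum_sub_distrib]
  refine Finset.sum_congr rfl fun r _ => ?_
  rw [← sub_smul, D.curv_eq _ r x hx']
  rfl

end

end Pool.Agent.HAF2
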