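import Pool.Agent.HAF2.Main

/-!
# The range theorem
-/

namespace Pool.Agent.HAF2

open Pool.Agent.HaefligerClasses (QuotientManifold IsForm HaefligerStructure curvature
  torusElement)

/-- a system of exponents of total degree `d` with `d + ⌊d / 4⌋ ≤ q` satisfies the criterion -/
theorem criterion_of_floor {q d : ℕ} (r : Fin d → Fin (q / 2))
    (hpar : (∀ j, Even (Finset.univ.filter fun s => r s = j).card) ∨
      (q = 2 * (q / 2) ∧ ∀ j, Odd (Finset.univ.filter fun s => r s = j).card))
    (hd : d + d / 4 ≤ q) :
    d + (Finset.univ.filter fun j =>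
      3 ≤ (Finset.univ.filter fun s => r s = j).card).card ≤ q := by
  classical
  have hsum : ∑ j : Fin (q / 2), (Finset.univ.filter fun s => r s = j).card = d := by
    have h := Finset.card_eq_sum_card_fiberwise (s := (Finset.univ : Finset (Fin d)))
      (t := (Finset.univ : Finset (Fin (q / 2)))) (f := r) (fun _ _ => Finset.mem_univ _)
    rw [Finset.card_univ, Fintype.card_fin] at h
    exact h.symm
  set S := Finset.univ.filter fun j : Fin (q / 2) =>
    3 ≤ (Finset.univ.filter fun s => r s = j).card with hS
  rcases hpar with he | ⟨hq, ho⟩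
  · have h1 : 4 * S.card ≤ d := by
      rw [← hsum]
      calc 4 * S.card = ∑ _j ∈ S, 4 := by rw [Finset.sum_const, smul_eq_mul, mul_comm]
        _ ≤ ∑ j ∈ S, (Finset.univ.filter fun s => r s = j).card := by
            refine Finset.sum_le_sum fun j hj => ?_
            have h2 := (Finset.mem_filter.mp hj).2
            obtain ⟨k, hk⟩ := he j
            omega
        _ ≤ _ := Finset.sum_le_sum_of_subset (Finset.subset_univ _)
    omega
  · have h1 : q / 2 + 2 * S.card ≤ d := by
      calc q / 2 + 2 * S.card
          = ∑ j : Fin (q / 2), (1 + if j ∈ S then 2 else 0) := by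
            rw [Finset.sum_add_distrib, Finset.sum_const, Finset.card_univ, Fintype.card_fin,
              Finset.sum_ite_mem, Finset.univ_inter, Finset.sum_const]
            simp only [smul_eq_mul]
            omega
        _ ≤ ∑ j : Fin (q / 2), (Finset.univ.filter fun s => r s = j).card := by
            refine Finset.sum_le_sum fun j _ => ?_
            obtain ⟨k, hk⟩ := ho j
            split_ifs with hj
            · have h2 := (Finset.mem_filter.mp hj).2
              omega
            · omega
        _ = d := hsum
    omega

/-- all classes of degree `2 d` with `d + ⌊d / 4⌋ ≤ q` are detected -/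
theorem range_all (q e : ℕ) (F : RotInvariantForm q (e + 1))
    (X : (Fin q → ℝ) →L[ℝ] (Fin q → ℝ)) (hX : IsSkew X) (hF : F.toFun (fun _ => X) ≠ 0)
    (hq : (e + 1) + (e + 1) / 4 ≤ q) : ¬ VanishesOnHaefliger F := by
  obtain ⟨g, x, hg, hgx⟩ := skew_normal_form X hX
  have h1 : F.toFun (fun _ => torusElement q x) ≠ 0 := by
    have h2 := F.conj g hg (fun _ => X)
    rw [hgx] at h2
    rw [h2]
    exact hF
  obtain ⟨r, hr⟩ := exists_coefficient F x h1
  exact main.2.1 q e F r hr (criterion_of_floor r (parity_exponents F r hr) hq)

end Pool.Agent.HAF2
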