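import Pool.Agent.HAF2.ChOpen

/-!
# Module HHL: the square of the tautological line bundle is flat along the leaves (block HH)

Here `two = true`. The trivialisation is the phase of `dMz (hz X) (hq p)` on `H` and `V`, and this
phase times `conj (hP p) / ‖hP p‖` on `M`. With `g = gel l`, `dMz_hact` gives
`φ_H (l p) * J^2 = phase (1 / (conj b P + conj a)^2) * φ_H p`, `P = hP p`, and
`Θ P = phase (1 / (conj b P + conj a)^2)`. On `V` the local map is `conj P`. For `M → M` at `t = 0`: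
`Θ` is, as a function of `w = fM`, `phase (1 / (conj b P + conj a)^2) * phase (conj (mob g P)) *
phase P`, with `P = (w / ‖w‖) * s (log ‖w‖)`, where
`s r = √((1 - d) / (1 + d))`, `d = dl r` (`‖hP p‖ = s (rr true p)`, from
`(1 + ‖P‖²) / (1 - ‖P‖²) = YT / (dl √m) = 1 / dl (rr)`), a smooth function near `r = 0`. For the
other transitions compose with the germs of `trans_HM`, `trans_VM`.
-/

namespace Pool.Agent.HAF2

open Filter Topology MeasureTheory
open scoped ContDiff ComplexConjugate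

/-- phase of a complex number -/
noncomputable def phase (c : ℂ) : ℂ := c / (‖c‖ : ℂ)

/-- the leafwise flat trivialisations -/
noncomputable def phiHH (c : Ch) (p : EH) : ℂ :=
  if c = Ch.M then phase (dMz (hz p.1) (hq p)) * phase (conj (hP p))
  else phase (dMz (hz p.1) (hq p))

theorem hhl_phase_mul (a b : ℂ) : phase (a * b) = phase a * phase b := by
  simp only [phase, norm_mul, Complex.ofReal_mul]
  rw [mul_div_mul_comm]

theorem hhl_norm_phase (a : ℂ) (h : a ≠ 0) : ‖phase a‖ = 1 := by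
  rw [phase, norm_div, Complex.norm_real, norm_norm, div_self (norm_ne_zero_iff.mpr h)]

theorem hhl_phase_unit (a : ℂ) (h : ‖a‖ = 1) : phase a = a := by
  rw [phase, h]
  simp

theorem hhl_phase_mul_conj (a : ℂ) (h : a ≠ 0) : phase a * phase (conj a) = 1 := by
  rw [← hhl_phase_mul, Complex.mul_conj, Complex.normSq_eq_norm_sq, phase, Complex.norm_real,
    Real.norm_eq_abs, abs_of_nonneg (sq_nonneg _)]
  apply div_self
  have : ‖a‖ ≠ 0 := norm_ne_zero_iff.mpr h
  exact_mod_cast pow_ne_zero 2 this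

theorem hhl_contDiffAt_phase {c : ℂ} (hc : c ≠ 0) : ContDiffAt ℝ ∞ phase c := by
  have h : phase = fun z : ℂ => z * ((‖z‖ : ℝ) : ℂ)⁻¹ := by
    funext z
    rw [phase, div_eq_mul_inv]
  rw [h]
  refine contDiffAt_id.mul (ContDiffAt.inv ?_ ?_)
  · exact contDiff_ofR.contDiffAt.comp c (contDiffAt_norm ℝ hc)
  · exact Complex.ofReal_ne_zero.mpr (norm_ne_zero_iff.mpr hc)

/-- smoothness of the derivative factor -/
theorem hhl_contDiffOn_dMz : ContDiffOn ℝ ∞ (fun p : EH => dMz (hz p.1) (hq p)) (sphU hypM) := by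
  have hz' : ContDiffOn ℝ ∞ (fun p : EH => hz p.1) (sphU hypM) :=
    contDiffOn_hz.comp contDiff_pX.contDiffOn mapsTo_pX
  have h : ContDiffOn ℝ ∞ (fun p : EH => ((1 - Complex.normSq (hz p.1) : ℝ) : ℂ) *
      (((1 + conj (hz p.1) * hq p) ^ 2)⁻¹)) (sphU hypM) := by
    refine ContDiffOn.mul ?_ (ContDiffOn.inv ?_ ?_)
    · exact contDiff_ofR.comp_contDiffOn (contDiffOn_const.sub (contDiff_nsq.comp_contDiffOn hz'))
    · exact (contDiffOn_const.add ((contDiff_cnj.comp_contDiffOn hz').mul contDiffOn_hq)).pow 2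
    · intro p hp
      exact pow_ne_zero 2 (Mz_den_ne _ _ (normSq_hz_lt _ (mapsTo_pX hp)) (normSq_hq_le p hp))
  exact h.congr fun p _ => by rw [dMz, div_eq_mul_inv]

theorem hhl_dMz_ne (p : EH) (hp : p ∈ sphU hypM) : dMz (hz p.1) (hq p) ≠ 0 :=
  dMz_ne_zero _ _ (normSq_hz_lt _ (mapsTo_pX hp)) (normSq_hq_le p hp)

/-- at `t = 0` the local map is on the unit circle -/
theorem hhl_normSq_hP_eq (p : EH) (hp : p ∈ sphU hypM) (ht : p.2.2 = 0) :
    Complex.normSq (hP p) = 1 := by
  have h1 := one_sub_normSq_Mz (hz p.1) (hq p) (normSq_hz_lt p.1 hp.1) (normSq_hq_le p hp)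
  rw [normSq_hq_eq p hp ht] at h1
  unfold hP
  have h2 : 1 - Complex.normSq (Mz (hz p.1) (hq p)) = 0 := by
    rw [h1]
    simp
  linarith

theorem hhl_hP_ne (p : EH) (hp : p ∈ cdom true Ch.M) : hP p ≠ 0 := by
  obtain ⟨hs, hy, hz0, hD⟩ := hp
  by_cases ht : p.2.2 = 0
  · intro h
    have h1 := hhl_normSq_hP_eq p hs ht
    rw [h, map_zero] at h1
    exact zero_ne_one h1
  · intro h
    have h1 := (YT_eq_hP true p hs ht (Or.inl rfl)).2
    rw [h, mul_zero] at h1
    exact hz0 h1

theorem contDiffOn_phiHH (c : Ch) : ContDiffOn ℝ ∞ (phiHH c) (cdom true c) := by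
  have hsub := cdom_subset true c
  have h1 : ContDiffOn ℝ ∞ (fun p : EH => phase (dMz (hz p.1) (hq p))) (cdom true c) := by
    intro p hp
    have h2 : ContDiffAt ℝ ∞ phase (dMz (hz p.1) (hq p)) :=
      hhl_contDiffAt_phase (hhl_dMz_ne p (hsub hp))
    exact h2.comp_contDiffWithinAt p ((hhl_contDiffOn_dMz.mono hsub) p hp)
  by_cases hc : c = Ch.M
  · subst hc
    have h3 : ContDiffOn ℝ ∞ (fun p : EH => phase (conj (hP p))) (cdom true Ch.M) := by
      intro p hp
      have h2 : ContDiffAt ℝ ∞ phase (conj (hP p)) := by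
        apply hhl_contDiffAt_phase
        intro h
        exact hhl_hP_ne p hp ((map_eq_zero _).1 h)
      exact h2.comp_contDiffWithinAt p
        (contDiff_cnj.contDiffAt.comp_contDiffWithinAt p ((contDiffOn_hP.mono hsub) p hp))
    refine (h1.mul h3).congr ?_
    intro p _
    simp [phiHH]
  · refine h1.congr ?_
    intro p _
    simp [phiHH, hc]

theorem norm_phiHH (c : Ch) (p : EH) (hp : p ∈ cdom true c) : ‖phiHH c p‖ = 1 := by
  have h1 := hhl_norm_phase _ (hhl_dMz_ne p (cdom_subset true c hp))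
  by_cases hc : c = Ch.M
  · subst hc
    have h2 : ‖phase (conj (hP p))‖ = 1 := by
      apply hhl_norm_phase
      intro h
      exact hhl_hP_ne p hp ((map_eq_zero _).1 h)
    simp only [phiHH, if_true]
    rw [norm_mul, h1, h2, one_mul]
  · simp only [phiHH, hc, if_false]
    exact h1

/-- the phase of the derivative of the Moebius map -/
noncomputable def hhl_A (g : SU11) (P : ℂ) : ℂ := phase (1 / (conj g.b * P + conj g.a) ^ 2)

theorem hhl_contDiffAt_A (g : SU11) (P : ℂ) (hP : Complex.normSq P ≤ 1) :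
    ContDiffAt ℝ ∞ (hhl_A g) P := by
  have hne := mob_den_ne g P hP
  have h1 : ContDiffAt ℝ ∞ (fun P : ℂ => 1 / (conj g.b * P + conj g.a) ^ 2) P := by
    have h2 : (fun P : ℂ => 1 / (conj g.b * P + conj g.a) ^ 2) =
        fun P : ℂ => ((conj g.b * P + conj g.a) ^ 2)⁻¹ := by
      funext P
      rw [one_div]
    rw [h2]
    exact (((contDiff_const.mul contDiff_id).add contDiff_const).pow 2).contDiffAt.inv
      (pow_ne_zero 2 hne)
  exact (hhl_contDiffAt_phase (one_div_ne_zero (pow_ne_zero 2 hne))).comp P h1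

theorem hhl_contDiffAt_mob (g : SU11) (P : ℂ) (hP : Complex.normSq P ≤ 1) :
    ContDiffAt ℝ ∞ (mob g) P := by
  have hne := mob_den_ne g P hP
  have h3 : mob g = fun P : ℂ => (g.a * P + g.b) * (conj g.b * P + conj g.a)⁻¹ := by
    funext P
    rw [mob, div_eq_mul_inv]
  rw [h3]
  exact ((contDiff_const.mul contDiff_id).add contDiff_const).contDiffAt.mul
    (((contDiff_const.mul contDiff_id).add contDiff_const).contDiffAt.inv hne)

/-- the basic identity -/
theorem hhl_key (l : Lam) (p : EH) (hp : p ∈ sphU hypM) :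
    phase (dMz (hz (sphAct hypM hypL l p).1) (hq (sphAct hypM hypL l p))) *
      hj (gel l) p.1 ^ 2 = hhl_A (gel l) (hP p) * phase (dMz (hz p.1) (hq p)) := by
  have h1 := dMz_hact (gel l) p.1 hp.1 (hq p) (normSq_hq_le p hp)
  rw [← hq_act l p hp] at h1
  have h2 : ‖hj (gel l) p.1 ^ 2‖ = 1 := by
    rw [norm_pow, norm_hj (gel l) p.1 hp.1, one_pow]
  have h3 : (sphAct hypM hypL l p).1 = hact (gel l) p.1 := rfl
  rw [h3]
  nth_rewrite 1 [← hhl_phase_unit _ h2]
  rw [← hhl_phase_mul, h1, hhl_phase_mul]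
  rfl

/-- the radial profile -/
noncomputable def hhl_s (r : ℝ) : ℝ := Real.sqrt ((1 - dl r) / (1 + dl r))

/-- the hyperbolic coordinate as a function of the collar coordinate -/
noncomputable def hhl_S (w : ℂ) : ℂ := phase w * ((hhl_s (Real.log ‖w‖) : ℝ) : ℂ)

theorem hhl_contDiff_s : ContDiff ℝ ∞ hhl_s := by
  have h : hhl_s = fun r => Real.sqrt ((1 - dl r) * (1 + dl r)⁻¹) := by
    funext r
    rw [hhl_s, div_eq_mul_inv]
  rw [h]
  have hpos : ∀ r : ℝ, 0 < 1 + dl r := fun r => by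
    have := dl_nonneg r
    linarith
  refine ContDiff.sqrt ?_ ?_
  · exact (contDiff_const.sub contDiff_dl).mul
      ((contDiff_const.add contDiff_dl).inv fun r => (hpos r).ne')
  · intro r
    have h1 := dl_lt_one r
    have h2 : 0 < 1 - dl r := by linarith
    exact (mul_pos h2 (inv_pos.mpr (hpos r))).ne'

theorem hhl_contDiffAt_S (w : ℂ) (hw : w ≠ 0) : ContDiffAt ℝ ∞ hhl_S w := by
  refine (hhl_contDiffAt_phase hw).mul ?_
  have h1 : ContDiffAt ℝ ∞ (fun w : ℂ => Real.log ‖w‖) w :=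
    (contDiffAt_norm ℝ hw).log (norm_ne_zero_iff.mpr hw)
  exact contDiff_ofR.contDiffAt.comp w (hhl_contDiff_s.contDiffAt.comp w h1)

theorem hhl_norm_fM (p : EH) (hp : p ∈ cdom true Ch.M) :
    ‖fM true p‖ = Real.exp (rr true p) := by
  obtain ⟨hs, hy, hz0, hD⟩ := hp
  rw [fM, norm_mul, norm_div, Complex.norm_real, Complex.norm_real, norm_norm,
    div_self (norm_ne_zero_iff.mpr hz0), mul_one, Real.norm_eq_abs, abs_of_pos (Real.exp_pos _)]

theorem hhl_phase_ofReal (r : ℝ) (hr : 0 < r) : phase (r : ℂ) = 1 := by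
  rw [phase, Complex.norm_real, Real.norm_eq_abs, abs_of_pos hr, div_self]
  exact_mod_cast hr.ne'

theorem hhl_phase_phase (a : ℂ) (h : a ≠ 0) : phase (phase a) = phase a :=
  hhl_phase_unit _ (hhl_norm_phase a h)

theorem hhl_phase_fM (p : EH) (hp : p ∈ cdom true Ch.M) :
    phase (fM true p) = phase (YZ true p) := by
  obtain ⟨hs, hy, hz0, hD⟩ := hp
  have h : fM true p = (Real.exp (rr true p) : ℂ) * phase (YZ true p) := rfl
  rw [h, hhl_phase_mul, hhl_phase_phase _ hz0]
  rw [hhl_phase_ofReal _ (Real.exp_pos _), one_mul]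

/-- the phase of the hyperbolic coordinate at `t = 0` -/
theorem hhl_hP_zero (p : EH) (hp : p ∈ sphU hypM) (ht : p.2.2 = 0) :
    hP p = phase (YZ true p) := by
  have hX := hp.1
  have hy : p.2.1 ≠ 0 := ceq_sphU_y_ne hp ht
  have hN0 := hN_pos p.1 hX
  have hTN := add_hN_pos p.1 hX
  have hv0 : hv p ≠ 0 := hv_ne_zero p hp hy
  have hYZ : YZ true p = hv p ^ 2 := by
    rw [YZ, ht, epsf_zero, zero_div, Complex.ofReal_zero, zero_mul, add_zero]
  have hq0 : qden p = Complex.normSq p.2.1 := by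
    unfold qden
    rw [ht, dl_zero]
    ring
  have hns : Complex.normSq p.2.1 ≠ 0 := (Complex.normSq_pos.mpr hy).ne'
  set c : ℝ := Real.sqrt (2 * hN p.1 * (p.1.1 + hN p.1)) with hc
  have hc0 : 0 < c := Real.sqrt_pos.mpr (by positivity)
  set W : ℂ := ((p.1.1 + hN p.1 : ℝ) : ℂ) * p.2.1 + p.1.2 * conj p.2.1 with hW
  have hvW : hv p = W / (c : ℂ) := rfl
  have hcc : (c : ℂ) ≠ 0 := by exact_mod_cast hc0.ne'
  have hW0 : W ≠ 0 := by
    intro h
    apply hv0
    rw [hvW, h, zero_div]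
  have hcW : conj W ≠ 0 := fun h => hW0 ((map_eq_zero _).1 h)
  have hTNc : ((p.1.1 + hN p.1 : ℝ) : ℂ) ≠ 0 := by exact_mod_cast hTN.ne'
  have hcy : conj p.2.1 ≠ 0 := fun h => hy ((map_eq_zero _).1 h)
  have e1 : hP p = W / conj W := by
    have hden := Mz_den_ne (hz p.1) (hq p) (normSq_hz_lt p.1 hX) (normSq_hq_le p hp)
    have hq1 : hq p = p.2.1 / conj p.2.1 := by
      rw [hq, hq0, ← Complex.mul_conj]
      field_simp
    have hz1 : hz p.1 = p.1.2 / ((p.1.1 + hN p.1 : ℝ) : ℂ) := rfl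
    rw [hq1, hz1] at hden
    rw [hP, Mz, hq1, hz1, div_eq_div_iff hden hcW, hW]
    simp only [map_add, map_mul, map_div₀, Complex.conj_ofReal, Complex.conj_conj]
    field_simp
  have e2 : phase (YZ true p) = W / conj W := by
    rw [hYZ, hvW, pow_two, hhl_phase_mul]
    have h3 : phase (W / (c : ℂ)) = phase W := by
      rw [div_eq_mul_inv, hhl_phase_mul, ← Complex.ofReal_inv,
        hhl_phase_ofReal _ (inv_pos.mpr hc0), mul_one]
    rw [h3, phase]
    have h4 : ((‖W‖ : ℝ) : ℂ) ≠ 0 := by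
      exact_mod_cast norm_ne_zero_iff.mpr hW0
    have h5 : ((‖W‖ : ℝ) : ℂ) ^ 2 = W * conj W := by
      rw [Complex.mul_conj, Complex.normSq_eq_norm_sq]
      push_cast
      ring
    rw [div_mul_div_comm, ← pow_two, ← pow_two, h5]
    field_simp
  rw [e1, e2]

/-- the hyperbolic coordinate in terms of the collar coordinate -/
theorem hhl_hP_eq_S (p : EH) (hp : p ∈ cdom true Ch.M) : hP p = hhl_S (fM true p) := by
  have hp' := hp
  obtain ⟨hs, hy, hz0, hD⟩ := hp'
  rw [hhl_S, hhl_phase_fM p hp, hhl_norm_fM p hp, Real.log_exp]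
  by_cases ht : p.2.2 = 0
  · have hr : rr true p = 0 := by rw [rr, ht, zero_div]
    have h1 : hhl_s 0 = 1 := by
      rw [hhl_s, dl_zero]
      norm_num
    rw [hr, h1, Complex.ofReal_one, mul_one]
    exact hhl_hP_zero p hs ht
  · obtain ⟨h1, h2⟩ := YT_eq_hP true p hs ht (Or.inl rfl)
    have h3 := log_YT true p hp ht
    have hd := dl_pos p.2.2 ht
    have hq : 0 < Real.sqrt (mmf p) := Real.sqrt_pos.mpr (mmf_pos p hs)
    have hdm : 0 < dl p.2.2 * Real.sqrt (mmf p) := mul_pos hd hq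
    have hlt := normSq_hP_lt p hs ht
    have hnn := Complex.normSq_nonneg (hP p)
    have hP0 := hhl_hP_ne p hp
    have hsq : 0 < Real.sqrt (DD true p) := Real.sqrt_pos.mpr hD
    have hr0 : rr true p ≠ 0 := div_ne_zero ht hsq.ne'
    have h4 : YT true p / (dl p.2.2 * Real.sqrt (mmf p)) =
        (1 + Complex.normSq (hP p)) / (1 - Complex.normSq (hP p)) := by
      rw [h1]
      field_simp
    have h5 : 0 < (1 + Complex.normSq (hP p)) / (1 - Complex.normSq (hP p)) :=
      div_pos (by linarith) (by linarith)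
    have h6 : dl (rr true p) = (1 - Complex.normSq (hP p)) / (1 + Complex.normSq (hP p)) := by
      rw [dl_of_ne _ hr0, ← h3, Real.exp_neg, h4, Real.exp_log h5, inv_div]
    have h7 : hhl_s (rr true p) = ‖hP p‖ := by
      rw [hhl_s, h6]
      have h8 : (1 - (1 - Complex.normSq (hP p)) / (1 + Complex.normSq (hP p))) /
          (1 + (1 - Complex.normSq (hP p)) / (1 + Complex.normSq (hP p))) =
          Complex.normSq (hP p) := by
        have h9 : 1 + Complex.normSq (hP p) ≠ 0 := by linarith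
        field_simp
        ring
      rw [h8]
      rfl
    have h10 : phase (YZ true p) = phase (hP p) := by
      rw [h2, hhl_phase_mul, hhl_phase_ofReal, one_mul]
      exact div_pos (by linarith) (by linarith)
    rw [h7, h10, phase]
    have h11 : ((‖hP p‖ : ℝ) : ℂ) ≠ 0 := by exact_mod_cast norm_ne_zero_iff.mpr hP0
    field_simp

theorem hhl_fM_ne (p : EH) (hp : p ∈ cdom true Ch.M) : fM true p ≠ 0 := by
  intro h
  have h1 := hhl_norm_fM p hp
  rw [h, norm_zero] at h1
  exact (Real.exp_pos _).ne h1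

theorem hhl_conj_ne {a : ℂ} (h : a ≠ 0) : conj a ≠ 0 := fun h1 => h ((map_eq_zero _).1 h1)

/-- the correction factor of the target -/
noncomputable def hhl_C (c : Ch) (P : ℂ) : ℂ := if c = Ch.M then phase (conj P) else 1

theorem hhl_phi (c : Ch) (p : EH) :
    phiHH c p = phase (dMz (hz p.1) (hq p)) * hhl_C c (hP p) := by
  by_cases hc : c = Ch.M
  · simp [phiHH, hhl_C, hc]
  · simp [phiHH, hhl_C, hc]

theorem hhl_contDiffAt_C (c : Ch) (P : ℂ) (hP : c = Ch.M → P ≠ 0) :
    ContDiffAt ℝ ∞ (hhl_C c) P := by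
  by_cases hc : c = Ch.M
  · have h : hhl_C c = fun P => phase (conj P) := by
      funext Q
      simp [hhl_C, hc]
    rw [h]
    have h2 : ContDiffAt ℝ ∞ phase (conj P) := hhl_contDiffAt_phase (hhl_conj_ne (hP hc))
    exact h2.comp P contDiff_cnj.contDiffAt
  · have h : hhl_C c = fun _ => 1 := by
      funext Q
      simp [hhl_C, hc]
    rw [h]
    exact contDiffAt_const

/-- the transition as a function of the hyperbolic coordinate -/
noncomputable def hhl_T (c' : Ch) (g : SU11) (P : ℂ) : ℂ := hhl_A g P * hhl_C c' (mob g P)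

theorem hhl_contDiffAt_T (c' : Ch) (g : SU11) (P : ℂ) (hP : Complex.normSq P ≤ 1)
    (h : c' = Ch.M → mob g P ≠ 0) : ContDiffAt ℝ ∞ (hhl_T c' g) P :=
  (hhl_contDiffAt_A g P hP).mul
    ((hhl_contDiffAt_C c' (mob g P) h).comp P (hhl_contDiffAt_mob g P hP))

theorem hhl_phi_act (c' : Ch) (l : Lam) (p : EH) (hp : p ∈ sphU hypM) :
    phiHH c' (sphAct hypM hypL l p) * hj (gel l) p.1 ^ 2 =
      hhl_T c' (gel l) (hP p) * phase (dMz (hz p.1) (hq p)) := by
  have h1 := hhl_key l p hp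
  have h2 := hP_act l p hp
  rw [hhl_phi, h2, hhl_T]
  linear_combination (hhl_C c' (mob (gel l) (hP p))) * h1

theorem leafwise_HH (c' : Ch) (l : Lam) (c : Ch) (p : EH) (hp : p ∈ cdom true c)
    (hlp : sphAct hypM hypL l p ∈ cdom true c') :
    ∃ Θ : ℂ → ℂ, ContDiffAt ℝ ∞ Θ (cf true c p) ∧
      ∀ᶠ y in 𝓝 p, phiHH c' (sphAct hypM hypL l y) * hj (gel l) y.1 ^ 2 =
        Θ (cf true c y) * phiHH c y := by
  have hps : p ∈ sphU hypM := cdom_subset true c hp
  have hle := normSq_hP_le p hps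
  have hM : c' = Ch.M → mob (gel l) (hP p) ≠ 0 := by
    intro h
    subst h
    rw [← hP_act l p hps]
    exact hhl_hP_ne _ hlp
  have hT := hhl_contDiffAt_T c' (gel l) (hP p) hle hM
  have hev : ∀ᶠ y in 𝓝 p, y ∈ cdom true c := (isOpen_cdom true c).mem_nhds hp
  cases c with
  | H =>
    refine ⟨hhl_T c' (gel l), hT, ?_⟩
    filter_upwards [hev] with y hy
    rw [hhl_phi_act c' l y (cdom_subset true Ch.H hy), hhl_phi Ch.H y]
    simp [hhl_C, cf]
  | V =>
    refine ⟨fun w => hhl_T c' (gel l) (conj w), ?_, ?_⟩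
    · have h1 : cf true Ch.V p = conj (hP p) := by simp [cf]
      rw [h1]
      have h2 : ContDiffAt ℝ ∞ (hhl_T c' (gel l)) (conj (conj (hP p))) := by
        rw [Complex.conj_conj]
        exact hT
      exact h2.comp _ contDiff_cnj.contDiffAt
    · filter_upwards [hev] with y hy
      rw [hhl_phi_act c' l y (cdom_subset true Ch.V hy), hhl_phi Ch.V y]
      simp [hhl_C, cf]
  | M =>
    have hf : ∀ q, cf true Ch.M q = fM true q := fun q => by simp [cf]
    refine ⟨fun w => hhl_T c' (gel l) (hhl_S w) * phase (hhl_S w), ?_, ?_⟩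
    · rw [hf]
      have h0 := hhl_contDiffAt_S _ (hhl_fM_ne p hp)
      have h1 := hhl_hP_eq_S p hp
      have h2 := hhl_hP_ne p hp
      rw [h1] at hT h2
      exact (hT.comp _ h0).mul ((hhl_contDiffAt_phase h2).comp _ h0)
    · filter_upwards [hev] with y hy
      rw [hhl_phi_act c' l y (cdom_subset true Ch.M hy), hhl_phi Ch.M y, hf,
        ← hhl_hP_eq_S y hy]
      have h3 := hhl_phase_mul_conj _ (hhl_hP_ne y hy)
      have h4 : hhl_C Ch.M (hP y) = phase (conj (hP y)) := by simp [hhl_C]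
      rw [h4]
      linear_combination (-hhl_T c' (gel l) (hP y) * phase (dMz (hz y.1) (hq y))) * h3

end Pool.Agent.HAF2
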