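import Pool.Agent.HAF2.ChOpen
import Pool.Agent.HAF2.SphConn
import Pool.Agent.HAF2.Nrm

/-!
# Module HHS: the equivariant splitting of the block HH

For the patches `N` and `S` use the horizontal lift `bN`: the vector `λ : ℂ` is lifted to
`(β, -I a(β) y, 0)` where `β = (re (conj Z λ), ((T + N) λ + Z^2 conj λ / (T + N)) / 2)` and `a = hconn X`.
It is equivariant: `D (sphAct l) (bN p λ) = bN (l p) (j^2 λ)`, and
`D hP (bN p λ) = dMz (hz X) (hq p) * (λ - (hq p)^2 conj λ) / 2`, which is invertible in `λ` for `t ≠ 0`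
(`‖hq‖ < 1`). For the patch `R` (`y ≠ 0`) use `bR true`. For a lift `b` put
`s_b = b ∘ (D f ∘ b)⁻¹`, and take the combination of the two splittings with the weights
`1 - w (t)`, `w (t)`, where `w (t) = chi t + chi (-t)`.
Equivariance of `s_b`: from `normal_comp` (`normal ∘ D f_j (p) = D f_i (l p) ∘ D l`).
-/

namespace Pool.Agent.HAF2

open Filter Topology MeasureTheory
open scoped ContDiff ComplexConjugate

/-- the horizontal lift -/
noncomputable def betaX (X : ℝ × ℂ) (c : ℂ) : ℝ × ℂ :=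
  ((conj X.2 * c).re,
    (((X.1 + hN X : ℝ) : ℂ) * c + X.2 ^ 2 * conj c / ((X.1 + hN X : ℝ) : ℂ)) / 2)

/-- the horizontal lift -/
noncomputable def bN (p : EH) (c : ℂ) : EH :=
  (betaX p.1 c, -(Complex.I * (hconn p.1 (betaX p.1 c) : ℂ) * p.2.1), 0)

theorem HHS_beta_sq (X : ℝ × ℂ) (hX : X ∈ hU) (y : ℂ) :
    betaX X (y ^ 2) = hN X • ((Complex.normSq (hA X y), hA X y ^ 2) : ℝ × ℂ) -
      Complex.normSq y • X := by
  have hN0 := hN_pos X hX
  have hs := add_hN_pos X hX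
  have hNc : ((hN X : ℝ) : ℂ) ≠ 0 := by exact_mod_cast hN0.ne'
  have hsc : ((X.1 + hN X : ℝ) : ℂ) ≠ 0 := by exact_mod_cast hs.ne'
  refine Prod.ext ?_ ?_
  · show (conj X.2 * y ^ 2).re = hN X * Complex.normSq (hA X y) - Complex.normSq y * X.1
    rw [ceq_normSq_hA X hX]
    field_simp
    ring
  · show (((X.1 + hN X : ℝ) : ℂ) * y ^ 2 + X.2 ^ 2 * conj (y ^ 2) / ((X.1 + hN X : ℝ) : ℂ)) / 2 =
      hN X • hA X y ^ 2 - Complex.normSq y • X.2
    rw [ceq_hA_sq X hX, Complex.real_smul, Complex.real_smul, map_pow, Complex.ofReal_mul,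
      Complex.ofReal_mul, Complex.ofReal_ofNat]
    generalize ((X.1 + hN X : ℝ) : ℂ) = s at *
    generalize ((hN X : ℝ) : ℂ) = n at *
    field_simp
    ring

theorem HHS_hact_spinor (g : SU11) (v : ℂ) :
    hact g ((Complex.normSq v, v ^ 2) : ℝ × ℂ) =
      ((Complex.normSq (hvact g v), hvact g v ^ 2) : ℝ × ℂ) := by
  refine Prod.ext ?_ ?_
  · simp only [hact, hvact, Complex.normSq_apply, Complex.add_re, Complex.add_im,
      Complex.mul_re, Complex.mul_im, Complex.conj_re, Complex.conj_im, pow_two]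
    ring
  · show g.a ^ 2 * v ^ 2 + g.b ^ 2 * conj (v ^ 2) + 2 * g.a * g.b * (Complex.normSq v : ℂ) =
      (g.a * v + g.b * conj v) ^ 2
    rw [← Complex.mul_conj, map_pow]
    ring

theorem HHS_beta_act (g : SU11) (X : ℝ × ℂ) (hX : X ∈ hU) (c : ℂ) :
    hact g (betaX X c) = betaX (hact g X) (hj g X ^ 2 * c) := by
  obtain ⟨y, hy⟩ := IsAlgClosed.exists_pow_nat_eq c (n := 2) two_pos
  rw [← hy]
  have e : hj g X ^ 2 * y ^ 2 = (hj g X * y) ^ 2 := by ring
  have e2 : Complex.normSq (hj g X * y) = Complex.normSq y := by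
    rw [map_mul, ceq_normSq_hj g X hX, one_mul]
  rw [e, HHS_beta_sq X hX, HHS_beta_sq _ (hact_mem g X hX), hN_hact, hA_hact g X hX, e2,
    ← HHS_hact_spinor]
  have h := (hactL g).map_sub (hN X • ((Complex.normSq (hA X y), hA X y ^ 2) : ℝ × ℂ))
    (Complex.normSq y • X)
  rw [(hactL g).map_smul, (hactL g).map_smul] at h
  exact h

theorem bN_act (l : Lam) (p : EH) (hp : p ∈ sphU hypM) (c : ℂ) :
    fderiv ℝ (sphAct hypM hypL l) p (bN p c) =
      bN (sphAct hypM hypL l p) (hj (gel l) p.1 ^ 2 * c) := by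
  have hX : p.1 ∈ hU := hp.1
  rw [fderiv_sphAct hypM hypL l p hp]
  have h1 : fderiv ℝ (hypM.act l) p.1 (bN p c).1 =
      betaX (hact (gel l) p.1) (hj (gel l) p.1 ^ 2 * c) := by
    show fderiv ℝ (hact (gel l)) p.1 (betaX p.1 c) = _
    rw [fderiv_hact, hactL_apply, HHS_beta_act (gel l) p.1 hX]
  have h2 : fderiv ℝ (hypL.J l) p.1 (bN p c).1 * p.2.1 + hypL.J l p.1 * (bN p c).2.1 =
      -(Complex.I * (hconn (hact (gel l) p.1)
        (betaX (hact (gel l) p.1) (hj (gel l) p.1 ^ 2 * c)) : ℂ) * (hj (gel l) p.1 * p.2.1)) := by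
    show fderiv ℝ (hj (gel l)) p.1 (betaX p.1 c) * p.2.1 + hj (gel l) p.1 *
      (-(Complex.I * (hconn p.1 (betaX p.1 c) : ℂ) * p.2.1)) = _
    rw [fderiv_hj (gel l) p.1 hX, HHS_beta_act (gel l) p.1 hX]
    push_cast
    ring
  rw [h1, h2]
  rfl

/-- the two relations between `T + N` and `‖Z‖ ^ 2` -/
theorem HHS_rel (X : ℝ × ℂ) (hX : X ∈ hU) :
    (X.1 + hN X) ^ 2 + Complex.normSq X.2 = 2 * X.1 * (X.1 + hN X) ∧
    (X.1 + hN X) ^ 2 - Complex.normSq X.2 = 2 * hN X * (X.1 + hN X) := by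
  have h := hN_sq X hX
  constructor
  · linear_combination h
  · linear_combination -h

theorem HHS_beta_mul (X : ℝ × ℂ) (hX : X ∈ hU) (c : ℂ) :
    conj X.2 * (betaX X c).2 = (((X.1 + hN X) / 2 : ℝ) : ℂ) * (conj X.2 * c) +
      ((Complex.normSq X.2 / (2 * (X.1 + hN X)) : ℝ) : ℂ) * conj (conj X.2 * c) := by
  have hs := add_hN_pos X hX
  have hsc : ((X.1 + hN X : ℝ) : ℂ) ≠ 0 := by exact_mod_cast hs.ne'
  rw [Complex.ofReal_div, Complex.ofReal_div, Complex.ofReal_mul, Complex.ofReal_ofNat,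
    ← Complex.mul_conj, map_mul, Complex.conj_conj]
  show conj X.2 * ((((X.1 + hN X : ℝ) : ℂ) * c + X.2 ^ 2 * conj c / ((X.1 + hN X : ℝ) : ℂ)) / 2) = _
  generalize ((X.1 + hN X : ℝ) : ℂ) = s at *
  field_simp

theorem HHS_beta_re (X : ℝ × ℂ) (hX : X ∈ hU) (c : ℂ) :
    (conj X.2 * (betaX X c).2).re = X.1 * (conj X.2 * c).re := by
  have hs := add_hN_pos X hX
  obtain ⟨h1, -⟩ := HHS_rel X hX
  rw [HHS_beta_mul X hX, Complex.add_re, Complex.re_ofReal_mul, Complex.re_ofReal_mul,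
    Complex.conj_re]
  have h2 : Complex.normSq X.2 = 2 * X.1 * (X.1 + hN X) - (X.1 + hN X) ^ 2 := by linarith
  rw [h2]
  field_simp
  ring

theorem HHS_beta_im (X : ℝ × ℂ) (hX : X ∈ hU) (c : ℂ) :
    (conj X.2 * (betaX X c).2).im = hN X * (conj X.2 * c).im := by
  have hs := add_hN_pos X hX
  obtain ⟨-, h1⟩ := HHS_rel X hX
  rw [HHS_beta_mul X hX, Complex.add_im, Complex.im_ofReal_mul, Complex.im_ofReal_mul,
    Complex.conj_im]
  have h2 : Complex.normSq X.2 = (X.1 + hN X) ^ 2 - 2 * hN X * (X.1 + hN X) := by linarith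
  rw [h2]
  field_simp
  ring

theorem HHS_hN_beta (X : ℝ × ℂ) (hX : X ∈ hU) (c : ℂ) : fderiv ℝ hN X (betaX X c) = 0 := by
  rw [hyl_fderiv_hN X hX, HHS_beta_re X hX]
  show (X.1 * (conj X.2 * c).re - X.1 * (conj X.2 * c).re) / hN X = 0
  rw [sub_self, zero_div]

theorem HHS_hz_mul (X : ℝ × ℂ) (hX : X ∈ hU) : hz X * ((X.1 + hN X : ℝ) : ℂ) = X.2 := by
  have hs := add_hN_pos X hX
  have hsc : ((X.1 + hN X : ℝ) : ℂ) ≠ 0 := by exact_mod_cast hs.ne'
  rw [hz, div_mul_cancel₀ _ hsc]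

theorem HHS_hconn_beta (X : ℝ × ℂ) (hX : X ∈ hU) (c : ℂ) :
    hconn X (betaX X c) = (conj (hz X) * c).im / 2 := by
  have hN0 := hN_pos X hX
  have hs := add_hN_pos X hX
  have h : conj X.2 * c = ((X.1 + hN X : ℝ) : ℂ) * (conj (hz X) * c) := by
    have h1 := congrArg conj (HHS_hz_mul X hX)
    rw [map_mul, Complex.conj_ofReal] at h1
    rw [← h1]
    ring
  rw [hconn_apply, HHS_beta_im X hX, h, Complex.im_ofReal_mul]
  field_simp

theorem HHS_fderiv_hz (X : ℝ × ℂ) (hX : X ∈ hU) (c : ℂ) :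
    fderiv ℝ hz X (betaX X c) = ((1 - Complex.normSq (hz X) : ℝ) : ℂ) * c / 2 := by
  have hs := add_hN_pos X hX
  have hsc : ((X.1 + hN X : ℝ) : ℂ) ≠ 0 := by exact_mod_cast hs.ne'
  have hd : DifferentiableAt ℝ hz X :=
    (contDiffOn_hz.contDiffAt (isOpen_hU.mem_nhds hX)).differentiableAt (by simp)
  have hdN := (hyl_differentiableAt_hN X hX).hasFDerivAt
  have h1 : HasFDerivAt (fun Y : ℝ × ℂ => ((Y.1 + hN Y : ℝ) : ℂ))
      (Complex.ofRealCLM ∘L (ContinuousLinearMap.fst ℝ ℝ ℂ + fderiv ℝ hN X)) X :=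
    Complex.ofRealCLM.hasFDerivAt.comp X
      ((ContinuousLinearMap.fst ℝ ℝ ℂ).hasFDerivAt.add hdN)
  have h2 := hd.hasFDerivAt.mul h1
  have h3 : HasFDerivAt (fun Y : ℝ × ℂ => Y.2) (ContinuousLinearMap.snd ℝ ℝ ℂ) X :=
    (ContinuousLinearMap.snd ℝ ℝ ℂ).hasFDerivAt
  have h4 : (fun Y => hz Y * ((Y.1 + hN Y : ℝ) : ℂ)) =ᶠ[𝓝 X] fun Y : ℝ × ℂ => Y.2 := by
    filter_upwards [isOpen_hU.mem_nhds hX] with Y hY using HHS_hz_mul Y hY
  have h5 := (h2.congr_of_eventuallyEq h4.symm).unique h3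
  have h6 := congrArg (fun F : (ℝ × ℂ) →L[ℝ] ℂ => F (betaX X c)) h5
  simp only [add_apply, smul_apply, ContinuousLinearMap.comp_apply, smul_eq_mul,
    ContinuousLinearMap.coe_fst', ContinuousLinearMap.coe_snd', Complex.ofRealCLM_apply,
    HHS_hN_beta X hX, add_zero] at h6
  have hz1 := HHS_hz_mul X hX
  have e1 : (((betaX X c).1 : ℝ) : ℂ) = (conj X.2 * c + X.2 * conj c) / 2 := by
    show (((conj X.2 * c).re : ℝ) : ℂ) = _
    have := Complex.re_eq_add_conj (conj X.2 * c)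
    rw [this, map_mul, Complex.conj_conj]
  have e2 : (betaX X c).2 = (((X.1 + hN X : ℝ) : ℂ) * c +
      X.2 ^ 2 * conj c / ((X.1 + hN X : ℝ) : ℂ)) / 2 := rfl
  rw [e1, e2] at h6
  have h7 := congrArg conj hz1
  rw [map_mul, Complex.conj_ofReal] at h7
  rw [← h7, ← hz1] at h6
  have e3 : ((1 - Complex.normSq (hz X) : ℝ) : ℂ) = 1 - hz X * conj (hz X) := by
    rw [Complex.mul_conj]
    push_cast
    rfl
  rw [e3]
  apply mul_right_cancel₀ hsc
  generalize ((X.1 + hN X : ℝ) : ℂ) = s at *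
  field_simp at h6 ⊢
  linear_combination h6

theorem HHS_Mz_hasFDeriv (X : ℝ × ℂ) (hX : X ∈ hU) (q : ℂ) (hq1 : Complex.normSq q ≤ 1) (c : ℂ) :
    fderiv ℝ (fun Y => Mz (hz Y) q) X (betaX X c) =
      dMz (hz X) q * (c * (1 + conj (hz X) * q) - (q + hz X) * q * conj c) / 2 := by
  have hd : DifferentiableAt ℝ hz X :=
    (contDiffOn_hz.contDiffAt (isOpen_hU.mem_nhds hX)).differentiableAt (by simp)
  have hne : ∀ Y ∈ hU, 1 + conj (hz Y) * q ≠ 0 := fun Y hY =>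
    Mz_den_ne (hz Y) q (normSq_hz_lt Y hY) hq1
  have hc : HasFDerivAt (fun Y => conj (hz Y))
      ((Complex.conjCLE : ℂ →L[ℝ] ℂ) ∘L fderiv ℝ hz X) X :=
    (Complex.conjCLE : ℂ →L[ℝ] ℂ).hasFDerivAt.comp X hd.hasFDerivAt
  have hden : HasFDerivAt (fun Y => 1 + conj (hz Y) * q)
      (q • ((Complex.conjCLE : ℂ →L[ℝ] ℂ) ∘L fderiv ℝ hz X)) X :=
    (hc.mul_const' q).const_add 1 |>.congr_fderiv (by ext v <;> simp)
  have hdM : DifferentiableAt ℝ (fun Y => Mz (hz Y) q) X := by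
    have h0 : (fun Y => Mz (hz Y) q) = fun Y => (q + hz Y) * (1 + conj (hz Y) * q)⁻¹ := by
      funext Y
      rw [Mz, div_eq_mul_inv]
    rw [h0]
    exact ((differentiableAt_const q).add hd).fun_mul
      (hden.differentiableAt.fun_inv (hne X hX))
  have h2 := hdM.hasFDerivAt.mul hden
  have h3 : HasFDerivAt (fun Y => q + hz Y) (fderiv ℝ hz X) X := hd.hasFDerivAt.const_add q
  have h4 : (fun Y => Mz (hz Y) q * (1 + conj (hz Y) * q)) =ᶠ[𝓝 X] fun Y => q + hz Y := by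
    filter_upwards [isOpen_hU.mem_nhds hX] with Y hY
    rw [Mz, div_mul_cancel₀ _ (hne Y hY)]
  have h5 := (h2.congr_of_eventuallyEq h4.symm).unique h3
  have h6 := congrArg (fun F : (ℝ × ℂ) →L[ℝ] ℂ => F (betaX X c)) h5
  simp only [add_apply, smul_apply, ContinuousLinearMap.comp_apply, smul_eq_mul] at h6
  rw [HHS_fderiv_hz X hX] at h6
  have h7 : (Complex.conjCLE : ℂ →L[ℝ] ℂ) (((1 - Complex.normSq (hz X) : ℝ) : ℂ) * c / 2) =
      ((1 - Complex.normSq (hz X) : ℝ) : ℂ) * conj c / 2 := by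
    show conj (((1 - Complex.normSq (hz X) : ℝ) : ℂ) * c / 2) = _
    rw [map_div₀, map_mul, Complex.conj_ofReal, map_ofNat]
  rw [h7] at h6
  have hn := hne X hX
  have hM : Mz (hz X) q = (q + hz X) / (1 + conj (hz X) * q) := rfl
  rw [hM] at h6
  rw [dMz]
  generalize fderiv ℝ (fun Y => Mz (hz Y) q) X (betaX X c) = D at *
  generalize 1 + conj (hz X) * q = d at *
  generalize ((1 - Complex.normSq (hz X) : ℝ) : ℂ) = m at *
  field_simp at h6 ⊢
  linear_combination h6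

theorem HHS_rot (p : EH) (hp : p ∈ sphU hypM) :
    fderiv ℝ hP p (0, Complex.I * p.2.1, 0) =
      dMz (hz p.1) (hq p) * (2 * Complex.I * hq p) := by
  by_cases hy : p.2.1 = 0
  · have h1 : hq p = 0 := by
      rw [hq, hy]
      simp
    have h2 : ((0, Complex.I * p.2.1, 0) : EH) = 0 := by
      rw [hy, mul_zero]
      rfl
    rw [h2, map_zero, h1, mul_zero, mul_zero]
  · rw [fderiv_hP_rot p hp hy, hq_eq p hp hy]
    ring

theorem fderiv_hP_bN (p : EH) (hp : p ∈ sphU hypM) (c : ℂ) :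
    fderiv ℝ hP p (bN p c) =
      dMz (hz p.1) (hq p) * (c - hq p ^ 2 * conj c) / 2 := by
  have hX : p.1 ∈ hU := hp.1
  have hd : DifferentiableAt ℝ hP p :=
    (contDiffOn_hP.contDiffAt (ch9_nhds hp)).differentiableAt (by simp)
  have hsplit : bN p c = ContinuousLinearMap.inl ℝ (ℝ × ℂ) (ℂ × ℝ) (betaX p.1 c) +
      (-(hconn p.1 (betaX p.1 c))) • ((0, Complex.I * p.2.1, 0) : EH) := by
    refine Prod.ext ?_ (Prod.ext ?_ ?_)
    · simp [bN]
    · simp [bN]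
      ring
    · simp [bN]
  have h1 : fderiv ℝ hP p (ContinuousLinearMap.inl ℝ (ℝ × ℂ) (ℂ × ℝ) (betaX p.1 c)) =
      fderiv ℝ (fun Y => Mz (hz Y) (hq p)) p.1 (betaX p.1 c) := by
    have hι : HasFDerivAt (fun Y : ℝ × ℂ => ((Y, p.2) : EH))
        (ContinuousLinearMap.inl ℝ (ℝ × ℂ) (ℂ × ℝ)) p.1 := by
      have := (hasFDerivAt_id (𝕜 := ℝ) p.1).prodMk (hasFDerivAt_const p.2 p.1)
      exact this
    have h2 : HasFDerivAt (fun Y : ℝ × ℂ => hP ((Y, p.2) : EH))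
        (fderiv ℝ hP p ∘L ContinuousLinearMap.inl ℝ (ℝ × ℂ) (ℂ × ℝ)) p.1 :=
      HasFDerivAt.comp (g := hP) p.1 hd.hasFDerivAt hι
    have h3 : (fun Y : ℝ × ℂ => hP ((Y, p.2) : EH)) = fun Y => Mz (hz Y) (hq p) := rfl
    rw [h3] at h2
    rw [h2.fderiv]
    rfl
  rw [hsplit, map_add, map_smul, h1, HHS_rot p hp,
    HHS_Mz_hasFDeriv p.1 hX (hq p) (normSq_hq_le p hp), HHS_hconn_beta p.1 hX, Complex.real_smul]
  have h4 : (((conj (hz p.1) * c).im : ℝ) : ℂ) * (2 * Complex.I) =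
      conj (hz p.1) * c - hz p.1 * conj c := by
    have h5 := Complex.sub_conj (conj (hz p.1) * c)
    rw [map_mul, Complex.conj_conj] at h5
    rw [h5]
    push_cast
    ring
  push_cast
  linear_combination (-(dMz (hz p.1) (hq p) * hq p) / 2) * h4

/-! ## The lifts as linear maps -/

/-- `betaX X` as a linear map -/
noncomputable def HHS_betaL (X : ℝ × ℂ) : ℂ →L[ℝ] (ℝ × ℂ) :=
  ContinuousLinearMap.inl ℝ ℝ ℂ ∘L Complex.reCLM ∘L mulC (conj X.2) +
    ContinuousLinearMap.inr ℝ ℝ ℂ ∘L (mulC (((X.1 + hN X : ℝ) : ℂ) * 2⁻¹) +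
      mulC (X.2 ^ 2 * (((X.1 + hN X : ℝ) : ℂ))⁻¹ * 2⁻¹) ∘L (Complex.conjCLE : ℂ →L[ℝ] ℂ))

theorem HHS_betaL_apply (X : ℝ × ℂ) (c : ℂ) : HHS_betaL X c = betaX X c := by
  refine Prod.ext ?_ ?_
  · simp [HHS_betaL, betaX]
  · simp [HHS_betaL, betaX]
    ring

/-- `bN p` as a linear map -/
noncomputable def HHS_bL (p : EH) : ℂ →L[ℝ] EH :=
  ContinuousLinearMap.inl ℝ (ℝ × ℂ) (ℂ × ℝ) ∘L HHS_betaL p.1 +
    (ContinuousLinearMap.inr ℝ (ℝ × ℂ) (ℂ × ℝ) ∘L ContinuousLinearMap.inl ℝ ℂ ℝ) ∘L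
      mulC (-(Complex.I * p.2.1)) ∘L Complex.ofRealCLM ∘L hconn p.1 ∘L HHS_betaL p.1

theorem HHS_bL_apply (p : EH) (c : ℂ) : HHS_bL p c = bN p c := by
  refine Prod.ext ?_ (Prod.ext ?_ ?_)
  · simp [HHS_bL, bN, HHS_betaL_apply]
  · simp [HHS_bL, bN, HHS_betaL_apply]
    ring
  · simp [HHS_bL, bN]

theorem HHS_contDiff_mulC : ContDiff ℝ ∞ mulC := (ContinuousLinearMap.mul ℝ ℂ).contDiff

theorem HHS_contDiffOn_betaL : ContDiffOn ℝ ∞ HHS_betaL hU := by
  have hs : ContDiffOn ℝ ∞ (fun X : ℝ × ℂ => ((X.1 + hN X : ℝ) : ℂ)) hU :=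
    Complex.ofRealCLM.contDiff.comp_contDiffOn (contDiffOn_fst.add contDiffOn_hN)
  have hZ : ContDiffOn ℝ ∞ (fun X : ℝ × ℂ => X.2) hU := contDiffOn_snd
  have h1 : ContDiffOn ℝ ∞ (fun X : ℝ × ℂ => mulC (conj X.2)) hU :=
    HHS_contDiff_mulC.comp_contDiffOn (contDiff_cnj.comp_contDiffOn hZ)
  have h2 : ContDiffOn ℝ ∞ (fun X : ℝ × ℂ => mulC (((X.1 + hN X : ℝ) : ℂ) * 2⁻¹)) hU :=
    HHS_contDiff_mulC.comp_contDiffOn (hs.mul contDiffOn_const)
  have h3 : ContDiffOn ℝ ∞ (fun X : ℝ × ℂ =>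
      mulC (X.2 ^ 2 * (((X.1 + hN X : ℝ) : ℂ))⁻¹ * 2⁻¹)) hU :=
    HHS_contDiff_mulC.comp_contDiffOn (((hZ.pow 2).mul (hs.inv fun X hX => by
      exact_mod_cast (add_hN_pos X hX).ne')).mul contDiffOn_const)
  unfold HHS_betaL
  exact (contDiffOn_const.clm_comp (contDiffOn_const.clm_comp h1)).add
    (contDiffOn_const.clm_comp (h2.add (h3.clm_comp contDiffOn_const)))

theorem HHS_contDiffOn_bL : ContDiffOn ℝ ∞ HHS_bL (sphU hypM) := by
  have h1 : ContDiffOn ℝ ∞ (fun p : EH => HHS_betaL p.1) (sphU hypM) :=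
    HHS_contDiffOn_betaL.comp contDiff_pX.contDiffOn mapsTo_pX
  have h2 : ContDiffOn ℝ ∞ (fun p : EH => hconn p.1) (sphU hypM) :=
    contDiffOn_hconn.comp contDiff_pX.contDiffOn mapsTo_pX
  have h3 : ContDiffOn ℝ ∞ (fun p : EH => mulC (-(Complex.I * p.2.1))) (sphU hypM) :=
    HHS_contDiff_mulC.comp_contDiffOn ((contDiffOn_const.mul contDiff_py.contDiffOn).neg)
  unfold HHS_bL
  exact (contDiffOn_const.clm_comp h1).add (contDiffOn_const.clm_comp
    (h3.clm_comp (contDiffOn_const.clm_comp (h2.clm_comp h1))))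

/-! ## The splitting of a lift -/

/-- the splitting of a lift -/
noncomputable def HHS_s (f : EH → ℂ) (b : EH → (ℂ →L[ℝ] EH)) (p : EH) : ℂ →L[ℝ] EH :=
  b p ∘L (fderiv ℝ f p ∘L b p).inverse

theorem HHS_s_right (f : EH → ℂ) (b : EH → (ℂ →L[ℝ] EH)) (p : EH)
    (h : (fderiv ℝ f p ∘L b p).IsInvertible) :
    fderiv ℝ f p ∘L HHS_s f b p = ContinuousLinearMap.id ℝ ℂ := by
  obtain ⟨e, he⟩ := h
  rw [HHS_s, ← ContinuousLinearMap.comp_assoc, ← he, ContinuousLinearMap.inverse_equiv]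
  apply ContinuousLinearMap.ext
  intro v
  exact e.apply_symm_apply v

theorem HHS_s_smooth (f : EH → ℂ) (b : EH → (ℂ →L[ℝ] EH)) (D : Set EH) (hD : IsOpen D)
    (hf : ContDiffOn ℝ ∞ f D) (p : EH) (hp : p ∈ D) (hb : ContDiffAt ℝ ∞ b p)
    (h : (fderiv ℝ f p ∘L b p).IsInvertible) : ContDiffAt ℝ ∞ (HHS_s f b) p := by
  obtain ⟨e, he⟩ := h
  have h1 : ContDiffAt ℝ ∞ (fderiv ℝ f) p :=
    (hf.contDiffAt (hD.mem_nhds hp)).fderiv_right (by simp)
  have h2 : ContDiffAt ℝ ∞ (fun x => fderiv ℝ f x ∘L b x) p := h1.clm_comp hb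
  have h3 : ContDiffAt ℝ ∞ (ContinuousLinearMap.inverse : (ℂ →L[ℝ] ℂ) → (ℂ →L[ℝ] ℂ))
      (fderiv ℝ f p ∘L b p) := by
    rw [← he]
    exact contDiffAt_map_inverse e
  have h4 : ContDiffAt ℝ ∞ (fun x => (fderiv ℝ f x ∘L b x).inverse) p :=
    ContDiffAt.comp (g := (ContinuousLinearMap.inverse : (ℂ →L[ℝ] ℂ) → (ℂ →L[ℝ] ℂ)))
      (f := fun x => fderiv ℝ f x ∘L b x) p h3 h2
  exact hb.clm_comp h4

theorem HHS_s_equiv (f g : EH → ℂ) (b : EH → (ℂ →L[ℝ] EH)) (p p' : EH) (L : EH →L[ℝ] EH)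
    (N R : ℂ →L[ℝ] ℂ) (hN : N ∘L fderiv ℝ f p = fderiv ℝ g p' ∘L L)
    (hL : L ∘L b p = b p' ∘L R) (hf : (fderiv ℝ f p ∘L b p).IsInvertible)
    (hg : (fderiv ℝ g p' ∘L b p').IsInvertible) :
    HHS_s g b p' ∘L N = L ∘L HHS_s f b p := by
  obtain ⟨e, he⟩ := hf
  obtain ⟨e', he'⟩ := hg
  have h1 : ∀ v, N (e v) = e' (R v) := by
    intro v
    have a1 : e v = fderiv ℝ f p (b p v) := by
      have := congrArg (fun F : ℂ →L[ℝ] ℂ => F v) he
      exact this
    have a2 : e' (R v) = fderiv ℝ g p' (b p' (R v)) := by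
      have := congrArg (fun F : ℂ →L[ℝ] ℂ => F (R v)) he'
      exact this
    have a3 := congrArg (fun F : EH →L[ℝ] ℂ => F (b p v)) hN
    have a4 := congrArg (fun F : ℂ →L[ℝ] EH => F v) hL
    simp only [ContinuousLinearMap.comp_apply] at a3 a4
    rw [a1, a3, a4, a2]
  rw [HHS_s, HHS_s, ← he, ← he', ContinuousLinearMap.inverse_equiv,
    ContinuousLinearMap.inverse_equiv]
  apply ContinuousLinearMap.ext
  intro v
  show b p' (e'.symm (N v)) = L (b p (e.symm v))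
  have h2 := h1 (e.symm v)
  rw [e.apply_symm_apply] at h2
  rw [h2, e'.symm_apply_apply]
  have a4 := congrArg (fun F : ℂ →L[ℝ] EH => F (e.symm v)) hL
  exact a4.symm

/-! ## Invertibility -/

theorem HHS_inv_of_det (A : ℂ →L[ℝ] ℂ) (h : 0 < A.det) : A.IsInvertible :=
  ⟨A.toContinuousLinearEquivOfDetNeZero h.ne',
    A.coe_toContinuousLinearEquivOfDetNeZero h.ne'⟩

theorem HHS_inv_comp (A B : ℂ →L[ℝ] ℂ) (hA : A.IsInvertible) (hB : B.IsInvertible) :
    (A ∘L B).IsInvertible := by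
  obtain ⟨e, rfl⟩ := hA
  obtain ⟨e', rfl⟩ := hB
  exact ⟨e'.trans e, rfl⟩

theorem HHS_inv_hP (p : EH) (hp : p ∈ sphU hypM) (ht : p.2.2 ≠ 0) :
    (fderiv ℝ hP p ∘L HHS_bL p).IsInvertible := by
  have hX : p.1 ∈ hU := hp.1
  have hz1 := normSq_hz_lt p.1 hX
  have hq1 := normSq_hq_lt p hp ht
  have hd := dMz_ne_zero (hz p.1) (hq p) hz1 hq1.le
  obtain ⟨A, hA⟩ : ∃ A, A = fderiv ℝ hP p ∘L HHS_bL p := ⟨_, rfl⟩
  rw [← hA]
  have hinj : Function.Injective (A : ℂ →ₗ[ℝ] ℂ) := by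
    rw [← LinearMap.ker_eq_bot, LinearMap.ker_eq_bot']
    intro c hc
    have h1 : dMz (hz p.1) (hq p) * (c - hq p ^ 2 * conj c) / 2 = 0 := by
      rw [← fderiv_hP_bN p hp, ← HHS_bL_apply]
      have : A c = 0 := hc
      rw [hA] at this
      exact this
    have h2 : c - hq p ^ 2 * conj c = 0 := by
      rcases div_eq_zero_iff.1 h1 with h | h
      · rcases mul_eq_zero.1 h with h' | h'
        · exact absurd h' hd
        · exact h'
      · norm_num at h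
    have h3 : Complex.normSq c = Complex.normSq (hq p) ^ 2 * Complex.normSq c := by
      have h4 : c = hq p ^ 2 * conj c := sub_eq_zero.1 h2
      have h5 := congrArg Complex.normSq h4
      rw [map_mul, map_pow, Complex.normSq_conj] at h5
      exact h5
    have h6 : Complex.normSq (hq p) ^ 2 < 1 := by
      have h0 := Complex.normSq_nonneg (hq p)
      nlinarith
    have h7 : Complex.normSq c = 0 := by
      have h0 := Complex.normSq_nonneg c
      nlinarith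
    exact Complex.normSq_eq_zero.1 h7
  refine ⟨(LinearEquiv.ofInjectiveEndo (A : ℂ →ₗ[ℝ] ℂ) hinj).toContinuousLinearEquiv, ?_⟩
  apply ContinuousLinearMap.ext
  intro v
  rfl

theorem HHS_fderiv_germ (f g : EH → ℂ) (p : EH) (hf : DifferentiableAt ℝ f p)
    (b : ℂ →L[ℝ] EH) (hb : (fderiv ℝ f p ∘L b).IsInvertible)
    (h : ∃ γ : ℂ → ℂ, ContDiffAt ℝ ∞ γ (f p) ∧ 0 < (fderiv ℝ γ (f p)).det ∧
      ∀ᶠ y in 𝓝 p, γ (f y) = g y) : (fderiv ℝ g p ∘L b).IsInvertible := by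
  obtain ⟨γ, h1, h2, h3⟩ := h
  have h4 : DifferentiableAt ℝ γ (f p) := h1.differentiableAt (by simp)
  have h5 : HasFDerivAt (fun y => γ (f y)) (fderiv ℝ γ (f p) ∘L fderiv ℝ f p) p :=
    h4.hasFDerivAt.comp p hf.hasFDerivAt
  have h6 : fderiv ℝ g p = fderiv ℝ γ (f p) ∘L fderiv ℝ f p :=
    (h5.congr_of_eventuallyEq (h3.mono fun y hy => hy.symm)).fderiv
  rw [h6, ContinuousLinearMap.comp_assoc]
  exact HHS_inv_comp _ _ (HHS_inv_of_det _ h2) hb

theorem HHS_cfV : cf true Ch.V = fun q => conj (hP q) := by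
  funext q
  simp [cf]

theorem HHS_inv_V (p : EH) (hp : p ∈ sphU hypM) (b : ℂ →L[ℝ] EH)
    (hb : (fderiv ℝ hP p ∘L b).IsInvertible) :
    (fderiv ℝ (cf true Ch.V) p ∘L b).IsInvertible := by
  have hd : DifferentiableAt ℝ hP p :=
    (contDiffOn_hP.contDiffAt (ch9_nhds hp)).differentiableAt (by simp)
  have h5 : fderiv ℝ (fun q => Complex.conjCLE (hP q)) p =
      (Complex.conjCLE : ℂ →L[ℝ] ℂ) ∘L fderiv ℝ hP p :=
    ((Complex.conjCLE : ℂ →L[ℝ] ℂ).hasFDerivAt.comp p hd.hasFDerivAt).fderiv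
  have h6 : cf true Ch.V = fun q => Complex.conjCLE (hP q) := HHS_cfV
  rw [h6, h5, ContinuousLinearMap.comp_assoc]
  exact HHS_inv_comp _ _ ⟨Complex.conjCLE, rfl⟩ hb

theorem HHS_inv_N (c : Ch) (p : EH) (hp : p ∈ cdom true c) (ht : p.2.2 ≠ 0) :
    (fderiv ℝ (cf true c) p ∘L HHS_bL p).IsInvertible := by
  have hs : p ∈ sphU hypM := cdom_subset true c hp
  have hd : DifferentiableAt ℝ hP p :=
    (contDiffOn_hP.contDiffAt (ch9_nhds hs)).differentiableAt (by simp)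
  have h0 := HHS_inv_hP p hs ht
  cases c with
  | H => exact h0
  | V => exact HHS_inv_V p hs _ h0
  | M =>
    rcases lt_or_gt_of_ne ht with h | h
    · exact HHS_fderiv_germ hP (cf true Ch.M) p hd _ h0 (trans_HM true p hp h)
    · have hV : p ∈ cdom true Ch.V := ⟨hs, h⟩
      have hdV : DifferentiableAt ℝ (cf true Ch.V) p :=
        ((contDiffOn_cf true Ch.V).contDiffAt
          ((isOpen_cdom true Ch.V).mem_nhds hV)).differentiableAt (by simp)
      exact HHS_fderiv_germ (cf true Ch.V) (cf true Ch.M) p hdV _ (HHS_inv_V p hs _ h0)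
        (trans_VM true p hp h)

theorem HHS_inv_R (c : Ch) (p : EH) (hp : p ∈ cdom true c) (hy : p.2.1 ≠ 0) :
    (fderiv ℝ (cf true c) p ∘L bR true p).IsInvertible := by
  have hs : p ∈ sphU hypM := cdom_subset true c hp
  cases c with
  | H => exact HHS_inv_of_det _ (det_hP_bR_pos true p hs hy hp.2)
  | V => exact HHS_inv_of_det _ (det_V_bR_pos true p hs hy hp.2)
  | M => exact HHS_inv_of_det _ (det_fM_bR_pos true p hp)

/-! ## The combination -/

/-- the weight -/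
noncomputable def HHS_w (t : ℝ) : ℝ := chi t + chi (-t)

theorem HHS_w_zero (t : ℝ) (ht : |t| ≤ 1 / 8) : HHS_w t = 0 := by
  have h := abs_le.1 ht
  rw [HHS_w, chi_of_ge t (by linarith [h.1]), chi_of_ge (-t) (by linarith [h.2]), add_zero]

theorem HHS_w_one (t : ℝ) (ht : 1 / 4 ≤ |t|) : HHS_w t = 1 := by
  rcases le_abs.1 ht with h | h
  · rw [HHS_w, chi_of_ge t (by linarith), chi_of_le (-t) (by linarith), zero_add]
  · rw [HHS_w, chi_of_le t (by linarith), chi_of_ge (-t) (by linarith), add_zero]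

theorem HHS_w_smooth : ContDiff ℝ ∞ (fun p : EH => HHS_w p.2.2) :=
  (contDiff_chi.comp contDiff_pt).add (contDiff_chi.comp contDiff_pt.neg)

/-- the splitting -/
noncomputable def HHS_spl (i : CIdx) (p : EH) : ℂ →L[ℝ] EH :=
  (1 - HHS_w p.2.2) • HHS_s (cf true i.ch) (bR true) p +
    HHS_w p.2.2 • HHS_s (cf true i.ch) HHS_bL p

theorem HHS_zs (A : ℂ →L[ℝ] EH) : (0 : ℝ) • A = 0 := zero_smul ℝ A

theorem HHS_zs' (A : ℂ →L[ℝ] ℂ) : (0 : ℝ) • A = 0 := zero_smul ℝ A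

theorem HHS_y_zero (p : EH) (hp : p ∈ sphU hypM) (hy : p.2.1 = 0) : 1 / 2 < |p.2.2| := by
  rcases hp.2 with h | h
  · exact absurd hy h
  · exact h

theorem HHS_spl_smooth (i : CIdx) : ContDiffOn ℝ ∞ (HHS_spl i) (idom true i) := by
  intro p hp
  apply ContDiffAt.contDiffWithinAt
  have hc : p ∈ cdom true i.ch := hp.1
  have hs : p ∈ sphU hypM := cdom_subset true i.ch hc
  have hw := HHS_w_smooth.contDiffAt (x := p)
  have hR : p.2.1 ≠ 0 → ContDiffAt ℝ ∞ (HHS_s (cf true i.ch) (bR true)) p := fun hy =>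
    HHS_s_smooth _ _ _ (isOpen_cdom true i.ch) (contDiffOn_cf true i.ch) p hc
      (contDiffAt_bR true p hs hy) (HHS_inv_R i.ch p hc hy)
  have hNN : p.2.2 ≠ 0 → ContDiffAt ℝ ∞ (HHS_s (cf true i.ch) HHS_bL) p := fun ht =>
    HHS_s_smooth _ _ _ (isOpen_cdom true i.ch) (contDiffOn_cf true i.ch) p hc
      (HHS_contDiffOn_bL.contDiffAt (ch9_nhds hs)) (HHS_inv_N i.ch p hc ht)
  have hcont : Continuous (fun q : EH => |q.2.2|) := (continuous_snd.comp continuous_snd).abs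
  by_cases ht : p.2.2 = 0
  · have hy : p.2.1 ≠ 0 := ceq_sphU_y_ne hs ht
    refine (hR hy).congr_of_eventuallyEq ?_
    have h1 : ∀ᶠ q : EH in 𝓝 p, |q.2.2| < 1 / 8 := by
      apply hcont.continuousAt.eventually_lt_const
      show |p.2.2| < 1 / 8
      rw [ht, abs_zero]
      norm_num
    filter_upwards [h1] with q hq'
    rw [HHS_spl, HHS_w_zero _ hq'.le, sub_zero, one_smul, HHS_zs, add_zero]
  by_cases hy : p.2.1 = 0
  · refine (hNN ht).congr_of_eventuallyEq ?_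
    have h1 : ∀ᶠ q : EH in 𝓝 p, 1 / 4 < |q.2.2| := by
      apply hcont.continuousAt.eventually_const_lt
      have := HHS_y_zero p hs hy
      linarith
    filter_upwards [h1] with q hq'
    rw [HHS_spl, HHS_w_one _ hq'.le, sub_self, HHS_zs, one_smul, zero_add]
  · exact ((contDiffAt_const.sub hw).smul (hR hy)).add (hw.smul (hNN ht))

theorem exists_splitting_HH : ∃ s : CIdx → EH → (ℂ →L[ℝ] EH),
    (∀ i, ContDiffOn ℝ ∞ (s i) (idom true i)) ∧
    (∀ i, ∀ p ∈ idom true i, fderiv ℝ (cf true i.ch) p ∘L s i p = ContinuousLinearMap.id ℝ ℂ) ∧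
    (∀ i l j p, p ∈ idom true j → sphAct hypM hypL l p ∈ idom true i →
      s i (sphAct hypM hypL l p) ∘L (hypH true).normal i l j p =
        fderiv ℝ (sphAct hypM hypL l) p ∘L s j p) := by
  refine ⟨HHS_spl, HHS_spl_smooth, ?_, ?_⟩
  · intro i p hp
    have hc : p ∈ cdom true i.ch := hp.1
    have hs : p ∈ sphU hypM := cdom_subset true i.ch hc
    have h1 : (1 - HHS_w p.2.2) • (fderiv ℝ (cf true i.ch) p ∘L
        HHS_s (cf true i.ch) (bR true) p) =
        (1 - HHS_w p.2.2) • ContinuousLinearMap.id ℝ ℂ := by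
      by_cases hy : p.2.1 = 0
      · have := HHS_y_zero p hs hy
        rw [HHS_w_one _ (by linarith), sub_self, HHS_zs', HHS_zs']
      · rw [HHS_s_right _ _ _ (HHS_inv_R i.ch p hc hy)]
    have h2 : HHS_w p.2.2 • (fderiv ℝ (cf true i.ch) p ∘L HHS_s (cf true i.ch) HHS_bL p) =
        HHS_w p.2.2 • ContinuousLinearMap.id ℝ ℂ := by
      by_cases ht : p.2.2 = 0
      · rw [HHS_w_zero _ (by rw [ht, abs_zero]; norm_num), HHS_zs', HHS_zs']
      · rw [HHS_s_right _ _ _ (HHS_inv_N i.ch p hc ht)]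
    rw [HHS_spl, ContinuousLinearMap.comp_add, ContinuousLinearMap.comp_smul,
      ContinuousLinearMap.comp_smul, h1, h2, ← add_smul, sub_add_cancel, one_smul]
  · intro i l j p hjd hi
    have hcj : p ∈ cdom true j.ch := hjd.1
    have hci : sphAct hypM hypL l p ∈ cdom true i.ch := hi.1
    have hs : p ∈ sphU hypM := cdom_subset true j.ch hcj
    have hX : p.1 ∈ hU := hs.1
    have hnc : (hypH true).normal i l j p ∘L fderiv ℝ (cf true j.ch) p =
        fderiv ℝ (cf true i.ch) (sphAct hypM hypL l p) ∘L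
          fderiv ℝ (sphAct hypM hypL l) p := normal_comp (hypH true) i l j p hjd hi
    have hact1 : (sphAct hypM hypL l p).2.2 = p.2.2 := rfl
    have h1 : (1 - HHS_w p.2.2) • (HHS_s (cf true i.ch) (bR true) (sphAct hypM hypL l p) ∘L
        (hypH true).normal i l j p) =
        (1 - HHS_w p.2.2) • (fderiv ℝ (sphAct hypM hypL l) p ∘L
          HHS_s (cf true j.ch) (bR true) p) := by
      by_cases hy : p.2.1 = 0
      · have := HHS_y_zero p hs hy
        rw [HHS_w_one _ (by linarith), sub_self, HHS_zs, HHS_zs]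
      · have hy' : (sphAct hypM hypL l p).2.1 ≠ 0 :=
          mul_ne_zero (J_ne_zero hypM hypL l p.1 hX) hy
        rw [HHS_s_equiv (cf true j.ch) (cf true i.ch) (bR true) p (sphAct hypM hypL l p)
          (fderiv ℝ (sphAct hypM hypL l) p) ((hypH true).normal i l j p)
          (ContinuousLinearMap.id ℝ ℂ) hnc
          (by rw [bR_act true l p hs, ContinuousLinearMap.comp_id])
          (HHS_inv_R j.ch p hcj hy) (HHS_inv_R i.ch _ hci hy')]
    have h2 : HHS_w p.2.2 • (HHS_s (cf true i.ch) HHS_bL (sphAct hypM hypL l p) ∘L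
        (hypH true).normal i l j p) =
        HHS_w p.2.2 • (fderiv ℝ (sphAct hypM hypL l) p ∘L HHS_s (cf true j.ch) HHS_bL p) := by
      by_cases ht : p.2.2 = 0
      · rw [HHS_w_zero _ (by rw [ht, abs_zero]; norm_num), HHS_zs, HHS_zs]
      · have hL : fderiv ℝ (sphAct hypM hypL l) p ∘L HHS_bL p =
            HHS_bL (sphAct hypM hypL l p) ∘L mulC (hj (gel l) p.1 ^ 2) := by
          apply ContinuousLinearMap.ext
          intro v
          rw [ContinuousLinearMap.comp_apply, ContinuousLinearMap.comp_apply, mulC_apply,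
            HHS_bL_apply, HHS_bL_apply, bN_act l p hs]
        rw [HHS_s_equiv (cf true j.ch) (cf true i.ch) HHS_bL p (sphAct hypM hypL l p)
          (fderiv ℝ (sphAct hypM hypL l) p) ((hypH true).normal i l j p)
          (mulC (hj (gel l) p.1 ^ 2)) hnc hL
          (HHS_inv_N j.ch p hcj ht) (HHS_inv_N i.ch _ hci ht)]
    rw [HHS_spl, HHS_spl, hact1, ContinuousLinearMap.add_comp, ContinuousLinearMap.smul_comp,
      ContinuousLinearMap.smul_comp, h1, h2, ContinuousLinearMap.comp_add,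
      ContinuousLinearMap.comp_smul, ContinuousLinearMap.comp_smul]

end Pool.Agent.HAF2
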