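import Pool.Agent.HAF2.VH
import Pool.Agent.HAF2.HHLine
import Pool.Agent.HAF2.HHSpl

/-!
# Module HHB: the block HH

Base: `sphBase hypBase 2 2 1 1 sphCond_two` (exponent `1`, `b' = 1`, line bundle `J ^ 2`);
`H = hypH true`, frames `efr true`, `φ i = phiHH i.ch`, splitting `exists_splitting_HH`.
-/

namespace Pool.Agent.HAF2

open Filter Topology MeasureTheory
open scoped ContDiff ComplexConjugate

/-- the block HH, with the exponents of the suspension -/
noncomputable def hhBlk :
    Block (Option Empty) Empty 2 (optExp (fun _ : Empty => 0) 1) 1 where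
  toBase := sphBase hypBase 2 2 1 1 sphCond_two
  V := ℂ
  H := hypH true
  b0 := fun i : CIdx => ((), i.pt)
  dom_b0 := fun i p hp => ⟨(cdom_subset true i.ch hp.1).1, hp.2⟩
  o := oneTV
  frame := fun i p => efr true i p ∘L (oneTV : TV (Option Empty) Empty →L[ℝ] ℂ)
  smooth_frame := fun i => (contDiffOn_efr true i).clm_comp contDiffOn_const
  orient_frame := by
    intro i p hp
    have h1 : ((oneTV.symm : ℂ →L[ℝ] TV (Option Empty) Empty) ∘L
        (efr true i p ∘L (oneTV : TV (Option Empty) Empty →L[ℝ] ℂ))).det = (efr true i p).det :=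
      LinearMap.det_conj (efr true i p : ℂ →ₗ[ℝ] ℂ) oneTV.symm.toLinearEquiv
    rw [h1]
    exact det_efr_pos true i p hp
  frame_rot := by
    intro i l j p hj hi
    have h1 := efr_rot true i l j p hj hi
    have h2 : (oneTV : TV (Option Empty) Empty →L[ℝ] ℂ) ∘L
        rotT ((sphBase hypBase 2 2 1 1 sphCond_two).ρ ((), i.pt) l ((), j.pt) p) =
        mulC (rhoS hypL (kN true) i.pt l j.pt p) ∘L
          (oneTV : TV (Option Empty) Empty →L[ℝ] ℂ) := ContinuousLinearMap.ext fun v => rfl
    rw [ContinuousLinearMap.comp_assoc, h2, ← ContinuousLinearMap.comp_assoc,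
      ← ContinuousLinearMap.comp_assoc]
    exact congrArg (· ∘L (oneTV : TV (Option Empty) Empty →L[ℝ] ℂ)) h1
  φ := fun i => phiHH i.ch
  smooth_φ := fun i => (contDiffOn_phiHH i.ch).mono Set.inter_subset_left
  norm_φ := fun i p hp => norm_phiHH i.ch p hp.1
  leafwise := fun i l j p hj hi => leafwise_HH i.ch l j.ch p hj.1 hi.1

theorem hh_block : ∃ D : Block (Option Empty) Empty 2 (fun _ => 1) 1, D.Splits := by
  have key : ∃ D : Block (Option Empty) Empty 2 (optExp (fun _ : Empty => 0) 1) 1, D.Splits :=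
    ⟨hhBlk, exists_splitting_HH⟩
  have hα : optExp (fun _ : Empty => 0) 1 = fun _ => 1 := by
    funext o
    cases o with
    | none => rfl
    | some e => exact e.elim
  rw [hα] at key
  exact key

end Pool.Agent.HAF2
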