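import Pool.Agent.HAF2.HypM

/-!
# Module HYL: the tautological line bundle of the hyperbolic manifold

Let `N = hN X`, `T' = (hact g X).1`.
* `normSq_hjn`: `‖a (T + N) + b conj Z‖^2 = (T' + N) (T + N)` (expand; uses
  `N^2 = T^2 - ‖Z‖^2` and `‖a‖^2 - ‖b‖^2 = 1`).
* `hA_hact`: numerator identity
  `a ((T + N) y + Z conj y) + b conj (...) = (a (T + N) + b conj Z) y + (a Z + b (T + N)) conj y` and
  `(a Z + b (T + N)) * hjn g X = Z' (T + N)` (expand).
* the cocycle property follows from `hA_hact` and injectivity of `hA X`.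
* compatibility: `D j (u) = I j (im (conj (hjn) D hjn (u)) / normSq hjn)` and
  `2 N im (conj (hjn) D (hjn) u) = im (conj Z u.2) (T' + N) - im (conj Z' (hact g u).2) (T + N)`,
  where `D N (u) = (T u.1 - re (conj Z u.2)) / N`.
* the curvature: differentiate the explicit formula.
-/

namespace Pool.Agent.HAF2

open Filter Topology MeasureTheory
open scoped ContDiff ComplexConjugate
open Pool.Agent.HaefligerClasses (QuotientManifold IsForm HaefligerStructure curvature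
  torusElement)

theorem normSq_hjn (g : SU11) (X : ℝ × ℂ) (hX : X ∈ hU) :
    Complex.normSq (hjn g X) = ((hact g X).1 + hN X) * (X.1 + hN X) := by
  have h1 := hN_sq X hX
  have h2 := g.norm_eq
  simp only [Complex.normSq_apply] at h1 h2
  simp only [hjn, hact, Complex.normSq_apply, Complex.add_re, Complex.add_im, Complex.mul_re,
    Complex.mul_im, Complex.ofReal_re, Complex.ofReal_im, Complex.conj_re, Complex.conj_im]
  linear_combination (hN X * (X.1 + hN X)) * h2 + (g.b.re * g.b.re + g.b.im * g.b.im) * h1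

theorem hjn_ne_zero (g : SU11) (X : ℝ × ℂ) (hX : X ∈ hU) : hjn g X ≠ 0 := by
  intro h
  have h1 := normSq_hjn g X hX
  rw [h, map_zero] at h1
  have h2 := add_hN_pos X hX
  have h3 := add_hN_pos (hact g X) (hact_mem g X hX)
  rw [hN_hact] at h3
  have := mul_pos h3 h2
  linarith

theorem norm_hj (g : SU11) (X : ℝ × ℂ) (hX : X ∈ hU) : ‖hj g X‖ = 1 := by
  have h := norm_ne_zero_iff.mpr (hjn_ne_zero g X hX)
  rw [hj, norm_div, Complex.norm_real, norm_norm, div_self h]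

/-- numerator identity -/
theorem hyl_hjn_key (g : SU11) (X : ℝ × ℂ) (hX : X ∈ hU) :
    (g.a * X.2 + g.b * ((X.1 + hN X : ℝ) : ℂ)) * hjn g X =
      (hact g X).2 * ((X.1 + hN X : ℝ) : ℂ) := by
  have h1 := hN_sq X hX
  have h1' : ((hN X : ℝ) : ℂ) ^ 2 = (X.1 : ℂ) ^ 2 - X.2 * conj X.2 := by
    rw [Complex.mul_conj]
    exact_mod_cast h1
  simp only [hjn, hact]
  push_cast
  linear_combination (g.a * g.b) * h1'

theorem hyl_norm_hjn (g : SU11) (X : ℝ × ℂ) (hX : X ∈ hU) :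
    ‖hjn g X‖ = Real.sqrt ((hact g X).1 + hN X) * Real.sqrt (X.1 + hN X) := by
  have h3 := add_hN_pos (hact g X) (hact_mem g X hX)
  rw [hN_hact] at h3
  rw [Complex.norm_def, normSq_hjn g X hX, Real.sqrt_mul h3.le]

theorem hA_hact (g : SU11) (X : ℝ × ℂ) (hX : X ∈ hU) (y : ℂ) :
    hA (hact g X) (hj g X * y) = hvact g (hA X y) := by
  have hN0 := hN_pos X hX
  have h2 := add_hN_pos X hX
  have h3 := add_hN_pos (hact g X) (hact_mem g X hX)
  rw [hN_hact] at h3
  have hkey := hyl_hjn_key g X hX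
  have hns := normSq_hjn g X hX
  have hnorm := hyl_norm_hjn g X hX
  have hne := hjn_ne_zero g X hX
  have hmc : hjn g X * conj (hjn g X) =
      (((hact g X).1 + hN X : ℝ) : ℂ) * ((X.1 + hN X : ℝ) : ℂ) := by
    rw [Complex.mul_conj, hns]
    push_cast
    ring
  have hkey2 : (hact g X).2 * conj (hjn g X) =
      (g.a * X.2 + g.b * ((X.1 + hN X : ℝ) : ℂ)) * (((hact g X).1 + hN X : ℝ) : ℂ) := by
    have h2' : ((X.1 + hN X : ℝ) : ℂ) ≠ 0 := by exact_mod_cast h2.ne'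
    apply mul_right_cancel₀ h2'
    apply mul_right_cancel₀ hne
    linear_combination (-conj (hjn g X) * hjn g X) * hkey +
      (g.a * X.2 + g.b * ((X.1 + hN X : ℝ) : ℂ)) * hjn g X * hmc
  set s := Real.sqrt (X.1 + hN X) with hs
  set s' := Real.sqrt ((hact g X).1 + hN X) with hs'
  set m := Real.sqrt (2 * hN X) with hm
  have hs0 : 0 < s := Real.sqrt_pos.mpr h2
  have hs'0 : 0 < s' := Real.sqrt_pos.mpr h3
  have hm0 : 0 < m := Real.sqrt_pos.mpr (by positivity)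
  have hss : s ^ 2 = X.1 + hN X := Real.sq_sqrt h2.le
  have hss' : s' ^ 2 = (hact g X).1 + hN X := Real.sq_sqrt h3.le
  have e1 : Real.sqrt (2 * hN X * (X.1 + hN X)) = m * s := Real.sqrt_mul (by positivity) _
  have e2 : Real.sqrt (2 * hN X * ((hact g X).1 + hN X)) = m * s' :=
    Real.sqrt_mul (by positivity) _
  have hs0c : (s : ℂ) ≠ 0 := by exact_mod_cast hs0.ne'
  have hs'0c : (s' : ℂ) ≠ 0 := by exact_mod_cast hs'0.ne'
  have hm0c : (m : ℂ) ≠ 0 := by exact_mod_cast hm0.ne'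
  have hssc : (s : ℂ) ^ 2 = ((X.1 + hN X : ℝ) : ℂ) := by exact_mod_cast hss
  have hssc' : (s' : ℂ) ^ 2 = (((hact g X).1 + hN X : ℝ) : ℂ) := by exact_mod_cast hss'
  have hjn_def : hjn g X = g.a * ((X.1 + hN X : ℝ) : ℂ) + g.b * conj X.2 := rfl
  rw [hvact, hA, hA, hN_hact, e1, e2, hj, hnorm]
  simp only [map_mul, map_div₀, map_add, Complex.conj_ofReal, Complex.conj_conj]
  rw [← hssc] at hkey2 hmc hjn_def ⊢
  rw [← hssc'] at hkey2 hmc ⊢
  push_cast
  have hx : (hact g X).2 * (conj (hjn g X) / (↑s' * ↑s) * conj y) =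
      (g.a * X.2 + g.b * (s : ℂ) ^ 2) * (s' : ℂ) ^ 2 / (↑s' * ↑s) * conj y := by
    rw [← hkey2]
    ring
  rw [hx, hjn_def]
  field_simp
  ring

theorem hA_injective (X : ℝ × ℂ) (hX : X ∈ hU) : Function.Injective (hA X) := by
  have hN0 := hN_pos X hX
  have h2 := add_hN_pos X hX
  have hq : 0 < Real.sqrt (2 * hN X * (X.1 + hN X)) := Real.sqrt_pos.mpr (by positivity)
  have hqc : ((Real.sqrt (2 * hN X * (X.1 + hN X)) : ℝ) : ℂ) ≠ 0 := by exact_mod_cast hq.ne'
  intro y z hyz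
  simp only [hA] at hyz
  rw [div_left_inj' hqc] at hyz
  have h : ((X.1 + hN X : ℝ) : ℂ) * (y - z) = -(X.2 * conj (y - z)) := by
    rw [map_sub]
    linear_combination hyz
  have h3 := congrArg norm h
  rw [norm_neg, norm_mul, norm_mul, Complex.norm_conj, Complex.norm_real,
    Real.norm_of_nonneg h2.le] at h3
  by_contra hne
  have h4 : 0 < ‖y - z‖ := norm_pos_iff.mpr (sub_ne_zero.mpr hne)
  have h5 := mul_right_cancel₀ h4.ne' h3
  have h6 : ‖X.2‖ < X.1 := hX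
  linarith

theorem hyl_hvact_mul (g h : SU11) (v : ℂ) : hvact (g * h) v = hvact g (hvact h v) := by
  simp only [hvact, mul_a, mul_b, map_add, map_mul, Complex.conj_conj]
  ring

theorem hj_mul (g h : SU11) (X : ℝ × ℂ) (hX : X ∈ hU) :
    hj (g * h) X = hj g (hact h X) * hj h X := by
  have hh := hact_mem h X hX
  apply hA_injective (hact g (hact h X)) (hact_mem g _ hh)
  have h1 := hA_hact (g * h) X hX 1
  have h2 := hA_hact h X hX 1
  have h3 := hA_hact g (hact h X) hh (hj h X)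
  rw [mul_one] at h1 h2
  rw [h3, h2, ← hyl_hvact_mul, ← h1, hact_mul]

theorem hyl_contDiffOn_hjn (g : SU11) : ContDiffOn ℝ ∞ (hjn g) hU := by
  unfold hjn
  have h1 : ContDiffOn ℝ ∞ (fun X : ℝ × ℂ => ((X.1 + hN X : ℝ) : ℂ)) hU :=
    Complex.ofRealCLM.contDiff.comp_contDiffOn (contDiffOn_fst.add contDiffOn_hN)
  have h2 : ContDiffOn ℝ ∞ (fun X : ℝ × ℂ => conj X.2) hU :=
    Complex.conjCLE.contDiff.comp_contDiffOn contDiffOn_snd
  exact (contDiffOn_const.mul h1).add (contDiffOn_const.mul h2)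

theorem contDiffOn_hj (g : SU11) : ContDiffOn ℝ ∞ (hj g) hU := by
  have h1 := hyl_contDiffOn_hjn g
  have h2 : ContDiffOn ℝ ∞ (fun X => ‖hjn g X‖) hU := h1.norm ℝ (fun X hX => hjn_ne_zero g X hX)
  have h3 : ContDiffOn ℝ ∞ (fun X => ((‖hjn g X‖ : ℝ) : ℂ)) hU :=
    Complex.ofRealCLM.contDiff.comp_contDiffOn h2
  have h4 := h3.inv (fun X hX => by exact_mod_cast norm_ne_zero_iff.mpr (hjn_ne_zero g X hX))
  exact (h1.mul h4).congr (fun X _ => by rw [hj, div_eq_mul_inv]; rfl)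

theorem hyl_contDiffOn_hscal : ContDiffOn ℝ ∞ (fun X : ℝ × ℂ => 1 / (2 * hN X * (X.1 + hN X))) hU := by
  refine contDiffOn_const.div ((contDiffOn_const.mul contDiffOn_hN).mul
    (contDiffOn_fst.add contDiffOn_hN)) (fun X hX => ?_)
  have hN0 := hN_pos X hX
  have h2 := add_hN_pos X hX
  positivity

/-- the linear part of the connection form -/
noncomputable def hyl_hlin : (ℝ × ℂ) →L[ℝ] ((ℝ × ℂ) →L[ℝ] ℝ) :=
  (ContinuousLinearMap.compL ℝ (ℝ × ℂ) ℂ ℝ Complex.imCLM) ∘L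
    ((ContinuousLinearMap.compL ℝ (ℝ × ℂ) ℂ ℂ).flip (ContinuousLinearMap.snd ℝ ℝ ℂ)) ∘L
    (ContinuousLinearMap.mul ℝ ℂ) ∘L (Complex.conjCLE : ℂ →L[ℝ] ℂ) ∘L
    (ContinuousLinearMap.snd ℝ ℝ ℂ)

theorem hyl_hlin_apply (X u : ℝ × ℂ) : hyl_hlin X u = (conj X.2 * u.2).im := rfl

theorem hyl_hconn_eq (X : ℝ × ℂ) : hconn X = (1 / (2 * hN X * (X.1 + hN X))) • hyl_hlin X := rfl

theorem contDiffOn_hconn : ContDiffOn ℝ ∞ hconn hU :=
  hyl_contDiffOn_hscal.smul hyl_hlin.contDiff.contDiffOn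

theorem hyl_differentiableAt_hN (X : ℝ × ℂ) (hX : X ∈ hU) : DifferentiableAt ℝ hN X :=
  (contDiffOn_hN.contDiffAt (isOpen_hU.mem_nhds hX)).differentiableAt (by simp)

theorem hyl_fderiv_hN (X : ℝ × ℂ) (hX : X ∈ hU) (u : ℝ × ℂ) :
    fderiv ℝ hN X u = (X.1 * u.1 - (conj X.2 * u.2).re) / hN X := by
  have hd := hyl_differentiableAt_hN X hX
  have hN0 := hN_pos X hX
  have h1 : HasFDerivAt (fun Y => hN Y ^ 2) ((2 * hN X) • fderiv ℝ hN X) X := by
    have := hd.hasFDerivAt.pow 2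
    simpa using this
  have h2 : HasFDerivAt (fun Y : ℝ × ℂ => Y.1 ^ 2 - Complex.normSq Y.2)
      ((2 * X.1) • ContinuousLinearMap.fst ℝ ℝ ℂ -
        ((2 * X.2.re) • (Complex.reCLM ∘L ContinuousLinearMap.snd ℝ ℝ ℂ) +
          (2 * X.2.im) • (Complex.imCLM ∘L ContinuousLinearMap.snd ℝ ℝ ℂ))) X := by
    have ha : HasFDerivAt (fun Y : ℝ × ℂ => Y.1 ^ 2)
        ((2 * X.1) • ContinuousLinearMap.fst ℝ ℝ ℂ) X := by
      have := (ContinuousLinearMap.fst ℝ ℝ ℂ).hasFDerivAt (x := X) |>.pow 2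
      simpa using this
    have hb : HasFDerivAt (fun Y : ℝ × ℂ => Y.2.re ^ 2)
        ((2 * X.2.re) • (Complex.reCLM ∘L ContinuousLinearMap.snd ℝ ℝ ℂ)) X := by
      have := (Complex.reCLM ∘L ContinuousLinearMap.snd ℝ ℝ ℂ).hasFDerivAt (x := X) |>.pow 2
      simpa using this
    have hc : HasFDerivAt (fun Y : ℝ × ℂ => Y.2.im ^ 2)
        ((2 * X.2.im) • (Complex.imCLM ∘L ContinuousLinearMap.snd ℝ ℝ ℂ)) X := by
      have := (Complex.imCLM ∘L ContinuousLinearMap.snd ℝ ℝ ℂ).hasFDerivAt (x := X) |>.pow 2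
      simpa using this
    refine (ha.sub (hb.add hc)).congr_of_eventuallyEq (Eventually.of_forall fun Y => ?_)
    simp only [Complex.normSq_apply, Pi.sub_apply, Pi.add_apply]
    ring
  have h3 : (fun Y => hN Y ^ 2) =ᶠ[𝓝 X] (fun Y : ℝ × ℂ => Y.1 ^ 2 - Complex.normSq Y.2) := by
    filter_upwards [isOpen_hU.mem_nhds hX] with Y hY using hN_sq Y hY
  have h4 := (h1.congr_of_eventuallyEq h3.symm).unique h2
  have h5 := congrArg (fun F : (ℝ × ℂ) →L[ℝ] ℝ => F u) h4
  simp only [smul_apply, sub_apply,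
    add_apply, ContinuousLinearMap.comp_apply, smul_eq_mul,
    ContinuousLinearMap.coe_fst', ContinuousLinearMap.coe_snd', Complex.reCLM_apply,
    Complex.imCLM_apply] at h5
  rw [eq_div_iff hN0.ne']
  simp only [Complex.mul_re, Complex.conj_re, Complex.conj_im]
  linear_combination h5 / 2

theorem hyl_fderiv_hjn (g : SU11) (X : ℝ × ℂ) (hX : X ∈ hU) (u : ℝ × ℂ) :
    fderiv ℝ (hjn g) X u =
      g.a * ((u.1 + (X.1 * u.1 - (conj X.2 * u.2).re) / hN X : ℝ) : ℂ) + g.b * conj u.2 := by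
  have hd := (hyl_differentiableAt_hN X hX).hasFDerivAt
  have h1 : HasFDerivAt (fun Y : ℝ × ℂ => ((Y.1 + hN Y : ℝ) : ℂ))
      (Complex.ofRealCLM ∘L (ContinuousLinearMap.fst ℝ ℝ ℂ + fderiv ℝ hN X)) X :=
    Complex.ofRealCLM.hasFDerivAt.comp X
      ((ContinuousLinearMap.fst ℝ ℝ ℂ).hasFDerivAt.add hd)
  have h2 : HasFDerivAt (fun Y : ℝ × ℂ => conj Y.2)
      ((Complex.conjCLE : ℂ →L[ℝ] ℂ) ∘L ContinuousLinearMap.snd ℝ ℝ ℂ) X :=
    ((Complex.conjCLE : ℂ →L[ℝ] ℂ) ∘L ContinuousLinearMap.snd ℝ ℝ ℂ).hasFDerivAt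
  have h3 : HasFDerivAt (hjn g)
      (g.a • (Complex.ofRealCLM ∘L (ContinuousLinearMap.fst ℝ ℝ ℂ + fderiv ℝ hN X)) +
        g.b • ((Complex.conjCLE : ℂ →L[ℝ] ℂ) ∘L ContinuousLinearMap.snd ℝ ℝ ℂ)) X :=
    (h1.const_mul g.a).add (h2.const_mul g.b)
  rw [h3.fderiv]
  simp only [add_apply, smul_apply,
    ContinuousLinearMap.comp_apply, smul_eq_mul, ContinuousLinearMap.coe_fst',
    ContinuousLinearMap.coe_snd', Complex.ofRealCLM_apply, hyl_fderiv_hN X hX]
  rfl

/-- the derivative of the direction of a complex valued function -/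
theorem hyl_fderiv_dir {E : Type} [NormedAddCommGroup E] [NormedSpace ℝ E] (f : E → ℂ) (X : E)
    (hf : DifferentiableAt ℝ f X) (h0 : f X ≠ 0) (u : E) :
    fderiv ℝ (fun Y => f Y / (‖f Y‖ : ℂ)) X u =
      Complex.I * (f X / (‖f X‖ : ℂ)) *
        (((conj (f X) * fderiv ℝ f X u).im / Complex.normSq (f X) : ℝ) : ℂ) := by
  have hn0 : ‖f X‖ ≠ 0 := norm_ne_zero_iff.mpr h0
  have hn0c : (‖f X‖ : ℂ) ≠ 0 := by exact_mod_cast hn0
  have hdn : DifferentiableAt ℝ (fun Y => ‖f Y‖) X := hf.norm ℝ h0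
  have h1 : HasFDerivAt (fun Y => ‖f Y‖ ^ 2) ((2 * ‖f X‖) • fderiv ℝ (fun Y => ‖f Y‖) X) X := by
    have := hdn.hasFDerivAt.pow 2
    simpa using this
  have h2 : HasFDerivAt (fun Y => ‖f Y‖ ^ 2)
      ((2 * (f X).re) • (Complex.reCLM ∘L fderiv ℝ f X) +
          (2 * (f X).im) • (Complex.imCLM ∘L fderiv ℝ f X)) X := by
    have hb : HasFDerivAt (fun Y => (f Y).re ^ 2)
        ((2 * (f X).re) • (Complex.reCLM ∘L fderiv ℝ f X)) X := by
      have := (Complex.reCLM.hasFDerivAt.comp X hf.hasFDerivAt).pow 2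
      simpa using this
    have hc : HasFDerivAt (fun Y => (f Y).im ^ 2)
        ((2 * (f X).im) • (Complex.imCLM ∘L fderiv ℝ f X)) X := by
      have := (Complex.imCLM.hasFDerivAt.comp X hf.hasFDerivAt).pow 2
      simpa using this
    refine (hb.add hc).congr_of_eventuallyEq (Eventually.of_forall fun Y => ?_)
    simp only [← Complex.normSq_eq_norm_sq, Complex.normSq_apply, Pi.add_apply]
    ring
  have h4 := h1.unique h2
  have h5 := congrArg (fun F : E →L[ℝ] ℝ => F u) h4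
  simp only [smul_apply,
    add_apply, ContinuousLinearMap.comp_apply, smul_eq_mul,
    Complex.reCLM_apply, Complex.imCLM_apply] at h5
  have h6 : HasFDerivAt (fun Y => (‖f Y‖ : ℂ))
      (Complex.ofRealCLM ∘L fderiv ℝ (fun Y => ‖f Y‖) X) X :=
    Complex.ofRealCLM.hasFDerivAt.comp X hdn.hasFDerivAt
  have hq : DifferentiableAt ℝ (fun Y => f Y / (‖f Y‖ : ℂ)) X := by
    simp only [div_eq_mul_inv]
    exact hf.fun_mul (h6.differentiableAt.fun_inv hn0c)
  have h7 : HasFDerivAt (fun Y => (f Y / (‖f Y‖ : ℂ)) * (‖f Y‖ : ℂ))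
      ((f X / (‖f X‖ : ℂ)) • (Complex.ofRealCLM ∘L fderiv ℝ (fun Y => ‖f Y‖) X) +
        (‖f X‖ : ℂ) • fderiv ℝ (fun Y => f Y / (‖f Y‖ : ℂ)) X) X :=
    hq.hasFDerivAt.mul h6
  have h8 : (fun Y => (f Y / (‖f Y‖ : ℂ)) * (‖f Y‖ : ℂ)) =ᶠ[𝓝 X] f := by
    filter_upwards [hf.continuousAt.eventually_ne h0] with Y hY
    have : (‖f Y‖ : ℂ) ≠ 0 := by exact_mod_cast norm_ne_zero_iff.mpr hY
    field_simp
  have h9 := (h7.congr_of_eventuallyEq h8.symm).unique hf.hasFDerivAt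
  have h10 := congrArg (fun F : E →L[ℝ] ℂ => F u) h9
  simp only [smul_apply,
    add_apply, ContinuousLinearMap.comp_apply, smul_eq_mul,
    Complex.ofRealCLM_apply] at h10
  set D := fderiv ℝ (fun Y => f Y / (‖f Y‖ : ℂ)) X u
  set d := fderiv ℝ f X u
  set m := fderiv ℝ (fun Y => ‖f Y‖) X u
  set n := ‖f X‖
  have hnn : n ^ 2 = (f X).re * (f X).re + (f X).im * (f X).im := by
    rw [← Complex.normSq_apply, Complex.normSq_eq_norm_sq]
  have hnc : (n : ℂ) ^ 2 = f X * conj (f X) := by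
    rw [Complex.mul_conj, Complex.normSq_eq_norm_sq]
    push_cast
    rfl
  have hm : (m : ℂ) = (((conj (f X) * d).re / n : ℝ) : ℂ) := by
    congr 1
    rw [eq_div_iff hn0]
    simp only [Complex.mul_re, Complex.conj_re, Complex.conj_im]
    linear_combination h5 / 2
  have hdd : conj (f X) * d = (((conj (f X) * d).re : ℝ) : ℂ) +
      Complex.I * (((conj (f X) * d).im : ℝ) : ℂ) := by
    rw [mul_comm Complex.I]
    exact (Complex.re_add_im _).symm
  have hD : (n : ℂ) * D = d - (f X / n) * m := by linear_combination h10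
  apply mul_left_cancel₀ hn0c
  rw [hD, hm, Complex.normSq_eq_norm_sq]
  push_cast
  have hconj : conj (f X) ≠ 0 := by
    rwa [Ne, map_eq_zero]
  apply mul_left_cancel₀ hconj
  change conj (f X) * (d - f X / n * (((conj (f X) * d).re : ℝ) / (n : ℂ))) =
    conj (f X) * ((n : ℂ) * (Complex.I * (f X / n) * ((((conj (f X) * d).im : ℝ) : ℂ) / (n : ℂ) ^ 2)))
  have hA' : conj (f X) * (d - f X / n * (((conj (f X) * d).re : ℝ) / (n : ℂ))) =
      conj (f X) * d - (f X * conj (f X)) / (n : ℂ) ^ 2 * (((conj (f X) * d).re : ℝ) : ℂ) := by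
    field_simp
  have hB' : conj (f X) * ((n : ℂ) * (Complex.I * (f X / n) *
      ((((conj (f X) * d).im : ℝ) : ℂ) / (n : ℂ) ^ 2))) =
      (f X * conj (f X)) / (n : ℂ) ^ 2 * (Complex.I * (((conj (f X) * d).im : ℝ) : ℂ)) := by
    field_simp
  rw [hA', hB', ← hnc, div_self (pow_ne_zero 2 hn0c), one_mul, one_mul]
  linear_combination hdd

/-- the polynomial identity behind the compatibility of the connection -/
theorem hyl_hconn_key (g : SU11) (X : ℝ × ℂ) (hX : X ∈ hU) (u : ℝ × ℂ) :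
    2 * hN X * (conj (hjn g X) * fderiv ℝ (hjn g) X u).im =
      (conj X.2 * u.2).im * ((hact g X).1 + hN X) -
        (conj (hact g X).2 * (hact g u).2).im * (X.1 + hN X) := by
  have hN0 := hN_pos X hX
  have h1 := hN_sq X hX
  have h2 := g.norm_eq
  rw [hyl_fderiv_hjn g X hX]
  have hscale : 2 * hN X * (conj (hjn g X) *
      (g.a * ((u.1 + (X.1 * u.1 - (conj X.2 * u.2).re) / hN X : ℝ) : ℂ) + g.b * conj u.2)).im =
      2 * (conj (hjn g X) *
      (g.a * ((hN X * u.1 + (X.1 * u.1 - (conj X.2 * u.2).re) : ℝ) : ℂ) +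
        (hN X : ℂ) * (g.b * conj u.2))).im := by
    rw [mul_assoc, ← Complex.im_ofReal_mul]
    congr 2
    have hNc : (hN X : ℂ) ≠ 0 := by exact_mod_cast hN0.ne'
    push_cast
    field_simp
  rw [hscale]
  clear hscale
  simp only [hjn]
  generalize hN X = N at *
  simp only [Complex.normSq_apply] at h1 h2
  simp only [hact, Complex.normSq_apply, Complex.mul_re, Complex.mul_im, Complex.add_re,
    Complex.add_im, Complex.conj_re, Complex.conj_im, Complex.ofReal_re, Complex.ofReal_im,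
    map_add, map_mul, Complex.conj_ofReal, Complex.conj_conj, pow_two,
    Complex.re_ofNat, Complex.im_ofNat, map_ofNat]
  linear_combination (-2 * ((g.a.re * g.b.re + g.a.im * g.b.im) * u.2.im +
      (g.a.im * g.b.re - g.a.re * g.b.im) * u.2.re)) * h1 +
    ((X.1 + N) * ((g.a.re * g.a.re + g.a.im * g.a.im + (g.b.re * g.b.re + g.b.im * g.b.im)) *
        (X.2.re * u.2.im - X.2.im * u.2.re) -
        2 * u.1 * ((g.a.re * g.b.re + g.a.im * g.b.im) * X.2.im +
          (g.a.im * g.b.re - g.a.re * g.b.im) * X.2.re) +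
        2 * X.1 * ((g.a.re * g.b.re + g.a.im * g.b.im) * u.2.im +
      (g.a.im * g.b.re - g.a.re * g.b.im) * u.2.re)) +
      (X.2.re * u.2.im - X.2.im * u.2.re) * N) * h2

theorem fderiv_hj (g : SU11) (X : ℝ × ℂ) (hX : X ∈ hU) (u : ℝ × ℂ) :
    fderiv ℝ (hj g) X u =
      Complex.I * hj g X * ((hconn X u - hconn (hact g X) (hact g u) : ℝ) : ℂ) := by
  have hd : DifferentiableAt ℝ (hjn g) X :=
    ((hyl_contDiffOn_hjn g).contDiffAt (isOpen_hU.mem_nhds hX)).differentiableAt (by simp)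
  have h := hyl_fderiv_dir (hjn g) X hd (hjn_ne_zero g X hX) u
  change fderiv ℝ (hj g) X u = _ at h
  rw [h]
  congr 2
  have hN0 := hN_pos X hX
  have h2 := add_hN_pos X hX
  have h3 := add_hN_pos (hact g X) (hact_mem g X hX)
  rw [hN_hact] at h3
  rw [normSq_hjn g X hX, hconn_apply, hconn_apply, hN_hact]
  have hk := hyl_hconn_key g X hX u
  have e : (conj (hjn g X) * fderiv ℝ (hjn g) X u).im =
    ((conj X.2 * u.2).im * ((hact g X).1 + hN X) -
        (conj (hact g X).2 * (hact g u).2).im * (X.1 + hN X)) / (2 * hN X) := by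
    rw [← hk]
    field_simp
  rw [e]
  field_simp

/-- the tautological line bundle -/
noncomputable def hypL : ULine hypM where
  J := fun l => hj (gel l)
  smooth_J := fun l => contDiffOn_hj (gel l)
  norm_J := fun l x hx => norm_hj (gel l) x hx
  J_add := fun l l' x hx => by
    rw [gel_add]
    exact hj_mul _ _ _ hx
  a := hconn
  smooth_a := contDiffOn_hconn
  a_compat := fun l x hx u => by
    rw [fderiv_hj (gel l) x hx u]
    change _ = Complex.I * hj (gel l) x *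
      ((hconn x u - hconn (hact (gel l) x) (fderiv ℝ (hact (gel l)) x u) : ℝ) : ℂ)
    rw [fderiv_hact, hactL_apply]

theorem hyl_fderiv_hscal (X : ℝ × ℂ) (hX : X ∈ hU) (u : ℝ × ℂ) :
    fderiv ℝ (fun X : ℝ × ℂ => 1 / (2 * hN X * (X.1 + hN X))) X u =
      -((X.1 + hN X) ^ 2 * u.1 - (X.1 + 2 * hN X) * (conj X.2 * u.2).re) /
        (2 * hN X ^ 3 * (X.1 + hN X) ^ 2) := by
  have hN0 := hN_pos X hX
  have h2 := add_hN_pos X hX
  have hd := (hyl_differentiableAt_hN X hX).hasFDerivAt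
  have h1 : HasFDerivAt (fun Y : ℝ × ℂ => 2 * hN Y * (Y.1 + hN Y))
      ((2 * hN X) • (ContinuousLinearMap.fst ℝ ℝ ℂ + fderiv ℝ hN X) +
        (X.1 + hN X) • ((2 : ℝ) • fderiv ℝ hN X)) X :=
    (hd.const_mul 2).mul ((ContinuousLinearMap.fst ℝ ℝ ℂ).hasFDerivAt.add hd)
  have hne : 2 * hN X * (X.1 + hN X) ≠ 0 := by positivity
  have h3 : HasFDerivAt (fun Y : ℝ × ℂ => 1 / (2 * hN Y * (Y.1 + hN Y)))
      (-((2 * hN X * (X.1 + hN X)) ^ 2)⁻¹ • ((2 * hN X) • (ContinuousLinearMap.fst ℝ ℝ ℂ + fderiv ℝ hN X) +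
        (X.1 + hN X) • ((2 : ℝ) • fderiv ℝ hN X))) X := by
    have h4 := (hasDerivAt_inv hne).comp_hasFDerivAt X h1
    simpa only [one_div, Function.comp_def] using h4
  rw [h3.fderiv]
  simp only [smul_apply, add_apply, smul_eq_mul, ContinuousLinearMap.coe_fst',
    hyl_fderiv_hN X hX]
  field_simp
  ring

/-- the curvature -/
theorem dform_hconn (X : ℝ × ℂ) (hX : X ∈ hU) (u w : ℝ × ℂ) :
    dform hconn X u w = det3 X u w / (2 * hN X ^ 3) := by
  have hN0 := hN_pos X hX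
  have h2 := add_hN_pos X hX
  have hsq := hN_sq X hX
  have hd : DifferentiableAt ℝ (fun X : ℝ × ℂ => 1 / (2 * hN X * (X.1 + hN X))) X :=
    (hyl_contDiffOn_hscal.contDiffAt (isOpen_hU.mem_nhds hX)).differentiableAt (by simp)
  have h1 : ∀ v z : ℝ × ℂ, fderiv ℝ hconn X v z =
      (1 / (2 * hN X * (X.1 + hN X))) * (conj v.2 * z.2).im +
      (-((X.1 + hN X) ^ 2 * v.1 - (X.1 + 2 * hN X) * (conj X.2 * v.2).re) /
        (2 * hN X ^ 3 * (X.1 + hN X) ^ 2)) * (conj X.2 * z.2).im := by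
    intro v z
    have h := hd.hasFDerivAt.smul hyl_hlin.hasFDerivAt
    have h' : HasFDerivAt hconn _ X := h
    rw [h'.fderiv]
    simp only [add_apply, smul_apply, ContinuousLinearMap.smulRight_apply, smul_eq_mul,
      hyl_hlin_apply, hyl_fderiv_hscal X hX]
  rw [dform, h1, h1, det3]
  simp only [Complex.normSq_apply] at hsq
  simp only [Complex.mul_re, Complex.mul_im, Complex.conj_re, Complex.conj_im]
  field_simp
  linear_combination ((X.1 + 2 * hN X) * (u.2.re * w.2.im - u.2.im * w.2.re)) * hsq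

end Pool.Agent.HAF2
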