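import Pool.Agent.HAF2.HypC
import Pool.Agent.HAF2.HypL

/-!
# Module HYB: the base of the hyperbolic blocks

Along `hCube k` the curvature is `ξ 0 * det3 (1, 0) (Wv k) (Wv (k+1)) / (2 N^3)`, and the
determinant is `im (conj (Wv k).2 * (Wv (k+1)).2) = 4 √3 > 0` for all `k`, so the integral is
positive.
-/

namespace Pool.Agent.HAF2

open Filter Topology MeasureTheory
open scoped ContDiff ComplexConjugate
open Pool.Agent.HaefligerClasses (QuotientManifold IsForm HaefligerStructure curvature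
  torusElement)

private theorem hyb_zet (m : ℕ) : conj (zet ^ m) * zet ^ m = 1 := by
  rw [map_pow, ← mul_pow]
  have h : conj zet * zet = 1 := by
    have h3 : Real.sqrt 3 * Real.sqrt 3 = 3 := Real.mul_self_sqrt (by norm_num)
    apply Complex.ext
    · simp only [zet, Complex.mul_re, Complex.conj_re, Complex.conj_im, Complex.one_re]
      nlinarith
    · simp only [zet, Complex.mul_im, Complex.conj_re, Complex.conj_im, Complex.one_im]
      ring
  rw [h, one_pow]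

private theorem hyb_det (k : ℕ) : (conj (Wv k).2 * (Wv (k + 1)).2).im = 4 * Real.sqrt 3 := by
  have h6 : Real.sqrt 6 * Real.sqrt 6 = 6 := Real.mul_self_sqrt (by norm_num)
  have h62 : Real.sqrt 6 * Real.sqrt 2 = 2 * Real.sqrt 3 := by
    rw [← Real.sqrt_mul (by norm_num : (0 : ℝ) ≤ 6)]
    rw [show (6 : ℝ) * 2 = 2 ^ 2 * 3 by norm_num, Real.sqrt_mul (by norm_num : (0 : ℝ) ≤ 2 ^ 2),
      Real.sqrt_sq (by norm_num : (0 : ℝ) ≤ 2)]
  rcases Nat.even_or_odd' k with ⟨m, rfl | rfl⟩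
  · have e1 : (Wv (2 * m)).2 = 2 * (Real.sqrt 6 : ℂ) * zet ^ m := by
      unfold Wv
      rw [if_pos (by omega)]
      show 2 * (Real.sqrt 6 : ℂ) * zet ^ (2 * m / 2) = _
      rw [show 2 * m / 2 = m by omega]
    have e2 : (Wv (2 * m + 1)).2 = (⟨Real.sqrt 6, Real.sqrt 2⟩ : ℂ) * zet ^ m := by
      unfold Wv
      rw [if_neg (by omega)]
      show (⟨Real.sqrt 6, Real.sqrt 2⟩ : ℂ) * zet ^ ((2 * m + 1) / 2) = _
      rw [show (2 * m + 1) / 2 = m by omega]
    rw [e1, e2]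
    have e3 : conj (2 * (Real.sqrt 6 : ℂ) * zet ^ m) * ((⟨Real.sqrt 6, Real.sqrt 2⟩ : ℂ) * zet ^ m) =
        (2 * (Real.sqrt 6 : ℂ)) * (⟨Real.sqrt 6, Real.sqrt 2⟩ : ℂ) * (conj (zet ^ m) * zet ^ m) := by
      rw [map_mul, map_mul, Complex.conj_ofReal, Complex.conj_ofNat]
      ring
    rw [e3, hyb_zet, mul_one]
    simp only [Complex.mul_im, Complex.mul_re, Complex.ofReal_re, Complex.ofReal_im,
      Complex.re_ofNat, Complex.im_ofNat]
    nlinarith
  · have e1 : (Wv (2 * m + 1 + 1)).2 = 2 * (Real.sqrt 6 : ℂ) * zet ^ (m + 1) := by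
      unfold Wv
      rw [if_pos (by omega)]
      show 2 * (Real.sqrt 6 : ℂ) * zet ^ ((2 * m + 1 + 1) / 2) = _
      rw [show (2 * m + 1 + 1) / 2 = m + 1 by omega]
    have e2 : (Wv (2 * m + 1)).2 = (⟨Real.sqrt 6, Real.sqrt 2⟩ : ℂ) * zet ^ m := by
      unfold Wv
      rw [if_neg (by omega)]
      show (⟨Real.sqrt 6, Real.sqrt 2⟩ : ℂ) * zet ^ ((2 * m + 1) / 2) = _
      rw [show (2 * m + 1) / 2 = m by omega]
    rw [e1, e2]
    have e3 : conj ((⟨Real.sqrt 6, Real.sqrt 2⟩ : ℂ) * zet ^ m) *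
        (2 * (Real.sqrt 6 : ℂ) * zet ^ (m + 1)) =
        (2 * (Real.sqrt 6 : ℂ)) * conj (⟨Real.sqrt 6, Real.sqrt 2⟩ : ℂ) * zet *
          (conj (zet ^ m) * zet ^ m) := by
      rw [map_mul, pow_succ]
      ring
    rw [e3, hyb_zet, mul_one]
    have h3 : Real.sqrt 3 * Real.sqrt 3 = 3 := Real.mul_self_sqrt (by norm_num)
    simp only [zet, Complex.mul_im, Complex.mul_re, Complex.ofReal_re, Complex.ofReal_im,
      Complex.re_ofNat, Complex.im_ofNat, Complex.conj_re, Complex.conj_im]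
    have h66 : Real.sqrt 6 * Real.sqrt 6 * Real.sqrt 3 = 6 * Real.sqrt 3 := by rw [h6]
    linear_combination Real.sqrt 3 * h6 - h62

private theorem hyb_det3 (k : ℕ) (ξ : Fin 2 → ℝ) :
    det3 (hCube k ξ) ((Wv k - ((1 : ℝ), (0 : ℂ))) + ξ 1 • (Wv (k + 1) - Wv k))
      (ξ 0 • (Wv (k + 1) - Wv k)) = ξ 0 * (4 * Real.sqrt 3) := by
  rw [← hyb_det k]
  simp only [det3, hCube, Prod.fst_add, Prod.snd_add, Prod.fst_sub, Prod.snd_sub, Prod.smul_fst,
    Prod.smul_snd, smul_eq_mul, Complex.mul_im, Complex.conj_re, Complex.conj_im,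
    Complex.add_re, Complex.add_im, Complex.sub_re, Complex.sub_im, Complex.smul_re,
    Complex.smul_im, Complex.zero_re, Complex.zero_im]
  ring

private theorem hyb_integrand (k : ℕ) (ξ : Fin 2 → ℝ) (hξ : ξ ∈ Set.Icc (0 : Fin 2 → ℝ) 1) (y : ℝ) :
    pairSum 1 rfl (fun i j => y * dform hconn (hCube k ξ)
      (fderiv ℝ (hCube k) ξ (Pi.single i 1)) (fderiv ℝ (hCube k) ξ (Pi.single j 1))) =
    (4 * Real.sqrt 3 * ξ 0 / hN (hCube k ξ) ^ 3) * y := by
  have hX := hCube_mem k ξ hξ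
  have hN0 := hN_pos _ hX
  have e0 : fderiv ℝ (hCube k) ξ (Pi.single 0 1) =
      (Wv k - ((1 : ℝ), (0 : ℂ))) + ξ 1 • (Wv (k + 1) - Wv k) := by
    rw [fderiv_hCube]
    simp
  have e1 : fderiv ℝ (hCube k) ξ (Pi.single 1 1) = ξ 0 • (Wv (k + 1) - Wv k) := by
    rw [fderiv_hCube]
    simp
  have hp : ∀ A : Fin 2 → Fin 2 → ℝ, pairSum 1 rfl A = A 0 1 - A 1 0 := by
    intro A
    unfold pairSum
    rw [show (Finset.univ : Finset (Equiv.Perm (Fin 2))) = {1, Equiv.swap 0 1} by decide]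
    rw [Finset.sum_pair (by decide)]
    simp
    ring
  have hanti : ∀ u w, dform hconn (hCube k ξ) w u = - dform hconn (hCube k ξ) u w := by
    intro u w
    unfold dform
    ring
  rw [hp]
  simp only [e0, e1]
  rw [hanti ((Wv k - ((1 : ℝ), (0 : ℂ))) + ξ 1 • (Wv (k + 1) - Wv k))
    (ξ 0 • (Wv (k + 1) - Wv k)), dform_hconn _ hX, hyb_det3]
  field_simp
  ring

private theorem hyb_cont (k : ℕ) : ContinuousOn
    (fun ξ : Fin 2 → ℝ => 4 * Real.sqrt 3 * ξ 0 / hN (hCube k ξ) ^ 3)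
    (Set.Icc (0 : Fin 2 → ℝ) 1) := by
  have hc : Continuous (hCube k) := by
    unfold hCube
    fun_prop
  have h1 : ContinuousOn (fun ξ : Fin 2 → ℝ => hN (hCube k ξ)) (Set.Icc (0 : Fin 2 → ℝ) 1) :=
    contDiffOn_hN.continuousOn.comp hc.continuousOn (fun ξ hξ => hCube_mem k ξ hξ)
  refine ContinuousOn.div (Continuous.continuousOn (by fun_prop)) (h1.pow 3) (fun ξ hξ => ?_)
  exact pow_ne_zero 3 (hN_pos _ (hCube_mem k ξ hξ)).ne'

private theorem hyb_pos (k : ℕ) : 0 < ∫ ξ in Set.Icc (0 : Fin 2 → ℝ) 1,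
    4 * Real.sqrt 3 * ξ 0 / hN (hCube k ξ) ^ 3 := by
  have hs : MeasurableSet (Set.Icc (0 : Fin 2 → ℝ) 1) := measurableSet_Icc
  have hnn : ∀ ξ ∈ Set.Icc (0 : Fin 2 → ℝ) 1,
      0 ≤ 4 * Real.sqrt 3 * ξ 0 / hN (hCube k ξ) ^ 3 := by
    intro ξ hξ
    have h0 := hN_pos _ (hCube_mem k ξ hξ)
    have h1 : 0 ≤ ξ 0 := hξ.1 0
    positivity
  rw [setIntegral_pos_iff_support_of_nonneg_ae]
  · refine lt_of_lt_of_le ?_ (measure_mono
      (s := Set.pi Set.univ (fun _ : Fin 2 => Set.Ioo (0 : ℝ) 1)) ?_)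
    · rw [Real.volume_pi_Ioo]
      simp
    · intro ξ hξ
      have hξ' : ξ ∈ Set.Icc (0 : Fin 2 → ℝ) 1 :=
        ⟨fun i => (hξ i trivial).1.le, fun i => (hξ i trivial).2.le⟩
      refine ⟨?_, hξ'⟩
      have h0 := hN_pos _ (hCube_mem k ξ hξ')
      have h1 : 0 < ξ 0 := (hξ 0 trivial).1
      have : 0 < 4 * Real.sqrt 3 * ξ 0 / hN (hCube k ξ) ^ 3 := by positivity
      exact this.ne'
  · rw [Filter.EventuallyLE, ae_restrict_iff' hs]
    exact Filter.Eventually.of_forall (fun ξ hξ => hnn ξ hξ)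
  · exact (hyb_cont k).integrableOn_compact isCompact_Icc

theorem hypC_power : ∃ C : ℝ, 0 < C ∧ ∀ y : ℝ,
    hypC.power 1 rfl (fun X u w => y * dform hconn X u w) = C * y := by
  refine ⟨∑ k : Fin 12, ∫ ξ in Set.Icc (0 : Fin 2 → ℝ) 1,
    4 * Real.sqrt 3 * ξ 0 / hN (hCube k.1 ξ) ^ 3, ?_, ?_⟩
  · exact Finset.sum_pos (fun k _ => hyb_pos k.1) ⟨0, Finset.mem_univ _⟩
  · intro y
    rw [Finset.sum_mul]
    refine Finset.sum_congr rfl (fun k _ => ?_)
    rw [← integral_mul_const]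
    refine setIntegral_congr_fun measurableSet_Icc (fun ξ hξ => ?_)
    exact hyb_integrand k.1 ξ hξ y

/-- the base of the hyperbolic blocks -/
noncomputable def hypBase : Base Empty 1 (fun _ => 0) 1 where
  E := ℝ × ℂ
  Λ := Lam
  M := hypM
  ι := Unit
  dom := fun _ => hU
  isOpen_dom := fun _ => isOpen_hU
  dom_subset := fun _ => subset_rfl
  cover := fun x hx => ⟨(), hx⟩
  ρ := fun _ _ _ _ r => r.elim
  norm_ρ := fun _ _ _ _ _ _ r => r.elim
  diff_ρ := fun _ _ _ _ _ _ r => r.elim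
  θ := fun _ r => r.elim
  smooth_θ := fun _ r => r.elim
  compat := fun _ _ _ _ _ _ r => r.elim
  curv := fun r => r.elim
  curv_eq := fun _ r => r.elim
  ℓ := hypL
  N := 2
  hN := rfl
  cyc := hypC
  integral := by
    obtain ⟨C, hC, h⟩ := hypC_power
    refine ⟨C, hC.ne', fun x y => ?_⟩
    have e : (fun (p u w : ℝ × ℂ) => ∑ r : Empty, x r *
        ((fun r => r.elim : Empty → ℝ × ℂ → ℝ × ℂ → ℝ × ℂ → ℝ) r p u w) +
        y * dform hypL.a p u w) = fun X u w => y * dform hconn X u w := by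
      funext p u w
      rw [Finset.univ_eq_empty, Finset.sum_empty, zero_add]
      rfl
    rw [e, h y]
    simp

end Pool.Agent.HAF2
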