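import Pool.Agent.HAF2.HypM

/-!
# Module HYC: the polygon

The vertices `Wv k` (`k mod 12`) satisfy `T^2 - ‖Z‖^2 = 1`. The element
`g_m = (-2 + √-3, √6 zet^m)` of `LG` maps `Wv (2m+1)` to `Wv (2m+5)` and `Wv (2m+2)` to
`Wv (2m+4)` (all indices modulo 12; `zet ^ 6 = 1`), so it maps the side from `Wv (2m+1)` to
`Wv (2m+2)` to the side from `Wv (2m+4)` to `Wv (2m+5)` with the orientation reversed. Here
`-2 + √-3 = 1 + 2 √-3 * eis x y` with `eis x y = (1 + √-3) / 2 = eis 1 1`, and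
`zet = eis 1 1`.

The cycle is the sum of the 12 triangles `hCube k`. Stokes on the square: the side `ξ 0 = 0` is
constant, the sides `ξ 1 = 0, 1` cancel cyclically (`Wv 12 = Wv 0`), and the sides `ξ 0 = 1` cancel
in pairs by the invariance of the form.
-/

namespace Pool.Agent.HAF2

open Filter Topology MeasureTheory
open scoped ContDiff ComplexConjugate
open Pool.Agent.HaefligerClasses (QuotientManifold IsForm HaefligerStructure curvature
  torusElement)

private theorem s2 : (Real.sqrt 2) ^ 2 = 2 := Real.sq_sqrt (by norm_num)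

private theorem s3 : (Real.sqrt 3) ^ 2 = 3 := Real.sq_sqrt (by norm_num)

private theorem s6 : Real.sqrt 6 = Real.sqrt 2 * Real.sqrt 3 := by
  rw [← Real.sqrt_mul (by norm_num)]; norm_num

private theorem zet_sq : zet ^ 2 = zet - 1 := by
  have h3 := s3
  apply Complex.ext
  · simp only [zet, pow_two, Complex.mul_re, Complex.sub_re, Complex.one_re]
    nlinarith
  · simp only [zet, pow_two, Complex.mul_im, Complex.sub_im, Complex.one_im]
    ring

private theorem zet_cube : zet ^ 3 = -1 := by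
  have h := zet_sq
  linear_combination (zet + 1) * h

theorem zet_pow_six : zet ^ 6 = 1 := by
  have h := zet_cube
  calc zet ^ 6 = (zet ^ 3) ^ 2 := by ring
    _ = 1 := by rw [h]; norm_num

private theorem norm_zet : ‖zet‖ = 1 := by
  have h : Complex.normSq zet = 1 := by
    simp only [zet, Complex.normSq_mk]
    nlinarith [s3]
  rw [Complex.normSq_eq_norm_sq] at h
  have h0 := norm_nonneg zet
  nlinarith

theorem Wv_add_twelve (k : ℕ) : Wv (k + 12) = Wv k := by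
  have h1 : (k + 12) % 2 = k % 2 := by omega
  have h2 : (k + 12) / 2 = k / 2 + 6 := by omega
  simp only [Wv, h1, h2, pow_add, zet_pow_six, mul_one]

theorem Wv_mem (k : ℕ) : Wv k ∈ hU := by
  have h2 := s2
  have h3 := s3
  have h6 : Real.sqrt 6 ^ 2 = 6 := Real.sq_sqrt (by norm_num)
  have h6p : 0 ≤ Real.sqrt 6 := Real.sqrt_nonneg _
  simp only [hU, Set.mem_ofPred_eq, Wv]
  split_ifs
  · simp only [norm_mul, norm_pow, norm_zet, one_pow, mul_one, Complex.norm_ofNat,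
      Complex.norm_real, Real.norm_eq_abs, abs_of_nonneg h6p]
    nlinarith
  · simp only [norm_mul, norm_pow, norm_zet, one_pow, mul_one]
    have hn : ‖(⟨Real.sqrt 6, Real.sqrt 2⟩ : ℂ)‖ ^ 2 = 8 := by
      rw [← Complex.normSq_eq_norm_sq, Complex.normSq_mk]
      nlinarith
    have h0 := norm_nonneg (⟨Real.sqrt 6, Real.sqrt 2⟩ : ℂ)
    nlinarith

/-- the side pairings -/
noncomputable def sideG (m : ℕ) : SU11 :=
  ⟨⟨-2, Real.sqrt 3⟩, (Real.sqrt 6 : ℂ) * zet ^ m, by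
    have hz : Complex.normSq (zet ^ m) = 1 := by
      rw [Complex.normSq_eq_norm_sq, norm_pow, norm_zet]; norm_num
    rw [Complex.normSq_mul, hz, Complex.normSq_mk, Complex.normSq_ofReal]
    have h3 := Real.mul_self_sqrt (show (0 : ℝ) ≤ 3 by norm_num)
    have h6 := Real.mul_self_sqrt (show (0 : ℝ) ≤ 6 by norm_num)
    linarith⟩

private theorem zet_eq_eis : zet = eis 1 1 := by
  apply Complex.ext
  · simp [zet, eis]; norm_num
  · simp [zet, eis]

private theorem zet_pow_eis (m : ℕ) : ∃ p q : ℤ, zet ^ m = eis p q := by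
  induction m with
  | zero => exact ⟨1, 0, by simp [eis]⟩
  | succ m ih =>
    obtain ⟨p, q, h⟩ := ih
    exact ⟨_, _, by rw [pow_succ, h, zet_eq_eis, eis_mul]⟩

private theorem aco : (⟨-2, Real.sqrt 3⟩ : ℂ) = -2 + (Real.sqrt 3 : ℂ) * Complex.I := by
  apply Complex.ext <;> simp

private theorem zco : zet = 1 / 2 + (Real.sqrt 3 : ℂ) / 2 * Complex.I := by
  apply Complex.ext <;> simp [zet]

private theorem c3 : ((Real.sqrt 3 : ℝ) : ℂ) ^ 2 = 3 := by
  rw [← Complex.ofReal_pow, s3]; norm_num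

private theorem c2 : ((Real.sqrt 2 : ℝ) : ℂ) ^ 2 = 2 := by
  rw [← Complex.ofReal_pow, s2]; norm_num

theorem sideG_mem (m : ℕ) : sideG m ∈ LG := by
  rw [mem_LG]
  refine ⟨⟨1, 1, ?_⟩, ?_⟩
  · rw [← zet_eq_eis, zco]
    simp only [sideG]
    rw [aco]
    have h := c3
    have hI := Complex.I_sq
    linear_combination (Complex.I ^ 2) * (-1 : ℂ) * h  - 3 * hI
  · obtain ⟨p, q, h⟩ := zet_pow_eis m
    exact ⟨p, q, by simp only [sideG]; rw [h]⟩

private theorem zet_conj (m : ℕ) : zet ^ m * conj (zet ^ m) = 1 := by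
  rw [Complex.mul_conj, Complex.normSq_eq_norm_sq, norm_pow, norm_zet]; norm_num

private theorem c6 : ((Real.sqrt 6 : ℝ) : ℂ) = (Real.sqrt 2 : ℂ) * (Real.sqrt 3 : ℂ) := by
  rw [s6, Complex.ofReal_mul]

private theorem bco : (⟨Real.sqrt 6, Real.sqrt 2⟩ : ℂ) =
    (Real.sqrt 2 : ℂ) * (Real.sqrt 3 : ℂ) + (Real.sqrt 2 : ℂ) * Complex.I := by
  rw [← c6]
  apply Complex.ext <;> simp

private theorem hact_fst (g : SU11) (X : ℝ × ℂ) (Y : ℝ)
    (h : ((Complex.normSq g.a + Complex.normSq g.b : ℝ) : ℂ) * X.1 +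
      (g.a * conj g.b * X.2 + conj g.a * g.b * conj X.2) = Y) : (hact g X).1 = Y := by
  have h1 : g.a * conj g.b * X.2 + conj g.a * g.b * conj X.2 =
      ((2 * (g.a * conj g.b * X.2).re : ℝ) : ℂ) := by
    have := Complex.add_conj (g.a * conj g.b * X.2)
    simp only [map_mul, Complex.conj_conj] at this
    rw [this]
  rw [h1] at h
  have h2 : (((hact g X).1 : ℝ) : ℂ) = (Y : ℂ) := by
    rw [← h]
    simp [hact]
  exact_mod_cast h2

theorem sideG_odd (m : ℕ) : hact (sideG m) (Wv (2 * m + 1)) = Wv (2 * m + 5) := by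
  have e1 : (2 * m + 1) % 2 = 1 := by omega
  have e2 : (2 * m + 5) % 2 = 1 := by omega
  have e3 : (2 * m + 1) / 2 = m := by omega
  have e4 : (2 * m + 5) / 2 = m + 2 := by omega
  have hz := zet_conj m
  have hS := c2
  have hT := c3
  have hI := Complex.I_sq
  have W1 : Wv (2 * m + 1) = (3, (⟨Real.sqrt 6, Real.sqrt 2⟩ : ℂ) * zet ^ m) := by
    simp [Wv, e1, e3]
  have W2 : Wv (2 * m + 5) = (3, (⟨Real.sqrt 6, Real.sqrt 2⟩ : ℂ) * zet ^ (m + 2)) := by
    simp [Wv, e2, e4]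
  rw [W1, W2]
  have hna : Complex.normSq (sideG m).a = 7 := by
    simp only [sideG, Complex.normSq_mk]
    nlinarith [s3]
  have hnb : Complex.normSq (sideG m).b = 6 := by
    have := (sideG m).norm_eq
    linarith
  apply Prod.ext
  · apply hact_fst
    rw [hna, hnb]
    simp only [sideG]
    rw [aco, bco, c6]
    simp only [map_mul, map_add, map_neg, map_ofNat, Complex.conj_ofReal, Complex.conj_I]
    set c : ℂ := zet ^ m
    set d : ℂ := conj c
    set S : ℂ := (Real.sqrt 2 : ℂ)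
    set T : ℂ := (Real.sqrt 3 : ℂ)
    push_cast
    linear_combination 2*S^2*T^2*c*d * hI - 6*S^2*T^2 * hz - 6*S^2*hT - 18*hS
  · simp only [hact, sideG]
    rw [aco, bco, c6, pow_add, zet_sq]
    simp only [map_mul, map_add, Complex.conj_ofReal, Complex.conj_I]
    clear hna hnb W1 W2
    generalize zet ^ m = c at *
    generalize conj c = d at *
    rw [zco]
    generalize (Real.sqrt 2 : ℂ) = S at *
    generalize (Real.sqrt 3 : ℂ) = T at *
    generalize Complex.I = J at *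
    push_cast
    grind

theorem sideG_even (m : ℕ) : hact (sideG m) (Wv (2 * m + 2)) = Wv (2 * m + 4) := by
  have e1 : (2 * m + 2) % 2 = 0 := by omega
  have e2 : (2 * m + 4) % 2 = 0 := by omega
  have e3 : (2 * m + 2) / 2 = m + 1 := by omega
  have e4 : (2 * m + 4) / 2 = m + 2 := by omega
  have hz := zet_conj m
  have hS := c2
  have hT := c3
  have hI := Complex.I_sq
  have W1 : Wv (2 * m + 2) = (5, 2 * (Real.sqrt 6 : ℂ) * zet ^ (m + 1)) := by
    simp [Wv, e1, e3]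
  have W2 : Wv (2 * m + 4) = (5, 2 * (Real.sqrt 6 : ℂ) * zet ^ (m + 2)) := by
    simp [Wv, e2, e4]
  rw [W1, W2]
  have hna : Complex.normSq (sideG m).a = 7 := by
    simp only [sideG, Complex.normSq_mk]
    nlinarith [s3]
  have hnb : Complex.normSq (sideG m).b = 6 := by
    have := (sideG m).norm_eq
    linarith
  apply Prod.ext
  · apply hact_fst
    rw [hna, hnb]
    simp only [sideG]
    rw [aco, c6, pow_succ]
    simp only [map_mul, map_add, map_neg, map_ofNat, Complex.conj_ofReal, Complex.conj_I]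
    clear hna hnb W1 W2
    generalize zet ^ m = c at *
    generalize conj c = d at *
    rw [zco]
    simp only [map_mul, map_add, map_div₀, map_one, map_ofNat, Complex.conj_ofReal,
      Complex.conj_I]
    generalize (Real.sqrt 2 : ℂ) = S at *
    generalize (Real.sqrt 3 : ℂ) = T at *
    generalize Complex.I = J at *
    push_cast
    grind
  · simp only [hact, sideG]
    rw [aco, c6, pow_add zet m 2, pow_succ zet m, zet_sq]
    simp only [map_mul, map_ofNat, Complex.conj_ofReal]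
    clear hna hnb W1 W2
    generalize zet ^ m = c at *
    generalize conj c = d at *
    rw [zco]
    simp only [map_mul, map_add, map_div₀, map_one, map_ofNat, Complex.conj_ofReal,
      Complex.conj_I]
    generalize (Real.sqrt 2 : ℂ) = S at *
    generalize (Real.sqrt 3 : ℂ) = T at *
    generalize Complex.I = J at *
    push_cast
    grind

private theorem convex_hU : Convex ℝ hU := by
  intro X hX Y hY a b ha hb hab
  simp only [hU, Set.mem_ofPred_eq] at hX hY ⊢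
  simp only [Prod.snd_add, Prod.smul_snd, Prod.fst_add, Prod.smul_fst, smul_eq_mul]
  have h1 : ‖a • X.2 + b • Y.2‖ ≤ a * ‖X.2‖ + b * ‖Y.2‖ := by
    refine (norm_add_le _ _).trans ?_
    rw [norm_smul, norm_smul, Real.norm_of_nonneg ha, Real.norm_of_nonneg hb]
  rcases eq_or_lt_of_le ha with h0 | h0
  · have hb1 : b = 1 := by linarith
    subst hb1
    rw [← h0] at h1 ⊢
    linarith
  · have h2 : a * ‖X.2‖ < a * X.1 := mul_lt_mul_of_pos_left hX h0
    have h3 : b * ‖Y.2‖ ≤ b * Y.1 := mul_le_mul_of_nonneg_left hY.le hb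
    linarith

private theorem base_mem : ((1 : ℝ), (0 : ℂ)) ∈ hU := by
  simp [hU]

private theorem side_mem (k : ℕ) (t : ℝ) (h0 : 0 ≤ t) (h1 : t ≤ 1) :
    Wv k + t • (Wv (k + 1) - Wv k) ∈ hU := by
  have h := convex_hU (Wv_mem k) (Wv_mem (k + 1)) (sub_nonneg.2 h1) h0 (by ring)
  have e : (1 - t) • Wv k + t • Wv (k + 1) = Wv k + t • (Wv (k + 1) - Wv k) := by module
  rwa [e] at h

theorem hCube_mem (k : ℕ) (ξ : Fin 2 → ℝ) (hξ : ξ ∈ Set.Icc (0 : Fin 2 → ℝ) 1) :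
    hCube k ξ ∈ hU := by
  have h0 := hξ.1 0
  have h1 := hξ.2 0
  have h2 := hξ.1 1
  have h3 := hξ.2 1
  simp only [Pi.zero_apply, Pi.one_apply] at h0 h1 h2 h3
  have h := convex_hU base_mem (side_mem k (ξ 1) h2 h3) (sub_nonneg.2 h1) h0 (by ring)
  have e : (1 - ξ 0) • ((1 : ℝ), (0 : ℂ)) + ξ 0 • (Wv k + ξ 1 • (Wv (k + 1) - Wv k)) =
      hCube k ξ := by
    rw [hCube]
    module
  rwa [e] at h

private theorem hasFDerivAt_hCube (k : ℕ) (ξ : Fin 2 → ℝ) :
    HasFDerivAt (hCube k) ((ContinuousLinearMap.proj (R := ℝ) (φ := fun _ : Fin 2 => ℝ)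
      0).smulRight ((Wv k - ((1 : ℝ), (0 : ℂ))) + ξ 1 • (Wv (k + 1) - Wv k)) +
      ξ 0 • (ContinuousLinearMap.proj (R := ℝ) (φ := fun _ : Fin 2 => ℝ)
      1).smulRight (Wv (k + 1) - Wv k)) ξ := by
  have h0 : HasFDerivAt (fun ξ : Fin 2 → ℝ => ξ 0)
      (ContinuousLinearMap.proj (R := ℝ) (φ := fun _ : Fin 2 => ℝ) 0) ξ :=
    (ContinuousLinearMap.proj (R := ℝ) (φ := fun _ : Fin 2 => ℝ) 0).hasFDerivAt
  have h1 : HasFDerivAt (fun ξ : Fin 2 → ℝ => ξ 1)
      (ContinuousLinearMap.proj (R := ℝ) (φ := fun _ : Fin 2 => ℝ) 1) ξ :=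
    (ContinuousLinearMap.proj (R := ℝ) (φ := fun _ : Fin 2 => ℝ) 1).hasFDerivAt
  have h2 := (h1.smul_const (Wv (k + 1) - Wv k)).const_add (Wv k - ((1 : ℝ), (0 : ℂ)))
  have h3 := (h0.smul h2).const_add ((1 : ℝ), (0 : ℂ))
  refine h3.congr_fderiv ?_
  refine ContinuousLinearMap.ext fun v => ?_
  simp [smul_smul, add_comm]

theorem fderiv_hCube (k : ℕ) (ξ v : Fin 2 → ℝ) :
    fderiv ℝ (hCube k) ξ v = v 0 • ((Wv k - ((1 : ℝ), (0 : ℂ))) + ξ 1 • (Wv (k + 1) - Wv k)) +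
      (ξ 0 * v 1) • (Wv (k + 1) - Wv k) := by
  rw [(hasFDerivAt_hCube k ξ).fderiv]
  simp only [add_apply, ContinuousLinearMap.smulRight_apply,
    ContinuousLinearMap.proj_apply, smul_apply, smul_smul]

private theorem contDiff_hCube (k : ℕ) : ContDiff ℝ ∞ (hCube k) := by
  unfold hCube
  fun_prop

private theorem stokes_sq (Ω : Set (Fin 2 → ℝ)) (hΩ : IsOpen Ω)
    (hI : Set.Icc (0 : Fin 2 → ℝ) 1 ⊆ Ω)
    (B : (Fin 2 → ℝ) → (Fin 2 → ℝ) [⋀^Fin 1]→L[ℝ] ℝ) (hB : ContDiffOn ℝ 1 B Ω) :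
    ∫ ξ in Set.Icc (0 : Fin 2 → ℝ) 1, extDeriv B ξ (fun i => Pi.single i 1) =
      ((∫ η in Set.Icc (0 : Fin 1 → ℝ) 1, B ![1, η 0] (fun _ => Pi.single 1 1)) -
        ∫ η in Set.Icc (0 : Fin 1 → ℝ) 1, B ![0, η 0] (fun _ => Pi.single 1 1)) -
      ((∫ η in Set.Icc (0 : Fin 1 → ℝ) 1, B ![η 0, 1] (fun _ => Pi.single 0 1)) -
        ∫ η in Set.Icc (0 : Fin 1 → ℝ) 1, B ![η 0, 0] (fun _ => Pi.single 0 1)) := by
  have hd : ∀ ξ ∈ Ω, DifferentiableAt ℝ B ξ := fun ξ hξ =>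
    (hB.contDiffAt (hΩ.mem_nhds hξ)).differentiableAt (by norm_num)
  set f : Fin 2 → (Fin 2 → ℝ) → ℝ := fun i ξ =>
    (-1 : ℝ) ^ (i : ℕ) * B ξ (fun k => Pi.single (i.succAbove k) 1) with hf
  have hfB : ∀ i : Fin 2, ContDiffOn ℝ 1 (fun ξ => B ξ (fun k : Fin 1 =>
      (Pi.single (i.succAbove k) 1 : Fin 2 → ℝ))) Ω := by
    intro i
    exact ((ContinuousAlternatingMap.apply ℝ (Fin 2 → ℝ) ℝ
      (fun k : Fin 1 => (Pi.single (i.succAbove k) 1 : Fin 2 → ℝ))).contDiff).comp_contDiffOn hB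
  have hfc : ∀ i, ContDiffOn ℝ 1 (f i) Ω := fun i => contDiffOn_const.mul (hfB i)
  have hfd : ∀ i, ∀ ξ ∈ Ω, HasFDerivAt (f i) (fderiv ℝ (f i) ξ) ξ := fun i ξ hξ =>
    (((hfc i).contDiffAt (hΩ.mem_nhds hξ)).differentiableAt (by norm_num)).hasFDerivAt
  have hsum : ∀ ξ ∈ Ω, extDeriv B ξ (fun i => Pi.single i 1) =
      ∑ i, fderiv ℝ (f i) ξ (Pi.single i 1) := by
    intro ξ hξ
    rw [extDeriv_apply (hd ξ hξ)]
    refine Finset.sum_congr rfl fun i _ => ?_
    have hrem : (i.removeNth (fun i : Fin 2 => (Pi.single i 1 : Fin 2 → ℝ))) =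
        fun k => Pi.single (i.succAbove k) 1 := by
      ext k l
      rfl
    rw [hrem]
    have hdiff : DifferentiableAt ℝ (fun ξ => B ξ (fun k : Fin 1 =>
        (Pi.single (i.succAbove k) 1 : Fin 2 → ℝ))) ξ :=
      ((hfB i).contDiffAt (hΩ.mem_nhds hξ)).differentiableAt (by norm_num)
    have : fderiv ℝ (f i) ξ = ((-1 : ℝ) ^ (i : ℕ)) •
        fderiv ℝ (fun ξ => B ξ (fun k => Pi.single (i.succAbove k) 1)) ξ := by
      rw [hf]
      exact fderiv_const_mul hdiff _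
    rw [this]
    simp
  rw [setIntegral_congr_fun measurableSet_Icc (fun ξ hξ => hsum ξ (hI hξ))]
  have key := integral_divergence_of_hasFDerivAt_off_countable' (0 : Fin 2 → ℝ) 1
    (by intro i; norm_num) f (fun i => fderiv ℝ (f i)) ∅ Set.countable_empty
    (fun i => ((hfc i).continuousOn).mono hI)
    (fun ξ hξ i => hfd i ξ (hI ⟨fun j => (hξ.1 j (Set.mem_univ _)).1.le,
      fun j => (hξ.1 j (Set.mem_univ _)).2.le⟩))
    (by
      apply ContinuousOn.integrableOn_Icc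
      refine continuousOn_finsetSum _ fun i _ => ?_
      exact (((hfc i).continuousOn_fderiv_of_isOpen hΩ (by norm_num)).mono hI).clm_apply
        continuousOn_const)
  rw [key, Fin.sum_univ_two]
  simp only [hf]
  have hz : ((0 : Fin 2 → ℝ) ∘ (0 : Fin 2).succAbove) = (0 : Fin 1 → ℝ) := rfl
  have hz' : ((0 : Fin 2 → ℝ) ∘ (1 : Fin 2).succAbove) = (0 : Fin 1 → ℝ) := rfl
  have ho : ((1 : Fin 2 → ℝ) ∘ (0 : Fin 2).succAbove) = (1 : Fin 1 → ℝ) := rfl
  have ho' : ((1 : Fin 2 → ℝ) ∘ (1 : Fin 2).succAbove) = (1 : Fin 1 → ℝ) := rfl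
  have ins0 : ∀ (t : ℝ) (η : Fin 1 → ℝ), ((0 : Fin 2).insertNth t η : Fin 2 → ℝ) = ![t, η 0] := by
    intro t η
    ext j
    fin_cases j <;> rfl
  have ins1 : ∀ (t : ℝ) (η : Fin 1 → ℝ), ((1 : Fin 2).insertNth t η : Fin 2 → ℝ) = ![η 0, t] := by
    intro t η
    ext j
    fin_cases j <;> rfl
  have sa0 : (fun k : Fin 1 => (Pi.single ((0 : Fin 2).succAbove k) 1 : Fin 2 → ℝ)) =
      fun _ => Pi.single 1 1 := by
    ext k
    fin_cases k
    rfl
  have sa1 : (fun k : Fin 1 => (Pi.single ((1 : Fin 2).succAbove k) 1 : Fin 2 → ℝ)) =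
      fun _ => Pi.single 0 1 := by
    ext k
    fin_cases k
    rfl
  simp only [sa0, sa1, Fin.val_zero, Fin.val_one, pow_zero, pow_one, one_mul, neg_mul,
    integral_neg]
  simp only [hz, hz', ho, ho', ins0, ins1, Pi.zero_apply, Pi.one_apply]
  ring

/-- the integral of a one form over the ray from `(1, 0)` to the `k`-th vertex -/
private noncomputable def rayI (β : (ℝ × ℂ) → (ℝ × ℂ) [⋀^Fin 1]→L[ℝ] ℝ) (k : ℕ) : ℝ :=
  ∫ η in Set.Icc (0 : Fin 1 → ℝ) 1,
    β (((1 : ℝ), (0 : ℂ)) + η 0 • (Wv k - ((1 : ℝ), (0 : ℂ))))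
      (fun _ => Wv k - ((1 : ℝ), (0 : ℂ)))

/-- the integral of a one form over the `k`-th side -/
private noncomputable def sideI (β : (ℝ × ℂ) → (ℝ × ℂ) [⋀^Fin 1]→L[ℝ] ℝ) (k : ℕ) : ℝ :=
  ∫ η in Set.Icc (0 : Fin 1 → ℝ) 1,
    β (Wv k + η 0 • (Wv (k + 1) - Wv k)) (fun _ => Wv (k + 1) - Wv k)

private theorem stokes_tri (β : (ℝ × ℂ) → (ℝ × ℂ) [⋀^Fin 1]→L[ℝ] ℝ)
    (hβ : ContDiffOn ℝ 1 β hU) (k : ℕ) :
    ∫ ξ in Set.Icc (0 : Fin 2 → ℝ) 1,
      extDeriv β (hCube k ξ) (fun i => fderiv ℝ (hCube k) ξ (Pi.single i 1)) =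
      sideI β k - (rayI β (k + 1) - rayI β k) := by
  have hsm : ContDiff ℝ ∞ (hCube k) := contDiff_hCube k
  have hc : Continuous (hCube k) := hsm.continuous
  have hopen : IsOpen (hCube k ⁻¹' hU) := isOpen_hU.preimage hc
  set B : (Fin 2 → ℝ) → (Fin 2 → ℝ) [⋀^Fin 1]→L[ℝ] ℝ := fun ξ =>
    (β (hCube k ξ)).compContinuousLinearMap (fderiv ℝ (hCube k) ξ) with hBdef
  have hB : ContDiffOn ℝ 1 B (hCube k ⁻¹' hU) := by
    set L1 : ((Fin 2 → ℝ) →L[ℝ] ℝ) ≃ₗᵢ[ℝ] ((Fin 2 → ℝ) [⋀^Fin 1]→L[ℝ] ℝ) :=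
      ContinuousAlternatingMap.ofSubsingletonLIE (0 : Fin 1) with hL1
    set L2 : ((ℝ × ℂ) →L[ℝ] ℝ) ≃ₗᵢ[ℝ] ((ℝ × ℂ) [⋀^Fin 1]→L[ℝ] ℝ) :=
      ContinuousAlternatingMap.ofSubsingletonLIE (0 : Fin 1) with hL2
    have e : B = fun ξ => L1 ((L2.symm (β (hCube k ξ))) ∘L fderiv ℝ (hCube k) ξ) := by
      funext ξ
      refine ContinuousAlternatingMap.ext fun v => ?_
      simp only [hBdef]
      show β (hCube k ξ) (fun i => fderiv ℝ (hCube k) ξ (v i)) =
        β (hCube k ξ) (fun _ => fderiv ℝ (hCube k) ξ (v 0))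
      congr 1
      funext i
      rw [Subsingleton.elim i 0]
    rw [e]
    have h1 : ContDiffOn ℝ 1 (fun ξ => β (hCube k ξ)) (hCube k ⁻¹' hU) :=
      hβ.comp (hsm.of_le (by norm_cast)).contDiffOn (fun ξ hξ => hξ)
    have h2 : ContDiffOn ℝ 1 (fun ξ => fderiv ℝ (hCube k) ξ) (hCube k ⁻¹' hU) :=
      (hsm.fderiv_right (m := 1) (by norm_cast)).contDiffOn
    exact L1.contDiff.comp_contDiffOn ((L2.symm.contDiff.comp_contDiffOn h1).clm_comp h2)
  have h := stokes_sq _ hopen (fun ξ hξ => hCube_mem k ξ hξ) B hB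
  have hext : ∀ ξ ∈ Set.Icc (0 : Fin 2 → ℝ) 1, extDeriv β (hCube k ξ)
      (fun i => fderiv ℝ (hCube k) ξ (Pi.single i 1)) =
      extDeriv B ξ (fun i => Pi.single i 1) := by
    intro ξ hξ
    have hd : DifferentiableAt ℝ β (hCube k ξ) :=
      (hβ.contDiffAt (isOpen_hU.mem_nhds (hCube_mem k ξ hξ))).differentiableAt (by norm_num)
    rw [hBdef, extDeriv_pullback (r := 2) hd (hsm.contDiffAt.of_le (by norm_cast)) (by simp)]
    rfl
  rw [setIntegral_congr_fun measurableSet_Icc hext, h]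
  have b1 : ∀ η : Fin 1 → ℝ, B ![1, η 0] (fun _ => Pi.single 1 1) =
      β (Wv k + η 0 • (Wv (k + 1) - Wv k)) (fun _ => Wv (k + 1) - Wv k) := by
    intro η
    have e1 : hCube k ![1, η 0] = Wv k + η 0 • (Wv (k + 1) - Wv k) := by
      simp only [hCube, Matrix.cons_val_zero, Matrix.cons_val_one]
      module
    have e2 : (fun _ : Fin 1 => fderiv ℝ (hCube k) ![1, η 0] (Pi.single 1 1)) =
        fun _ => Wv (k + 1) - Wv k := by
      funext _
      rw [fderiv_hCube]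
      simp
    show β (hCube k ![1, η 0]) (fun _ => fderiv ℝ (hCube k) ![1, η 0] (Pi.single 1 1)) = _
    rw [e2, e1]
  have b2 : ∀ η : Fin 1 → ℝ, B ![0, η 0] (fun _ => Pi.single 1 1) = 0 := by
    intro η
    have e2 : (fun _ : Fin 1 => fderiv ℝ (hCube k) ![0, η 0] (Pi.single 1 1)) =
        fun _ => 0 := by
      funext _
      rw [fderiv_hCube]
      simp
    show β (hCube k ![0, η 0]) (fun _ => fderiv ℝ (hCube k) ![0, η 0] (Pi.single 1 1)) = _
    rw [e2]
    exact (β _).map_coord_zero 0 rfl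
  have b3 : ∀ η : Fin 1 → ℝ, B ![η 0, 1] (fun _ => Pi.single 0 1) =
      β (((1 : ℝ), (0 : ℂ)) + η 0 • (Wv (k + 1) - ((1 : ℝ), (0 : ℂ))))
      (fun _ => Wv (k + 1) - ((1 : ℝ), (0 : ℂ))) := by
    intro η
    have e1 : hCube k ![η 0, 1] =
        ((1 : ℝ), (0 : ℂ)) + η 0 • (Wv (k + 1) - ((1 : ℝ), (0 : ℂ))) := by
      simp only [hCube, Matrix.cons_val_zero, Matrix.cons_val_one]
      module
    have e2 : (fun _ : Fin 1 => fderiv ℝ (hCube k) ![η 0, 1] (Pi.single 0 1)) =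
        fun _ => Wv (k + 1) - ((1 : ℝ), (0 : ℂ)) := by
      funext _
      rw [fderiv_hCube]
      simp
    show β (hCube k ![η 0, 1]) (fun _ => fderiv ℝ (hCube k) ![η 0, 1] (Pi.single 0 1)) = _
    rw [e2, e1]
  have b4 : ∀ η : Fin 1 → ℝ, B ![η 0, 0] (fun _ => Pi.single 0 1) =
      β (((1 : ℝ), (0 : ℂ)) + η 0 • (Wv k - ((1 : ℝ), (0 : ℂ))))
      (fun _ => Wv k - ((1 : ℝ), (0 : ℂ))) := by
    intro η
    have e1 : hCube k ![η 0, 0] =
        ((1 : ℝ), (0 : ℂ)) + η 0 • (Wv k - ((1 : ℝ), (0 : ℂ))) := by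
      simp only [hCube, Matrix.cons_val_zero, Matrix.cons_val_one]
      module
    have e2 : (fun _ : Fin 1 => fderiv ℝ (hCube k) ![η 0, 0] (Pi.single 0 1)) =
        fun _ => Wv k - ((1 : ℝ), (0 : ℂ)) := by
      funext _
      rw [fderiv_hCube]
      simp
    show β (hCube k ![η 0, 0]) (fun _ => fderiv ℝ (hCube k) ![η 0, 0] (Pi.single 0 1)) = _
    rw [e2, e1]
  simp only [b1, b2, b3, b4, integral_zero, sub_zero]
  rfl

private theorem neg_one_form (L : (ℝ × ℂ) [⋀^Fin 1]→L[ℝ] ℝ) (v : ℝ × ℂ) :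
    L (fun _ => -v) = -L (fun _ => v) := by
  have h := L.toContinuousMultilinearMap.map_smul_univ (fun _ => (-1 : ℝ)) (fun _ => v)
  simp only [Finset.prod_const, Finset.card_univ, Fintype.card_fin, pow_one, neg_smul,
    one_smul] at h
  exact h

private theorem sideI_pair (β : (ℝ × ℂ) → (ℝ × ℂ) [⋀^Fin 1]→L[ℝ] ℝ)
    (hβ : IsForm1 hypM β) (m : ℕ) : sideI β (2 * m + 1) = -sideI β (2 * m + 4) := by
  have hrev : sideI β (2 * m + 4) = ∫ η in Set.Icc (0 : Fin 1 → ℝ) 1,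
      β (Wv (2 * m + 4) + (1 - η 0) • (Wv (2 * m + 5) - Wv (2 * m + 4)))
        (fun _ => Wv (2 * m + 5) - Wv (2 * m + 4)) := by
    have hmp := (Measure.measurePreserving_sub_left (volume : Measure (Fin 1 → ℝ)) 1)
    have hpre : (fun η : Fin 1 → ℝ => 1 - η) ⁻¹' Set.Icc 0 1 = Set.Icc 0 1 := by
      ext η
      simp only [Set.mem_preimage, Set.mem_Icc, sub_nonneg, sub_le_self_iff]
      tauto
    have h := hmp.setIntegral_preimage_emb
      (MeasurableEquiv.subLeft (1 : Fin 1 → ℝ)).measurableEmbedding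
      (fun η : Fin 1 → ℝ => β (Wv (2 * m + 4) + η 0 • (Wv (2 * m + 5) - Wv (2 * m + 4)))
        (fun _ => Wv (2 * m + 5) - Wv (2 * m + 4))) (Set.Icc 0 1)
    rw [hpre] at h
    exact h.symm
  rw [hrev, ← integral_neg]
  unfold sideI
  refine setIntegral_congr_fun measurableSet_Icc fun η hη => ?_
  have h0 := hη.1 0
  have h1 := hη.2 0
  simp only [Pi.zero_apply, Pi.one_apply] at h0 h1
  have hX := side_mem (2 * m + 1) (η 0) h0 h1
  have hinv := hβ.2 (Additive.ofMul ⟨sideG m, sideG_mem m⟩) _ hX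
  have hinv' := congrArg (fun L => L (fun _ : Fin 1 => Wv (2 * m + 2) - Wv (2 * m + 1))) hinv
  have hgel : gel (Additive.ofMul ⟨sideG m, sideG_mem m⟩) = sideG m := rfl
  have hact' : hypM.act (Additive.ofMul ⟨sideG m, sideG_mem m⟩) = hact (sideG m) := rfl
  rw [hact', fderiv_hact] at hinv'
  have hl : ∀ X Y : ℝ × ℂ, ∀ t : ℝ, hact (sideG m) (X + t • (Y - X)) =
      hact (sideG m) X + t • (hact (sideG m) Y - hact (sideG m) X) := by
    intro X Y t
    simp only [← hactL_apply, map_add, map_smul, map_sub]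
  rw [hl, sideG_odd, sideG_even] at hinv'
  have hv : (hactL (sideG m)) (Wv (2 * m + 2) - Wv (2 * m + 1)) =
      -(Wv (2 * m + 5) - Wv (2 * m + 4)) := by
    rw [map_sub, hactL_apply, hactL_apply, sideG_odd, sideG_even]
    abel
  have hp : Wv (2 * m + 5) + η 0 • (Wv (2 * m + 4) - Wv (2 * m + 5)) =
      Wv (2 * m + 4) + (1 - η 0) • (Wv (2 * m + 5) - Wv (2 * m + 4)) := by
    module
  rw [hp] at hinv'
  show β (Wv (2 * m + 1) + η 0 • (Wv (2 * m + 2) - Wv (2 * m + 1)))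
    (fun _ => Wv (2 * m + 2) - Wv (2 * m + 1)) = _
  rw [← hinv']
  show β _ (fun _ : Fin 1 => (hactL (sideG m)) (Wv (2 * m + 2) - Wv (2 * m + 1))) = _
  rw [hv]
  exact neg_one_form _ _

/-- the cycle -/
noncomputable def hypC : Cycle hypM 2 where
  κ := Fin 12
  c := fun k => hCube k.1
  smooth_c := fun k => contDiff_hCube k.1
  mem_c := fun k ξ hξ => hCube_mem k.1 ξ hξ
  closed := by
    intro m hm β hβ
    obtain rfl : m = 1 := by omega
    have h : ∀ k : Fin 12, (∫ ξ in Set.Icc (0 : Fin 2 → ℝ) 1,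
        extDeriv β (hCube k.1 ξ) (fun i => fderiv ℝ (hCube k.1) ξ
          (Pi.single (Fin.cast hm i) 1))) =
        (fun j : ℕ => sideI β j - (rayI β (j + 1) - rayI β j)) k.1 :=
      fun k => stokes_tri β hβ.1 k.1
    refine (Finset.sum_congr rfl fun k _ => h k).trans ?_
    rw [Fin.sum_univ_eq_sum_range (fun j : ℕ => sideI β j - (rayI β (j + 1) - rayI β j)) 12]
    have w12 : Wv 12 = Wv 0 := Wv_add_twelve 0
    have w13 : Wv 13 = Wv 1 := Wv_add_twelve 1
    have w14 : Wv 14 = Wv 2 := Wv_add_twelve 2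
    have w15 : Wv 15 = Wv 3 := Wv_add_twelve 3
    have r12 : rayI β 12 = rayI β 0 := by simp only [rayI, w12]
    have p12 : sideI β 12 = sideI β 0 := by simp only [sideI, w12, w13]
    have p14 : sideI β 14 = sideI β 2 := by simp only [sideI, w14, w15]
    have q0 := sideI_pair β hβ 0
    have q1 := sideI_pair β hβ 1
    have q2 := sideI_pair β hβ 2
    have q3 := sideI_pair β hβ 3
    have q4 := sideI_pair β hβ 4
    have q5 := sideI_pair β hβ 5
    norm_num at q0 q1 q2 q3 q4 q5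
    simp only [Finset.sum_range_succ, Finset.sum_range_zero]
    norm_num
    linarith

end Pool.Agent.HAF2
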