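import Pool.Agent.HAF2.Model

/-!
# The sphere bundle of `ℓ ⊕ ℝ`: definitions

`U' = {(x, y, t) : x ∈ U, y ≠ 0 or 1/2 < |t|}`, with the action
`l (x, y, t) = (l x, J l x * y, t)`.
-/

namespace Pool.Agent.HAF2

open Filter Topology MeasureTheory
open scoped ContDiff ComplexConjugate
open Pool.Agent.HaefligerClasses (QuotientManifold IsForm HaefligerStructure curvature
  torusElement)

section

variable {E : Type} [NormedAddCommGroup E] [NormedSpace ℝ E] {Λ : Type} [AddGroup Λ]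

/-- the total space -/
def sphU (M : QuotientManifold E Λ) : Set (E × ℂ × ℝ) :=
  {p | p.1 ∈ M.U ∧ (p.2.1 ≠ 0 ∨ 1 / 2 < |p.2.2|)}

/-- the action -/
def sphAct (M : QuotientManifold E Λ) (L : ULine M) (l : Λ) (p : E × ℂ × ℝ) : E × ℂ × ℝ :=
  (M.act l p.1, L.J l p.1 * p.2.1, p.2.2)

/-- the three patches -/
inductive Patch
  | R
  | N
  | S
  deriving DecidableEq

/-- the open sets of the three patches -/
def patchDom (M : QuotientManifold E Λ) : Patch → Set (E × ℂ × ℝ)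
  | Patch.R => {p | p ∈ sphU M ∧ p.2.1 ≠ 0}
  | Patch.N => {p | p ∈ sphU M ∧ p.2.2 < -(1 / 4)}
  | Patch.S => {p | p ∈ sphU M ∧ 1 / 4 < p.2.2}

/-- the direction of `y` -/
noncomputable def yhat (p : E × ℂ × ℝ) : ℂ := p.2.1 / (‖p.2.1‖ : ℂ)

/-- the phase of the frame of the patch relative to the frame of `Patch.R` -/
noncomputable def tauS (k : ℕ) : Patch → E × ℂ × ℝ → ℂ
  | Patch.R, _ => 1
  | Patch.N, p => yhat p ^ 2
  | Patch.S, p => -(conj (yhat p)) ^ k

/-- the cocycle of the new root line bundle -/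
noncomputable def rhoS {M : QuotientManifold E Λ} (L : ULine M) (k : ℕ) :
    Patch → Λ → Patch → E × ℂ × ℝ → ℂ
  | Patch.R, _, Patch.R, _ => 1
  | Patch.N, l, Patch.N, p => L.J l p.1 ^ 2
  | Patch.S, l, Patch.S, p => conj (L.J l p.1) ^ k
  | Patch.N, l, Patch.R, p => (L.J l p.1 * yhat p) ^ 2
  | Patch.R, _, Patch.N, p => conj (yhat p) ^ 2
  | Patch.S, l, Patch.R, p => -(conj (L.J l p.1 * yhat p)) ^ k
  | Patch.R, _, Patch.S, p => -(yhat p) ^ k
  | Patch.N, _, Patch.S, _ => 1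
  | Patch.S, _, Patch.N, _ => 1

/-- the rotation number of the connection: `2` for `t ≤ -1/4` and `-k` for `t ≥ 1/4` -/
noncomputable def psi (k : ℕ) (t : ℝ) : ℝ := 2 - (2 + k) * Real.smoothTransition (2 * t + 1 / 2)

/-- the angular form `d (arg y) + a` -/
noncomputable def vth {M : QuotientManifold E Λ} (L : ULine M) (p : E × ℂ × ℝ) :
    (E × ℂ × ℝ) →L[ℝ] ℝ :=
  (1 / Complex.normSq p.2.1) • (Complex.imCLM ∘L mulC (conj p.2.1) ∘L
    (ContinuousLinearMap.fst ℝ ℂ ℝ ∘L ContinuousLinearMap.snd ℝ E (ℂ × ℝ))) +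
  L.a p.1 ∘L ContinuousLinearMap.fst ℝ E (ℂ × ℝ)

theorem vth_apply {M : QuotientManifold E Λ} (L : ULine M) (p u : E × ℂ × ℝ) :
    vth L p u = (1 / Complex.normSq p.2.1) * (conj p.2.1 * u.2.1).im + L.a p.1 u.1 := rfl

/-- the connection form of the new root line bundle -/
noncomputable def thS {M : QuotientManifold E Λ} (L : ULine M) (k : ℕ) :
    Patch → E × ℂ × ℝ → ((E × ℂ × ℝ) →L[ℝ] ℝ)
  | Patch.R, p => psi k p.2.2 • vth L p
  | Patch.N, p => (2 : ℝ) • (L.a p.1 ∘L ContinuousLinearMap.fst ℝ E (ℂ × ℝ))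
  | Patch.S, p => (-(k : ℝ)) • (L.a p.1 ∘L ContinuousLinearMap.fst ℝ E (ℂ × ℝ))

/-- the curvature form of the new root line bundle -/
noncomputable def crvS {M : QuotientManifold E Λ} (L : ULine M) (k : ℕ) (p u w : E × ℂ × ℝ) : ℝ :=
  deriv (psi k) p.2.2 * (u.2.2 * vth L p w - w.2.2 * vth L p u) +
    psi k p.2.2 * dform L.a p.1 u.1 w.1

/-- the parametrisation of the sphere -/
noncomputable def sph (s t : ℝ) : ℂ × ℝ :=
  ((Real.sin (Real.pi * s) : ℂ) * Complex.exp (2 * Real.pi * t * Complex.I),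
    -Real.cos (Real.pi * s))

/-- the cubes of the sphere bundle -/
noncomputable def sphCube {N : ℕ} (c : (Fin N → ℝ) → E) (ξ : Fin (N + 2) → ℝ) : E × ℂ × ℝ :=
  (c (fun i => ξ (Fin.castAdd 2 i)), sph (ξ (Fin.natAdd N 0)) (ξ (Fin.natAdd N 1)))

/-- the exponents after suspension -/
def optExp {R : Type} (α : R → ℕ) (a : ℕ) : Option R → ℕ := fun o => o.elim a α

/-- numerical condition that makes the integral of the new root a monomial -/
def SphCond (k m b a b' : ℕ) : Prop :=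
  ∃ C : ℝ, C ≠ 0 ∧ ∀ z y : ℝ,
    (-(k : ℝ) * z + m * y) ^ (b + 1) - (2 * z + m * y) ^ (b + 1) = C * z ^ a * y ^ b'

end

end Pool.Agent.HAF2
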