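import Pool.Agent.HAF2.HypGrp
import Pool.Agent.HAF2.SphDefs

/-!
# The hyperbolic plane as the projectivised cone: definitions

Points `X = (T, Z) : ℝ × ℂ` of the open cone `‖Z‖ < T`. The group `SU11` acts linearly on the cone
(`hact`) and on the plane `ℂ` (`hvact`).
-/

namespace Pool.Agent.HAF2

open Filter Topology MeasureTheory
open scoped ContDiff ComplexConjugate
open Pool.Agent.HaefligerClasses (QuotientManifold IsForm HaefligerStructure curvature
  torusElement)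

/-- the linear action on `ℝ × ℂ` -/
noncomputable def hact (g : SU11) (X : ℝ × ℂ) : ℝ × ℂ :=
  ((Complex.normSq g.a + Complex.normSq g.b) * X.1 + 2 * (g.a * conj g.b * X.2).re,
    g.a ^ 2 * X.2 + g.b ^ 2 * conj X.2 + 2 * g.a * g.b * X.1)

/-- the linear action on the plane -/
noncomputable def hvact (g : SU11) (v : ℂ) : ℂ := g.a * v + g.b * conj v

/-- the open cone -/
def hU : Set (ℝ × ℂ) := {X | ‖X.2‖ < X.1}

/-- the Lorentz norm -/
noncomputable def hN (X : ℝ × ℂ) : ℝ := Real.sqrt (X.1 ^ 2 - Complex.normSq X.2)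

/-- the cocycle, not normalised -/
noncomputable def hjn (g : SU11) (X : ℝ × ℂ) : ℂ :=
  g.a * ((X.1 + hN X : ℝ) : ℂ) + g.b * conj X.2

/-- the unitary cocycle of the tautological line bundle -/
noncomputable def hj (g : SU11) (X : ℝ × ℂ) : ℂ := hjn g X / (‖hjn g X‖ : ℂ)

/-- the orthonormal frame of the plane bundle at `X` -/
noncomputable def hA (X : ℝ × ℂ) (y : ℂ) : ℂ :=
  (((X.1 + hN X : ℝ) : ℂ) * y + X.2 * conj y) / (Real.sqrt (2 * hN X * (X.1 + hN X)) : ℂ)

/-- the connection form of the tautological line bundle -/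
noncomputable def hconn (X : ℝ × ℂ) : (ℝ × ℂ) →L[ℝ] ℝ :=
  (1 / (2 * hN X * (X.1 + hN X))) •
    (Complex.imCLM ∘L mulC (conj X.2) ∘L ContinuousLinearMap.snd ℝ ℝ ℂ)

theorem hconn_apply (X u : ℝ × ℂ) :
    hconn X u = (1 / (2 * hN X * (X.1 + hN X))) * (conj X.2 * u.2).im := rfl

/-- the point of the unit disc -/
noncomputable def hz (X : ℝ × ℂ) : ℂ := X.2 / ((X.1 + hN X : ℝ) : ℂ)

/-- the determinant -/
noncomputable def det3 (X u w : ℝ × ℂ) : ℝ :=
  X.1 * (conj u.2 * w.2).im - u.1 * (conj X.2 * w.2).im + w.1 * (conj X.2 * u.2).im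

/-- the sixth root of unity -/
noncomputable def zet : ℂ := ⟨1 / 2, Real.sqrt 3 / 2⟩

/-- the vertices of the polygon -/
noncomputable def Wv (k : ℕ) : ℝ × ℂ :=
  if k % 2 = 0 then (5, 2 * (Real.sqrt 6 : ℂ) * zet ^ (k / 2))
  else (3, (⟨Real.sqrt 6, Real.sqrt 2⟩ : ℂ) * zet ^ (k / 2))

/-- the triangles of the cycle: the cone from `(1, 0)` over the `k`-th side of the polygon -/
noncomputable def hCube (k : ℕ) (ξ : Fin 2 → ℝ) : ℝ × ℂ :=
  ((1 : ℝ), (0 : ℂ)) + ξ 0 • ((Wv k - ((1 : ℝ), (0 : ℂ))) + ξ 1 • (Wv (k + 1) - Wv k))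

end Pool.Agent.HAF2
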