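import Pool.Agent.HAF2.Model

/-!
# Module GRP: an arithmetic Fuchsian group

`SU11` is the group of the matrices `(a, b; conj b, conj a)` with `|a|^2 - |b|^2 = 1`, and `LG` is
the subgroup of the elements with `a ∈ 1 + 2 √-3 ℤ[w]` and `b ∈ √6 ℤ[w]`, `w = (-1 + √-3) / 2`
(it is closed under multiplication because `6 β conj δ ∈ 2 √-3 ℤ[w]`). It is discrete and
torsion free, and does not contain `-1`.

`eis_mul`: `w ^ 2 = -1 - w`; `eis_conj`: `conj w = -1 - w`.
-/

namespace Pool.Agent.HAF2

open Filter Topology MeasureTheory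
open scoped ContDiff ComplexConjugate
open Pool.Agent.HaefligerClasses (QuotientManifold IsForm HaefligerStructure curvature
  torusElement)

/-- the group `SU(1, 1)` -/
@[ext] structure SU11 where
  a : ℂ
  b : ℂ
  norm_eq : Complex.normSq a - Complex.normSq b = 1

noncomputable instance : Mul SU11 where
  mul g h := ⟨g.a * h.a + g.b * conj h.b, g.a * h.b + g.b * conj h.a, by
    have h1 := g.norm_eq
    have h2 := h.norm_eq
    simp only [Complex.normSq_apply, Complex.add_re, Complex.add_im, Complex.mul_re,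
      Complex.mul_im, Complex.conj_re, Complex.conj_im] at *
    linear_combination (h.a.re * h.a.re + h.a.im * h.a.im -
      (h.b.re * h.b.re + h.b.im * h.b.im)) * h1 + h2⟩

noncomputable instance : One SU11 where
  one := ⟨1, 0, by simp⟩

noncomputable instance : Inv SU11 where
  inv g := ⟨conj g.a, -g.b, by simpa using g.norm_eq⟩

theorem mul_a (g h : SU11) : (g * h).a = g.a * h.a + g.b * conj h.b := rfl

theorem mul_b (g h : SU11) : (g * h).b = g.a * h.b + g.b * conj h.a := rfl

@[simp] theorem one_a : (1 : SU11).a = 1 := rfl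

@[simp] theorem one_b : (1 : SU11).b = 0 := rfl

@[simp] theorem inv_a (g : SU11) : g⁻¹.a = conj g.a := rfl

@[simp] theorem inv_b (g : SU11) : g⁻¹.b = -g.b := rfl

noncomputable instance : Group SU11 :=
  Group.ofLeftAxioms
    (fun x y z => by
      apply SU11.ext
      · simp only [mul_a, mul_b, map_add, map_mul, Complex.conj_conj]
        ring
      · simp only [mul_a, mul_b, map_add, map_mul, Complex.conj_conj]
        ring)
    (fun x => by
      apply SU11.ext
      · simp only [mul_a, one_a, one_b, one_mul, zero_mul, add_zero]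
      · simp only [mul_b, one_a, one_b, one_mul, zero_mul, add_zero])
    (fun x => by
      have h1 := x.norm_eq
      apply SU11.ext
      · simp only [mul_a, inv_a, inv_b, one_a]
        rw [mul_comm ((starRingEnd ℂ) x.a) x.a, neg_mul, Complex.mul_conj, Complex.mul_conj]
        rw [← sub_eq_add_neg, ← Complex.ofReal_sub, h1, Complex.ofReal_one]
      · simp only [mul_b, inv_a, inv_b, one_b]
        ring)

/-- Eisenstein integers -/
noncomputable def eis (p q : ℤ) : ℂ := p + q * (⟨-(1 / 2), Real.sqrt 3 / 2⟩ : ℂ)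

theorem eis_re (p q : ℤ) : (eis p q).re = p - q / 2 := by
  simp only [eis, Complex.add_re, Complex.mul_re, Complex.intCast_re, Complex.intCast_im]
  ring

theorem eis_im (p q : ℤ) : (eis p q).im = q * (Real.sqrt 3 / 2) := by
  simp only [eis, Complex.add_im, Complex.mul_im, Complex.intCast_re, Complex.intCast_im]
  ring

theorem eis_add (p q r s : ℤ) : eis p q + eis r s = eis (p + r) (q + s) := by
  apply Complex.ext
  · rw [Complex.add_re, eis_re, eis_re, eis_re]
    push_cast
    ring
  · rw [Complex.add_im, eis_im, eis_im, eis_im]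
    push_cast
    ring

theorem eis_mul (p q r s : ℤ) :
    eis p q * eis r s = eis (p * r - q * s) (p * s + q * r - q * s) := by
  have h3 : Real.sqrt 3 * Real.sqrt 3 = 3 := Real.mul_self_sqrt (by norm_num)
  apply Complex.ext
  · rw [Complex.mul_re, eis_re, eis_re, eis_re, eis_im, eis_im]
    push_cast
    linear_combination (-(q * s / 4 : ℝ)) * h3
  · rw [Complex.mul_im, eis_re, eis_re, eis_im, eis_im, eis_im]
    push_cast
    ring

theorem eis_conj (p q : ℤ) : conj (eis p q) = eis (p - q) (-q) := by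
  apply Complex.ext
  · rw [Complex.conj_re, eis_re, eis_re]
    push_cast
    ring
  · rw [Complex.conj_im, eis_im, eis_im]
    push_cast
    ring

theorem normSq_eis (p q : ℤ) :
    Complex.normSq (eis p q) = ((p ^ 2 - p * q + q ^ 2 : ℤ) : ℝ) := by
  have h3 : Real.sqrt 3 * Real.sqrt 3 = 3 := Real.mul_self_sqrt (by norm_num)
  rw [Complex.normSq_apply, eis_re, eis_im]
  push_cast
  linear_combination (q * q / 4 : ℝ) * h3

/-- `√-3` as an Eisenstein integer -/
theorem eis_one_two : eis 1 2 = (Real.sqrt 3 : ℂ) * Complex.I := by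
  apply Complex.ext
  · rw [eis_re]
    simp
  · rw [eis_im]
    simp
    ring

theorem eis_neg (p q : ℤ) : -eis p q = eis (-p) (-q) := by
  apply Complex.ext
  · rw [Complex.neg_re, eis_re, eis_re]
    push_cast
    ring
  · rw [Complex.neg_im, eis_im, eis_im]
    push_cast
    ring

theorem eis_two_mul (p q : ℤ) : 2 * eis p q = eis (2 * p) (2 * q) := by
  rw [two_mul, eis_add, two_mul, two_mul]

theorem conj_eis_one_two : conj (eis 1 2) = -eis 1 2 := by
  rw [eis_conj, eis_neg]
  norm_num

theorem eis_one_two_sq : eis 1 2 * eis 1 2 = -3 := by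
  rw [eis_one_two]
  have h3 : (Real.sqrt 3 : ℂ) * (Real.sqrt 3 : ℂ) = 3 := by
    rw [← Complex.ofReal_mul, Real.mul_self_sqrt (by norm_num)]
    norm_num
  linear_combination (Complex.I * Complex.I) * h3 + 3 * Complex.I_mul_I

theorem sqrt_six_sq : (Real.sqrt 6 : ℂ) * (Real.sqrt 6 : ℂ) = 6 := by
  rw [← Complex.ofReal_mul, Real.mul_self_sqrt (by norm_num)]
  norm_num

/-- the arithmetic group -/
noncomputable def LG : Subgroup SU11 where
  carrier := {g | (∃ x y : ℤ, g.a = 1 + 2 * ((Real.sqrt 3 : ℂ) * Complex.I) * eis x y) ∧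
    ∃ p q : ℤ, g.b = (Real.sqrt 6 : ℂ) * eis p q}
  mul_mem' := by
    rintro g h ⟨⟨x, y, hg⟩, p, q, hg'⟩ ⟨⟨x', y', hh⟩, p', q', hh'⟩
    rw [← eis_one_two] at hg hh
    have h6 := sqrt_six_sq
    have hs := eis_one_two_sq
    have hcs := conj_eis_one_two
    constructor
    · have key : (g * h).a = 1 + 2 * eis 1 2 * (eis x y + eis x' y' +
          (eis 1 2 * (eis x y * eis x' y') + eis 1 2 * (eis x y * eis x' y')) +
          -(eis 1 2 * (eis p q * conj (eis p' q')))) := by
        rw [mul_a, hg, hh, hg', hh', map_mul, Complex.conj_ofReal]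
        linear_combination (eis p q * conj (eis p' q')) * h6 +
          (2 * eis p q * conj (eis p' q')) * hs
      rw [← eis_one_two]
      rw [eis_conj, eis_mul, eis_mul, eis_mul, eis_mul, eis_neg, eis_add, eis_add, eis_add,
        eis_add] at key
      exact ⟨_, _, key⟩
    · have key : (g * h).b = (Real.sqrt 6 : ℂ) * (eis p' q' + 2 * (eis 1 2 * (eis x y * eis p' q')) +
          eis p q + -(2 * (eis 1 2 * (eis p q * conj (eis x' y'))))) := by
        rw [mul_b, hg, hh, hg', hh', map_add, map_mul, map_mul, map_one, hcs, Complex.conj_ofNat]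
        ring
      rw [eis_conj, eis_mul, eis_mul, eis_mul, eis_mul, eis_two_mul, eis_two_mul, eis_neg, eis_add,
        eis_add, eis_add] at key
      exact ⟨_, _, key⟩
  one_mem' := by
    refine ⟨⟨0, 0, ?_⟩, 0, 0, ?_⟩
    · simp [eis]
    · simp [eis]
  inv_mem' := by
    rintro g ⟨⟨x, y, hg⟩, p, q, hg'⟩
    rw [← eis_one_two] at hg
    have hcs := conj_eis_one_two
    constructor
    · have key : (g⁻¹).a = 1 + 2 * eis 1 2 * -(conj (eis x y)) := by
        rw [inv_a, hg, map_add, map_mul, map_mul, map_one, hcs, Complex.conj_ofNat]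
        ring
      rw [← eis_one_two]
      rw [eis_conj, eis_neg] at key
      exact ⟨_, _, key⟩
    · have key : (g⁻¹).b = (Real.sqrt 6 : ℂ) * -(eis p q) := by
        rw [inv_b, hg']
        ring
      rw [eis_neg] at key
      exact ⟨_, _, key⟩

theorem mem_LG (g : SU11) : g ∈ LG ↔
    (∃ x y : ℤ, g.a = 1 + 2 * ((Real.sqrt 3 : ℂ) * Complex.I) * eis x y) ∧
    ∃ p q : ℤ, g.b = (Real.sqrt 6 : ℂ) * eis p q := Iff.rfl

/-- the real part of `a` is `1 - 3 y` -/
theorem re_a_of_mem (g : SU11) (hg : g ∈ LG) : ∃ y : ℤ, g.a.re = 1 - 3 * y := by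
  obtain ⟨⟨x, y, h⟩, -⟩ := hg
  have h3 : Real.sqrt 3 * Real.sqrt 3 = 3 := Real.mul_self_sqrt (by norm_num)
  refine ⟨y, ?_⟩
  have h1 := congrArg Complex.re h
  rw [h1]
  simp only [Complex.add_re, Complex.one_re, Complex.mul_re, Complex.mul_im, Complex.re_ofNat,
    Complex.im_ofNat, Complex.ofReal_re, Complex.ofReal_im, Complex.I_re, Complex.I_im, eis_re,
    eis_im]
  linear_combination (-(y : ℝ)) * h3

theorem int_mem_of_sq_le (x : ℤ) (N : ℕ) (h : (x : ℝ) ^ 2 ≤ N) :
    x ∈ Set.Icc (-(N : ℤ)) N := by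
  have h1 : x ^ 2 ≤ (N : ℤ) := by exact_mod_cast h
  constructor
  · nlinarith [sq_nonneg (x + 1), sq_nonneg x]
  · nlinarith [sq_nonneg (x - 1), sq_nonneg x]

/-- discreteness -/
theorem finite_LG (C : ℝ) : {g : LG | Complex.normSq (g : SU11).a ≤ C}.Finite := by
  obtain ⟨N, hN⟩ := exists_nat_ge (C + 1)
  have hfin : ((Set.Icc (-(N : ℤ)) N ×ˢ Set.Icc (-(N : ℤ)) N) ×ˢ
      (Set.Icc (-(N : ℤ)) N ×ˢ Set.Icc (-(N : ℤ)) N)).Finite :=
    ((Set.finite_Icc _ _).prod (Set.finite_Icc _ _)).prod
      ((Set.finite_Icc _ _).prod (Set.finite_Icc _ _))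
  refine Set.Finite.of_finite_image (f := fun g : LG => ((g : SU11).a, (g : SU11).b)) ?_ ?_
  · refine (hfin.image (fun t : (ℤ × ℤ) × (ℤ × ℤ) =>
      (1 + 2 * ((Real.sqrt 3 : ℂ) * Complex.I) * eis t.1.1 t.1.2,
        (Real.sqrt 6 : ℂ) * eis t.2.1 t.2.2))).subset ?_
    rintro _ ⟨⟨g, hg⟩, hgC, rfl⟩
    have hgC' : Complex.normSq g.a ≤ C := hgC
    obtain ⟨⟨x, y, ha⟩, p, q, hb⟩ := id hg
    have hn := g.norm_eq
    have hb2 : Complex.normSq g.b = 6 * ((p : ℝ) ^ 2 - p * q + (q : ℝ) ^ 2) := by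
      rw [hb, Complex.normSq_mul, Complex.normSq_ofReal, Real.mul_self_sqrt (by norm_num),
        normSq_eis]
      push_cast
      ring
    have ha2 : Complex.normSq (g.a - 1) = 12 * ((x : ℝ) ^ 2 - x * y + (y : ℝ) ^ 2) := by
      have h1 : g.a - 1 = 2 * ((Real.sqrt 3 : ℂ) * Complex.I) * eis x y := by
        rw [ha]
        ring
      rw [h1, Complex.normSq_mul, Complex.normSq_mul, Complex.normSq_mul, Complex.normSq_ofReal,
        Real.mul_self_sqrt (by norm_num), normSq_eis, Complex.normSq_I, Complex.normSq_ofNat]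
      push_cast
      ring
    have ha3 : Complex.normSq (g.a - 1) ≤ 2 * Complex.normSq g.a + 2 := by
      rw [Complex.normSq_apply, Complex.normSq_apply, Complex.sub_re, Complex.sub_im,
        Complex.one_re, Complex.one_im]
      nlinarith [sq_nonneg (g.a.re + 1), sq_nonneg g.a.im]
    have hb0 := Complex.normSq_nonneg g.b
    refine ⟨((x, y), (p, q)), ⟨⟨?_, ?_⟩, ?_, ?_⟩, ?_⟩
    · exact int_mem_of_sq_le x N (by nlinarith [sq_nonneg ((x : ℝ) - 2 * y), sq_nonneg (x : ℝ)])
    · exact int_mem_of_sq_le y N (by nlinarith [sq_nonneg ((y : ℝ) - 2 * x), sq_nonneg (y : ℝ)])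
    · exact int_mem_of_sq_le p N (by nlinarith [sq_nonneg ((p : ℝ) - 2 * q), sq_nonneg (p : ℝ)])
    · exact int_mem_of_sq_le q N (by nlinarith [sq_nonneg ((q : ℝ) - 2 * p), sq_nonneg (q : ℝ)])
    · exact Prod.ext ha.symm hb.symm
  · rintro ⟨g, hg⟩ - ⟨h, hh⟩ - heq
    have h1 := (Prod.mk.injEq _ _ _ _).mp heq
    exact Subtype.ext (SU11.ext h1.1 h1.2)

/-- the arithmetic group, written additively -/
abbrev Lam : Type := Additive LG

/-- the matrix of an element -/
def gel (l : Lam) : SU11 := ((Additive.toMul l : LG) : SU11)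

theorem gel_zero : gel 0 = 1 := rfl

theorem gel_add (l l' : Lam) : gel (l + l') = gel l * gel l' := rfl

theorem gel_injective : Function.Injective gel := fun l l' h =>
  Additive.toMul.injective (Subtype.ext h)

end Pool.Agent.HAF2
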