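import Pool.Agent.HAF2.HypDefs

/-!
# Module HYM: the hyperbolic manifold

* `hN_hact`: the Lorentz form `T ^ 2 - ‖Z‖ ^ 2` is invariant.
* properness: `(T' : ℝ) = (hact g X).1 ≥ (‖a‖^2 + ‖b‖^2) (T - ‖Z‖)`, so `normSq a` is bounded for
  `X`, `hact g X` near given points; then `finite_LG`.
* freeness: if `hact g X = X` then `a Z + b T = conj a Z - b T`, so `b T = - I * im a * Z` and
  `(re a)^2 <= 1`, with equality only for `b = 0`; `re a = 1 - 3 y`.
-/

namespace Pool.Agent.HAF2

open Filter Topology MeasureTheory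
open scoped ContDiff ComplexConjugate
open Pool.Agent.HaefligerClasses (QuotientManifold IsForm HaefligerStructure curvature
  torusElement)

theorem hact_mul (g h : SU11) (X : ℝ × ℂ) : hact (g * h) X = hact g (hact h X) := by
  unfold hact
  refine Prod.ext ?_ (Complex.ext ?_ ?_)
  · simp only [mul_a, mul_b, Complex.normSq_apply, Complex.add_re, Complex.add_im,
      Complex.mul_re, Complex.mul_im, Complex.conj_re, Complex.conj_im, pow_two,
      Complex.re_ofNat, Complex.im_ofNat, Complex.ofReal_re, Complex.ofReal_im,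
      map_add, map_mul, Complex.conj_conj]
    ring
  · simp only [mul_a, mul_b, Complex.normSq_apply, Complex.add_re, Complex.add_im,
      Complex.mul_re, Complex.mul_im, Complex.conj_re, Complex.conj_im, pow_two,
      Complex.re_ofNat, Complex.im_ofNat, Complex.ofReal_re, Complex.ofReal_im,
      map_add, map_mul, Complex.conj_conj]
    ring
  · simp only [mul_a, mul_b, Complex.normSq_apply, Complex.add_re, Complex.add_im,
      Complex.mul_re, Complex.mul_im, Complex.conj_re, Complex.conj_im, pow_two,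
      Complex.re_ofNat, Complex.im_ofNat, Complex.ofReal_re, Complex.ofReal_im,
      map_add, map_mul, Complex.conj_conj]
    ring

theorem hact_one (X : ℝ × ℂ) : hact 1 X = X := by
  unfold hact
  refine Prod.ext ?_ (Complex.ext ?_ ?_) <;> simp

theorem lorentz_hact (g : SU11) (X : ℝ × ℂ) :
    (hact g X).1 ^ 2 - Complex.normSq (hact g X).2 = X.1 ^ 2 - Complex.normSq X.2 := by
  have h := g.norm_eq
  have key : (hact g X).1 ^ 2 - Complex.normSq (hact g X).2 =
      (Complex.normSq g.a - Complex.normSq g.b) ^ 2 * (X.1 ^ 2 - Complex.normSq X.2) := by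
    unfold hact
    simp only [Complex.normSq_apply, Complex.add_re, Complex.add_im,
      Complex.mul_re, Complex.mul_im, Complex.conj_re, Complex.conj_im, pow_two,
      Complex.re_ofNat, Complex.im_ofNat, Complex.ofReal_re, Complex.ofReal_im]
    ring
  rw [key, h]
  ring

theorem hN_hact (g : SU11) (X : ℝ × ℂ) : hN (hact g X) = hN X := by
  unfold hN
  rw [lorentz_hact]

theorem hym_norm_sq (z : ℂ) : Complex.normSq z = ‖z‖ ^ 2 := Complex.normSq_eq_norm_sq z

/-- lower bound for the height -/
theorem hym_height (g : SU11) (X : ℝ × ℂ) :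
    (Complex.normSq g.a + Complex.normSq g.b) * (X.1 - ‖X.2‖) ≤ (hact g X).1 := by
  have h1 : -(‖g.a‖ * ‖g.b‖ * ‖X.2‖) ≤ (g.a * conj g.b * X.2).re := by
    have h2 := Complex.abs_re_le_norm (g.a * conj g.b * X.2)
    rw [norm_mul, norm_mul, Complex.norm_conj] at h2
    exact (abs_le.1 h2).1
  have h3 : 2 * (‖g.a‖ * ‖g.b‖) ≤ ‖g.a‖ ^ 2 + ‖g.b‖ ^ 2 := by
    nlinarith [sq_nonneg (‖g.a‖ - ‖g.b‖)]
  have h4 := mul_le_mul_of_nonneg_right h3 (norm_nonneg X.2)
  show _ ≤ (Complex.normSq g.a + Complex.normSq g.b) * X.1 + 2 * (g.a * conj g.b * X.2).re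
  rw [hym_norm_sq, hym_norm_sq]
  nlinarith

theorem hym_normSq_a (g : SU11) : 1 ≤ Complex.normSq g.a := by
  have h := g.norm_eq
  have h2 := Complex.normSq_nonneg g.b
  linarith

theorem hym_pos (X : ℝ × ℂ) (hX : X ∈ hU) : 0 < X.1 ^ 2 - Complex.normSq X.2 := by
  have h : ‖X.2‖ < X.1 := hX
  have h0 := norm_nonneg X.2
  rw [hym_norm_sq]
  nlinarith

theorem hact_mem (g : SU11) (X : ℝ × ℂ) (hX : X ∈ hU) : hact g X ∈ hU := by
  have h : ‖X.2‖ < X.1 := hX
  have h1 := hym_height g X
  have h2 := hym_normSq_a g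
  have h3 := Complex.normSq_nonneg g.b
  have h4 : 0 < (hact g X).1 := by
    refine lt_of_lt_of_le ?_ h1
    exact mul_pos (by linarith) (by linarith)
  have h5 : 0 < (hact g X).1 ^ 2 - ‖(hact g X).2‖ ^ 2 := by
    rw [← hym_norm_sq, lorentz_hact]
    exact hym_pos X hX
  show ‖(hact g X).2‖ < (hact g X).1
  exact lt_of_pow_lt_pow_left₀ 2 h4.le (by linarith)

theorem hN_pos (X : ℝ × ℂ) (hX : X ∈ hU) : 0 < hN X :=
  Real.sqrt_pos.2 (hym_pos X hX)

theorem hN_sq (X : ℝ × ℂ) (hX : X ∈ hU) : hN X ^ 2 = X.1 ^ 2 - Complex.normSq X.2 :=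
  Real.sq_sqrt (hym_pos X hX).le

theorem add_hN_pos (X : ℝ × ℂ) (hX : X ∈ hU) : 0 < X.1 + hN X := by
  have h : ‖X.2‖ < X.1 := hX
  have h0 := norm_nonneg X.2
  have h1 := hN_pos X hX
  linarith

theorem isOpen_hU : IsOpen hU :=
  isOpen_lt (continuous_norm.comp continuous_snd) continuous_fst

theorem hym_contDiff_normSq : ContDiff ℝ ∞ (fun z : ℂ => Complex.normSq z) := by
  have h : (fun z : ℂ => Complex.normSq z) =
      fun z : ℂ => Complex.reCLM z * Complex.reCLM z + Complex.imCLM z * Complex.imCLM z := by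
    funext z
    rw [Complex.normSq_apply]
    rfl
  rw [h]
  exact (Complex.reCLM.contDiff.mul Complex.reCLM.contDiff).add
    (Complex.imCLM.contDiff.mul Complex.imCLM.contDiff)

theorem contDiffOn_hN : ContDiffOn ℝ ∞ hN hU := by
  unfold hN
  refine ContDiffOn.sqrt ?_ (fun X hX => (hym_pos X hX).ne')
  exact ((contDiff_fst.pow 2).sub (hym_contDiff_normSq.comp contDiff_snd)).contDiffOn

/-- the action as a continuous linear map -/
noncomputable def hactL (g : SU11) : (ℝ × ℂ) →L[ℝ] (ℝ × ℂ) :=
  LinearMap.toContinuousLinearMap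
    { toFun := hact g
      map_add' := by
        intro X Y
        unfold hact
        refine Prod.ext ?_ ?_
        · simp only [Prod.fst_add, Prod.snd_add, mul_add, Complex.add_re]
          ring
        · simp only [Prod.fst_add, Prod.snd_add, mul_add, map_add, Complex.ofReal_add]
          ring
      map_smul' := by
        intro t X
        unfold hact
        refine Prod.ext ?_ ?_
        · simp only [Prod.smul_fst, Prod.smul_snd, smul_eq_mul, RingHom.id_apply,
            Complex.real_smul]
          have h1 : g.a * conj g.b * ((t : ℂ) * X.2) = (t : ℂ) * (g.a * conj g.b * X.2) := by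
            ring
          rw [h1, Complex.re_ofReal_mul]
          ring
        · simp only [Prod.smul_fst, Prod.smul_snd, smul_eq_mul, RingHom.id_apply,
            Complex.real_smul, map_mul, Complex.conj_ofReal, Complex.ofReal_mul]
          ring }

@[simp] theorem hactL_apply (g : SU11) (X : ℝ × ℂ) : hactL g X = hact g X := rfl

theorem fderiv_hact (g : SU11) (X : ℝ × ℂ) : fderiv ℝ (hact g) X = hactL g := by
  have h : hact g = fun Y => hactL g Y := rfl
  rw [h]
  exact (hactL g).fderiv

/-- the fixed points -/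
theorem hym_free (g : SU11) (hg : g ∈ LG) (X : ℝ × ℂ) (hX : X ∈ hU) (h : hact g X = X) :
    g = 1 := by
  have hT : 0 < X.1 := by
    have h1 : ‖X.2‖ < X.1 := hX
    have h0 := norm_nonneg X.2
    linarith
  have hp := hym_pos X hX
  obtain ⟨y0, hy0⟩ := re_a_of_mem g hg
  have hn := g.norm_eq
  have e1 : (hact g X).1 = X.1 := by rw [h]
  have e2 : (hact g X).2.re = X.2.re := by rw [h]
  have e3 : (hact g X).2.im = X.2.im := by rw [h]
  unfold hact at e1 e2 e3
  obtain ⟨T, Z⟩ := X
  simp only [Complex.normSq_apply, Complex.add_re, Complex.add_im,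
      Complex.mul_re, Complex.mul_im, Complex.conj_re, Complex.conj_im, pow_two,
      Complex.re_ofNat, Complex.im_ofNat, Complex.ofReal_re, Complex.ofReal_im] at e1 e2 e3 hn hp hT
  set p := g.a.re with hpdef
  set q := g.a.im with hqdef
  set r := g.b.re with hrdef
  set s := g.b.im with hsdef
  set x := Z.re
  set y := Z.im
  have f1 : r * T = q * y := by
    linear_combination (1 / 2) * (p * e2 + q * e3 - r * e1 - (p * x - q * y + r * T) * hn)
  have f2 : s * T = -(q * x) := by
    linear_combination (1 / 2) * (p * e3 - q * e2 - s * e1 - (p * y + q * x + s * T) * hn)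
  have f3 : (r * r + s * s) * (T * T) = q * q * (x * x + y * y) := by
    linear_combination (r * T + q * y) * f1 + (s * T - q * x) * f2
  have hTT : 0 < T * T := mul_pos hT hT
  have f4 : (r * r + s * s) * (T * T) ≤ q * q * (T * T) := by
    rw [f3]
    exact mul_le_mul_of_nonneg_left (by linarith) (mul_self_nonneg q)
  have f5 : r * r + s * s ≤ q * q := le_of_mul_le_mul_right f4 hTT
  have f6 : p * p ≤ 1 := by linarith
  have f7 : y0 = 0 := by
    have g1 : (1 - 3 * (y0 : ℝ)) * (1 - 3 * (y0 : ℝ)) ≤ 1 := by rw [← hy0]; exact f6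
    have g2 : (1 - 3 * y0) * (1 - 3 * y0) ≤ 1 := by exact_mod_cast g1
    by_contra hne
    rcases lt_or_gt_of_ne hne with h3 | h3
    · have : y0 ≤ -1 := by omega
      nlinarith
    · have : 1 ≤ y0 := by omega
      nlinarith
  have f8 : p = 1 := by rw [hy0, f7]; simp
  have f9 : q * q = r * r + s * s := by
    rw [f8] at hn
    linarith
  have f10 : q * q * (T * T - (x * x + y * y)) = 0 := by
    linear_combination f3 + T * T * f9
  have f11 : q * q = 0 := by
    rcases mul_eq_zero.1 f10 with h1 | h1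
    · exact h1
    · exfalso
      linarith
  have f12 : q = 0 := mul_self_eq_zero.1 f11
  have f13 : r = 0 := by
    have : r * r = 0 := by nlinarith [mul_self_nonneg r, mul_self_nonneg s]
    exact mul_self_eq_zero.1 this
  have f14 : s = 0 := by
    have : s * s = 0 := by nlinarith [mul_self_nonneg r, mul_self_nonneg s]
    exact mul_self_eq_zero.1 this
  ext
  · refine Complex.ext ?_ ?_
    · rw [one_a, Complex.one_re]; exact f8
    · rw [one_a, Complex.one_im]; exact f12
  · refine Complex.ext ?_ ?_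
    · rw [one_b, Complex.zero_re]; exact f13
    · rw [one_b, Complex.zero_im]; exact f14

theorem hym_proper (X Y : ℝ × ℂ) (hX : X ∈ hU) : ∃ V ∈ 𝓝 X, ∃ W ∈ 𝓝 Y,
    {l : Lam | ∃ z ∈ V ∩ hU, hact (gel l) z ∈ W}.Finite := by
  have h : ‖X.2‖ < X.1 := hX
  set d : ℝ := (X.1 - ‖X.2‖) / 2 with hd
  have hd0 : 0 < d := by rw [hd]; linarith
  have hcont : Continuous (fun Z : ℝ × ℂ => Z.1 - ‖Z.2‖) :=
    continuous_fst.sub (continuous_norm.comp continuous_snd)
  refine ⟨{Z | d < Z.1 - ‖Z.2‖}, ?_, {Z | Z.1 < Y.1 + 1}, ?_, ?_⟩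
  · exact (isOpen_lt continuous_const hcont).mem_nhds (by show d < _; rw [hd]; linarith)
  · exact (isOpen_lt continuous_fst continuous_const).mem_nhds (by show Y.1 < Y.1 + 1; linarith)
  · have hfin : {l : Lam | Complex.normSq (gel l).a ≤ (Y.1 + 1) / d}.Finite :=
      (finite_LG ((Y.1 + 1) / d)).preimage (Additive.toMul.injective.injOn)
    refine hfin.subset ?_
    rintro l ⟨z, ⟨hz1, -⟩, hz2⟩
    have hz1' : d < z.1 - ‖z.2‖ := hz1
    have hz2' : (hact (gel l) z).1 < Y.1 + 1 := hz2
    have h1 := hym_height (gel l) z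
    have h2 := Complex.normSq_nonneg (gel l).b
    have h3 := Complex.normSq_nonneg (gel l).a
    show Complex.normSq (gel l).a ≤ (Y.1 + 1) / d
    rw [le_div_iff₀ hd0]
    have h4 : Complex.normSq (gel l).a * d ≤
        (Complex.normSq (gel l).a + Complex.normSq (gel l).b) * (z.1 - ‖z.2‖) :=
      mul_le_mul (by linarith) hz1'.le hd0.le (by linarith)
    linarith

/-- the hyperbolic manifold -/
noncomputable def hypM : QuotientManifold (ℝ × ℂ) Lam where
  U := hU
  isOpen_U := isOpen_hU
  act := fun l => hact (gel l)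
  smooth_act := fun l => (hactL (gel l)).contDiff.contDiffOn
  mapsTo := fun l x hx => hact_mem (gel l) x hx
  act_zero := fun x _ => by
    show hact (gel 0) x = x
    rw [gel_zero, hact_one]
  act_add := fun l l' x _ => by
    show hact (gel (l + l')) x = _
    rw [gel_add, hact_mul]
  free := fun l x hx h => by
    apply gel_injective
    rw [gel_zero]
    exact hym_free (gel l) (Additive.toMul l : LG).2 x hx h
  proper := fun x hx y _ => hym_proper x y hx

end Pool.Agent.HAF2
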