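import Pool.Agent.HAF2.SphPow

/-!
# Module SBS: the base of a suspension

From a base with roots indexed by `R` we get a base on the sphere bundle with roots indexed by
`Option R`: the new root has the cocycle `rhoS`, the connection `thS` and the curvature `crvS`; the
new unitary line bundle is the `m`-th power of `ℓ`. The integral property follows from
`sph_power_monomial`.
-/

namespace Pool.Agent.HAF2

open Filter Topology MeasureTheory
open scoped ContDiff ComplexConjugate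
open Pool.Agent.HaefligerClasses (QuotientManifold IsForm HaefligerStructure curvature
  torusElement)

section

variable {E : Type} [NormedAddCommGroup E] [NormedSpace ℝ E] {Λ : Type} [AddGroup Λ]

/-- the phase of the cocycle of `ℓ` -/
theorem hasPhase_J {M : QuotientManifold E Λ} (L : ULine M) (l : Λ) (p : E × ℂ × ℝ)
    (hp : p ∈ sphU M) : HasPhase (fun q : E × ℂ × ℝ => L.J l q.1)
      ((L.a p.1 - L.a (M.act l p.1) ∘L fderiv ℝ (M.act l) p.1) ∘L
        ContinuousLinearMap.fst ℝ E (ℂ × ℝ)) p := by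
  have h1 : DifferentiableAt ℝ (L.J l) p.1 :=
    ((L.smooth_J l).contDiffAt (M.isOpen_U.mem_nhds hp.1)).differentiableAt (by simp)
  have h2 : HasFDerivAt (fun q : E × ℂ × ℝ => L.J l q.1)
      (fderiv ℝ (L.J l) p.1 ∘L ContinuousLinearMap.fst ℝ E (ℂ × ℝ)) p :=
    h1.hasFDerivAt.comp p (ContinuousLinearMap.fst ℝ E (ℂ × ℝ)).hasFDerivAt
  refine h2.congr_fderiv ?_
  refine ContinuousLinearMap.ext fun u => ?_
  have h3 := L.a_compat l p.1 hp.1 u.1
  simp only [ContinuousLinearMap.comp_apply, ContinuousLinearMap.coe_fst'] at h3 ⊢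
  rw [h3]
  simp

/-- the `m`-th power of `ℓ` on the sphere bundle -/
noncomputable def sphL {M : QuotientManifold E Λ} (L : ULine M) (m : ℕ) : ULine (sphM M L) where
  J := fun l p => L.J l p.1 ^ m
  smooth_J := by
    intro l p hp
    have h1 : ContDiffAt ℝ ∞ (L.J l) p.1 := (L.smooth_J l).contDiffAt (M.isOpen_U.mem_nhds hp.1)
    have h2 : ContDiffAt ℝ ∞ (fun q : E × ℂ × ℝ => L.J l q.1) p := h1.comp p contDiffAt_fst
    exact (h2.pow m).contDiffWithinAt
  norm_J := by
    intro l p hp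
    rw [norm_pow, L.norm_J l p.1 hp.1, one_pow]
  J_add := by
    intro l l' p hp
    rw [L.J_add l l' p.1 hp.1, mul_pow]
    rfl
  a := fun p => (m : ℝ) • (L.a p.1 ∘L ContinuousLinearMap.fst ℝ E (ℂ × ℝ))
  smooth_a := by
    intro p hp
    have h8 : ContDiffAt ℝ ∞ L.a p.1 := L.smooth_a.contDiffAt (M.isOpen_U.mem_nhds hp.1)
    have h7 : ContDiffAt ℝ ∞ (fun q : E × ℂ × ℝ => L.a q.1) p := h8.comp p contDiffAt_fst
    have h9 : ContDiffAt ℝ ∞ (fun q : E × ℂ × ℝ => (m : ℝ) • (L.a q.1 ∘L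
        ContinuousLinearMap.fst ℝ E (ℂ × ℝ))) p :=
      (h7.clm_comp contDiffAt_const).const_smul _
    exact h9.contDiffWithinAt
  a_compat := by
    intro l p hp u
    have h1 := ((hasPhase_J L l p hp).pow m).fderiv_apply u
    rw [h1]
    have h2 := fderiv_sphAct M L l p hp u
    have h3 : fderiv ℝ ((sphM M L).act l) p u = fderiv ℝ (sphAct M L l) p u := rfl
    rw [h3, h2]
    congr 2
    simp only [smul_apply, sub_apply, ContinuousLinearMap.comp_apply,
      ContinuousLinearMap.coe_fst', smul_eq_mul]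
    have h4 : ((sphM M L).act l p).1 = M.act l p.1 := rfl
    rw [h4]
    ring

theorem dform_sphL {M : QuotientManifold E Λ} (L : ULine M) (m : ℕ) (p : E × ℂ × ℝ)
    (hp : p ∈ sphU M) (u w : E × ℂ × ℝ) :
    dform (sphL L m).a p u w = m * dform L.a p.1 u.1 w.1 :=
  dform_smul_base M L (m : ℝ) p hp u w

/-- the exterior derivative of a pulled back form -/
theorem dform_fst (a : E → E →L[ℝ] ℝ) (p : E × ℂ × ℝ) (ha : DifferentiableAt ℝ a p.1)
    (u w : E × ℂ × ℝ) :
    dform (fun q : E × ℂ × ℝ => a q.1 ∘L ContinuousLinearMap.fst ℝ E (ℂ × ℝ)) p u w =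
      dform a p.1 u.1 w.1 := by
  have h1 : HasFDerivAt (fun q : E × ℂ × ℝ => a q.1)
      (fderiv ℝ a p.1 ∘L ContinuousLinearMap.fst ℝ E (ℂ × ℝ)) p :=
    ha.hasFDerivAt.comp p (ContinuousLinearMap.fst ℝ E (ℂ × ℝ)).hasFDerivAt
  have h2 : HasFDerivAt (fun q : E × ℂ × ℝ => a q.1 ∘L ContinuousLinearMap.fst ℝ E (ℂ × ℝ))
      (((ContinuousLinearMap.compL ℝ (E × ℂ × ℝ) E ℝ).flip
        (ContinuousLinearMap.fst ℝ E (ℂ × ℝ))) ∘L
        (fderiv ℝ a p.1 ∘L ContinuousLinearMap.fst ℝ E (ℂ × ℝ))) p :=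
    ((ContinuousLinearMap.compL ℝ (E × ℂ × ℝ) E ℝ).flip
        (ContinuousLinearMap.fst ℝ E (ℂ × ℝ))).hasFDerivAt.comp p h1
  unfold dform
  rw [h2.fderiv]
  simp

theorem pairSum_congr {N n : ℕ} (h : N = 2 * n) (A B : Fin N → Fin N → ℝ)
    (hAB : ∀ i j, A i j = B i j) : pairSum n h A = pairSum n h B := by
  have : A = B := by
    funext i j
    exact hAB i j
  rw [this]

/-- the integral depends only on the values of the form on the cycle -/
theorem power_congr {M : QuotientManifold E Λ} {N n : ℕ} (h : N = 2 * n) (C : Cycle M N)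
    (W W' : E → E → E → ℝ) (hW : ∀ x ∈ M.U, ∀ u w, W x u w = W' x u w) :
    C.power n h W = C.power n h W' := by
  unfold Cycle.power
  refine Finset.sum_congr rfl fun k _ => ?_
  refine setIntegral_congr_fun measurableSet_Icc fun ξ hξ => ?_
  exact pairSum_congr h _ _ fun i j => hW _ (C.mem_c k ξ hξ) _ _

end

theorem sphCond_one (b : ℕ) : SphCond 1 0 b (b + 1) 0 := by
  refine ⟨(-1) ^ (b + 1) - 2 ^ (b + 1), ?_, fun z y => ?_⟩
  · have h1 : (-1 : ℝ) ^ (b + 1) ≤ 1 := by
      have h2 : |(-1 : ℝ) ^ (b + 1)| = 1 := by rw [abs_pow, abs_neg, abs_one, one_pow]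
      exact le_trans (le_abs_self _) h2.le
    have h2 : (1 : ℝ) < 2 ^ (b + 1) := one_lt_pow₀ (by norm_num) (by simp)
    linarith
  · have h1 : -(((1 : ℕ) : ℝ)) * z + ((0 : ℕ) : ℝ) * y = (-1) * z := by push_cast; ring
    have h2 : 2 * z + ((0 : ℕ) : ℝ) * y = 2 * z := by push_cast; ring
    rw [h1, h2, mul_pow, mul_pow, pow_zero]
    ring

theorem sphCond_two : SphCond 2 2 1 1 1 := by
  refine ⟨-16, by norm_num, fun z y => ?_⟩
  push_cast
  ring

/-- continuity of the curvature along the cycle -/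
theorem continuousOn_curv {R : Type} [Fintype R] {n : ℕ} {α : R → ℕ} {b : ℕ} (B : Base R n α b)
    (r : R) (κ : B.cyc.κ) (i j : Fin B.N) :
    ContinuousOn (fun ξ => B.curv r (B.cyc.c κ ξ)
      (fderiv ℝ (B.cyc.c κ) ξ (Pi.single i 1)) (fderiv ℝ (B.cyc.c κ) ξ (Pi.single j 1)))
      (Set.Icc (0 : Fin B.N → ℝ) 1) := by
  intro ξ hξ
  have hc : Continuous (B.cyc.c κ) := (B.cyc.smooth_c κ).continuous
  have hd : Continuous (fderiv ℝ (B.cyc.c κ)) := (B.cyc.smooth_c κ).continuous_fderiv (by simp)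
  obtain ⟨s, hs⟩ := B.cover _ (B.cyc.mem_c κ ξ hξ)
  have h1 : ContDiffAt ℝ ∞ (B.θ s r) (B.cyc.c κ ξ) :=
    (B.smooth_θ s r).contDiffAt ((B.isOpen_dom s).mem_nhds hs)
  have h2 : ContinuousAt (fderiv ℝ (B.θ s r)) (B.cyc.c κ ξ) :=
    (h1.fderiv_right (m := 0) (by simp)).continuousAt
  have h3 : ContinuousAt (fun ξ => fderiv ℝ (B.θ s r) (B.cyc.c κ ξ)) ξ :=
    ContinuousAt.comp (f := B.cyc.c κ) h2 hc.continuousAt
  have h4 : ∀ i : Fin B.N,
      ContinuousAt (fun ξ => fderiv ℝ (B.cyc.c κ) ξ (Pi.single i 1)) ξ := fun i =>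
    (hd.clm_apply continuous_const).continuousAt
  have h5 : ContinuousAt (fun ξ => dform (B.θ s r) (B.cyc.c κ ξ)
      (fderiv ℝ (B.cyc.c κ) ξ (Pi.single i 1)) (fderiv ℝ (B.cyc.c κ) ξ (Pi.single j 1))) ξ := by
    unfold dform
    exact ((h3.clm_apply (h4 i)).clm_apply (h4 j)).sub ((h3.clm_apply (h4 j)).clm_apply (h4 i))
  refine ContinuousAt.continuousWithinAt (h5.congr ?_)
  have h6 : ∀ᶠ η in 𝓝 ξ, B.cyc.c κ η ∈ B.dom s :=
    hc.continuousAt.eventually ((B.isOpen_dom s).mem_nhds hs)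
  filter_upwards [h6] with η hη
  exact (B.curv_eq s r _ hη _ _).symm

theorem curv_antisymm {R : Type} [Fintype R] {n : ℕ} {α : R → ℕ} {b : ℕ} (B : Base R n α b)
    (r : R) (x : B.E) (hx : x ∈ B.M.U) (u w : B.E) : B.curv r x u w = -B.curv r x w u := by
  obtain ⟨s, hs⟩ := B.cover x hx
  rw [B.curv_eq s r x hs, B.curv_eq s r x hs]
  unfold dform
  ring

/-- the base on the sphere bundle -/
noncomputable def sphBase {R : Type} [Fintype R] {n : ℕ} {α : R → ℕ} {b : ℕ} (B : Base R n α b)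
    (k m a b' : ℕ) (h : SphCond k m b a b') : Base (Option R) (n + 1) (optExp α a) b' where
  E := B.E × ℂ × ℝ
  Λ := B.Λ
  M := sphM B.M B.ℓ
  ι := B.ι × Patch
  dom := fun i => {p | p.1 ∈ B.dom i.1 ∧ p ∈ patchDom B.M i.2}
  isOpen_dom := fun i =>
    ((B.isOpen_dom i.1).preimage continuous_fst).inter (isOpen_patchDom B.M i.2)
  dom_subset := fun i p hp => patchDom_subset B.M i.2 hp.2
  cover := by
    intro p hp
    obtain ⟨i, hi⟩ := B.cover p.1 hp.1
    obtain ⟨c, hc⟩ := patchDom_cover B.M p hp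
    exact ⟨(i, c), hi, hc⟩
  ρ := fun i l j p r => r.elim (rhoS B.ℓ k i.2 l j.2 p) (fun r => B.ρ i.1 l j.1 p.1 r)
  norm_ρ := by
    intro i l j p hj hi r
    cases r with
    | none => exact norm_rhoS B.M B.ℓ k i.2 l j.2 p hj.2 hi.2
    | some r => exact B.norm_ρ i.1 l j.1 p.1 hj.1 hi.1 r
  diff_ρ := by
    intro i l j p hj hi r
    cases r with
    | none => exact differentiableAt_rhoS B.M B.ℓ k i.2 l j.2 p hj.2 hi.2
    | some r =>
      have h1 := B.diff_ρ i.1 l j.1 p.1 hj.1 hi.1 r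
      exact DifferentiableAt.comp (g := fun y => B.ρ i.1 l j.1 y r) p h1 differentiableAt_fst
  θ := fun i r p => r.elim (thS B.ℓ k i.2 p)
    (fun r => B.θ i.1 r p.1 ∘L ContinuousLinearMap.fst ℝ B.E (ℂ × ℝ))
  smooth_θ := by
    intro i r
    cases r with
    | none => exact (contDiffOn_thS B.M B.ℓ k i.2).mono fun p hp => hp.2
    | some r =>
      intro p hp
      have h1 : ContDiffAt ℝ ∞ (B.θ i.1 r) p.1 :=
        (B.smooth_θ i.1 r).contDiffAt ((B.isOpen_dom i.1).mem_nhds hp.1)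
      have h2 : ContDiffAt ℝ ∞ (fun q : B.E × ℂ × ℝ => B.θ i.1 r q.1) p :=
        h1.comp p contDiffAt_fst
      exact (h2.clm_comp contDiffAt_const).contDiffWithinAt
  compat := by
    intro i l j p hj hi r u
    have hp : p ∈ sphU B.M := patchDom_subset B.M j.2 hj.2
    cases r with
    | none => exact rhoS_compat B.M B.ℓ k i.2 l j.2 p hj.2 hi.2 u
    | some r =>
      have h1 := B.diff_ρ i.1 l j.1 p.1 hj.1 hi.1 r
      have h2 := B.compat i.1 l j.1 p.1 hj.1 hi.1 r u.1
      have h3 : HasFDerivAt (fun q : B.E × ℂ × ℝ => B.ρ i.1 l j.1 q.1 r)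
          (fderiv ℝ (fun y => B.ρ i.1 l j.1 y r) p.1 ∘L
            ContinuousLinearMap.fst ℝ B.E (ℂ × ℝ)) p :=
        HasFDerivAt.comp (g := fun y => B.ρ i.1 l j.1 y r) p h1.hasFDerivAt
          (ContinuousLinearMap.fst ℝ B.E (ℂ × ℝ)).hasFDerivAt
      have h4 : (fderiv ℝ ((sphM B.M B.ℓ).act l) p u).1 = fderiv ℝ (B.M.act l) p.1 u.1 := by
        have h5 := fderiv_sphAct B.M B.ℓ l p hp u
        exact congrArg Prod.fst h5
      have h6 : fderiv ℝ (fun q : B.E × ℂ × ℝ => B.ρ i.1 l j.1 q.1 r) p u =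
          fderiv ℝ (fun y => B.ρ i.1 l j.1 y r) p.1 u.1 := by
        rw [h3.fderiv]
        rfl
      have h7 : ((sphM B.M B.ℓ).act l p).1 = B.M.act l p.1 := rfl
      simp only [Option.elim, ContinuousLinearMap.comp_apply, ContinuousLinearMap.coe_fst']
      rw [h6, h4, h2, h7]
  curv := fun r p u w => r.elim (crvS B.ℓ k p u w) (fun r => B.curv r p.1 u.1 w.1)
  curv_eq := by
    intro i r p hp u w
    cases r with
    | none => exact crvS_eq B.M B.ℓ k i.2 p hp.2 u w
    | some r =>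
      have h1 : DifferentiableAt ℝ (B.θ i.1 r) p.1 :=
        ((B.smooth_θ i.1 r).contDiffAt
          ((B.isOpen_dom i.1).mem_nhds hp.1)).differentiableAt (by simp)
      exact (B.curv_eq i.1 r p.1 hp.1 u.1 w.1).trans (dform_fst _ p h1 u w).symm
  ℓ := sphL B.ℓ m
  N := B.N + 2
  hN := by
    have := B.hN
    omega
  cyc := sphCyc B.M B.ℓ B.cyc
  integral := by
    classical
    obtain ⟨C₀, hC₀, hint⟩ := B.integral
    obtain ⟨C₁, hC₁, hsc⟩ := h
    have h' : B.N + 2 = 2 * (n + 1) := by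
      have := B.hN
      omega
    set K : R → B.E → B.E → B.E → ℝ := fun r x u w =>
      if x ∈ B.M.U then B.curv r x u w else 0 with hKdef
    have hKU : ∀ r, ∀ x ∈ B.M.U, ∀ u w, K r x u w = B.curv r x u w := by
      intro r x hx u w
      simp only [hKdef, if_pos hx]
    have hK0 : ∀ r, ∀ x ∈ B.M.U, ∀ w, K r x 0 w = 0 := by
      intro r x hx w
      obtain ⟨i, hi⟩ := B.cover x hx
      rw [hKU r x hx, B.curv_eq i r x hi 0 w, dform]
      simp
    have hK : ∀ r x u w, K r x u w = -K r x w u := by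
      intro r x u w
      by_cases hx : x ∈ B.M.U
      · rw [hKU r x hx, hKU r x hx]
        exact curv_antisymm B r x hx u w
      · simp only [hKdef, if_neg hx, neg_zero]
    have hcont : ∀ r κ i j, ContinuousOn (fun ξ => K r (B.cyc.c κ ξ)
        (fderiv ℝ (B.cyc.c κ) ξ (Pi.single i 1)) (fderiv ℝ (B.cyc.c κ) ξ (Pi.single j 1)))
        (Set.Icc (0 : Fin B.N → ℝ) 1) := by
      intro r κ i j
      refine (continuousOn_curv B r κ i j).congr fun ξ hξ => ?_
      exact hKU r _ (B.cyc.mem_c κ ξ hξ) _ _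
    have hint' : ∀ (x : R → ℝ) (y : ℝ),
        B.cyc.power n B.hN (fun p u w => ∑ r, x r * K r p u w + y * dform B.ℓ.a p u w) =
          C₀ * (∏ r, x r ^ α r) * y ^ b := by
      intro x y
      rw [← hint x y]
      refine power_congr B.hN B.cyc _ _ fun p hp u w => ?_
      congr 1
      exact Finset.sum_congr rfl fun r _ => by rw [hKU r p hp]
    refine ⟨4 * Real.pi * (n + 1) * C₀ * C₁ / (b + 1), ?_, fun x y => ?_⟩
    · have h1 : (0 : ℝ) < n + 1 := by positivity
      have h2 : (0 : ℝ) < b + 1 := by positivity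
      have h3 := Real.pi_pos
      positivity
    · have h1 := sph_power_monomial B.ℓ B.hN h' B.cyc k m b α K (fun r x _ u w => hK r x u w) hK0 hcont C₀
        hint'
        (fun r => x (some r)) (x none) y
      rw [hsc] at h1
      have h2 : (sphCyc B.M B.ℓ B.cyc).power (n + 1) h' (fun p u w =>
          ∑ r : Option R, x r * (r.elim (crvS B.ℓ k p u w) (fun r => B.curv r p.1 u.1 w.1)) +
            y * dform (sphL B.ℓ m).a p u w) =
          (sphCyc B.M B.ℓ B.cyc).power (n + 1) h' (fun p u w =>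
            ∑ r, x (some r) * K r p.1 u.1 w.1 + x none * crvS B.ℓ k p u w +
              y * (m * dform B.ℓ.a p.1 u.1 w.1)) := by
        refine power_congr h' _ _ _ fun p hp u w => ?_
        rw [dform_sphL B.ℓ m p hp, Fintype.sum_option]
        have h3 : ∑ r, x (some r) * K r p.1 u.1 w.1 =
            ∑ r, x (some r) * B.curv r p.1 u.1 w.1 :=
          Finset.sum_congr rfl fun r _ => by rw [hKU r p.1 hp.1]
        rw [h3]
        simp only [Option.elim]
        ring
      refine h2.trans (h1.trans ?_)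
      rw [Fintype.prod_option]
      simp only [optExp, Option.elim]
      ring

end Pool.Agent.HAF2
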