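import Pool.Agent.HAF2.SusDefs
import Pool.Agent.HAF2.SphConn

/-!
# Module SU2: the frames of the suspension

Put `w = sw D i c.ch`, `r = rad y t`, `y ≠ 0`. Derivatives (all as real derivatives):
`∂_t w = κ w / r`, rotation of `y` (direction `(0, I y, 0)`): `κ I w`, with `κ = kapS c.ch`, and in the
direction `(u, 0, 0)`: `κ * (conj (φ) dφ u) * w` (for `B` use
`conj (conj φ dφ) = -(conj φ dφ)`, since `‖φ‖ = 1`). Hence in the direction
`(u, -I a(u) y, 0)`: `κ I zeta(u) w`. Moreover `w = ‖w‖ (φ ŷ)^2` or `‖w‖ conj (φ ŷ)`, and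
`‖gA‖ ‖gB‖ = 1`, so `κ cS w = uS` for the patches `R`. This gives `sfr_eq_R`.
-/

namespace Pool.Agent.HAF2

open Filter Topology MeasureTheory
open scoped ContDiff ComplexConjugate
open Pool.Agent.HaefligerClasses (QuotientManifold IsForm HaefligerStructure curvature
  torusElement gA gB rad)

/-! ### linear algebra -/

private theorem det_tri_lin {V W : Type} [AddCommGroup V] [Module ℝ V] [AddCommGroup W]
    [Module ℝ W] [Module.Finite ℝ V] [Module.Finite ℝ W]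
    (A : V →ₗ[ℝ] V) (C : V →ₗ[ℝ] W) (B : W →ₗ[ℝ] W) :
    LinearMap.det (LinearMap.prod (A ∘ₗ LinearMap.fst ℝ V W)
      (C ∘ₗ LinearMap.fst ℝ V W + B ∘ₗ LinearMap.snd ℝ V W)) =
      LinearMap.det A * LinearMap.det B := by
  classical
  let b := Module.Free.chooseBasis ℝ V
  let b' := Module.Free.chooseBasis ℝ W
  have h : LinearMap.toMatrix (b.prod b') (b.prod b') (LinearMap.prod (A ∘ₗ LinearMap.fst ℝ V W)
      (C ∘ₗ LinearMap.fst ℝ V W + B ∘ₗ LinearMap.snd ℝ V W)) =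
      Matrix.fromBlocks (LinearMap.toMatrix b b A) 0 (LinearMap.toMatrix b b' C)
        (LinearMap.toMatrix b' b' B) := by
    ext i j
    rcases i with i | i <;> rcases j with j | j <;> simp [LinearMap.toMatrix_apply]
  rw [← LinearMap.det_toMatrix (b.prod b'), h, Matrix.det_fromBlocks_zero₁₂,
    LinearMap.det_toMatrix, LinearMap.det_toMatrix]

private theorem det_mulC' (c : ℂ) : (mulC c).det = Complex.normSq c := by
  have h : (mulC c).det = LinearMap.det ((LinearMap.mulLeft ℂ c).restrictScalars ℝ) := rfl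
  rw [h, ← LinearMap.det_toMatrix Complex.basisOneI, Matrix.det_fin_two]
  simp [LinearMap.toMatrix_apply, Complex.normSq_apply]

/-! ### the charts -/

private theorem chartDom_of_mem {E : Type} [NormedAddCommGroup E] [NormedSpace ℝ E] {Λ : Type}
    [AddGroup Λ] (M : QuotientManifold E Λ) (c : SIdx) (p : E × ℂ × ℝ)
    (hp : p ∈ patchDom M c.pt) :
    Pool.Agent.HaefligerClasses.chartDom c.ch p.2.1 p.2.2 := by
  cases c with
  | AR => exact (Pool.Agent.HaefligerClasses.chartDom_true_iff _ _).2 (Or.inl hp.2)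
  | AN =>
    refine (Pool.Agent.HaefligerClasses.chartDom_true_iff _ _).2 (Or.inr ?_)
    have h : p.2.2 < -(1 / 4) := hp.2
    linarith
  | BR => exact (Pool.Agent.HaefligerClasses.chartDom_false_iff _ _).2 (Or.inl hp.2)
  | BS =>
    refine (Pool.Agent.HaefligerClasses.chartDom_false_iff _ _).2 (Or.inr ?_)
    have h : 1 / 4 < p.2.2 := hp.2
    linarith

private theorem contDiffAt_gA' {E : Type} [NormedAddCommGroup E] [NormedSpace ℝ E]
    {p : E × ℂ × ℝ} (h : Pool.Agent.HaefligerClasses.chartDom true p.2.1 p.2.2) :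
    ContDiffAt ℝ ∞ (fun q : E × ℂ × ℝ => gA q.2.1 q.2.2) p := by
  have h1 := Pool.Agent.HaefligerClasses.contDiffAt_gC true p.2.1 p.2.2 h
  exact h1.comp p contDiffAt_snd

private theorem contDiffAt_gB' {E : Type} [NormedAddCommGroup E] [NormedSpace ℝ E]
    {p : E × ℂ × ℝ} (h : Pool.Agent.HaefligerClasses.chartDom false p.2.1 p.2.2) :
    ContDiffAt ℝ ∞ (fun q : E × ℂ × ℝ => gB q.2.1 q.2.2) p := by
  have h1 := Pool.Agent.HaefligerClasses.contDiffAt_gC false p.2.1 p.2.2 h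
  exact h1.comp p contDiffAt_snd

private theorem contDiffAt_wt {P : Type} [NormedAddCommGroup P] [NormedSpace ℝ P] {g : P → ℂ}
    {p : P} (h : ContDiffAt ℝ ∞ g p) :
    ContDiffAt ℝ ∞ (fun q => (Real.sqrt (1 + Complex.normSq (g q))) ^ 3) p := by
  have h1 : ContDiffAt ℝ ∞ (fun q => Complex.normSq (g q)) p :=
    Pool.Agent.HaefligerClasses.contDiff_normSq.contDiffAt.comp p h
  refine ContDiffAt.pow (ContDiffAt.sqrt (contDiffAt_const.add h1) ?_) 3
  have := Complex.normSq_nonneg (g p)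
  positivity

section

variable {R K : Type} [Fintype R] [Fintype K] {n : ℕ} {α : R → ℕ} {b : ℕ}
  (D : Block R K n α b) (s : D.H.ι → D.E → (D.V →L[ℝ] D.E))

theorem contDiffOn_zeta (i : D.H.ι) : ContDiffOn ℝ ∞ (zeta D i) (D.H.dom i) := by
  intro x hx
  refine ContDiffAt.contDiffWithinAt ?_
  have hn := (D.H.isOpen_dom i).mem_nhds hx
  have hφ : ContDiffAt ℝ ∞ (D.φ i) x := (D.smooth_φ i).contDiffAt hn
  have hd : ContDiffAt ℝ ∞ (fderiv ℝ (D.φ i)) x := hφ.fderiv_right (by simp)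
  have ha : ContDiffAt ℝ ∞ D.ℓ.a x :=
    D.ℓ.smooth_a.contDiffAt (D.M.isOpen_U.mem_nhds (D.H.dom_subset i hx))
  have hm : ContDiffAt ℝ ∞ (fun y => mulC (conj (D.φ i y))) x :=
    (ContinuousLinearMap.mul ℝ ℂ).contDiff.contDiffAt.comp x
      ((Complex.conjCLE : ℂ →L[ℝ] ℂ).contDiff.contDiffAt.comp x hφ)
  exact (contDiffAt_const.clm_comp (hm.clm_comp hd)).sub ha

private theorem contDiffAt_φ (i : D.H.ι) (c : SIdx) (p : SE D) (hp : p ∈ sdom D (i, c)) :
    ContDiffAt ℝ ∞ (fun q : SE D => D.φ i q.1) p :=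
  ((D.smooth_φ i).contDiffAt ((D.H.isOpen_dom i).mem_nhds hp.1)).comp p contDiffAt_fst

private theorem contDiffAt_cj {P : Type} [NormedAddCommGroup P] [NormedSpace ℝ P] {g : P → ℂ}
    {p : P} (h : ContDiffAt ℝ ∞ g p) : ContDiffAt ℝ ∞ (fun q => conj (g q)) p :=
  (Complex.conjCLE : ℂ →L[ℝ] ℂ).contDiff.contDiffAt.comp p h

private theorem contDiffAt_rc {P : Type} [NormedAddCommGroup P] [NormedSpace ℝ P] {g : P → ℝ}
    {p : P} (h : ContDiffAt ℝ ∞ g p) : ContDiffAt ℝ ∞ (fun q => ((g q : ℝ) : ℂ)) p :=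
  Complex.ofRealCLM.contDiff.contDiffAt.comp p h

theorem contDiffOn_uS (i : D.H.ι) (c : SIdx) : ContDiffOn ℝ ∞ (uS D i c) (sdom D (i, c)) := by
  intro p hp
  refine ContDiffAt.contDiffWithinAt ?_
  have hφ := contDiffAt_φ D i c p hp
  have hc := chartDom_of_mem D.M c p hp.2
  cases c with
  | AR =>
    have hy := contDiffAt_yhat (E := D.E) p hp.2.2
    exact (contDiffAt_rc (contDiffAt_wt (contDiffAt_gA' hc))).mul ((hφ.mul hy).pow 2)
  | AN => exact (contDiffAt_rc (contDiffAt_wt (contDiffAt_gA' hc))).mul (hφ.pow 2)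
  | BR =>
    have hy := contDiffAt_yhat (E := D.E) p hp.2.2
    exact ((contDiffAt_rc ((contDiffAt_wt (contDiffAt_gB' hc)).div_const 2)).mul
      (contDiffAt_cj (hφ.mul hy))).neg
  | BS =>
    exact (contDiffAt_rc ((contDiffAt_wt (contDiffAt_gB' hc)).div_const 2)).mul
      (contDiffAt_cj hφ)

private theorem wt_ne (z : ℂ) : Real.sqrt (1 + Complex.normSq z) ≠ 0 := by
  have := Complex.normSq_nonneg z
  positivity

private theorem φ_ne (i : D.H.ι) (x : D.E) (hx : x ∈ D.H.dom i) : D.φ i x ≠ 0 := by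
  intro h
  have h1 := D.norm_φ i x hx
  rw [h, norm_zero] at h1
  exact zero_ne_one h1

theorem uS_ne_zero (i : D.H.ι) (c : SIdx) (p : SE D) (hp : p ∈ sdom D (i, c)) :
    uS D i c p ≠ 0 := by
  have h1 := φ_ne D i p.1 hp.1
  have h2 := wt_ne (gA p.2.1 p.2.2)
  have h3 := wt_ne (gB p.2.1 p.2.2)
  cases c with
  | AR =>
    have hy : yhat p ≠ 0 := by
      intro h
      have h4 := norm_yhat (E := D.E) p hp.2.2
      rw [h, norm_zero] at h4
      exact zero_ne_one h4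
    simp only [uS]
    refine mul_ne_zero ?_ (pow_ne_zero 2 (mul_ne_zero h1 hy))
    exact_mod_cast pow_ne_zero 3 h2
  | AN =>
    simp only [uS]
    refine mul_ne_zero ?_ (pow_ne_zero 2 h1)
    exact_mod_cast pow_ne_zero 3 h2
  | BR =>
    have hy : yhat p ≠ 0 := by
      intro h
      have h4 := norm_yhat (E := D.E) p hp.2.2
      rw [h, norm_zero] at h4
      exact zero_ne_one h4
    simp only [uS]
    refine neg_ne_zero.2 (mul_ne_zero ?_ ?_)
    · exact_mod_cast div_ne_zero (pow_ne_zero 3 h3) two_ne_zero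
    · simpa using ⟨h1, hy⟩
  | BS =>
    simp only [uS]
    refine mul_ne_zero ?_ ?_
    · exact_mod_cast div_ne_zero (pow_ne_zero 3 h3) two_ne_zero
    · simpa using h1

private theorem contDiffAt_mulC {P : Type} [NormedAddCommGroup P] [NormedSpace ℝ P] {g : P → ℂ}
    {p : P} (h : ContDiffAt ℝ ∞ g p) : ContDiffAt ℝ ∞ (fun q => mulC (g q)) p :=
  (ContinuousLinearMap.mul ℝ ℂ).contDiff.contDiffAt.comp p h

private theorem contDiffAt_sw' (i : D.H.ι) (c : SIdx) (p : SE D) (hp : p ∈ sdom D (i, c)) :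
    ContDiffAt ℝ ∞ (sw D i c.ch) p := by
  have hφ := contDiffAt_φ D i c p hp
  have hc := chartDom_of_mem D.M c p hp.2
  have hA : c.ch = true → ContDiffAt ℝ ∞ (sw D i c.ch) p := by
    intro h
    rw [h] at hc ⊢
    have e : sw D i true = fun q => (D.φ i q.1 * gA q.2.1 q.2.2) ^ 2 := by
      funext q
      simp [sw]
    rw [e]
    exact (hφ.mul (contDiffAt_gA' hc)).pow 2
  have hB : c.ch = false → ContDiffAt ℝ ∞ (sw D i c.ch) p := by
    intro h
    rw [h] at hc ⊢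
    have e : sw D i false = fun q => conj (D.φ i q.1) * gB q.2.1 q.2.2 := by
      funext q
      simp [sw]
    rw [e]
    exact (contDiffAt_cj hφ).mul (contDiffAt_gB' hc)
  cases h : c.ch
  · rw [← h]; exact hB h
  · rw [← h]; exact hA h

theorem contDiffOn_sfr (hs : ∀ i, ContDiffOn ℝ ∞ (s i) (D.H.dom i)) (i : D.H.ι × SIdx) :
    ContDiffOn ℝ ∞ (sfr D s i) (sdom D i) := by
  intro p hp
  refine ContDiffAt.contDiffWithinAt ?_
  obtain ⟨i, c⟩ := i
  have hn := (D.H.isOpen_dom i).mem_nhds hp.1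
  have hf : ContDiffAt ℝ ∞ (fun q : SE D => D.frame i q.1) p :=
    ((D.smooth_frame i).contDiffAt hn).comp p contDiffAt_fst
  have hz : ContDiffAt ℝ ∞ (fun q : SE D => zeta D i q.1) p :=
    ((contDiffOn_zeta D i).contDiffAt hn).comp p contDiffAt_fst
  have hs' : ContDiffAt ℝ ∞ (fun q : SE D => s i q.1) p :=
    ((hs i).contDiffAt hn).comp p contDiffAt_fst
  have hw := contDiffAt_sw' D i c p hp
  have hu : ContDiffAt ℝ ∞ (uS D i c) p :=
    (contDiffOn_uS D i c).contDiffAt (((D.H.isOpen_dom i).preimage continuous_fst).inter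
      (isOpen_patchDom D.M c.pt) |>.mem_nhds hp)
  have h1 := hf.clm_comp (contDiffAt_const (c := ContinuousLinearMap.fst ℝ (TV R K) ℂ))
  have h2 := (contDiffAt_mulC ((contDiffAt_const (c := (kapS c.ch : ℂ))).mul hw |>.mul
    (contDiffAt_const (c := Complex.I)))).clm_comp
    ((contDiffAt_const (c := Complex.ofRealCLM)).clm_comp (hz.clm_comp (hs'.clm_comp h1)))
  have h3 := (contDiffAt_mulC hu).clm_comp
    (contDiffAt_const (c := ContinuousLinearMap.snd ℝ (TV R K) ℂ))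
  have h4 : ContDiffAt ℝ ∞ (fun q : SE D => (D.frame i q.1 ∘L ContinuousLinearMap.fst ℝ (TV R K)
      ℂ).prod (mulC ((kapS c.ch : ℂ) * sw D i c.ch q * Complex.I) ∘L Complex.ofRealCLM ∘L
        zeta D i q.1 ∘L s i q.1 ∘L D.frame i q.1 ∘L
        ContinuousLinearMap.fst ℝ (TV R K) ℂ +
      mulC (uS D i c q) ∘L ContinuousLinearMap.snd ℝ (TV R K) ℂ)) p :=
    (ContinuousLinearMap.prodL ℝ : ((TV R K × ℂ →L[ℝ] D.V) × (TV R K × ℂ →L[ℝ] ℂ)) ≃L[ℝ]
      (TV R K × ℂ →L[ℝ] D.V × ℂ)).contDiff.contDiffAt.comp p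
      (h1.prodMk (h2.add h3))
  exact h4.clm_comp contDiffAt_const

/-- the model of the transversal of the suspension -/
noncomputable def susO : TV (Option R) K ≃L[ℝ] D.V × ℂ :=
  (optTV R K).trans (D.o.prodCongr (ContinuousLinearEquiv.refl ℝ ℂ))

theorem det_sfr_pos (i : D.H.ι × SIdx) (p : SE D) (hp : p ∈ sdom D i) :
    0 < (((susO D).symm : D.V × ℂ →L[ℝ] TV (Option R) K) ∘L sfr D s i p).det := by
  obtain ⟨i, c⟩ := i
  have ho := D.orient_frame i p.1 hp.1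
  have hu := uS_ne_zero D i c p hp
  set A : TV R K →ₗ[ℝ] TV R K := (((D.o.symm : D.V →L[ℝ] TV R K) ∘L D.frame i p.1 :
    TV R K →L[ℝ] TV R K) : TV R K →ₗ[ℝ] TV R K) with hA
  set C : TV R K →ₗ[ℝ] ℂ := ((mulC ((kapS c.ch : ℂ) * sw D i c.ch p * Complex.I) ∘L
    Complex.ofRealCLM ∘L zeta D i p.1 ∘L s i p.1 ∘L D.frame i p.1 :
    TV R K →L[ℝ] ℂ) : TV R K →ₗ[ℝ] ℂ) with hC
  set B : ℂ →ₗ[ℝ] ℂ := ((mulC (uS D i c p) : ℂ →L[ℝ] ℂ) : ℂ →ₗ[ℝ] ℂ) with hB
  have key : (((susO D).symm : D.V × ℂ →L[ℝ] TV (Option R) K) ∘L sfr D s (i, c) p).det =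
      LinearMap.det A * LinearMap.det B := by
    rw [← det_tri_lin A C B, ← LinearMap.det_conj _ (optTV R K).toLinearEquiv.symm]
    congr 1
  rw [key]
  refine mul_pos ho ?_
  have h2 : LinearMap.det B = Complex.normSq (uS D i c p) := det_mulC' _
  rw [h2]
  exact Complex.normSq_pos.2 hu

/-! ### the derivative of the new coordinate -/

private theorem hasFDerivAt_rad {y : ℂ} {t : ℝ} (hy : y ≠ 0) :
    HasFDerivAt (fun q : ℂ × ℝ => rad q.1 q.2)
      ((1 / rad y t) • ((Complex.reCLM ∘L mulC (conj y) ∘L ContinuousLinearMap.fst ℝ ℂ ℝ) +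
        t • ContinuousLinearMap.snd ℝ ℂ ℝ)) (y, t) := by
  have h0 : 0 < Complex.normSq y + t ^ 2 := by
    have := Complex.normSq_pos.2 hy
    positivity
  have h1 : HasFDerivAt (fun q : ℂ × ℝ => q.1.re ^ 2 + q.1.im ^ 2 + q.2 ^ 2)
      ((2 * y.re) • (Complex.reCLM ∘L ContinuousLinearMap.fst ℝ ℂ ℝ) +
       (2 * y.im) • (Complex.imCLM ∘L ContinuousLinearMap.fst ℝ ℂ ℝ) +
       (2 * t) • ContinuousLinearMap.snd ℝ ℂ ℝ) (y, t) := by
    have a1 : HasFDerivAt (fun q : ℂ × ℝ => q.1.re)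
        (Complex.reCLM ∘L ContinuousLinearMap.fst ℝ ℂ ℝ) (y, t) :=
      (Complex.reCLM ∘L ContinuousLinearMap.fst ℝ ℂ ℝ).hasFDerivAt
    have a2 : HasFDerivAt (fun q : ℂ × ℝ => q.1.im)
        (Complex.imCLM ∘L ContinuousLinearMap.fst ℝ ℂ ℝ) (y, t) :=
      (Complex.imCLM ∘L ContinuousLinearMap.fst ℝ ℂ ℝ).hasFDerivAt
    have a3 : HasFDerivAt (fun q : ℂ × ℝ => q.2) (ContinuousLinearMap.snd ℝ ℂ ℝ) (y, t) :=
      (ContinuousLinearMap.snd ℝ ℂ ℝ).hasFDerivAt
    refine (((a1.pow 2).add (a2.pow 2)).add (a3.pow 2)).congr_fderiv ?_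
    refine ContinuousLinearMap.ext fun v => ?_
    simp
  have h2 : (fun q : ℂ × ℝ => rad q.1 q.2) =
      fun q : ℂ × ℝ => Real.sqrt (q.1.re ^ 2 + q.1.im ^ 2 + q.2 ^ 2) := by
    funext q
    simp only [rad, Complex.normSq_apply]
    ring_nf
  rw [h2]
  have hval : y.re ^ 2 + y.im ^ 2 + t ^ 2 = Complex.normSq y + t ^ 2 := by
    rw [Complex.normSq_apply]
    ring
  have h3 := h1.sqrt (by simp only; rw [hval]; exact h0.ne')
  refine h3.congr_fderiv ?_
  refine ContinuousLinearMap.ext fun v => ?_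
  simp only
  rw [hval]
  have hr : Real.sqrt (Complex.normSq y + t ^ 2) = rad y t := rfl
  rw [hr]
  have hrp : rad y t ≠ 0 := (Real.sqrt_pos.2 h0).ne'
  simp
  field_simp

private theorem gA_dir {y : ℂ} {t : ℝ} (hy : y ≠ 0) : ∃ T : ℂ × ℝ →L[ℝ] ℂ,
    HasFDerivAt (fun q : ℂ × ℝ => gA q.1 q.2) T (y, t) ∧ ∀ β u : ℝ,
      T (Complex.I * β * y, u) = gA y t * (Complex.I * β + ((u / rad y t : ℝ) : ℂ)) := by
  have hr := hasFDerivAt_rad (t := t) hy
  have hlt := Pool.Agent.HaefligerClasses.abs_lt_rad hy t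
  have hP : 0 < rad y t - t := by
    have := le_abs_self t
    linarith
  have hr0 : rad y t ≠ 0 := by
    have := abs_nonneg t
    have h : 0 < rad y t := by linarith
    exact h.ne'
  have h1 : HasFDerivAt (fun q : ℂ × ℝ => rad q.1 q.2 - q.2) _ (y, t) :=
    hr.sub (ContinuousLinearMap.snd ℝ ℂ ℝ).hasFDerivAt
  have h2 := (hasDerivAt_inv (x := rad y t - t) hP.ne').comp_hasFDerivAt (y, t) h1
  have h3 := HasFDerivAt.smul h2 (ContinuousLinearMap.fst ℝ ℂ ℝ).hasFDerivAt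
  refine ⟨_, h3.congr_of_eventuallyEq (Filter.Eventually.of_forall fun q => ?_), ?_⟩
  · simp [gA, div_eq_inv_mul]
  · intro β u
    have hre : (conj y * (Complex.I * β * y)).re = 0 := by
      have : conj y * (Complex.I * β * y) = Complex.I * β * (y * conj y) := by ring
      rw [this, Complex.mul_conj]
      simp
    have hgA : gA y t = y / ((rad y t - t : ℝ) : ℂ) := rfl
    rw [hgA]
    simp [hre]
    have hPc : ((rad y t : ℝ) : ℂ) - (t : ℂ) ≠ 0 := by exact_mod_cast hP.ne'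
    have hrc : ((rad y t : ℝ) : ℂ) ≠ 0 := by exact_mod_cast hr0
    field_simp
    ring

private theorem φ_dir (i : D.H.ι) (x : D.E) (hx : x ∈ D.H.dom i) (u : D.E) :
    fderiv ℝ (D.φ i) x u = Complex.I * D.φ i x *
      (((conj (D.φ i x) * fderiv ℝ (D.φ i) x u).im : ℝ) : ℂ) := by
  have hn := (D.H.isOpen_dom i).mem_nhds hx
  have hd : HasFDerivAt (D.φ i) (fderiv ℝ (D.φ i) x) x :=
    (((D.smooth_φ i).contDiffAt hn).differentiableAt (by simp)).hasFDerivAt
  have h1 : HasFDerivAt (fun y => D.φ i y * conj (D.φ i y)) _ x :=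
    HasFDerivAt.fun_mul hd ((Complex.conjCLE : ℂ →L[ℝ] ℂ).hasFDerivAt.comp x hd)
  have h2 : (fun y => D.φ i y * conj (D.φ i y)) =ᶠ[𝓝 x] fun _ => 1 := by
    filter_upwards [hn] with y hy
    rw [Complex.mul_conj, Complex.normSq_eq_norm_sq, D.norm_φ i y hy]
    norm_num
  have h3 := (h1.congr_of_eventuallyEq h2.symm).unique (hasFDerivAt_const (1 : ℂ) x)
  have h4 := congrArg (fun T => T u) h3
  simp at h4
  have hφ : D.φ i x * conj (D.φ i x) = 1 := h2.self_of_nhds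
  have h5 : (conj (D.φ i x) * fderiv ℝ (D.φ i) x u).re = 0 := by
    have h6 := congrArg Complex.re h4
    simp at h6 ⊢
    linarith
  have h7 : conj (D.φ i x) * fderiv ℝ (D.φ i) x u =
      Complex.I * (((conj (D.φ i x) * fderiv ℝ (D.φ i) x u).im : ℝ) : ℂ) := by
    apply Complex.ext
    · simpa using h5
    · simp
  calc fderiv ℝ (D.φ i) x u = D.φ i x * (conj (D.φ i x) * fderiv ℝ (D.φ i) x u) := by
        rw [← mul_assoc, hφ, one_mul]
    _ = _ := by rw [h7]; simp; ring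

private theorem G_dir (i : D.H.ι) (p : SE D) (hx : p.1 ∈ D.H.dom i) (hy : p.2.1 ≠ 0) :
    ∃ T : SE D →L[ℝ] ℂ, HasFDerivAt (fun q : SE D => D.φ i q.1 * gA q.2.1 q.2.2) T p ∧
      ∀ (u : D.E) (z : ℂ) (c : ℝ),
      T (u, -(Complex.I * (D.ℓ.a p.1 u : ℂ) * p.2.1) + ((c * z.im : ℝ) : ℂ) *
        (Complex.I * p.2.1), rad p.2.1 p.2.2 * c * z.re) =
      D.φ i p.1 * gA p.2.1 p.2.2 * (Complex.I * (zeta D i p.1 u : ℂ) + c * z) := by
  have hn := (D.H.isOpen_dom i).mem_nhds hx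
  have hd : HasFDerivAt (D.φ i) (fderiv ℝ (D.φ i) p.1) p.1 :=
    (((D.smooth_φ i).contDiffAt hn).differentiableAt (by simp)).hasFDerivAt
  obtain ⟨T, hT, hT'⟩ := gA_dir (t := p.2.2) hy
  have h1 := HasFDerivAt.fun_mul (hd.comp p (hasFDerivAt_fst (𝕜 := ℝ) (p := p)))
    (hT.comp p (hasFDerivAt_snd (𝕜 := ℝ) (p := p)))
  refine ⟨_, h1, ?_⟩
  intro u z c
  have hlt := Pool.Agent.HaefligerClasses.abs_lt_rad hy p.2.2
  have hr0 : rad p.2.1 p.2.2 ≠ 0 := by
    have := abs_nonneg p.2.2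
    have h : 0 < rad p.2.1 p.2.2 := by linarith
    exact h.ne'
  have e1 : -(Complex.I * (D.ℓ.a p.1 u : ℂ) * p.2.1) + ((c * z.im : ℝ) : ℂ) *
        (Complex.I * p.2.1) = Complex.I * ((-(D.ℓ.a p.1 u) + c * z.im : ℝ) : ℂ) * p.2.1 := by
    push_cast
    ring
  have e2 := hT' (-(D.ℓ.a p.1 u) + c * z.im) (rad p.2.1 p.2.2 * c * z.re)
  rw [← e1] at e2
  have e3 := φ_dir D i p.1 hx u
  have e4 : (zeta D i p.1 u : ℝ) = (conj (D.φ i p.1) * fderiv ℝ (D.φ i) p.1 u).im -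
      D.ℓ.a p.1 u := rfl
  have e5 : rad p.2.1 p.2.2 * c * z.re / rad p.2.1 p.2.2 = c * z.re := by
    field_simp
  rw [e5] at e2
  have e6 : z = (z.re : ℂ) + (z.im : ℂ) * Complex.I := (Complex.re_add_im z).symm
  simp only [add_apply, smul_apply, ContinuousLinearMap.comp_apply,
    ContinuousLinearMap.coe_fst', ContinuousLinearMap.coe_snd', Function.comp_apply, smul_eq_mul]
  rw [e2, e3, e4]
  set j := (conj (D.φ i p.1) * fderiv ℝ (D.φ i) p.1 u).im
  push_cast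
  linear_combination (-(D.φ i p.1 * gA p.2.1 p.2.2 * (c : ℂ))) * e6

private theorem hasFDerivAt_cinv {P : Type} [NormedAddCommGroup P] [NormedSpace ℝ P] {g : P → ℂ}
    {T : P →L[ℝ] ℂ} {p : P} (h : HasFDerivAt g T p) (h0 : g p ≠ 0) :
    HasFDerivAt (fun q => (g q)⁻¹) (mulC (-((g p) ^ 2)⁻¹) ∘L T) p := by
  have h3 : HasFDerivAt (fun y : ℂ => y⁻¹) (mulC (-((g p) ^ 2)⁻¹)) (g p) := by
    have h4 := ((hasDerivAt_inv h0).hasFDerivAt).restrictScalars ℝ
    refine h4.congr_fderiv ?_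
    refine ContinuousLinearMap.ext fun x => ?_
    simp [mul_comm]
  exact h3.comp p h

private theorem sw_dir (i : D.H.ι) (c : SIdx) (p : SE D) (hx : p.1 ∈ D.H.dom i)
    (hy : p.2.1 ≠ 0) (u : D.E) (z : ℂ) (e : ℝ) :
    fderiv ℝ (sw D i c.ch) p (u, -(Complex.I * (D.ℓ.a p.1 u : ℂ) * p.2.1) +
        ((e * z.im : ℝ) : ℂ) * (Complex.I * p.2.1), rad p.2.1 p.2.2 * e * z.re) =
      (kapS c.ch : ℂ) * sw D i c.ch p * (Complex.I * (zeta D i p.1 u : ℂ) + e * z) := by
  obtain ⟨T, hT, hT'⟩ := G_dir D i p hx hy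
  have hA : Pool.Agent.HaefligerClasses.chartDom true p.2.1 p.2.2 :=
    (Pool.Agent.HaefligerClasses.chartDom_true_iff _ _).2 (Or.inl hy)
  have hB : Pool.Agent.HaefligerClasses.chartDom false p.2.1 p.2.2 :=
    (Pool.Agent.HaefligerClasses.chartDom_false_iff _ _).2 (Or.inl hy)
  have hg : gA p.2.1 p.2.2 ≠ 0 := Pool.Agent.HaefligerClasses.gA_ne_zero hA hB
  have hφ := φ_ne D i p.1 hx
  have hG : D.φ i p.1 * gA p.2.1 p.2.2 ≠ 0 := mul_ne_zero hφ hg
  cases h : c.ch with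
  | true =>
    have e1 : sw D i true = fun q => (D.φ i q.1 * gA q.2.1 q.2.2) *
        (D.φ i q.1 * gA q.2.1 q.2.2) := by
      funext q
      simp [sw, pow_two]
    have h1 := HasFDerivAt.fun_mul hT hT
    rw [e1, h1.fderiv]
    simp only [add_apply, smul_apply, smul_eq_mul]
    rw [hT']
    simp only [kapS, if_true]
    push_cast
    ring
  | false =>
    have hn : D.H.dom i ∈ 𝓝 p.1 := (D.H.isOpen_dom i).mem_nhds hx
    have hn' : ∀ᶠ q : SE D in 𝓝 p, q.1 ∈ D.H.dom i := continuousAt_fst.eventually_mem hn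
    have hy' : ∀ᶠ q : SE D in 𝓝 p, q.2.1 ≠ 0 :=
      (continuousAt_fst.comp (f := Prod.snd) (g := Prod.fst) continuousAt_snd).eventually_ne hy
    have e1 : sw D i false =ᶠ[𝓝 p] fun q => (D.φ i q.1 * gA q.2.1 q.2.2)⁻¹ := by
      filter_upwards [hn', hy'] with q hq hq'
      have qA : Pool.Agent.HaefligerClasses.chartDom true q.2.1 q.2.2 :=
        (Pool.Agent.HaefligerClasses.chartDom_true_iff _ _).2 (Or.inl hq')
      have qB : Pool.Agent.HaefligerClasses.chartDom false q.2.1 q.2.2 :=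
        (Pool.Agent.HaefligerClasses.chartDom_false_iff _ _).2 (Or.inl hq')
      have h1 := Pool.Agent.HaefligerClasses.gA_mul_gB _ _ qA qB
      have h2 : D.φ i q.1 * conj (D.φ i q.1) = 1 := by
        rw [Complex.mul_conj, Complex.normSq_eq_norm_sq, D.norm_φ i q.1 hq]
        norm_num
      simp only [sw, Bool.false_eq_true, if_false]
      refine eq_inv_of_mul_eq_one_left ?_
      linear_combination gA q.2.1 q.2.2 * gB q.2.1 q.2.2 * h2 + h1
    rw [e1.fderiv_eq, (hasFDerivAt_cinv hT hG).fderiv]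
    simp only [ContinuousLinearMap.comp_apply, mulC_apply]
    rw [hT', e1.self_of_nhds]
    simp only [kapS, Bool.false_eq_true, if_false]
    push_cast
    field_simp

private theorem uS_eq (i : D.H.ι) (c : SIdx) (hc : c.pt = Patch.R) (p : SE D)
    (hy : p.2.1 ≠ 0) :
    uS D i c p = (kapS c.ch : ℂ) * sw D i c.ch p * (cS D p : ℂ) := by
  have hN : 0 < ‖p.2.1‖ := norm_pos_iff.2 hy
  have hlt := Pool.Agent.HaefligerClasses.abs_lt_rad hy p.2.2
  have hP : 0 < rad p.2.1 p.2.2 - p.2.2 := by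
    have := le_abs_self p.2.2
    linarith
  have hQ : 0 < rad p.2.1 p.2.2 + p.2.2 := by
    have := neg_le_abs p.2.2
    linarith
  have hPQ : ‖p.2.1‖ ^ 2 = (rad p.2.1 p.2.2 - p.2.2) * (rad p.2.1 p.2.2 + p.2.2) := by
    have h := Pool.Agent.HaefligerClasses.rad_sq p.2.1 p.2.2
    rw [Complex.normSq_eq_norm_sq] at h
    nlinarith
  have hnA : Complex.normSq (gA p.2.1 p.2.2) =
      ‖p.2.1‖ ^ 2 / (rad p.2.1 p.2.2 - p.2.2) ^ 2 := by
    rw [Complex.normSq_eq_norm_sq]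
    simp only [gA, norm_div, Complex.norm_real, Real.norm_eq_abs, abs_of_pos hP, div_pow]
  have hnB : Complex.normSq (gB p.2.1 p.2.2) =
      ‖p.2.1‖ ^ 2 / (rad p.2.1 p.2.2 + p.2.2) ^ 2 := by
    rw [Complex.normSq_eq_norm_sq]
    simp only [gB, norm_div, Complex.norm_real, Real.norm_eq_abs, abs_of_pos hQ, div_pow,
      RCLike.norm_conj]
  set P := rad p.2.1 p.2.2 - p.2.2 with hPdef
  set Q := rad p.2.1 p.2.2 + p.2.2 with hQdef
  set N := ‖p.2.1‖ with hNdef
  have hSB : Real.sqrt (1 + N ^ 2 / Q ^ 2) = P / N * Real.sqrt (1 + N ^ 2 / P ^ 2) := by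
    rw [← Real.sqrt_sq (show 0 ≤ P / N by positivity), ← Real.sqrt_mul (by positivity)]
    congr 1
    field_simp
    rw [hPQ]
    ring
  have hgA : gA p.2.1 p.2.2 = p.2.1 / (P : ℂ) := rfl
  have hgB : gB p.2.1 p.2.2 = conj p.2.1 / (Q : ℂ) := rfl
  have hyh : yhat p = p.2.1 / (N : ℂ) := rfl
  have hNc : (N : ℂ) ≠ 0 := by exact_mod_cast hN.ne'
  have hPc : (P : ℂ) ≠ 0 := by exact_mod_cast hP.ne'
  have hQc : (Q : ℂ) ≠ 0 := by exact_mod_cast hQ.ne'
  have hPQc : (N : ℂ) ^ 2 = P * Q := by exact_mod_cast hPQ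
  have hcS : cS D p = Real.sqrt (1 + N ^ 2 / P ^ 2) ^ 3 / (2 * (N ^ 2 / P ^ 2)) := by
    rw [cS, hnA]
  rw [hcS]
  cases c with
  | AN => exact absurd hc (by decide)
  | BS => exact absurd hc (by decide)
  | AR =>
    simp only [uS, sw, SIdx.ch, kapS, if_true]
    rw [hnA, hgA, hyh]
    set S := Real.sqrt (1 + N ^ 2 / P ^ 2)
    push_cast
    field_simp
  | BR =>
    simp only [uS, sw, SIdx.ch, kapS, Bool.false_eq_true, if_false]
    rw [hnB, hSB, hgB, hyh]
    set S := Real.sqrt (1 + N ^ 2 / P ^ 2)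
    simp only [map_mul, map_div₀, Complex.conj_ofReal]
    push_cast
    field_simp
    rw [hPQc]
    ring

/-- for `y ≠ 0` the frames of the patches `R` are the derivatives in the direction of the lifts -/
theorem sfr_eq_R (hs : ∀ i, ∀ x ∈ D.H.dom i,
      fderiv ℝ (D.H.f i) x ∘L s i x = ContinuousLinearMap.id ℝ D.V)
    (i : D.H.ι) (c : SIdx) (hc : c.pt = Patch.R) (p : SE D) (hp : p ∈ sdom D (i, c))
    (v : TV (Option R) K) :
    sfr D s (i, c) p v = fderiv ℝ (sf D (i, c)) p (slift D s i p v) := by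
  have hy : p.2.1 ≠ 0 := by
    have h := hp.2
    simp only [hc] at h
    exact h.2
  have hn := (D.H.isOpen_dom i).mem_nhds hp.1
  have h1 : HasFDerivAt (fun q : SE D => D.H.f i q.1)
      (fderiv ℝ (D.H.f i) p.1 ∘L ContinuousLinearMap.fst ℝ D.E (ℂ × ℝ)) p :=
    (((D.H.smooth_f i).contDiffAt hn).differentiableAt (by simp)).hasFDerivAt.comp p
      hasFDerivAt_fst
  have h2 : HasFDerivAt (sw D i c.ch) (fderiv ℝ (sw D i c.ch) p) p :=
    ((contDiffAt_sw' D i c p hp).differentiableAt (by simp)).hasFDerivAt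
  have h3 : fderiv ℝ (sf D (i, c)) p = _ := (h1.prodMk h2).fderiv
  rw [h3, sfr_apply]
  refine Prod.ext ?_ ?_
  · have h4 := congrArg (fun T => T (D.frame i p.1 (optTV R K v).1)) (hs i p.1 hp.1)
    exact h4.symm
  · show _ = fderiv ℝ (sw D i c.ch) p (slift D s i p v)
    have h5 := sw_dir D i c p hp.1 hy (s i p.1 (D.frame i p.1 (optTV R K v).1)) (v.1 none)
      (cS D p)
    have h6 : slift D s i p v = (s i p.1 (D.frame i p.1 (optTV R K v).1),
      -(Complex.I * (D.ℓ.a p.1 (s i p.1 (D.frame i p.1 (optTV R K v).1)) : ℂ) * p.2.1) +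
      ((cS D p * (v.1 none).im : ℝ) : ℂ) * (Complex.I * p.2.1),
      rad p.2.1 p.2.2 * cS D p * (v.1 none).re) := rfl
    rw [h6, h5]
    simp only
    rw [uS_eq D i c hc p hy]
    ring

/-- for `y ≠ 0` the frame of any index is the frame of the patch `R` up to the phase -/
theorem sfr_phase (i : D.H.ι) (c c' : SIdx) (hcc : c.ch = c'.ch) (hc' : c'.pt = Patch.R)
    (p : SE D) (hp : p ∈ sdom D (i, c)) (hy : p.2.1 ≠ 0) :
    sfr D s (i, c) p ∘L rotT (fun r => r.elim (tauS 1 c.pt p) (fun _ => 1)) =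
      sfr D s (i, c') p := by
  have hu : uS D i c p * tauS 1 c.pt p = uS D i c' p := by
    cases c <;> cases c' <;> first
      | exact absurd hcc (by decide)
      | exact absurd hc' (by decide)
      | (simp only [uS, tauS, SIdx.pt, mul_one]; done)
      | (simp only [uS, tauS, SIdx.pt, map_mul]; ring)
  refine ContinuousLinearMap.ext fun v => ?_
  have h1 : (optTV R K (rotT (fun r : Option R => r.elim (tauS 1 c.pt p) (fun _ => 1)) v)).1 =
      (optTV R K v).1 := by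
    refine Prod.ext (funext fun r => ?_) rfl
    show (1 : ℂ) * v.1 (some r) = v.1 (some r)
    rw [one_mul]
  have h2 : (rotT (fun r : Option R => r.elim (tauS 1 c.pt p) (fun _ => 1)) v).1 none =
      tauS 1 c.pt p * v.1 none := rfl
  rw [ContinuousLinearMap.comp_apply, sfr_apply, sfr_apply, h1, h2]
  refine Prod.ext rfl ?_
  simp only
  rw [← hcc, ← hu]
  ring

/-- the lifts are equivariant -/
theorem slift_act (hs : ∀ i a j x, x ∈ D.H.dom j → D.M.act a x ∈ D.H.dom i →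
      s i (D.M.act a x) ∘L D.H.normal i a j x = fderiv ℝ (D.M.act a) x ∘L s j x)
    (i : D.H.ι) (l : D.Λ) (j : D.H.ι) (p : SE D) (hp : p ∈ sphU D.M) (hj : p.1 ∈ D.H.dom j)
    (hi : D.M.act l p.1 ∈ D.H.dom i) (v : TV (Option R) K) :
    fderiv ℝ (sphAct D.M D.ℓ l) p (slift D s j p v) =
      slift D s i (sphAct D.M D.ℓ l p)
        (rotT (fun r => r.elim 1 (fun r => D.ρ (D.b0 i) l (D.b0 j) p.1 r)) v) := by
  rw [fderiv_sphAct D.M D.ℓ l p hp]
  have hJ := D.ℓ.norm_J l p.1 hp.1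
  have hr : rad (D.ℓ.J l p.1 * p.2.1) p.2.2 = rad p.2.1 p.2.2 := by
    unfold Pool.Agent.HaefligerClasses.rad
    rw [Complex.normSq_mul, Complex.normSq_eq_norm_sq (D.ℓ.J l p.1), hJ]
    norm_num
  have hg : gA (D.ℓ.J l p.1 * p.2.1) p.2.2 = D.ℓ.J l p.1 * gA p.2.1 p.2.2 := by
    unfold Pool.Agent.HaefligerClasses.gA
    rw [hr, mul_div_assoc]
  have hc : cS D (sphAct D.M D.ℓ l p) = cS D p := by
    simp only [cS, sphAct]
    rw [hg, Complex.normSq_mul, Complex.normSq_eq_norm_sq (D.ℓ.J l p.1), hJ]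
    norm_num
  set w := rotT (fun r : Option R => r.elim 1 (fun r => D.ρ (D.b0 i) l (D.b0 j) p.1 r)) v with hw
  have h1 : (optTV R K w).1 = rotT (fun r => D.ρ (D.b0 i) l (D.b0 j) p.1 r)
      (optTV R K v).1 := by
    rfl
  have h2 : w.1 none = v.1 none := one_mul _
  have h3 : s i (D.M.act l p.1) (D.frame i (D.M.act l p.1) (optTV R K w).1) =
      fderiv ℝ (D.M.act l) p.1 (s j p.1 (D.frame j p.1 (optTV R K v).1)) := by
    have e1 := congrArg (fun T => T (D.frame j p.1 (optTV R K v).1)) (hs i l j p.1 hj hi)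
    have e2 := congrArg (fun T => T (optTV R K v).1) (D.frame_rot i l j p.1 hj hi)
    simp only [ContinuousLinearMap.comp_apply] at e1 e2
    rw [h1]
    show s i (D.M.act l p.1) (D.frame i (D.M.act l p.1)
      (rotT (D.ρ (D.b0 i) l (D.b0 j) p.1) (optTV R K v).1)) = _
    rw [← e2]
    exact e1
  have h4 : slift D s i (sphAct D.M D.ℓ l p) w = (s i (D.M.act l p.1)
        (D.frame i (D.M.act l p.1) (optTV R K w).1),
      -(Complex.I * (D.ℓ.a (D.M.act l p.1) (s i (D.M.act l p.1)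
        (D.frame i (D.M.act l p.1) (optTV R K w).1)) : ℂ) * (D.ℓ.J l p.1 * p.2.1)) +
      ((cS D (sphAct D.M D.ℓ l p) * (w.1 none).im : ℝ) : ℂ) *
        (Complex.I * (D.ℓ.J l p.1 * p.2.1)),
      rad (D.ℓ.J l p.1 * p.2.1) p.2.2 * cS D (sphAct D.M D.ℓ l p) * (w.1 none).re) := rfl
  rw [h4, h3, h2, hc, hr]
  refine Prod.ext rfl (Prod.ext ?_ rfl)
  have h5 := D.ℓ.a_compat l p.1 hp.1 (s j p.1 (D.frame j p.1 (optTV R K v).1))
  simp only [slift]
  rw [h5]
  push_cast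
  ring

end

end Pool.Agent.HAF2
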