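import Pool.Agent.HAF2.SusGerm
import Pool.Agent.HAF2.SusFr
import Pool.Agent.HAF2.SphBase

/-!
# Module SU3: the suspension theorem

Base: `sphBase D.toBase 1 0 (b + 1) 0 (sphCond_one b)`; `V = D.V × ℂ`, `H = susH D hs`,
`b0 (i, c) = (D.b0 i, c.pt)`, `o = susO D`, frames `sfr D s`, `φ = 1`, `Θ = 1`.
`sfr_rot`: for `y ≠ 0` by `sfr_phase`, `sfr_eq_R` (for the index with the same chart and the patch
`R`), `normal_comp`, `slift_act` and `rhoS_eq`; for `y = 0` by continuity (`eq_of_eventually_ne`,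
`contDiffAt_normal`).
-/

namespace Pool.Agent.HAF2

open Filter Topology MeasureTheory
open scoped ContDiff ComplexConjugate
open Pool.Agent.HaefligerClasses (QuotientManifold IsForm HaefligerStructure curvature
  torusElement gA gB rad)

/-- the index with the same chart and the patch `R` -/
def SIdx.su3R : SIdx → SIdx
  | SIdx.AR => SIdx.AR
  | SIdx.AN => SIdx.AR
  | SIdx.BR => SIdx.BR
  | SIdx.BS => SIdx.BR

theorem SIdx.su3R_ch (c : SIdx) : c.ch = c.su3R.ch := by cases c <;> rfl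

theorem SIdx.su3R_pt (c : SIdx) : c.su3R.pt = Patch.R := by cases c <;> rfl

section

variable {R K : Type} [Fintype R] [Fintype K] {n : ℕ} {α : R → ℕ} {b : ℕ}
  (D : Block R K n α b)

theorem sus_sf_toR (i : D.H.ι) (c : SIdx) : sf D (i, c.su3R) = sf D (i, c) := by
  funext p
  unfold sf
  rw [c.su3R_ch]

theorem sus_sdom_toR (i : D.H.ι) (c : SIdx) (p : SE D) (hp : p ∈ sdom D (i, c))
    (hy : p.2.1 ≠ 0) : p ∈ sdom D (i, c.su3R) := by
  refine ⟨hp.1, ?_⟩
  change p ∈ patchDom D.M c.su3R.pt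
  rw [c.su3R_pt]
  exact ⟨sdom_subset D _ hp, hy⟩

theorem sus_rotT_comp {R K : Type} [Fintype R] [Fintype K] (ρ σ : R → ℂ) :
    (rotT ρ ∘L rotT σ : TV R K →L[ℝ] TV R K) = rotT (fun r => ρ r * σ r) := by
  ext v <;> simp [mul_assoc]

theorem sus_rotT_surj {R K : Type} [Fintype R] [Fintype K] (ρ : R → ℂ) (h : ∀ r, ρ r ≠ 0) :
    Function.Surjective (rotT ρ : TV R K →L[ℝ] TV R K) := by
  intro v
  refine ⟨(fun r => (ρ r)⁻¹ * v.1 r, v.2), ?_⟩
  rw [rotT_apply]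
  refine Prod.ext (funext fun r => ?_) rfl
  simp only
  rw [← mul_assoc, mul_inv_cancel₀ (h r), one_mul]

theorem sus_rotT_continuousAt {X : Type} [TopologicalSpace X] {R K : Type} [Fintype R]
    [Fintype K] (ρ : X → R → ℂ) (x : X) (h : ∀ r, ContinuousAt (fun y => ρ y r) x) :
    ContinuousAt (fun y => (rotT (ρ y) : TV R K →L[ℝ] TV R K)) x := by
  rw [continuousAt_clm_apply]
  intro v
  simp only [rotT_apply]
  refine ContinuousAt.prodMk ?_ continuousAt_const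
  rw [continuousAt_pi]
  intro r
  exact (h r).mul continuousAt_const

theorem sus_sfr_rot_ne (hD : D.Splits) (s : D.H.ι → D.E → (D.V →L[ℝ] D.E))
    (h2 : ∀ i, ∀ x ∈ D.H.dom i,
      fderiv ℝ (D.H.f i) x ∘L s i x = ContinuousLinearMap.id ℝ D.V)
    (h3 : ∀ i a j x, x ∈ D.H.dom j → D.M.act a x ∈ D.H.dom i →
      s i (D.M.act a x) ∘L D.H.normal i a j x = fderiv ℝ (D.M.act a) x ∘L s j x)
    (i : D.H.ι × SIdx) (l : D.Λ) (j : D.H.ι × SIdx) (p : SE D)
    (hj : p ∈ sdom D j) (hi : sphAct D.M D.ℓ l p ∈ sdom D i) (hy : p.2.1 ≠ 0) :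
    (susH D hD).normal i l j p ∘L sfr D s j p =
      sfr D s i (sphAct D.M D.ℓ l p) ∘L rotT (fun r => r.elim
        (rhoS D.ℓ 1 i.2.pt l j.2.pt p) (fun r => D.ρ (D.b0 i.1) l (D.b0 j.1) p.1 r)) := by
  obtain ⟨i1, i2⟩ := i
  obtain ⟨j1, j2⟩ := j
  have hpU : p ∈ sphU D.M := sdom_subset D _ hj
  have hJ : D.ℓ.J l p.1 ≠ 0 := J_ne_zero D.M D.ℓ l p.1 hpU.1
  have hy' : (sphAct D.M D.ℓ l p).2.1 ≠ 0 := mul_ne_zero hJ hy
  have ej := sfr_phase D s j1 j2 j2.su3R j2.su3R_ch j2.su3R_pt p hj hy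
  have ei := sfr_phase D s i1 i2 i2.su3R i2.su3R_ch i2.su3R_pt _ hi hy'
  have hj' := sus_sdom_toR D j1 j2 p hj hy
  have hi' := sus_sdom_toR D i1 i2 _ hi hy'
  have hkey : ∀ v, (susH D hD).normal (i1, i2) l (j1, j2) p (sfr D s (j1, j2.su3R) p v) =
      sfr D s (i1, i2.su3R) (sphAct D.M D.ℓ l p)
        (rotT (fun r => r.elim 1 (fun r => D.ρ (D.b0 i1) l (D.b0 j1) p.1 r)) v) := by
    intro v
    rw [sfr_eq_R D s h2 j1 j2.su3R j2.su3R_pt p hj' v, sus_sf_toR,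
      sfr_eq_R D s h2 i1 i2.su3R i2.su3R_pt _ hi' _, sus_sf_toR,
      ← slift_act D s h3 i1 l j1 p hpU hj.1 hi.1 v]
    have hn := normal_comp (susH D hD) (i1, i2) l (j1, j2) p hj hi
    exact congrArg (fun F : SE D →L[ℝ] D.V × ℂ => F (slift D s j1 p v)) hn
  have hrho := rhoS_eq D.M D.ℓ 1 i2.pt l j2.pt p hj.2 hi.2 hy
  have hne : ∀ r : Option R, (r.elim (tauS 1 j2.pt p) (fun _ => 1) : ℂ) ≠ 0 := by
    intro r
    cases r with
    | none =>
      change tauS 1 j2.pt p ≠ 0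
      rw [← norm_ne_zero_iff, norm_tauS 1 j2.pt p hy]
      exact one_ne_zero
    | some r => exact one_ne_zero
  refine ContinuousLinearMap.ext fun w => ?_
  obtain ⟨v, rfl⟩ := sus_rotT_surj (K := K) _ hne w
  have e1 : sfr D s (j1, j2) p (rotT (fun r => r.elim (tauS 1 j2.pt p) (fun _ => 1)) v) =
      sfr D s (j1, j2.su3R) p v := by
    rw [← ej]
    rfl
  rw [ContinuousLinearMap.comp_apply, ContinuousLinearMap.comp_apply, e1, hkey v, ← ei,
    ContinuousLinearMap.comp_apply]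
  congr 1
  rw [← ContinuousLinearMap.comp_apply, ← ContinuousLinearMap.comp_apply, sus_rotT_comp,
    sus_rotT_comp]
  congr 1
  congr 1
  funext r
  cases r with
  | none =>
    change tauS 1 i2.pt (sphAct D.M D.ℓ l p) * 1 = rhoS D.ℓ 1 i2.pt l j2.pt p * tauS 1 j2.pt p
    rw [hrho, mul_one]
  | some r =>
    change 1 * D.ρ (D.b0 i1) l (D.b0 j1) p.1 r = D.ρ (D.b0 i1) l (D.b0 j1) p.1 r * 1
    ring

end

theorem sfr_rot {R K : Type} [Fintype R] [Fintype K] {n : ℕ} {α : R → ℕ} {b : ℕ}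
    (D : Block R K n α b) (hD : D.Splits) (s : D.H.ι → D.E → (D.V →L[ℝ] D.E))
    (h1 : ∀ i, ContDiffOn ℝ ∞ (s i) (D.H.dom i))
    (h2 : ∀ i, ∀ x ∈ D.H.dom i,
      fderiv ℝ (D.H.f i) x ∘L s i x = ContinuousLinearMap.id ℝ D.V)
    (h3 : ∀ i a j x, x ∈ D.H.dom j → D.M.act a x ∈ D.H.dom i →
      s i (D.M.act a x) ∘L D.H.normal i a j x = fderiv ℝ (D.M.act a) x ∘L s j x)
    (i : D.H.ι × SIdx) (l : D.Λ) (j : D.H.ι × SIdx) (p : SE D)
    (hj : p ∈ sdom D j) (hi : sphAct D.M D.ℓ l p ∈ sdom D i) :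
    (susH D hD).normal i l j p ∘L sfr D s j p =
      sfr D s i (sphAct D.M D.ℓ l p) ∘L rotT (fun r => r.elim
        (rhoS D.ℓ 1 i.2.pt l j.2.pt p) (fun r => D.ρ (D.b0 i.1) l (D.b0 j.1) p.1 r)) := by
  have hpU : p ∈ sphU D.M := sdom_subset D _ hj
  have hact : ContinuousAt (sphAct D.M D.ℓ l) p :=
    (((sphM D.M D.ℓ).smooth_act l).contDiffAt ((isOpen_sphU D.M).mem_nhds hpU)).continuousAt
  refine eq_of_eventually_ne
    (fun q => (susH D hD).normal i l j q ∘L sfr D s j q)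
    (fun q => sfr D s i (sphAct D.M D.ℓ l q) ∘L rotT (fun r => r.elim
        (rhoS D.ℓ 1 i.2.pt l j.2.pt q) (fun r => D.ρ (D.b0 i.1) l (D.b0 j.1) q.1 r))) p
    ?_ ?_ ?_
  · refine ContinuousAt.clm_comp ?_ ?_
    · exact (contDiffAt_normal (susH D hD) i l j p hj hi).continuousAt
    · exact ((contDiffOn_sfr D s h1 j).contDiffAt ((isOpen_sdom D j).mem_nhds hj)).continuousAt
  · refine ContinuousAt.clm_comp ?_ ?_
    · exact ContinuousAt.comp (f := sphAct D.M D.ℓ l) (g := sfr D s i)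
        ((contDiffOn_sfr D s h1 i).contDiffAt ((isOpen_sdom D i).mem_nhds hi)).continuousAt hact
    · refine sus_rotT_continuousAt _ p ?_
      intro r
      cases r with
      | none => exact (differentiableAt_rhoS D.M D.ℓ 1 i.2.pt l j.2.pt p hj.2 hi.2).continuousAt
      | some r =>
        have h := (D.diff_ρ (D.b0 i.1) l (D.b0 j.1) p.1 (D.dom_b0 _ hj.1) (D.dom_b0 _ hi.1)
          r).continuousAt
        exact ContinuousAt.comp (f := fun q : SE D => q.1) h continuousAt_fst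
  · filter_upwards [(isOpen_sdom D j).mem_nhds hj, hact ((isOpen_sdom D i).mem_nhds hi)]
      with q hqj hqi hq
    exact sus_sfr_rot_ne D hD s h2 h3 i l j q hqj hqi hq

theorem suspension {R K : Type} [Fintype R] [Fintype K] {n : ℕ} {α : R → ℕ} {b : ℕ}
    (D : Block R K n α b) (hD : D.Splits) :
    Nonempty (Block (Option R) K (n + 1) (fun o => o.elim (b + 1) α) 0) := by
  obtain ⟨s, h1, h2, h3⟩ := id hD
  exact ⟨{
    toBase := sphBase D.toBase 1 0 (b + 1) 0 (sphCond_one b)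
    V := D.V × ℂ
    H := susH D hD
    b0 := fun i => (D.b0 i.1, i.2.pt)
    dom_b0 := fun i p hp => ⟨D.dom_b0 _ hp.1, hp.2⟩
    o := susO D
    frame := sfr D s
    smooth_frame := contDiffOn_sfr D s h1
    orient_frame := fun i p hp => det_sfr_pos D s i p hp
    frame_rot := fun i a j p hj hi => sfr_rot D hD s h1 h2 h3 i a j p hj hi
    φ := fun _ _ => 1
    smooth_φ := fun _ => contDiffOn_const
    norm_φ := fun _ _ _ => norm_one
    leafwise := fun i a j p hj hi => ⟨fun _ => 1, contDiffAt_const,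
      Eventually.of_forall fun q => by
        change (1 : ℂ) * D.ℓ.J a q.1 ^ 0 = 1 * 1
        rw [pow_zero]⟩ }⟩

end Pool.Agent.HAF2
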