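import Pool.Agent.HAF2.Asm
import Pool.Agent.HAF2.Sus
import Pool.Agent.HAF2.HH

/-!
# The main theorem
-/

namespace Pool.Agent.HAF2

theorem main : MainStatement :=
  main_of_blocks (fun _ _ _ _ _ _ _ D hD => suspension D hD) vh_block hh_block

end Pool.Agent.HAF2
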