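import Pool.Agent.HAF2.Defs

/-!
# Internal structures of the construction
-/

namespace Pool.Agent.HAF2

open Filter Topology MeasureTheory
open scoped ContDiff
open Pool.Agent.HaefligerClasses (QuotientManifold IsForm HaefligerStructure curvature
  torusElement)

/-! ## The model of the normal space: planes indexed by `R`, lines indexed by `K` -/

/-- the model space -/
abbrev TV (R K : Type) : Type := (R → ℂ) × (K → ℝ)

/-- multiplication by a complex number -/
noncomputable def mulC (c : ℂ) : ℂ →L[ℝ] ℂ := ContinuousLinearMap.mul ℝ ℂ c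

@[simp] theorem mulC_apply (c w : ℂ) : mulC c w = c * w := rfl

/-- multiplication of the planes by complex numbers -/
noncomputable def rotT {R K : Type} [Fintype R] [Fintype K] (ρ : R → ℂ) :
    TV R K →L[ℝ] TV R K :=
  ContinuousLinearMap.prodMap
    (ContinuousLinearMap.pi fun r => mulC (ρ r) ∘L ContinuousLinearMap.proj r)
    (ContinuousLinearMap.id ℝ (K → ℝ))

@[simp] theorem rotT_apply {R K : Type} [Fintype R] [Fintype K] (ρ : R → ℂ) (v : TV R K) :
    rotT ρ v = (fun r => ρ r * v.1 r, v.2) := rfl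

/-! ## Differential forms, unitary line bundles, cycles -/

section

variable {E : Type} [NormedAddCommGroup E] [NormedSpace ℝ E] {Λ : Type} [AddGroup Λ]

/-- the exterior derivative of a one form -/
noncomputable def dform (a : E → E →L[ℝ] ℝ) (x u w : E) : ℝ :=
  fderiv ℝ a x u w - fderiv ℝ a x w u

/-- an invariant `m`-form of class `C^1` -/
def IsForm1 (M : QuotientManifold E Λ) {m : ℕ} (β : E → E [⋀^Fin m]→L[ℝ] ℝ) : Prop :=
  ContDiffOn ℝ 1 β M.U ∧ ∀ a, ∀ x ∈ M.U,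
    (β (M.act a x)).compContinuousLinearMap (fderiv ℝ (M.act a) x) = β x

/-- a unitary line bundle with connection on `U/Λ`: a unitary cocycle `J` and a connection form -/
structure ULine (M : QuotientManifold E Λ) where
  /-- the cocycle -/
  J : Λ → E → ℂ
  smooth_J : ∀ l, ContDiffOn ℝ ∞ (J l) M.U
  norm_J : ∀ l, ∀ x ∈ M.U, ‖J l x‖ = 1
  J_add : ∀ l l', ∀ x ∈ M.U, J (l + l') x = J l (M.act l' x) * J l' x
  /-- the connection form -/
  a : E → E →L[ℝ] ℝ
  smooth_a : ContDiffOn ℝ ∞ a M.U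
  a_compat : ∀ l, ∀ x ∈ M.U, ∀ u, fderiv ℝ (J l) x u =
    Complex.I * J l x * ((a x u - a (M.act l x) (fderiv ℝ (M.act l) x u) : ℝ) : ℂ)

/-- a cycle: finitely many smooth cubes in `U`, on which the exterior derivatives of the invariant
forms integrate to zero -/
structure Cycle (M : QuotientManifold E Λ) (N : ℕ) where
  κ : Type
  [fin : Fintype κ]
  c : κ → (Fin N → ℝ) → E
  smooth_c : ∀ k, ContDiff ℝ ∞ (c k)
  mem_c : ∀ k, ∀ ξ ∈ Set.Icc (0 : Fin N → ℝ) 1, c k ξ ∈ M.U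
  closed : ∀ (m : ℕ) (hm : m + 1 = N) (β : E → E [⋀^Fin m]→L[ℝ] ℝ), IsForm1 M β →
    ∑ k, ∫ ξ in Set.Icc (0 : Fin N → ℝ) 1,
      extDeriv β (c k ξ) (fun i => fderiv ℝ (c k) ξ (Pi.single (Fin.cast hm i) 1)) = 0

attribute [instance] Cycle.fin

/-- the antisymmetrised product of `n` entries of a matrix of size `N = 2 n` -/
noncomputable def pairSum {N : ℕ} (n : ℕ) (h : N = 2 * n) (A : Fin N → Fin N → ℝ) : ℝ :=
  ∑ σ : Equiv.Perm (Fin N), ((Equiv.Perm.sign σ : ℤ) : ℝ) *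
    ∏ s : Fin n, A (σ ⟨2 * s.1, by omega⟩) (σ ⟨2 * s.1 + 1, by omega⟩)

/-- the integral of the `n`-th power of a `2`-form over a `2 n`-dimensional cycle -/
noncomputable def Cycle.power {M : QuotientManifold E Λ} {N : ℕ} (C : Cycle M N) (n : ℕ)
    (h : N = 2 * n) (W : E → E → E → ℝ) : ℝ :=
  ∑ k, ∫ ξ in Set.Icc (0 : Fin N → ℝ) 1,
    pairSum n h (fun i j => W (C.c k ξ) (fderiv ℝ (C.c k) ξ (Pi.single i 1))
      (fderiv ℝ (C.c k) ξ (Pi.single j 1)))

end

/-! ## Bases -/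

/-- A manifold with root line bundles (indexed by `R`, given by cocycles over a cover), a unitary
line bundle `ℓ` and a cycle of dimension `2 n`, on which
`∫ (∑ x_r K_r + y K_ℓ)^n = C ∏ x_r ^ (α r) y ^ b` with `C ≠ 0`. -/
structure Base (R : Type) [Fintype R] (n : ℕ) (α : R → ℕ) (b : ℕ) where
  E : Type
  [iE1 : NormedAddCommGroup E]
  [iE2 : NormedSpace ℝ E]
  [iE3 : FiniteDimensional ℝ E]
  Λ : Type
  [iΛ : AddGroup Λ]
  M : QuotientManifold E Λ
  ι : Type
  dom : ι → Set E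
  isOpen_dom : ∀ i, IsOpen (dom i)
  dom_subset : ∀ i, dom i ⊆ M.U
  cover : ∀ x ∈ M.U, ∃ i, x ∈ dom i
  /-- cocycles of the root line bundles -/
  ρ : ι → Λ → ι → E → R → ℂ
  norm_ρ : ∀ i a j x, x ∈ dom j → M.act a x ∈ dom i → ∀ r, ‖ρ i a j x r‖ = 1
  diff_ρ : ∀ i a j x, x ∈ dom j → M.act a x ∈ dom i → ∀ r,
    DifferentiableAt ℝ (fun y => ρ i a j y r) x
  /-- the connection forms of the root line bundles -/
  θ : ι → R → E → (E →L[ℝ] ℝ)
  smooth_θ : ∀ i r, ContDiffOn ℝ ∞ (θ i r) (dom i)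
  compat : ∀ i a j x, x ∈ dom j → M.act a x ∈ dom i → ∀ r u,
    fderiv ℝ (fun y => ρ i a j y r) x u = Complex.I * ρ i a j x r *
      ((θ j r x u - θ i r (M.act a x) (fderiv ℝ (M.act a) x u) : ℝ) : ℂ)
  /-- the curvature forms of the root line bundles -/
  curv : R → E → E → E → ℝ
  curv_eq : ∀ i r, ∀ x ∈ dom i, ∀ u w, curv r x u w = dform (θ i r) x u w
  ℓ : ULine M
  N : ℕ
  hN : N = 2 * n
  cyc : Cycle M N
  integral : ∃ C : ℝ, C ≠ 0 ∧ ∀ (x : R → ℝ) (y : ℝ),
    cyc.power n hN (fun p u w => ∑ r, x r * curv r p u w + y * dform ℓ.a p u w) =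
      C * (∏ r, x r ^ α r) * y ^ b

attribute [instance] Base.iE1 Base.iE2 Base.iE3 Base.iΛ

/-! ## Blocks -/

/-- A base together with a Haefliger structure whose oriented normal bundle is the sum of the root
line bundles and trivial lines (`frame`), and such that `ℓ` is flat along the leaves. -/
structure Block (R K : Type) [Fintype R] [Fintype K] (n : ℕ) (α : R → ℕ) (b : ℕ) extends
    Base R n α b where
  V : Type
  [iV1 : NormedAddCommGroup V]
  [iV2 : NormedSpace ℝ V]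
  [iV3 : FiniteDimensional ℝ V]
  H : HaefligerStructure M V
  /-- the cover of the Haefliger structure refines the cover of the base -/
  b0 : H.ι → ι
  dom_b0 : ∀ i, H.dom i ⊆ dom (b0 i)
  /-- the model of the transversal -/
  o : TV R K ≃L[ℝ] V
  /-- the frames of the normal bundle -/
  frame : H.ι → E → (TV R K →L[ℝ] V)
  smooth_frame : ∀ i, ContDiffOn ℝ ∞ (frame i) (H.dom i)
  orient_frame : ∀ i, ∀ x ∈ H.dom i, 0 < ((o.symm : V →L[ℝ] TV R K) ∘L frame i x).det
  frame_rot : ∀ i a j x, x ∈ H.dom j → M.act a x ∈ H.dom i →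
    H.normal i a j x ∘L frame j x =
      frame i (M.act a x) ∘L rotT (ρ (b0 i) a (b0 j) x)
  /-- leafwise flat trivialisations of the line bundle `ℓ` -/
  φ : H.ι → E → ℂ
  smooth_φ : ∀ i, ContDiffOn ℝ ∞ (φ i) (H.dom i)
  norm_φ : ∀ i, ∀ x ∈ H.dom i, ‖φ i x‖ = 1
  leafwise : ∀ i a j x, x ∈ H.dom j → M.act a x ∈ H.dom i →
    ∃ Θ : V → ℂ, ContDiffAt ℝ ∞ Θ (H.f j x) ∧
      ∀ᶠ y in 𝓝 x, φ i (M.act a y) * ℓ.J a y = Θ (H.f j y) * φ j y

attribute [instance] Block.iV1 Block.iV2 Block.iV3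

/-- The derivatives of the local maps split equivariantly; in particular the local maps are
submersions. -/
def Block.Splits {R K : Type} [Fintype R] [Fintype K] {n : ℕ} {α : R → ℕ} {b : ℕ}
    (D : Block R K n α b) : Prop :=
  ∃ s : D.H.ι → D.E → (D.V →L[ℝ] D.E),
    (∀ i, ContDiffOn ℝ ∞ (s i) (D.H.dom i)) ∧
    (∀ i, ∀ x ∈ D.H.dom i, fderiv ℝ (D.H.f i) x ∘L s i x = ContinuousLinearMap.id ℝ D.V) ∧
    (∀ i a j x, x ∈ D.H.dom j → D.M.act a x ∈ D.H.dom i →
      s i (D.M.act a x) ∘L D.H.normal i a j x = fderiv ℝ (D.M.act a) x ∘L s j x)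

end Pool.Agent.HAF2
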