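import Pool.Agent.HAF2.Model

/-!
# Module PBK: `pairSum` of a block diagonal matrix

Possible proof in the exterior algebra of `Fin N → ℝ`: put
`w A = ∑ i j, A i j • (ι e_i * ι e_j)`; then `(w A) ^ n = pairSum n h A • ∏ i, ι e_i`
(expand the power; products of basis vectors with a repetition vanish, the others give the sign).
For a block diagonal matrix `w A = w₁ + w₂` with commuting `w₁, w₂` and `w₁ ^ k = 0` for
`k > n₁`, `w₂ ^ k = 0` for `k > n₂`, so `(w₁ + w₂) ^ (n₁ + n₂) = choose * w₁ ^ n₁ * w₂ ^ n₂`.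
Another proof: group the permutations by the set of positions of the pairs which are mapped to
the first block.
-/

namespace Pool.Agent.HAF2

open Filter Topology MeasureTheory

/-- expansion of a power of a sum of products of pairs -/
theorem pairPow_expand {B : Type*} [Ring B] [Algebra ℝ B] {κ : Type*} [Fintype κ]
    (x : κ → B) (A : κ → κ → ℝ) (n : ℕ) :
    (∑ i, ∑ j, A i j • (x i * x j)) ^ n =
      ∑ g : Fin (2 * n) → κ,
        (∏ s : Fin n, A (g ⟨2 * s.1, by omega⟩) (g ⟨2 * s.1 + 1, by omega⟩)) •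
          (List.ofFn (fun k => x (g k))).prod := by
  induction n with
  | zero =>
    have hz : ∀ g : Fin (2 * 0) → κ, (List.ofFn (fun k => x (g k))).prod = 1 := by
      intro g
      have : List.ofFn (fun k => x (g k)) = [] := by
        apply List.eq_nil_of_length_eq_zero
        simp
      rw [this, List.prod_nil]
    have hu : Fintype.card (Fin (2 * 0) → κ) = 1 := by
      rw [Fintype.card_fun]; simp
    simp only [pow_zero, hz, Finset.univ_eq_empty, Finset.prod_empty, one_smul,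
      Finset.sum_const, Finset.card_univ, hu]
  | succ n ih =>
    rw [pow_succ', ih]
    have e1 : ∀ F : (Fin (2 * n + 1 + 1) → κ) → B, ∑ g, F g =
        ∑ i, ∑ j, ∑ g : Fin (2 * n) → κ, F (Fin.cons i (Fin.cons j g)) := by
      intro F
      have h1 := (Fin.consEquiv (fun _ : Fin (2 * n + 1 + 1) => κ)).sum_comp F
      rw [← h1, Fintype.sum_prod_type]
      refine Finset.sum_congr rfl (fun i _ => ?_)
      have h2 := (Fin.consEquiv (fun _ : Fin (2 * n + 1) => κ)).sum_comp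
        (fun g => F (Fin.cons i g))
      have h3 : ∀ g : (∀ _ : Fin (2 * n + 1), κ),
          (Fin.consEquiv (fun _ : Fin (2 * n + 1 + 1) => κ)) (i, g) = Fin.cons i g :=
        fun g => rfl
      simp only [h3]
      refine h2.symm.trans ?_
      rw [Fintype.sum_prod_type]
      rfl
    have e2 := e1 (fun g => (∏ s : Fin (n + 1), A (g ⟨2 * s.1, by omega⟩)
      (g ⟨2 * s.1 + 1, by omega⟩)) • (List.ofFn (fun k => x (g k))).prod)
    refine Eq.trans ?_ e2.symm
    rw [Finset.sum_mul]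
    refine Finset.sum_congr rfl (fun i _ => ?_)
    rw [Finset.sum_mul]
    refine Finset.sum_congr rfl (fun j _ => ?_)
    rw [Finset.mul_sum]
    refine Finset.sum_congr rfl (fun g _ => ?_)
    have hp : (∏ s : Fin (n + 1), A ((Fin.cons i (Fin.cons j g : Fin (2 * n + 1) → κ) :
        Fin (2 * n + 1 + 1) → κ) ⟨2 * s.1, by omega⟩)
        ((Fin.cons i (Fin.cons j g : Fin (2 * n + 1) → κ) :
        Fin (2 * n + 1 + 1) → κ) ⟨2 * s.1 + 1, by omega⟩)) =
        A i j * ∏ s : Fin n, A (g ⟨2 * s.1, by omega⟩) (g ⟨2 * s.1 + 1, by omega⟩) := by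
      rw [Fin.prod_univ_succ]
      rfl
    have hl : (List.ofFn (fun k => x ((Fin.cons i (Fin.cons j g : Fin (2 * n + 1) → κ) :
        Fin (2 * n + 1 + 1) → κ) k))).prod =
        (x i * x j) * (List.ofFn (fun k => x (g k))).prod := by
      rw [List.ofFn_succ, List.ofFn_succ, List.prod_cons, List.prod_cons, ← mul_assoc]
      rfl
    rw [hp, hl, smul_mul_smul_comm]

/-- the standard two-vector of a matrix in an exterior algebra -/
noncomputable def twoVec {M : Type*} [AddCommGroup M] [Module ℝ M] {κ : Type*} [Fintype κ]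
    (e : κ → M) (A : κ → κ → ℝ) : ExteriorAlgebra ℝ M :=
  ∑ i, ∑ j, A i j • (ExteriorAlgebra.ι ℝ (e i) * ExteriorAlgebra.ι ℝ (e j))

theorem twoVec_pow {M : Type*} [AddCommGroup M] [Module ℝ M] {N n : ℕ} (h : N = 2 * n)
    (e : Fin N → M) (A : Fin N → Fin N → ℝ) :
    twoVec e A ^ n = pairSum n h A • ExteriorAlgebra.ιMulti ℝ N e := by
  subst h
  unfold twoVec
  rw [pairPow_expand (fun i => ExteriorAlgebra.ι ℝ (e i)) A n]
  have h0 : ∀ g : Fin (2 * n) → Fin (2 * n),
      (List.ofFn (fun k => ExteriorAlgebra.ι ℝ (e (g k)))).prod =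
        ExteriorAlgebra.ιMulti ℝ (2 * n) (e ∘ g) := by
    intro g
    rw [ExteriorAlgebra.ιMulti_apply]
    rfl
  simp only [h0]
  have h1 : ∀ g : Fin (2 * n) → Fin (2 * n), ¬ Function.Bijective g →
      ExteriorAlgebra.ιMulti ℝ (2 * n) (e ∘ g) = 0 := by
    intro g hg
    apply AlternatingMap.map_eq_zero_of_not_injective
    intro hi
    exact hg ((Finite.injective_iff_bijective).1 (Function.Injective.of_comp hi))
  unfold pairSum
  rw [Finset.sum_smul]
  symm
  refine Finset.sum_of_injOn (fun σ : Equiv.Perm (Fin (2 * n)) => (σ : Fin (2 * n) → Fin (2 * n)))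
    (fun a _ b _ hab => DFunLike.coe_injective hab) (fun a _ => Finset.mem_univ _) ?_ ?_
  · intro g _ hg
    rw [h1 g, smul_zero]
    intro hb
    apply hg
    exact ⟨Equiv.ofBijective g hb, Finset.mem_coe.2 (Finset.mem_univ _), rfl⟩
  · intro σ _
    rw [AlternatingMap.map_perm, mul_comm, mul_smul]
    congr 1

theorem twoVec_pow_eq_zero {M : Type*} [AddCommGroup M] [Module ℝ M] {N n : ℕ} (h : N < 2 * n)
    (e : Fin N → M) (A : Fin N → Fin N → ℝ) : twoVec e A ^ n = 0 := by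
  unfold twoVec
  rw [pairPow_expand (fun i => ExteriorAlgebra.ι ℝ (e i)) A n]
  refine Finset.sum_eq_zero (fun g _ => ?_)
  have h0 : (List.ofFn (fun k => ExteriorAlgebra.ι ℝ (e (g k)))).prod =
        ExteriorAlgebra.ιMulti ℝ (2 * n) (e ∘ g) := by
    rw [ExteriorAlgebra.ιMulti_apply]
    rfl
  rw [h0, AlternatingMap.map_eq_zero_of_not_injective, smul_zero]
  intro hi
  have hg : Function.Injective g := Function.Injective.of_comp hi
  have := Fintype.card_le_of_injective g hg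
  rw [Fintype.card_fin, Fintype.card_fin] at this
  omega

private theorem ι_pair_comm {M : Type*} [AddCommGroup M] [Module ℝ M] (a b c : M) :
    ExteriorAlgebra.ι ℝ a * ExteriorAlgebra.ι ℝ b * ExteriorAlgebra.ι ℝ c =
      ExteriorAlgebra.ι ℝ c * (ExteriorAlgebra.ι ℝ a * ExteriorAlgebra.ι ℝ b) := by
  have h1 := ExteriorAlgebra.ι_add_mul_swap (R := ℝ) b c
  have h2 := ExteriorAlgebra.ι_add_mul_swap (R := ℝ) a c
  have h3 : ExteriorAlgebra.ι ℝ b * ExteriorAlgebra.ι ℝ c =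
      -(ExteriorAlgebra.ι ℝ c * ExteriorAlgebra.ι ℝ b) := eq_neg_of_add_eq_zero_left h1
  have h4 : ExteriorAlgebra.ι ℝ a * ExteriorAlgebra.ι ℝ c =
      -(ExteriorAlgebra.ι ℝ c * ExteriorAlgebra.ι ℝ a) := eq_neg_of_add_eq_zero_left h2
  rw [mul_assoc, h3, mul_neg, ← mul_assoc, h4, neg_mul, neg_neg, mul_assoc]

theorem twoVec_commute {M : Type*} [AddCommGroup M] [Module ℝ M] {κ κ' : Type*} [Fintype κ]
    [Fintype κ'] (e : κ → M) (A : κ → κ → ℝ) (e' : κ' → M) (A' : κ' → κ' → ℝ) :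
    Commute (twoVec e A) (twoVec e' A') := by
  unfold twoVec
  refine Commute.sum_left _ _ _ (fun i _ => Commute.sum_left _ _ _ (fun j _ => ?_))
  refine Commute.smul_left ?_ _
  refine Commute.sum_right _ _ _ (fun k _ => Commute.sum_right _ _ _ (fun l _ => ?_))
  refine Commute.smul_right ?_ _
  have h1 : Commute (ExteriorAlgebra.ι ℝ (e i) * ExteriorAlgebra.ι ℝ (e j))
      (ExteriorAlgebra.ι ℝ (e' k)) := ι_pair_comm _ _ _
  have h2 : Commute (ExteriorAlgebra.ι ℝ (e i) * ExteriorAlgebra.ι ℝ (e j))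
      (ExteriorAlgebra.ι ℝ (e' l)) := ι_pair_comm _ _ _
  exact h1.mul_right h2

/-- the coefficient of the volume element -/
theorem ιMulti_basis_ne_zero (N : ℕ) :
    ExteriorAlgebra.ιMulti ℝ N (fun i : Fin N => (Pi.basisFun ℝ (Fin N)) i) ≠ 0 := by
  classical
  intro h
  have h1 := ExteriorAlgebra.liftAlternating_apply_ιMulti (R := ℝ) (M := Fin N → ℝ) (N := ℝ)
    (n := N) (Function.update (fun _ => 0) N (Pi.basisFun ℝ (Fin N)).det)
    (fun i : Fin N => (Pi.basisFun ℝ (Fin N)) i)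
  rw [h, map_zero, Function.update_self] at h1
  have h2 := (Pi.basisFun ℝ (Fin N)).det_self
  have h3 : (Pi.basisFun ℝ (Fin N)).det (fun i : Fin N => (Pi.basisFun ℝ (Fin N)) i) = 1 := h2
  rw [h3] at h1
  exact zero_ne_one h1

theorem pairSum_block {N₁ N₂ n₁ n₂ : ℕ} (h₁ : N₁ = 2 * n₁) (h₂ : N₂ = 2 * n₂)
    (h : N₁ + N₂ = 2 * (n₁ + n₂)) (A : Fin (N₁ + N₂) → Fin (N₁ + N₂) → ℝ)
    (h12 : ∀ i j, A (Fin.castAdd N₂ i) (Fin.natAdd N₁ j) = 0)
    (h21 : ∀ i j, A (Fin.natAdd N₁ i) (Fin.castAdd N₂ j) = 0) :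
    pairSum (n₁ + n₂) h A = (Nat.choose (n₁ + n₂) n₁ : ℝ) *
      pairSum n₁ h₁ (fun i j => A (Fin.castAdd N₂ i) (Fin.castAdd N₂ j)) *
      pairSum n₂ h₂ (fun i j => A (Fin.natAdd N₁ i) (Fin.natAdd N₁ j)) := by
  classical
  set e : Fin (N₁ + N₂) → (Fin (N₁ + N₂) → ℝ) := fun i => (Pi.basisFun ℝ (Fin (N₁ + N₂))) i
    with he
  set e₁ : Fin N₁ → (Fin (N₁ + N₂) → ℝ) := fun i => e (Fin.castAdd N₂ i) with he₁
  set e₂ : Fin N₂ → (Fin (N₁ + N₂) → ℝ) := fun i => e (Fin.natAdd N₁ i) with he₂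
  set A₁ : Fin N₁ → Fin N₁ → ℝ := fun i j => A (Fin.castAdd N₂ i) (Fin.castAdd N₂ j) with hA₁
  set A₂ : Fin N₂ → Fin N₂ → ℝ := fun i j => A (Fin.natAdd N₁ i) (Fin.natAdd N₁ j) with hA₂
  have hw : twoVec e A = twoVec e₁ A₁ + twoVec e₂ A₂ := by
    unfold twoVec
    rw [Fin.sum_univ_add]
    congr 1
    · refine Finset.sum_congr rfl (fun i _ => ?_)
      rw [Fin.sum_univ_add]
      have : ∑ j : Fin N₂, A (Fin.castAdd N₂ i) (Fin.natAdd N₁ j) •
          (ExteriorAlgebra.ι ℝ (e (Fin.castAdd N₂ i)) *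
            ExteriorAlgebra.ι ℝ (e (Fin.natAdd N₁ j))) = 0 := by
        refine Finset.sum_eq_zero (fun j _ => ?_)
        rw [h12, zero_smul]
      rw [this, add_zero]
    · refine Finset.sum_congr rfl (fun i _ => ?_)
      rw [Fin.sum_univ_add]
      have : ∑ j : Fin N₁, A (Fin.natAdd N₁ i) (Fin.castAdd N₂ j) •
          (ExteriorAlgebra.ι ℝ (e (Fin.natAdd N₁ i)) *
            ExteriorAlgebra.ι ℝ (e (Fin.castAdd N₂ j))) = 0 := by
        refine Finset.sum_eq_zero (fun j _ => ?_)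
        rw [h21, zero_smul]
      rw [this, zero_add]
  have hpow : twoVec e A ^ (n₁ + n₂) = (Nat.choose (n₁ + n₂) n₁ : ℝ) •
      (twoVec e₁ A₁ ^ n₁ * twoVec e₂ A₂ ^ n₂) := by
    rw [hw, (twoVec_commute e₁ A₁ e₂ A₂).add_pow]
    rw [Finset.sum_eq_single n₁]
    · rw [Nat.add_sub_cancel_left, Nat.cast_smul_eq_nsmul, nsmul_eq_mul,
        (Nat.cast_commute _ _).eq]
    · intro k hk hne
      rcases lt_or_gt_of_ne hne with hlt | hgt
      · have : twoVec e₂ A₂ ^ (n₁ + n₂ - k) = 0 := by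
          apply twoVec_pow_eq_zero
          omega
        rw [this, mul_zero, zero_mul]
      · have : twoVec e₁ A₁ ^ k = 0 := by
          apply twoVec_pow_eq_zero
          omega
        rw [this, zero_mul, zero_mul]
    · intro hk
      exact absurd (Finset.mem_range.2 (by omega)) hk
  have happ : ExteriorAlgebra.ιMulti ℝ N₁ e₁ * ExteriorAlgebra.ιMulti ℝ N₂ e₂ =
      ExteriorAlgebra.ιMulti ℝ (N₁ + N₂) e := by
    rw [ExteriorAlgebra.ιMulti_apply, ExteriorAlgebra.ιMulti_apply,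
      ExteriorAlgebra.ιMulti_apply, ← List.prod_append, ← List.ofFn_fin_append]
    congr 2
    funext k
    refine Fin.addCases (fun i => ?_) (fun i => ?_) k
    · rw [Fin.append_left]
    · rw [Fin.append_right]
  rw [twoVec_pow h, twoVec_pow h₁, twoVec_pow h₂, smul_mul_smul_comm, happ, smul_smul] at hpow
  have hne : ExteriorAlgebra.ιMulti ℝ (N₁ + N₂) e ≠ 0 := ιMulti_basis_ne_zero (N₁ + N₂)
  have hfin := smul_left_injective ℝ hne hpow
  rw [hfin, mul_assoc]

end Pool.Agent.HAF2
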