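import Pool.Agent.HAF2.Model

/-!
# Module PEX: expansion of `pairSum` along a row

`A` is an antisymmetric matrix of size `N + 2`; the only entry of the last row outside the column
`N` (the last but one) vanishes. In every nonzero term of `pairSum`, the last two indices are
paired with each other; there are `n + 1` places for this pair, `2` orders, and the remaining
factors give `pairSum` of the submatrix of size `N`.

Two possible proofs. (1) Direct: permutations of `Fin (N + 2)` as functions on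
`Fin (n + 1) × Fin 2`. (2) In the exterior algebra of `Fin N → ℝ` put
`w A = ∑ i j, A i j • (ι e_i * ι e_j)`; then `(w A) ^ n = pairSum n h A • ∏ i, ι e_i`, the
elements of degree two commute, and `w A' = w A + 2 • ι e_N * (...)`.
-/

namespace Pool.Agent.HAF2

open Filter Topology MeasureTheory

private theorem pex_inv1 {P : Type*} [Fintype P] [DecidableEq P] {n : ℕ}
    (e : Fin (n + 1) × Fin 2 ≃ P) (A : P → P → ℝ) (ρ : Equiv.Perm (Fin (n + 1)))
    (σ : Equiv.Perm P) :
    ((Equiv.Perm.sign (σ * e.permCongr (Equiv.prodCongrLeft fun _ => ρ)) : ℤ) : ℝ) *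
      ∏ s : Fin (n + 1), A ((σ * e.permCongr (Equiv.prodCongrLeft fun _ => ρ)) (e (s, 0)))
        ((σ * e.permCongr (Equiv.prodCongrLeft fun _ => ρ)) (e (s, 1))) =
    ((Equiv.Perm.sign σ : ℤ) : ℝ) * ∏ s : Fin (n + 1), A (σ (e (s, 0))) (σ (e (s, 1))) := by
  have h1 : Equiv.Perm.sign (e.permCongr (Equiv.prodCongrLeft fun _ => ρ)) = 1 := by
    rw [Equiv.Perm.sign_permCongr, Equiv.Perm.sign_prodCongrLeft, Fin.prod_univ_two,
      Int.units_mul_self]
  have h2 : ∀ (s : Fin (n + 1)) (b : Fin 2),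
      (σ * e.permCongr (Equiv.prodCongrLeft fun _ => ρ)) (e (s, b)) = σ (e (ρ s, b)) := by
    intro s b
    rw [Equiv.Perm.mul_apply, Equiv.permCongr_apply, Equiv.symm_apply_apply]
    rfl
  rw [Equiv.Perm.sign_mul, h1, mul_one]
  congr 1
  simp only [h2]
  exact Equiv.prod_comp ρ (fun s => A (σ (e (s, 0))) (σ (e (s, 1))))

private theorem pex_inv2 {P : Type*} [Fintype P] [DecidableEq P] {n : ℕ}
    (e : Fin (n + 1) × Fin 2 ≃ P) (A : P → P → ℝ) (hA : ∀ i j, A i j = -A j i)
    (σ : Equiv.Perm P) :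
    ((Equiv.Perm.sign (σ * e.permCongr
      (Equiv.prodCongrRight fun _ => Equiv.swap (0 : Fin 2) 1)) : ℤ) : ℝ) *
      ∏ s : Fin (n + 1),
        A ((σ * e.permCongr (Equiv.prodCongrRight fun _ => Equiv.swap (0 : Fin 2) 1)) (e (s, 0)))
        ((σ * e.permCongr (Equiv.prodCongrRight fun _ => Equiv.swap (0 : Fin 2) 1)) (e (s, 1))) =
    ((Equiv.Perm.sign σ : ℤ) : ℝ) * ∏ s : Fin (n + 1), A (σ (e (s, 0))) (σ (e (s, 1))) := by
  have h1 : Equiv.Perm.sign (e.permCongr
      (Equiv.prodCongrRight fun _ => Equiv.swap (0 : Fin 2) 1)) = (-1) ^ (n + 1) := by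
    rw [Equiv.Perm.sign_permCongr, Equiv.Perm.sign_prodCongrRight,
      Equiv.Perm.sign_swap (by decide), Finset.prod_const, Finset.card_univ, Fintype.card_fin]
  have h2 : ∀ (s : Fin (n + 1)) (b : Fin 2),
      (σ * e.permCongr (Equiv.prodCongrRight fun _ => Equiv.swap (0 : Fin 2) 1)) (e (s, b)) =
        σ (e (s, Equiv.swap (0 : Fin 2) 1 b)) := by
    intro s b
    rw [Equiv.Perm.mul_apply, Equiv.permCongr_apply, Equiv.symm_apply_apply]
    rfl
  rw [Equiv.Perm.sign_mul, h1]
  simp only [h2, Equiv.swap_apply_left, Equiv.swap_apply_right]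
  have h3 : ∏ s : Fin (n + 1), A (σ (e (s, 1))) (σ (e (s, 0))) =
      (-1) ^ (n + 1) * ∏ s : Fin (n + 1), A (σ (e (s, 0))) (σ (e (s, 1))) := by
    have h5 : (-1 : ℝ) ^ (n + 1) = ∏ _s : Fin (n + 1), (-1 : ℝ) := by
      rw [Finset.prod_const, Finset.card_univ, Fintype.card_fin]
    rw [h5, ← Finset.prod_mul_distrib]
    refine Finset.prod_congr rfl fun s _ => ?_
    rw [hA]
    ring
  rw [h3]
  push_cast
  have h4 : ((-1 : ℝ) ^ (n + 1)) * (-1) ^ (n + 1) = 1 := by
    rw [← mul_pow]
    norm_num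
  linear_combination (((Equiv.Perm.sign σ : ℤ) : ℝ) *
    ∏ s : Fin (n + 1), A (σ (e (s, 0))) (σ (e (s, 1)))) * h4

/-- every position of the last index contributes the same -/
private theorem pex_position {P : Type*} [Fintype P] [DecidableEq P] {n : ℕ}
    (e : Fin (n + 1) × Fin 2 ≃ P) (A : P → P → ℝ) (hA : ∀ i j, A i j = -A j i)
    (T : Equiv.Perm P → ℝ) (hT : T = fun σ => ((Equiv.Perm.sign σ : ℤ) : ℝ) *
      ∏ s : Fin (n + 1), A (σ (e (s, 0))) (σ (e (s, 1)))) (l : P)
    (hl : l = e (Fin.last n, 1)) :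
    ∑ σ, T σ = 2 * (n + 1) * ∑ σ : Equiv.Perm P, if σ l = l then T σ else 0 := by
  have hg : ∀ p : P, ∃ g : Equiv.Perm P, g l = p ∧ ∀ σ, T (σ * g) = T σ := by
    intro p
    obtain ⟨⟨s, b⟩, rfl⟩ := e.surjective p
    have i1 : ∀ σ, T (σ * e.permCongr
        (Equiv.prodCongrLeft fun _ => Equiv.swap s (Fin.last n))) = T σ := by
      intro σ
      rw [hT]
      exact pex_inv1 e A _ σ
    have v1 : ∀ b : Fin 2, e.permCongr
        (Equiv.prodCongrLeft fun _ => Equiv.swap s (Fin.last n)) (e (Fin.last n, b)) =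
          e (s, b) := by
      intro b
      rw [Equiv.permCongr_apply, Equiv.symm_apply_apply]
      show e (Equiv.swap s (Fin.last n) (Fin.last n), b) = _
      rw [Equiv.swap_apply_right]
    fin_cases b
    · refine ⟨e.permCongr (Equiv.prodCongrLeft fun _ => Equiv.swap s (Fin.last n)) *
        e.permCongr (Equiv.prodCongrRight fun _ => Equiv.swap (0 : Fin 2) 1), ?_, ?_⟩
      · rw [Equiv.Perm.mul_apply, hl]
        have : e.permCongr (Equiv.prodCongrRight fun _ => Equiv.swap (0 : Fin 2) 1)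
            (e (Fin.last n, 1)) = e (Fin.last n, 0) := by
          rw [Equiv.permCongr_apply, Equiv.symm_apply_apply]
          rfl
        rw [this]
        exact v1 0
      · intro σ
        rw [← mul_assoc]
        have i2 := pex_inv2 e A hA
          (σ * e.permCongr (Equiv.prodCongrLeft fun _ => Equiv.swap s (Fin.last n)))
        refine Eq.trans ?_ (i1 σ)
        rw [hT]
        exact i2
    · refine ⟨e.permCongr (Equiv.prodCongrLeft fun _ => Equiv.swap s (Fin.last n)), ?_, i1⟩
      rw [hl]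
      exact v1 1
  choose g hg1 hg2 using hg
  calc ∑ σ, T σ = ∑ σ, ∑ p : P, (if σ p = l then T σ else 0) := by
        refine Finset.sum_congr rfl fun σ _ => ?_
        rw [Finset.sum_eq_single (σ.symm l)]
        · rw [if_pos (Equiv.apply_symm_apply σ l)]
        · intro b _ hb
          rw [if_neg]
          intro h
          exact hb (by rw [← h, Equiv.symm_apply_apply])
        · intro h
          exact absurd (Finset.mem_univ _) h
    _ = ∑ p : P, ∑ σ : Equiv.Perm P, (if σ p = l then T σ else 0) := Finset.sum_comm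
    _ = ∑ _p : P, ∑ σ : Equiv.Perm P, (if σ l = l then T σ else 0) := by
        refine Finset.sum_congr rfl fun p _ => ?_
        refine Fintype.sum_equiv (Equiv.mulRight (g p)) _ _ fun σ => ?_
        rw [Equiv.coe_mulRight, Equiv.Perm.mul_apply, hg1, hg2]
    _ = _ := by
        rw [Finset.sum_const, Finset.card_univ, ← Fintype.card_congr e, Fintype.card_prod,
          Fintype.card_fin, Fintype.card_fin, nsmul_eq_mul]
        push_cast
        ring

theorem pairSum_expand {N n : ℕ} (h : N = 2 * n) (h' : N + 2 = 2 * (n + 1))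
    (A : Fin (N + 2) → Fin (N + 2) → ℝ) (hA : ∀ i j, A i j = -A j i)
    (h0 : ∀ j : Fin (N + 2), j ≠ Fin.natAdd N 0 → A (Fin.natAdd N 1) j = 0) :
    pairSum (n + 1) h' A = 2 * (n + 1) * A (Fin.natAdd N 0) (Fin.natAdd N 1) *
      pairSum n h (fun i j => A (Fin.castAdd 2 i) (Fin.castAdd 2 j)) := by
  have hN : (n + 1) * 2 = N + 2 := by omega
  let e : Fin (n + 1) × Fin 2 ≃ Fin (N + 2) := finProdFinEquiv.trans (finCongr hN)
  have he0 : ∀ s : Fin (n + 1), e (s, 0) = ⟨2 * s.1, by omega⟩ := by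
    intro s
    apply Fin.ext
    show 0 + 2 * s.1 = 2 * s.1
    omega
  have he1 : ∀ s : Fin (n + 1), e (s, 1) = ⟨2 * s.1 + 1, by omega⟩ := by
    intro s
    apply Fin.ext
    show 1 + 2 * s.1 = 2 * s.1 + 1
    omega
  have hl : (Fin.natAdd N 1 : Fin (N + 2)) = e (Fin.last n, 1) := by
    rw [he1]
    apply Fin.ext
    show N + 1 = 2 * n + 1
    omega
  have hp : (Fin.natAdd N 0 : Fin (N + 2)) = e (Fin.last n, 0) := by
    rw [he0]
    apply Fin.ext
    show N + 0 = 2 * n
    omega
  have key := pex_position e A hA _ rfl (Fin.natAdd N 1) hl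
  have hT : pairSum (n + 1) h' A = ∑ σ : Equiv.Perm (Fin (N + 2)),
      ((Equiv.Perm.sign σ : ℤ) : ℝ) *
        ∏ s : Fin (n + 1), A (σ (e (s, 0))) (σ (e (s, 1))) := by
    unfold pairSum
    simp only [he0, he1]
  rw [hT, key, mul_assoc (2 * ((n : ℝ) + 1))]
  congr 1
  -- the two last indices are fixed
  let f : Fin N ≃ {i : Fin (N + 2) // i.1 < N} :=
    { toFun := fun i => ⟨Fin.castAdd 2 i, i.2⟩
      invFun := fun i => ⟨i.1.1, i.2⟩
      left_inv := fun i => rfl
      right_inv := fun i => rfl }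
  unfold pairSum
  rw [Finset.mul_sum, ← Finset.sum_filter]
  symm
  have hsub : ∀ (τ : Equiv.Perm (Fin N)) (i : Fin N),
      τ.extendDomain f (Fin.castAdd 2 i) = Fin.castAdd 2 (τ i) := by
    intro τ i
    exact Equiv.Perm.extendDomain_apply_image τ f i
  have hnot : ∀ (τ : Equiv.Perm (Fin N)) (i : Fin (N + 2)), ¬ i.1 < N →
      τ.extendDomain f i = i := by
    intro τ i hi
    exact Equiv.Perm.extendDomain_apply_not_subtype τ f hi
  have hcast : ∀ (s : Fin n), e (Fin.castSucc s, 0) =
      Fin.castAdd 2 (⟨2 * s.1, by omega⟩ : Fin N) ∧ e (Fin.castSucc s, 1) =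
      Fin.castAdd 2 (⟨2 * s.1 + 1, by omega⟩ : Fin N) := by
    intro s
    rw [he0, he1]
    exact ⟨rfl, rfl⟩
  have hval : ∀ τ : Equiv.Perm (Fin N),
      A (Fin.natAdd N 0) (Fin.natAdd N 1) * (((Equiv.Perm.sign τ : ℤ) : ℝ) *
        ∏ s : Fin n, A (Fin.castAdd 2 (τ ⟨2 * s.1, by omega⟩))
          (Fin.castAdd 2 (τ ⟨2 * s.1 + 1, by omega⟩))) =
      ((Equiv.Perm.sign (τ.extendDomain f) : ℤ) : ℝ) *
        ∏ s : Fin (n + 1), A (τ.extendDomain f (e (s, 0))) (τ.extendDomain f (e (s, 1))) := by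
    intro τ
    rw [Equiv.Perm.sign_extendDomain, Fin.prod_univ_castSucc, ← hl, ← hp,
      hnot τ _ (by show ¬ N + 0 < N; omega), hnot τ _ (by show ¬ N + 1 < N; omega)]
    have : ∀ s : Fin n, A (τ.extendDomain f (e (Fin.castSucc s, 0)))
        (τ.extendDomain f (e (Fin.castSucc s, 1))) =
        A (Fin.castAdd 2 (τ ⟨2 * s.1, by omega⟩))
          (Fin.castAdd 2 (τ ⟨2 * s.1 + 1, by omega⟩)) := by
      intro s
      rw [(hcast s).1, (hcast s).2, hsub, hsub]
    simp only [this]
    ring
  simp only [hval]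
  refine (Finset.sum_bij_ne_zero (fun τ _ _ => τ.extendDomain f) ?_ ?_ ?_ ?_)
  · intro τ _ _
    rw [Finset.mem_filter]
    exact ⟨Finset.mem_univ _, hnot τ _ (by show ¬ N + 1 < N; omega)⟩
  · intro τ _ _ τ' _ _ hττ
    apply Equiv.ext
    intro i
    have := congrArg (fun g : Equiv.Perm (Fin (N + 2)) => g (Fin.castAdd 2 i)) hττ
    simp only [hsub] at this
    exact Fin.castAdd_injective N 2 this
  · intro π hπ hne
    rw [Finset.mem_filter] at hπ
    have hπ1 : π (Fin.natAdd N 1) = Fin.natAdd N 1 := hπ.2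
    have hπ0 : π (Fin.natAdd N 0) = Fin.natAdd N 0 := by
      by_contra hcon
      apply hne
      have h1 : A (π (e (Fin.last n, 0))) (π (e (Fin.last n, 1))) = 0 := by
        rw [← hl, ← hp, hπ1, hA, h0 _ hcon, neg_zero]
      rw [Finset.prod_eq_zero (Finset.mem_univ (Fin.last n)) h1, mul_zero]
    have hcase : ∀ i : Fin (N + 2), ¬ i.1 < N → i = Fin.natAdd N 0 ∨ i = Fin.natAdd N 1 := by
      intro i hi
      have hi2 := i.2
      rcases Nat.lt_or_ge i.1 (N + 1) with h1 | h1
      · left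
        apply Fin.ext
        show i.1 = N + 0
        omega
      · right
        apply Fin.ext
        show i.1 = N + 1
        omega
    have hfix : ∀ i : Fin (N + 2), ¬ i.1 < N → π i = i := by
      intro i hi
      rcases hcase i hi with h1 | h1
      · rw [h1]; exact hπ0
      · rw [h1]; exact hπ1
    have hmem : ∀ i : Fin (N + 2), (i.1 < N ↔ (π i).1 < N) := by
      intro i
      constructor
      · intro hi
        by_contra hcon
        have h1 := hfix _ hcon
        have h2 := π.injective h1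
        rw [h2] at hcon
        exact hcon hi
      · intro hi
        by_contra hcon
        rw [hfix i hcon] at hi
        exact hcon hi
    refine ⟨f.symm.permCongr (π.subtypePerm fun i => (hmem i).symm), Finset.mem_univ _, ?_, ?_⟩
    all_goals
      have hext : (f.symm.permCongr (π.subtypePerm fun i => (hmem i).symm)).extendDomain f = π := by
        apply Equiv.ext
        intro i
        by_cases hi : i.1 < N
        · have h1 : i = Fin.castAdd 2 (⟨i.1, hi⟩ : Fin N) := rfl
          rw [h1, hsub]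
          rfl
        · rw [hnot _ i hi, hfix i hi]
    · rw [hext]
      exact hne
    · exact hext
  · intro τ _ _
    rfl

end Pool.Agent.HAF2
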