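import Pool.Agent.HAF2.Model

/-!
# Module PAR: integrals depending on a parameter

The derivative of `x ↦ ∫ G (x, s) ds` over a cube is `∫ D_x G (x, s) ds` (use
`hasFDerivAt_integral_of_dominated_of_fderiv_le` near a point of `U`, with a bound of the
continuous derivative on a compact neighbourhood times the cube), and it is continuous.
-/

namespace Pool.Agent.HAF2

open Filter Topology MeasureTheory
open scoped ContDiff

theorem contDiffOn_integral_cube {E F : Type} [NormedAddCommGroup E] [NormedSpace ℝ E]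
    [FiniteDimensional ℝ E] [NormedAddCommGroup F] [NormedSpace ℝ F] [CompleteSpace F] {n : ℕ}
    {U : Set E} (hU : IsOpen U) (G : E × (Fin n → ℝ) → F)
    (hG : ContDiffOn ℝ 1 G (U ×ˢ Set.univ)) :
    ContDiffOn ℝ 1 (fun x => ∫ s in Set.Icc (0 : Fin n → ℝ) 1, G (x, s)) U ∧
    ∀ x ∈ U, ∀ u : E, fderiv ℝ (fun x => ∫ s in Set.Icc (0 : Fin n → ℝ) 1, G (x, s)) x u =
      ∫ s in Set.Icc (0 : Fin n → ℝ) 1, fderiv ℝ G (x, s) (u, 0) := by
  set K : Set (Fin n → ℝ) := Set.Icc (0 : Fin n → ℝ) 1 with hKdef
  have hK : IsCompact K := isCompact_Icc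
  have hVo : IsOpen (U ×ˢ (Set.univ : Set (Fin n → ℝ))) := hU.prod isOpen_univ
  -- the partial derivative
  obtain ⟨G', hG'⟩ : ∃ G' : E → (Fin n → ℝ) → (E →L[ℝ] F), ∀ x s, G' x s =
      (fderiv ℝ G (x, s)).comp (ContinuousLinearMap.inl ℝ E (Fin n → ℝ)) := ⟨_, fun _ _ => rfl⟩
  have h1 : ContDiffOn ℝ (0 + 1) G (U ×ˢ Set.univ) := by
    rw [zero_add]
    exact hG
  have hfd : ContinuousOn (fderiv ℝ G) (U ×ˢ Set.univ) := by
    have := ((contDiffOn_succ_iff_fderiv_of_isOpen hVo).1 h1).2.2
    exact this.continuousOn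
  have hG'c : ContinuousOn (fun p : E × (Fin n → ℝ) => G' p.1 p.2) (U ×ˢ Set.univ) := by
    simp only [hG']
    exact hfd.clm_comp continuousOn_const
  have hsl : ∀ x ∈ U, Continuous (fun s : Fin n → ℝ => ((x, s) : E × (Fin n → ℝ))) := fun x _ =>
    by fun_prop
  have hGc : ∀ x ∈ U, Continuous (fun s => G (x, s)) := fun x hx =>
    hG.continuousOn.comp_continuous (hsl x hx) (fun s => ⟨hx, Set.mem_univ _⟩)
  have hG'x : ∀ x ∈ U, Continuous (fun s => G' x s) := fun x hx =>
    hG'c.comp_continuous (hsl x hx) (fun s => ⟨hx, Set.mem_univ _⟩)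
  have hd : ∀ x ∈ U, ∀ s, HasFDerivAt (fun y => G (y, s)) (G' x s) x := by
    intro x hx s
    have h2 : HasFDerivAt G (fderiv ℝ G (x, s)) (x, s) :=
      ((hG.contDiffAt (hVo.mem_nhds ⟨hx, Set.mem_univ _⟩)).differentiableAt
        (by simp)).hasFDerivAt
    have h3 : HasFDerivAt (fun y : E => ((y, s) : E × (Fin n → ℝ)))
        (ContinuousLinearMap.inl ℝ E (Fin n → ℝ)) x := hasFDerivAt_prodMk_left x s
    rw [hG']
    exact HasFDerivAt.comp x h2 h3
  have hder : ∀ x ∈ U, HasFDerivAt (fun x => ∫ s in K, G (x, s)) (∫ s in K, G' x s) x := by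
    intro x hx
    obtain ⟨r, hr, hrU⟩ := Metric.isOpen_iff.1 hU x hx
    have hcb : Metric.closedBall x (r / 2) ⊆ U :=
      (Metric.closedBall_subset_ball (by linarith)).trans hrU
    have hcc : IsCompact (Metric.closedBall x (r / 2)) := isCompact_closedBall _ _
    obtain ⟨C, hC⟩ := (hcc.prod hK).exists_bound_of_continuousOn
      (hG'c.mono (Set.prod_mono hcb (Set.subset_univ _)))
    refine hasFDerivAt_integral_of_dominated_of_fderiv_le (bound := fun _ => C)
      (s := Metric.closedBall x (r / 2)) (Metric.closedBall_mem_nhds x (by linarith)) ?_ ?_ ?_ ?_ ?_ ?_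
    · filter_upwards [hU.mem_nhds hx] with y hy
      exact (hGc y hy).aestronglyMeasurable
    · exact (hGc x hx).continuousOn.integrableOn_compact hK
    · exact (hG'x x hx).aestronglyMeasurable
    · rw [ae_restrict_iff' hK.measurableSet]
      exact Eventually.of_forall fun s hs y hy => hC (y, s) ⟨hy, hs⟩
    · exact (continuous_const.continuousOn (s := K)).integrableOn_compact hK
    · exact Eventually.of_forall fun s y hy => hd y (hcb hy) s
  have hcont : ContinuousOn (fun x => ∫ s in K, G' x s) U := by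
    rw [continuousOn_iff_continuous_domRestrict]
    have : LocallyCompactSpace U := hU.locallyCompactSpace
    have h4 : Continuous (Function.uncurry fun (x : U) (s : Fin n → ℝ) => G' x.1 s) := by
      have h5 : Continuous (fun p : U × (Fin n → ℝ) => ((p.1.1, p.2) : E × (Fin n → ℝ))) := by
        fun_prop
      exact hG'c.comp_continuous h5 (fun p => ⟨p.1.2, Set.mem_univ _⟩)
    exact continuous_parametric_integral_of_continuous h4 hK
  constructor
  · have h6 : ContDiffOn ℝ (0 + 1) (fun x => ∫ s in K, G (x, s)) U := by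
      rw [contDiffOn_succ_iff_fderiv_of_isOpen hU]
      refine ⟨fun x hx => (hder x hx).differentiableAt.differentiableWithinAt, by simp, ?_⟩
      rw [contDiffOn_zero]
      exact hcont.congr fun x hx => (hder x hx).fderiv
    rw [zero_add] at h6
    exact h6
  · intro x hx u
    rw [(hder x hx).fderiv, ContinuousLinearMap.integral_apply
      ((hG'x x hx).continuousOn.integrableOn_compact hK)]
    refine integral_congr_ae (Eventually.of_forall fun s => ?_)
    simp only [hG', ContinuousLinearMap.comp_apply, ContinuousLinearMap.inl_apply]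

end Pool.Agent.HAF2
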