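import Pool.Agent.HAF2.CycProd
import Pool.Agent.HAF2.PairBlk

/-!
# Module PPW: the integral over a product of cycles

`pairSum_block` and Fubini.
-/

namespace Pool.Agent.HAF2

open Filter Topology MeasureTheory
open scoped ContDiff
open Pool.Agent.HaefligerClasses (QuotientManifold IsForm HaefligerStructure curvature
  torusElement)

section

variable {E₁ : Type} [NormedAddCommGroup E₁] [NormedSpace ℝ E₁] [FiniteDimensional ℝ E₁]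
  {Λ₁ : Type} [AddGroup Λ₁]
variable {E₂ : Type} [NormedAddCommGroup E₂] [NormedSpace ℝ E₂] [FiniteDimensional ℝ E₂]
  {Λ₂ : Type} [AddGroup Λ₂]

private theorem ppw_continuousOn_pairSum {X : Type*} [TopologicalSpace X] {S : Set X} {N n : ℕ}
    (h : N = 2 * n) (A : X → Fin N → Fin N → ℝ)
    (hA : ∀ i j, ContinuousOn (fun ξ => A ξ i j) S) :
    ContinuousOn (fun ξ => pairSum n h (A ξ)) S := by
  unfold pairSum
  refine continuousOn_finsetSum _ (fun σ _ => ?_)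
  refine continuousOn_const.mul ?_
  exact continuousOn_finsetProd _ (fun s _ => hA _ _)

theorem prodCyc_power {M₁ : QuotientManifold E₁ Λ₁} {M₂ : QuotientManifold E₂ Λ₂}
    {N₁ N₂ n₁ n₂ : ℕ} (h₁ : N₁ = 2 * n₁) (h₂ : N₂ = 2 * n₂) (h : N₁ + N₂ = 2 * (n₁ + n₂))
    (C₁ : Cycle M₁ N₁) (C₂ : Cycle M₂ N₂) (W₁ : E₁ → E₁ → E₁ → ℝ) (W₂ : E₂ → E₂ → E₂ → ℝ)
    (hz₁ : ∀ x w, W₁ x 0 w = 0 ∧ W₁ x w 0 = 0) (hz₂ : ∀ x w, W₂ x 0 w = 0 ∧ W₂ x w 0 = 0)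
    (hc₁ : ∀ k i j, ContinuousOn (fun ξ => W₁ (C₁.c k ξ) (fderiv ℝ (C₁.c k) ξ (Pi.single i 1))
      (fderiv ℝ (C₁.c k) ξ (Pi.single j 1))) (Set.Icc (0 : Fin N₁ → ℝ) 1))
    (hc₂ : ∀ k i j, ContinuousOn (fun ξ => W₂ (C₂.c k ξ) (fderiv ℝ (C₂.c k) ξ (Pi.single i 1))
      (fderiv ℝ (C₂.c k) ξ (Pi.single j 1))) (Set.Icc (0 : Fin N₂ → ℝ) 1)) :
    (prodCyc C₁ C₂).power (n₁ + n₂) h
        (fun p u w => W₁ p.1 u.1 w.1 + W₂ p.2 u.2 w.2) =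
      (Nat.choose (n₁ + n₂) n₁ : ℝ) * C₁.power n₁ h₁ W₁ * C₂.power n₂ h₂ W₂ := by
  classical
  -- the two integrands
  set P₁ : C₁.κ → (Fin N₁ → ℝ) → ℝ := fun k ξ =>
    pairSum n₁ h₁ (fun i j => W₁ (C₁.c k ξ) (fderiv ℝ (C₁.c k) ξ (Pi.single i 1))
      (fderiv ℝ (C₁.c k) ξ (Pi.single j 1))) with hP₁
  set P₂ : C₂.κ → (Fin N₂ → ℝ) → ℝ := fun k ξ =>
    pairSum n₂ h₂ (fun i j => W₂ (C₂.c k ξ) (fderiv ℝ (C₂.c k) ξ (Pi.single i 1))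
      (fderiv ℝ (C₂.c k) ξ (Pi.single j 1))) with hP₂
  have cP₁ : ∀ k, ContinuousOn (P₁ k) (Set.Icc (0 : Fin N₁ → ℝ) 1) := fun k =>
    ppw_continuousOn_pairSum h₁ _ (fun i j => hc₁ k i j)
  have cP₂ : ∀ k, ContinuousOn (P₂ k) (Set.Icc (0 : Fin N₂ → ℝ) 1) := fun k =>
    ppw_continuousOn_pairSum h₂ _ (fun i j => hc₂ k i j)
  -- the integrand over the product
  have key : ∀ (k : C₁.κ × C₂.κ) (ξ : Fin (N₁ + N₂) → ℝ),
      pairSum (n₁ + n₂) h (fun i j =>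
        (W₁ (prodCube (C₁.c k.1) (C₂.c k.2) ξ).1
          (fderiv ℝ (prodCube (C₁.c k.1) (C₂.c k.2)) ξ (Pi.single i 1)).1
          (fderiv ℝ (prodCube (C₁.c k.1) (C₂.c k.2)) ξ (Pi.single j 1)).1 +
        W₂ (prodCube (C₁.c k.1) (C₂.c k.2) ξ).2
          (fderiv ℝ (prodCube (C₁.c k.1) (C₂.c k.2)) ξ (Pi.single i 1)).2
          (fderiv ℝ (prodCube (C₁.c k.1) (C₂.c k.2)) ξ (Pi.single j 1)).2)) =
      (Nat.choose (n₁ + n₂) n₁ : ℝ) * P₁ k.1 (fun i => ξ (Fin.castAdd N₂ i)) *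
        P₂ k.2 (fun i => ξ (Fin.natAdd N₁ i)) := by
    intro k ξ
    rw [pairSum_block h₁ h₂ h]
    · congr 1
      · congr 1
        rw [hP₁]
        simp only [fderiv_prodCube_castAdd _ _ (C₁.smooth_c k.1) (C₂.smooth_c k.2),
          (hz₂ _ _).1, add_zero]
        rfl
      · rw [hP₂]
        simp only [fderiv_prodCube_natAdd _ _ (C₁.smooth_c k.1) (C₂.smooth_c k.2),
          (hz₁ _ _).1, zero_add]
        rfl
    · intro i j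
      rw [fderiv_prodCube_castAdd _ _ (C₁.smooth_c k.1) (C₂.smooth_c k.2),
        fderiv_prodCube_natAdd _ _ (C₁.smooth_c k.1) (C₂.smooth_c k.2)]
      simp only [(hz₁ _ _).2, (hz₂ _ _).1, add_zero]
    · intro i j
      rw [fderiv_prodCube_castAdd _ _ (C₁.smooth_c k.1) (C₂.smooth_c k.2),
        fderiv_prodCube_natAdd _ _ (C₁.smooth_c k.1) (C₂.smooth_c k.2)]
      simp only [(hz₁ _ _).1, (hz₂ _ _).2, add_zero]
  have hint : ∀ k : C₁.κ × C₂.κ,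
      ∫ ξ in Set.Icc (0 : Fin (N₁ + N₂) → ℝ) 1,
        ((Nat.choose (n₁ + n₂) n₁ : ℝ) * P₁ k.1 (fun i => ξ (Fin.castAdd N₂ i)) *
        P₂ k.2 (fun i => ξ (Fin.natAdd N₁ i))) =
      (Nat.choose (n₁ + n₂) n₁ : ℝ) * (∫ ξ in Set.Icc (0 : Fin N₁ → ℝ) 1, P₁ k.1 ξ) *
        (∫ ξ in Set.Icc (0 : Fin N₂ → ℝ) 1, P₂ k.2 ξ) := by
    intro k
    rw [integral_cube_add]
    · simp only [Fin.append_left, Fin.append_right]
      have e1 : ∀ x : Fin N₁ → ℝ, ∫ y in Set.Icc (0 : Fin N₂ → ℝ) 1,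
          ((Nat.choose (n₁ + n₂) n₁ : ℝ) * P₁ k.1 (fun i => x i)) * P₂ k.2 (fun i => y i) =
          ((Nat.choose (n₁ + n₂) n₁ : ℝ) * P₁ k.1 x) *
            ∫ y in Set.Icc (0 : Fin N₂ → ℝ) 1, P₂ k.2 y := fun x =>
        integral_const_mul _ _
      simp only [e1]
      rw [integral_mul_const, integral_const_mul]
    · have hcont : ContinuousOn (fun ξ : Fin (N₁ + N₂) → ℝ =>
          (Nat.choose (n₁ + n₂) n₁ : ℝ) * P₁ k.1 (fun i => ξ (Fin.castAdd N₂ i)) *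
            P₂ k.2 (fun i => ξ (Fin.natAdd N₁ i))) (Set.Icc (0 : Fin (N₁ + N₂) → ℝ) 1) := by
        refine (continuousOn_const.mul ?_).mul ?_
        · refine (cP₁ k.1).comp (Continuous.continuousOn (by fun_prop)) ?_
          intro ξ hξ
          exact ⟨fun i => hξ.1 _, fun i => hξ.2 _⟩
        · refine (cP₂ k.2).comp (Continuous.continuousOn (by fun_prop)) ?_
          intro ξ hξ
          exact ⟨fun i => hξ.1 _, fun i => hξ.2 _⟩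
      exact hcont.integrableOn_compact isCompact_Icc
  have hL : (prodCyc C₁ C₂).power (n₁ + n₂) h
        (fun p u w => W₁ p.1 u.1 w.1 + W₂ p.2 u.2 w.2) =
      ∑ k : C₁.κ × C₂.κ, (Nat.choose (n₁ + n₂) n₁ : ℝ) *
        (∫ ξ in Set.Icc (0 : Fin N₁ → ℝ) 1, P₁ k.1 ξ) *
        (∫ ξ in Set.Icc (0 : Fin N₂ → ℝ) 1, P₂ k.2 ξ) := by
    refine Finset.sum_congr rfl (fun k _ => ?_)
    rw [← hint k]
    refine integral_congr_ae (Filter.Eventually.of_forall (fun ξ => ?_))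
    exact key k ξ
  rw [hL]
  have hR₁ : C₁.power n₁ h₁ W₁ = ∑ k, ∫ ξ in Set.Icc (0 : Fin N₁ → ℝ) 1, P₁ k ξ := rfl
  have hR₂ : C₂.power n₂ h₂ W₂ = ∑ k, ∫ ξ in Set.Icc (0 : Fin N₂ → ℝ) 1, P₂ k ξ := rfl
  rw [hR₁, hR₂, Fintype.sum_prod_type, mul_assoc, Finset.sum_mul, Finset.mul_sum]
  refine Finset.sum_congr rfl (fun k₁ _ => ?_)
  rw [Finset.mul_sum, Finset.mul_sum]
  refine Finset.sum_congr rfl (fun k₂ _ => ?_)
  rw [mul_assoc]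

end

end Pool.Agent.HAF2
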