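import Pool.Agent.HAF2.Model

/-!
# Module PRD: products of manifolds, Haefliger structures and line bundles
-/

namespace Pool.Agent.HAF2

open Filter Topology MeasureTheory
open scoped ContDiff
open Pool.Agent.HaefligerClasses (QuotientManifold IsForm HaefligerStructure curvature
  torusElement)

section

variable {E₁ : Type} [NormedAddCommGroup E₁] [NormedSpace ℝ E₁] {Λ₁ : Type} [AddGroup Λ₁]
variable {E₂ : Type} [NormedAddCommGroup E₂] [NormedSpace ℝ E₂] {Λ₂ : Type} [AddGroup Λ₂]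

/-- the product manifold -/
def prodM (M₁ : QuotientManifold E₁ Λ₁) (M₂ : QuotientManifold E₂ Λ₂) :
    QuotientManifold (E₁ × E₂) (Λ₁ × Λ₂) where
  U := M₁.U ×ˢ M₂.U
  isOpen_U := M₁.isOpen_U.prod M₂.isOpen_U
  act := fun l x => (M₁.act l.1 x.1, M₂.act l.2 x.2)
  smooth_act := fun l =>
    ((M₁.smooth_act l.1).comp contDiff_fst.contDiffOn (fun _ hx => hx.1)).prodMk
      ((M₂.smooth_act l.2).comp contDiff_snd.contDiffOn (fun _ hx => hx.2))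
  mapsTo := fun l x hx => ⟨M₁.mapsTo l.1 x.1 hx.1, M₂.mapsTo l.2 x.2 hx.2⟩
  act_zero := fun x hx => Prod.ext (M₁.act_zero x.1 hx.1) (M₂.act_zero x.2 hx.2)
  act_add := fun a b x hx => Prod.ext (M₁.act_add a.1 b.1 x.1 hx.1) (M₂.act_add a.2 b.2 x.2 hx.2)
  free := fun a x hx h => Prod.ext (M₁.free a.1 x.1 hx.1 (congrArg Prod.fst h))
    (M₂.free a.2 x.2 hx.2 (congrArg Prod.snd h))
  proper := by
    intro x hx y hy
    obtain ⟨V₁, hV₁, W₁, hW₁, h₁⟩ := M₁.proper x.1 hx.1 y.1 hy.1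
    obtain ⟨V₂, hV₂, W₂, hW₂, h₂⟩ := M₂.proper x.2 hx.2 y.2 hy.2
    refine ⟨V₁ ×ˢ V₂, prod_mem_nhds hV₁ hV₂, W₁ ×ˢ W₂, prod_mem_nhds hW₁ hW₂, ?_⟩
    refine (h₁.prod h₂).subset ?_
    rintro a ⟨z, ⟨hzV, hzU⟩, hzW⟩
    exact ⟨⟨z.1, ⟨hzV.1, hzU.1⟩, hzW.1⟩, ⟨z.2, ⟨hzV.2, hzU.2⟩, hzW.2⟩⟩

theorem prd_diff_act {E : Type} [NormedAddCommGroup E] [NormedSpace ℝ E] {Λ : Type} [AddGroup Λ]
    (M : QuotientManifold E Λ) (l : Λ) {x : E} (hx : x ∈ M.U) : DifferentiableAt ℝ (M.act l) x :=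
  ((M.smooth_act l).contDiffAt (M.isOpen_U.mem_nhds hx)).differentiableAt (by simp)

theorem fderiv_prodM_act (M₁ : QuotientManifold E₁ Λ₁) (M₂ : QuotientManifold E₂ Λ₂)
    (l : Λ₁ × Λ₂) (x : E₁ × E₂) (hx : x ∈ (prodM M₁ M₂).U) :
    fderiv ℝ ((prodM M₁ M₂).act l) x =
      (fderiv ℝ (M₁.act l.1) x.1).prodMap (fderiv ℝ (M₂.act l.2) x.2) :=
  (HasFDerivAt.prodMap x (prd_diff_act M₁ l.1 hx.1).hasFDerivAt
    (prd_diff_act M₂ l.2 hx.2).hasFDerivAt).fderiv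

variable {V₁ : Type} [NormedAddCommGroup V₁] [NormedSpace ℝ V₁] [FiniteDimensional ℝ V₁]
variable {V₂ : Type} [NormedAddCommGroup V₂] [NormedSpace ℝ V₂] [FiniteDimensional ℝ V₂]

omit [FiniteDimensional ℝ V₁] [FiniteDimensional ℝ V₂] in
theorem prd_fderiv_prod {f₁ : V₁ → V₁} {f₂ : V₂ → V₂} {x₁ : V₁} {x₂ : V₂}
    (h₁ : ContDiffAt ℝ ∞ f₁ x₁) (h₂ : ContDiffAt ℝ ∞ f₂ x₂) :
    fderiv ℝ (fun v : V₁ × V₂ => (f₁ v.1, f₂ v.2)) (x₁, x₂) =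
      (fderiv ℝ f₁ x₁).prodMap (fderiv ℝ f₂ x₂) :=
  (HasFDerivAt.prodMap (x₁, x₂) (h₁.differentiableAt (by simp)).hasFDerivAt
    (h₂.differentiableAt (by simp)).hasFDerivAt).fderiv

theorem prd_det (A : V₁ →L[ℝ] V₁) (B : V₂ →L[ℝ] V₂) : (A.prodMap B).det = A.det * B.det :=
  LinearMap.det_prodMap (A : V₁ →ₗ[ℝ] V₁) (B : V₂ →ₗ[ℝ] V₂)

/-- the product of two Haefliger structures -/
def prodH {M₁ : QuotientManifold E₁ Λ₁} {M₂ : QuotientManifold E₂ Λ₂}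
    (H₁ : HaefligerStructure M₁ V₁) (H₂ : HaefligerStructure M₂ V₂) :
    HaefligerStructure (prodM M₁ M₂) (V₁ × V₂) where
  ι := H₁.ι × H₂.ι
  dom := fun i => H₁.dom i.1 ×ˢ H₂.dom i.2
  isOpen_dom := fun i => (H₁.isOpen_dom i.1).prod (H₂.isOpen_dom i.2)
  dom_subset := fun i => Set.prod_mono (H₁.dom_subset i.1) (H₂.dom_subset i.2)
  cover := by
    intro x hx
    obtain ⟨i₁, hi₁⟩ := H₁.cover x.1 hx.1
    obtain ⟨i₂, hi₂⟩ := H₂.cover x.2 hx.2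
    exact ⟨(i₁, i₂), hi₁, hi₂⟩
  f := fun i x => (H₁.f i.1 x.1, H₂.f i.2 x.2)
  smooth_f := fun i =>
    ((H₁.smooth_f i.1).comp contDiff_fst.contDiffOn (fun _ hx => hx.1)).prodMk
      ((H₂.smooth_f i.2).comp contDiff_snd.contDiffOn (fun _ hx => hx.2))
  γ := fun i a j x v => (H₁.γ i.1 a.1 j.1 x.1 v.1, H₂.γ i.2 a.2 j.2 x.2 v.2)
  smooth_γ := fun i a j x hj hi =>
    ContDiffAt.prodMap (H₁.smooth_γ i.1 a.1 j.1 x.1 hj.1 hi.1)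
      (H₂.smooth_γ i.2 a.2 j.2 x.2 hj.2 hi.2)
  orient_γ := by
    intro i a j x hj hi
    rw [prd_fderiv_prod (H₁.smooth_γ i.1 a.1 j.1 x.1 hj.1 hi.1)
      (H₂.smooth_γ i.2 a.2 j.2 x.2 hj.2 hi.2), prd_det]
    exact mul_pos (H₁.orient_γ i.1 a.1 j.1 x.1 hj.1 hi.1)
      (H₂.orient_γ i.2 a.2 j.2 x.2 hj.2 hi.2)
  map_γ := by
    intro i a j x hj hi
    filter_upwards [(continuous_fst.tendsto x).eventually
      (H₁.map_γ i.1 a.1 j.1 x.1 hj.1 hi.1), (continuous_snd.tendsto x).eventually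
      (H₂.map_γ i.2 a.2 j.2 x.2 hj.2 hi.2)] with y h₁ h₂
    exact Prod.ext h₁ h₂
  locConst_γ := by
    intro i a j x hj hi
    filter_upwards [(continuous_fst.tendsto x).eventually
      (H₁.locConst_γ i.1 a.1 j.1 x.1 hj.1 hi.1), (continuous_snd.tendsto x).eventually
      (H₂.locConst_γ i.2 a.2 j.2 x.2 hj.2 hi.2)] with y h₁ h₂
    filter_upwards [(continuous_fst.tendsto (H₁.f j.1 y.1, H₂.f j.2 y.2)).eventually h₁,
      (continuous_snd.tendsto (H₁.f j.1 y.1, H₂.f j.2 y.2)).eventually h₂] with v g₁ g₂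
    exact Prod.ext g₁ g₂
  comp_γ := by
    intro i a j b k x hk hj hi
    filter_upwards [(continuous_fst.tendsto (H₁.f k.1 x.1, H₂.f k.2 x.2)).eventually
      (H₁.comp_γ i.1 a.1 j.1 b.1 k.1 x.1 hk.1 hj.1 hi.1),
      (continuous_snd.tendsto (H₁.f k.1 x.1, H₂.f k.2 x.2)).eventually
      (H₂.comp_γ i.2 a.2 j.2 b.2 k.2 x.2 hk.2 hj.2 hi.2)] with v g₁ g₂
    exact Prod.ext g₁ g₂

theorem normal_prodH {M₁ : QuotientManifold E₁ Λ₁} {M₂ : QuotientManifold E₂ Λ₂}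
    (H₁ : HaefligerStructure M₁ V₁) (H₂ : HaefligerStructure M₂ V₂)
    (i : (prodH H₁ H₂).ι) (a : Λ₁ × Λ₂) (j : (prodH H₁ H₂).ι) (x : E₁ × E₂)
    (hj : x ∈ (prodH H₁ H₂).dom j) (hi : (prodM M₁ M₂).act a x ∈ (prodH H₁ H₂).dom i) :
    (prodH H₁ H₂).normal i a j x =
      (H₁.normal i.1 a.1 j.1 x.1).prodMap (H₂.normal i.2 a.2 j.2 x.2) :=
  prd_fderiv_prod (H₁.smooth_γ i.1 a.1 j.1 x.1 hj.1 hi.1)
    (H₂.smooth_γ i.2 a.2 j.2 x.2 hj.2 hi.2)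

/-- the product of two unitary line bundles -/
noncomputable def prodL {M₁ : QuotientManifold E₁ Λ₁} {M₂ : QuotientManifold E₂ Λ₂}
    (L₁ : ULine M₁) (L₂ : ULine M₂) : ULine (prodM M₁ M₂) where
  J := fun l x => L₁.J l.1 x.1 * L₂.J l.2 x.2
  smooth_J := fun l =>
    ((L₁.smooth_J l.1).comp contDiff_fst.contDiffOn (fun _ hx => hx.1)).mul
      ((L₂.smooth_J l.2).comp contDiff_snd.contDiffOn (fun _ hx => hx.2))
  norm_J := by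
    intro l x hx
    rw [norm_mul, L₁.norm_J l.1 x.1 hx.1, L₂.norm_J l.2 x.2 hx.2, one_mul]
  J_add := by
    intro l l' x hx
    have h₁ := L₁.J_add l.1 l'.1 x.1 hx.1
    have h₂ := L₂.J_add l.2 l'.2 x.2 hx.2
    change L₁.J (l.1 + l'.1) x.1 * L₂.J (l.2 + l'.2) x.2 =
      (L₁.J l.1 (M₁.act l'.1 x.1) * L₂.J l.2 (M₂.act l'.2 x.2)) *
        (L₁.J l'.1 x.1 * L₂.J l'.2 x.2)
    rw [h₁, h₂]
    ring
  a := fun x => L₁.a x.1 ∘L ContinuousLinearMap.fst ℝ E₁ E₂ +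
    L₂.a x.2 ∘L ContinuousLinearMap.snd ℝ E₁ E₂
  smooth_a := by
    have h₁ : ContDiffOn ℝ ∞ (fun x : E₁ × E₂ => L₁.a x.1) (M₁.U ×ˢ M₂.U) :=
      L₁.smooth_a.comp contDiff_fst.contDiffOn (fun _ hx => hx.1)
    have h₂ : ContDiffOn ℝ ∞ (fun x : E₁ × E₂ => L₂.a x.2) (M₁.U ×ˢ M₂.U) :=
      L₂.smooth_a.comp contDiff_snd.contDiffOn (fun _ hx => hx.2)
    exact (h₁.clm_comp contDiffOn_const).add (h₂.clm_comp contDiffOn_const)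
  a_compat := by
    intro l x hx u
    have hJ₁ : DifferentiableAt ℝ (L₁.J l.1) x.1 :=
      ((L₁.smooth_J l.1).contDiffAt (M₁.isOpen_U.mem_nhds hx.1)).differentiableAt (by simp)
    have hJ₂ : DifferentiableAt ℝ (L₂.J l.2) x.2 :=
      ((L₂.smooth_J l.2).contDiffAt (M₂.isOpen_U.mem_nhds hx.2)).differentiableAt (by simp)
    have h₁ : HasFDerivAt (fun y : E₁ × E₂ => L₁.J l.1 y.1)
        ((fderiv ℝ (L₁.J l.1) x.1) ∘L ContinuousLinearMap.fst ℝ E₁ E₂) x :=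
      HasFDerivAt.comp x hJ₁.hasFDerivAt hasFDerivAt_fst
    have h₂ : HasFDerivAt (fun y : E₁ × E₂ => L₂.J l.2 y.2)
        ((fderiv ℝ (L₂.J l.2) x.2) ∘L ContinuousLinearMap.snd ℝ E₁ E₂) x :=
      HasFDerivAt.comp x hJ₂.hasFDerivAt hasFDerivAt_snd
    have h₃ : fderiv ℝ (fun y : E₁ × E₂ => L₁.J l.1 y.1 * L₂.J l.2 y.2) x = _ :=
      (h₁.mul h₂).fderiv
    have h₄ := L₁.a_compat l.1 x.1 hx.1 u.1
    have h₅ := L₂.a_compat l.2 x.2 hx.2 u.2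
    rw [fderiv_prodM_act M₁ M₂ l x hx, h₃]
    change L₁.J l.1 x.1 * fderiv ℝ (L₂.J l.2) x.2 u.2 + L₂.J l.2 x.2 *
      fderiv ℝ (L₁.J l.1) x.1 u.1 = Complex.I * (L₁.J l.1 x.1 * L₂.J l.2 x.2) *
      (((L₁.a x.1 u.1 + L₂.a x.2 u.2) - (L₁.a (M₁.act l.1 x.1) (fderiv ℝ (M₁.act l.1) x.1 u.1) +
        L₂.a (M₂.act l.2 x.2) (fderiv ℝ (M₂.act l.2) x.2 u.2)) : ℝ) : ℂ)
    rw [h₄, h₅]
    push_cast
    ring

theorem dform_prodL {M₁ : QuotientManifold E₁ Λ₁} {M₂ : QuotientManifold E₂ Λ₂}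
    (L₁ : ULine M₁) (L₂ : ULine M₂) (x : E₁ × E₂) (hx : x ∈ (prodM M₁ M₂).U) (u w : E₁ × E₂) :
    dform (prodL L₁ L₂).a x u w = dform L₁.a x.1 u.1 w.1 + dform L₂.a x.2 u.2 w.2 := by
  have hd₁ : DifferentiableAt ℝ L₁.a x.1 :=
    (L₁.smooth_a.contDiffAt (M₁.isOpen_U.mem_nhds hx.1)).differentiableAt (by simp)
  have hd₂ : DifferentiableAt ℝ L₂.a x.2 :=
    (L₂.smooth_a.contDiffAt (M₂.isOpen_U.mem_nhds hx.2)).differentiableAt (by simp)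
  have h₁ : HasFDerivAt (fun y : E₁ × E₂ => L₁.a y.1)
      ((fderiv ℝ L₁.a x.1) ∘L ContinuousLinearMap.fst ℝ E₁ E₂) x :=
    HasFDerivAt.comp x hd₁.hasFDerivAt hasFDerivAt_fst
  have h₂ : HasFDerivAt (fun y : E₁ × E₂ => L₂.a y.2)
      ((fderiv ℝ L₂.a x.2) ∘L ContinuousLinearMap.snd ℝ E₁ E₂) x :=
    HasFDerivAt.comp x hd₂.hasFDerivAt hasFDerivAt_snd
  have h₃ := (h₁.clm_comp (hasFDerivAt_const (ContinuousLinearMap.fst ℝ E₁ E₂) x)).add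
    (h₂.clm_comp (hasFDerivAt_const (ContinuousLinearMap.snd ℝ E₁ E₂) x))
  have h₄ : ∀ u w : E₁ × E₂, fderiv ℝ (prodL L₁ L₂).a x u w =
      fderiv ℝ L₁.a x.1 u.1 w.1 + fderiv ℝ L₂.a x.2 u.2 w.2 := by
    intro u w
    have h₅ : fderiv ℝ (prodL L₁ L₂).a x = _ := h₃.fderiv
    rw [h₅]
    simp
  rw [dform, h₄, h₄, dform, dform]
  ring

end

end Pool.Agent.HAF2
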