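import Pool.Agent.HAF2.Model
import Pool.Agent.HaefligerClasses.CubeStokes

/-!
# Module TOR: the torus block

`E = ℝ × ℝ` with coordinates `(p, t)`, `Λ = ℤ × ℤ` acting by translations, `U = univ`, one chart
`f (p, t) = p` to `V = ℝ` (`γ` = translation by `l.1`, frame = the identification of
`TV Empty Unit` with `ℝ`, `φ = 1`, splitting `v ↦ (v, 0)`). The line bundle:
`J l (p, t) = exp (2 π I l.2 p)`, `a = -2 π t dp`, and `Θ p = exp (2 π I l.2 p)`.
The cycle is the unit square `ξ ↦ (ξ 0, ξ 1)` (Stokes and periodicity), and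
`∫ y K_ℓ = 4 π y`.
-/

namespace Pool.Agent.HAF2

open Filter Topology MeasureTheory
open scoped ContDiff
open Pool.Agent.HaefligerClasses (QuotientManifold IsForm HaefligerStructure curvature
  torusElement)

/-- the translations -/
private noncomputable def torAct (l : ℤ × ℤ) (x : ℝ × ℝ) : ℝ × ℝ := x + ((l.1 : ℝ), (l.2 : ℝ))

private theorem torAct_contDiff (l : ℤ × ℤ) : ContDiff ℝ ∞ (torAct l) :=
  contDiff_id.add contDiff_const

private theorem torAct_fderiv (l : ℤ × ℤ) (x : ℝ × ℝ) :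
    fderiv ℝ (torAct l) x = ContinuousLinearMap.id ℝ (ℝ × ℝ) :=
  ((hasFDerivAt_id x).add_const _).fderiv

private theorem torFinite (x y : ℝ × ℝ) :
    {a : ℤ × ℤ | ∃ z ∈ Metric.ball x 1 ∩ Set.univ, torAct a z ∈ Metric.ball y 1}.Finite := by
  refine ((Set.finite_Icc ⌈y.1 - x.1 - 2⌉ ⌊y.1 - x.1 + 2⌋).prod
    (Set.finite_Icc ⌈y.2 - x.2 - 2⌉ ⌊y.2 - x.2 + 2⌋)).subset ?_
  rintro a ⟨z, ⟨hz, -⟩, ha⟩
  rw [Metric.mem_ball, Prod.dist_eq, max_lt_iff, Real.dist_eq, Real.dist_eq, abs_lt, abs_lt]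
    at hz ha
  simp only [torAct, Prod.fst_add, Prod.snd_add] at ha
  obtain ⟨⟨h1, h2⟩, h3, h4⟩ := hz
  obtain ⟨⟨h5, h6⟩, h7, h8⟩ := ha
  refine Set.mem_prod.2 ⟨Set.mem_Icc.2 ⟨Int.ceil_le.2 ?_, Int.le_floor.2 ?_⟩,
    Set.mem_Icc.2 ⟨Int.ceil_le.2 ?_, Int.le_floor.2 ?_⟩⟩ <;> linarith

/-- the torus -/
private noncomputable def torM : QuotientManifold (ℝ × ℝ) (ℤ × ℤ) where
  U := Set.univ
  isOpen_U := isOpen_univ
  act := torAct
  smooth_act := fun l => (torAct_contDiff l).contDiffOn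
  mapsTo := fun _ _ _ => Set.mem_univ _
  act_zero := fun x _ => by
    refine Prod.ext ?_ ?_ <;> simp [torAct]
  act_add := fun a b x _ => by
    refine Prod.ext ?_ ?_ <;> simp only [torAct, Prod.fst_add, Prod.snd_add, Int.cast_add] <;> ring
  free := fun a x _ h => by
    have h1 := congrArg Prod.fst h
    have h2 := congrArg Prod.snd h
    simp only [torAct, Prod.fst_add, Prod.snd_add, add_eq_left, Int.cast_eq_zero] at h1 h2
    exact Prod.ext h1 h2
  proper := fun x _ y _ => ⟨Metric.ball x 1, Metric.ball_mem_nhds _ one_pos, Metric.ball y 1,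
    Metric.ball_mem_nhds _ one_pos, torFinite x y⟩

/-- the characters -/
private noncomputable def torE (n : ℤ) (p : ℝ) : ℂ :=
  Complex.exp (((2 * Real.pi * n * p : ℝ) : ℂ) * Complex.I)

private theorem torE_norm (n : ℤ) (p : ℝ) : ‖torE n p‖ = 1 :=
  Complex.norm_exp_ofReal_mul_I _

private theorem torE_contDiff (n : ℤ) : ContDiff ℝ ∞ (torE n) := by
  unfold torE
  exact ((Complex.ofRealCLM.contDiff.comp (contDiff_const.mul contDiff_id)).mul
    contDiff_const).cexp

private theorem torE_hasDerivAt (n : ℤ) (p : ℝ) :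
    HasDerivAt (torE n) (Complex.I * torE n p * ((2 * Real.pi * n : ℝ) : ℂ)) p := by
  have h1 : HasDerivAt (fun p : ℝ => 2 * Real.pi * n * p) (2 * Real.pi * n) p := by
    simpa using (hasDerivAt_id p).const_mul (2 * Real.pi * (n : ℝ))
  have h2 := (h1.ofReal_comp.mul_const Complex.I).cexp
  refine h2.congr_deriv ?_
  unfold torE
  ring

private theorem torE_add (n m : ℤ) (k : ℤ) (p : ℝ) :
    torE (n + m) p = torE n (p + k) * torE m p := by
  have h1 : torE n (p + k) = torE n p := by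
    unfold torE
    have h : ((2 * Real.pi * n * (p + k) : ℝ) : ℂ) * Complex.I =
        ((2 * Real.pi * n * p : ℝ) : ℂ) * Complex.I + ((n * k : ℤ) : ℂ) * (2 * Real.pi * Complex.I) := by
      push_cast
      ring
    rw [h, Complex.exp_add, Complex.exp_int_mul_two_pi_mul_I, mul_one]
  rw [h1]
  unfold torE
  rw [← Complex.exp_add]
  congr 1
  push_cast
  ring

/-- the connection form -/
private noncomputable def torA (x : ℝ × ℝ) : ℝ × ℝ →L[ℝ] ℝ :=
  (-(2 * Real.pi) * x.2) • ContinuousLinearMap.fst ℝ ℝ ℝ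

private theorem torA_contDiff : ContDiff ℝ ∞ torA := by
  unfold torA
  exact (contDiff_const.mul contDiff_snd).smul contDiff_const

private theorem torA_apply (x u : ℝ × ℝ) : torA x u = -(2 * Real.pi) * x.2 * u.1 := rfl

private theorem torA_fderiv (x u w : ℝ × ℝ) :
    fderiv ℝ torA x u w = -(2 * Real.pi) * u.2 * w.1 := by
  have h1 : HasFDerivAt (fun x : ℝ × ℝ => -(2 * Real.pi) * x.2)
      ((-(2 * Real.pi)) • ContinuousLinearMap.snd ℝ ℝ ℝ) x :=
    (hasFDerivAt_snd (𝕜 := ℝ) (p := x)).const_mul _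
  have h2 := h1.smul_const (ContinuousLinearMap.fst ℝ ℝ ℝ)
  have h3 : HasFDerivAt torA (((-(2 * Real.pi)) • ContinuousLinearMap.snd ℝ ℝ ℝ).smulRight
      (ContinuousLinearMap.fst ℝ ℝ ℝ)) x := h2
  rw [h3.fderiv]
  simp

/-- the line bundle -/
private noncomputable def torLB : ULine torM where
  J := fun l x => torE l.2 x.1
  smooth_J := fun l => ((torE_contDiff l.2).comp contDiff_fst).contDiffOn
  norm_J := fun _ _ _ => torE_norm _ _
  J_add := fun l l' x _ => torE_add l.2 l'.2 l'.1 x.1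
  a := torA
  smooth_a := torA_contDiff.contDiffOn
  a_compat := fun l x _ u => by
    have h1 := HasFDerivAt.comp (g := torE l.2) (f := Prod.fst) x
      (torE_hasDerivAt l.2 x.1).hasFDerivAt (hasFDerivAt_fst (𝕜 := ℝ) (p := x))
    have h3 : fderiv ℝ (fun x : ℝ × ℝ => torE l.2 x.1) x = _ := h1.fderiv
    rw [h3]
    have h2 : torM.act = torAct := rfl
    rw [h2, torAct_fderiv, torA_apply, ContinuousLinearMap.id_apply, torA_apply]
    simp only [torAct, Prod.snd_add, ContinuousLinearMap.comp_apply,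
      ContinuousLinearMap.toSpanSingleton_apply, ContinuousLinearMap.coe_fst', Complex.real_smul]
    push_cast
    ring

/-- the square -/
private noncomputable def torL : (Fin 2 → ℝ) →L[ℝ] ℝ × ℝ :=
  (ContinuousLinearMap.proj (R := ℝ) (φ := fun _ : Fin 2 => ℝ) 0).prod
    (ContinuousLinearMap.proj (R := ℝ) (φ := fun _ : Fin 2 => ℝ) 1)

private theorem torL_apply (ξ : Fin 2 → ℝ) : torL ξ = (ξ 0, ξ 1) := rfl

private theorem tor_closed (β : ℝ × ℝ → (ℝ × ℝ) [⋀^Fin 1]→L[ℝ] ℝ) (hβ : IsForm1 torM β) :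
    ∫ ξ in Set.Icc (0 : Fin 2 → ℝ) 1,
      extDeriv β (torL ξ) (fun i => fderiv ℝ (fun ξ => torL ξ) ξ (Pi.single i 1)) = 0 := by
  have hβc : ContDiff ℝ 1 β := contDiffOn_univ.1 hβ.1
  have hinv : ∀ (a : ℤ × ℤ) (x : ℝ × ℝ), β (torAct a x) = β x := by
    intro a x
    have h := hβ.2 a x (Set.mem_univ _)
    have h2 : torM.act = torAct := rfl
    rw [h2, torAct_fderiv] at h
    exact h
  set B : (Fin 2 → ℝ) → (Fin 2 → ℝ) [⋀^Fin 1]→L[ℝ] ℝ := fun ξ =>
    (β (torL ξ)).compContinuousLinearMap torL with hBdef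
  have hB : ContDiff ℝ 1 B :=
    (ContinuousAlternatingMap.compContinuousLinearMapCLM (F := ℝ) (ι := Fin 1) torL).contDiff.comp
      (hβc.comp torL.contDiff)
  have h1 : ∀ ξ, extDeriv B ξ = (extDeriv β (torL ξ)).compContinuousLinearMap torL := by
    intro ξ
    have h := extDeriv_pullback (r := ∞) (x := ξ) (f := fun ξ => torL ξ)
      ((hβc.differentiable one_ne_zero) _) torL.contDiff.contDiffAt (by
        rw [minSmoothness_of_isRCLikeNormedField]
        exact WithTop.coe_le_coe.2 (le_top : (2 : ℕ∞) ≤ ⊤))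
    have h0 : ∀ ξ, fderiv ℝ (fun ξ => torL ξ) ξ = torL := fun ξ => torL.fderiv
    simp only [h0] at h
    exact h
  have h2 : ∀ ξ, extDeriv β (torL ξ) (fun i => fderiv ℝ (fun ξ => torL ξ) ξ (Pi.single i 1)) =
      extDeriv B ξ (fun i => Pi.single i 1) := by
    intro ξ
    rw [h1, show fderiv ℝ (fun ξ => torL ξ) ξ = torL from torL.fderiv]
    rfl
  simp only [h2]
  rw [Pool.Agent.HaefligerClasses.integral_extDeriv_cube B hB]
  refine Finset.sum_eq_zero fun i _ => ?_
  have h3 : ∀ η : Fin 1 → ℝ, B (i.insertNth 1 η) = B (i.insertNth 0 η) := by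
    intro η
    have h4 : torL (i.insertNth (1 : ℝ) η) =
        torAct (if i = 0 then (1, 0) else (0, 1)) (torL (i.insertNth (0 : ℝ) η)) := by
      fin_cases i
      · refine Prod.ext ?_ ?_ <;> simp [torL_apply, torAct]
      · refine Prod.ext ?_ ?_ <;> simp [torL_apply, torAct]
        rw [show (0 : Fin 2) = (1 : Fin 2).succAbove 0 from rfl, Fin.insertNth_apply_succAbove,
          Fin.insertNth_apply_succAbove]
    simp only [hBdef]
    rw [h4, hinv]
  simp only [h3, sub_self, mul_zero]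

/-- the cycle -/
private noncomputable def torC : Cycle torM 2 where
  κ := Unit
  c := fun _ ξ => torL ξ
  smooth_c := fun _ => torL.contDiff
  mem_c := fun _ _ _ => Set.mem_univ _
  closed := fun m hm β hβ => by
    obtain rfl : m = 1 := by omega
    change (∑ _ : Unit, _) = _
    rw [Finset.univ_unique, Finset.sum_singleton]
    exact tor_closed β hβ

private theorem torC_power (y : ℝ) :
    torC.power 1 rfl (fun p u w => ∑ r : Empty, (fun _ => (0 : ℝ)) r * (0 : ℝ) +
      y * dform torLB.a p u w) = 4 * Real.pi * y := by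
  have h1 : ∀ A : Fin 2 → Fin 2 → ℝ, pairSum 1 rfl A = A 0 1 - A 1 0 := by
    intro A
    have h : (Finset.univ : Finset (Equiv.Perm (Fin 2))) = {1, Equiv.swap 0 1} := by decide
    have h' : (1 : Equiv.Perm (Fin 2)) ≠ Equiv.swap 0 1 := by decide
    rw [pairSum, h, Finset.sum_pair h']
    have h5 : Equiv.Perm.sign (Equiv.swap (0 : Fin 2) 1) = -1 := Equiv.Perm.sign_swap (by decide)
    rw [h5]
    simp
    ring
  have h2 : volume.real (Set.Icc (0 : Fin 2 → ℝ) 1) = 1 := by
    rw [Measure.real, Real.volume_Icc_pi]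
    simp
  have h3 : ∀ ξ : Fin 2 → ℝ, fderiv ℝ (fun ξ => torL ξ) ξ = torL := fun ξ => torL.fderiv
  have h4 : ∀ p u w : ℝ × ℝ, dform torLB.a p u w =
      -(2 * Real.pi) * u.2 * w.1 - (-(2 * Real.pi) * w.2 * u.1) := by
    intro p u w
    unfold dform
    rw [show torLB.a = torA from rfl, torA_fderiv, torA_fderiv]
  unfold Cycle.power
  rw [show torC.c = fun _ ξ => torL ξ from rfl]
  simp only [h1, h3, h4]
  have h6 : torL (Pi.single 0 1) = (1, 0) := by
    refine Prod.ext ?_ ?_ <;> simp [torL_apply]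
  have h7 : torL (Pi.single 1 1) = (0, 1) := by
    refine Prod.ext ?_ ?_ <;> simp [torL_apply]
  rw [h6, h7]
  simp only [setIntegral_const, h2]
  change (∑ _ : Unit, _) = _
  simp
  ring

/-- the inclusion of the line -/
private noncomputable def torI : ℝ →L[ℝ] TV Empty Unit :=
  (0 : ℝ →L[ℝ] (Empty → ℂ)).prod (ContinuousLinearMap.pi fun _ => ContinuousLinearMap.id ℝ ℝ)

/-- the Haefliger structure -/
private noncomputable def torH : HaefligerStructure torM (TV Empty Unit) where
  ι := Unit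
  dom := fun _ => Set.univ
  isOpen_dom := fun _ => isOpen_univ
  dom_subset := fun _ => Set.Subset.refl _
  cover := fun _ _ => ⟨(), Set.mem_univ _⟩
  f := fun _ x => torI x.1
  smooth_f := fun _ => (torI.contDiff.comp contDiff_fst).contDiffOn
  γ := fun _ a _ _ v => v + torI (a.1 : ℝ)
  smooth_γ := fun _ _ _ _ _ _ => contDiffAt_id.add contDiffAt_const
  orient_γ := fun _ a _ x _ _ => by
    have h1 : fderiv ℝ (fun v : TV Empty Unit => v + torI (a.1 : ℝ)) (torI x.1) =
        ContinuousLinearMap.id ℝ (TV Empty Unit) := ((hasFDerivAt_id _).add_const _).fderiv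
    rw [h1]
    have h2 : (ContinuousLinearMap.id ℝ (TV Empty Unit)).det = 1 := by
      rw [ContinuousLinearMap.det]
      exact LinearMap.det_id
    rw [h2]
    exact one_pos
  map_γ := fun _ a _ _ _ _ => Eventually.of_forall fun y => (map_add torI y.1 (a.1 : ℝ)).symm
  locConst_γ := fun _ _ _ _ _ _ => Eventually.of_forall fun _ => EventuallyEq.refl _ _
  comp_γ := fun _ a _ b _ x _ _ _ => Eventually.of_forall fun v => by
    change v + torI (b.1 : ℝ) + torI (a.1 : ℝ) = v + torI (((a + b).1 : ℤ) : ℝ)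
    rw [add_assoc, ← map_add, Prod.fst_add, Int.cast_add, add_comm (b.1 : ℝ)]

private theorem torH_normal (i : torH.ι) (a : ℤ × ℤ) (j : torH.ι) (x : ℝ × ℝ) :
    torH.normal i a j x = ContinuousLinearMap.id ℝ (TV Empty Unit) :=
  ((hasFDerivAt_id _).add_const _).fderiv

/-- the torus block -/
private noncomputable def torB : Block Empty Unit 1 (fun _ => 0) 1 where
  E := ℝ × ℝ
  Λ := ℤ × ℤ
  M := torM
  ι := Unit
  dom := fun _ => Set.univ
  isOpen_dom := fun _ => isOpen_univ
  dom_subset := fun _ => Set.Subset.refl _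
  cover := fun _ _ => ⟨(), Set.mem_univ _⟩
  ρ := fun _ _ _ _ _ => 1
  norm_ρ := fun _ _ _ _ _ _ _ => norm_one
  diff_ρ := fun _ _ _ _ _ _ _ => differentiableAt_const _
  θ := fun _ _ _ => 0
  smooth_θ := fun _ _ => contDiffOn_const
  compat := fun _ _ _ _ _ _ r => r.elim
  curv := fun _ _ _ _ => 0
  curv_eq := fun _ r => r.elim
  ℓ := torLB
  N := 2
  hN := rfl
  cyc := torC
  integral := ⟨4 * Real.pi, by positivity, fun x y => by
    have h := torC_power y
    simp only [Finset.univ_eq_empty, Finset.sum_empty, zero_add] at h ⊢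
    rw [h]
    simp⟩
  V := TV Empty Unit
  H := torH
  b0 := fun _ => ()
  dom_b0 := fun _ => Set.Subset.refl _
  o := ContinuousLinearEquiv.refl ℝ (TV Empty Unit)
  frame := fun _ _ => ContinuousLinearMap.id ℝ (TV Empty Unit)
  smooth_frame := fun _ => contDiffOn_const
  orient_frame := fun _ _ _ => by
    have h1 : (((ContinuousLinearEquiv.refl ℝ (TV Empty Unit)).symm :
        TV Empty Unit →L[ℝ] TV Empty Unit) ∘L ContinuousLinearMap.id ℝ (TV Empty Unit)) =
        ContinuousLinearMap.id ℝ (TV Empty Unit) := rfl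
    rw [h1]
    have h2 : (ContinuousLinearMap.id ℝ (TV Empty Unit)).det = 1 := by
      rw [ContinuousLinearMap.det]
      exact LinearMap.det_id
    rw [h2]
    exact one_pos
  frame_rot := fun i a j x _ _ => by
    rw [torH_normal]
    refine ContinuousLinearMap.ext fun v => ?_
    refine Prod.ext (Subsingleton.elim _ _) rfl
  φ := fun _ _ => 1
  smooth_φ := fun _ => contDiffOn_const
  norm_φ := fun _ _ _ => norm_one
  leafwise := fun _ a _ x _ _ => ⟨fun v => torE a.2 (v.2 ()),
    ((torE_contDiff a.2).comp ((contDiff_apply ℝ ℝ ()).comp contDiff_snd)).contDiffAt,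
    Eventually.of_forall fun y => by
      change (1 : ℂ) * torE a.2 y.1 = torE a.2 y.1 * 1
      rw [one_mul, mul_one]⟩

theorem torus_block : ∃ D : Block Empty Unit 1 (fun _ => 0) 1, D.Splits := by
  refine ⟨torB, fun _ _ => (ContinuousLinearMap.inl ℝ ℝ ℝ) ∘L
    (ContinuousLinearMap.proj (R := ℝ) (φ := fun _ : Unit => ℝ) ()) ∘L
      ContinuousLinearMap.snd ℝ (Empty → ℂ) (Unit → ℝ), fun _ => contDiffOn_const,
    fun i x hx => ?_, fun i a j x hx hx' => ?_⟩
  · have h1 := HasFDerivAt.comp (g := fun t => torI t) (f := Prod.fst) x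
      torI.hasFDerivAt (hasFDerivAt_fst (𝕜 := ℝ) (p := x))
    have h2 : fderiv ℝ (torB.H.f i) x = _ := h1.fderiv
    rw [h2]
    refine ContinuousLinearMap.ext fun v => ?_
    exact Prod.ext (Subsingleton.elim _ _) rfl
  · have h1 : torB.H.normal i a j x = ContinuousLinearMap.id ℝ (TV Empty Unit) :=
      torH_normal i a j x
    have h2 : fderiv ℝ (torB.M.act a) x = ContinuousLinearMap.id ℝ (ℝ × ℝ) := torAct_fderiv a x
    rw [h1, h2]
    rfl

end Pool.Agent.HAF2
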