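import Pool.Agent.HAF2.Model

/-!
# Module TRV: the trivial blocks

`point_block`: `E = Fin 0 → ℝ`, `Λ = PUnit`, `U = univ`, `V = Fin 0 → ℝ`, `n = 0`, one cube of
dimension `0` (`Cycle.closed` is vacuous as `m + 1 = 0` is impossible), the integral is `1`.
`line_block`: the same with `V = ℝ` and the constant local map `0`, `γ = id`.
-/

namespace Pool.Agent.HAF2

open Filter Topology MeasureTheory
open scoped ContDiff
open Pool.Agent.HaefligerClasses (QuotientManifold IsForm HaefligerStructure curvature
  torusElement)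

/-- the point -/
private noncomputable def trvM : QuotientManifold (Fin 0 → ℝ) PUnit where
  U := Set.univ
  isOpen_U := isOpen_univ
  act := fun _ x => x
  smooth_act := fun _ => contDiffOn_id
  mapsTo := fun _ _ _ => Set.mem_univ _
  act_zero := fun _ _ => rfl
  act_add := fun _ _ _ _ => rfl
  free := fun _ _ _ _ => rfl
  proper := fun _ _ _ _ => ⟨Set.univ, univ_mem, Set.univ, univ_mem, Set.toFinite _⟩

/-- the trivial line bundle -/
private noncomputable def trvL : ULine trvM where
  J := fun _ _ => 1
  smooth_J := fun _ => contDiffOn_const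
  norm_J := fun _ _ _ => norm_one
  J_add := fun _ _ _ _ => (one_mul _).symm
  a := fun _ => 0
  smooth_a := contDiffOn_const
  a_compat := fun _ x _ u => by simp

/-- the cycle -/
private noncomputable def trvC : Cycle trvM 0 where
  κ := Unit
  c := fun _ _ => 0
  smooth_c := fun _ => contDiff_const
  mem_c := fun _ _ _ => Set.mem_univ _
  closed := fun m hm _ _ => absurd hm (Nat.succ_ne_zero m)

private theorem trvC_power (W : (Fin 0 → ℝ) → (Fin 0 → ℝ) → (Fin 0 → ℝ) → ℝ) :
    trvC.power 0 rfl W = 1 := by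
  have h1 : ∀ A : Fin 0 → Fin 0 → ℝ, pairSum 0 rfl A = 1 := by
    intro A
    rw [pairSum, Fintype.sum_eq_single (1 : Equiv.Perm (Fin 0)) (fun σ h => (h (Subsingleton.elim _ _)).elim)]
    simp
  have h2 : volume.real (Set.Icc (0 : Fin 0 → ℝ) 1) = 1 := by
    rw [Measure.real, Real.volume_Icc_pi]
    simp
  unfold Cycle.power
  simp only [h1, setIntegral_const, h2]
  change (∑ _ : Unit, _) = _
  simp

/-- the Haefliger structure -/
private noncomputable def trvH (K : Type) [Fintype K] : HaefligerStructure trvM (TV Empty K) where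
  ι := Unit
  dom := fun _ => Set.univ
  isOpen_dom := fun _ => isOpen_univ
  dom_subset := fun _ => Set.Subset.refl _
  cover := fun _ _ => ⟨(), Set.mem_univ _⟩
  f := fun _ _ => 0
  smooth_f := fun _ => contDiffOn_const
  γ := fun _ _ _ _ v => v
  smooth_γ := fun _ _ _ _ _ _ => contDiffAt_id
  orient_γ := fun _ _ _ _ _ _ => by
    have h1 : fderiv ℝ (fun v : TV Empty K => v) 0 = ContinuousLinearMap.id ℝ (TV Empty K) :=
      fderiv_id
    rw [h1]
    have h2 : (ContinuousLinearMap.id ℝ (TV Empty K)).det = 1 := by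
      rw [ContinuousLinearMap.det]
      exact LinearMap.det_id
    rw [h2]
    exact one_pos
  map_γ := fun _ _ _ _ _ _ => Eventually.of_forall fun _ => rfl
  locConst_γ := fun _ _ _ _ _ _ => Eventually.of_forall fun _ => EventuallyEq.refl _ _
  comp_γ := fun _ _ _ _ _ _ _ _ _ => EventuallyEq.refl _ _

private theorem trvH_normal (K : Type) [Fintype K] (i : (trvH K).ι) (a : PUnit) (j : (trvH K).ι)
    (x : Fin 0 → ℝ) : (trvH K).normal i a j x = ContinuousLinearMap.id ℝ (TV Empty K) :=
  fderiv_id

/-- the trivial block -/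
private noncomputable def trvB (K : Type) [Fintype K] : Block Empty K 0 (fun _ => 0) 0 where
  E := Fin 0 → ℝ
  Λ := PUnit
  M := trvM
  ι := Unit
  dom := fun _ => Set.univ
  isOpen_dom := fun _ => isOpen_univ
  dom_subset := fun _ => Set.Subset.refl _
  cover := fun _ _ => ⟨(), Set.mem_univ _⟩
  ρ := fun _ _ _ _ _ => 1
  norm_ρ := fun _ _ _ _ _ _ _ => norm_one
  diff_ρ := fun _ _ _ _ _ _ _ => differentiableAt_const _
  θ := fun _ _ _ => 0
  smooth_θ := fun _ _ => contDiffOn_const
  compat := fun _ _ _ _ _ _ r => r.elim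
  curv := fun _ _ _ _ => 0
  curv_eq := fun _ r => r.elim
  ℓ := trvL
  N := 0
  hN := rfl
  cyc := trvC
  integral := ⟨1, one_ne_zero, fun x y => by
    rw [trvC_power]
    simp⟩
  V := TV Empty K
  H := trvH K
  b0 := fun _ => ()
  dom_b0 := fun _ => Set.Subset.refl _
  o := ContinuousLinearEquiv.refl ℝ (TV Empty K)
  frame := fun _ _ => ContinuousLinearMap.id ℝ (TV Empty K)
  smooth_frame := fun _ => contDiffOn_const
  orient_frame := fun _ _ _ => by
    have h1 : (((ContinuousLinearEquiv.refl ℝ (TV Empty K)).symm :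
        TV Empty K →L[ℝ] TV Empty K) ∘L ContinuousLinearMap.id ℝ (TV Empty K)) =
        ContinuousLinearMap.id ℝ (TV Empty K) := rfl
    rw [h1]
    have h2 : (ContinuousLinearMap.id ℝ (TV Empty K)).det = 1 := by
      rw [ContinuousLinearMap.det]
      exact LinearMap.det_id
    rw [h2]
    exact one_pos
  frame_rot := fun i a j x _ _ => by
    rw [trvH_normal]
    refine ContinuousLinearMap.ext fun v => ?_
    refine Prod.ext (Subsingleton.elim _ _) rfl
  φ := fun _ _ => 1
  smooth_φ := fun _ => contDiffOn_const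
  norm_φ := fun _ _ _ => norm_one
  leafwise := fun _ _ _ _ _ _ => ⟨fun _ => 1, contDiffAt_const, Eventually.of_forall fun _ => rfl⟩

theorem point_block : ∃ D : Block Empty Empty 0 (fun _ => 0) 0, D.Splits := by
  refine ⟨trvB Empty, fun _ _ => 0, fun _ => contDiffOn_const, fun _ _ _ => ?_,
    fun _ _ _ _ _ _ => ?_⟩
  · refine ContinuousLinearMap.ext fun v => ?_
    exact Prod.ext (Subsingleton.elim _ _) (Subsingleton.elim _ _)
  · refine ContinuousLinearMap.ext fun v => ?_
    exact Subsingleton.elim (α := Fin 0 → ℝ) _ _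

theorem line_block : Nonempty (Block Empty Unit 0 (fun _ => 0) 0) := ⟨trvB Unit⟩

end Pool.Agent.HAF2
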