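import Pool.Agent.HAF2.BlkProd
import Pool.Agent.HAF2.BlkRel
import Pool.Agent.HAF2.Triv
import Pool.Agent.HAF2.Tor

/-!
# Module RLZ: realisable systems of exponents
-/

namespace Pool.Agent.HAF2

open Filter Topology MeasureTheory
open Pool.Agent.HaefligerClasses (QuotientManifold IsForm HaefligerStructure curvature
  torusElement)

/-- there is a block with `b = 0`, root exponents `S` and `k` lines -/
def Rlz (S : Multiset ℕ) (k : ℕ) : Prop :=
  ∃ (R K : Type) (_ : Fintype R) (_ : Fintype K) (α : R → ℕ),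
    Finset.univ.val.map α = S ∧ Fintype.card K = k ∧ Nonempty (Block R K S.sum α 0)

theorem rlz_add {S T : Multiset ℕ} {k l : ℕ} (h₁ : Rlz S k) (h₂ : Rlz T l) :
    Rlz (S + T) (k + l) := by
  obtain ⟨R, K, _, _, α, hα, hK, ⟨D⟩⟩ := h₁
  obtain ⟨R', K', _, _, α', hα', hK', ⟨D'⟩⟩ := h₂
  obtain ⟨P, -⟩ := prod_block D D'
  obtain ⟨Q, -⟩ := relabel_block (Equiv.refl (R ⊕ R')) (Equiv.refl (K ⊕ K'))
    (n' := (S + T).sum) (α' := Sum.elim α α') (b' := 0) (Multiset.sum_add S T).symm
    (fun _ => rfl) rfl P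
  refine ⟨R ⊕ R', K ⊕ K', inferInstance, inferInstance, Sum.elim α α', ?_, ?_, ⟨Q⟩⟩
  · rw [← Finset.univ_disjSum_univ, Finset.val_disjSum, Multiset.disjSum, Multiset.map_add,
      Multiset.map_map, Multiset.map_map, ← hα, ← hα']
    rfl
  · rw [Fintype.card_sum, hK, hK']

theorem rlz_zero : Rlz 0 0 := by
  obtain ⟨D, -⟩ := point_block
  refine ⟨Empty, Empty, inferInstance, inferInstance, fun _ => 0, ?_, ?_, ⟨D⟩⟩
  · simp
  · simp

theorem rlz_lines (k : ℕ) : Rlz 0 k := by
  induction k with
  | zero => exact rlz_zero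
  | succ k ih =>
    obtain ⟨D⟩ := line_block
    have h : Rlz 0 1 :=
      ⟨Empty, Unit, inferInstance, inferInstance, fun _ => 0, by simp, by simp, ⟨D⟩⟩
    simpa using rlz_add ih h

/-- `a` torus blocks -/
theorem torus_power (a : ℕ) : ∃ D : Block Empty (Fin a) a (fun _ => 0) a, D.Splits := by
  induction a with
  | zero =>
    obtain ⟨D, hD⟩ := point_block
    obtain ⟨D', hD'⟩ := relabel_block (Equiv.refl Empty) (Equiv.equivOfIsEmpty (Fin 0) Empty)
      (n' := 0) (α' := fun _ => 0) (b' := 0) rfl (fun _ => rfl) rfl D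
    exact ⟨D', hD' hD⟩
  | succ a ih =>
    obtain ⟨D, hD⟩ := ih
    obtain ⟨T, hT⟩ := torus_block
    obtain ⟨P, hP⟩ := prod_block D T
    obtain ⟨D', hD'⟩ := relabel_block (Equiv.equivOfIsEmpty Empty (Empty ⊕ Empty))
      ((finSumFinEquiv (m := a) (n := 1)).symm.trans
        (Equiv.sumCongr (Equiv.refl (Fin a)) (Equiv.ofUnique (Fin 1) Unit)))
      (n' := a + 1) (α' := fun _ => 0) (b' := a + 1) rfl (fun r => r.elim) rfl P
    exact ⟨D', hD' (hP hD hT)⟩

/-- powers of a block with one root of exponent `1`, no lines and `b = 1` -/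
theorem block_power (D : Block (Option Empty) Empty 2 (fun _ => 1) 1) (hD : D.Splits) (a : ℕ) :
    ∃ D' : Block (Fin a) Empty (2 * a) (fun _ => 1) a, D'.Splits := by
  induction a with
  | zero =>
    obtain ⟨D, hD⟩ := point_block
    obtain ⟨D', hD'⟩ := relabel_block (Equiv.equivOfIsEmpty (Fin 0) Empty) (Equiv.refl Empty)
      (n' := 2 * 0) (α' := fun _ => 1) (b' := 0) rfl (fun r => r.elim0) rfl D
    exact ⟨D', hD' hD⟩
  | succ a ih =>
    obtain ⟨C, hC⟩ := ih
    obtain ⟨P, hP⟩ := prod_block C D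
    obtain ⟨D', hD'⟩ := relabel_block
      ((finSumFinEquiv (m := a) (n := 1)).symm.trans
        (Equiv.sumCongr (Equiv.refl (Fin a)) (Equiv.ofUnique (Fin 1) (Option Empty))))
      (Equiv.equivOfIsEmpty Empty (Empty ⊕ Empty))
      (n' := 2 * (a + 1)) (α' := fun _ => 1) (b' := a + 1) (by ring)
      (fun r => by
        generalize ((finSumFinEquiv (m := a) (n := 1)).symm.trans
          (Equiv.sumCongr (Equiv.refl (Fin a)) (Equiv.ofUnique (Fin 1) (Option Empty)))) r = z
        cases z <;> rfl) rfl P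
    exact ⟨D', hD' (hP hC hD)⟩

/-- the suspension theorem as a hypothesis -/
def SuspensionThm : Prop :=
  ∀ (R K : Type) (_ : Fintype R) (_ : Fintype K) (n : ℕ) (α : R → ℕ) (b : ℕ)
    (D : Block R K n α b), D.Splits →
    Nonempty (Block (Option R) K (n + 1) (fun o => o.elim (b + 1) α) 0)

private theorem univ_option_val (R : Type) [Fintype R] :
    (Finset.univ : Finset (Option R)).val =
      none ::ₘ (Finset.univ : Finset R).val.map some := rfl

theorem rlz_suspend (hs : SuspensionThm) (a : ℕ) : Rlz {a + 1} a := by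
  obtain ⟨D, hD⟩ := torus_power a
  obtain ⟨P⟩ := hs _ _ _ _ _ _ _ D hD
  refine ⟨Option Empty, Fin a, inferInstance, inferInstance,
    fun o => o.elim (a + 1) (fun _ => 0), ?_, ?_, ?_⟩
  · rw [univ_option_val]
    simp
  · simp
  · rw [Multiset.sum_singleton]
    exact ⟨P⟩

theorem rlz_suspend_odd (hs : SuspensionThm)
    (hh : ∃ D : Block (Option Empty) Empty 2 (fun _ => 1) 1, D.Splits) (a : ℕ) :
    Rlz ((a + 1) ::ₘ Multiset.replicate a 1) 0 := by
  obtain ⟨D₀, hD₀⟩ := hh
  obtain ⟨D, hD⟩ := block_power D₀ hD₀ a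
  obtain ⟨P⟩ := hs _ _ _ _ _ _ _ D hD
  have hsum : ((a + 1) ::ₘ Multiset.replicate a 1).sum = 2 * a + 1 := by
    rw [Multiset.sum_cons, Multiset.sum_replicate, smul_eq_mul]
    ring
  refine ⟨Option (Fin a), Empty, inferInstance, inferInstance,
    fun o => o.elim (a + 1) (fun _ => 1), ?_, ?_, ?_⟩
  · rw [univ_option_val, Multiset.map_cons, Multiset.map_map]
    congr 1
    rw [show ((fun o : Option (Fin a) => o.elim (a + 1) (fun _ => 1)) ∘ some)
      = Function.const (Fin a) 1 from rfl, Multiset.map_const]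
    simp
  · simp
  · rw [hsum]
    exact ⟨P⟩

theorem rlz_two (hv : Nonempty (Block (Option Empty) Empty 2 (fun _ => 2) 0)) :
    Rlz {2} 0 := by
  obtain ⟨D⟩ := hv
  refine ⟨Option Empty, Empty, inferInstance, inferInstance, fun _ => 2, ?_, ?_, ?_⟩
  · rw [univ_option_val]
    simp
  · simp
  · rw [Multiset.sum_singleton]
    exact ⟨D⟩

/-- even exponents -/
theorem rlz_of_even (hs : SuspensionThm)
    (hv : Nonempty (Block (Option Empty) Empty 2 (fun _ => 2) 0)) (S : Multiset ℕ)
    (hS : ∀ a ∈ S, Even a ∧ a ≠ 0) (q : ℕ)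
    (hq : S.sum + (S.filter fun a => 3 ≤ a).card ≤ q) : Rlz S (q - 2 * S.card) := by
  have key : ∀ S : Multiset ℕ, (∀ a ∈ S, Even a ∧ a ≠ 0) →
      ∃ k, k + 2 * S.card = S.sum + (S.filter fun a => 3 ≤ a).card ∧ Rlz S k := by
    intro S
    induction S using Multiset.induction_on with
    | empty => exact fun _ => ⟨0, by simp, rlz_zero⟩
    | cons a S ih =>
      intro h
      obtain ⟨k, hk, hr⟩ := ih fun b hb => h b (Multiset.mem_cons_of_mem hb)
      obtain ⟨⟨c, hc⟩, ha0⟩ := h a (Multiset.mem_cons_self a S)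
      rcases (by omega : a = 2 ∨ 3 ≤ a) with rfl | h3
      · refine ⟨0 + k, ?_, ?_⟩
        · rw [Multiset.filter_cons_of_neg _ (by omega), Multiset.sum_cons, Multiset.card_cons]
          omega
        · rw [← Multiset.singleton_add]
          exact rlz_add (rlz_two hv) hr
      · obtain ⟨d, rfl⟩ : ∃ d, a = d + 1 := ⟨a - 1, by omega⟩
        refine ⟨d + k, ?_, ?_⟩
        · have hf : ((d + 1) ::ₘ S).filter (fun a => 3 ≤ a) =
              (d + 1) ::ₘ S.filter (fun a => 3 ≤ a) := Multiset.filter_cons_of_pos _ h3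
          rw [hf, Multiset.sum_cons, Multiset.card_cons, Multiset.card_cons]
          omega
        · rw [← Multiset.singleton_add]
          exact rlz_add (rlz_suspend hs d) hr
  obtain ⟨k, hk, hr⟩ := key S hS
  have h := rlz_add hr (rlz_lines (q - 2 * S.card - k))
  rw [add_zero] at h
  rwa [show k + (q - 2 * S.card - k) = q - 2 * S.card by omega] at h

/-- odd exponents -/
theorem rlz_of_odd (hs : SuspensionThm)
    (hh : ∃ D : Block (Option Empty) Empty 2 (fun _ => 1) 1, D.Splits) (S : Multiset ℕ)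
    (hS : ∀ a ∈ S, Odd a)
    (hq : S.sum + (S.filter fun a => 3 ≤ a).card ≤ 2 * S.card) : Rlz S 0 := by
  have hone : ∀ n : ℕ, Rlz (Multiset.replicate n 1) 0 := by
    intro n
    induction n with
    | zero => simpa using rlz_zero
    | succ n ih =>
      have h := rlz_add ih (rlz_suspend_odd hs hh 0)
      rw [Multiset.replicate_succ, ← Multiset.singleton_add, add_comm]
      simpa using h
  have key : ∀ T : Multiset ℕ, (∀ a ∈ T, 3 ≤ a) →
      ∃ n, n + T.card = T.sum ∧ Rlz (T + Multiset.replicate n 1) 0 := by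
    intro T
    induction T using Multiset.induction_on with
    | empty => exact fun _ => ⟨0, by simp, by simpa using rlz_zero⟩
    | cons a T ih =>
      intro h
      obtain ⟨n, hn, hr⟩ := ih fun b hb => h b (Multiset.mem_cons_of_mem hb)
      have h3 : 3 ≤ a := h a (Multiset.mem_cons_self a T)
      obtain ⟨d, rfl⟩ : ∃ d, a = d + 1 := ⟨a - 1, by omega⟩
      refine ⟨d + n, ?_, ?_⟩
      · rw [Multiset.sum_cons, Multiset.card_cons]
        omega
      · have h' := rlz_add (rlz_suspend_odd hs hh d) hr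
        rw [Multiset.replicate_add]
        rw [show (d + 1) ::ₘ T + (Multiset.replicate d 1 + Multiset.replicate n 1) =
          (d + 1) ::ₘ Multiset.replicate d 1 + (T + Multiset.replicate n 1) by
            rw [← Multiset.singleton_add, ← Multiset.singleton_add]
            abel]
        exact h'
  have hsplit : S = (S.filter fun a => 3 ≤ a) +
      Multiset.replicate (S.card - (S.filter fun a => 3 ≤ a).card) 1 := by
    have h1 : S.filter (fun a => ¬ 3 ≤ a) =
        Multiset.replicate (S.card - (S.filter fun a => 3 ≤ a).card) 1 := by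
      rw [Multiset.eq_replicate]
      refine ⟨?_, fun b hb => ?_⟩
      · have h2 := congrArg Multiset.card (Multiset.filter_add_not (fun a => 3 ≤ a) S)
        rw [Multiset.card_add] at h2
        omega
      · obtain ⟨hb1, hb2⟩ := Multiset.mem_filter.1 hb
        obtain ⟨c, hc⟩ := hS b hb1
        omega
    rw [← h1, Multiset.filter_add_not]
  obtain ⟨n, hn, hr⟩ := key (S.filter fun a => 3 ≤ a) fun a ha => (Multiset.mem_filter.1 ha).2
  have hsum : S.sum = (S.filter fun a => 3 ≤ a).sum +
      (S.card - (S.filter fun a => 3 ≤ a).card) := by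
    conv_lhs => rw [hsplit]
    rw [Multiset.sum_add, Multiset.sum_replicate, smul_eq_mul, mul_one]
  have hcard : (S.filter fun a => 3 ≤ a).card ≤ S.card :=
    Multiset.card_le_card (Multiset.filter_le _ _)
  have hle : n ≤ S.card - (S.filter fun a => 3 ≤ a).card := by omega
  have h := rlz_add hr (hone (S.card - (S.filter fun a => 3 ≤ a).card - n))
  rw [add_assoc, ← Multiset.replicate_add, add_zero,
    show n + (S.card - (S.filter fun a => 3 ≤ a).card - n) =
      S.card - (S.filter fun a => 3 ≤ a).card by omega, ← hsplit] at h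
  exact h

end Pool.Agent.HAF2
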