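import Pool.Agent.HAF2.SphM
import Pool.Agent.HAF2.Par
import Pool.Agent.HAF2.Fub

/-!
# Module SAV: averaging a form over the spheres

For an invariant `(m + 2)`-form `β` of class `C^1` on the sphere bundle, integrate over the sphere
(parametrised by `sph`) the `m`-form obtained by inserting the two tangent vectors of the sphere
as last arguments. The result is an invariant `m`-form of class `C^1` on the base:

* smoothness: `contDiffOn_integral_cube`;
* invariance: for `l` and `x` choose `h` with `L.J l x = exp (2 π h I)`. Then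
  `J * sph s t = sph s (t + h)` and the same for the two tangent vectors; the vector
  `fderiv (sphAct M L l) (x, y, t) (w, 0)` differs from `(fderiv (M.act l) x w, 0)` by a multiple
  of the tangent vector `dsph2` (because `fderiv (L.J l) x w = I * J * real`, field `a_compat`),
  which is killed since `dsph2` is already inserted; finally the integral over `t ∈ [0, 1]` of a
  function of period `1` is invariant under translation by `h`;
* the formula for the exterior derivative: differentiate under the integral.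
-/

namespace Pool.Agent.HAF2

open Filter Topology MeasureTheory
open scoped ContDiff ComplexConjugate
open Pool.Agent.HaefligerClasses (QuotientManifold IsForm HaefligerStructure curvature
  torusElement)

section

variable {E : Type} [NormedAddCommGroup E] [NormedSpace ℝ E] {Λ : Type} [AddGroup Λ]

/-- derivative of `sph` in the first variable -/
noncomputable def dsph1 (s t : ℝ) : ℂ × ℝ :=
  ((Real.pi * Real.cos (Real.pi * s) : ℂ) * Complex.exp (2 * Real.pi * t * Complex.I),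
    Real.pi * Real.sin (Real.pi * s))

/-- derivative of `sph` in the second variable -/
noncomputable def dsph2 (s t : ℝ) : ℂ × ℝ :=
  (2 * Real.pi * Complex.I * (Real.sin (Real.pi * s) : ℂ) *
    Complex.exp (2 * Real.pi * t * Complex.I), 0)

theorem contDiff_sph : ContDiff ℝ ∞ (fun q : ℝ × ℝ => sph q.1 q.2) := by
  unfold sph
  have h0 : ContDiff ℝ ∞ (fun q : ℝ × ℝ => ((Real.sin (Real.pi * q.1) : ℝ) : ℂ)) :=
    Complex.ofRealCLM.contDiff.comp (Real.contDiff_sin.comp (contDiff_const.mul contDiff_fst))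
  have h1 : ContDiff ℝ ∞ (fun q : ℝ × ℝ => Complex.exp (2 * Real.pi * q.2 * Complex.I)) := by
    apply ContDiff.cexp
    exact (contDiff_const.mul (Complex.ofRealCLM.contDiff.comp contDiff_snd)).mul contDiff_const
  exact (h0.mul h1).prodMk (Real.contDiff_cos.comp (contDiff_const.mul contDiff_fst)).neg

theorem contDiff_dsph1 : ContDiff ℝ ∞ (fun q : ℝ × ℝ => dsph1 q.1 q.2) := by
  unfold dsph1
  have h0 : ContDiff ℝ ∞ (fun q : ℝ × ℝ => ((Real.cos (Real.pi * q.1) : ℝ) : ℂ)) :=
    Complex.ofRealCLM.contDiff.comp (Real.contDiff_cos.comp (contDiff_const.mul contDiff_fst))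
  have h1 : ContDiff ℝ ∞ (fun q : ℝ × ℝ => Complex.exp (2 * Real.pi * q.2 * Complex.I)) := by
    apply ContDiff.cexp
    exact (contDiff_const.mul (Complex.ofRealCLM.contDiff.comp contDiff_snd)).mul contDiff_const
  exact ((contDiff_const.mul h0).mul h1).prodMk
    (contDiff_const.mul (Real.contDiff_sin.comp (contDiff_const.mul contDiff_fst)))

theorem contDiff_dsph2 : ContDiff ℝ ∞ (fun q : ℝ × ℝ => dsph2 q.1 q.2) := by
  unfold dsph2
  have h0 : ContDiff ℝ ∞ (fun q : ℝ × ℝ => ((Real.sin (Real.pi * q.1) : ℝ) : ℂ)) :=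
    Complex.ofRealCLM.contDiff.comp (Real.contDiff_sin.comp (contDiff_const.mul contDiff_fst))
  have h1 : ContDiff ℝ ∞ (fun q : ℝ × ℝ => Complex.exp (2 * Real.pi * q.2 * Complex.I)) := by
    apply ContDiff.cexp
    exact (contDiff_const.mul (Complex.ofRealCLM.contDiff.comp contDiff_snd)).mul contDiff_const
  exact ((contDiff_const.mul h0).mul h1).prodMk contDiff_const

theorem fderiv_sph (s t a b : ℝ) :
    fderiv ℝ (fun q : ℝ × ℝ => sph q.1 q.2) (s, t) (a, b) = a • dsph1 s t + b • dsph2 s t := by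
  have hd : HasFDerivAt (fun q : ℝ × ℝ => sph q.1 q.2)
      (fderiv ℝ (fun q : ℝ × ℝ => sph q.1 q.2) (s, t)) (s, t) :=
    (contDiff_sph.differentiable (by simp) (s, t)).hasFDerivAt
  have hc : HasDerivAt (fun r : ℝ => ((s + r * a, t + r * b) : ℝ × ℝ)) (a, b) 0 := by
    have h1 : HasDerivAt (fun r : ℝ => s + r * a) a 0 := by
      simpa using ((hasDerivAt_id (0 : ℝ)).mul_const a).const_add s
    have h2 : HasDerivAt (fun r : ℝ => t + r * b) b 0 := by
      simpa using ((hasDerivAt_id (0 : ℝ)).mul_const b).const_add t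
    exact h1.prodMk h2
  have hd' : HasFDerivAt (fun q : ℝ × ℝ => sph q.1 q.2)
      (fderiv ℝ (fun q : ℝ × ℝ => sph q.1 q.2) (s, t))
      ((fun r : ℝ => ((s + r * a, t + r * b) : ℝ × ℝ)) 0) := by
    simpa using hd
  have hcomp := hd'.comp_hasDerivAt (0 : ℝ) hc
  have hexp : HasDerivAt (fun r : ℝ => sph (s + r * a) (t + r * b))
      (a • dsph1 s t + b • dsph2 s t) 0 := by
    have hs1 : HasDerivAt (fun r : ℝ => Real.pi * (s + r * a)) (Real.pi * a) 0 := by
      simpa using (((hasDerivAt_id (0 : ℝ)).mul_const a).const_add s).const_mul Real.pi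
    have hsin : HasDerivAt (fun r : ℝ => ((Real.sin (Real.pi * (s + r * a)) : ℝ) : ℂ))
        ((Real.cos (Real.pi * s) * (Real.pi * a) : ℝ) : ℂ) 0 := by
      have := hs1.sin.ofReal_comp
      simpa using this
    have hcos : HasDerivAt (fun r : ℝ => -Real.cos (Real.pi * (s + r * a)))
        (Real.sin (Real.pi * s) * (Real.pi * a)) 0 := by
      refine HasDerivAt.congr_deriv hs1.cos.neg ?_
      simp
    have ht1 : HasDerivAt (fun r : ℝ => (2 * Real.pi * ((t + r * b : ℝ) : ℂ) * Complex.I))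
        (2 * Real.pi * (b : ℂ) * Complex.I) 0 := by
      have h2 : HasDerivAt (fun r : ℝ => ((t + r * b : ℝ) : ℂ)) (b : ℂ) 0 := by
        have := (((hasDerivAt_id (0 : ℝ)).mul_const b).const_add t).ofReal_comp
        simpa using this
      exact (h2.const_mul (2 * Real.pi : ℂ)).mul_const Complex.I
    have hmul := (hsin.mul ht1.cexp).prodMk hcos
    refine HasDerivAt.congr_deriv hmul ?_
    unfold dsph1 dsph2
    ext1
    · simp
      ring
    · simp
      ring
  exact hcomp.unique hexp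

theorem sph_mem (M : QuotientManifold E Λ) (x : E) (hx : x ∈ M.U) (s t : ℝ) :
    (x, sph s t) ∈ sphU M := by
  refine ⟨hx, ?_⟩
  by_cases hs : Real.sin (Real.pi * s) = 0
  · right
    have h1 := Real.sin_sq_add_cos_sq (Real.pi * s)
    rw [hs] at h1
    have h2 : Real.cos (Real.pi * s) ^ 2 = 1 := by nlinarith
    have h3 : |Real.cos (Real.pi * s)| = 1 := by
      have := sq_abs (Real.cos (Real.pi * s))
      nlinarith [abs_nonneg (Real.cos (Real.pi * s))]
    show 1 / 2 < |-Real.cos (Real.pi * s)|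
    rw [abs_neg, h3]
    norm_num
  · left
    show (Real.sin (Real.pi * s) : ℂ) * Complex.exp (2 * Real.pi * t * Complex.I) ≠ 0
    exact mul_ne_zero (by exact_mod_cast hs) (Complex.exp_ne_zero _)

/-! ### Alternating maps -/

/-- moving two vectors from the end to the beginning does not change the sign -/
theorem append_two_eq {F : Type} [NormedAddCommGroup F] [NormedSpace ℝ F] {m : ℕ}
    (f : F [⋀^Fin (m + 2)]→L[ℝ] ℝ) (v : Fin m → F) (w₁ w₂ : F) :
    f (Fin.append v ![w₁, w₂]) = f (Matrix.vecCons w₁ (Matrix.vecCons w₂ v)) := by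
  have h : Fin.append v ![w₁, w₂] =
      (Matrix.vecCons w₁ (Matrix.vecCons w₂ v)) ∘
        ((finRotate (m + 2)) * (finRotate (m + 2)) : Equiv.Perm (Fin (m + 2))) := by
    funext i
    refine Fin.addCases (fun i => ?_) (fun i => ?_) i
    · rw [Fin.append_left]
      have e1 : finRotate (m + 2) (Fin.castAdd 2 i) = (Fin.castSucc i).succ := by
        rw [show Fin.castAdd 2 i = Fin.castSucc (Fin.castSucc i) from rfl]
        ext
        rw [coe_finRotate_of_ne_last (Fin.castSucc_lt_last _).ne]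
        simp
      have e2 : finRotate (m + 2) (Fin.castSucc i).succ = i.succ.succ := by
        rw [show (Fin.castSucc i).succ = Fin.castSucc i.succ from rfl]
        ext
        rw [coe_finRotate_of_ne_last (Fin.castSucc_lt_last _).ne]
        simp
      simp only [Function.comp_apply, Equiv.Perm.mul_apply, e1, e2]
      simp
    · rw [Fin.append_right]
      fin_cases i
      · have e1 : finRotate (m + 2) (Fin.natAdd m 0) = Fin.last (m + 1) := by
          ext
          rw [coe_finRotate_of_ne_last]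
          · simp
          · intro h
            have := congrArg Fin.val h
            simp at this
        simp only [Function.comp_apply, Equiv.Perm.mul_apply]
        have e1' : finRotate (m + 2) (Fin.natAdd m ((fun i => i) ⟨0, by norm_num⟩)) =
          Fin.last (m + 1) := e1
        erw [e1', finRotate_last]
        simp
      · have e1 : finRotate (m + 2) (Fin.last (m + 1)) = 0 := finRotate_last
        have e2 : finRotate (m + 2) 0 = 1 := by
          ext
          rw [coe_finRotate_of_ne_last]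
          · simp
          · intro h
            have := congrArg Fin.val h
            simp at this
        simp only [Function.comp_apply, Equiv.Perm.mul_apply]
        have e3 : (Fin.natAdd m ((fun i => i) ⟨1, by norm_num⟩) : Fin (m + 2)) =
          Fin.last (m + 1) := rfl
        erw [e3, e1, e2]
        simp
  rw [h]
  have hs : Equiv.Perm.sign ((finRotate (m + 2)) * (finRotate (m + 2)) :
      Equiv.Perm (Fin (m + 2))) = 1 := by
    rw [Equiv.Perm.sign_mul]
    exact Int.units_mul_self _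
  have := f.toAlternatingMap.map_perm (Matrix.vecCons w₁ (Matrix.vecCons w₂ v))
    ((finRotate (m + 2)) * (finRotate (m + 2)))
  rw [hs, one_smul] at this
  exact this

/-- arguments may be changed by multiples of an argument which is already there -/
theorem curryLeft_add_smul {F : Type} [NormedAddCommGroup F] [NormedSpace ℝ F] {m : ℕ}
    (f : F [⋀^Fin (m + 1)]→L[ℝ] ℝ) (w : F) (a : Fin m → F) (κ : Fin m → ℝ) :
    f.curryLeft w (fun j => a j + κ j • w) = f.curryLeft w a := by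
  have h1 := (f.curryLeft w).toMultilinearMap.map_add_univ a (fun j => κ j • w)
  have h2 : (f.curryLeft w).toMultilinearMap (a + fun j => κ j • w) =
      f.curryLeft w (fun j => a j + κ j • w) := rfl
  rw [← h2, h1, Finset.sum_eq_single Finset.univ]
  · rw [Finset.piecewise_univ]
    rfl
  · intro s _ hs
    obtain ⟨j, hj⟩ : ∃ j, j ∉ s := by
      by_contra hcon
      push Not at hcon
      exact hs (Finset.eq_univ_iff_forall.2 hcon)
    show f (Matrix.vecCons w (s.piecewise a fun j => κ j • w)) = 0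
    set v : Fin (m + 1) → F := Matrix.vecCons w (s.piecewise a fun j => κ j • w) with hv
    have hvj : v j.succ = κ j • w := by
      rw [hv, Matrix.cons_val_succ, Finset.piecewise_eq_of_notMem _ _ _ hj]
    have hv2 : v = Function.update v j.succ (κ j • w) := by
      rw [← hvj]
      exact (Function.update_eq_self _ _).symm
    have hne : (0 : Fin (m + 1)) ≠ j.succ := (Fin.succ_ne_zero j).symm
    rw [hv2, f.map_update_smul, f.map_eq_zero_of_eq (i := 0) (j := j.succ) _ ?_ hne, smul_zero]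
    rw [Function.update_self, Function.update_of_ne hne, hv, Matrix.cons_val_zero]
  · intro h
    exact absurd (Finset.mem_univ _) h

/-- inserting two vectors and restricting to the base directions -/
noncomputable def insTwo {m : ℕ} (w₁ w₂ : E × ℂ × ℝ) :
    ((E × ℂ × ℝ) [⋀^Fin (m + 2)]→L[ℝ] ℝ) →L[ℝ] (E [⋀^Fin m]→L[ℝ] ℝ) :=
  (ContinuousAlternatingMap.compContinuousLinearMapCLM
      (ContinuousLinearMap.inl ℝ E (ℂ × ℝ))) ∘L
    ((ContinuousLinearMap.apply ℝ ((E × ℂ × ℝ) [⋀^Fin m]→L[ℝ] ℝ) w₂) ∘L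
    ((ContinuousAlternatingMap.curryLeftLI
      (𝕜 := ℝ) (E := E × ℂ × ℝ) (F := ℝ) (n := m)).toContinuousLinearMap ∘L
    ((ContinuousLinearMap.apply ℝ ((E × ℂ × ℝ) [⋀^Fin (m + 1)]→L[ℝ] ℝ) w₁) ∘L
    (ContinuousAlternatingMap.curryLeftLI
      (𝕜 := ℝ) (E := E × ℂ × ℝ) (F := ℝ) (n := m + 1)).toContinuousLinearMap)))

theorem insTwo_apply {m : ℕ} (w₁ w₂ : E × ℂ × ℝ)
    (f : (E × ℂ × ℝ) [⋀^Fin (m + 2)]→L[ℝ] ℝ) (v : Fin m → E) :
    insTwo w₁ w₂ f v =
      f (Matrix.vecCons w₁ (Matrix.vecCons w₂ fun j => ((v j, 0) : E × ℂ × ℝ))) := rfl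

/-- the integrand -/
noncomputable def avgInt {m : ℕ}
    (β : (E × ℂ × ℝ) → (E × ℂ × ℝ) [⋀^Fin (m + 2)]→L[ℝ] ℝ) (q : E × (Fin 2 → ℝ)) :
    E [⋀^Fin m]→L[ℝ] ℝ :=
  insTwo ((0 : E), dsph1 (q.2 0) (q.2 1)) ((0 : E), dsph2 (q.2 0) (q.2 1))
    (β (q.1, sph (q.2 0) (q.2 1)))

theorem contDiffOn_avgInt (M : QuotientManifold E Λ) {m : ℕ}
    (β : (E × ℂ × ℝ) → (E × ℂ × ℝ) [⋀^Fin (m + 2)]→L[ℝ] ℝ)
    (hβ : ContDiffOn ℝ 1 β (sphU M)) :
    ContDiffOn ℝ 1 (avgInt β) (M.U ×ˢ Set.univ) := by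
  have hq : ContDiff ℝ 1 (fun q : E × (Fin 2 → ℝ) => ((q.2 0, q.2 1) : ℝ × ℝ)) := by
    fun_prop
  have e0 : ContDiff ℝ 1 (fun q : ℝ × ℝ => sph q.1 q.2) := contDiff_sph.of_le (by simp)
  have e1 : ContDiff ℝ 1 (fun q : ℝ × ℝ => dsph1 q.1 q.2) := contDiff_dsph1.of_le (by simp)
  have e2 : ContDiff ℝ 1 (fun q : ℝ × ℝ => dsph2 q.1 q.2) := contDiff_dsph2.of_le (by simp)
  have e0' := e0.comp hq
  have e1' := e1.comp hq
  have e2' := e2.comp hq
  have h0 : ContDiff ℝ 1 (fun q : E × (Fin 2 → ℝ) =>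
      ((q.1, sph (q.2 0) (q.2 1)) : E × ℂ × ℝ)) := by
    have h0' := (contDiff_fst (𝕜 := ℝ) (E := E) (F := Fin 2 → ℝ) (n := 1)).prodMk e0'
    exact h0'
  have h1 : ContDiffOn ℝ 1 (fun q : E × (Fin 2 → ℝ) => β (q.1, sph (q.2 0) (q.2 1)))
      (M.U ×ˢ Set.univ) := by
    refine hβ.comp h0.contDiffOn ?_
    rintro ⟨x, s⟩ hx
    exact sph_mem M x hx.1 _ _
  have hw1 : ContDiff ℝ 1 (fun q : E × (Fin 2 → ℝ) =>
      (((0 : E), dsph1 (q.2 0) (q.2 1)) : E × ℂ × ℝ)) := by
    have hw1' := (contDiff_const (𝕜 := ℝ) (E := E × (Fin 2 → ℝ)) (c := (0 : E))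
      (n := 1)).prodMk e1'
    exact hw1'
  have hw2 : ContDiff ℝ 1 (fun q : E × (Fin 2 → ℝ) =>
      (((0 : E), dsph2 (q.2 0) (q.2 1)) : E × ℂ × ℝ)) := by
    have hw2' := (contDiff_const (𝕜 := ℝ) (E := E × (Fin 2 → ℝ)) (c := (0 : E))
      (n := 1)).prodMk e2'
    exact hw2'
  have h2 : ContDiffOn ℝ 1 (fun q : E × (Fin 2 → ℝ) =>
      (β (q.1, sph (q.2 0) (q.2 1))).curryLeft ((0 : E), dsph1 (q.2 0) (q.2 1)))
      (M.U ×ˢ Set.univ) := by
    have h2' : ContDiffOn ℝ 1 (fun q : E × (Fin 2 → ℝ) =>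
        (β (q.1, sph (q.2 0) (q.2 1))).curryLeft) (M.U ×ˢ Set.univ) := by
      have hT := LinearIsometry.contDiff (𝕜 := ℝ) (E := (E × ℂ × ℝ) [⋀^Fin (m + 1 + 1)]→L[ℝ] ℝ)
        (F := (E × ℂ × ℝ) →L[ℝ] (E × ℂ × ℝ) [⋀^Fin (m + 1)]→L[ℝ] ℝ) (n := 1)
        (ContinuousAlternatingMap.curryLeftLI
          (𝕜 := ℝ) (E := E × ℂ × ℝ) (F := ℝ) (n := m + 1))
      have h := hT.comp_contDiffOn h1
      exact h
    exact h2'.clm_apply hw1.contDiffOn
  have h3 : ContDiffOn ℝ 1 (fun q : E × (Fin 2 → ℝ) =>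
      ((β (q.1, sph (q.2 0) (q.2 1))).curryLeft ((0 : E), dsph1 (q.2 0) (q.2 1))).curryLeft
        ((0 : E), dsph2 (q.2 0) (q.2 1)))
      (M.U ×ˢ Set.univ) := by
    have h3' : ContDiffOn ℝ 1 (fun q : E × (Fin 2 → ℝ) =>
        ((β (q.1, sph (q.2 0) (q.2 1))).curryLeft
          ((0 : E), dsph1 (q.2 0) (q.2 1))).curryLeft) (M.U ×ˢ Set.univ) := by
      have hT := LinearIsometry.contDiff (𝕜 := ℝ) (E := (E × ℂ × ℝ) [⋀^Fin (m + 1)]→L[ℝ] ℝ)
        (F := (E × ℂ × ℝ) →L[ℝ] (E × ℂ × ℝ) [⋀^Fin m]→L[ℝ] ℝ) (n := 1)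
        (ContinuousAlternatingMap.curryLeftLI
          (𝕜 := ℝ) (E := E × ℂ × ℝ) (F := ℝ) (n := m))
      have h := hT.comp_contDiffOn h2
      exact h
    exact h3'.clm_apply hw2.contDiffOn
  have h4 : ContDiffOn ℝ 1 (fun q : E × (Fin 2 → ℝ) =>
      ContinuousAlternatingMap.compContinuousLinearMapCLM
        (ContinuousLinearMap.inl ℝ E (ℂ × ℝ))
      (((β (q.1, sph (q.2 0) (q.2 1))).curryLeft ((0 : E), dsph1 (q.2 0) (q.2 1))).curryLeft
        ((0 : E), dsph2 (q.2 0) (q.2 1))))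
      (M.U ×ˢ Set.univ) := by
    have hT := (ContinuousAlternatingMap.compContinuousLinearMapCLM (𝕜 := ℝ) (ι := Fin m)
        (F := ℝ) (ContinuousLinearMap.inl ℝ E (ℂ × ℝ))).contDiff (n := 1)
    have h := hT.comp_contDiffOn h3
    exact h
  refine h4.congr ?_
  intro q _
  ext v
  rfl

theorem fderiv_avgInt (M : QuotientManifold E Λ) {m : ℕ}
    (β : (E × ℂ × ℝ) → (E × ℂ × ℝ) [⋀^Fin (m + 2)]→L[ℝ] ℝ)
    (hβ : ContDiffOn ℝ 1 β (sphU M)) (x : E) (hx : x ∈ M.U) (s : Fin 2 → ℝ) (u : E) :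
    fderiv ℝ (avgInt β) (x, s) (u, 0) =
      insTwo ((0 : E), dsph1 (s 0) (s 1)) ((0 : E), dsph2 (s 0) (s 1))
        (fderiv ℝ β (x, sph (s 0) (s 1)) (u, 0)) := by
  have hU : IsOpen (M.U ×ˢ (Set.univ : Set (Fin 2 → ℝ))) := M.isOpen_U.prod isOpen_univ
  have hmem : ((x, s) : E × (Fin 2 → ℝ)) ∈ M.U ×ˢ (Set.univ : Set (Fin 2 → ℝ)) :=
    ⟨hx, Set.mem_univ _⟩
  have hd : DifferentiableAt ℝ (avgInt β) (x, s) :=
    ((contDiffOn_avgInt M β hβ).differentiableOn (by simp)).differentiableAt (hU.mem_nhds hmem)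
  have hdβ : DifferentiableAt ℝ β (x, sph (s 0) (s 1)) :=
    (hβ.differentiableOn (by simp)).differentiableAt
      ((isOpen_sphU M).mem_nhds (sph_mem M x hx _ _))
  have hc : HasFDerivAt (fun y : E => ((y, s) : E × (Fin 2 → ℝ)))
      (ContinuousLinearMap.inl ℝ E (Fin 2 → ℝ)) x :=
    (hasFDerivAt_id x).prodMk (hasFDerivAt_const s x)
  have hc' : HasFDerivAt (fun y : E => ((y, sph (s 0) (s 1)) : E × ℂ × ℝ))
      (ContinuousLinearMap.inl ℝ E (ℂ × ℝ)) x :=
    (hasFDerivAt_id x).prodMk (hasFDerivAt_const _ x)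
  have h1 : HasFDerivAt (avgInt β ∘ fun y : E => ((y, s) : E × (Fin 2 → ℝ)))
      (fderiv ℝ (avgInt β) (x, s) ∘L ContinuousLinearMap.inl ℝ E (Fin 2 → ℝ)) x :=
    HasFDerivAt.comp x (f := fun y : E => ((y, s) : E × (Fin 2 → ℝ))) hd.hasFDerivAt hc
  have h2 : HasFDerivAt (β ∘ fun y : E => ((y, sph (s 0) (s 1)) : E × ℂ × ℝ))
      (fderiv ℝ β (x, sph (s 0) (s 1)) ∘L ContinuousLinearMap.inl ℝ E (ℂ × ℝ)) x :=
    HasFDerivAt.comp x (f := fun y : E => ((y, sph (s 0) (s 1)) : E × ℂ × ℝ))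
      hdβ.hasFDerivAt hc'
  have h3 := (insTwo (m := m) ((0 : E), dsph1 (s 0) (s 1))
    ((0 : E), dsph2 (s 0) (s 1))).hasFDerivAt.comp x h2
  have h4 := h1.unique h3
  have h5 := congrArg (fun T : E →L[ℝ] (E [⋀^Fin m]→L[ℝ] ℝ) => T u) h4
  exact h5

/-! ### Rotations -/

theorem exp_two_pi_add (t h : ℝ) : Complex.exp (2 * Real.pi * h * Complex.I) *
    Complex.exp (2 * Real.pi * t * Complex.I) =
      Complex.exp (2 * Real.pi * ((t + h : ℝ) : ℂ) * Complex.I) := by
  rw [← Complex.exp_add]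
  congr 1
  push_cast
  ring

theorem sph_rot (s t h : ℝ) : sph s (t + h) =
    (Complex.exp (2 * Real.pi * h * Complex.I) * (sph s t).1, (sph s t).2) := by
  unfold sph
  rw [← exp_two_pi_add]
  ext1
  · simp only
    ring
  · rfl

theorem dsph1_rot (s t h : ℝ) : dsph1 s (t + h) =
    (Complex.exp (2 * Real.pi * h * Complex.I) * (dsph1 s t).1, (dsph1 s t).2) := by
  unfold dsph1
  rw [← exp_two_pi_add]
  ext1
  · simp only
    ring
  · rfl

theorem dsph2_rot (s t h : ℝ) : dsph2 s (t + h) =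
    (Complex.exp (2 * Real.pi * h * Complex.I) * (dsph2 s t).1, (dsph2 s t).2) := by
  unfold dsph2
  rw [← exp_two_pi_add]
  ext1
  · simp only
    ring
  · rfl

theorem exp_two_pi_one : Complex.exp (2 * Real.pi * ((1 : ℝ) : ℂ) * Complex.I) = 1 := by
  simp

theorem avgInt_periodic {m : ℕ} (β : (E × ℂ × ℝ) → (E × ℂ × ℝ) [⋀^Fin (m + 2)]→L[ℝ] ℝ) (y : E)
    (s t : ℝ) : avgInt β (y, ![s, t + 1]) = avgInt β (y, ![s, t]) := by
  unfold avgInt
  simp only [Matrix.cons_val_zero, Matrix.cons_val_one]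
  rw [sph_rot, dsph1_rot, dsph2_rot, exp_two_pi_one]
  simp only [one_mul, Prod.mk.eta]

/-- the integrand is invariant up to a rotation of the sphere -/
theorem avgInt_act (M : QuotientManifold E Λ) (L : ULine M) {m : ℕ}
    (β : (E × ℂ × ℝ) → (E × ℂ × ℝ) [⋀^Fin (m + 2)]→L[ℝ] ℝ) (hβ : IsForm1 (sphM M L) β)
    (l : Λ) (x : E) (hx : x ∈ M.U) (h : ℝ)
    (hh : L.J l x = Complex.exp (2 * Real.pi * h * Complex.I)) (s t : ℝ) (v : Fin m → E) :
    avgInt β (x, ![s, t]) v =
      avgInt β (M.act l x, ![s, t + h]) (fun j => fderiv ℝ (M.act l) x (v j)) := by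
  have hp : (x, sph s t) ∈ sphU M := sph_mem M x hx s t
  have hinv := hβ.2 l (x, sph s t) hp
  have hact : (sphM M L).act l (x, sph s t) = (M.act l x, sph s (t + h)) := by
    rw [sph_rot, ← hh]
    rfl
  unfold avgInt
  simp only [Matrix.cons_val_zero, Matrix.cons_val_one]
  rw [insTwo_apply, insTwo_apply, ← hinv, hact]
  rw [ContinuousAlternatingMap.compContinuousLinearMap_apply]
  set f := β (M.act l x, sph s (t + h)) with hf
  set r : Fin m → ℝ := fun j =>
    L.a x (v j) - L.a (M.act l x) (fderiv ℝ (M.act l) x (v j)) with hr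
  have hD : ∀ u : E × ℂ × ℝ, fderiv ℝ ((sphM M L).act l) (x, sph s t) u =
      (fderiv ℝ (M.act l) x u.1,
        fderiv ℝ (L.J l) x u.1 * (sph s t).1 + L.J l x * u.2.1, u.2.2) := fun u =>
    fderiv_sphAct M L l (x, sph s t) hp u
  have hD1 : fderiv ℝ ((sphM M L).act l) (x, sph s t) ((0 : E), dsph1 s t) =
      ((0 : E), dsph1 s (t + h)) := by
    rw [hD, dsph1_rot, ← hh]
    simp
  have hD2 : fderiv ℝ ((sphM M L).act l) (x, sph s t) ((0 : E), dsph2 s t) =
      ((0 : E), dsph2 s (t + h)) := by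
    rw [hD, dsph2_rot, ← hh]
    simp
  have hD3 : ∀ j, fderiv ℝ ((sphM M L).act l) (x, sph s t) (v j, 0) =
      ((fderiv ℝ (M.act l) x (v j), 0) : E × ℂ × ℝ) +
        (r j / (2 * Real.pi)) • ((0 : E), dsph2 s (t + h)) := by
    intro j
    rw [hD, dsph2_rot, ← hh]
    have hpi : (Real.pi : ℂ) ≠ 0 := by exact_mod_cast Real.pi_ne_zero
    refine Prod.ext ?_ (Prod.ext ?_ ?_)
    · simp
    · have h1 := L.a_compat l x hx (v j)
      simp only [Prod.fst_zero, mul_zero, add_zero, Prod.snd_add, Prod.smul_snd,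
        Prod.smul_fst, zero_add]
      rw [h1, Complex.real_smul]
      unfold sph dsph2
      simp only [hr]
      push_cast
      field_simp
    · unfold dsph2
      simp
  have hcomp : (⇑(fderiv ℝ ((sphM M L).act l) (x, sph s t)) ∘
      Matrix.vecCons ((0 : E), dsph1 s t)
        (Matrix.vecCons ((0 : E), dsph2 s t) fun j => ((v j, 0) : E × ℂ × ℝ))) =
      Matrix.vecCons ((0 : E), dsph1 s (t + h))
        (Matrix.vecCons ((0 : E), dsph2 s (t + h)) fun j =>
          ((fderiv ℝ (M.act l) x (v j), 0) : E × ℂ × ℝ) +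
            (r j / (2 * Real.pi)) • ((0 : E), dsph2 s (t + h))) := by
    funext i
    refine Fin.cases ?_ (fun i => ?_) i
    · simpa using hD1
    · refine Fin.cases ?_ (fun i => ?_) i
      · simpa using hD2
      · simpa using hD3 i
  rw [hcomp]
  exact curryLeft_add_smul (f.curryLeft ((0 : E), dsph1 s (t + h)))
    ((0 : E), dsph2 s (t + h)) (fun j => ((fderiv ℝ (M.act l) x (v j), 0) : E × ℂ × ℝ))
    (fun j => r j / (2 * Real.pi))

variable [FiniteDimensional ℝ E]

theorem exists_avgForm (M : QuotientManifold E Λ) (L : ULine M) {m : ℕ}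
    (β : (E × ℂ × ℝ) → (E × ℂ × ℝ) [⋀^Fin (m + 2)]→L[ℝ] ℝ) (hβ : IsForm1 (sphM M L) β) :
    ∃ β' : E → E [⋀^Fin m]→L[ℝ] ℝ, IsForm1 M β' ∧ ∀ x ∈ M.U, ∀ u : Fin (m + 1) → E,
      extDeriv β' x u = ∫ s in Set.Icc (0 : Fin 2 → ℝ) 1,
        ∑ i : Fin (m + 1), (-1 : ℝ) ^ (i : ℕ) *
          fderiv ℝ β (x, sph (s 0) (s 1)) (u i, 0)
            (Fin.append (fun j : Fin m => ((u (i.succAbove j), 0) : E × ℂ × ℝ))
              ![((0 : E), dsph1 (s 0) (s 1)), ((0 : E), dsph2 (s 0) (s 1))]) := by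
  have hC : ContDiffOn ℝ 1 (avgInt β) (M.U ×ˢ Set.univ) := contDiffOn_avgInt M β hβ.1
  have hU : IsOpen (M.U ×ˢ (Set.univ : Set (Fin 2 → ℝ))) := M.isOpen_U.prod isOpen_univ
  have hpar := contDiffOn_integral_cube M.isOpen_U (avgInt β) hC
  have hK : IsCompact (Set.Icc (0 : Fin 2 → ℝ) 1) := isCompact_Icc
  -- continuity of the integrand and of its derivative
  have hcont : ∀ x ∈ M.U, Continuous (fun s : Fin 2 → ℝ => avgInt β (x, s)) := by
    intro x hx
    rw [← continuousOn_univ]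
    refine hC.continuousOn.comp (f := fun s : Fin 2 → ℝ => ((x, s) : E × (Fin 2 → ℝ)))
      (Continuous.continuousOn (by fun_prop)) ?_
    intro s _
    exact ⟨hx, Set.mem_univ _⟩
  have hcontD : ∀ x ∈ M.U, Continuous (fun s : Fin 2 → ℝ => fderiv ℝ (avgInt β) (x, s)) := by
    intro x hx
    rw [← continuousOn_univ]
    refine (hC.continuousOn_fderiv_of_isOpen hU le_rfl).comp
      (f := fun s : Fin 2 → ℝ => ((x, s) : E × (Fin 2 → ℝ)))
      (Continuous.continuousOn (by fun_prop)) ?_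
    intro s _
    exact ⟨hx, Set.mem_univ _⟩
  -- evaluation of the averaged form
  have heval : ∀ x ∈ M.U, ∀ v : Fin m → E,
      (∫ s in Set.Icc (0 : Fin 2 → ℝ) 1, avgInt β (x, s)) v =
        ∫ s in Set.Icc (0 : Fin 2 → ℝ) 1, avgInt β (x, s) v := by
    intro x hx v
    have hint : IntegrableOn (fun s : Fin 2 → ℝ => avgInt β (x, s))
        (Set.Icc (0 : Fin 2 → ℝ) 1) := (hcont x hx).continuousOn.integrableOn_compact hK
    exact ((ContinuousAlternatingMap.apply ℝ E ℝ v).integral_comp_comm hint).symm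
  refine ⟨fun x => ∫ s in Set.Icc (0 : Fin 2 → ℝ) 1, avgInt β (x, s), ⟨hpar.1, ?_⟩, ?_⟩
  · -- invariance
    intro l x hx
    ext v
    rw [ContinuousAlternatingMap.compContinuousLinearMap_apply, heval x hx,
      heval (M.act l x) (M.mapsTo l x hx)]
    have hcv : ∀ y ∈ M.U, ∀ w : Fin m → E, Continuous (fun s : Fin 2 → ℝ => avgInt β (y, s) w) :=
      fun y hy w => (ContinuousAlternatingMap.apply ℝ E ℝ w).continuous.comp (hcont y hy)
    rw [integral_cube_two _ (hcv _ (M.mapsTo l x hx) _).continuousOn,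
      integral_cube_two _ (hcv x hx v).continuousOn]
    refine intervalIntegral.integral_congr fun s _ => ?_
    set h : ℝ := Complex.arg (L.J l x) / (2 * Real.pi) with hh
    have hJ : L.J l x = Complex.exp (2 * Real.pi * h * Complex.I) := by
      have h1 : (‖L.J l x‖ : ℂ) * Complex.exp (Complex.arg (L.J l x) * Complex.I) = L.J l x :=
        Complex.norm_mul_exp_arg_mul_I (L.J l x)
      have hpi : (Real.pi : ℂ) ≠ 0 := by exact_mod_cast Real.pi_ne_zero
      have h2 : (2 * Real.pi * (h : ℂ) * Complex.I) = Complex.arg (L.J l x) * Complex.I := by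
        rw [hh]
        push_cast
        field_simp
      rw [h2]
      rw [L.norm_J l x hx, Complex.ofReal_one, one_mul] at h1
      exact h1.symm
    have hper : Function.Periodic (fun t : ℝ => avgInt β (M.act l x, ![s, t])
        (fun j => fderiv ℝ (M.act l) x (v j))) 1 := by
      intro t
      simp only
      rw [avgInt_periodic]
    have h1 : ∀ t, avgInt β (x, ![s, t]) v =
        (fun t : ℝ => avgInt β (M.act l x, ![s, t])
          (fun j => fderiv ℝ (M.act l) x (v j))) (t + h) := fun t =>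
      avgInt_act M L β hβ l x hx h hJ s t v
    simp_rw [h1]
    rw [intervalIntegral.integral_comp_add_right (fun t : ℝ => avgInt β (M.act l x, ![s, t])
          (fun j => fderiv ℝ (M.act l) x (v j)))]
    have h2 := hper.intervalIntegral_add_eq 0 (0 + h)
    rw [zero_add] at h2
    rw [add_comm 1 h, zero_add]
    rw [zero_add] at h2
    exact h2
  · intro x hx u
    have hint : ∀ i : Fin (m + 1), IntegrableOn
        (fun s : Fin 2 → ℝ => fderiv ℝ (avgInt β) (x, s) (u i, 0))
        (Set.Icc (0 : Fin 2 → ℝ) 1) := fun i =>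
      ((hcontD x hx).clm_apply continuous_const).continuousOn.integrableOn_compact hK
    have h1 : ∀ i : Fin (m + 1),
        (fderiv ℝ (fun x => ∫ s in Set.Icc (0 : Fin 2 → ℝ) 1, avgInt β (x, s)) x (u i))
          (i.removeNth u) =
        ∫ s in Set.Icc (0 : Fin 2 → ℝ) 1, fderiv ℝ (avgInt β) (x, s) (u i, 0)
          (i.removeNth u) := by
      intro i
      rw [hpar.2 x hx (u i)]
      exact ((ContinuousAlternatingMap.apply ℝ E ℝ (i.removeNth u)).integral_comp_comm
        (hint i)).symm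
    have h2 : ∀ i : Fin (m + 1), IntegrableOn
        (fun s : Fin 2 → ℝ => (-1 : ℝ) ^ (i : ℕ) * fderiv ℝ (avgInt β) (x, s) (u i, 0)
          (i.removeNth u))
        (Set.Icc (0 : Fin 2 → ℝ) 1) := fun i =>
      (((ContinuousAlternatingMap.apply ℝ E ℝ (i.removeNth u)).continuous.comp
        ((hcontD x hx).clm_apply continuous_const)).continuousOn.integrableOn_compact
          hK).const_mul _
    rw [extDeriv, ContinuousAlternatingMap.alternatizeUncurryFin_apply]
    have h3 : ∀ s : Fin 2 → ℝ, ∑ i : Fin (m + 1), (-1 : ℝ) ^ (i : ℕ) *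
          fderiv ℝ β (x, sph (s 0) (s 1)) (u i, 0)
            (Fin.append (fun j : Fin m => ((u (i.succAbove j), 0) : E × ℂ × ℝ))
              ![((0 : E), dsph1 (s 0) (s 1)), ((0 : E), dsph2 (s 0) (s 1))]) =
        ∑ i : Fin (m + 1), (-1 : ℝ) ^ (i : ℕ) * fderiv ℝ (avgInt β) (x, s) (u i, 0)
          (i.removeNth u) := by
      intro s
      refine Finset.sum_congr rfl fun i _ => ?_
      rw [fderiv_avgInt M β hβ.1 x hx s (u i), insTwo_apply, append_two_eq]
      rfl
    simp_rw [h3]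
    rw [integral_finsetSum _ fun i _ => h2 i]
    refine Finset.sum_congr rfl fun i _ => ?_
    rw [h1 i, integral_const_mul]
    simp

end

end Pool.Agent.HAF2
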