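import Pool.Agent.HAF2.SphAvg
import Pool.Agent.HAF2.Fub

/-!
# Module SPC: the sphere bundle over a cycle is a cycle

For an invariant `(N + 1)`-form `β` of class `C^1` on the sphere bundle and a cube `c` of the
cycle, expand `extDeriv β (c', sph) (∂_0, ..., ∂_{N-1}, ∂_s, ∂_t)` as
`∑ i (-1)^i D β (∂_i) (...)`.

* The last two terms: for fixed `x = c ξ` they are the exterior derivative of the one form
  `B (s, t) w = β (x, sph s t) (∂_0 c, ..., ∂_{N-1} c, D sph w)` on the square, up to the sign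
  `(-1)^N`. By Stokes its integral is a boundary integral, which vanishes: `dsph2` vanishes for
  `s = 0, 1`, and `sph` has period `1` in `t`.
* The first `N` terms: for `N = 0` there are none. For `N = m + 1` their integral over `s, t` is
  `extDeriv β'` of the averaged form of `exists_avgForm`, whose integral over the cycle vanishes.
-/

namespace Pool.Agent.HAF2

open Filter Topology MeasureTheory
open scoped ContDiff ComplexConjugate
open Pool.Agent.HaefligerClasses (QuotientManifold IsForm HaefligerStructure curvature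
  torusElement)

private theorem update_append_last {F : Type*} {m : ℕ} (v : Fin m → F) (a b : F) :
    Function.update (Fin.append v ![a]) (Fin.last m) b = Fin.append v ![b] := by
  funext j
  refine Fin.lastCases ?_ (fun i => ?_) j
  · rw [Function.update_self]
    exact (Fin.append_right v ![b] 0).symm
  · rw [Function.update_of_ne (Fin.castSucc_lt_last i).ne]
    rw [show (Fin.castSucc i) = Fin.castAdd 1 i from rfl, Fin.append_left, Fin.append_left]

private theorem hasFDerivAt_append {G F : Type*} [NormedAddCommGroup G] [NormedSpace ℝ G]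
    [NormedAddCommGroup F] [NormedSpace ℝ F] {m : ℕ} (β : F → F [⋀^Fin (m + 1)]→L[ℝ] ℝ)
    (v : Fin m → F) (p W : G → F) (x : G) (p' W' : G →L[ℝ] F)
    (hβ : DifferentiableAt ℝ β (p x)) (hp : HasFDerivAt p p' x) (hW : HasFDerivAt W W' x) :
    ∃ f' : G →L[ℝ] ℝ, HasFDerivAt (fun y => β (p y) (Fin.append v ![W y])) f' x ∧
      ∀ h, f' h = fderiv ℝ β (p x) (p' h) (Fin.append v ![W x]) +
        β (p x) (Fin.append v ![W' h]) := by
  have h1 : HasFDerivAt (fun y => β (p y)) (fderiv ℝ β (p x) ∘L p') x :=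
    hβ.hasFDerivAt.comp x hp
  have h3 : ∀ i : Fin (m + 1), HasFDerivAt (fun y => Fin.append v ![W y] i)
      (Fin.append (fun _ : Fin m => (0 : G →L[ℝ] F)) ![W'] i) x := by
    intro i
    refine Fin.lastCases ?_ (fun i => ?_) i
    · have e1 : (fun y => Fin.append v ![W y] (Fin.last m)) = W := by
        funext y
        exact Fin.append_right v ![W y] 0
      have e2 : Fin.append (fun _ : Fin m => (0 : G →L[ℝ] F)) ![W'] (Fin.last m) = W' :=
        Fin.append_right _ ![W'] 0
      rw [e1, e2]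
      exact hW
    · have e1 : (fun y => Fin.append v ![W y] (Fin.castSucc i)) = fun _ => v i := by
        funext y
        exact Fin.append_left v ![W y] i
      have e2 : Fin.append (fun _ : Fin m => (0 : G →L[ℝ] F)) ![W'] (Fin.castSucc i) = 0 :=
        Fin.append_left _ ![W'] i
      rw [e1, e2]
      exact hasFDerivAt_const _ _
  have h4 := HasFDerivAt.continuousAlternatingMap_apply h1 h3
  refine ⟨_, h4, fun h => ?_⟩
  rw [add_apply, sum_apply]
  congr 1
  rw [Fin.sum_univ_castSucc, Finset.sum_eq_zero, zero_add]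
  · show (β (p x)) (Function.update _ (Fin.last m) _) = _
    have e2 : Fin.append (fun _ : Fin m => (0 : G →L[ℝ] F)) ![W'] (Fin.last m) = W' :=
        Fin.append_right _ ![W'] 0
    rw [e2]
    have e3 := update_append_last v (W x) (W' h)
    exact congrArg (β (p x)) e3
  · intro i _
    show (β (p x)) (Function.update _ (Fin.castSucc i) _) = 0
    have e2 : Fin.append (fun _ : Fin m => (0 : G →L[ℝ] F)) ![W'] (Fin.castSucc i) = 0 :=
        Fin.append_left _ ![W'] i
    rw [e2]
    exact ContinuousAlternatingMap.map_coord_zero _ (Fin.castSucc i) (by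
      rw [Function.update_self]; rfl)

section

variable {E : Type} [NormedAddCommGroup E] [NormedSpace ℝ E] {Λ : Type} [AddGroup Λ]

/-- projection of the cube on the first coordinates -/
private noncomputable def prA (N : ℕ) : (Fin (N + 2) → ℝ) →L[ℝ] (Fin N → ℝ) :=
  ContinuousLinearMap.pi fun i => ContinuousLinearMap.proj (Fin.castAdd 2 i)

/-- projection of the cube on the last two coordinates -/
private noncomputable def prB (N : ℕ) : (Fin (N + 2) → ℝ) →L[ℝ] ℝ × ℝ :=
  (ContinuousLinearMap.proj (Fin.natAdd N 0)).prod (ContinuousLinearMap.proj (Fin.natAdd N 1))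

private theorem sphCube_eq {N : ℕ} (c : (Fin N → ℝ) → E) :
    sphCube c = fun ξ => (c (prA N ξ), sph (prB N ξ).1 (prB N ξ).2) := rfl

theorem contDiff_sphCube {N : ℕ} (c : (Fin N → ℝ) → E) (hc : ContDiff ℝ ∞ c) :
    ContDiff ℝ ∞ (sphCube c) := by
  have h1 : ContDiff ℝ ∞ (fun ξ => c (prA N ξ)) := hc.comp (prA N).contDiff
  have h2 : ContDiff ℝ ∞ (fun ξ => sph (prB N ξ).1 (prB N ξ).2) :=
    contDiff_sph.comp (prB N).contDiff
  rw [sphCube_eq]
  exact h1.prodMk h2

private theorem hasFDerivAt_sphCube {N : ℕ} (c : (Fin N → ℝ) → E) (hc : ContDiff ℝ ∞ c)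
    (ξ : Fin (N + 2) → ℝ) :
    HasFDerivAt (sphCube c) (((fderiv ℝ c (prA N ξ)) ∘L prA N).prod
      ((fderiv ℝ (fun q : ℝ × ℝ => sph q.1 q.2) (prB N ξ)) ∘L prB N)) ξ := by
  have h1 : HasFDerivAt c (fderiv ℝ c (prA N ξ)) (prA N ξ) :=
    ((hc.differentiable (by simp)) _).hasFDerivAt
  have h2 : HasFDerivAt (fun q : ℝ × ℝ => sph q.1 q.2)
      (fderiv ℝ (fun q : ℝ × ℝ => sph q.1 q.2) (prB N ξ)) (prB N ξ) :=
    ((contDiff_sph.differentiable (by simp)) _).hasFDerivAt
  have h3 := h1.comp ξ (prA N).hasFDerivAt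
  have h4 := h2.comp ξ (prB N).hasFDerivAt
  rw [sphCube_eq]
  exact h3.prodMk h4

private theorem fderiv_sphCube_apply {N : ℕ} (c : (Fin N → ℝ) → E) (hc : ContDiff ℝ ∞ c)
    (ξ v : Fin (N + 2) → ℝ) :
    fderiv ℝ (sphCube c) ξ v = (fderiv ℝ c (fun i => ξ (Fin.castAdd 2 i))
      (fun i => v (Fin.castAdd 2 i)), v (Fin.natAdd N 0) •
        dsph1 (ξ (Fin.natAdd N 0)) (ξ (Fin.natAdd N 1)) + v (Fin.natAdd N 1) •
        dsph2 (ξ (Fin.natAdd N 0)) (ξ (Fin.natAdd N 1))) := by
  rw [(hasFDerivAt_sphCube c hc ξ).fderiv]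
  show (fderiv ℝ c (prA N ξ) (prA N v), fderiv ℝ (fun q : ℝ × ℝ => sph q.1 q.2)
    (ξ (Fin.natAdd N 0), ξ (Fin.natAdd N 1)) (v (Fin.natAdd N 0), v (Fin.natAdd N 1))) = _
  rw [fderiv_sph]
  rfl

theorem fderiv_sphCube_base {N : ℕ} (c : (Fin N → ℝ) → E) (hc : ContDiff ℝ ∞ c)
    (ξ : Fin (N + 2) → ℝ) (i : Fin N) :
    fderiv ℝ (sphCube c) ξ (Pi.single (Fin.castAdd 2 i) 1) =
      (fderiv ℝ c (fun i => ξ (Fin.castAdd 2 i)) (Pi.single i 1), 0) := by
  rw [fderiv_sphCube_apply c hc]
  have h0 : (Pi.single (Fin.castAdd 2 i) (1 : ℝ) : Fin (N + 2) → ℝ) (Fin.natAdd N 0) = 0 := by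
    apply Pi.single_eq_of_ne
    intro h
    have := congrArg Fin.val h
    simp only [Fin.val_natAdd, Fin.val_castAdd] at this
    omega
  have h1 : (Pi.single (Fin.castAdd 2 i) (1 : ℝ) : Fin (N + 2) → ℝ) (Fin.natAdd N 1) = 0 := by
    apply Pi.single_eq_of_ne
    intro h
    have := congrArg Fin.val h
    simp only [Fin.val_natAdd, Fin.val_castAdd] at this
    omega
  have h2 : (fun j => (Pi.single (Fin.castAdd 2 i) (1 : ℝ) : Fin (N + 2) → ℝ)
      (Fin.castAdd 2 j)) = Pi.single i 1 := by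
    funext j
    by_cases hj : j = i
    · rw [hj, Pi.single_eq_same, Pi.single_eq_same]
    · rw [Pi.single_eq_of_ne hj, Pi.single_eq_of_ne]
      intro h
      exact hj (Fin.castAdd_injective N 2 h)
  rw [h0, h1, h2, zero_smul, zero_smul, add_zero]

theorem fderiv_sphCube_one {N : ℕ} (c : (Fin N → ℝ) → E) (hc : ContDiff ℝ ∞ c)
    (ξ : Fin (N + 2) → ℝ) :
    fderiv ℝ (sphCube c) ξ (Pi.single (Fin.natAdd N 0) 1) =
      (0, dsph1 (ξ (Fin.natAdd N 0)) (ξ (Fin.natAdd N 1))) := by
  rw [fderiv_sphCube_apply c hc]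
  have h1 : (Pi.single (Fin.natAdd N 0) (1 : ℝ) : Fin (N + 2) → ℝ) (Fin.natAdd N 1) = 0 := by
    apply Pi.single_eq_of_ne
    intro h
    have := congrArg Fin.val h
    simp at this
  have h2 : (fun j => (Pi.single (Fin.natAdd N 0) (1 : ℝ) : Fin (N + 2) → ℝ)
      (Fin.castAdd 2 j)) = 0 := by
    funext j
    rw [Pi.single_eq_of_ne]
    · rfl
    intro h
    have := congrArg Fin.val h
    simp only [Fin.val_natAdd, Fin.val_castAdd] at this
    omega
  rw [h1, h2, Pi.single_eq_same, one_smul, zero_smul, add_zero, map_zero]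

theorem fderiv_sphCube_two {N : ℕ} (c : (Fin N → ℝ) → E) (hc : ContDiff ℝ ∞ c)
    (ξ : Fin (N + 2) → ℝ) :
    fderiv ℝ (sphCube c) ξ (Pi.single (Fin.natAdd N 1) 1) =
      (0, dsph2 (ξ (Fin.natAdd N 0)) (ξ (Fin.natAdd N 1))) := by
  rw [fderiv_sphCube_apply c hc]
  have h1 : (Pi.single (Fin.natAdd N 1) (1 : ℝ) : Fin (N + 2) → ℝ) (Fin.natAdd N 0) = 0 := by
    apply Pi.single_eq_of_ne
    intro h
    have := congrArg Fin.val h
    simp at this
  have h2 : (fun j => (Pi.single (Fin.natAdd N 1) (1 : ℝ) : Fin (N + 2) → ℝ)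
      (Fin.castAdd 2 j)) = 0 := by
    funext j
    rw [Pi.single_eq_of_ne]
    · rfl
    intro h
    have := congrArg Fin.val h
    simp only [Fin.val_natAdd, Fin.val_castAdd] at this
    omega
  rw [h1, h2, Pi.single_eq_same, one_smul, zero_smul, zero_add, map_zero]

end

private theorem continuous_append {X F : Type*} [TopologicalSpace X] [TopologicalSpace F] {m : ℕ}
    (v : Fin m → F) (W : X → F) (hW : Continuous W) :
    Continuous (fun y => Fin.append v ![W y]) := by
  refine continuous_pi fun i => ?_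
  refine Fin.lastCases ?_ (fun i => ?_) i
  · have e1 : (fun y => Fin.append v ![W y] (Fin.last m)) = W := by
      funext y
      exact Fin.append_right v ![W y] 0
    rw [e1]
    exact hW
  · have e1 : (fun y => Fin.append v ![W y] (Fin.castSucc i)) = fun _ => v i := by
      funext y
      exact Fin.append_left v ![W y] i
    rw [e1]
    exact continuous_const

section

variable {E : Type} [NormedAddCommGroup E] [NormedSpace ℝ E] {Λ : Type} [AddGroup Λ]

private theorem dsph2_zero (t : ℝ) : dsph2 0 t = 0 := by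
  unfold dsph2
  simp

private theorem dsph2_one (t : ℝ) : dsph2 1 t = 0 := by
  unfold dsph2
  simp

private theorem exp_period : Complex.exp (2 * Real.pi * ((1 : ℝ) : ℂ) * Complex.I) =
    Complex.exp (2 * Real.pi * ((0 : ℝ) : ℂ) * Complex.I) := by
  rw [Complex.ofReal_one, mul_one, Complex.exp_two_pi_mul_I]
  simp

private theorem sph_period (s : ℝ) : sph s 1 = sph s 0 := by
  unfold sph
  rw [exp_period]

private theorem dsph1_period (s : ℝ) : dsph1 s 1 = dsph1 s 0 := by
  unfold dsph1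
  rw [exp_period]

/-- the vertical part: Stokes on the sphere -/
theorem integral_sph_vertical [FiniteDimensional ℝ E] (M : QuotientManifold E Λ) {m : ℕ}
    (β : (E × ℂ × ℝ) → (E × ℂ × ℝ) [⋀^Fin (m + 1)]→L[ℝ] ℝ)
    (hβ : ContDiffOn ℝ 1 β (sphU M)) (x : E) (hx : x ∈ M.U) (v : Fin m → E × ℂ × ℝ) :
    ∫ s in Set.Icc (0 : Fin 2 → ℝ) 1,
      (fderiv ℝ β (x, sph (s 0) (s 1)) ((0 : E), dsph1 (s 0) (s 1))
          (Fin.append v ![((0 : E), dsph2 (s 0) (s 1))]) -
        fderiv ℝ β (x, sph (s 0) (s 1)) ((0 : E), dsph2 (s 0) (s 1))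
          (Fin.append v ![((0 : E), dsph1 (s 0) (s 1))])) = 0 := by
  set q : (Fin 2 → ℝ) → E × ℂ × ℝ := fun s => (x, sph (s 0) (s 1)) with hq
  have hqs : q = sphCube (N := 0) (fun _ => x) := rfl
  have hqc : ContDiff ℝ ∞ q := by
    rw [hqs]
    exact contDiff_sphCube (N := 0) (fun _ => x) contDiff_const
  have hd0 : ∀ s : Fin 2 → ℝ, fderiv ℝ q s (Pi.single 0 1) = ((0 : E), dsph1 (s 0) (s 1)) :=
    fun s => fderiv_sphCube_one (N := 0) (fun _ => x) contDiff_const s
  have hd1 : ∀ s : Fin 2 → ℝ, fderiv ℝ q s (Pi.single 1 1) = ((0 : E), dsph2 (s 0) (s 1)) :=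
    fun s => fderiv_sphCube_two (N := 0) (fun _ => x) contDiff_const s
  have hmem : ∀ s, q s ∈ sphU M := fun s => sph_mem M x hx (s 0) (s 1)
  have hβd : ∀ s, DifferentiableAt ℝ β (q s) := fun s =>
    (hβ.differentiableOn one_ne_zero).differentiableAt ((isOpen_sphU M).mem_nhds (hmem s))
  -- the second derivative
  have hqc2 : ContDiff ℝ 2 q := by exact_mod_cast contDiff_infty.1 hqc 2
  have hq2 : ContDiff ℝ 1 (fderiv ℝ q) := hqc2.fderiv_right one_add_one_eq_two.le
  have hq2d : ∀ s, HasFDerivAt (fderiv ℝ q) (fderiv ℝ (fderiv ℝ q) s) s := fun s =>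
    ((hq2.differentiable one_ne_zero) s).hasFDerivAt
  have hW : ∀ (w : Fin 2 → ℝ) (s : Fin 2 → ℝ), HasFDerivAt (fun y => fderiv ℝ q y w)
      ((ContinuousLinearMap.apply ℝ (E × ℂ × ℝ) w) ∘L fderiv ℝ (fderiv ℝ q) s) s := fun w s =>
    (ContinuousLinearMap.apply ℝ (E × ℂ × ℝ) w).hasFDerivAt.comp s (hq2d s)
  have hsymm : ∀ s (a b : Fin 2 → ℝ), fderiv ℝ (fderiv ℝ q) s a b = fderiv ℝ (fderiv ℝ q) s b a :=
    fun s a b => (hqc2.contDiffAt.isSymmSndFDerivAt (by simp)) a b
  have hqd : ∀ s, HasFDerivAt q (fderiv ℝ q s) s := fun s =>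
    ((hqc.differentiable (by simp)) s).hasFDerivAt
  -- the two functions
  set g : (Fin 2 → ℝ) → (Fin 2 → ℝ) → ℝ := fun w s =>
    β (q s) (Fin.append v ![fderiv ℝ q s w]) with hg
  have hgd : ∀ (w s : Fin 2 → ℝ), ∃ f' : (Fin 2 → ℝ) →L[ℝ] ℝ, HasFDerivAt (g w) f' s ∧
      ∀ h, f' h = fderiv ℝ β (q s) (fderiv ℝ q s h) (Fin.append v ![fderiv ℝ q s w]) +
        β (q s) (Fin.append v ![fderiv ℝ (fderiv ℝ q) s h w]) := fun w s =>
    hasFDerivAt_append β v q (fun y => fderiv ℝ q y w) s _ _ (hβd s) (hqd s) (hW w s)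
  set I : (Fin 2 → ℝ) → ℝ := fun s =>
    fderiv ℝ β (q s) (fderiv ℝ q s (Pi.single 0 1)) (Fin.append v ![fderiv ℝ q s (Pi.single 1 1)]) -
    fderiv ℝ β (q s) (fderiv ℝ q s (Pi.single 1 1)) (Fin.append v ![fderiv ℝ q s (Pi.single 0 1)])
    with hI
  have hgoal : ∫ s in Set.Icc (0 : Fin 2 → ℝ) 1, I s = 0 := by
    set f : Fin 2 → (Fin 2 → ℝ) → ℝ := ![g (Pi.single 1 1), fun s => - g (Pi.single 0 1) s] with hf
    have hfd : ∀ i s, DifferentiableAt ℝ (f i) s := by
      intro i s
      fin_cases i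
      · obtain ⟨f', h1, -⟩ := hgd (Pi.single 1 1) s
        exact h1.differentiableAt
      · obtain ⟨f', h1, -⟩ := hgd (Pi.single 0 1) s
        exact h1.differentiableAt.neg
    have hsum : ∀ s, ∑ i, fderiv ℝ (f i) s (Pi.single i 1) = I s := by
      intro s
      obtain ⟨f0, h0, h0'⟩ := hgd (Pi.single 1 1) s
      obtain ⟨f1, h1, h1'⟩ := hgd (Pi.single 0 1) s
      rw [Fin.sum_univ_two]
      have e0 : fderiv ℝ (f 0) s = f0 := h0.fderiv
      have e1 : fderiv ℝ (f 1) s = -f1 := h1.neg.fderiv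
      rw [e0, e1, neg_apply, h0', h1', hsymm s (Pi.single 0 1) (Pi.single 1 1)]
      rw [hI]
      ring
    have hcI : Continuous I := by
      have hF : Continuous (fun s => fderiv ℝ β (q s)) :=
        ContinuousOn.comp_continuous
          (hβ.continuousOn_fderiv_of_isOpen (isOpen_sphU M) le_rfl) hqc.continuous hmem
      have hw : ∀ w : Fin 2 → ℝ, Continuous (fun s => fderiv ℝ q s w) := fun w =>
        hq2.continuous.clm_apply continuous_const
      have h2 : ∀ w w' : Fin 2 → ℝ, Continuous (fun s => fderiv ℝ β (q s) (fderiv ℝ q s w)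
          (Fin.append v ![fderiv ℝ q s w'])) := fun w w' =>
        (hF.clm_apply (hw w)).eval (continuous_append v _ (hw w'))
      exact (h2 _ _).sub (h2 _ _)
    have hdiv := integral_divergence_of_hasFDerivAt_off_countable' (0 : Fin 2 → ℝ) 1
      (by intro i; simp) f (fun i s => fderiv ℝ (f i) s) ∅ Set.countable_empty
      (fun i => (fun s _ => (hfd i s).continuousAt.continuousWithinAt))
      (fun s _ i => (hfd i s).hasFDerivAt)
      (by
        have e : (fun s => ∑ i, fderiv ℝ (f i) s (Pi.single i 1)) = I := funext hsum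
        rw [e]
        exact hcI.continuousOn.integrableOn_compact isCompact_Icc)
    have e : (fun s => ∑ i, fderiv ℝ (f i) s (Pi.single i 1)) = I := funext hsum
    rw [e] at hdiv
    rw [hdiv, Fin.sum_univ_two]
    have hz0 : ∀ (c : ℝ) (y : Fin 1 → ℝ), (c = 0 ∨ c = 1) →
        f 0 (Fin.insertNth (α := fun _ => ℝ) 0 c y) = 0 := by
      intro c y hc
      show β _ (Fin.append v ![fderiv ℝ q _ (Pi.single 1 1)]) = 0
      rw [hd1]
      have h3 : dsph2 ((Fin.insertNth (α := fun _ => ℝ) 0 c y : Fin 2 → ℝ) 0)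
          ((Fin.insertNth (α := fun _ => ℝ) 0 c y : Fin 2 → ℝ) 1) = 0 := by
        rw [Fin.insertNth_apply_same]
        rcases hc with rfl | rfl
        · exact dsph2_zero _
        · exact dsph2_one _
      rw [h3]
      exact ContinuousAlternatingMap.map_coord_zero _ (Fin.natAdd m 0)
        (Fin.append_right v ![((0 : E), (0 : ℂ × ℝ))] 0)
    have hz1 : ∀ y : Fin 1 → ℝ, f 1 (Fin.insertNth (α := fun _ => ℝ) 1 1 y) =
        f 1 (Fin.insertNth (α := fun _ => ℝ) 1 0 y) := by
      intro y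
      have e0 : ∀ c : ℝ, (Fin.insertNth (α := fun _ => ℝ) 1 c y : Fin 2 → ℝ) 1 = c := fun c =>
        Fin.insertNth_apply_same _ _ _
      have e1 : ∀ c : ℝ, (Fin.insertNth (α := fun _ => ℝ) 1 c y : Fin 2 → ℝ) 0 = y 0 := fun c =>
        Fin.insertNth_apply_succAbove (α := fun _ => ℝ) 1 c y 0
      show - g (Pi.single 0 1) _ = - g (Pi.single 0 1) _
      rw [hg]
      simp only
      rw [hd0, hd0, hq]
      simp only
      rw [e0, e0, e1, e1, sph_period, dsph1_period]
    have h4 : ∀ (S : Set (Fin 1 → ℝ)), (∫ y in S, f 0 (Fin.insertNth (α := fun _ => ℝ) 0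
        ((1 : Fin 2 → ℝ) 0) y)) = 0 := by
      intro S
      simp only [Pi.one_apply]
      rw [integral_congr_ae (ae_of_all _ (fun y => hz0 1 y (Or.inr rfl)))]
      simp
    have h5 : ∀ (S : Set (Fin 1 → ℝ)), (∫ y in S, f 0 (Fin.insertNth (α := fun _ => ℝ) 0
        ((0 : Fin 2 → ℝ) 0) y)) = 0 := by
      intro S
      simp only [Pi.zero_apply]
      rw [integral_congr_ae (ae_of_all _ (fun y => hz0 0 y (Or.inl rfl)))]
      simp
    have h6 : ∀ (S : Set (Fin 1 → ℝ)), (∫ y in S, f 1 (Fin.insertNth (α := fun _ => ℝ) 1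
        ((1 : Fin 2 → ℝ) 1) y)) = ∫ y in S, f 1 (Fin.insertNth (α := fun _ => ℝ) 1
        ((0 : Fin 2 → ℝ) 1) y) := by
      intro S
      simp only [Pi.zero_apply, Pi.one_apply]
      exact integral_congr_ae (ae_of_all _ (fun y => hz1 y))
    rw [h4, h5, h6]
    ring
  rw [← hgoal]
  congr 1
  funext s
  rw [hI]
  simp only
  rw [hd0, hd1]

end

private theorem removeNth_last {F : Type*} {N : ℕ} (w : Fin N → F) (a b : F) :
    (Fin.last (N + 1)).removeNth (α := fun _ => F) (Fin.append (m := N) (n := 2) w ![a, b]) =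
      Fin.append w ![a] := by
  funext j
  show Fin.append (m := N) (n := 2) w ![a, b] ((Fin.last (N + 1)).succAbove j) = _
  rw [Fin.succAbove_last]
  refine Fin.lastCases ?_ (fun i => ?_) j
  · rw [show Fin.castSucc (Fin.last N) = Fin.natAdd N (0 : Fin 2) from rfl, Fin.append_right]
    exact (Fin.append_right w ![a] 0).symm
  · rw [show Fin.castSucc (Fin.castSucc i) = Fin.castAdd 2 i from rfl, Fin.append_left]
    exact (Fin.append_left w ![a] i).symm

private theorem removeNth_prev {F : Type*} {N : ℕ} (w : Fin N → F) (a b : F) :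
    (Fin.castSucc (Fin.last N)).removeNth (α := fun _ => F) (Fin.append (m := N) (n := 2) w ![a, b]) =
      Fin.append w ![b] := by
  funext j
  show Fin.append (m := N) (n := 2) w ![a, b] ((Fin.castSucc (Fin.last N)).succAbove j) = _
  refine Fin.lastCases ?_ (fun i => ?_) j
  · have e : (Fin.castSucc (Fin.last N)).succAbove (Fin.last N) = Fin.natAdd N (1 : Fin 2) := by
      rw [Fin.succAbove_of_le_castSucc _ _ le_rfl]
      rfl
    rw [e, Fin.append_right]
    exact (Fin.append_right w ![b] 0).symm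
  · have e : (Fin.castSucc (Fin.last N)).succAbove (Fin.castSucc i) = Fin.castAdd 2 i := by
      rw [Fin.succAbove_of_castSucc_lt _ _ (by
        rw [Fin.castSucc_lt_castSucc_iff]
        exact Fin.castSucc_lt_last i)]
      rfl
    rw [e, Fin.append_left]
    exact (Fin.append_left w ![b] i).symm

private theorem removeNth_base {F : Type*} {m : ℕ} (w : Fin (m + 1) → F) (a b : F)
    (i : Fin (m + 1)) :
    (Fin.castAdd 2 i).removeNth (α := fun _ => F) (Fin.append (m := m + 1) (n := 2) w ![a, b]) =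
      Fin.append (m := m) (n := 2) (fun j : Fin m => w (i.succAbove j)) ![a, b] := by
  have hi : (i : ℕ) ≤ m := Nat.lt_succ_iff.1 i.2
  funext j
  show Fin.append (m := m + 1) (n := 2) w ![a, b] ((Fin.castAdd 2 i : Fin (m + 1 + 2)).succAbove j) = _
  have key : ∀ j : Fin (m + 2), Fin.append (m := m + 1) (n := 2) w ![a, b]
      ((Fin.castAdd 2 i : Fin (m + 1 + 2)).succAbove j) =
      Fin.append (m := m) (n := 2) (fun j : Fin m => w (i.succAbove j)) ![a, b] j := by
    intro j
    refine Fin.addCases (fun j' => ?_) (fun j' => ?_) j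
    · rw [Fin.append_left]
      have e : (Fin.castAdd 2 i : Fin (m + 1 + 2)).succAbove (Fin.castAdd 2 j') =
          Fin.castAdd 2 (i.succAbove j') := by
        apply Fin.ext
        simp only [Fin.succAbove, Fin.lt_def, Fin.val_castSucc, Fin.val_castAdd]
        split_ifs <;> rfl
      rw [e, Fin.append_left]
    · rw [Fin.append_right]
      have e : (Fin.castAdd 2 i : Fin (m + 1 + 2)).succAbove (Fin.natAdd m j') =
          Fin.natAdd (m + 1) j' := by
        apply Fin.ext
        simp only [Fin.succAbove, Fin.lt_def, Fin.val_castSucc, Fin.val_castAdd, Fin.val_natAdd]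
        split_ifs with h
        · omega
        · simp only [Fin.val_succ, Fin.val_natAdd]
          omega
      rw [e, Fin.append_right]
  exact key j

private theorem altSum {F : Type*} [NormedAddCommGroup F] [NormedSpace ℝ F] {N : ℕ}
    (T : F →L[ℝ] F [⋀^Fin (N + 1)]→L[ℝ] ℝ) (w : Fin N → F) (a b : F) :
    ContinuousAlternatingMap.alternatizeUncurryFin T (Fin.append (m := N) (n := 2) w ![a, b]) =
      ∑ i : Fin N, (-1 : ℝ) ^ (i : ℕ) * T (w i)
        ((Fin.castAdd 2 i : Fin (N + 2)).removeNth (α := fun _ => F) (Fin.append (m := N) (n := 2) w ![a, b])) +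
      (-1 : ℝ) ^ N * (T a (Fin.append w ![b]) - T b (Fin.append w ![a])) := by
  rw [ContinuousAlternatingMap.alternatizeUncurryFin_apply]
  rw [Fin.sum_univ_castSucc, Fin.sum_univ_castSucc]
  have e1 : ∀ i : Fin N, (-1 : ℤ) ^ ((Fin.castSucc (Fin.castSucc i) : Fin (N + 1 + 1)) : ℕ) •
      T (Fin.append (m := N) (n := 2) w ![a, b] (Fin.castSucc (Fin.castSucc i)))
        ((Fin.castSucc (Fin.castSucc i)).removeNth (α := fun _ => F) (Fin.append (m := N) (n := 2) w ![a, b])) =
      (-1 : ℝ) ^ (i : ℕ) * T (w i)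
        ((Fin.castAdd 2 i : Fin (N + 2)).removeNth (α := fun _ => F)
          (Fin.append (m := N) (n := 2) w ![a, b])) := by
    intro i
    rw [show (Fin.castSucc (Fin.castSucc i) : Fin (N + 1 + 1)) = Fin.castAdd 2 i from rfl,
      Fin.append_left, zsmul_eq_mul]
    push_cast
    rfl
  have e2 : (-1 : ℤ) ^ ((Fin.castSucc (Fin.last N) : Fin (N + 1 + 1)) : ℕ) •
      T (Fin.append (m := N) (n := 2) w ![a, b] (Fin.castSucc (Fin.last N)))
        ((Fin.castSucc (Fin.last N)).removeNth (α := fun _ => F) (Fin.append (m := N) (n := 2) w ![a, b])) =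
      (-1 : ℝ) ^ N * T a (Fin.append w ![b]) := by
    have e : Fin.append (m := N) (n := 2) w ![a, b] (Fin.castSucc (Fin.last N)) = a :=
      Fin.append_right w ![a, b] 0
    rw [e, removeNth_prev, zsmul_eq_mul]
    push_cast
    rfl
  have e3 : (-1 : ℤ) ^ ((Fin.last (N + 1) : Fin (N + 1 + 1)) : ℕ) •
      T (Fin.append (m := N) (n := 2) w ![a, b] (Fin.last (N + 1)))
        ((Fin.last (N + 1)).removeNth (α := fun _ => F) (Fin.append (m := N) (n := 2) w ![a, b])) =
      (-1 : ℝ) ^ (N + 1) * T b (Fin.append w ![a]) := by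
    have e : Fin.append (m := N) (n := 2) w ![a, b] (Fin.last (N + 1)) = b :=
      Fin.append_right w ![a, b] 1
    rw [e, removeNth_last, zsmul_eq_mul]
    push_cast
    rfl
  rw [Finset.sum_congr rfl (fun i _ => e1 i)]
  refine (congrArg₂ (· + ·) (congrArg₂ (· + ·) rfl e2) e3).trans ?_
  ring

section

variable {E : Type} [NormedAddCommGroup E] [NormedSpace ℝ E] {Λ : Type} [AddGroup Λ]

/-- the tangent vectors of the cube -/
private theorem sphCube_vectors {N : ℕ} (c : (Fin N → ℝ) → E) (hc : ContDiff ℝ ∞ c)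
    (ξ : Fin (N + 2) → ℝ) (hm : N + 1 + 1 = N + 2) :
    (fun i : Fin (N + 1 + 1) => fderiv ℝ (sphCube c) ξ (Pi.single (Fin.cast hm i) 1)) =
      Fin.append (m := N) (n := 2)
        (fun i : Fin N => ((fderiv ℝ c (fun i => ξ (Fin.castAdd 2 i)) (Pi.single i 1), 0)
        : E × ℂ × ℝ)) ![((0 : E), dsph1 (ξ (Fin.natAdd N 0)) (ξ (Fin.natAdd N 1))),
          ((0 : E), dsph2 (ξ (Fin.natAdd N 0)) (ξ (Fin.natAdd N 1)))] := by
  funext i
  have key : ∀ i : Fin (N + 2), fderiv ℝ (sphCube c) ξ (Pi.single i 1) =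
      Fin.append (m := N) (n := 2)
        (fun i : Fin N => ((fderiv ℝ c (fun i => ξ (Fin.castAdd 2 i)) (Pi.single i 1), 0)
        : E × ℂ × ℝ)) ![((0 : E), dsph1 (ξ (Fin.natAdd N 0)) (ξ (Fin.natAdd N 1))),
          ((0 : E), dsph2 (ξ (Fin.natAdd N 0)) (ξ (Fin.natAdd N 1)))] i := by
    intro i
    refine Fin.addCases (fun j => ?_) (fun j => ?_) i
    · rw [Fin.append_left, fderiv_sphCube_base c hc]
    · rw [Fin.append_right]
      fin_cases j
      · exact fderiv_sphCube_one c hc ξ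
      · exact fderiv_sphCube_two c hc ξ
  exact key i

private theorem inner_integral [FiniteDimensional ℝ E] (M : QuotientManifold E Λ) {N : ℕ}
    (β : (E × ℂ × ℝ) → (E × ℂ × ℝ) [⋀^Fin (N + 1)]→L[ℝ] ℝ)
    (hβ : ContDiffOn ℝ 1 β (sphU M)) (x : E) (hx : x ∈ M.U) (w : Fin N → E × ℂ × ℝ) :
    ∫ y in Set.Icc (0 : Fin 2 → ℝ) 1, extDeriv β (x, sph (y 0) (y 1))
        (Fin.append (m := N) (n := 2) w
          ![((0 : E), dsph1 (y 0) (y 1)), ((0 : E), dsph2 (y 0) (y 1))]) =
      ∫ y in Set.Icc (0 : Fin 2 → ℝ) 1, ∑ i : Fin N, (-1 : ℝ) ^ (i : ℕ) *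
        fderiv ℝ β (x, sph (y 0) (y 1)) (w i)
        ((Fin.castAdd 2 i : Fin (N + 2)).removeNth (α := fun _ => E × ℂ × ℝ)
          (Fin.append (m := N) (n := 2) w
          ![((0 : E), dsph1 (y 0) (y 1)), ((0 : E), dsph2 (y 0) (y 1))])) := by
  set q : (Fin 2 → ℝ) → E × ℂ × ℝ := fun s => (x, sph (s 0) (s 1)) with hq
  have hqs : q = sphCube (N := 0) (fun _ => x) := rfl
  have hqc : ContDiff ℝ ∞ q := by
    rw [hqs]
    exact contDiff_sphCube (N := 0) (fun _ => x) contDiff_const
  have hqc2 : ContDiff ℝ 2 q := by exact_mod_cast contDiff_infty.1 hqc 2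
  have hq2 : ContDiff ℝ 1 (fderiv ℝ q) := hqc2.fderiv_right one_add_one_eq_two.le
  have hd0 : ∀ s : Fin 2 → ℝ, fderiv ℝ q s (Pi.single 0 1) = ((0 : E), dsph1 (s 0) (s 1)) :=
    fun s => fderiv_sphCube_one (N := 0) (fun _ => x) contDiff_const s
  have hd1 : ∀ s : Fin 2 → ℝ, fderiv ℝ q s (Pi.single 1 1) = ((0 : E), dsph2 (s 0) (s 1)) :=
    fun s => fderiv_sphCube_two (N := 0) (fun _ => x) contDiff_const s
  have hc0 : Continuous (fun s : Fin 2 → ℝ => ((0 : E), dsph1 (s 0) (s 1))) := by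
    have h := hq2.continuous.clm_apply (continuous_const (y := (Pi.single 0 1 : Fin 2 → ℝ)))
    exact h.congr hd0
  have hc1 : Continuous (fun s : Fin 2 → ℝ => ((0 : E), dsph2 (s 0) (s 1))) := by
    have h := hq2.continuous.clm_apply (continuous_const (y := (Pi.single 1 1 : Fin 2 → ℝ)))
    exact h.congr hd1
  have hmem : ∀ s, q s ∈ sphU M := fun s => sph_mem M x hx (s 0) (s 1)
  have hF : Continuous (fun s => fderiv ℝ β (q s)) :=
    ContinuousOn.comp_continuous
      (hβ.continuousOn_fderiv_of_isOpen (isOpen_sphU M) le_rfl) hqc.continuous hmem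
  have happ : Continuous (fun y : Fin 2 → ℝ =>
      (Fin.append (m := N) (n := 2) w
          ![((0 : E), dsph1 (y 0) (y 1)), ((0 : E), dsph2 (y 0) (y 1))] :
        Fin (N + 2) → E × ℂ × ℝ)) := by
    refine continuous_pi fun i => ?_
    refine Fin.addCases (fun j => ?_) (fun j => ?_) i
    · simp only [Fin.append_left]
      exact continuous_const
    · simp only [Fin.append_right]
      fin_cases j
      · exact hc0
      · exact hc1
  have hcont1 : Continuous (fun y : Fin 2 → ℝ => ∑ i : Fin N, (-1 : ℝ) ^ (i : ℕ) *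
        fderiv ℝ β (x, sph (y 0) (y 1)) (w i)
        ((Fin.castAdd 2 i : Fin (N + 2)).removeNth (α := fun _ => E × ℂ × ℝ)
          (Fin.append (m := N) (n := 2) w
          ![((0 : E), dsph1 (y 0) (y 1)), ((0 : E), dsph2 (y 0) (y 1))]))) := by
    refine continuous_finsetSum _ fun i _ => ?_
    refine continuous_const.mul ?_
    refine (hF.clm_apply continuous_const).eval ?_
    refine continuous_pi fun j => ?_
    exact (continuous_apply ((Fin.castAdd 2 i : Fin (N + 2)).succAbove j)).comp happ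
  have hcont2 : Continuous (fun y : Fin 2 → ℝ =>
      (fderiv ℝ β (x, sph (y 0) (y 1)) ((0 : E), dsph1 (y 0) (y 1))
          (Fin.append w ![((0 : E), dsph2 (y 0) (y 1))]) -
        fderiv ℝ β (x, sph (y 0) (y 1)) ((0 : E), dsph2 (y 0) (y 1))
          (Fin.append w ![((0 : E), dsph1 (y 0) (y 1))]))) := by
    refine Continuous.sub ?_ ?_
    · exact (hF.clm_apply hc0).eval (continuous_append w _ hc1)
    · exact (hF.clm_apply hc1).eval (continuous_append w _ hc0)
  have e : ∀ y : Fin 2 → ℝ, extDeriv β (x, sph (y 0) (y 1))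
        (Fin.append (m := N) (n := 2) w
          ![((0 : E), dsph1 (y 0) (y 1)), ((0 : E), dsph2 (y 0) (y 1))]) =
      (∑ i : Fin N, (-1 : ℝ) ^ (i : ℕ) *
        fderiv ℝ β (x, sph (y 0) (y 1)) (w i)
        ((Fin.castAdd 2 i : Fin (N + 2)).removeNth (α := fun _ => E × ℂ × ℝ)
          (Fin.append (m := N) (n := 2) w
          ![((0 : E), dsph1 (y 0) (y 1)), ((0 : E), dsph2 (y 0) (y 1))]))) +
      (-1 : ℝ) ^ N * (fderiv ℝ β (x, sph (y 0) (y 1)) ((0 : E), dsph1 (y 0) (y 1))
          (Fin.append w ![((0 : E), dsph2 (y 0) (y 1))]) -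
        fderiv ℝ β (x, sph (y 0) (y 1)) ((0 : E), dsph2 (y 0) (y 1))
          (Fin.append w ![((0 : E), dsph1 (y 0) (y 1))])) := fun y =>
    altSum (fderiv ℝ β (x, sph (y 0) (y 1))) w _ _
  rw [integral_congr_ae (ae_of_all _ e), integral_add, integral_const_mul,
    integral_sph_vertical M β hβ x hx w, mul_zero, add_zero]
  · exact hcont1.continuousOn.integrableOn_compact isCompact_Icc
  · exact (continuous_const.mul hcont2).continuousOn.integrableOn_compact isCompact_Icc

/-- the cycle in the sphere bundle -/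
noncomputable def sphCyc [FiniteDimensional ℝ E] (M : QuotientManifold E Λ) (L : ULine M) {N : ℕ}
    (C : Cycle M N) : Cycle (sphM M L) (N + 2) where
  κ := C.κ
  c := fun k => sphCube (C.c k)
  smooth_c := fun k => contDiff_sphCube (C.c k) (C.smooth_c k)
  mem_c := by
    intro k ξ hξ
    exact sph_mem M _ (C.mem_c k _ ⟨fun i => hξ.1 _, fun i => hξ.2 _⟩) _ _
  closed := by
    intro m hm β hβ
    obtain rfl : m = N + 1 := by omega
    have hβ1 : ContDiffOn ℝ 1 β (sphU M) := hβ.1
    have hmem : ∀ (k : C.κ) (ξ : Fin (N + 2) → ℝ), ξ ∈ Set.Icc (0 : Fin (N + 2) → ℝ) 1 →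
        sphCube (C.c k) ξ ∈ sphU M := by
      intro k ξ hξ
      exact sph_mem M _ (C.mem_c k _ ⟨fun i => hξ.1 _, fun i => hξ.2 _⟩) _ _
    have hstep : ∀ k : C.κ, ∫ ξ in Set.Icc (0 : Fin (N + 2) → ℝ) 1,
        extDeriv β (sphCube (C.c k) ξ)
          (fun i => fderiv ℝ (sphCube (C.c k)) ξ (Pi.single (Fin.cast hm i) 1)) =
        ∫ x in Set.Icc (0 : Fin N → ℝ) 1, ∫ y in Set.Icc (0 : Fin 2 → ℝ) 1,
          ∑ i : Fin N, (-1 : ℝ) ^ (i : ℕ) *
        fderiv ℝ β (C.c k x, sph (y 0) (y 1)) (fderiv ℝ (C.c k) x (Pi.single i 1), 0)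
        ((Fin.castAdd 2 i : Fin (N + 2)).removeNth (α := fun _ => E × ℂ × ℝ)
          (Fin.append (m := N) (n := 2)
            (fun i : Fin N => ((fderiv ℝ (C.c k) x (Pi.single i 1), 0) : E × ℂ × ℝ))
            ![((0 : E), dsph1 (y 0) (y 1)), ((0 : E), dsph2 (y 0) (y 1))])) := by
      intro k
      have hcs := contDiff_sphCube (C.c k) (C.smooth_c k)
      have hcs2 : ContDiff ℝ 2 (sphCube (C.c k)) := by exact_mod_cast contDiff_infty.1 hcs 2
      have hcs3 : ContDiff ℝ 1 (fderiv ℝ (sphCube (C.c k))) :=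
        hcs2.fderiv_right one_add_one_eq_two.le
      have hint : IntegrableOn (fun ξ : Fin (N + 2) → ℝ => extDeriv β (sphCube (C.c k) ξ)
          (fun i => fderiv ℝ (sphCube (C.c k)) ξ (Pi.single (Fin.cast hm i) 1)))
          (Set.Icc (0 : Fin (N + 2) → ℝ) 1) := by
        refine ContinuousOn.integrableOn_compact isCompact_Icc ?_
        have h1 : ContinuousOn (extDeriv β) (sphU M) :=
          (ContinuousAlternatingMap.alternatizeUncurryFinCLM ℝ (E × ℂ × ℝ) ℝ
            (n := N + 1)).continuous.comp_continuousOn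
            (hβ1.continuousOn_fderiv_of_isOpen (isOpen_sphU M) le_rfl)
        have h2 : ContinuousOn (fun ξ => extDeriv β (sphCube (C.c k) ξ))
            (Set.Icc (0 : Fin (N + 2) → ℝ) 1) :=
          h1.comp hcs.continuous.continuousOn (hmem k)
        refine h2.eval ?_
        refine Continuous.continuousOn ?_
        refine continuous_pi fun i => ?_
        exact hcs3.continuous.clm_apply continuous_const
      rw [integral_cube_add N 2 _ hint]
      refine setIntegral_congr_fun measurableSet_Icc fun x hx => ?_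
      have h3 := inner_integral M β hβ1 (C.c k x) (C.mem_c k x hx)
        (fun i : Fin N => ((fderiv ℝ (C.c k) x (Pi.single i 1), 0) : E × ℂ × ℝ))
      show ∫ y in Set.Icc (0 : Fin 2 → ℝ) 1, extDeriv β (sphCube (C.c k) (Fin.append x y))
          (fun i => fderiv ℝ (sphCube (C.c k)) (Fin.append x y) (Pi.single (Fin.cast hm i) 1)) = _
      rw [← h3]
      congr 1
      funext y
      have e1 : (fun i => (Fin.append x y : Fin (N + 2) → ℝ) (Fin.castAdd 2 i)) = x := by
        funext i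
        exact Fin.append_left x y i
      have e2 : (Fin.append x y : Fin (N + 2) → ℝ) (Fin.natAdd N 0) = y 0 :=
        Fin.append_right x y 0
      have e3 : (Fin.append x y : Fin (N + 2) → ℝ) (Fin.natAdd N 1) = y 1 :=
        Fin.append_right x y 1
      rw [sphCube_vectors (C.c k) (C.smooth_c k) _ hm, e1, e2, e3]
      congr 1
      show extDeriv β ((C.c k) (fun i => (Fin.append x y : Fin (N + 2) → ℝ) (Fin.castAdd 2 i)),
        sph ((Fin.append x y : Fin (N + 2) → ℝ) (Fin.natAdd N 0))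
          ((Fin.append x y : Fin (N + 2) → ℝ) (Fin.natAdd N 1))) = _
      rw [e1, e2, e3]
    rw [Finset.sum_congr rfl (fun k _ => hstep k)]
    rcases N with _ | N
    · simp
    · obtain ⟨β', hβ', hd⟩ := exists_avgForm M L β hβ
      have h4 := C.closed N rfl β' hβ'
      rw [← h4]
      refine Finset.sum_congr rfl fun k _ => ?_
      refine setIntegral_congr_fun measurableSet_Icc fun x hx => ?_
      show _ = extDeriv β' (C.c k x) (fun i => fderiv ℝ (C.c k) x (Pi.single i 1))
      rw [hd (C.c k x) (C.mem_c k x hx)]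
      congr 1
      funext y
      refine Finset.sum_congr rfl fun i _ => ?_
      rw [removeNth_base]

end

end Pool.Agent.HAF2
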