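import Pool.Agent.HAF2.SphCyc
import Pool.Agent.HAF2.SphConn
import Pool.Agent.HAF2.PairExp

/-!
# Module SPW: the integral over the sphere bundle

Along the cube `sphCube (C.c k)` the form `W_t + z ψ'(t) dt ∧ vth` has the matrix `A` with
`A i j = W_t (∂_i c) (∂_j c)` for `i, j < N`, the row of the last variable is zero except the
entry of the last but one variable, and for `0 < s < 1` one has
`A (N, N + 1) = z ψ'(-cos π s) π sin (π s) 2 π` (for `s = 0, 1` both sides vanish since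
`deriv (psi k) (± 1) = 0`). Apply `pairSum_expand` and Fubini.
-/

namespace Pool.Agent.HAF2

open Filter Topology MeasureTheory
open scoped ContDiff ComplexConjugate
open Pool.Agent.HaefligerClasses (QuotientManifold IsForm HaefligerStructure curvature
  torusElement)

section

private theorem sp_integral_fst (F : ℝ → ℝ) :
    ∫ y in Set.Icc (0 : Fin 2 → ℝ) 1, F (y 0) = ∫ s in (0 : ℝ)..1, F s := by
  have hmp := volume_preserving_finTwoArrow ℝ
  have hset : (MeasurableEquiv.finTwoArrow (α := ℝ)) ⁻¹'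
      (Set.Icc (0 : ℝ) 1 ×ˢ Set.Icc (0 : ℝ) 1) = Set.Icc (0 : Fin 2 → ℝ) 1 := by
    ext x
    simp only [Set.mem_preimage, Set.mem_prod, Set.mem_Icc, Pi.le_def, Fin.forall_fin_two,
      Pi.zero_apply, Pi.one_apply, MeasurableEquiv.finTwoArrow_apply]
    tauto
  have h1 := hmp.setIntegral_preimage_emb
    (MeasurableEquiv.finTwoArrow (α := ℝ)).measurableEmbedding (fun p : ℝ × ℝ => F p.1 * 1)
    (Set.Icc (0 : ℝ) 1 ×ˢ Set.Icc (0 : ℝ) 1)
  rw [hset] at h1
  have h2 : ∫ y in Set.Icc (0 : Fin 2 → ℝ) 1, F (y 0) =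
      ∫ y in Set.Icc (0 : Fin 2 → ℝ) 1,
        (fun p : ℝ × ℝ => F p.1 * 1) (MeasurableEquiv.finTwoArrow (α := ℝ) y) := by
    refine setIntegral_congr_fun measurableSet_Icc (fun y _ => ?_)
    simp [MeasurableEquiv.finTwoArrow_apply]
  rw [h2, h1, Measure.volume_eq_prod, setIntegral_prod_mul (fun s => F s) (fun _ => (1 : ℝ)),
    intervalIntegral.integral_of_le zero_le_one, ← integral_Icc_eq_integral_Ioc]
  simp

private theorem sp_contOn_pairSum {X : Type} [TopologicalSpace X] {S : Set X} {N n : ℕ}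
    (h : N = 2 * n) (A : X → Fin N → Fin N → ℝ)
    (hA : ∀ i j, ContinuousOn (fun x => A x i j) S) :
    ContinuousOn (fun x => pairSum n h (A x)) S := by
  unfold pairSum
  exact continuousOn_finsetSum _ (fun σ _ => continuousOn_const.mul
    (continuousOn_finsetProd _ fun s _ => hA _ _))

variable {E : Type} [NormedAddCommGroup E] [NormedSpace ℝ E]
  {Λ : Type} [AddGroup Λ]

private theorem sp_entry {M : QuotientManifold E Λ} (L : ULine M) (k : ℕ) (x : E) (s t : ℝ) :
    deriv (psi k) (sph s t).2 * ((dsph1 s t).2 * vth L (x, sph s t) ((0 : E), dsph2 s t) -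
        (dsph2 s t).2 * vth L (x, sph s t) ((0 : E), dsph1 s t)) =
      2 * Real.pi * (deriv (psi k) (-Real.cos (Real.pi * s)) *
        (Real.pi * Real.sin (Real.pi * s))) := by
  have h2 : (dsph2 s t).2 = 0 := rfl
  have h1 : (dsph1 s t).2 = Real.pi * Real.sin (Real.pi * s) := rfl
  have h3 : (sph s t).2 = -Real.cos (Real.pi * s) := rfl
  rw [h1, h2, h3, vth_apply]
  simp only [map_zero, add_zero, zero_mul, sub_zero]
  by_cases hz : Real.sin (Real.pi * s) = 0
  · rw [hz]
    ring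
  · have hexp : Complex.normSq (Complex.exp (2 * Real.pi * t * Complex.I)) = 1 := by
      rw [Complex.normSq_eq_norm_sq]
      have : (2 * Real.pi * t * Complex.I : ℂ) = ((2 * Real.pi * t : ℝ) : ℂ) * Complex.I := by
        push_cast
        ring
      rw [this, Complex.norm_exp_ofReal_mul_I]
      norm_num
    have hn : Complex.normSq (sph s t).1 = Real.sin (Real.pi * s) ^ 2 := by
      show Complex.normSq ((Real.sin (Real.pi * s) : ℂ) *
        Complex.exp (2 * Real.pi * t * Complex.I)) = _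
      rw [Complex.normSq_mul, hexp, Complex.normSq_ofReal]
      ring
    have hm : conj (sph s t).1 * (dsph2 s t).1 =
        ((2 * Real.pi * Real.sin (Real.pi * s) ^ 2 : ℝ) : ℂ) * Complex.I := by
      have hc : conj (Complex.exp (2 * Real.pi * t * Complex.I)) *
          Complex.exp (2 * Real.pi * t * Complex.I) = 1 := by
        rw [← Complex.normSq_eq_conj_mul_self, hexp]
        simp
      show conj ((Real.sin (Real.pi * s) : ℂ) * Complex.exp (2 * Real.pi * t * Complex.I)) *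
        (2 * Real.pi * Complex.I * (Real.sin (Real.pi * s) : ℂ) *
          Complex.exp (2 * Real.pi * t * Complex.I)) = _
      rw [map_mul, Complex.conj_ofReal]
      calc (Real.sin (Real.pi * s) : ℂ) * conj (Complex.exp (2 * Real.pi * t * Complex.I)) *
            (2 * Real.pi * Complex.I * (Real.sin (Real.pi * s) : ℂ) *
              Complex.exp (2 * Real.pi * t * Complex.I)) =
          2 * Real.pi * (Real.sin (Real.pi * s) : ℂ) ^ 2 * Complex.I *
            (conj (Complex.exp (2 * Real.pi * t * Complex.I)) *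
              Complex.exp (2 * Real.pi * t * Complex.I)) := by ring
        _ = _ := by
          rw [hc]
          push_cast
          ring
    have hv : (1 / Complex.normSq (sph s t).1) * (conj (sph s t).1 * (dsph2 s t).1).im =
        2 * Real.pi := by
      rw [hn, hm]
      simp only [Complex.mul_im, Complex.ofReal_re, Complex.ofReal_im, Complex.I_re,
        Complex.I_im, mul_one, mul_zero]
      field_simp
      simp
    show deriv (psi k) (-Real.cos (Real.pi * s)) * (Real.pi * Real.sin (Real.pi * s) *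
      ((1 / Complex.normSq (sph s t).1) * (conj (sph s t).1 * (dsph2 s t).1).im)) = _
    rw [hv]
    ring

private theorem sp_key {M : QuotientManifold E Λ} (L : ULine M) {N n : ℕ} (h : N = 2 * n)
    (h' : N + 2 = 2 * (n + 1)) (c : (Fin N → ℝ) → E) (hc : ContDiff ℝ ∞ c) (k : ℕ) (z : ℝ)
    (W : ℝ → E → E → E → ℝ) (ξ : Fin (N + 2) → ℝ)
    (hW : ∀ t u w, W t (c (fun i => ξ (Fin.castAdd 2 i))) u w =
      -W t (c (fun i => ξ (Fin.castAdd 2 i))) w u)
    (hW0 : ∀ t w, W t (c (fun i => ξ (Fin.castAdd 2 i))) 0 w = 0) :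
    pairSum (n + 1) h' (fun i j =>
      (fun (p u w : E × ℂ × ℝ) => W p.2.2 p.1 u.1 w.1 +
        z * (deriv (psi k) p.2.2 * (u.2.2 * vth L p w - w.2.2 * vth L p u)))
        (sphCube c ξ) (fderiv ℝ (sphCube c) ξ (Pi.single i 1))
        (fderiv ℝ (sphCube c) ξ (Pi.single j 1))) =
      4 * Real.pi * (n + 1) * z * (deriv (psi k) (-Real.cos (Real.pi * ξ (Fin.natAdd N 0))) *
        (Real.pi * Real.sin (Real.pi * ξ (Fin.natAdd N 0)))) *
        pairSum n h (fun i j => W (-Real.cos (Real.pi * ξ (Fin.natAdd N 0)))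
          (c (fun i => ξ (Fin.castAdd 2 i)))
          (fderiv ℝ c (fun i => ξ (Fin.castAdd 2 i)) (Pi.single i 1))
          (fderiv ℝ c (fun i => ξ (Fin.castAdd 2 i)) (Pi.single j 1))) := by
  rw [pairSum_expand h h']
  · have hA : (fun (p u w : E × ℂ × ℝ) => W p.2.2 p.1 u.1 w.1 +
        z * (deriv (psi k) p.2.2 * (u.2.2 * vth L p w - w.2.2 * vth L p u)))
        (sphCube c ξ) (fderiv ℝ (sphCube c) ξ (Pi.single (Fin.natAdd N 0) 1))
        (fderiv ℝ (sphCube c) ξ (Pi.single (Fin.natAdd N 1) 1)) =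
        z * (2 * Real.pi * (deriv (psi k) (-Real.cos (Real.pi * ξ (Fin.natAdd N 0))) *
        (Real.pi * Real.sin (Real.pi * ξ (Fin.natAdd N 0))))) := by
      rw [fderiv_sphCube_one c hc ξ, fderiv_sphCube_two c hc ξ]
      have he := sp_entry L k (c (fun i => ξ (Fin.castAdd 2 i))) (ξ (Fin.natAdd N 0))
        (ξ (Fin.natAdd N 1))
      rw [← he]
      show W _ (c (fun i => ξ (Fin.castAdd 2 i))) 0 0 + _ = _
      rw [hW0, zero_add]
      rfl
    rw [hA]
    have hB : ∀ i j : Fin N, (fun (p u w : E × ℂ × ℝ) => W p.2.2 p.1 u.1 w.1 +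
        z * (deriv (psi k) p.2.2 * (u.2.2 * vth L p w - w.2.2 * vth L p u)))
        (sphCube c ξ) (fderiv ℝ (sphCube c) ξ (Pi.single (Fin.castAdd 2 i) 1))
        (fderiv ℝ (sphCube c) ξ (Pi.single (Fin.castAdd 2 j) 1)) =
        W (-Real.cos (Real.pi * ξ (Fin.natAdd N 0)))
          (c (fun i => ξ (Fin.castAdd 2 i)))
          (fderiv ℝ c (fun i => ξ (Fin.castAdd 2 i)) (Pi.single i 1))
          (fderiv ℝ c (fun i => ξ (Fin.castAdd 2 i)) (Pi.single j 1)) := by
      intro i j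
      rw [fderiv_sphCube_base c hc ξ, fderiv_sphCube_base c hc ξ]
      show W _ _ _ _ + z * (_ * ((0 : ℝ) * _ - (0 : ℝ) * _)) = _
      rw [zero_mul, zero_mul, sub_zero, mul_zero, mul_zero, add_zero]
      rfl
    simp only [hB]
    ring
  · intro i j
    show W _ (c (fun i => ξ (Fin.castAdd 2 i))) _ _ + _ =
      -(W _ (c (fun i => ξ (Fin.castAdd 2 i))) _ _ + _)
    rw [hW]
    ring
  · intro j hj
    show W _ (c (fun i => ξ (Fin.castAdd 2 i))) _ _ + _ = 0
    rw [fderiv_sphCube_two c hc ξ]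
    show W _ (c (fun i => ξ (Fin.castAdd 2 i))) 0 _ + _ = 0
    rw [hW0, zero_add]
    revert hj
    refine Fin.addCases (fun i => ?_) (fun i => ?_) j
    · intro _
      rw [fderiv_sphCube_base c hc ξ]
      show z * (_ * ((0 : ℝ) * _ - (0 : ℝ) * _)) = 0
      simp
    · intro hj
      have hi : i = 1 := by
        fin_cases i
        · exact absurd rfl hj
        · rfl
      rw [hi, fderiv_sphCube_two c hc ξ]
      simp

variable [FiniteDimensional ℝ E]

theorem sph_power {M : QuotientManifold E Λ} (L : ULine M) {N n : ℕ} (h : N = 2 * n)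
    (h' : N + 2 = 2 * (n + 1)) (C : Cycle M N) (k : ℕ) (z : ℝ) (W : ℝ → E → E → E → ℝ)
    (hW : ∀ t, ∀ x ∈ M.U, ∀ u w, W t x u w = -W t x w u)
    (hW0 : ∀ t, ∀ x ∈ M.U, ∀ w, W t x 0 w = 0)
    (hcont : ∀ κ i j, ContinuousOn (fun q : ℝ × (Fin N → ℝ) =>
      W q.1 (C.c κ q.2) (fderiv ℝ (C.c κ) q.2 (Pi.single i 1))
        (fderiv ℝ (C.c κ) q.2 (Pi.single j 1))) (Set.univ ×ˢ Set.Icc (0 : Fin N → ℝ) 1)) :
    (sphCyc M L C).power (n + 1) h' (fun p u w => W p.2.2 p.1 u.1 w.1 +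
        z * (deriv (psi k) p.2.2 * (u.2.2 * vth L p w - w.2.2 * vth L p u))) =
      4 * Real.pi * (n + 1) * z * ∫ s in (0 : ℝ)..1,
        deriv (psi k) (-Real.cos (Real.pi * s)) * (Real.pi * Real.sin (Real.pi * s)) *
          C.power n h (W (-Real.cos (Real.pi * s))) := by
  -- the integrands
  obtain ⟨P, hP⟩ : ∃ P : C.κ → ℝ → (Fin N → ℝ) → ℝ, ∀ κ s x, P κ s x =
      pairSum n h (fun i j => W (-Real.cos (Real.pi * s)) (C.c κ x)
        (fderiv ℝ (C.c κ) x (Pi.single i 1)) (fderiv ℝ (C.c κ) x (Pi.single j 1))) :=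
    ⟨_, fun _ _ _ => rfl⟩
  obtain ⟨g, hg⟩ : ∃ g : ℝ → ℝ, ∀ s, g s = deriv (psi k) (-Real.cos (Real.pi * s)) *
      (Real.pi * Real.sin (Real.pi * s)) := ⟨_, fun _ => rfl⟩
  have hgc : Continuous g := by
    have h1 : Continuous (deriv (psi k)) :=
      (contDiff_psi k).continuous_deriv (by exact_mod_cast le_top)
    have h2 : Continuous (fun s : ℝ => -Real.cos (Real.pi * s)) := by fun_prop
    have h3 : Continuous (fun s : ℝ => Real.pi * Real.sin (Real.pi * s)) := by fun_prop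
    have h4 : g = fun s => deriv (psi k) (-Real.cos (Real.pi * s)) *
      (Real.pi * Real.sin (Real.pi * s)) := funext hg
    rw [h4]
    exact (h1.comp h2).mul h3
  have hPc : ∀ κ, ContinuousOn (fun q : ℝ × (Fin N → ℝ) => P κ q.1 q.2)
      (Set.univ ×ˢ Set.Icc (0 : Fin N → ℝ) 1) := by
    intro κ
    simp only [hP]
    refine sp_contOn_pairSum h (fun (q : ℝ × (Fin N → ℝ)) i j =>
      W (-Real.cos (Real.pi * q.1)) (C.c κ q.2)
        (fderiv ℝ (C.c κ) q.2 (Pi.single i 1)) (fderiv ℝ (C.c κ) q.2 (Pi.single j 1)))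
      (fun i j => ?_)
    have h1 : ContinuousOn (fun q : ℝ × (Fin N → ℝ) => (-Real.cos (Real.pi * q.1), q.2))
      (Set.univ ×ˢ Set.Icc (0 : Fin N → ℝ) 1) := by fun_prop
    exact ContinuousOn.comp (g := fun q : ℝ × (Fin N → ℝ) =>
      W q.1 (C.c κ q.2) (fderiv ℝ (C.c κ) q.2 (Pi.single i 1))
        (fderiv ℝ (C.c κ) q.2 (Pi.single j 1)))
      (f := fun q : ℝ × (Fin N → ℝ) => (-Real.cos (Real.pi * q.1), q.2))
      (hcont κ i j) h1 (fun q hq => ⟨trivial, hq.2⟩)
  obtain ⟨G, hG⟩ : ∃ G : C.κ → (Fin (N + 2) → ℝ) → ℝ, ∀ κ ξ, G κ ξ =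
      4 * Real.pi * (n + 1) * z * g (ξ (Fin.natAdd N 0)) *
        P κ (ξ (Fin.natAdd N 0)) (fun i => ξ (Fin.castAdd 2 i)) := ⟨_, fun _ _ => rfl⟩
  have hGc : ∀ κ, ContinuousOn (G κ) (Set.Icc (0 : Fin (N + 2) → ℝ) 1) := by
    intro κ
    have h0 : Continuous (fun ξ : Fin (N + 2) → ℝ => ξ (Fin.natAdd N 0)) :=
      continuous_apply _
    have h1 : Continuous (fun ξ : Fin (N + 2) → ℝ => 4 * Real.pi * (n + 1) * z *
      g (ξ (Fin.natAdd N 0))) := continuous_const.mul (hgc.comp h0)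
    have h2 : Continuous (fun ξ : Fin (N + 2) → ℝ =>
      ((ξ (Fin.natAdd N 0), fun i => ξ (Fin.castAdd 2 i)) : ℝ × (Fin N → ℝ))) :=
      h0.prodMk (continuous_pi fun i => continuous_apply _)
    have h3 : ContinuousOn (fun ξ : Fin (N + 2) → ℝ =>
        P κ (ξ (Fin.natAdd N 0)) (fun i => ξ (Fin.castAdd 2 i)))
        (Set.Icc (0 : Fin (N + 2) → ℝ) 1) :=
      ContinuousOn.comp (g := fun q : ℝ × (Fin N → ℝ) => P κ q.1 q.2)
        (f := fun ξ : Fin (N + 2) → ℝ =>
          ((ξ (Fin.natAdd N 0), fun i => ξ (Fin.castAdd 2 i)) : ℝ × (Fin N → ℝ)))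
        (hPc κ) h2.continuousOn
        (fun ξ hξ => ⟨trivial, ⟨fun i => hξ.1 _, fun i => hξ.2 _⟩⟩)
    have h4 : G κ = fun ξ => 4 * Real.pi * (n + 1) * z * g (ξ (Fin.natAdd N 0)) *
        P κ (ξ (Fin.natAdd N 0)) (fun i => ξ (Fin.castAdd 2 i)) := funext (hG κ)
    rw [h4]
    exact h1.continuousOn.mul h3
  have hGi : ∀ κ, IntegrableOn (G κ) (Set.Icc (0 : Fin (N + 2) → ℝ) 1) := fun κ =>
    (hGc κ).integrableOn_compact isCompact_Icc
  have hstep : (sphCyc M L C).power (n + 1) h' (fun p u w => W p.2.2 p.1 u.1 w.1 +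
        z * (deriv (psi k) p.2.2 * (u.2.2 * vth L p w - w.2.2 * vth L p u))) =
      ∑ κ : C.κ, ∫ ξ in Set.Icc (0 : Fin (N + 2) → ℝ) 1, G κ ξ := by
    show (∑ κ : C.κ, ∫ ξ in Set.Icc (0 : Fin (N + 2) → ℝ) 1, _) = _
    refine Finset.sum_congr rfl (fun κ _ => ?_)
    refine setIntegral_congr_fun measurableSet_Icc (fun ξ hξ => ?_)
    have hx : C.c κ (fun i => ξ (Fin.castAdd 2 i)) ∈ M.U :=
      C.mem_c κ _ ⟨fun i => hξ.1 _, fun i => hξ.2 _⟩
    have h5 := sp_key L h h' (C.c κ) (C.smooth_c κ) k z W ξ (fun t u w => hW t _ hx u w)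
      (fun t w => hW0 t _ hx w)
    rw [← hg, ← hP, ← hG] at h5
    exact h5
  have hsum : ∑ κ : C.κ, ∫ ξ in Set.Icc (0 : Fin (N + 2) → ℝ) 1, G κ ξ =
      ∫ ξ in Set.Icc (0 : Fin (N + 2) → ℝ) 1, ∑ κ : C.κ, G κ ξ :=
    (integral_finsetSum _ (fun κ _ => hGi κ)).symm
  have hsi : IntegrableOn (fun ξ => ∑ κ : C.κ, G κ ξ) (Set.Icc (0 : Fin (N + 2) → ℝ) 1) :=
    integrable_finsetSum _ (fun κ _ => hGi κ)
  rw [hstep, hsum, integral_cube_add' N 2 _ hsi]
  have hinner : ∀ y ∈ Set.Icc (0 : Fin 2 → ℝ) 1,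
      ∫ x in Set.Icc (0 : Fin N → ℝ) 1, ∑ κ : C.κ, G κ (Fin.append x y) =
        4 * Real.pi * (n + 1) * z * (g (y 0) *
          C.power n h (W (-Real.cos (Real.pi * y 0)))) := by
    intro y _
    have h1 : ∀ x : Fin N → ℝ, ∑ κ : C.κ, G κ (Fin.append x y) =
        ∑ κ : C.κ, (4 * Real.pi * (n + 1) * z * g (y 0)) * P κ (y 0) x := by
      intro x
      refine Finset.sum_congr rfl (fun κ _ => ?_)
      rw [hG]
      simp only [Fin.append_right, Fin.append_left]
    have h2 : ∀ κ, IntegrableOn (fun x => (4 * Real.pi * (n + 1) * z * g (y 0)) * P κ (y 0) x)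
        (Set.Icc (0 : Fin N → ℝ) 1) := by
      intro κ
      have h3 : Continuous (fun x : Fin N → ℝ => ((y 0, x) : ℝ × (Fin N → ℝ))) := by fun_prop
      have h4 : ContinuousOn (fun x => P κ (y 0) x) (Set.Icc (0 : Fin N → ℝ) 1) :=
        ContinuousOn.comp (g := fun q : ℝ × (Fin N → ℝ) => P κ q.1 q.2)
          (f := fun x : Fin N → ℝ => ((y 0, x) : ℝ × (Fin N → ℝ)))
          (hPc κ) h3.continuousOn (fun x hx => ⟨trivial, hx⟩)
      exact (continuousOn_const.mul h4).integrableOn_compact isCompact_Icc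
    simp only [h1]
    rw [integral_finsetSum _ (fun κ _ => h2 κ)]
    simp only [integral_const_mul]
    rw [← Finset.mul_sum]
    have h6 : C.power n h (W (-Real.cos (Real.pi * y 0))) =
        ∑ κ : C.κ, ∫ x in Set.Icc (0 : Fin N → ℝ) 1, P κ (y 0) x := by
      simp only [hP]
      rfl
    rw [h6]
    ring
  rw [setIntegral_congr_fun measurableSet_Icc hinner, integral_const_mul,
    sp_integral_fst (fun s => g s * C.power n h (W (-Real.cos (Real.pi * s))))]
  simp only [hg]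

omit [FiniteDimensional ℝ E] in
private theorem sp_dform_zero (a : E → E →L[ℝ] ℝ) (x w : E) : dform a x 0 w = 0 := by
  simp [dform]

private theorem sp_integral_pow (k b : ℕ) (z c : ℝ) :
    z * ∫ s in (0 : ℝ)..1, deriv (psi k) (-Real.cos (Real.pi * s)) *
      (Real.pi * Real.sin (Real.pi * s)) * (z * psi k (-Real.cos (Real.pi * s)) + c) ^ b =
      ((-(k : ℝ) * z + c) ^ (b + 1) - (2 * z + c) ^ (b + 1)) / (b + 1) := by
  have hpc : Continuous (psi k) := (contDiff_psi k).continuous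
  have hpd : Continuous (deriv (psi k)) :=
    (contDiff_psi k).continuous_deriv (by exact_mod_cast le_top)
  have hcos : Continuous (fun s : ℝ => -Real.cos (Real.pi * s)) := by fun_prop
  have hsin : Continuous (fun s : ℝ => Real.pi * Real.sin (Real.pi * s)) := by fun_prop
  have hb : (b : ℝ) + 1 ≠ 0 := by positivity
  have hd : ∀ s ∈ Set.uIcc (0 : ℝ) 1, HasDerivAt
      (fun s : ℝ => (z * psi k (-Real.cos (Real.pi * s)) + c) ^ (b + 1) / (b + 1))
      (z * (deriv (psi k) (-Real.cos (Real.pi * s)) *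
      (Real.pi * Real.sin (Real.pi * s)) * (z * psi k (-Real.cos (Real.pi * s)) + c) ^ b)) s := by
    intro s _
    have h1 : HasDerivAt (fun s : ℝ => -Real.cos (Real.pi * s))
        (Real.pi * Real.sin (Real.pi * s)) s := by
      have h2 : HasDerivAt (fun s : ℝ => Real.pi * s) Real.pi s := by
        simpa using (hasDerivAt_id s).const_mul Real.pi
      have h3 := ((Real.hasDerivAt_cos (Real.pi * s)).comp s h2).neg
      refine h3.congr_deriv ?_
      ring
    have h4 : HasDerivAt (psi k) (deriv (psi k) (-Real.cos (Real.pi * s)))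
        (-Real.cos (Real.pi * s)) :=
      (((contDiff_psi k).differentiable (by simp)) _).hasDerivAt
    have h5 := ((h4.comp s h1).const_mul z).add_const c
    have h6 := (h5.pow (b + 1)).div_const ((b : ℝ) + 1)
    refine h6.congr_deriv ?_
    simp only [Function.comp]
    push_cast
    field_simp
  have hcont : Continuous (fun s : ℝ => z * (deriv (psi k) (-Real.cos (Real.pi * s)) *
      (Real.pi * Real.sin (Real.pi * s)) * (z * psi k (-Real.cos (Real.pi * s)) + c) ^ b)) :=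
    continuous_const.mul (((hpd.comp hcos).mul hsin).mul
      (((continuous_const.mul (hpc.comp hcos)).add continuous_const).pow b))
  rw [← intervalIntegral.integral_const_mul,
    intervalIntegral.integral_eq_sub_of_hasDerivAt hd (hcont.intervalIntegrable 0 1)]
  have e1 : -Real.cos (Real.pi * 1) = 1 := by simp
  have e0 : -Real.cos (Real.pi * 0) = -1 := by simp
  rw [e1, e0, psi_of_ge k 1 (by norm_num), psi_of_le k (-1) (by norm_num)]
  ring

/-- the same for the forms `∑ x_r K_r + z * (crvS) + y * m * K_ℓ`, when the integral over the base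
is a monomial -/
theorem sph_power_monomial {M : QuotientManifold E Λ} (L : ULine M) {N n : ℕ} (h : N = 2 * n)
    (h' : N + 2 = 2 * (n + 1)) (C : Cycle M N) (k m b : ℕ) {R : Type} [Fintype R]
    (α : R → ℕ) (K : R → E → E → E → ℝ)
    (hK : ∀ r, ∀ x ∈ M.U, ∀ u w, K r x u w = -K r x w u)
    (hK0 : ∀ r, ∀ x ∈ M.U, ∀ w, K r x 0 w = 0)
    (hcont : ∀ r κ i j, ContinuousOn (fun ξ => K r (C.c κ ξ)
      (fderiv ℝ (C.c κ) ξ (Pi.single i 1)) (fderiv ℝ (C.c κ) ξ (Pi.single j 1)))
      (Set.Icc (0 : Fin N → ℝ) 1))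
    (C₀ : ℝ) (hint : ∀ (x : R → ℝ) (y : ℝ),
      C.power n h (fun p u w => ∑ r, x r * K r p u w + y * dform L.a p u w) =
        C₀ * (∏ r, x r ^ α r) * y ^ b) (x : R → ℝ) (z y : ℝ) :
    (sphCyc M L C).power (n + 1) h' (fun p u w => ∑ r, x r * K r p.1 u.1 w.1 +
        z * crvS L k p u w + y * (m * dform L.a p.1 u.1 w.1)) =
      4 * Real.pi * (n + 1) * C₀ * (∏ r, x r ^ α r) *
        (((-(k : ℝ)) * z + m * y) ^ (b + 1) - (2 * z + m * y) ^ (b + 1)) / (b + 1) := by
  obtain ⟨W, hWd⟩ : ∃ W : ℝ → E → E → E → ℝ, ∀ t q u w, W t q u w =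
      ∑ r, x r * K r q u w + (z * psi k t + m * y) * dform L.a q u w :=
    ⟨_, fun _ _ _ _ => rfl⟩
  have hfun : (fun p u w : E × ℂ × ℝ => ∑ r, x r * K r p.1 u.1 w.1 +
        z * crvS L k p u w + y * (m * dform L.a p.1 u.1 w.1)) =
      fun p u w => W p.2.2 p.1 u.1 w.1 +
        z * (deriv (psi k) p.2.2 * (u.2.2 * vth L p w - w.2.2 * vth L p u)) := by
    funext p u w
    rw [hWd, crvS]
    ring
  have hpow : ∀ t, C.power n h (W t) = C₀ * (∏ r, x r ^ α r) * (z * psi k t + m * y) ^ b := by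
    intro t
    rw [← hint x (z * psi k t + m * y)]
    congr 1
    funext q u w
    rw [hWd]
  have hW : ∀ t, ∀ q ∈ M.U, ∀ u w, W t q u w = -W t q w u := by
    intro t q hq u w
    rw [hWd, hWd, neg_add, ← Finset.sum_neg_distrib]
    refine congrArg₂ (· + ·) (Finset.sum_congr rfl fun r _ => ?_) ?_
    · rw [hK r q hq u w]
      ring
    · unfold dform
      ring
  have hW0 : ∀ t, ∀ q ∈ M.U, ∀ w, W t q 0 w = 0 := by
    intro t q hq w
    rw [hWd, sp_dform_zero, mul_zero, add_zero]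
    exact Finset.sum_eq_zero fun r _ => by rw [hK0 r q hq, mul_zero]
  have hWc : ∀ κ i j, ContinuousOn (fun q : ℝ × (Fin N → ℝ) =>
      W q.1 (C.c κ q.2) (fderiv ℝ (C.c κ) q.2 (Pi.single i 1))
        (fderiv ℝ (C.c κ) q.2 (Pi.single j 1))) (Set.univ ×ˢ Set.Icc (0 : Fin N → ℝ) 1) := by
    intro κ i j
    simp only [hWd]
    have hsnd : ContinuousOn (fun q : ℝ × (Fin N → ℝ) => q.2)
        (Set.univ ×ˢ Set.Icc (0 : Fin N → ℝ) 1) := continuousOn_snd
    have hmap : Set.MapsTo (fun q : ℝ × (Fin N → ℝ) => q.2)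
        (Set.univ ×ˢ Set.Icc (0 : Fin N → ℝ) 1) (Set.Icc (0 : Fin N → ℝ) 1) :=
      fun q hq => hq.2
    have hcc : Continuous (C.c κ) := (C.smooth_c κ).continuous
    have hdc : Continuous (fderiv ℝ (C.c κ)) :=
      (C.smooth_c κ).continuous_fderiv (by simp)
    have hv : ∀ i, Continuous (fun ξ => fderiv ℝ (C.c κ) ξ (Pi.single i 1)) := fun i =>
      hdc.clm_apply continuous_const
    have hda : ContinuousOn (fun ξ => fderiv ℝ L.a (C.c κ ξ)) (Set.Icc (0 : Fin N → ℝ) 1) := by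
      have h1 : ContinuousOn (fderiv ℝ L.a) M.U :=
        L.smooth_a.continuousOn_fderiv_of_isOpen M.isOpen_U (by simp)
      exact h1.comp hcc.continuousOn (fun ξ hξ => C.mem_c κ ξ hξ)
    have hdf : ContinuousOn (fun ξ => dform L.a (C.c κ ξ)
        (fderiv ℝ (C.c κ) ξ (Pi.single i 1)) (fderiv ℝ (C.c κ) ξ (Pi.single j 1)))
        (Set.Icc (0 : Fin N → ℝ) 1) := by
      unfold dform
      exact ((hda.clm_apply (hv i).continuousOn).clm_apply (hv j).continuousOn).sub
        ((hda.clm_apply (hv j).continuousOn).clm_apply (hv i).continuousOn)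
    have hpc : Continuous (psi k) := (contDiff_psi k).continuous
    refine ContinuousOn.add ?_ ?_
    · refine continuousOn_finsetSum _ (fun r _ => continuousOn_const.mul ?_)
      exact ContinuousOn.comp (g := fun ξ => K r (C.c κ ξ)
        (fderiv ℝ (C.c κ) ξ (Pi.single i 1)) (fderiv ℝ (C.c κ) ξ (Pi.single j 1)))
        (f := fun q : ℝ × (Fin N → ℝ) => q.2) (hcont r κ i j) hsnd hmap
    · refine ContinuousOn.mul ?_ ?_
      · exact ((continuous_const.mul (hpc.comp continuous_fst)).add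
          continuous_const).continuousOn
      · exact ContinuousOn.comp (g := fun ξ => dform L.a (C.c κ ξ)
          (fderiv ℝ (C.c κ) ξ (Pi.single i 1)) (fderiv ℝ (C.c κ) ξ (Pi.single j 1)))
          (f := fun q : ℝ × (Fin N → ℝ) => q.2) hdf hsnd hmap
  rw [hfun, sph_power L h h' C k z W hW hW0 hWc]
  simp only [hpow]
  have h1 : ∀ s : ℝ, deriv (psi k) (-Real.cos (Real.pi * s)) *
      (Real.pi * Real.sin (Real.pi * s)) *
      (C₀ * (∏ r, x r ^ α r) * (z * psi k (-Real.cos (Real.pi * s)) + m * y) ^ b) =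
      (C₀ * ∏ r, x r ^ α r) * (deriv (psi k) (-Real.cos (Real.pi * s)) *
      (Real.pi * Real.sin (Real.pi * s)) *
      (z * psi k (-Real.cos (Real.pi * s)) + m * y) ^ b) := fun s => by ring
  simp only [h1]
  rw [intervalIntegral.integral_const_mul]
  have h2 := sp_integral_pow k b z (m * y)
  calc 4 * Real.pi * (n + 1) * z * ((C₀ * ∏ r, x r ^ α r) *
        ∫ s in (0 : ℝ)..1, deriv (psi k) (-Real.cos (Real.pi * s)) *
          (Real.pi * Real.sin (Real.pi * s)) *
          (z * psi k (-Real.cos (Real.pi * s)) + m * y) ^ b) =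
      4 * Real.pi * (n + 1) * C₀ * (∏ r, x r ^ α r) *
        (z * ∫ s in (0 : ℝ)..1, deriv (psi k) (-Real.cos (Real.pi * s)) *
          (Real.pi * Real.sin (Real.pi * s)) *
          (z * psi k (-Real.cos (Real.pi * s)) + m * y) ^ b) := by ring
    _ = _ := by
      rw [h2]
      ring

end

end Pool.Agent.HAF2
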