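import Pool.Agent.HAF2.SphM
import Pool.Agent.HaefligerClasses.Germs

/-!
# The suspension of a block: definitions

The local maps on `{(x, y, t)}` are `(f_i x, (φ_i x * gA (y, t))^2)` (chart `A = true`) and
`(f_i x, conj (φ_i x) * gB (y, t))` (chart `B = false`), with the stereographic coordinates
`gA = y / (r - t)`, `gB = conj y / (r + t)`, `r = √(‖y‖² + t²)` of the first stage
(`gA * gB = 1`, so the second coordinate of `B` is `w ^ (-1/2)`).
-/

namespace Pool.Agent.HAF2

open Filter Topology MeasureTheory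
open scoped ContDiff ComplexConjugate
open Pool.Agent.HaefligerClasses (QuotientManifold IsForm HaefligerStructure curvature
  torusElement gA gB rad)

/-- index set of the cover of the sphere -/
inductive SIdx
  | AR
  | AN
  | BR
  | BS
  deriving DecidableEq

/-- the chart: `true` for `A`, `false` for `B` -/
def SIdx.ch : SIdx → Bool
  | SIdx.AR => true
  | SIdx.AN => true
  | SIdx.BR => false
  | SIdx.BS => false

/-- the patch -/
def SIdx.pt : SIdx → Patch
  | SIdx.AR => Patch.R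
  | SIdx.AN => Patch.N
  | SIdx.BR => Patch.R
  | SIdx.BS => Patch.S

/-- the model space with one more plane -/
noncomputable def optTV (R K : Type) [Fintype R] [Fintype K] :
    TV (Option R) K ≃L[ℝ] TV R K × ℂ :=
  LinearEquiv.toContinuousLinearEquiv
    { toFun := fun v => ((fun r => v.1 (some r), v.2), v.1 none)
      invFun := fun p => (fun r => r.elim p.2 p.1.1, p.1.2)
      map_add' := fun _ _ => rfl
      map_smul' := fun _ _ => rfl
      left_inv := by
        intro v
        refine Prod.ext (funext fun r => ?_) rfl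
        cases r <;> rfl
      right_inv := fun _ => rfl }

section

variable {R K : Type} [Fintype R] [Fintype K] {n : ℕ} {α : R → ℕ} {b : ℕ}
  (D : Block R K n α b)

/-- the total space -/
abbrev SE : Type := D.E × ℂ × ℝ

/-- the open sets of the cover -/
def sdom (i : D.H.ι × SIdx) : Set (SE D) :=
  {p | p.1 ∈ D.H.dom i.1 ∧ p ∈ patchDom D.M i.2.pt}

/-- the new transversal coordinate -/
noncomputable def sw (i : D.H.ι) (c : Bool) (p : SE D) : ℂ :=
  if c = true then (D.φ i p.1 * gA p.2.1 p.2.2) ^ 2 else conj (D.φ i p.1) * gB p.2.1 p.2.2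

/-- the local maps -/
noncomputable def sf (i : D.H.ι × SIdx) (p : SE D) : D.V × ℂ :=
  (D.H.f i.1 p.1, sw D i.1 i.2.ch p)

/-- the difference of the leafwise flat connection and the connection of `ℓ` -/
noncomputable def zeta (i : D.H.ι) (x : D.E) : D.E →L[ℝ] ℝ :=
  Complex.imCLM ∘L mulC (conj (D.φ i x)) ∘L fderiv ℝ (D.φ i) x - D.ℓ.a x

/-- the coefficient of the new transversal coordinate under rotation: `2` or `-1` -/
noncomputable def kapS (c : Bool) : ℝ := if c = true then 2 else -1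

/-- the frame of the new plane -/
noncomputable def uS (i : D.H.ι) : SIdx → SE D → ℂ
  | SIdx.AR, p => ((Real.sqrt (1 + Complex.normSq (gA p.2.1 p.2.2))) ^ 3 : ℝ) *
      (D.φ i p.1 * yhat p) ^ 2
  | SIdx.AN, p => ((Real.sqrt (1 + Complex.normSq (gA p.2.1 p.2.2))) ^ 3 : ℝ) * D.φ i p.1 ^ 2
  | SIdx.BR, p => -(((Real.sqrt (1 + Complex.normSq (gB p.2.1 p.2.2))) ^ 3 / 2 : ℝ) *
      conj (D.φ i p.1 * yhat p))
  | SIdx.BS, p => ((Real.sqrt (1 + Complex.normSq (gB p.2.1 p.2.2))) ^ 3 / 2 : ℝ) *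
      conj (D.φ i p.1)

/-- the scale of the lift -/
noncomputable def cS (p : SE D) : ℝ :=
  (Real.sqrt (1 + Complex.normSq (gA p.2.1 p.2.2))) ^ 3 /
    (2 * Complex.normSq (gA p.2.1 p.2.2))

variable (s : D.H.ι → D.E → (D.V →L[ℝ] D.E))

/-- the frames of the suspension -/
noncomputable def sfr (i : D.H.ι × SIdx) (p : SE D) : TV (Option R) K →L[ℝ] D.V × ℂ :=
  ((D.frame i.1 p.1 ∘L ContinuousLinearMap.fst ℝ (TV R K) ℂ).prod
    (mulC ((kapS i.2.ch : ℂ) * sw D i.1 i.2.ch p * Complex.I) ∘L Complex.ofRealCLM ∘L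
        zeta D i.1 p.1 ∘L s i.1 p.1 ∘L D.frame i.1 p.1 ∘L
        ContinuousLinearMap.fst ℝ (TV R K) ℂ +
      mulC (uS D i.1 i.2 p) ∘L ContinuousLinearMap.snd ℝ (TV R K) ℂ)) ∘L
    (optTV R K : TV (Option R) K →L[ℝ] TV R K × ℂ)

theorem sfr_apply (i : D.H.ι × SIdx) (p : SE D) (v : TV (Option R) K) :
    sfr D s i p v = (D.frame i.1 p.1 (optTV R K v).1,
      (kapS i.2.ch : ℂ) * sw D i.1 i.2.ch p * Complex.I *
        (zeta D i.1 p.1 (s i.1 p.1 (D.frame i.1 p.1 (optTV R K v).1)) : ℂ) +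
      uS D i.1 i.2 p * v.1 none) := rfl

/-- the lifts of the frames of the patch `R` -/
noncomputable def slift (i : D.H.ι) (p : SE D) (v : TV (Option R) K) : SE D :=
  (s i p.1 (D.frame i p.1 (optTV R K v).1),
    -(Complex.I * (D.ℓ.a p.1 (s i p.1 (D.frame i p.1 (optTV R K v).1)) : ℂ) * p.2.1) +
      ((cS D p * (v.1 none).im : ℝ) : ℂ) * (Complex.I * p.2.1),
    rad p.2.1 p.2.2 * cS D p * (v.1 none).re)

end

end Pool.Agent.HAF2
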