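import Pool.Agent.HAF2.SusDefs
import Pool.Agent.HAF2.Opn
import Pool.Agent.HAF2.SphConn
import Pool.Agent.HAF2.Nrm

/-!
# Module SU1: local maps of the suspension: smoothness, openness, transitions

Transitions `(i, c), l, (j, c')`: let `γ₀ = D.H.γ i l j x` and `Θ` as in `D.leafwise`. Then
`γ (v, w) = (γ₀ v, G (v, w))` with
`A ← A`: `G = Θ v ^ 2 * w`; `B ← B`: `G = conj (Θ v) * w`; `A ← B`: `G = Θ v ^ 2 * (w ^ 2)⁻¹`;
`B ← A`: `G = conj (Θ v) * sg g₀ w`, where `sg` (HaefligerClasses/Germs.lean) is the branch of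
`w ^ (-1/2)` with value `g₀ = conj (φ_j x) * gB` at the base point (`eq_of_sq_eq`).
Note `‖Θ‖ = 1` at the base point. The derivative is block triangular, with the second diagonal
block the multiplication by a nonzero complex number, so its determinant is positive.

Openness: `(x, y, t) ↦ (f_i x, φ_i x * gA (y, t))` (or with `gB`) is a submersion: use the splitting
`s` and the surjectivity of the derivative of `gA`, `gB` on their domains (they have smooth local
sections), so it is open (`le_map_of_surjective`); the squaring map of the second coordinate is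
open.
-/

namespace Pool.Agent.HAF2

open Filter Topology MeasureTheory
open scoped ContDiff ComplexConjugate
open Pool.Agent.HaefligerClasses (QuotientManifold IsForm HaefligerStructure curvature
  torusElement gA gB rad gC chartDom chartDom_true_iff chartDom_false_iff contDiffAt_gC
  gA_mul_gB gB_ne_zero gA_ne_zero sg sg_sq sg_base continuousAt_sg contDiffAt_sg eq_of_sq_eq
  rad_sq rad_nonneg radicand_pos contDiff_normSq)

/-! ### Linear algebra -/

theorem su1_mulC_mul (c d : ℂ) : mulC c ∘L mulC d = mulC (c * d) := by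
  refine ContinuousLinearMap.ext fun z => ?_
  simp [mul_assoc]

theorem su1_det_mulC_pos (c : ℂ) (hc : c ≠ 0) : 0 < (mulC c).det := by
  obtain ⟨d, hd⟩ := IsAlgClosed.exists_eq_mul_self c
  have hd0 : d ≠ 0 := by
    intro h
    apply hc
    rw [hd, h, mul_zero]
  have hdet : ∀ A B : ℂ →L[ℝ] ℂ, (A ∘L B).det = A.det * B.det := fun A B =>
    LinearMap.det_comp (A : ℂ →ₗ[ℝ] ℂ) (B : ℂ →ₗ[ℝ] ℂ)
  have h1 : (mulC d).det * (mulC d⁻¹).det = 1 := by
    rw [← hdet, su1_mulC_mul, mul_inv_cancel₀ hd0]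
    have h2 : mulC 1 = ContinuousLinearMap.id ℝ ℂ := by
      refine ContinuousLinearMap.ext fun z => ?_
      simp
    rw [h2]
    exact LinearMap.det_id
  have h3 : (mulC d).det ≠ 0 := left_ne_zero_of_mul_eq_one h1
  rw [hd, ← su1_mulC_mul, hdet]
  exact mul_self_pos.2 h3

section lin

variable {V : Type} [NormedAddCommGroup V] [NormedSpace ℝ V]

/-- the shear -/
noncomputable def su1Shear (B : V →L[ℝ] ℂ) : (V × ℂ) →L[ℝ] (V × ℂ) :=
  (ContinuousLinearMap.fst ℝ V ℂ).prod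
    (B ∘L ContinuousLinearMap.fst ℝ V ℂ + ContinuousLinearMap.snd ℝ V ℂ)

theorem su1Shear_comp (B C : V →L[ℝ] ℂ) : su1Shear B ∘L su1Shear C = su1Shear (B + C) := by
  refine ContinuousLinearMap.ext fun q => ?_
  simp [su1Shear, add_assoc]

theorem su1_det_shear_pos [FiniteDimensional ℝ V] (B : V →L[ℝ] ℂ) : 0 < (su1Shear B).det := by
  have hdet : ∀ A C : (V × ℂ) →L[ℝ] (V × ℂ), (A ∘L C).det = A.det * C.det := fun A C =>
    LinearMap.det_comp (A : (V × ℂ) →ₗ[ℝ] (V × ℂ)) (C : (V × ℂ) →ₗ[ℝ] (V × ℂ))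
  have h0 : su1Shear (0 : V →L[ℝ] ℂ) = ContinuousLinearMap.id ℝ (V × ℂ) := by
    refine ContinuousLinearMap.ext fun q => ?_
    simp [su1Shear]
  have h1 : (su1Shear ((1 / 2 : ℝ) • B)).det * (su1Shear (-((1 / 2 : ℝ) • B))).det = 1 := by
    rw [← hdet, su1Shear_comp, add_neg_cancel, h0]
    exact LinearMap.det_id
  have h2 : (su1Shear ((1 / 2 : ℝ) • B)).det ≠ 0 := left_ne_zero_of_mul_eq_one h1
  have h3 : su1Shear B = su1Shear ((1 / 2 : ℝ) • B) ∘L su1Shear ((1 / 2 : ℝ) • B) := by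
    have h4 : (1 / 2 : ℝ) • B + (1 / 2 : ℝ) • B = B := by module
    rw [su1Shear_comp, h4]
  rw [h3, hdet]
  exact mul_self_pos.2 h2

theorem su1_det_block_pos [FiniteDimensional ℝ V] (A : V →L[ℝ] V) (B : V →L[ℝ] ℂ) (c : ℂ)
    (hA : 0 < A.det) (hc : c ≠ 0) :
    0 < ((A ∘L ContinuousLinearMap.fst ℝ V ℂ).prod
      (B ∘L ContinuousLinearMap.fst ℝ V ℂ + mulC c ∘L ContinuousLinearMap.snd ℝ V ℂ)).det := by
  have hdet : ∀ A C : (V × ℂ) →L[ℝ] (V × ℂ), (A ∘L C).det = A.det * C.det := fun A C =>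
    LinearMap.det_comp (A : (V × ℂ) →ₗ[ℝ] (V × ℂ)) (C : (V × ℂ) →ₗ[ℝ] (V × ℂ))
  have h1 : (A ∘L ContinuousLinearMap.fst ℝ V ℂ).prod
      (B ∘L ContinuousLinearMap.fst ℝ V ℂ + mulC c ∘L ContinuousLinearMap.snd ℝ V ℂ) =
      (A.prodMap (mulC c)) ∘L su1Shear (mulC c⁻¹ ∘L B) := by
    refine ContinuousLinearMap.ext fun q => ?_
    refine Prod.ext ?_ ?_
    · simp [su1Shear]
    · simp [su1Shear, mul_add, mul_inv_cancel_left₀ hc]
  have h2 : (A.prodMap (mulC c)).det = A.det * (mulC c).det :=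
    LinearMap.det_prodMap (A : V →ₗ[ℝ] V) (mulC c : ℂ →ₗ[ℝ] ℂ)
  rw [h1, hdet, h2]
  exact mul_pos (mul_pos hA (su1_det_mulC_pos c hc)) (su1_det_shear_pos _)

/-- germs of block triangular form -/
theorem su1_germ [FiniteDimensional ℝ V] (γ₀ : V → V) (T : V → ℂ) (h : ℂ → ℂ) (v₀ : V) (w₀ : ℂ)
    (h' : ℂ) (h1 : ContDiffAt ℝ ∞ γ₀ v₀) (h2 : 0 < (fderiv ℝ γ₀ v₀).det)
    (h3 : ContDiffAt ℝ ∞ T v₀) (h4 : T v₀ ≠ 0) (h5 : ContDiffAt ℝ ∞ h w₀)
    (h6 : HasDerivAt h h' w₀) (h7 : h' ≠ 0) :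
    ContDiffAt ℝ ∞ (fun q : V × ℂ => (γ₀ q.1, T q.1 * h q.2)) (v₀, w₀) ∧
    0 < (fderiv ℝ (fun q : V × ℂ => (γ₀ q.1, T q.1 * h q.2)) (v₀, w₀)).det := by
  have c1 : ContDiffAt ℝ ∞ (fun q : V × ℂ => γ₀ q.1) (v₀, w₀) :=
    ContDiffAt.comp (v₀, w₀) (f := fun q : V × ℂ => q.1) (g := γ₀) h1 contDiffAt_fst
  have c2 : ContDiffAt ℝ ∞ (fun q : V × ℂ => T q.1) (v₀, w₀) :=
    ContDiffAt.comp (v₀, w₀) (f := fun q : V × ℂ => q.1) (g := T) h3 contDiffAt_fst
  have c3 : ContDiffAt ℝ ∞ (fun q : V × ℂ => h q.2) (v₀, w₀) :=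
    ContDiffAt.comp (v₀, w₀) (f := fun q : V × ℂ => q.2) (g := h) h5 contDiffAt_snd
  refine ⟨c1.prodMk (c2.mul c3), ?_⟩
  have hf : HasFDerivAt (fun q : V × ℂ => q.1) (ContinuousLinearMap.fst ℝ V ℂ) (v₀, w₀) :=
    hasFDerivAt_fst
  have hs : HasFDerivAt (fun q : V × ℂ => q.2) (ContinuousLinearMap.snd ℝ V ℂ) (v₀, w₀) :=
    hasFDerivAt_snd
  have d1 : HasFDerivAt (fun q : V × ℂ => γ₀ q.1)
      (fderiv ℝ γ₀ v₀ ∘L ContinuousLinearMap.fst ℝ V ℂ) (v₀, w₀) :=
    HasFDerivAt.comp (g := γ₀) (f := fun q : V × ℂ => q.1) (v₀, w₀)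
      (h1.differentiableAt (by simp)).hasFDerivAt hf
  have d2 : HasFDerivAt (fun q : V × ℂ => T q.1)
      (fderiv ℝ T v₀ ∘L ContinuousLinearMap.fst ℝ V ℂ) (v₀, w₀) :=
    HasFDerivAt.comp (g := T) (f := fun q : V × ℂ => q.1) (v₀, w₀)
      (h3.differentiableAt (by simp)).hasFDerivAt hf
  have h8 : HasFDerivAt h (mulC h') w₀ := by
    refine (h6.hasFDerivAt.restrictScalars ℝ).congr_fderiv ?_
    refine ContinuousLinearMap.ext fun z => ?_
    simp [mul_comm]
  have d3 : HasFDerivAt (fun q : V × ℂ => h q.2)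
      (mulC h' ∘L ContinuousLinearMap.snd ℝ V ℂ) (v₀, w₀) :=
    HasFDerivAt.comp (g := h) (f := fun q : V × ℂ => q.2) (v₀, w₀) h8 hs
  have d4 := d1.prodMk (d2.mul d3)
  have d5 : HasFDerivAt (fun q : V × ℂ => (γ₀ q.1, T q.1 * h q.2))
      ((fderiv ℝ γ₀ v₀ ∘L ContinuousLinearMap.fst ℝ V ℂ).prod
      ((h w₀ • fderiv ℝ T v₀) ∘L ContinuousLinearMap.fst ℝ V ℂ +
        mulC (T v₀ * h') ∘L ContinuousLinearMap.snd ℝ V ℂ)) (v₀, w₀) := by
    refine d4.congr_fderiv ?_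
    refine ContinuousLinearMap.ext fun z => ?_
    refine Prod.ext ?_ ?_
    · simp
    · simp [mul_assoc]
      ring
  rw [d5.fderiv]
  exact su1_det_block_pos _ _ _ h2 (mul_ne_zero h4 h7)

end lin

/-! ### The coordinates of the sphere -/

theorem su1_rad_mul (J v : ℂ) (t : ℝ) (hJ : ‖J‖ = 1) : rad (J * v) t = rad v t := by
  unfold rad
  rw [map_mul, Complex.normSq_eq_norm_sq J, hJ]
  norm_num

theorem su1_rad_pos {b : Bool} {v : ℂ} {t : ℝ} (h : chartDom b v t) : 0 < rad v t :=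
  Real.sqrt_pos.2 (radicand_pos h)

/-- local section of `gC` -/
noncomputable def su1Sec (b : Bool) (ρ : ℝ) (w : ℂ) : ℂ × ℝ :=
  if b = true then
    (((2 * ρ / (1 + Complex.normSq w) : ℝ) : ℂ) * w,
      ρ * (Complex.normSq w - 1) / (1 + Complex.normSq w))
  else
    (((2 * ρ / (1 + Complex.normSq w) : ℝ) : ℂ) * conj w,
      ρ * (1 - Complex.normSq w) / (1 + Complex.normSq w))

theorem su1_one_add (w : ℂ) : 0 < 1 + Complex.normSq w := by
  have := Complex.normSq_nonneg w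
  linarith

theorem su1_rad_sec (b : Bool) (ρ : ℝ) (hρ : 0 < ρ) (w : ℂ) :
    rad (su1Sec b ρ w).1 (su1Sec b ρ w).2 = ρ := by
  have h1 := su1_one_add w
  have h2 : Complex.normSq (su1Sec b ρ w).1 + (su1Sec b ρ w).2 ^ 2 = ρ ^ 2 := by
    cases b
    · simp only [su1Sec, Bool.false_eq_true, if_false, map_mul, Complex.normSq_ofReal,
        Complex.normSq_conj]
      field_simp
      ring
    · simp only [su1Sec, if_true, map_mul, Complex.normSq_ofReal]
      field_simp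
      ring
  unfold rad
  rw [h2]
  exact Real.sqrt_sq hρ.le

theorem su1_gC_sec (b : Bool) (ρ : ℝ) (hρ : 0 < ρ) (w : ℂ) :
    gC b (su1Sec b ρ w).1 (su1Sec b ρ w).2 = w := by
  have h1 := su1_one_add w
  have hr := su1_rad_sec b ρ hρ w
  have h1c : (1 + (Complex.normSq w : ℂ)) ≠ 0 := by exact_mod_cast h1.ne'
  have hρc : (ρ : ℂ) ≠ 0 := by exact_mod_cast hρ.ne'
  cases b
  · simp only [gC, Bool.false_eq_true, if_false]
    unfold gB
    rw [hr]
    simp only [su1Sec, Bool.false_eq_true, if_false, map_mul, Complex.conj_ofReal,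
      Complex.conj_conj]
    have h3 : (ρ + ρ * (1 - Complex.normSq w) / (1 + Complex.normSq w) : ℝ) =
        2 * ρ / (1 + Complex.normSq w) := by
      field_simp
      ring
    have h4 : ((2 * ρ / (1 + Complex.normSq w) : ℝ) : ℂ) ≠ 0 := by
      have : (2 * ρ / (1 + Complex.normSq w) : ℝ) ≠ 0 := by positivity
      exact_mod_cast this
    show _ / ((ρ + ρ * (1 - Complex.normSq w) / (1 + Complex.normSq w) : ℝ) : ℂ) = w
    rw [h3, mul_div_cancel_left₀ _ h4]
  · simp only [gC, if_true]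
    unfold gA
    rw [hr]
    simp only [su1Sec, if_true]
    have h3 : (ρ - ρ * (Complex.normSq w - 1) / (1 + Complex.normSq w) : ℝ) =
        2 * ρ / (1 + Complex.normSq w) := by
      field_simp
      ring
    have h4 : ((2 * ρ / (1 + Complex.normSq w) : ℝ) : ℂ) ≠ 0 := by
      have : (2 * ρ / (1 + Complex.normSq w) : ℝ) ≠ 0 := by positivity
      exact_mod_cast this
    show _ / ((ρ - ρ * (Complex.normSq w - 1) / (1 + Complex.normSq w) : ℝ) : ℂ) = w
    rw [h3, mul_div_cancel_left₀ _ h4]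

theorem su1_sec_gC (b : Bool) (v : ℂ) (t : ℝ) (h : chartDom b v t) :
    su1Sec b (rad v t) (gC b v t) = (v, t) := by
  have hr := su1_rad_pos h
  have hsq := rad_sq v t
  cases b
  · have h1 : 0 < rad v t + t := by
      have : -t < rad v t := by simpa [chartDom] using h
      linarith
    have hn : Complex.normSq (gB v t) = (rad v t - t) / (rad v t + t) := by
      unfold gB
      rw [map_div₀, Complex.normSq_conj, Complex.normSq_ofReal]
      have h2 : Complex.normSq v = (rad v t - t) * (rad v t + t) := by linear_combination -hsq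
      rw [h2]
      field_simp
    simp only [su1Sec, gC, Bool.false_eq_true, if_false, hn]
    have e1 : (1 + (rad v t - t) / (rad v t + t) : ℝ) = 2 * rad v t / (rad v t + t) := by
      field_simp
      ring
    have e2 : (1 - (rad v t - t) / (rad v t + t) : ℝ) = 2 * t / (rad v t + t) := by
      field_simp
      ring
    have h3 : (2 * rad v t / (1 + (rad v t - t) / (rad v t + t)) : ℝ) = rad v t + t := by
      rw [e1]
      field_simp
    have h4 : (rad v t * (1 - (rad v t - t) / (rad v t + t)) /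
        (1 + (rad v t - t) / (rad v t + t)) : ℝ) = t := by
      rw [e1, e2]
      field_simp
    rw [h3, h4]
    refine Prod.ext ?_ rfl
    have h5 : ((rad v t + t : ℝ) : ℂ) ≠ 0 := by exact_mod_cast h1.ne'
    simp only [gB, map_div₀, Complex.conj_ofReal, Complex.conj_conj]
    exact mul_div_cancel₀ _ h5
  · have h1 : 0 < rad v t - t := by
      have : t < rad v t := by simpa [chartDom] using h
      linarith
    have hn : Complex.normSq (gA v t) = (rad v t + t) / (rad v t - t) := by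
      unfold gA
      rw [map_div₀, Complex.normSq_ofReal]
      have h2 : Complex.normSq v = (rad v t - t) * (rad v t + t) := by linear_combination -hsq
      rw [h2]
      field_simp
    simp only [su1Sec, gC, if_true, hn]
    have e1 : (1 + (rad v t + t) / (rad v t - t) : ℝ) = 2 * rad v t / (rad v t - t) := by
      field_simp
      ring
    have e2 : ((rad v t + t) / (rad v t - t) - 1 : ℝ) = 2 * t / (rad v t - t) := by
      field_simp
      ring
    have h3 : (2 * rad v t / (1 + (rad v t + t) / (rad v t - t)) : ℝ) = rad v t - t := by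
      rw [e1]
      field_simp
    have h4 : (rad v t * ((rad v t + t) / (rad v t - t) - 1) /
        (1 + (rad v t + t) / (rad v t - t)) : ℝ) = t := by
      rw [e1, e2]
      field_simp
    rw [h3, h4]
    refine Prod.ext ?_ rfl
    have h5 : ((rad v t - t : ℝ) : ℂ) ≠ 0 := by exact_mod_cast h1.ne'
    simp only [gA]
    exact mul_div_cancel₀ _ h5

theorem su1_contDiff_sec (b : Bool) (ρ : ℝ) : ContDiff ℝ ∞ (su1Sec b ρ) := by
  have h1 : ∀ w : ℂ, (1 + Complex.normSq w) ≠ 0 := fun w => (su1_one_add w).ne'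
  have h2 : ContDiff ℝ ∞ (fun w : ℂ => ((2 * ρ / (1 + Complex.normSq w) : ℝ) : ℂ)) :=
    Complex.ofRealCLM.contDiff.comp
      (contDiff_const.div (contDiff_const.add contDiff_normSq) h1)
  cases b
  · have h3 : su1Sec false ρ = fun w => (((2 * ρ / (1 + Complex.normSq w) : ℝ) : ℂ) * conj w,
        ρ * (1 - Complex.normSq w) / (1 + Complex.normSq w)) := by
      funext w
      simp [su1Sec]
    rw [h3]
    exact (h2.mul Complex.conjCLE.contDiff).prodMk
      ((contDiff_const.mul (contDiff_const.sub contDiff_normSq)).div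
        (contDiff_const.add contDiff_normSq) h1)
  · have h3 : su1Sec true ρ = fun w => (((2 * ρ / (1 + Complex.normSq w) : ℝ) : ℂ) * w,
        ρ * (Complex.normSq w - 1) / (1 + Complex.normSq w)) := by
      funext w
      simp [su1Sec]
    rw [h3]
    exact (h2.mul contDiff_id).prodMk
      ((contDiff_const.mul (contDiff_normSq.sub contDiff_const)).div
        (contDiff_const.add contDiff_normSq) h1)

/-- `gC` is a submersion -/
theorem su1_surj_gC (b : Bool) (v : ℂ) (t : ℝ) (h : chartDom b v t) :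
    Function.Surjective (fderiv ℝ (fun x : ℂ × ℝ => gC b x.1 x.2) (v, t)) := by
  have hr := su1_rad_pos h
  have h1 : DifferentiableAt ℝ (fun x : ℂ × ℝ => gC b x.1 x.2)
      (su1Sec b (rad v t) (gC b v t)) := by
    rw [su1_sec_gC b v t h]
    exact (contDiffAt_gC b v t h).differentiableAt (by simp)
  have h2 : DifferentiableAt ℝ (su1Sec b (rad v t)) (gC b v t) :=
    (su1_contDiff_sec b (rad v t)).differentiable (by simp) _
  have h3 := h1.hasFDerivAt.comp (gC b v t) h2.hasFDerivAt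
  have h4 : HasFDerivAt (fun w : ℂ => w) (ContinuousLinearMap.id ℝ ℂ) (gC b v t) :=
    hasFDerivAt_id _
  have h5 : ((fun x : ℂ × ℝ => gC b x.1 x.2) ∘ su1Sec b (rad v t)) = fun w : ℂ => w := by
    funext w
    exact su1_gC_sec b (rad v t) hr w
  rw [h5] at h3
  have h6 := h3.unique h4
  rw [su1_sec_gC b v t h] at h6
  intro z
  refine ⟨fderiv ℝ (su1Sec b (rad v t)) (gC b v t) z, ?_⟩
  exact congrArg (fun A : ℂ →L[ℝ] ℂ => A z) h6

/-- squaring is open -/
theorem su1_sq_open (w : ℂ) : 𝓝 (w ^ 2) ≤ map (fun z : ℂ => z ^ 2) (𝓝 w) := by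
  have h1 : AnalyticAt ℂ (fun z : ℂ => z ^ 2) w := analyticAt_id.pow 2
  rcases h1.eventually_constant_or_nhds_le_map_nhds with h | h
  · exfalso
    obtain ⟨ε, hε, hb⟩ := Metric.eventually_nhds_iff.1 h
    have e1 : (w + ((ε / 2 : ℝ) : ℂ)) ^ 2 = w ^ 2 := by
      apply hb
      rw [dist_eq_norm, add_sub_cancel_left, Complex.norm_real, Real.norm_eq_abs,
        abs_of_pos (by positivity)]
      linarith
    have e2 : (w - ((ε / 2 : ℝ) : ℂ)) ^ 2 = w ^ 2 := by
      apply hb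
      rw [dist_eq_norm, sub_sub_cancel_left, norm_neg, Complex.norm_real, Real.norm_eq_abs,
        abs_of_pos (by positivity)]
      linarith
    have e3 : ((ε / 2 : ℝ) : ℂ) ^ 2 = 0 := by linear_combination (1 / 2) * e1 + (1 / 2) * e2
    have e4 : ((ε / 2 : ℝ) : ℂ) = 0 := pow_eq_zero_iff (two_ne_zero) |>.1 e3
    have e5 : (ε / 2 : ℝ) = 0 := by exact_mod_cast e4
    linarith
  · exact h

section

variable {R K : Type} [Fintype R] [Fintype K] {n : ℕ} {α : R → ℕ} {b : ℕ}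
  (D : Block R K n α b)

theorem isOpen_sdom (i : D.H.ι × SIdx) : IsOpen (sdom D i) :=
  ((D.H.isOpen_dom i.1).preimage continuous_fst).inter (isOpen_patchDom D.M i.2.pt)

theorem sdom_subset (i : D.H.ι × SIdx) : sdom D i ⊆ sphU D.M :=
  fun _ hp => patchDom_subset D.M i.2.pt hp.2

theorem sdom_cover (p : SE D) (hp : p ∈ sphU D.M) : ∃ i, p ∈ sdom D i := by
  obtain ⟨i, hi⟩ := D.H.cover p.1 hp.1
  obtain ⟨c, hc⟩ := patchDom_cover D.M p hp
  cases c with
  | R => exact ⟨(i, SIdx.AR), hi, hc⟩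
  | N => exact ⟨(i, SIdx.AN), hi, hc⟩
  | S => exact ⟨(i, SIdx.BS), hi, hc⟩

/-- value of the new coordinate under the action -/
theorem gA_act (l : D.Λ) (p : SE D) (hp : p ∈ sphU D.M) :
    gA (sphAct D.M D.ℓ l p).2.1 (sphAct D.M D.ℓ l p).2.2 = D.ℓ.J l p.1 * gA p.2.1 p.2.2 ∧
    gB (sphAct D.M D.ℓ l p).2.1 (sphAct D.M D.ℓ l p).2.2 =
      conj (D.ℓ.J l p.1) * gB p.2.1 p.2.2 := by
  have hJ := D.ℓ.norm_J l p.1 hp.1
  have hr := su1_rad_mul (D.ℓ.J l p.1) p.2.1 p.2.2 hJ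
  simp only [sphAct]
  constructor
  · unfold gA
    rw [hr, mul_div_assoc]
  · unfold gB
    rw [hr, map_mul, mul_div_assoc]

/-- the charts are defined on their patches -/
theorem su1_chart (c : SIdx) (p : SE D) (hp : p ∈ patchDom D.M c.pt) :
    chartDom c.ch p.2.1 p.2.2 := by
  cases c with
  | AR => exact (chartDom_true_iff _ _).2 (Or.inl hp.2)
  | AN =>
    refine (chartDom_true_iff _ _).2 (Or.inr ?_)
    have : p.2.2 < -(1 / 4) := hp.2
    linarith
  | BR => exact (chartDom_false_iff _ _).2 (Or.inl hp.2)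
  | BS =>
    refine (chartDom_false_iff _ _).2 (Or.inr ?_)
    have : 1 / 4 < p.2.2 := hp.2
    linarith

theorem su1_contDiffAt_phi (i : D.H.ι) (p : SE D) (hp : p.1 ∈ D.H.dom i) :
    ContDiffAt ℝ ∞ (fun q : SE D => D.φ i q.1) p :=
  ContDiffAt.comp p (f := fun q : SE D => q.1) (g := D.φ i)
    ((D.smooth_φ i).contDiffAt ((D.H.isOpen_dom i).mem_nhds hp)) contDiffAt_fst

theorem su1_contDiffAt_gC (b' : Bool) (p : SE D) (hp : chartDom b' p.2.1 p.2.2) :
    ContDiffAt ℝ ∞ (fun q : SE D => gC b' q.2.1 q.2.2) p :=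
  ContDiffAt.comp p (f := fun q : SE D => q.2) (g := fun x : ℂ × ℝ => gC b' x.1 x.2)
    (contDiffAt_gC b' p.2.1 p.2.2 hp) contDiffAt_snd

/-- the unit factor of the new coordinate -/
noncomputable def su1u (i : D.H.ι) (c : Bool) (p : SE D) : ℂ :=
  if c = true then D.φ i p.1 else conj (D.φ i p.1)

theorem su1_contDiffAt_u (i : D.H.ι) (c : Bool) (p : SE D) (hp : p.1 ∈ D.H.dom i) :
    ContDiffAt ℝ ∞ (su1u D i c) p := by
  have h := su1_contDiffAt_phi D i p hp
  cases c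
  · have h1 : su1u D i false = fun q => Complex.conjCLE (D.φ i q.1) := by
      funext q
      simp [su1u]
    rw [h1]
    exact Complex.conjCLE.contDiff.contDiffAt.comp p h
  · have h1 : su1u D i true = fun q => D.φ i q.1 := by
      funext q
      simp [su1u]
    rw [h1]
    exact h

theorem su1_u_ne (i : D.H.ι) (c : Bool) (p : SE D) (hp : p.1 ∈ D.H.dom i) :
    su1u D i c p ≠ 0 := by
  have h := D.norm_φ i p.1 hp
  have h1 : D.φ i p.1 ≠ 0 := by
    intro h0
    rw [h0, norm_zero] at h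
    exact zero_ne_one h
  cases c
  · simpa [su1u] using h1
  · simpa [su1u] using h1

/-- the coordinate before squaring -/
noncomputable def su1w (i : D.H.ι) (c : Bool) (p : SE D) : ℂ :=
  su1u D i c p * gC c p.2.1 p.2.2

theorem su1_sw_true (i : D.H.ι) : sw D i true = fun p => su1w D i true p ^ 2 := by
  funext p
  simp [sw, su1w, su1u, gC]

theorem su1_sw_false (i : D.H.ι) : sw D i false = fun p => su1w D i false p := by
  funext p
  simp [sw, su1w, su1u, gC]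

theorem su1_contDiffAt_w (i : D.H.ι) (c : Bool) (p : SE D) (hp : p.1 ∈ D.H.dom i)
    (hc : chartDom c p.2.1 p.2.2) : ContDiffAt ℝ ∞ (su1w D i c) p :=
  (su1_contDiffAt_u D i c p hp).mul (su1_contDiffAt_gC D c p hc)

theorem su1_contDiffAt_sw (i : D.H.ι) (c : Bool) (p : SE D) (hp : p.1 ∈ D.H.dom i)
    (hc : chartDom c p.2.1 p.2.2) : ContDiffAt ℝ ∞ (sw D i c) p := by
  have h := su1_contDiffAt_w D i c p hp hc
  cases c
  · rw [su1_sw_false]
    exact h
  · rw [su1_sw_true]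
    exact h.pow 2

theorem contDiffOn_sw (i : D.H.ι) (c : SIdx) :
    ContDiffOn ℝ ∞ (sw D i c.ch) (sdom D (i, c)) := fun p hp =>
  (su1_contDiffAt_sw D i c.ch p hp.1 (su1_chart D c p hp.2)).contDiffWithinAt

theorem su1_contDiffAt_f (i : D.H.ι) (p : SE D) (hp : p.1 ∈ D.H.dom i) :
    ContDiffAt ℝ ∞ (fun q : SE D => D.H.f i q.1) p :=
  ContDiffAt.comp p (f := fun q : SE D => q.1) (g := D.H.f i)
    ((D.H.smooth_f i).contDiffAt ((D.H.isOpen_dom i).mem_nhds hp)) contDiffAt_fst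

theorem contDiffOn_sf (i : D.H.ι × SIdx) : ContDiffOn ℝ ∞ (sf D i) (sdom D i) := fun p hp =>
  ((su1_contDiffAt_f D i.1 p hp.1).prodMk
    (su1_contDiffAt_sw D i.1 i.2.ch p hp.1 (su1_chart D i.2 p hp.2))).contDiffWithinAt

/-- two charts of different type overlap only where `y ≠ 0` -/
theorem su1_ne (i j : SIdx) (h : i.ch ≠ j.ch) (p : SE D) (hi : p ∈ patchDom D.M i.pt)
    (hj : p ∈ patchDom D.M j.pt) : p.2.1 ≠ 0 := by
  cases i <;> cases j <;> first | exact hi.2 | exact hj.2 | exact absurd rfl h | skip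
  · exfalso
    have h1 : p.2.2 < -(1 / 4) := hi.2
    have h2 : 1 / 4 < p.2.2 := hj.2
    linarith
  · exfalso
    have h1 : p.2.2 < -(1 / 4) := hj.2
    have h2 : 1 / 4 < p.2.2 := hi.2
    linarith

theorem su1_chart_both (p : SE D) (hy : p.2.1 ≠ 0) :
    chartDom true p.2.1 p.2.2 ∧ chartDom false p.2.1 p.2.2 :=
  ⟨(chartDom_true_iff _ _).2 (Or.inl hy), (chartDom_false_iff _ _).2 (Or.inl hy)⟩

theorem su1_w_mul (j : D.H.ι) (p : SE D) (hp : p.1 ∈ D.H.dom j) (hy : p.2.1 ≠ 0) :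
    su1w D j true p * su1w D j false p = 1 := by
  obtain ⟨h1, h2⟩ := su1_chart_both D p hy
  have h3 := gA_mul_gB p.2.1 p.2.2 h1 h2
  have h4 : D.φ j p.1 * conj (D.φ j p.1) = 1 := by
    rw [Complex.mul_conj, Complex.normSq_eq_norm_sq, D.norm_φ j p.1 hp]
    norm_num
  simp only [su1w, su1u, gC, if_true, Bool.false_eq_true, if_false]
  linear_combination (gA p.2.1 p.2.2 * gB p.2.1 p.2.2) * h4 + h3

theorem su1_hasDerivAt_sg (g₀ w₀ : ℂ) (h : w₀ * g₀ ^ 2 = 1) :
    HasDerivAt (sg g₀) (-(1 / 2) * g₀ ^ 3) w₀ := by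
  have hg : g₀ ≠ 0 := by
    intro h0
    rw [h0] at h
    norm_num at h
  have h1 : HasDerivAt (fun w : ℂ => w * g₀ ^ 2) (g₀ ^ 2) w₀ := by
    simpa using (hasDerivAt_id w₀).mul_const (g₀ ^ 2)
  have h2 : HasDerivAt (fun w : ℂ => Complex.log (w * g₀ ^ 2)) (g₀ ^ 2 / (w₀ * g₀ ^ 2)) w₀ :=
    h1.clog (by rw [h]; exact Complex.one_mem_slitPlane)
  have h3 := ((h2.const_mul (-(1 / 2) : ℂ)).cexp).const_mul g₀
  have h4 : g₀ * (Complex.exp (-(1 / 2) * Complex.log (w₀ * g₀ ^ 2)) *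
      (-(1 / 2) * (g₀ ^ 2 / (w₀ * g₀ ^ 2)))) = -(1 / 2) * g₀ ^ 3 := by
    rw [h]
    simp
    ring
  rw [h4] at h3
  exact h3

/-- the new coordinate after the action -/
theorem su1_sw_act (i j : D.H.ι) (l : D.Λ) (c : Bool) (Θ : D.V → ℂ) (y : SE D)
    (hy : y ∈ sphU D.M)
    (h : D.φ i (D.M.act l y.1) * D.ℓ.J l y.1 = Θ (D.H.f j y.1) * D.φ j y.1) :
    sw D i c (sphAct D.M D.ℓ l y) = if c = true then
      Θ (D.H.f j y.1) ^ 2 * su1w D j true y ^ 2 else
      conj (Θ (D.H.f j y.1)) * su1w D j false y := by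
  obtain ⟨h1, h2⟩ := gA_act D l y hy
  cases c
  · have h3 := congrArg (starRingEnd ℂ) h
    rw [map_mul, map_mul] at h3
    simp only [sw, su1w, su1u, gC, if_true, Bool.false_eq_true, if_false]
    rw [h2]
    show conj (D.φ i (D.M.act l y.1)) * _ = _
    linear_combination (gB y.2.1 y.2.2) * h3
  · simp only [sw, su1w, su1u, gC, if_true, if_true]
    rw [h1]
    show (D.φ i (D.M.act l y.1) * _) ^ 2 = _
    have h4 : D.φ i (D.M.act l y.1) * (D.ℓ.J l y.1 * gA y.2.1 y.2.2) =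
        Θ (D.H.f j y.1) * (D.φ j y.1 * gA y.2.1 y.2.2) := by
      linear_combination (gA y.2.1 y.2.2) * h
    rw [h4]
    ring

theorem trans_sf (i : D.H.ι × SIdx) (l : D.Λ) (j : D.H.ι × SIdx) (p : SE D)
    (hj : p ∈ sdom D j) (hi : sphAct D.M D.ℓ l p ∈ sdom D i) :
    ∃ γ : D.V × ℂ → D.V × ℂ, ContDiffAt ℝ ∞ γ (sf D j p) ∧
      0 < (fderiv ℝ γ (sf D j p)).det ∧
      ∀ᶠ y in 𝓝 p, γ (sf D j y) = sf D i (sphAct D.M D.ℓ l y) := by
  have hp : p ∈ sphU D.M := sdom_subset D j hj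
  have hx1 : p.1 ∈ D.H.dom j.1 := hj.1
  have hx2 : D.M.act l p.1 ∈ D.H.dom i.1 := hi.1
  have hpi : p ∈ patchDom D.M i.2.pt := (patchDom_act D.M D.ℓ i.2.pt l p hp).1 hi.2
  obtain ⟨Θ, hΘ1, hΘ2⟩ := D.leafwise i.1 l j.1 p.1 hx1 hx2
  have hγ1 := D.H.smooth_γ i.1 l j.1 p.1 hx1 hx2
  have hγ2 := D.H.orient_γ i.1 l j.1 p.1 hx1 hx2
  have hγ3 := D.H.map_γ i.1 l j.1 p.1 hx1 hx2
  set γ₀ := D.H.γ i.1 l j.1 p.1 with hγ₀
  have hfst : Tendsto (fun y : SE D => y.1) (𝓝 p) (𝓝 p.1) := continuous_fst.tendsto p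
  have hE1 : ∀ᶠ y : SE D in 𝓝 p, D.φ i.1 (D.M.act l y.1) * D.ℓ.J l y.1 =
      Θ (D.H.f j.1 y.1) * D.φ j.1 y.1 := hfst.eventually hΘ2
  have hE2 : ∀ᶠ y : SE D in 𝓝 p, γ₀ (D.H.f j.1 y.1) = D.H.f i.1 (D.M.act l y.1) :=
    hfst.eventually hγ3
  have hE3 : ∀ᶠ y : SE D in 𝓝 p, y ∈ sphU D.M := (isOpen_sphU D.M).mem_nhds hp
  have hE4 : ∀ᶠ y : SE D in 𝓝 p, y ∈ sdom D j := (isOpen_sdom D j).mem_nhds hj
  have hE5 : ∀ᶠ y : SE D in 𝓝 p, y ∈ patchDom D.M i.2.pt :=
    (isOpen_patchDom D.M i.2.pt).mem_nhds hpi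
  have h0 : D.φ i.1 (D.M.act l p.1) * D.ℓ.J l p.1 = Θ (D.H.f j.1 p.1) * D.φ j.1 p.1 :=
    hE1.self_of_nhds
  have hΘ0 : Θ (D.H.f j.1 p.1) ≠ 0 := by
    intro h1
    rw [h1, zero_mul] at h0
    have h2 := congrArg norm h0
    rw [norm_mul, D.norm_φ i.1 _ hx2, D.ℓ.norm_J l p.1 hp.1, norm_zero] at h2
    norm_num at h2
  have hT2 : ContDiffAt ℝ ∞ (fun v => Θ v ^ 2) (D.H.f j.1 p.1) := hΘ1.pow 2
  have hTc : ContDiffAt ℝ ∞ (fun v => conj (Θ v)) (D.H.f j.1 p.1) :=
    Complex.conjCLE.contDiff.contDiffAt.comp _ hΘ1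
  have hTc0 : conj (Θ (D.H.f j.1 p.1)) ≠ 0 := by simpa using hΘ0
  have hTs0 : Θ (D.H.f j.1 p.1) ^ 2 ≠ 0 := pow_ne_zero 2 hΘ0
  rcases hci : i.2.ch with _ | _ <;> rcases hcj : j.2.ch with _ | _
  · -- B from B
    obtain ⟨h1, h2⟩ := su1_germ γ₀ (fun v => conj (Θ v)) (fun w => w) (D.H.f j.1 p.1)
      (sw D j.1 false p) 1 hγ1 hγ2 hTc hTc0 contDiffAt_id (hasDerivAt_id _) one_ne_zero
    refine ⟨fun q => (γ₀ q.1, conj (Θ q.1) * q.2), ?_, ?_, ?_⟩
    · rw [sf, hcj]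
      exact h1
    · rw [sf, hcj]
      exact h2
    · filter_upwards [hE1, hE2, hE3] with y k1 k2 k3
      refine Prod.ext k2 ?_
      show conj (Θ (D.H.f j.1 y.1)) * sw D j.1 j.2.ch y = sw D i.1 i.2.ch (sphAct D.M D.ℓ l y)
      rw [hci, hcj, su1_sw_act D i.1 j.1 l false Θ y k3 k1, su1_sw_false]
      simp
  · -- B from A
    have hne : p.2.1 ≠ 0 := su1_ne D i.2 j.2 (by rw [hci, hcj]; decide) p hpi hj.2
    set g₀ := su1w D j.1 false p with hg₀
    have hmul := su1_w_mul D j.1 p hx1 hne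
    have hbase : sw D j.1 true p * g₀ ^ 2 = 1 := by
      rw [su1_sw_true]
      show su1w D j.1 true p ^ 2 * g₀ ^ 2 = 1
      rw [← mul_pow, hmul, one_pow]
    have hg0 : g₀ ≠ 0 := right_ne_zero_of_mul_eq_one hmul
    have hslit : sw D j.1 true p * g₀ ^ 2 ∈ Complex.slitPlane := by
      rw [hbase]
      exact Complex.one_mem_slitPlane
    obtain ⟨h1, h2⟩ := su1_germ γ₀ (fun v => conj (Θ v)) (sg g₀) (D.H.f j.1 p.1)
      (sw D j.1 true p) (-(1 / 2) * g₀ ^ 3) hγ1 hγ2 hTc hTc0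
      (contDiffAt_sg contDiffAt_const contDiffAt_id hslit)
      (su1_hasDerivAt_sg g₀ _ hbase) (mul_ne_zero (by norm_num) (pow_ne_zero 3 hg0))
    refine ⟨fun q => (γ₀ q.1, conj (Θ q.1) * sg g₀ q.2), ?_, ?_, ?_⟩
    · rw [sf, hcj]
      exact h1
    · rw [sf, hcj]
      exact h2
    · obtain ⟨c1, c2⟩ := su1_chart_both D p hne
      have hcA : ContinuousAt (su1w D j.1 true) p := (su1_contDiffAt_w D j.1 true p hx1 c1).continuousAt
      have hcB : ContinuousAt (su1w D j.1 false) p :=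
        (su1_contDiffAt_w D j.1 false p hx1 c2).continuousAt
      have hys : ∀ᶠ y : SE D in 𝓝 p, y.2.1 ≠ 0 := by
        have : ContinuousAt (fun y : SE D => y.2.1) p := by fun_prop
        exact this.eventually_ne hne
      have hbase' : su1w D j.1 true p ^ 2 * g₀ ^ 2 = 1 := by
        rw [← mul_pow, hmul, one_pow]
      have key : ∀ᶠ y : SE D in 𝓝 p, sg g₀ (su1w D j.1 true y ^ 2) = su1w D j.1 false y := by
        apply eq_of_sq_eq
        · exact continuousAt_sg continuousAt_const (hcA.pow 2) (by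
            rw [hbase']; exact Complex.one_mem_slitPlane)
        · exact hcB
        · filter_upwards [hys, hE4] with y k1 k2
          have hm := su1_w_mul D j.1 y k2.1 k1
          have hA0 : su1w D j.1 true y ≠ 0 := left_ne_zero_of_mul_eq_one hm
          rw [sg_sq hg0 (pow_ne_zero 2 hA0)]
          apply inv_eq_of_mul_eq_one_right
          rw [← mul_pow, hm, one_pow]
        · exact sg_base hbase'
        · rw [sg_base hbase']
          exact hg0
      filter_upwards [hE1, hE2, hE3, key] with y k1 k2 k3 k4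
      refine Prod.ext k2 ?_
      show conj (Θ (D.H.f j.1 y.1)) * sg g₀ (sw D j.1 j.2.ch y) =
        sw D i.1 i.2.ch (sphAct D.M D.ℓ l y)
      rw [hci, hcj, su1_sw_act D i.1 j.1 l false Θ y k3 k1, su1_sw_true]
      simp only [Bool.false_eq_true, if_false]
      rw [k4]
  · -- A from B
    have hne : p.2.1 ≠ 0 := su1_ne D i.2 j.2 (by rw [hci, hcj]; decide) p hpi hj.2
    have hmul := su1_w_mul D j.1 p hx1 hne
    have hB0 : sw D j.1 false p ≠ 0 := by
      rw [su1_sw_false]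
      exact right_ne_zero_of_mul_eq_one hmul
    have hd : HasDerivAt (fun w : ℂ => (w ^ 2)⁻¹)
        (-(2 * sw D j.1 false p) / (sw D j.1 false p ^ 2) ^ 2) (sw D j.1 false p) := by
      have h1 : HasDerivAt (fun w : ℂ => w ^ 2) (2 * sw D j.1 false p) (sw D j.1 false p) := by
        simpa using hasDerivAt_pow 2 (sw D j.1 false p)
      exact h1.inv (pow_ne_zero 2 hB0)
    obtain ⟨h1, h2⟩ := su1_germ γ₀ (fun v => Θ v ^ 2) (fun w => (w ^ 2)⁻¹) (D.H.f j.1 p.1)
      (sw D j.1 false p) _ hγ1 hγ2 hT2 hTs0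
      ((contDiffAt_id.pow 2).inv (pow_ne_zero 2 hB0)) hd
      (div_ne_zero (neg_ne_zero.2 (mul_ne_zero two_ne_zero hB0))
        (pow_ne_zero 2 (pow_ne_zero 2 hB0)))
    refine ⟨fun q => (γ₀ q.1, Θ q.1 ^ 2 * (q.2 ^ 2)⁻¹), ?_, ?_, ?_⟩
    · rw [sf, hcj]
      exact h1
    · rw [sf, hcj]
      exact h2
    · have hys : ∀ᶠ y : SE D in 𝓝 p, y.2.1 ≠ 0 := by
        have : ContinuousAt (fun y : SE D => y.2.1) p := by fun_prop
        exact this.eventually_ne hne
      filter_upwards [hE1, hE2, hE3, hE4, hys] with y k1 k2 k3 k4 k5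
      refine Prod.ext k2 ?_
      show Θ (D.H.f j.1 y.1) ^ 2 * (sw D j.1 j.2.ch y ^ 2)⁻¹ =
        sw D i.1 i.2.ch (sphAct D.M D.ℓ l y)
      rw [hci, hcj, su1_sw_act D i.1 j.1 l true Θ y k3 k1, su1_sw_false]
      simp only [if_true]
      have hm := su1_w_mul D j.1 y k4.1 k5
      congr 1
      apply inv_eq_of_mul_eq_one_right
      rw [← mul_pow, mul_comm, hm, one_pow]
  · -- A from A
    obtain ⟨h1, h2⟩ := su1_germ γ₀ (fun v => Θ v ^ 2) (fun w => w) (D.H.f j.1 p.1)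
      (sw D j.1 true p) 1 hγ1 hγ2 hT2 hTs0 contDiffAt_id (hasDerivAt_id _) one_ne_zero
    refine ⟨fun q => (γ₀ q.1, Θ q.1 ^ 2 * q.2), ?_, ?_, ?_⟩
    · rw [sf, hcj]
      exact h1
    · rw [sf, hcj]
      exact h2
    · filter_upwards [hE1, hE2, hE3] with y k1 k2 k3
      refine Prod.ext k2 ?_
      show Θ (D.H.f j.1 y.1) ^ 2 * sw D j.1 j.2.ch y = sw D i.1 i.2.ch (sphAct D.M D.ℓ l y)
      rw [hci, hcj, su1_sw_act D i.1 j.1 l true Θ y k3 k1, su1_sw_true]
      simp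

theorem su1_open_w (hs : D.Splits) (i : D.H.ι) (c : Bool) (p : SE D) (hp : p.1 ∈ D.H.dom i)
    (hc : chartDom c p.2.1 p.2.2) :
    𝓝 (D.H.f i p.1, su1w D i c p) ≤
      map (fun q : SE D => (D.H.f i q.1, su1w D i c q)) (𝓝 p) := by
  obtain ⟨s, -, hs2, -⟩ := hs
  apply le_map_of_surjective (fun q : SE D => (D.H.f i q.1, su1w D i c q)) p
    ((su1_contDiffAt_f D i p hp).prodMk (su1_contDiffAt_w D i c p hp hc))
  have hf : HasFDerivAt (fun q : SE D => q.1) (ContinuousLinearMap.fst ℝ D.E (ℂ × ℝ)) p :=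
    hasFDerivAt_fst
  have hsn : HasFDerivAt (fun q : SE D => q.2) (ContinuousLinearMap.snd ℝ D.E (ℂ × ℝ)) p :=
    hasFDerivAt_snd
  have d1 : HasFDerivAt (fun q : SE D => D.H.f i q.1)
      (fderiv ℝ (D.H.f i) p.1 ∘L ContinuousLinearMap.fst ℝ D.E (ℂ × ℝ)) p :=
    HasFDerivAt.comp (g := D.H.f i) (f := fun q : SE D => q.1) p
      ((((D.H.smooth_f i).contDiffAt ((D.H.isOpen_dom i).mem_nhds hp)).differentiableAt
        (by simp)).hasFDerivAt) hf
  -- the unit factor depends only on the first coordinate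
  have hu : ∃ u' : D.E →L[ℝ] ℂ, HasFDerivAt (su1u D i c)
      (u' ∘L ContinuousLinearMap.fst ℝ D.E (ℂ × ℝ)) p := by
    have hφ : HasFDerivAt (fun q : SE D => D.φ i q.1)
        (fderiv ℝ (D.φ i) p.1 ∘L ContinuousLinearMap.fst ℝ D.E (ℂ × ℝ)) p :=
      HasFDerivAt.comp (g := D.φ i) (f := fun q : SE D => q.1) p
        ((((D.smooth_φ i).contDiffAt ((D.H.isOpen_dom i).mem_nhds hp)).differentiableAt
          (by simp)).hasFDerivAt) hf
    cases c
    · refine ⟨(Complex.conjCLE : ℂ →L[ℝ] ℂ) ∘L fderiv ℝ (D.φ i) p.1, ?_⟩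
      have h1 : su1u D i false = fun q => (Complex.conjCLE : ℂ →L[ℝ] ℂ) (D.φ i q.1) := by
        funext q
        simp [su1u]
      rw [h1]
      exact (Complex.conjCLE : ℂ →L[ℝ] ℂ).hasFDerivAt.comp p hφ
    · refine ⟨fderiv ℝ (D.φ i) p.1, ?_⟩
      have h1 : su1u D i true = fun q => D.φ i q.1 := by
        funext q
        simp [su1u]
      rw [h1]
      exact hφ
  obtain ⟨u', hu'⟩ := hu
  set g' := fderiv ℝ (fun x : ℂ × ℝ => gC c x.1 x.2) (p.2.1, p.2.2) with hg'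
  have dg : HasFDerivAt (fun q : SE D => gC c q.2.1 q.2.2)
      (g' ∘L ContinuousLinearMap.snd ℝ D.E (ℂ × ℝ)) p :=
    HasFDerivAt.comp (g := fun x : ℂ × ℝ => gC c x.1 x.2) (f := fun q : SE D => q.2) p
      (((contDiffAt_gC c p.2.1 p.2.2 hc).differentiableAt (by simp)).hasFDerivAt) hsn
  have dw : HasFDerivAt (su1w D i c)
      (su1u D i c p • (g' ∘L ContinuousLinearMap.snd ℝ D.E (ℂ × ℝ)) +
        gC c p.2.1 p.2.2 • (u' ∘L ContinuousLinearMap.fst ℝ D.E (ℂ × ℝ))) p := hu'.mul dg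
  have dt := d1.prodMk dw
  rw [dt.fderiv]
  rintro ⟨a, z⟩
  have hu0 := su1_u_ne D i c p hp
  obtain ⟨m, hm⟩ := su1_surj_gC c p.2.1 p.2.2 hc
    ((z - gC c p.2.1 p.2.2 * u' (s i p.1 a)) / su1u D i c p)
  refine ⟨(s i p.1 a, m), ?_⟩
  have h1 : fderiv ℝ (D.H.f i) p.1 (s i p.1 a) = a :=
    congrArg (fun A : D.V →L[ℝ] D.V => A a) (hs2 i p.1 hp)
  refine Prod.ext ?_ ?_
  · exact h1
  · show su1u D i c p • g' m + gC c p.2.1 p.2.2 • u' (s i p.1 a) = z
    rw [hg', hm, smul_eq_mul, smul_eq_mul, mul_div_cancel₀ _ hu0]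
    ring

theorem open_sf (hs : D.Splits) (i : D.H.ι × SIdx) (p : SE D) (hp : p ∈ sdom D i) :
    𝓝 (sf D i p) ≤ map (sf D i) (𝓝 p) := by
  have hc := su1_chart D i.2 p hp.2
  have h1 := su1_open_w D hs i.1 i.2.ch p hp.1 hc
  rcases hch : i.2.ch with _ | _
  · rw [hch] at h1
    have h2 : sf D i = fun q : SE D => (D.H.f i.1 q.1, su1w D i.1 false q) := by
      funext q
      rw [sf, hch, su1_sw_false]
    rw [h2]
    exact h1
  · rw [hch] at h1
    have h2 : sf D i = (Prod.map id (fun z : ℂ => z ^ 2)) ∘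
        fun q : SE D => (D.H.f i.1 q.1, su1w D i.1 true q) := by
      funext q
      rw [sf, hch, su1_sw_true]
      rfl
    rw [h2, ← Filter.map_map]
    refine le_trans ?_ (Filter.map_mono h1)
    show 𝓝 (D.H.f i.1 p.1, su1w D i.1 true p ^ 2) ≤ _
    rw [nhds_prod_eq, nhds_prod_eq, ← Filter.prod_map_map_eq', Filter.map_id]
    exact Filter.prod_mono le_rfl (su1_sq_open _)

/-- the local maps of the suspension -/
noncomputable def susCharts (hs : D.Splits) : OpenCharts (sphM D.M D.ℓ) (D.V × ℂ) where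
  ι := D.H.ι × SIdx
  dom := sdom D
  isOpen_dom := isOpen_sdom D
  dom_subset := sdom_subset D
  cover := sdom_cover D
  f := sf D
  smooth_f := contDiffOn_sf D
  open_f := open_sf D hs
  trans := trans_sf D

/-- the Haefliger structure of the suspension -/
noncomputable def susH (hs : D.Splits) : HaefligerStructure (sphM D.M D.ℓ) (D.V × ℂ) :=
  (susCharts D hs).toH

end

end Pool.Agent.HAF2
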