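import Pool.Agent.HAF2.ChFr2
import Pool.Agent.HAF2.HypB
import Pool.Agent.HAF2.SphBase

/-!
# Module VHB: the block VH

Base: `sphBase hypBase 1 0 2 0 (sphCond_one 1)` (so the exponents are `optExp _ 2`, `b' = 0`);
`V = ℂ`, `H = hypH false`, `b0 i = ((), i.pt)`, frame `v ↦ efr false i p (v.1 none)`, `φ = 1`
(`J ^ 0 = 1`), `Θ = 1`.
-/

namespace Pool.Agent.HAF2

open Filter Topology MeasureTheory
open scoped ContDiff ComplexConjugate

/-- the model space of a single plane -/
noncomputable def oneTV : TV (Option Empty) Empty ≃L[ℝ] ℂ :=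
  LinearEquiv.toContinuousLinearEquiv
    { toFun := fun v => v.1 none
      invFun := fun c => (fun _ => c, fun k => k.elim)
      map_add' := fun _ _ => rfl
      map_smul' := fun _ _ => rfl
      left_inv := by
        intro v
        refine Prod.ext (funext fun r => ?_) (funext fun k => k.elim)
        cases r with
        | none => rfl
        | some r => exact r.elim
      right_inv := fun _ => rfl }

theorem oneTV_apply (v : TV (Option Empty) Empty) : oneTV v = v.1 none := rfl

theorem oneTV_det (A : ℂ →L[ℝ] ℂ) :
    ((oneTV.symm : ℂ →L[ℝ] TV (Option Empty) Empty) ∘L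
      (A ∘L (oneTV : TV (Option Empty) Empty →L[ℝ] ℂ))).det = A.det := by
  exact LinearMap.det_conj (A : ℂ →ₗ[ℝ] ℂ) oneTV.symm.toLinearEquiv

theorem oneTV_rot (ρ : Option Empty → ℂ) :
    (oneTV : TV (Option Empty) Empty →L[ℝ] ℂ) ∘L rotT ρ =
      mulC (ρ none) ∘L (oneTV : TV (Option Empty) Empty →L[ℝ] ℂ) := by
  refine ContinuousLinearMap.ext fun v => ?_
  rfl

theorem optExp_two : optExp (fun _ : Empty => 0) 2 = fun _ => 2 := by
  funext r
  cases r with
  | none => rfl
  | some r => exact r.elim

theorem vh_block : Nonempty (Block (Option Empty) Empty 2 (fun _ => 2) 0) := by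
  rw [← optExp_two]
  refine ⟨{ toBase := sphBase hypBase 1 0 2 0 (sphCond_one 1)
            V := ℂ
            H := hypH false
            b0 := fun i => ((), i.pt)
            dom_b0 := ?_
            o := oneTV
            frame := fun i p => efr false i p ∘L (oneTV : TV (Option Empty) Empty →L[ℝ] ℂ)
            smooth_frame := ?_
            orient_frame := ?_
            frame_rot := ?_
            φ := fun _ _ => 1
            smooth_φ := fun _ => contDiffOn_const
            norm_φ := fun _ _ _ => norm_one
            leafwise := ?_ }⟩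
  · intro i p hp
    have hp2 : p ∈ patchDom hypM i.pt := hp.2
    have hp3 : p ∈ sphU hypM := by
      cases hi : i.pt with
      | R => rw [hi] at hp2; exact hp2.1
      | N => rw [hi] at hp2; exact hp2.1
      | S => rw [hi] at hp2; exact hp2.1
    exact ⟨hp3.1, hp2⟩
  · intro i
    exact (contDiffOn_efr false i).clm_comp contDiffOn_const
  · intro i p hp
    have h := det_efr_pos false i p hp
    rw [← oneTV_det] at h
    exact h
  · intro i a j x hj hi
    have h := efr_rot false i a j x hj hi
    show (hypH false).normal i a j x ∘L (efr false j x ∘L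
      (oneTV : TV (Option Empty) Empty →L[ℝ] ℂ)) = (efr false i (sphAct hypM hypL a x) ∘L
      (oneTV : TV (Option Empty) Empty →L[ℝ] ℂ)) ∘L rotT _
    rw [ContinuousLinearMap.comp_assoc, oneTV_rot, ← ContinuousLinearMap.comp_assoc,
      ← ContinuousLinearMap.comp_assoc, h]
    rfl
  · intro i a j x _ _
    refine ⟨fun _ => 1, contDiffAt_const, Eventually.of_forall fun y => ?_⟩
    show 1 * (hypL.J a y.1 ^ 0) = 1 * 1
    rw [pow_zero]

end Pool.Agent.HAF2
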